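import Pool.Agent.Lib_helper39.MQ.Defs

/-! MQ, block ALG (helper37): the ring. -/

namespace Pool.Agent.MQ

open Filter Topology MeasureTheory

theorem nm_ml_pr (b c : ℤ) (v w : El) : nm b c (ml b c v w) = nm b c v * nm b c w := by
  simp only [nm, ml]; ring

theorem nm_cj_pr (b c : ℤ) (v : El) : nm b c (cj b v) = nm b c v := by
  simp only [nm, cj]; ring

theorem ml_comm_pr (b c : ℤ) (v w : El) : ml b c v w = ml b c w v := by
  simp only [ml, Prod.mk.injEq]; constructor <;> ring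

theorem ml_assoc_pr (b c : ℤ) (u v w : El) :
    ml b c (ml b c u v) w = ml b c u (ml b c v w) := by
  simp only [ml, Prod.mk.injEq]; constructor <;> ring

theorem ml_one_pr (b c : ℤ) (v : El) : ml b c v (1, 0) = v := by
  refine Prod.ext ?_ ?_ <;> simp only [ml] <;> ring

theorem ml_cj_pr (b c : ℤ) (v w : El) : ml b c (cj b v) w = (bl b c v w, dt v w) := by
  simp only [ml, cj, bl, dt, Prod.mk.injEq]; constructor <;> ring

theorem ml_cj_self_pr (b c : ℤ) (v : El) : ml b c (cj b v) v = (nm b c v, 0) := by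
  simp only [ml, cj, nm, Prod.mk.injEq]; constructor <;> ring

theorem ml_scal_pr (b c k : ℤ) (v : El) : ml b c (k, 0) v = (k * v.1, k * v.2) := by
  simp only [ml, Prod.mk.injEq]; constructor <;> ring

theorem nm_bl_pr (b c : ℤ) (v w : El) :
    nm b c v * nm b c w = bl b c v w ^ 2 + b * bl b c v w * dt v w + c * dt v w ^ 2 := by
  simp only [nm, bl, dt]; ring

theorem nm_bl_one_pr (b c : ℤ) (v w : El) (h : dt v w = 1) :
    nm b c v * nm b c w = fv b c (bl b c v w) := by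
  rw [nm_bl_pr, h, fv]; ring

theorem dt_cn_pr (e : ℕ → El) (i s t s' t' : ℕ) :
    dt (cn e i s t) (cn e i s' t') = ((s : ℤ) * t' - t * s') * dt (e i) (e (i + 1)) := by
  simp only [dt, cn]; ring

theorem ml_cancel_pr (b c : ℤ) (s v w : El) (hs : nm b c s ≠ 0) (h : ml b c s v = ml b c s w) :
    v = w := by
  have key : ∀ z : El, ml b c (cj b s) (ml b c s z) = (nm b c s * z.1, nm b c s * z.2) := by
    intro z
    rw [← ml_assoc_pr, ml_cj_self_pr, ml_scal_pr]
  have h1 : (nm b c s * v.1, nm b c s * v.2) = (nm b c s * w.1, nm b c s * w.2) := by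
    rw [← key v, h, key w]
  rw [Prod.mk.injEq] at h1
  exact Prod.ext (mul_left_cancel₀ hs h1.1) (mul_left_cancel₀ hs h1.2)

theorem gg_pm_pr {b c : ℤ} {h : ℕ → ℤ} (hh : Sgn h) {v : El} (hv : nm b c v ≠ 0) :
    gg b c h v = 1 ∨ gg b c h v = -1 :=
  hh.pm _ (Nat.one_le_iff_ne_zero.2 (Int.natAbs_ne_zero.2 hv))

theorem gg_ml_pr {b c : ℤ} {h : ℕ → ℤ} (hh : Sgn h) {v w : El} (hv : nm b c v ≠ 0)
    (hw : nm b c w ≠ 0) : gg b c h (ml b c v w) = gg b c h v * gg b c h w := by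
  unfold gg
  rw [nm_ml_pr, Int.natAbs_mul]
  exact hh.mul _ _ (Nat.one_le_iff_ne_zero.2 (Int.natAbs_ne_zero.2 hv))
    (Nat.one_le_iff_ne_zero.2 (Int.natAbs_ne_zero.2 hw))

theorem gg_sm_pr {b c : ℤ} {h : ℕ → ℤ} (hh : Sgn h) {v : El} (hv : nm b c v ≠ 0) {k : ℕ}
    (hk : 1 ≤ k) : gg b c h (sm k v) = gg b c h v := by
  unfold gg
  have h1 : nm b c (sm k v) = ((k * k : ℕ) : ℤ) * nm b c v := by
    simp only [nm, sm]; push_cast; ring
  rw [h1, Int.natAbs_mul, Int.natAbs_natCast]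
  have h0 : 1 ≤ (nm b c v).natAbs := Nat.one_le_iff_ne_zero.2 (Int.natAbs_ne_zero.2 hv)
  rw [hh.mul _ _ (Nat.mul_pos hk hk) h0, hh.mul _ _ hk hk]
  rcases hh.pm k hk with h2 | h2 <;> rw [h2] <;> ring

end Pool.Agent.MQ

namespace Pool.Agent.MQ

theorem nm_ml : type_of% @nm_ml_pr := @nm_ml_pr
theorem nm_cj : type_of% @nm_cj_pr := @nm_cj_pr
theorem ml_comm : type_of% @ml_comm_pr := @ml_comm_pr
theorem ml_assoc : type_of% @ml_assoc_pr := @ml_assoc_pr
theorem ml_one : type_of% @ml_one_pr := @ml_one_pr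
theorem ml_cj : type_of% @ml_cj_pr := @ml_cj_pr
theorem ml_cj_self : type_of% @ml_cj_self_pr := @ml_cj_self_pr
theorem ml_scal : type_of% @ml_scal_pr := @ml_scal_pr
theorem nm_bl : type_of% @nm_bl_pr := @nm_bl_pr
theorem nm_bl_one : type_of% @nm_bl_one_pr := @nm_bl_one_pr
theorem dt_cn : type_of% @dt_cn_pr := @dt_cn_pr
theorem ml_cancel : type_of% @ml_cancel_pr := @ml_cancel_pr
theorem gg_pm : type_of% @gg_pm_pr := @gg_pm_pr
theorem gg_ml : type_of% @gg_ml_pr := @gg_ml_pr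
theorem gg_sm : type_of% @gg_sm_pr := @gg_sm_pr

end Pool.Agent.MQ
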