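import Pool.Agent.Lib_helper39.MQ.Defs
import Pool.Agent.Lib_helper39.MQX.ALG

/-! Block SBA: representatives. -/

namespace Pool.Agent.MQ

open Filter Topology MeasureTheory

section
variable {b c : ℤ} (S : Sys b c)

theorem wd_nm_pr {v : El} (hv : S.wd v) : 0 < nm b c v := by
  rcases hv with ⟨h1, h2⟩ | ⟨h1, h2⟩
  · unfold nm
    rw [h1]
    have : 0 < v.1 ^ 2 := by positivity
    simpa using this
  · have hy : (0 : ℝ) < v.2 := by exact_mod_cast h1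
    have h3 : dsc b c < 0 ∨ S.lam ≤ (v.1 : ℝ) / v.2 := by
      rcases h2 with h2 | h2
      · exact Or.inl h2
      · right
        rw [le_div_iff₀ hy]
        exact h2.le
    have h4 := S.pos _ h3
    have h5 : (0 : ℝ) < (((v.1 : ℝ) / v.2) ^ 2 + b * ((v.1 : ℝ) / v.2) + c) * (v.2 : ℝ) ^ 2 := by
      positivity
    have h6 : (((v.1 : ℝ) / v.2) ^ 2 + b * ((v.1 : ℝ) / v.2) + c) * (v.2 : ℝ) ^ 2 =
        ((nm b c v : ℤ) : ℝ) := by
      unfold nm
      push_cast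
      field_simp
    rw [h6] at h5
    exact_mod_cast h5

theorem rp_nm_pr {v : El} (hv : 0 < nm b c v) : nm b c (S.rp v) = nm b c v := by
  obtain ⟨w, h1, _, h3⟩ := S.rp_unit v hv
  rw [h3, nm_ml, h1, one_mul]

theorem sba_cj_ml {o z : El} (ho : nm b c o = 1) : ml b c (cj b o) (ml b c o z) = z := by
  rw [← ml_assoc, ml_cj_self, ho, ml_comm, ml_one]

theorem sba_ml_cj {o z : El} (ho : nm b c o = 1) : ml b c o (ml b c (cj b o) z) = z := by
  rw [← ml_assoc, ml_comm b c o, ml_cj_self, ho, ml_comm, ml_one]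

theorem rp_eq_pr {v w : El} (hv : 0 < nm b c v) (hw : 0 < nm b c w) (h : S.rp v = S.rp w) :
    ∃ o : El, nm b c o = 1 ∧ (∀ z, 0 < nm b c z → S.rp (ml b c o z) = S.rp z) ∧
      w = ml b c o v := by
  obtain ⟨o1, h1, h2, h3⟩ := S.rp_unit v hv
  obtain ⟨o2, g1, g2, g3⟩ := S.rp_unit w hw
  refine ⟨ml b c (cj b o2) o1, ?_, ?_, ?_⟩
  · rw [nm_ml, nm_cj, h1, g1, one_mul]
  · intro z hz
    rw [ml_assoc]
    have hy : 0 < nm b c (ml b c o1 z) := by
      rw [nm_ml, h1, one_mul]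
      exact hz
    have hy' : 0 < nm b c (ml b c (cj b o2) (ml b c o1 z)) := by
      rw [nm_ml, nm_cj, g1, one_mul]
      exact hy
    rw [← g2 _ hy', sba_ml_cj g1]
    exact h2 z hz
  · rw [ml_assoc, ← h3, h, g3, sba_cj_ml g1]

theorem rp_ml_rp_pr {v w : El} (hv : 0 < nm b c v) (hw : 0 < nm b c w) :
    S.rp (ml b c (S.rp v) w) = S.rp (ml b c v w) := by
  obtain ⟨o, _, h2, h3⟩ := S.rp_unit v hv
  rw [h3, ml_assoc]
  apply h2
  rw [nm_ml]
  positivity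

theorem rp_inj_pr {s v w : El} (hs : 0 < nm b c s) (hv : S.wd v) (hw : S.wd w)
    (h : S.rp (ml b c s v) = S.rp (ml b c s w)) : v = w := by
  have hv' := wd_nm_pr S hv
  have hw' := wd_nm_pr S hw
  have h1 : 0 < nm b c (ml b c s v) := by
    rw [nm_ml]
    positivity
  have h2 : 0 < nm b c (ml b c s w) := by
    rw [nm_ml]
    positivity
  obtain ⟨o, _, g2, g3⟩ := rp_eq_pr S h1 h2 h
  have h3 : ml b c s w = ml b c s (ml b c o v) := by
    rw [g3, ← ml_assoc, ← ml_assoc, ml_comm b c o s]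
  have h4 := ml_cancel b c s w (ml b c o v) hs.ne' h3
  have h5 := S.rp_self w hw
  have h6 := S.rp_self v hv
  rw [← h5, h4, g2 v hv', h6]

theorem sba_gcd_dvd (o v : El) :
    Int.gcd v.1 v.2 ∣ Int.gcd (ml b c o v).1 (ml b c o v).2 := by
  have h1 : ((Int.gcd v.1 v.2 : ℕ) : ℤ) ∣ v.1 := Int.gcd_dvd_left ..
  have h2 : ((Int.gcd v.1 v.2 : ℕ) : ℤ) ∣ v.2 := Int.gcd_dvd_right ..
  apply Int.natCast_dvd_natCast.1
  apply Int.dvd_coe_gcd
  · show _ ∣ o.1 * v.1 - c * o.2 * v.2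
    exact dvd_sub (Dvd.dvd.mul_left h1 _) (Dvd.dvd.mul_left h2 _)
  · show _ ∣ o.1 * v.2 + o.2 * v.1 + b * o.2 * v.2
    exact dvd_add (dvd_add (Dvd.dvd.mul_left h2 _) (Dvd.dvd.mul_left h1 _))
      (Dvd.dvd.mul_left h2 _)

theorem rp_gcd_pr {v : El} (hv : 0 < nm b c v) :
    Int.gcd (S.rp v).1 (S.rp v).2 = Int.gcd v.1 v.2 := by
  obtain ⟨o, h1, _, h3⟩ := S.rp_unit v hv
  apply Nat.dvd_antisymm
  · have h4 := sba_gcd_dvd (b := b) (c := c) (cj b o) (S.rp v)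
    rw [h3, sba_cj_ml h1, ← h3] at h4
    exact h4
  · rw [h3]
    exact sba_gcd_dvd o v

theorem wd_sm_pr {v : El} {k : ℕ} (hk : 1 ≤ k) : S.wd (sm k v) ↔ S.wd v := by
  have hk' : (0 : ℤ) < k := by exact_mod_cast hk
  have hkr : (0 : ℝ) < k := by exact_mod_cast hk
  show wdw b c S.lam (sm k v) ↔ wdw b c S.lam v
  unfold wdw sm
  simp only
  have e1 : (k : ℤ) * v.2 = 0 ↔ v.2 = 0 := by
    rw [mul_eq_zero]
    exact ⟨fun h => h.resolve_left hk'.ne', fun h => Or.inr h⟩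
  have e2 : 0 < (k : ℤ) * v.1 ↔ 0 < v.1 := mul_pos_iff_of_pos_left hk'
  have e3 : 0 < (k : ℤ) * v.2 ↔ 0 < v.2 := mul_pos_iff_of_pos_left hk'
  have e4 : S.lam * (((k : ℤ) * v.2 : ℤ) : ℝ) < (((k : ℤ) * v.1 : ℤ) : ℝ) ↔
      S.lam * (v.2 : ℝ) < (v.1 : ℝ) := by
    push_cast
    constructor
    · intro h
      have h' : (k : ℝ) * (S.lam * v.2) < k * v.1 := by linarith
      exact lt_of_mul_lt_mul_left h' hkr.le
    · intro h
      have h' := mul_lt_mul_of_pos_left h hkr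
      linarith
  rw [e1, e2, e3, e4]

theorem sba_nm_sm {v : El} {k : ℕ} : nm b c (sm k v) = (k : ℤ) ^ 2 * nm b c v := by
  unfold nm sm
  simp only
  ring

theorem sba_ml_sm {o v : El} {k : ℕ} : ml b c o (sm k v) = sm k (ml b c o v) := by
  unfold ml sm
  simp only [Prod.mk.injEq]
  constructor <;> ring

theorem rp_sm_pr {v : El} (hv : 0 < nm b c v) {k : ℕ} (hk : 1 ≤ k) :
    S.rp (sm k v) = sm k (S.rp v) := by
  obtain ⟨o, _, h2, h3⟩ := S.rp_unit v hv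
  have hk' : (0 : ℤ) < k := by exact_mod_cast hk
  have h4 : 0 < nm b c (sm k v) := by
    rw [sba_nm_sm]
    positivity
  rw [← h2 _ h4, sba_ml_sm, ← h3]
  exact S.rp_self _ ((wd_sm_pr S hk).2 (S.rp_wd v hv))

theorem gg_rp_pr (h : ℕ → ℤ) {v : El} (hv : 0 < nm b c v) :
    gg b c h (S.rp v) = gg b c h v := by
  unfold gg
  rw [rp_nm_pr S hv]

end

end Pool.Agent.MQ

namespace Pool.Agent.MQ

theorem wd_nm : type_of% @wd_nm_pr := @wd_nm_pr
theorem rp_nm : type_of% @rp_nm_pr := @rp_nm_pr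
theorem rp_eq : type_of% @rp_eq_pr := @rp_eq_pr
theorem rp_ml_rp : type_of% @rp_ml_rp_pr := @rp_ml_rp_pr
theorem rp_inj : type_of% @rp_inj_pr := @rp_inj_pr
theorem rp_gcd : type_of% @rp_gcd_pr := @rp_gcd_pr
theorem rp_sm : type_of% @rp_sm_pr := @rp_sm_pr
theorem gg_rp : type_of% @gg_rp_pr := @gg_rp_pr
theorem wd_sm : type_of% @wd_sm_pr := @wd_sm_pr

end Pool.Agent.MQ
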