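import Pool.Agent.Lib_helper39.MQ.Defs
import Pool.Agent.Lib_helper39.MQX.ALG
import Pool.Agent.Lib_helper39.MQX.SBA

/-! MQ. Block SBC: the coordinate. -/

namespace Pool.Agent.MQ

open Filter Topology MeasureTheory

section
variable {b c : ℤ} (S : Sys b c)

theorem sbc_cn10 (e : ℕ → El) (i : ℕ) : cn e i 1 0 = e i := by
  simp [cn]

theorem sbc_cn01 (e : ℕ → El) (i : ℕ) : cn e i 0 1 = e (i + 1) := by
  simp [cn]

theorem sbc_cn_s0 (e : ℕ → El) (i s : ℕ) : cn e i s 0 = sm s (e i) := by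
  simp [cn, sm]

theorem sbc_cn_0t (e : ℕ → El) (i t : ℕ) : cn e i 0 t = sm t (e (i + 1)) := by
  simp [cn, sm]

theorem sbc_dt_left (i s t : ℕ) (hi : i < S.r) :
    dt (cn S.e i 1 0) (cn S.e i s t) = t := by
  rw [dt_cn, S.e_det i hi]; push_cast; ring

theorem sbc_dt_right (i s t : ℕ) (hi : i < S.r) :
    dt (cn S.e i s t) (cn S.e i 0 1) = s := by
  rw [dt_cn, S.e_det i hi]; push_cast; ring

theorem u_sm_pr {v : El} {k : ℕ} (hk : 1 ≤ k) : S.u (sm k v) = S.u v := by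
  have hk' : (0 : ℤ) < (k : ℤ) := by exact_mod_cast hk
  have hkr : ((k : ℕ) : ℝ) ≠ 0 := by positivity
  unfold Sys.u uu sm
  by_cases h2 : v.2 = 0
  · simp only [h2, mul_zero, if_true]
    by_cases h1 : 0 < v.1
    · rw [if_pos h1, if_pos (mul_pos hk' h1)]
    · rw [if_neg h1, if_neg]
      intro h
      exact h1 ((mul_pos_iff_of_pos_left hk').1 h)
  · have h3 : (k : ℤ) * v.2 ≠ 0 := mul_ne_zero hk'.ne' h2
    simp only [h3, h2, if_false]
    congr 1
    push_cast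
    rw [mul_div_mul_left _ _ hkr]

theorem u_ml_pr {v w : El} (hv : 0 < nm b c v) (hw : 0 < nm b c w) : ∃ n : ℤ,
    S.u (S.rp (ml b c v w)) = S.u (S.rp v) + S.u (S.rp w) + n := by
  obtain ⟨n, hn⟩ := S.u_hom (S.rp v) (S.rp w) (S.rp_wd v hv) (S.rp_wd w hw)
  refine ⟨n, ?_⟩
  have hw' : 0 < nm b c (S.rp w) := by rw [rp_nm S hw]; exact hw
  have h1 : S.rp (ml b c (S.rp v) (S.rp w)) = S.rp (ml b c v w) := by
    rw [rp_ml_rp S hv hw', ml_comm, rp_ml_rp S hw hv, ml_comm]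
  rw [← h1]
  exact hn

theorem sbc_u0 : S.u (S.e 0) = 0 := by
  rw [S.e_zero]; simp [Sys.u, uu]

theorem sbc_step {i : ℕ} (hi : i < S.r) : S.u (S.e i) < S.u (S.e (i + 1)) := by
  have hd : dt (cn S.e i 1 0) (cn S.e i 0 1) = 1 := by
    rw [sbc_dt_left S i 0 1 hi]; norm_num
  have h := (S.u_det i 1 0 0 1 hi (by rw [hd]; norm_num)).1
  rw [hd, sbc_cn10, sbc_cn01] at h
  have h1 : (0 : ℝ) < nm b c (S.e i) := by exact_mod_cast S.e_nm i hi.le
  have h2 : (0 : ℝ) < nm b c (S.e (i + 1)) := by exact_mod_cast S.e_nm (i + 1) hi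
  have h3 : 0 < S.c₁ * ((1 : ℤ) : ℝ) /
      Real.sqrt (nm b c (S.e i) * nm b c (S.e (i + 1))) := by
    have := S.c₁_pos
    have h4 : 0 < Real.sqrt (nm b c (S.e i) * nm b c (S.e (i + 1))) :=
      Real.sqrt_pos.2 (mul_pos h1 h2)
    push_cast
    positivity
  change uu S.ur (S.e i) < uu S.ur (S.e (i + 1))
  linarith

theorem u_ends_pr : S.u (S.e 0) = 0 ∧ S.u (S.e S.r) = 1 ∧
    ∀ i, i < S.r → S.u (S.e i) < S.u (S.e (i + 1)) :=
  ⟨sbc_u0 S, S.e_last.2, fun _ hi => sbc_step S hi⟩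

theorem sbc_low {i s t : ℕ} (hi : i < S.r) (h : 1 ≤ s + t) :
    S.u (S.e i) ≤ S.u (cn S.e i s t) := by
  rcases Nat.eq_zero_or_pos t with ht | ht
  · subst ht
    rw [sbc_cn_s0, u_sm_pr S (by omega)]
  · have hd := sbc_dt_left S i s t hi
    have h := (S.u_det i 1 0 s t hi (by rw [hd]; exact_mod_cast ht)).1
    rw [hd, sbc_cn10] at h
    have h3 : 0 ≤ S.c₁ * (((t : ℕ) : ℤ) : ℝ) /
        Real.sqrt (nm b c (S.e i) * nm b c (cn S.e i s t)) := by
      have := S.c₁_pos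
      push_cast
      positivity
    change uu S.ur (S.e i) ≤ uu S.ur (cn S.e i s t)
    linarith

theorem sbc_high {i s t : ℕ} (hi : i < S.r) (h : 1 ≤ s + t) :
    S.u (cn S.e i s t) ≤ S.u (S.e (i + 1)) := by
  rcases Nat.eq_zero_or_pos s with hs | hs
  · subst hs
    rw [sbc_cn_0t, u_sm_pr S (by omega)]
  · have hd := sbc_dt_right S i s t hi
    have h := (S.u_det i s t 0 1 hi (by rw [hd]; exact_mod_cast hs)).1
    rw [hd, sbc_cn01] at h
    have h3 : 0 ≤ S.c₁ * (((s : ℕ) : ℤ) : ℝ) /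
        Real.sqrt (nm b c (cn S.e i s t) * nm b c (S.e (i + 1))) := by
      have := S.c₁_pos
      push_cast
      positivity
    change uu S.ur (cn S.e i s t) ≤ uu S.ur (S.e (i + 1))
    linarith

theorem u_cone_pr {i s t : ℕ} (hi : i < S.r) (h : 1 ≤ s + t) :
    S.u (S.e i) ≤ S.u (cn S.e i s t) ∧ S.u (cn S.e i s t) ≤ S.u (S.e (i + 1)) :=
  ⟨sbc_low S hi h, sbc_high S hi h⟩

theorem sbc_mono {i j : ℕ} (hij : i ≤ j) (hj : j ≤ S.r) : S.u (S.e i) ≤ S.u (S.e j) := by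
  induction j, hij using Nat.le_induction with
  | base => exact le_rfl
  | succ j hij ih => exact (ih (by omega)).trans (sbc_step S (by omega)).le

/-- the bound for the norms of the boundary elements -/
theorem sbc_bound : ∃ M : ℝ, 1 ≤ M ∧ ∀ i, i ≤ S.r → (nm b c (S.e i) : ℝ) ≤ M := by
  refine ⟨1 + ∑ i ∈ Finset.range (S.r + 1), |(nm b c (S.e i) : ℝ)|, ?_, ?_⟩
  · have : 0 ≤ ∑ i ∈ Finset.range (S.r + 1), |(nm b c (S.e i) : ℝ)| :=
      Finset.sum_nonneg fun i _ => abs_nonneg _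
    linarith
  · intro i hi
    have h1 := Finset.single_le_sum (f := fun i => |(nm b c (S.e i) : ℝ)|)
      (fun i _ => abs_nonneg _) (Finset.mem_range.2 (show i < S.r + 1 by omega))
    have h2 := le_abs_self ((nm b c (S.e i) : ℤ) : ℝ)
    linarith

theorem sbc_gap {M : ℝ} (hM : 1 ≤ M) (hM' : ∀ i, i ≤ S.r → (nm b c (S.e i) : ℝ) ≤ M)
    {i s t : ℕ} (hi : i < S.r) (hs : 1 ≤ s) {X : ℝ} (hX : 1 ≤ X)
    (hn : (nm b c (cn S.e i s t) : ℝ) ≤ X) :
    S.c₁ / M / X ≤ S.u (S.e (i + 1)) - S.u (cn S.e i s t) := by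
  have hd := sbc_dt_right S i s t hi
  have h := (S.u_det i s t 0 1 hi (by rw [hd]; exact_mod_cast hs)).1
  rw [hd, sbc_cn01] at h
  have hv : S.wd (cn S.e i s t) := (S.e_wd _).2 ⟨i, s, t, hi, hs, rfl⟩
  have h1 : (0 : ℝ) < nm b c (cn S.e i s t) := by exact_mod_cast wd_nm S hv
  have h2 : (0 : ℝ) < nm b c (S.e (i + 1)) := by exact_mod_cast S.e_nm (i + 1) hi
  have h4 : 0 < Real.sqrt (nm b c (cn S.e i s t) * nm b c (S.e (i + 1))) :=
    Real.sqrt_pos.2 (mul_pos h1 h2)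
  have h5 : Real.sqrt (nm b c (cn S.e i s t) * nm b c (S.e (i + 1))) ≤ M * X := by
    rw [Real.sqrt_le_left (by positivity)]
    have h6 : (nm b c (cn S.e i s t) : ℝ) * nm b c (S.e (i + 1)) ≤ X * M :=
      mul_le_mul hn (hM' _ hi) h2.le (by linarith)
    have h7 : X * M ≤ (M * X) ^ 2 := by
      have : 1 ≤ M * X := by nlinarith
      nlinarith
    exact h6.trans h7
  have h8 : S.c₁ / M / X ≤ S.c₁ * (((s : ℕ) : ℤ) : ℝ) /
      Real.sqrt (nm b c (cn S.e i s t) * nm b c (S.e (i + 1))) := by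
    rw [div_div]
    have hc := S.c₁_pos
    have hs' : (1 : ℝ) ≤ (((s : ℕ) : ℤ) : ℝ) := by exact_mod_cast hs
    apply div_le_div₀ (by positivity) (by nlinarith) h4 h5
  change S.c₁ / M / X ≤ uu S.ur (S.e (i + 1)) - uu S.ur (cn S.e i s t)
  linarith

theorem u_range_pr {v : El} (hv : S.wd v) : 0 ≤ S.u v ∧ S.u v < 1 := by
  obtain ⟨i, s, t, hi, hs, rfl⟩ := (S.e_wd v).1 hv
  constructor
  · have h1 := sbc_low S (i := i) (s := s) (t := t) hi (by omega)
    have h2 := sbc_mono S (Nat.zero_le i) hi.le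
    rw [sbc_u0] at h2
    linarith
  · obtain ⟨M, hM, hM'⟩ := sbc_bound S
    have h0 : (0 : ℝ) < nm b c (cn S.e i s t) := by exact_mod_cast wd_nm S hv
    have h1 := sbc_gap S hM hM' hi hs (X := 1 + nm b c (cn S.e i s t)) (t := t) (by linarith)
      (by linarith)
    have h2 := sbc_mono S (show i + 1 ≤ S.r from hi) le_rfl
    have h3 : S.u (S.e S.r) = 1 := S.e_last.2
    have h4 : 0 < S.c₁ / M / (1 + nm b c (cn S.e i s t)) := by
      have := S.c₁_pos
      positivity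
    linarith

/-- the case of nonnegative difference -/
theorem sbc_sep {M : ℝ} (hM : 1 ≤ M) (hM' : ∀ i, i ≤ S.r → (nm b c (S.e i) : ℝ) ≤ M)
    {X : ℝ} (hX : 1 ≤ X) {v w : El} (hv : S.wd v) (hw : S.wd w)
    (hvX : (nm b c v : ℝ) ≤ X) (hwX : (nm b c w : ℝ) ≤ X) (hd : dt v w ≠ 0) :
    S.c₁ / M / X ≤ |S.u v - S.u w| := by
  have key : ∀ {v w : El} {i s t j s' t' : ℕ}, i < S.r → j < S.r → 1 ≤ s → 1 ≤ s' →
      v = cn S.e i s t → w = cn S.e j s' t' → (nm b c v : ℝ) ≤ X → (nm b c w : ℝ) ≤ X →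
      i < j → S.c₁ / M / X ≤ S.u w - S.u v := by
    intro v w i s t j s' t' hi hj hs hs' hv hw hvX hwX hij
    subst hv hw
    have h1 := sbc_gap S hM hM' hi hs hX hvX
    have h2 := sbc_low S (i := j) (s := s') (t := t') hj (by omega)
    have h3 := sbc_mono S (show i + 1 ≤ j from hij) hj.le
    linarith
  have same : ∀ {i s t s' t' : ℕ}, i < S.r → 1 ≤ s → 1 ≤ s' →
      (nm b c (cn S.e i s t) : ℝ) ≤ X → (nm b c (cn S.e i s' t') : ℝ) ≤ X →
      0 < dt (cn S.e i s t) (cn S.e i s' t') →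
      S.c₁ / M / X ≤ S.u (cn S.e i s' t') - S.u (cn S.e i s t) := by
    intro i s t s' t' hi hs hs' hvX hwX hd
    have h := (S.u_det i s t s' t' hi hd).1
    have hv : S.wd (cn S.e i s t) := (S.e_wd _).2 ⟨i, s, t, hi, hs, rfl⟩
    have hw : S.wd (cn S.e i s' t') := (S.e_wd _).2 ⟨i, s', t', hi, hs', rfl⟩
    have h1 : (0 : ℝ) < nm b c (cn S.e i s t) := by exact_mod_cast wd_nm S hv
    have h2 : (0 : ℝ) < nm b c (cn S.e i s' t') := by exact_mod_cast wd_nm S hw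
    have h4 : 0 < Real.sqrt (nm b c (cn S.e i s t) * nm b c (cn S.e i s' t')) :=
      Real.sqrt_pos.2 (mul_pos h1 h2)
    have h5 : Real.sqrt (nm b c (cn S.e i s t) * nm b c (cn S.e i s' t')) ≤ M * X := by
      rw [Real.sqrt_le_left (by positivity)]
      have h6 : (nm b c (cn S.e i s t) : ℝ) * nm b c (cn S.e i s' t') ≤ X * X :=
        mul_le_mul hvX hwX h2.le (by linarith)
      have h7 : X * X ≤ (M * X) ^ 2 := by
        have h8 : X ≤ M * X := by nlinarith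
        nlinarith
      exact h6.trans h7
    have h8 : S.c₁ / M / X ≤ S.c₁ * (dt (cn S.e i s t) (cn S.e i s' t') : ℤ) /
        Real.sqrt (nm b c (cn S.e i s t) * nm b c (cn S.e i s' t')) := by
      rw [div_div]
      have hc := S.c₁_pos
      have hs' : (1 : ℝ) ≤ ((dt (cn S.e i s t) (cn S.e i s' t') : ℤ) : ℝ) := by
        exact_mod_cast hd
      apply div_le_div₀ (by positivity) (by nlinarith) h4 h5
    change S.c₁ / M / X ≤ uu S.ur (cn S.e i s' t') - uu S.ur (cn S.e i s t)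
    linarith
  obtain ⟨i, s, t, hi, hs, rfl⟩ := (S.e_wd v).1 hv
  obtain ⟨j, s', t', hj, hs', rfl⟩ := (S.e_wd w).1 hw
  rcases lt_trichotomy i j with hij | hij | hij
  · have := key hi hj hs hs' rfl rfl hvX hwX hij
    rw [abs_sub_comm]
    exact this.trans (le_abs_self _)
  · subst hij
    rcases lt_or_gt_of_ne hd with hd' | hd'
    · have h1 : 0 < dt (cn S.e i s' t') (cn S.e i s t) := by
        have : dt (cn S.e i s' t') (cn S.e i s t) = - dt (cn S.e i s t) (cn S.e i s' t') := by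
          unfold dt; ring
        omega
      exact (same hi hs' hs hwX hvX h1).trans (le_abs_self _)
    · have := same hi hs hs' hvX hwX hd'
      rw [abs_sub_comm]
      exact this.trans (le_abs_self _)
  · have := key hj hi hs' hs rfl rfl hwX hvX hij
    exact this.trans (le_abs_self _)

theorem sbc_top {M : ℝ} (hM : 1 ≤ M) (hM' : ∀ i, i ≤ S.r → (nm b c (S.e i) : ℝ) ≤ M)
    {X : ℝ} (hX : 1 ≤ X) {v : El} (hv : S.wd v) (hvX : (nm b c v : ℝ) ≤ X) :
    S.u v ≤ 1 - S.c₁ / M / X := by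
  obtain ⟨i, s, t, hi, hs, rfl⟩ := (S.e_wd v).1 hv
  have h1 := sbc_gap S hM hM' hi hs hX hvX
  have h2 := sbc_mono S (show i + 1 ≤ S.r from hi) le_rfl
  have h3 : S.u (S.e S.r) = 1 := S.e_last.2
  linarith

/-- different directions are separated -/
theorem u_sep_pr : ∃ δ : ℝ, 0 < δ ∧ δ ≤ 1 ∧ ∀ X : ℝ, 1 ≤ X → ∀ v w : El, S.wd v → S.wd w →
    (nm b c v : ℝ) ≤ X → (nm b c w : ℝ) ≤ X → dt v w ≠ 0 → ∀ n : ℤ,
      δ / X ≤ |S.u v - S.u w + n| := by
  obtain ⟨M, hM, hM'⟩ := sbc_bound S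
  have hc := S.c₁_pos
  refine ⟨min 1 (S.c₁ / M), lt_min one_pos (by positivity), min_le_left _ _, ?_⟩
  intro X hX v w hv hw hvX hwX hd n
  have hle : min 1 (S.c₁ / M) / X ≤ S.c₁ / M / X := by
    gcongr
    exact min_le_right _ _
  refine hle.trans ?_
  have hv0 := (u_range_pr S hv).1
  have hw0 := (u_range_pr S hw).1
  have hv1 := sbc_top S hM hM' hX hv hvX
  have hw1 := sbc_top S hM hM' hX hw hwX
  rcases lt_trichotomy n 0 with hn | hn | hn
  · have h1 : ((n : ℤ) : ℝ) ≤ -1 := by exact_mod_cast (show n ≤ -1 by omega)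
    have h2 : S.u v - S.u w + n ≤ 0 := by
      have : 0 < S.c₁ / M / X := by positivity
      linarith
    rw [abs_of_nonpos h2]
    linarith
  · subst hn
    rw [Int.cast_zero, add_zero]
    exact sbc_sep S hM hM' hX hv hw hvX hwX hd
  · have h1 : (1 : ℝ) ≤ ((n : ℤ) : ℝ) := by exact_mod_cast (show 1 ≤ n by omega)
    have h2 : 0 ≤ S.u v - S.u w + n := by
      have : 0 < S.c₁ / M / X := by positivity
      linarith
    rw [abs_of_nonneg h2]
    linarith

end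

end Pool.Agent.MQ

namespace Pool.Agent.MQ

theorem u_range : type_of% @u_range_pr := @u_range_pr
theorem u_ends : type_of% @u_ends_pr := @u_ends_pr
theorem u_cone : type_of% @u_cone_pr := @u_cone_pr
theorem u_sm : type_of% @u_sm_pr := @u_sm_pr
theorem u_ml : type_of% @u_ml_pr := @u_ml_pr
theorem u_sep : type_of% @u_sep_pr := @u_sep_pr

end Pool.Agent.MQ
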