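import Pool.Agent.Lib_helper39.MQ.Defs

/-! MQ, block SBB: sizes. -/

namespace Pool.Agent.MQ

open Filter Topology MeasureTheory

theorem sbb_nm (b c : ℤ) (e : ℕ → El) (i s t : ℕ) :
    nm b c (cn e i s t) = nm b c (e i) * s ^ 2 +
      (nm b c (cn e i 1 1) - nm b c (e i) - nm b c (e (i + 1))) * (s * t) +
      nm b c (e (i + 1)) * t ^ 2 := by
  simp only [nm, cn]
  push_cast
  ring

theorem sbb_bl (b c : ℤ) (e : ℕ → El) (i s t s' t' : ℕ) :
    2 * bl b c (cn e i s t) (cn e i s' t') +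
      b * (((s : ℤ) * t' - t * s') * dt (e i) (e (i + 1))) =
      2 * nm b c (e i) * (s * s') +
      (nm b c (cn e i 1 1) - nm b c (e i) - nm b c (e (i + 1))) * (s * t' + s' * t) +
      2 * nm b c (e (i + 1)) * (t * t') := by
  simp only [nm, cn, bl, dt]
  push_cast
  ring

section
variable {b c : ℤ} (S : Sys b c)

/-- a common bound -/
theorem sbb_bd : ∃ M : ℤ, 2 ≤ M ∧ |b| ≤ M ∧ ∀ i, i < S.r →
    nm b c (cn S.e i 1 1) ≤ M ∧ |(S.e i).1| ≤ M ∧ |(S.e i).2| ≤ M ∧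
    |(S.e (i + 1)).1| ≤ M ∧ |(S.e (i + 1)).2| ≤ M := by
  set F : ℕ → ℤ := fun i => |nm b c (cn S.e i 1 1)| + |(S.e i).1| + |(S.e i).2| +
    |(S.e (i + 1)).1| + |(S.e (i + 1)).2| with hF
  have hF0 : ∀ i, 0 ≤ F i := by
    intro i
    simp only [hF]
    positivity
  refine ⟨2 + |b| + ∑ i ∈ Finset.range S.r, F i, ?_, ?_, ?_⟩
  · have := Finset.sum_nonneg (s := Finset.range S.r) (fun i _ => hF0 i)
    have := abs_nonneg b
    linarith
  · have := Finset.sum_nonneg (s := Finset.range S.r) (fun i _ => hF0 i)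
    linarith
  · intro i hi
    have h1 : F i ≤ ∑ i ∈ Finset.range S.r, F i :=
      Finset.single_le_sum (fun j _ => hF0 j) (Finset.mem_range.2 hi)
    have h2 : F i = |nm b c (cn S.e i 1 1)| + |(S.e i).1| + |(S.e i).2| +
      |(S.e (i + 1)).1| + |(S.e (i + 1)).2| := rfl
    have := abs_nonneg b
    have := abs_nonneg (nm b c (cn S.e i 1 1))
    have := le_abs_self (nm b c (cn S.e i 1 1))
    have := abs_nonneg (S.e i).1
    have := abs_nonneg (S.e i).2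
    have := abs_nonneg (S.e (i + 1)).1
    have := abs_nonneg (S.e (i + 1)).2
    refine ⟨?_, ?_, ?_, ?_, ?_⟩ <;> linarith

theorem cone_nm_pr : ∃ C : ℝ, 1 ≤ C ∧ ∀ i s t : ℕ, i < S.r →
    ((s + t : ℕ) : ℝ) ^ 2 / C ≤ nm b c (cn S.e i s t) ∧
      (nm b c (cn S.e i s t) : ℝ) ≤ C * ((s + t : ℕ) : ℝ) ^ 2 := by
  obtain ⟨M, hM2, -, hM⟩ := sbb_bd S
  have hMr : (2 : ℝ) ≤ (M : ℝ) := by exact_mod_cast hM2
  refine ⟨M, by linarith, ?_⟩
  intro i s t hi
  obtain ⟨h11, -, -, -, -⟩ := hM i hi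
  have hp := S.e_nm i hi.le
  have hr := S.e_nm (i + 1) hi
  have hq := S.e_ac i hi
  have hform := sbb_nm b c S.e i s t
  set p := nm b c (S.e i)
  set r' := nm b c (S.e (i + 1))
  set N := nm b c (cn S.e i 1 1)
  have hs : (0 : ℤ) ≤ s := by positivity
  have ht : (0 : ℤ) ≤ t := by positivity
  have hst : (0 : ℤ) ≤ (s : ℤ) * t := by positivity
  have hs2 : (0 : ℤ) ≤ (s : ℤ) ^ 2 := by positivity
  have ht2 : (0 : ℤ) ≤ (t : ℤ) ^ 2 := by positivity
  have hlow : ((s : ℤ) + t) ^ 2 ≤ 2 * nm b c (cn S.e i s t) := by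
    rw [hform]
    have h1 : (s : ℤ) ^ 2 ≤ p * s ^ 2 := by nlinarith
    have h2 : (s : ℤ) * t ≤ (N - p - r') * (s * t) := by nlinarith
    have h3 : (t : ℤ) ^ 2 ≤ r' * t ^ 2 := by nlinarith
    nlinarith
  have hup : nm b c (cn S.e i s t) ≤ M * ((s : ℤ) + t) ^ 2 := by
    rw [hform]
    have h1 : (s : ℤ) ^ 2 ≤ ((s : ℤ) + t) ^ 2 := by nlinarith
    have h2 : (s : ℤ) * t ≤ ((s : ℤ) + t) ^ 2 := by nlinarith
    have h3 : (t : ℤ) ^ 2 ≤ ((s : ℤ) + t) ^ 2 := by nlinarith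
    have h4 : p * (s : ℤ) ^ 2 ≤ p * ((s : ℤ) + t) ^ 2 := mul_le_mul_of_nonneg_left h1 hp.le
    have h5 : (N - p - r') * ((s : ℤ) * t) ≤ (N - p - r') * ((s : ℤ) + t) ^ 2 :=
      mul_le_mul_of_nonneg_left h2 hq.le
    have h6 : r' * (t : ℤ) ^ 2 ≤ r' * ((s : ℤ) + t) ^ 2 := mul_le_mul_of_nonneg_left h3 hr.le
    have h7 : N * ((s : ℤ) + t) ^ 2 ≤ M * ((s : ℤ) + t) ^ 2 :=
      mul_le_mul_of_nonneg_right h11 (by positivity)
    nlinarith
  have hlowr : ((s : ℝ) + t) ^ 2 ≤ 2 * (nm b c (cn S.e i s t) : ℝ) := by exact_mod_cast hlow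
  have hupr : (nm b c (cn S.e i s t) : ℝ) ≤ M * ((s : ℝ) + t) ^ 2 := by exact_mod_cast hup
  push_cast
  refine ⟨?_, hupr⟩
  rw [div_le_iff₀ (by linarith)]
  have h0 : (0 : ℝ) ≤ (nm b c (cn S.e i s t) : ℝ) := by
    have := sq_nonneg ((s : ℝ) + t)
    linarith
  nlinarith

theorem cone_bl_pr : ∃ C : ℝ, 1 ≤ C ∧ ∀ i s t s' t' : ℕ, i < S.r →
    (s : ℤ) * t' - t * s' = 1 → ((s + t : ℕ) : ℝ) * ((s' + t' : ℕ) : ℝ) / C - C ≤
      bl b c (cn S.e i s t) (cn S.e i s' t') ∧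
      (bl b c (cn S.e i s t) (cn S.e i s' t') : ℝ) ≤
        C * ((s + t : ℕ) : ℝ) * ((s' + t' : ℕ) : ℝ) := by
  obtain ⟨M, hM2, hbM, hM⟩ := sbb_bd S
  have hMr : (2 : ℝ) ≤ (M : ℝ) := by exact_mod_cast hM2
  refine ⟨2 * M, by linarith, ?_⟩
  intro i s t s' t' hi hdet
  obtain ⟨h11, -, -, -, -⟩ := hM i hi
  have hp := S.e_nm i hi.le
  have hr := S.e_nm (i + 1) hi
  have hq := S.e_ac i hi
  have hform := sbb_bl b c S.e i s t s' t'
  rw [S.e_det i hi, hdet] at hform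
  set p := nm b c (S.e i)
  set r' := nm b c (S.e (i + 1))
  set N := nm b c (cn S.e i 1 1)
  set B := bl b c (cn S.e i s t) (cn S.e i s' t')
  obtain ⟨hb1, hb2⟩ := abs_le.1 hbM
  have hss : (0 : ℤ) ≤ (s : ℤ) * s' := by positivity
  have hst' : (0 : ℤ) ≤ (s : ℤ) * t' := by positivity
  have hs't : (0 : ℤ) ≤ (s' : ℤ) * t := by positivity
  have htt : (0 : ℤ) ≤ (t : ℤ) * t' := by positivity
  have hP : ((s : ℤ) + t) * (s' + t') = s * s' + (s * t' + s' * t) + t * t' := by ring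
  have hP1 : (1 : ℤ) ≤ ((s : ℤ) + t) * (s' + t') := by
    rw [hP]; nlinarith
  have hlow : ((s : ℤ) + t) * (s' + t') - M ≤ 2 * B := by
    have h1 : (s : ℤ) * s' ≤ p * (s * s') := by nlinarith
    have h2 : (s : ℤ) * t' + s' * t ≤ (N - p - r') * (s * t' + s' * t) := by nlinarith
    have h3 : (t : ℤ) * t' ≤ r' * (t * t') := by nlinarith
    rw [hP]
    nlinarith
  have hup : 2 * B ≤ 4 * M * (((s : ℤ) + t) * (s' + t')) := by
    have h1 : (s : ℤ) * s' ≤ ((s : ℤ) + t) * (s' + t') := by rw [hP]; linarith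
    have h2 : (s : ℤ) * t' + s' * t ≤ ((s : ℤ) + t) * (s' + t') := by rw [hP]; linarith
    have h3 : (t : ℤ) * t' ≤ ((s : ℤ) + t) * (s' + t') := by rw [hP]; linarith
    set W := ((s : ℤ) + t) * (s' + t')
    have h4 : p * ((s : ℤ) * s') ≤ p * W := mul_le_mul_of_nonneg_left h1 hp.le
    have h5 : (N - p - r') * ((s : ℤ) * t' + s' * t) ≤ (N - p - r') * W :=
      mul_le_mul_of_nonneg_left h2 hq.le
    have h6 : r' * ((t : ℤ) * t') ≤ r' * W := mul_le_mul_of_nonneg_left h3 hr.le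
    have h7 : N * W ≤ M * W := mul_le_mul_of_nonneg_right h11 (by linarith)
    have h8 : M * 1 ≤ M * W := mul_le_mul_of_nonneg_left hP1 (by linarith)
    have h9 : 0 ≤ (N - p - r') * W := mul_nonneg hq.le (by linarith)
    nlinarith
  have hlowr : ((s : ℝ) + t) * (s' + t') - M ≤ 2 * (B : ℝ) := by exact_mod_cast hlow
  have hupr : 2 * (B : ℝ) ≤ 4 * M * (((s : ℝ) + t) * (s' + t')) := by exact_mod_cast hup
  have hW0 : (0 : ℝ) ≤ ((s : ℝ) + t) * (s' + t') := by positivity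
  push_cast
  refine ⟨?_, by linarith⟩
  have h1 : ((s : ℝ) + t) * (s' + t') / (2 * M) ≤ ((s : ℝ) + t) * (s' + t') / 2 :=
    div_le_div_of_nonneg_left hW0 (by norm_num) (by linarith)
  linarith

theorem wd_size_pr : ∃ C : ℝ, 1 ≤ C ∧ ∀ v : El, S.wd v →
    (v.1 : ℝ) ^ 2 + (v.2 : ℝ) ^ 2 ≤ C * nm b c v := by
  obtain ⟨M, hM2, -, hM⟩ := sbb_bd S
  obtain ⟨C, hC1, hC⟩ := cone_nm_pr S
  have hMr : (2 : ℝ) ≤ (M : ℝ) := by exact_mod_cast hM2
  refine ⟨2 * M ^ 2 * C, by nlinarith, ?_⟩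
  intro v hv
  obtain ⟨i, s, t, hi, hs, rfl⟩ := (S.e_wd v).1 hv
  obtain ⟨-, h1, h2, h3, h4⟩ := hM i hi
  have h1r : |((S.e i).1 : ℝ)| ≤ M := by exact_mod_cast h1
  have h2r : |((S.e i).2 : ℝ)| ≤ M := by exact_mod_cast h2
  have h3r : |((S.e (i + 1)).1 : ℝ)| ≤ M := by exact_mod_cast h3
  have h4r : |((S.e (i + 1)).2 : ℝ)| ≤ M := by exact_mod_cast h4
  have hs0 : (0 : ℝ) ≤ s := by positivity
  have ht0 : (0 : ℝ) ≤ t := by positivity
  have key : ∀ x y : ℝ, |x| ≤ M → |y| ≤ M →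
      ((s : ℝ) * x + t * y) ^ 2 ≤ M ^ 2 * ((s : ℝ) + t) ^ 2 := by
    intro x y hx hy
    rw [← mul_pow]
    apply sq_le_sq'
    · have := (abs_le.1 hx).1
      have := (abs_le.1 hy).1
      nlinarith
    · have := (abs_le.1 hx).2
      have := (abs_le.1 hy).2
      nlinarith
  have k1 := key _ _ h1r h3r
  have k2 := key _ _ h2r h4r
  have hlow := (hC i s t hi).1
  rw [div_le_iff₀ (by linarith)] at hlow
  push_cast at hlow
  have e1 : (((cn S.e i s t).1 : ℤ) : ℝ) = (s : ℝ) * (S.e i).1 + t * (S.e (i + 1)).1 := by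
    simp only [cn]; push_cast; ring
  have e2 : (((cn S.e i s t).2 : ℤ) : ℝ) = (s : ℝ) * (S.e i).2 + t * (S.e (i + 1)).2 := by
    simp only [cn]; push_cast; ring
  rw [e1, e2]
  have hM0 : (0 : ℝ) ≤ (M : ℝ) ^ 2 := by positivity
  nlinarith [mul_le_mul_of_nonneg_left hlow hM0]

/-- the box -/
theorem sbb_box {K X : ℝ} {v : El} (h : (v.1 : ℝ) ^ 2 + (v.2 : ℝ) ^ 2 ≤ K * X) :
    v ∈ (Finset.Icc (-⌊Real.sqrt (K * X)⌋) ⌊Real.sqrt (K * X)⌋) ×ˢ
      (Finset.Icc (-⌊Real.sqrt (K * X)⌋) ⌊Real.sqrt (K * X)⌋) := by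
  have key : ∀ z : ℤ, (z : ℝ) ^ 2 ≤ K * X →
      z ∈ Finset.Icc (-⌊Real.sqrt (K * X)⌋) ⌊Real.sqrt (K * X)⌋ := by
    intro z hz
    have h1 : |(z : ℝ)| ≤ Real.sqrt (K * X) := Real.abs_le_sqrt hz
    obtain ⟨h2, h3⟩ := abs_le.1 h1
    rw [Finset.mem_Icc]
    refine ⟨?_, Int.le_floor.2 h3⟩
    have : -z ≤ ⌊Real.sqrt (K * X)⌋ := Int.le_floor.2 (by push_cast; linarith)
    linarith
  rw [Finset.mem_product]
  exact ⟨key _ (by nlinarith [sq_nonneg (v.2 : ℝ)]), key _ (by nlinarith [sq_nonneg (v.1 : ℝ)])⟩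

theorem sbb_fin (X : ℝ) : {v : El | S.wd v ∧ (nm b c v : ℝ) ≤ X}.Finite := by
  obtain ⟨K, hK1, hK⟩ := wd_size_pr S
  refine ((Finset.Icc (-⌊Real.sqrt (K * X)⌋) ⌊Real.sqrt (K * X)⌋) ×ˢ
      (Finset.Icc (-⌊Real.sqrt (K * X)⌋) ⌊Real.sqrt (K * X)⌋)).finite_toSet.subset ?_
  rintro v ⟨hv, hX⟩
  have h1 := hK v hv
  exact sbb_box (h1.trans (mul_le_mul_of_nonneg_left hX (by linarith)))

theorem mem_MF_pr {X : ℝ} {v : El} : v ∈ S.MF X ↔ S.wd v ∧ (nm b c v : ℝ) ≤ X := by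
  unfold Sys.MF
  rw [dif_pos (sbb_fin S X), Set.Finite.mem_toFinset]
  rfl

theorem sbb_inj {i s t s' t' : ℕ} (hi : i < S.r)
    (h : cn S.e i s t = cn S.e i s' t') : s = s' ∧ t = t' := by
  have hd := S.e_det i hi
  have h1 : (s : ℤ) * (S.e i).1 + t * (S.e (i + 1)).1 =
      s' * (S.e i).1 + t' * (S.e (i + 1)).1 := congrArg Prod.fst h
  have h2 : (s : ℤ) * (S.e i).2 + t * (S.e (i + 1)).2 =
      s' * (S.e i).2 + t' * (S.e (i + 1)).2 := congrArg Prod.snd h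
  simp only [dt] at hd
  have e1 : ((s : ℤ) - s') * ((S.e i).1 * (S.e (i + 1)).2 - (S.e i).2 * (S.e (i + 1)).1) = 0 := by
    linear_combination (S.e (i + 1)).2 * h1 - (S.e (i + 1)).1 * h2
  have e2 : ((t : ℤ) - t') * ((S.e i).1 * (S.e (i + 1)).2 - (S.e i).2 * (S.e (i + 1)).1) = 0 := by
    linear_combination (S.e i).1 * h2 - (S.e i).2 * h1
  rw [hd, mul_one] at e1 e2
  constructor
  · have : (s : ℤ) = s' := by linarith
    exact_mod_cast this
  · have : (t : ℤ) = t' := by linarith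
    exact_mod_cast this

theorem sbb_one_mem {X : ℝ} (hX : 1 ≤ X) : ((1, 0) : El) ∈ S.MF X := by
  rw [mem_MF_pr]
  refine ⟨Or.inl ⟨rfl, by norm_num⟩, ?_⟩
  simp only [nm]
  norm_num
  exact hX

theorem MF_card_pr : ∃ C : ℝ, 1 ≤ C ∧ ∀ X : ℝ, 1 ≤ X →
    X / C ≤ ((S.MF X).card : ℝ) ∧ ((S.MF X).card : ℝ) ≤ C * X := by
  obtain ⟨K, hK1, hK⟩ := wd_size_pr S
  obtain ⟨C, hC1, hC⟩ := cone_nm_pr S
  refine ⟨9 * K + 16 * C, by linarith, ?_⟩
  intro X hX
  constructor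
  · -- lower bound
    have hlow : X / (16 * C) ≤ ((S.MF X).card : ℝ) := by
      rw [div_le_iff₀ (by linarith)]
      rcases lt_or_ge X (16 * C) with hsm | hbig
      · have h1 : 1 ≤ (S.MF X).card := Finset.card_pos.2 ⟨_, sbb_one_mem S hX⟩
        have h2 : (1 : ℝ) ≤ ((S.MF X).card : ℝ) := by exact_mod_cast h1
        nlinarith
      · set R := Real.sqrt (X / (4 * C)) with hR
        have hR2 : R ^ 2 = X / (4 * C) := Real.sq_sqrt (by positivity)
        have hR0 : 0 ≤ R := Real.sqrt_nonneg _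
        have hRge : 2 ≤ R := by
          rw [hR]
          apply Real.le_sqrt_of_sq_le
          rw [le_div_iff₀ (by linarith)]
          linarith
        set n := ⌊R⌋₊ with hn
        have hn1 : (n : ℝ) ≤ R := Nat.floor_le hR0
        have hn2 : R < n + 1 := Nat.lt_floor_add_one R
        have hsub : ((Finset.Icc 1 n) ×ˢ (Finset.Icc 1 n)).image
            (fun q : ℕ × ℕ => cn S.e 0 q.1 q.2) ⊆ S.MF X := by
          intro v hv
          obtain ⟨⟨s, t⟩, hq, rfl⟩ := Finset.mem_image.1 hv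
          rw [Finset.mem_product, Finset.mem_Icc, Finset.mem_Icc] at hq
          obtain ⟨⟨hs1, hsn⟩, ht1, htn⟩ := hq
          simp only at hs1 hsn ht1 htn
          rw [mem_MF_pr]
          refine ⟨(S.e_wd _).2 ⟨0, s, t, S.r_pos, hs1, rfl⟩, ?_⟩
          refine (hC 0 s t S.r_pos).2.trans ?_
          have hsn' : (s : ℝ) ≤ R := le_trans (by exact_mod_cast hsn) hn1
          have htn' : (t : ℝ) ≤ R := le_trans (by exact_mod_cast htn) hn1
          push_cast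
          have h1 : ((s : ℝ) + t) ^ 2 ≤ (2 * R) ^ 2 := by
            apply pow_le_pow_left₀ (by positivity)
            linarith
          have h2 : (2 * R) ^ 2 = X / C := by
            rw [mul_pow, hR2]
            field_simp
            norm_num
          rw [h2] at h1
          calc C * ((s : ℝ) + t) ^ 2 ≤ C * (X / C) :=
                mul_le_mul_of_nonneg_left h1 (by linarith)
            _ = X := by field_simp
        have hcard := Finset.card_le_card hsub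
        rw [Finset.card_image_of_injOn, Finset.card_product, Nat.card_Icc] at hcard
        · have hcardr : (n : ℝ) * n ≤ ((S.MF X).card : ℝ) := by
            have : n * n ≤ (S.MF X).card := by simpa using hcard
            exact_mod_cast this
          have hnR : R / 2 ≤ n := by linarith
          have h3 : R / 2 * (R / 2) ≤ (n : ℝ) * n := mul_le_mul hnR hnR (by linarith) (by linarith)
          have h5 : R ^ 2 / 4 ≤ ((S.MF X).card : ℝ) := by nlinarith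
          have h6 : R ^ 2 / 4 * (16 * C) ≤ ((S.MF X).card : ℝ) * (16 * C) :=
            mul_le_mul_of_nonneg_right h5 (by linarith)
          have h7 : R ^ 2 / 4 * (16 * C) = X := by
            rw [hR2]
            field_simp
            norm_num
          linarith
        · rintro ⟨s, t⟩ - ⟨s', t'⟩ - h
          obtain ⟨h1, h2⟩ := sbb_inj S S.r_pos h
          exact Prod.ext h1 h2
    refine le_trans ?_ hlow
    exact div_le_div_of_nonneg_left (by linarith) (by linarith) (by linarith)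
  · -- upper bound
    set m := ⌊Real.sqrt (K * X)⌋ with hm
    have hm1 : (m : ℝ) ≤ Real.sqrt (K * X) := Int.floor_le _
    have hKX : 1 ≤ K * X := by nlinarith
    have hs1 : 1 ≤ Real.sqrt (K * X) := Real.one_le_sqrt.2 hKX
    have hm0 : 0 ≤ m := Int.floor_nonneg.2 (Real.sqrt_nonneg _)
    have hsub : S.MF X ⊆ (Finset.Icc (-m) m) ×ˢ (Finset.Icc (-m) m) := by
      intro v hv
      obtain ⟨hv, hvX⟩ := (mem_MF_pr S).1 hv
      exact sbb_box ((hK v hv).trans (mul_le_mul_of_nonneg_left hvX (by linarith)))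
    have hcard := Finset.card_le_card hsub
    rw [Finset.card_product, Int.card_Icc] at hcard
    have h1 : (((m + 1 - -m).toNat : ℕ) : ℝ) = 2 * m + 1 := by
      have h2 : (((m + 1 - -m).toNat : ℕ) : ℤ) = 2 * m + 1 := by
        rw [Int.toNat_of_nonneg (by linarith)]
        ring
      exact_mod_cast h2
    have hcr : ((S.MF X).card : ℝ) ≤ (2 * m + 1) * (2 * m + 1) := by
      rw [← h1]
      exact_mod_cast hcard
    have hmr : (0 : ℝ) ≤ m := by exact_mod_cast hm0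
    have h3 : (2 * (m : ℝ) + 1) ≤ 3 * Real.sqrt (K * X) := by linarith
    have h4 : (2 * (m : ℝ) + 1) * (2 * m + 1) ≤
        3 * Real.sqrt (K * X) * (3 * Real.sqrt (K * X)) :=
      mul_le_mul h3 h3 (by linarith) (by positivity)
    have h5 : 3 * Real.sqrt (K * X) * (3 * Real.sqrt (K * X)) = 9 * (K * X) := by
      have := Real.mul_self_sqrt (show (0 : ℝ) ≤ K * X by linarith)
      nlinarith
    have h6 : 0 ≤ C * X := by positivity
    nlinarith

end

end Pool.Agent.MQ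

namespace Pool.Agent.MQ

theorem cone_nm : type_of% @cone_nm_pr := @cone_nm_pr
theorem cone_bl : type_of% @cone_bl_pr := @cone_bl_pr
theorem wd_size : type_of% @wd_size_pr := @wd_size_pr
theorem mem_MF : type_of% @mem_MF_pr := @mem_MF_pr
theorem MF_card : type_of% @MF_card_pr := @MF_card_pr

end Pool.Agent.MQ
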