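import Pool.Agent.Lib_helper39.MQ.Defs

/-!
# MQ block SYN: the system for negative discriminant
-/

namespace Pool.Agent.MQ

open Filter Topology MeasureTheory

noncomputable def syn_d (b c : ℤ) : ℝ := Real.sqrt (-(dsc b c : ℝ))

theorem syn_d_sq {b c : ℤ} (hD : dsc b c < 0) : syn_d b c ^ 2 = 4 * c - b ^ 2 := by
  have h1 : (dsc b c : ℝ) < 0 := by exact_mod_cast hD
  have h2 : (dsc b c : ℝ) = b ^ 2 - 4 * c := by
    unfold dsc
    push_cast
    ring
  rw [syn_d, Real.sq_sqrt (by linarith), h2]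
  ring

theorem syn_d_pos {b c : ℤ} (hD : dsc b c < 0) : 0 < syn_d b c := by
  have h1 : (dsc b c : ℝ) < 0 := by exact_mod_cast hD
  exact Real.sqrt_pos.2 (by linarith)

noncomputable def syn_ur (b c : ℤ) (t : ℝ) : ℝ :=
  1 / 2 - Real.arctan ((2 * t + b) / syn_d b c) / Real.pi

/-- twice the complex number `x + y τ` -/
noncomputable def syn_z (b c : ℤ) (v : El) : ℂ := ⟨2 * v.1 + b * v.2, syn_d b c * v.2⟩

theorem syn_quad {b c : ℤ} (hD : dsc b c < 0) (t : ℝ) : 0 < t ^ 2 + b * t + c := by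
  have h1 := syn_d_sq hD
  have h2 := syn_d_pos hD
  nlinarith [sq_nonneg (2 * t + b), pow_pos h2 2]

theorem syn_nm4 {b c : ℤ} (v : El) : 4 * nm b c v = (2 * v.1 + b * v.2) ^ 2 - dsc b c * v.2 ^ 2 := by
  unfold nm dsc
  ring

theorem syn_nm_pos {b c : ℤ} (hD : dsc b c < 0) {v : El} (h : v.1 ≠ 0 ∨ v.2 ≠ 0) :
    0 < nm b c v := by
  have h4 := syn_nm4 (b := b) (c := c) v
  by_cases h2 : v.2 = 0
  · have h1 : v.1 ≠ 0 := by tauto
    have : nm b c v = v.1 ^ 2 := by
      unfold nm
      rw [h2]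
      ring
    rw [this]
    positivity
  · have : 0 < v.2 ^ 2 := by positivity
    nlinarith [sq_nonneg (2 * v.1 + b * v.2)]

theorem syn_ne {b c : ℤ} {v : El} (h : 0 < nm b c v) : v.1 ≠ 0 ∨ v.2 ≠ 0 := by
  by_contra hc
  push Not at hc
  unfold nm at h
  rw [hc.1, hc.2] at h
  simp at h

theorem syn_der {b c : ℤ} (hD : dsc b c < 0) (t : ℝ) :
    HasDerivAt (syn_ur b c) (-(syn_d b c / (2 * Real.pi)) / (t ^ 2 + b * t + c)) t := by
  have hd := syn_d_pos hD
  have hsq := syn_d_sq hD
  have hq := syn_quad hD t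
  have h1 : HasDerivAt (fun t : ℝ => (2 * t + b) / syn_d b c) (2 / syn_d b c) t := by
    have := (((hasDerivAt_id t).const_mul 2).add_const (b : ℝ)).div_const (syn_d b c)
    simpa using this
  have h2 := (((h1.arctan).div_const Real.pi).const_sub (1 / 2))
  unfold syn_ur
  refine h2.congr_deriv ?_
  have h3 : (1 : ℝ) + ((2 * t + b) / syn_d b c) ^ 2 = 4 * (t ^ 2 + b * t + c) / syn_d b c ^ 2 := by
    rw [div_pow, eq_div_iff (by positivity), add_mul, div_mul_cancel₀ _ (by positivity), hsq]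
    ring
  rw [h3]
  have hpi := Real.pi_pos
  field_simp
  ring

theorem syn_top {b c : ℤ} (hD : dsc b c < 0) : Tendsto (syn_ur b c) atTop (𝓝 0) := by
  have hd := syn_d_pos hD
  have h1 : Tendsto (fun t : ℝ => (2 * t + b) / syn_d b c) atTop atTop := by
    refine Tendsto.atTop_div_const hd ?_
    exact tendsto_atTop_add_const_right _ _ (tendsto_id.const_mul_atTop two_pos)
  have h2 := ((Real.tendsto_arctan_atTop.mono_right nhdsWithin_le_nhds).comp h1).div_const Real.pi
  have h3 := h2.const_sub (1 / 2)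
  have h4 : (1 / 2 : ℝ) - Real.pi / 2 / Real.pi = 0 := by
    have hpi := Real.pi_pos
    field_simp
    norm_num
  rw [h4] at h3
  exact h3

theorem syn_bot {b c : ℤ} (hD : dsc b c < 0) : Tendsto (syn_ur b c) atBot (𝓝 1) := by
  have hd := syn_d_pos hD
  have h1 : Tendsto (fun t : ℝ => (2 * t + b) / syn_d b c) atBot atBot := by
    refine Tendsto.atBot_div_const hd ?_
    exact tendsto_atBot_add_const_right _ _ (tendsto_id.const_mul_atBot two_pos)
  have h2 := ((Real.tendsto_arctan_atBot.mono_right nhdsWithin_le_nhds).comp h1).div_const Real.pi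
  have h3 := h2.const_sub (1 / 2)
  have h4 : (1 / 2 : ℝ) - -(Real.pi / 2) / Real.pi = 1 := by
    have hpi := Real.pi_pos
    field_simp
    norm_num
  rw [h4] at h3
  exact h3

/-! ## the coordinate as an argument -/

theorem syn_arg {b c : ℤ} (hD : dsc b c < 0) {v : El} (h : 0 < v.2 ∨ (v.2 = 0 ∧ v.1 ≠ 0)) :
    uu (syn_ur b c) v = Complex.arg (syn_z b c v) / Real.pi := by
  have hpi := Real.pi_pos
  have hd := syn_d_pos hD
  rcases h with h | ⟨h, h'⟩
  · have h2 : v.2 ≠ 0 := h.ne'
    have hy : (0 : ℝ) < v.2 := by exact_mod_cast h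
    unfold uu
    rw [if_neg h2]
    unfold syn_ur
    set X : ℝ := 2 * v.1 + b * v.2 with hX
    set Y : ℝ := syn_d b c * v.2 with hY
    have hYp : 0 < Y := by positivity
    have e1 : (2 * ((v.1 : ℝ) / v.2) + b) / syn_d b c = X / Y := by
      rw [hX, hY]
      field_simp
    rw [e1]
    set θ : ℝ := Real.pi / 2 - Real.arctan (X / Y) with hθ
    have h3 : θ ∈ Set.Ioc (-Real.pi) Real.pi := by
      have := Real.arctan_lt_pi_div_two (X / Y)
      have := Real.neg_pi_div_two_lt_arctan (X / Y)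
      constructor <;> linarith
    have hs : 0 < Real.sqrt (1 + (X / Y) ^ 2) := by positivity
    have h4 : syn_z b c v = ((Y * Real.sqrt (1 + (X / Y) ^ 2) : ℝ) : ℂ) *
        (Complex.cos θ + Complex.sin θ * Complex.I) := by
      apply Complex.ext
      · rw [← Complex.ofReal_cos, ← Complex.ofReal_sin, Complex.re_ofReal_mul]
        simp only [Complex.add_re, Complex.mul_re, Complex.ofReal_re, Complex.ofReal_im,
          Complex.I_re, Complex.I_im, mul_zero, zero_mul, sub_zero, add_zero]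
        rw [hθ, Real.cos_pi_div_two_sub, Real.sin_arctan]
        show X = _
        field_simp
      · rw [← Complex.ofReal_cos, ← Complex.ofReal_sin, Complex.im_ofReal_mul]
        simp only [Complex.add_im, Complex.mul_im, Complex.ofReal_re, Complex.ofReal_im,
          Complex.I_re, Complex.I_im, mul_zero, mul_one, zero_add, add_zero]
        rw [hθ, Real.sin_pi_div_two_sub, Real.cos_arctan]
        show Y = _
        field_simp
    rw [h4, Complex.arg_mul_cos_add_sin_mul_I (by positivity) h3, hθ]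
    field_simp
  · have hz : syn_z b c v = ((2 * v.1 : ℝ) : ℂ) := by
      apply Complex.ext
      · simp [syn_z, h]
      · simp [syn_z, h]
    unfold uu
    rw [if_pos h, hz]
    by_cases hp : 0 < v.1
    · have : (0 : ℝ) ≤ 2 * v.1 := by
        have : (0 : ℝ) < v.1 := by exact_mod_cast hp
        linarith
      rw [if_pos hp, Complex.arg_ofReal_of_nonneg this, zero_div]
    · have : (2 * v.1 : ℝ) < 0 := by
        have h1 : v.1 < 0 := by omega
        have : (v.1 : ℝ) < 0 := by exact_mod_cast h1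
        linarith
      rw [if_neg hp, Complex.arg_ofReal_of_neg this, div_self hpi.ne']

theorem syn_normSq {b c : ℤ} (hD : dsc b c < 0) (v : El) :
    Complex.normSq (syn_z b c v) = 4 * nm b c v := by
  rw [Complex.normSq_apply]
  have := syn_d_sq hD
  simp only [syn_z, nm]
  push_cast
  linear_combination ((v.2 : ℝ) ^ 2) * this

theorem syn_norm {b c : ℤ} (hD : dsc b c < 0) (v : El) :
    ‖syn_z b c v‖ = 2 * Real.sqrt (nm b c v) := by
  have h1 : ‖syn_z b c v‖ = Real.sqrt (4 * nm b c v) := by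
    rw [← syn_normSq hD, ← Complex.sq_norm, Real.sqrt_sq (norm_nonneg _)]
  rw [h1, Real.sqrt_mul (by norm_num)]
  congr 1
  rw [show (4 : ℝ) = 2 ^ 2 by norm_num, Real.sqrt_sq (by norm_num)]

theorem syn_z_ne {b c : ℤ} (hD : dsc b c < 0) {v : El} (hv : 0 < nm b c v) : syn_z b c v ≠ 0 := by
  rw [← Complex.normSq_pos, syn_normSq hD]
  have : (0 : ℝ) < nm b c v := by exact_mod_cast hv
  linarith

theorem syn_z_ml {b c : ℤ} (hD : dsc b c < 0) (v w : El) :
    2 * syn_z b c (ml b c v w) = syn_z b c v * syn_z b c w := by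
  have h := syn_d_sq hD
  apply Complex.ext
  · simp only [syn_z, ml, Complex.mul_re, Complex.re_ofNat, Complex.im_ofNat]
    push_cast
    linear_combination ((v.2 : ℝ) * w.2) * h
  · simp only [syn_z, ml, Complex.mul_im, Complex.re_ofNat, Complex.im_ofNat]
    push_cast
    ring

/-! ## the representative -/

open Classical in
noncomputable def syn_rp (b c : ℤ) (v : El) : El := if wdw b c 0 v then v else (-v.1, -v.2)

theorem syn_wdw {b c : ℤ} (hD : dsc b c < 0) (v : El) :
    wdw b c 0 v ↔ (v.2 = 0 ∧ 0 < v.1) ∨ 0 < v.2 := by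
  unfold wdw
  tauto

theorem syn_rp_wd {b c : ℤ} (hD : dsc b c < 0) {v : El} (hv : 0 < nm b c v) :
    wdw b c 0 (syn_rp b c v) := by
  unfold syn_rp
  split_ifs with h
  · exact h
  · rw [syn_wdw hD] at h ⊢
    have := syn_ne hv
    simp only
    omega

theorem syn_rp_neg {b c : ℤ} (hD : dsc b c < 0) {v : El} (hv : 0 < nm b c v) :
    syn_rp b c (-v.1, -v.2) = syn_rp b c v := by
  have h1 := syn_ne hv
  unfold syn_rp
  by_cases h : wdw b c 0 v
  · have h2 : ¬ wdw b c 0 (-v.1, -v.2) := by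
      rw [syn_wdw hD] at h ⊢
      simp only
      omega
    rw [if_pos h, if_neg h2]
    simp
  · have h2 : wdw b c 0 (-v.1, -v.2) := by
      rw [syn_wdw hD] at h ⊢
      simp only
      omega
    rw [if_neg h, if_pos h2]

theorem syn_rp_unit {b c : ℤ} (hD : dsc b c < 0) (v : El) :
    ∃ w : El, nm b c w = 1 ∧ (∀ z, 0 < nm b c z → syn_rp b c (ml b c w z) = syn_rp b c z) ∧
      syn_rp b c v = ml b c w v := by
  by_cases h : wdw b c 0 v
  · refine ⟨(1, 0), by simp [nm], fun z _ => ?_, ?_⟩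
    · congr 1
      simp [ml]
    · unfold syn_rp
      rw [if_pos h]
      simp [ml]
  · refine ⟨(-1, 0), by simp [nm], fun z hz => ?_, ?_⟩
    · rw [← syn_rp_neg hD hz]
      congr 1
      simp [ml]
    · unfold syn_rp
      rw [if_neg h]
      simp [ml]

theorem syn_rp_z {b c : ℤ} (v : El) :
    syn_z b c (syn_rp b c v) = syn_z b c v ∨ syn_z b c (syn_rp b c v) = -syn_z b c v := by
  unfold syn_rp
  split_ifs with h
  · left
    rfl
  · right
    apply Complex.ext
    · simp [syn_z]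
      ring
    · simp [syn_z]

/-- `ζ² = |ζ|² e(u)` -/
theorem syn_exp {b c : ℤ} (hD : dsc b c < 0) {v : El} (h : 0 < v.2 ∨ (v.2 = 0 ∧ v.1 ≠ 0)) :
    syn_z b c v ^ 2 = (‖syn_z b c v‖ : ℂ) ^ 2 *
      Complex.exp (2 * Real.pi * Complex.I * (uu (syn_ur b c) v : ℂ)) := by
  have hpi : (Real.pi : ℂ) ≠ 0 := by exact_mod_cast Real.pi_ne_zero
  rw [syn_arg hD h]
  have h1 : 2 * Real.pi * Complex.I * ((Complex.arg (syn_z b c v) / Real.pi : ℝ) : ℂ) =
      (2 : ℕ) * (Complex.arg (syn_z b c v) * Complex.I) := by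
    push_cast
    field_simp
  rw [h1, Complex.exp_nat_mul, ← mul_pow, Complex.norm_mul_exp_arg_mul_I]

theorem syn_hom {b c : ℤ} (hD : dsc b c < 0) {v w : El} (hv : wdw b c 0 v) (hw : wdw b c 0 w) :
    ∃ n : ℤ, uu (syn_ur b c) (syn_rp b c (ml b c v w)) =
      uu (syn_ur b c) v + uu (syn_ur b c) w + n := by
  rw [syn_wdw hD] at hv hw
  have hv1 : 0 < v.2 ∨ (v.2 = 0 ∧ v.1 ≠ 0) := by omega
  have hw1 : 0 < w.2 ∨ (w.2 = 0 ∧ w.1 ≠ 0) := by omega
  have hv2 : 0 < nm b c v := syn_nm_pos hD (by omega)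
  have hw2 : 0 < nm b c w := syn_nm_pos hD (by omega)
  have hm : 0 < nm b c (ml b c v w) := by
    have : nm b c (ml b c v w) = nm b c v * nm b c w := by
      unfold nm ml
      ring
    rw [this]
    positivity
  set q : El := syn_rp b c (ml b c v w) with hq
  have hq1 : wdw b c 0 q := syn_rp_wd hD hm
  rw [syn_wdw hD] at hq1
  have hq2 : 0 < q.2 ∨ (q.2 = 0 ∧ q.1 ≠ 0) := by omega
  have e1 := syn_exp hD hv1
  have e2 := syn_exp hD hw1
  have e3 := syn_exp hD hq2
  have hz := syn_z_ml hD v w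
  have hq3 : syn_z b c q ^ 2 = syn_z b c (ml b c v w) ^ 2 := by
    rcases syn_rp_z (b := b) (c := c) (ml b c v w) with h | h
    · rw [hq, h]
    · rw [hq, h]
      ring
  have hn : (‖syn_z b c q‖ : ℂ) ^ 2 = (‖syn_z b c (ml b c v w)‖ : ℂ) ^ 2 := by
    have : ‖syn_z b c q‖ = ‖syn_z b c (ml b c v w)‖ := by
      rcases syn_rp_z (b := b) (c := c) (ml b c v w) with h | h
      · rw [hq, h]
      · rw [hq, h, norm_neg]
    rw [this]
  have hn2 : 4 * (‖syn_z b c (ml b c v w)‖ : ℂ) ^ 2 =
      (‖syn_z b c v‖ : ℂ) ^ 2 * (‖syn_z b c w‖ : ℂ) ^ 2 := by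
    have h1 := congrArg norm hz
    rw [norm_mul, norm_mul, Complex.norm_ofNat] at h1
    have h2 : 4 * ‖syn_z b c (ml b c v w)‖ ^ 2 = ‖syn_z b c v‖ ^ 2 * ‖syn_z b c w‖ ^ 2 := by
      rw [← mul_pow, ← h1]
      ring
    exact_mod_cast h2
  have hne : (‖syn_z b c v‖ : ℂ) ^ 2 * (‖syn_z b c w‖ : ℂ) ^ 2 ≠ 0 := by
    have h1 := norm_pos_iff.2 (syn_z_ne hD hv2)
    have h2 := norm_pos_iff.2 (syn_z_ne hD hw2)
    exact_mod_cast (by positivity : ‖syn_z b c v‖ ^ 2 * ‖syn_z b c w‖ ^ 2 ≠ 0)
  have e4 : Complex.exp (2 * Real.pi * Complex.I * (uu (syn_ur b c) q : ℂ)) =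
      Complex.exp (2 * Real.pi * Complex.I *
        ((uu (syn_ur b c) v + uu (syn_ur b c) w : ℝ) : ℂ)) := by
    have h1 : 4 * syn_z b c q ^ 2 = syn_z b c v ^ 2 * syn_z b c w ^ 2 := by
      rw [hq3]
      linear_combination (2 * syn_z b c (ml b c v w) + syn_z b c v * syn_z b c w) * hz
    rw [e1, e2, e3, hn] at h1
    have h2 : (‖syn_z b c v‖ : ℂ) ^ 2 * (‖syn_z b c w‖ : ℂ) ^ 2 *
        Complex.exp (2 * Real.pi * Complex.I * (uu (syn_ur b c) q : ℂ)) =
        (‖syn_z b c v‖ : ℂ) ^ 2 * (‖syn_z b c w‖ : ℂ) ^ 2 *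
        (Complex.exp (2 * Real.pi * Complex.I * (uu (syn_ur b c) v : ℂ)) *
          Complex.exp (2 * Real.pi * Complex.I * (uu (syn_ur b c) w : ℂ))) := by
      rw [← hn2]
      rw [← hn2] at hne
      linear_combination h1 + (Complex.exp (2 * Real.pi * Complex.I * (uu (syn_ur b c) v : ℂ)) *
        Complex.exp (2 * Real.pi * Complex.I * (uu (syn_ur b c) w : ℂ))) * (-hn2)
    have h3 := mul_left_cancel₀ hne h2
    rw [h3, ← Complex.exp_add]
    congr 1
    push_cast
    ring
  obtain ⟨n, hn⟩ := Complex.exp_eq_exp_iff_exists_int.1 e4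
  refine ⟨n, ?_⟩
  have hpi : (2 * Real.pi * Complex.I : ℂ) ≠ 0 := Complex.two_pi_I_ne_zero
  have h5 : (uu (syn_ur b c) q : ℂ) = ((uu (syn_ur b c) v + uu (syn_ur b c) w + n : ℝ) : ℂ) := by
    apply mul_left_cancel₀ hpi
    rw [hn]
    push_cast
    ring
  exact_mod_cast h5

/-! ## the chain -/

/-- `(1, 0), (J, 1), (J - 1, 1), ..., (-J, 1), (-1, 0)` -/
def syn_e (J : ℕ) (i : ℕ) : El :=
  if i = 0 then (1, 0) else if i ≤ 2 * J + 1 then ((J : ℤ) + 1 - i, 1) else (-1, 0)

theorem syn_e_det (J : ℕ) {i : ℕ} (hi : i < 2 * J + 2) :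
    dt (syn_e J i) (syn_e J (i + 1)) = 1 := by
  unfold syn_e dt
  by_cases h0 : i = 0
  · subst h0
    simp
  · by_cases h1 : i + 1 ≤ 2 * J + 1
    · rw [if_neg h0, if_pos (by omega), if_neg (by omega), if_pos h1]
      push_cast
      ring
    · rw [if_neg h0, if_pos (by omega), if_neg (by omega), if_neg h1]
      push_cast
      ring

theorem syn_e_wd (J : ℕ) (v : El) : ((v.2 = 0 ∧ 0 < v.1) ∨ 0 < v.2) ↔
    ∃ i s t : ℕ, i < 2 * J + 2 ∧ 1 ≤ s ∧ v = cn (syn_e J) i s t := by
  constructor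
  · rintro (⟨h1, h2⟩ | h)
    · refine ⟨0, v.1.toNat, 0, by omega, by omega, ?_⟩
      unfold cn syn_e
      ext
      · simp
        omega
      · simp [h1]
    · by_cases hA : (J : ℤ) * v.2 < v.1
      · refine ⟨0, (v.1 - J * v.2).toNat, v.2.toNat, by omega, by omega, ?_⟩
        unfold cn syn_e
        have e1 : (((v.1 - J * v.2).toNat : ℕ) : ℤ) = v.1 - J * v.2 :=
          Int.toNat_of_nonneg (by omega)
        have e2 : ((v.2.toNat : ℕ) : ℤ) = v.2 := Int.toNat_of_nonneg (by omega)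
        rw [e1, e2]
        ext
        · simp
          ring
        · simp
      · by_cases hB : v.1 ≤ -((J : ℤ) * v.2)
        · refine ⟨2 * J + 1, v.2.toNat, (-(J * v.2) - v.1).toNat, by omega, by omega, ?_⟩
          unfold cn syn_e
          have e1 : (((-(J * v.2) - v.1).toNat : ℕ) : ℤ) = -(J * v.2) - v.1 :=
            Int.toNat_of_nonneg (by omega)
          have e2 : ((v.2.toNat : ℕ) : ℤ) = v.2 := Int.toNat_of_nonneg (by omega)
          rw [e1, e2, if_neg (by omega), if_pos (by omega), if_neg (by omega), if_neg (by omega)]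
          ext
          · push_cast
            ring
          · simp
        · -- `j = ⌈x / y⌉`
          set q : ℤ := (-v.1) / v.2 with hq
          set ρ : ℤ := (-v.1) % v.2 with hρ
          have h1 : 0 ≤ ρ := Int.emod_nonneg _ (by omega)
          have h2 : ρ < v.2 := Int.emod_lt_of_pos _ h
          have h3 : v.2 * q + ρ = -v.1 := Int.mul_ediv_add_emod (-v.1) v.2
          have h4 : -(J : ℤ) ≤ q := by
            by_contra hc
            have : q + 1 ≤ -(J : ℤ) := by omega
            nlinarith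
          have h5 : q < J := by
            by_contra hc
            have : (J : ℤ) ≤ q := by omega
            nlinarith
          refine ⟨((J : ℤ) + 1 + q).toNat, (v.2 - ρ).toNat, ρ.toNat, by omega, by omega, ?_⟩
          unfold cn syn_e
          have e1 : (((v.2 - ρ).toNat : ℕ) : ℤ) = v.2 - ρ := Int.toNat_of_nonneg (by omega)
          have e2 : ((ρ.toNat : ℕ) : ℤ) = ρ := Int.toNat_of_nonneg (by omega)
          have e3 : ((((J : ℤ) + 1 + q).toNat : ℕ) : ℤ) = (J : ℤ) + 1 + q :=
            Int.toNat_of_nonneg (by omega)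
          rw [e1, e2, if_neg (by omega), if_pos (by omega), if_neg (by omega), if_pos (by omega)]
          ext
          · push_cast
            rw [e3]
            linear_combination h3
          · simp
  · rintro ⟨i, s, t, hi, hs, rfl⟩
    unfold cn syn_e
    have hs' : (1 : ℤ) ≤ s := by exact_mod_cast hs
    have ht : (0 : ℤ) ≤ t := by positivity
    by_cases h0 : i = 0
    · subst h0
      simp only [if_true, if_neg (show ¬ (0 + 1 = 0) by omega),
        if_pos (show 0 + 1 ≤ 2 * J + 1 by omega)]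
      rcases Nat.eq_zero_or_pos t with h | h
      · subst h
        left
        constructor
        · simp
        · simp
          omega
      · right
        simp
        omega
    · by_cases h1 : i + 1 ≤ 2 * J + 1
      · rw [if_neg h0, if_pos (by omega), if_neg (by omega), if_pos h1]
        right
        simp only
        omega
      · rw [if_neg h0, if_pos (by omega), if_neg (by omega), if_neg h1]
        right
        simp only
        omega

theorem syn_e_ne (J i : ℕ) : (syn_e J i).1 ≠ 0 ∨ (syn_e J i).2 ≠ 0 := by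
  unfold syn_e
  split_ifs <;> simp

theorem syn_cross {b c : ℤ} (v w : El) (e : ℕ → El) (i : ℕ) (hv : e i = v) (hw : e (i + 1) = w) :
    nm b c (cn e i 1 1) - nm b c (e i) - nm b c (e (i + 1)) =
      2 * v.1 * w.1 + b * (v.1 * w.2 + w.1 * v.2) + 2 * c * v.2 * w.2 := by
  unfold cn nm
  rw [hv, hw]
  push_cast
  ring

theorem syn_e_ac {b c : ℤ} (hD : dsc b c < 0) {J : ℕ} (hJ : |b| < 2 * J) {i : ℕ}
    (hi : i < 2 * J + 2) :
    0 < nm b c (cn (syn_e J) i 1 1) - nm b c (syn_e J i) - nm b c (syn_e J (i + 1)) := by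
  rw [syn_cross _ _ _ _ rfl rfl]
  obtain ⟨hJ1, hJ2⟩ := abs_lt.1 hJ
  unfold syn_e
  by_cases h0 : i = 0
  · subst h0
    simp only [if_true, if_neg (show ¬ (0 + 1 = 0) by omega),
      if_pos (show 0 + 1 ≤ 2 * J + 1 by omega)]
    push_cast
    linarith
  · by_cases h1 : i + 1 ≤ 2 * J + 1
    · rw [if_neg h0, if_pos (by omega), if_neg (by omega), if_pos h1]
      push_cast
      -- `D ≤ -3`
      have h3 : dsc b c ≤ -3 := by
        unfold dsc at hD ⊢
        have h4 : b ^ 2 % 4 = 0 ∨ b ^ 2 % 4 = 1 := by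
          rcases Int.even_or_odd b with ⟨m, hm⟩ | ⟨m, hm⟩
          · left
            have : b ^ 2 = 4 * m ^ 2 := by rw [hm]; ring
            omega
          · right
            have : b ^ 2 = 4 * (m ^ 2 + m) + 1 := by rw [hm]; ring
            omega
        omega
      unfold dsc at h3
      nlinarith [sq_nonneg (2 * ((J : ℤ) + 1 - i) + b - 1)]
    · have hi' : (i : ℤ) = 2 * J + 1 := by omega
      rw [if_neg h0, if_pos (by omega), if_neg (by omega), if_neg h1, hi']
      push_cast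
      linarith

/-! ## the comparison with the determinant -/

theorem syn_det {b c : ℤ} (hD : dsc b c < 0) {v w : El}
    (hv : 0 < v.2 ∨ (v.2 = 0 ∧ v.1 ≠ 0)) (hw : 0 < w.2 ∨ (w.2 = 0 ∧ w.1 ≠ 0))
    (hdt : 0 < dt v w)
    (hcr : 0 < 2 * v.1 * w.1 + b * (v.1 * w.2 + w.1 * v.2) + 2 * c * v.2 * w.2) :
    syn_d b c / (2 * Real.pi) * dt v w / Real.sqrt (nm b c v * nm b c w) ≤
      uu (syn_ur b c) w - uu (syn_ur b c) v ∧
    uu (syn_ur b c) w - uu (syn_ur b c) v ≤
      syn_d b c / 4 * dt v w / Real.sqrt (nm b c v * nm b c w) := by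
  have hpi := Real.pi_pos
  have hd := syn_d_pos hD
  have hsq := syn_d_sq hD
  have hv2 : 0 < nm b c v := syn_nm_pos hD (by omega)
  have hw2 : 0 < nm b c w := syn_nm_pos hD (by omega)
  have hv3 : (0 : ℝ) < nm b c v := by exact_mod_cast hv2
  have hw3 : (0 : ℝ) < nm b c w := by exact_mod_cast hw2
  have hzv := syn_z_ne hD hv2
  have hzw := syn_z_ne hD hw2
  rw [syn_arg hD hv, syn_arg hD hw]
  set α := Complex.arg (syn_z b c v) with hα
  set β := Complex.arg (syn_z b c w) with hβ
  have hα0 : 0 ≤ α := by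
    rw [hα, Complex.arg_nonneg_iff]
    have h1 : (0 : ℤ) ≤ v.2 := by omega
    have : (0 : ℝ) ≤ v.2 := by exact_mod_cast h1
    simp only [syn_z]
    positivity
  have hβ0 : 0 ≤ β := by
    rw [hβ, Complex.arg_nonneg_iff]
    have h1 : (0 : ℤ) ≤ w.2 := by omega
    have : (0 : ℝ) ≤ w.2 := by exact_mod_cast h1
    simp only [syn_z]
    positivity
  have hα1 : α ≤ Real.pi := Complex.arg_le_pi _
  have hβ1 : β ≤ Real.pi := Complex.arg_le_pi _
  have hR : 0 < Real.sqrt (nm b c v * nm b c w) := Real.sqrt_pos.2 (by positivity)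
  have hnn : ‖syn_z b c v‖ * ‖syn_z b c w‖ = 4 * Real.sqrt (nm b c v * nm b c w) := by
    rw [syn_norm hD, syn_norm hD, Real.sqrt_mul hv3.le]
    ring
  have hnv := norm_pos_iff.2 hzv
  have hnw := norm_pos_iff.2 hzw
  have hsin : Real.sin (β - α) = syn_d b c * dt v w / (2 * Real.sqrt (nm b c v * nm b c w)) := by
    rw [Real.sin_sub, hα, hβ, Complex.sin_arg, Complex.sin_arg, Complex.cos_arg hzv,
      Complex.cos_arg hzw]
    have h1 : (syn_z b c w).im / ‖syn_z b c w‖ * ((syn_z b c v).re / ‖syn_z b c v‖) -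
        (syn_z b c w).re / ‖syn_z b c w‖ * ((syn_z b c v).im / ‖syn_z b c v‖) =
        ((syn_z b c w).im * (syn_z b c v).re - (syn_z b c w).re * (syn_z b c v).im) /
          (‖syn_z b c v‖ * ‖syn_z b c w‖) := by
      field_simp
    rw [h1, hnn]
    have h2 : (syn_z b c w).im * (syn_z b c v).re - (syn_z b c w).re * (syn_z b c v).im =
        2 * (syn_d b c * dt v w) := by
      simp only [syn_z, dt]
      push_cast
      ring
    rw [h2]
    field_simp
    ring
  have hcos : 0 < Real.cos (β - α) := by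
    rw [Real.cos_sub, hα, hβ, Complex.sin_arg, Complex.sin_arg, Complex.cos_arg hzv,
      Complex.cos_arg hzw]
    have h1 : (syn_z b c w).re / ‖syn_z b c w‖ * ((syn_z b c v).re / ‖syn_z b c v‖) +
        (syn_z b c w).im / ‖syn_z b c w‖ * ((syn_z b c v).im / ‖syn_z b c v‖) =
        ((syn_z b c w).re * (syn_z b c v).re + (syn_z b c w).im * (syn_z b c v).im) /
          (‖syn_z b c v‖ * ‖syn_z b c w‖) := by
      field_simp
    rw [h1]
    apply div_pos _ (by positivity)
    have h2 : (syn_z b c w).re * (syn_z b c v).re + (syn_z b c w).im * (syn_z b c v).im =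
        2 * ((2 * v.1 * w.1 + b * (v.1 * w.2 + w.1 * v.2) + 2 * c * v.2 * w.2 : ℤ) : ℝ) := by
      simp only [syn_z]
      push_cast
      linear_combination ((v.2 : ℝ) * w.2) * hsq
    rw [h2]
    have : (0 : ℝ) < ((2 * v.1 * w.1 + b * (v.1 * w.2 + w.1 * v.2) + 2 * c * v.2 * w.2 : ℤ) : ℝ) := by
      exact_mod_cast hcr
    linarith
  have hdt' : (0 : ℝ) < dt v w := by exact_mod_cast hdt
  have hsin0 : 0 < Real.sin (β - α) := by
    rw [hsin]
    positivity
  have hθ0 : 0 < β - α := by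
    by_contra hc
    have := Real.sin_nonpos_of_nonpos_of_neg_pi_le (by linarith : β - α ≤ 0) (by linarith)
    linarith
  have hθ1 : β - α < Real.pi / 2 := by
    by_contra hc
    have := Real.cos_nonpos_of_pi_div_two_le_of_le (by linarith : Real.pi / 2 ≤ β - α) (by linarith)
    linarith
  have h1 : Real.sin (β - α) ≤ β - α := Real.sin_le hθ0.le
  have h2 : 2 / Real.pi * (β - α) ≤ Real.sin (β - α) := Real.mul_le_sin hθ0.le hθ1.le
  constructor
  · calc syn_d b c / (2 * Real.pi) * dt v w / Real.sqrt (nm b c v * nm b c w)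
        = Real.sin (β - α) / Real.pi := by
          rw [hsin]
          field_simp
      _ ≤ (β - α) / Real.pi := div_le_div_of_nonneg_right h1 hpi.le
      _ = β / Real.pi - α / Real.pi := by ring
  · calc β / Real.pi - α / Real.pi = (2 / Real.pi * (β - α)) / 2 := by
          field_simp
      _ ≤ Real.sin (β - α) / 2 := by linarith
      _ = syn_d b c / 4 * dt v w / Real.sqrt (nm b c v * nm b c w) := by
          rw [hsin]
          field_simp
          ring

theorem syn_cn_up (J : ℕ) {i s t : ℕ} (hi : i < 2 * J + 2) (h : 1 ≤ s ∨ 1 ≤ t) :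
    0 < (cn (syn_e J) i s t).2 ∨
      ((cn (syn_e J) i s t).2 = 0 ∧ (cn (syn_e J) i s t).1 ≠ 0) := by
  rcases Nat.eq_zero_or_pos s with hs | hs
  · subst hs
    have ht : 1 ≤ t := by omega
    have ht' : (1 : ℤ) ≤ t := by exact_mod_cast ht
    unfold cn syn_e
    rw [if_neg (show ¬ (i + 1 = 0) by omega)]
    by_cases h1 : i + 1 ≤ 2 * J + 1
    · rw [if_pos h1]
      left
      simp
      omega
    · rw [if_neg h1]
      right
      simp
      omega
  · have := (syn_e_wd J (cn (syn_e J) i s t)).2 ⟨i, s, t, hi, hs, rfl⟩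
    omega

theorem syn_u_det {b c : ℤ} (hD : dsc b c < 0) {J : ℕ} (hJ : |b| < 2 * J) {i s t s' t' : ℕ}
    (hi : i < 2 * J + 2) (h : 0 < dt (cn (syn_e J) i s t) (cn (syn_e J) i s' t')) :
    syn_d b c / (2 * Real.pi) * dt (cn (syn_e J) i s t) (cn (syn_e J) i s' t') /
        Real.sqrt (nm b c (cn (syn_e J) i s t) * nm b c (cn (syn_e J) i s' t')) ≤
      uu (syn_ur b c) (cn (syn_e J) i s' t') - uu (syn_ur b c) (cn (syn_e J) i s t) ∧
    uu (syn_ur b c) (cn (syn_e J) i s' t') - uu (syn_ur b c) (cn (syn_e J) i s t) ≤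
      syn_d b c / 4 * dt (cn (syn_e J) i s t) (cn (syn_e J) i s' t') /
        Real.sqrt (nm b c (cn (syn_e J) i s t) * nm b c (cn (syn_e J) i s' t')) := by
  have h1 : dt (cn (syn_e J) i s t) (cn (syn_e J) i s' t') = (s : ℤ) * t' - t * s' := by
    have := syn_e_det J hi
    unfold dt at this
    unfold dt cn
    linear_combination ((s : ℤ) * t' - t * s') * this
  rw [h1] at h
  have hs : 1 ≤ s := by
    rcases Nat.eq_zero_or_pos s with h0 | h0
    · subst h0
      exfalso
      have : (0 : ℤ) ≤ t * s' := by positivity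
      push_cast at h
      linarith
    · exact h0
  have ht' : 1 ≤ t' := by
    rcases Nat.eq_zero_or_pos t' with h0 | h0
    · subst h0
      exfalso
      have : (0 : ℤ) ≤ t * s' := by positivity
      push_cast at h
      linarith
    · exact h0
  refine syn_det hD (syn_cn_up J hi (Or.inl hs)) (syn_cn_up J hi (Or.inr ht')) (by rw [h1]; exact h)
    ?_
  -- the cross term
  have hx := syn_e_ac hD hJ hi
  rw [syn_cross _ _ _ _ rfl rfl] at hx
  have h3 := syn_nm_pos hD (syn_e_ne J i)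
  have h4 := syn_nm_pos hD (syn_e_ne J (i + 1))
  set p := nm b c (syn_e J i) with hp
  set q := nm b c (syn_e J (i + 1)) with hq
  set x := 2 * (syn_e J i).1 * (syn_e J (i + 1)).1 + b * ((syn_e J i).1 * (syn_e J (i + 1)).2 +
    (syn_e J (i + 1)).1 * (syn_e J i).2) + 2 * c * (syn_e J i).2 * (syn_e J (i + 1)).2 with hxd
  have h5 : 2 * (cn (syn_e J) i s t).1 * (cn (syn_e J) i s' t').1 +
      b * ((cn (syn_e J) i s t).1 * (cn (syn_e J) i s' t').2 +
        (cn (syn_e J) i s' t').1 * (cn (syn_e J) i s t).2) +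
      2 * c * (cn (syn_e J) i s t).2 * (cn (syn_e J) i s' t').2 =
      2 * s * s' * p + ((s : ℤ) * t' + t * s') * x + 2 * t * t' * q := by
    rw [hp, hq, hxd]
    unfold cn nm
    ring
  rw [h5]
  have h6 : (1 : ℤ) ≤ s * t' := by
    have h7 : (1 : ℤ) ≤ s := by exact_mod_cast hs
    have h8 : (1 : ℤ) ≤ t' := by exact_mod_cast ht'
    nlinarith
  have h9 : 0 < ((s : ℤ) * t' + t * s') * x := by
    apply mul_pos _ hx
    have : (0 : ℤ) ≤ t * s' := by positivity
    linarith
  have h10 : 0 ≤ 2 * (s : ℤ) * s' * p := by positivity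
  have h11 : 0 ≤ 2 * (t : ℤ) * t' * q := by positivity
  linarith

theorem sys_neg_pr (b c : ℤ) (hD : dsc b c < 0) : Nonempty (Sys b c) := by
  have hd := syn_d_pos hD
  have hpi := Real.pi_pos
  obtain ⟨J, hJ⟩ : ∃ J : ℕ, |b| < 2 * J := by
    refine ⟨b.natAbs + 1, ?_⟩
    have : |b| = (b.natAbs : ℤ) := (Int.natCast_natAbs b).symm
    rw [this]
    push_cast
    omega
  exact ⟨{
    lam := 0
    κ := syn_d b c / (2 * Real.pi)
    ur := syn_ur b c
    rp := syn_rp b c
    r := 2 * J + 2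
    e := syn_e J
    c₁ := syn_d b c / (2 * Real.pi)
    c₂ := syn_d b c / 4
    κ_pos := by positivity
    c₁_pos := by positivity
    c₂_pos := by positivity
    pos := fun t _ => syn_quad hD t
    der := fun t _ => syn_der hD t
    top := syn_top hD
    botN := fun _ => syn_bot hD
    botP := fun h => absurd hD (not_lt.2 h)
    rp_wd := fun v hv => syn_rp_wd hD hv
    rp_self := fun v hv => by
      unfold syn_rp
      rw [if_pos hv]
    rp_unit := fun v _ => syn_rp_unit hD v
    r_pos := by omega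
    e_zero := by simp [syn_e]
    e_last := by
      constructor
      · simp [syn_e, nm]
      · simp [syn_e, uu]
    e_det := fun i hi => syn_e_det J hi
    e_nm := fun i _ => syn_nm_pos hD (syn_e_ne J i)
    e_ac := fun i hi => syn_e_ac hD hJ hi
    e_wd := fun v => by
      rw [syn_wdw hD]
      exact syn_e_wd J v
    u_hom := fun v w hv hw => syn_hom hD hv hw
    u_det := fun i s t s' t' hi h => syn_u_det hD hJ hi h }⟩

end Pool.Agent.MQ

namespace Pool.Agent.MQ

theorem sys_neg : type_of% @sys_neg_pr := @sys_neg_pr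

end Pool.Agent.MQ
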