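import Pool.Agent.Lib_helper39.MQ.Defs

/-! MQ block PAR: Parseval. -/

namespace Pool.Agent.MQ

open Filter Topology MeasureTheory

theorem par_ex_add (x y : ℝ) : ex (x + y) = ex x * ex y := by
  simp only [ex]
  rw [← Complex.exp_add]
  congr 1
  push_cast
  ring

theorem par_ex_norm (x : ℝ) : ‖ex x‖ = 1 := by
  simp only [ex]
  have : (2 * (Real.pi : ℂ) * Complex.I * (x : ℂ)) = ((2 * Real.pi * x : ℝ) : ℂ) * Complex.I := by
    push_cast
    ring
  rw [this]
  exact Complex.norm_exp_ofReal_mul_I _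

theorem par_ex_int (k : ℤ) : ex (k : ℝ) = 1 := by
  simp only [ex]
  have : (2 * (Real.pi : ℂ) * Complex.I * ((k : ℝ) : ℂ)) = (k : ℂ) * (2 * Real.pi * Complex.I) := by
    push_cast
    ring
  rw [this]
  exact Complex.exp_int_mul_two_pi_mul_I k

theorem par_ex_cont : Continuous ex := by
  unfold ex
  fun_prop

theorem par_coef (G : ℝ → ℂ) (k : ℤ) :
    fourierCoeffOn (zero_lt_one : (0 : ℝ) < 1) G k =
      ∫ t in (0 : ℝ)..1, G t * ex (-(k * t)) := by
  rw [fourierCoeffOn_eq_integral]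
  simp only [sub_zero, div_one, one_smul]
  apply intervalIntegral.integral_congr
  intro t _
  simp only
  rw [smul_eq_mul, mul_comm]
  congr 1
  rw [fourier_coe_apply]
  simp only [ex]
  congr 1
  push_cast
  simp only [sub_zero, div_one]
  ring

theorem par_hasSum {G : ℝ → ℂ} (hm : Measurable G) {B : ℝ} (hB : ∀ t, ‖G t‖ ≤ B) :
    HasSum (fun k : ℤ => ‖∫ t in (0 : ℝ)..1, G t * ex (-(k * t))‖ ^ 2)
      (∫ t in (0 : ℝ)..1, ‖G t‖ ^ 2) := by
  have hL : MemLp G 2 (volume.restrict (Set.Ioc (0 : ℝ) 1)) := by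
    apply MemLp.of_bound hm.aestronglyMeasurable B
    exact Eventually.of_forall hB
  have h := hasSum_sq_fourierCoeffOn (zero_lt_one : (0 : ℝ) < 1) hL
  simp only [sub_zero, inv_one, one_smul] at h
  have e : (fun k : ℤ => ‖∫ t in (0 : ℝ)..1, G t * ex (-(k * t))‖ ^ 2) =
      fun k : ℤ => ‖fourierCoeffOn (zero_lt_one : (0 : ℝ) < 1) G k‖ ^ 2 := by
    funext k
    rw [par_coef]
  rw [e]
  exact h

theorem par_int {G : ℝ → ℂ} (hm : Measurable G) {B : ℝ} (hB : ∀ t, ‖G t‖ ≤ B) (a b : ℝ) :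
    IntervalIntegrable G volume a b := by
  rw [intervalIntegrable_iff]
  refine Measure.integrableOn_of_bounded (M := B) ?_ hm.aestronglyMeasurable ?_
  · simp [Set.uIoc]
  · exact Eventually.of_forall hB

theorem par_shift {F : ℝ → ℝ} (hp : ∀ t, F (t + 1) = F t) (k : ℤ) (s : ℝ) :
    ∫ t in (0 : ℝ)..1, (F (t + s) : ℂ) * ex (-(k * t)) = ex (k * s) * fc F k := by
  set H : ℝ → ℂ := fun t => (F t : ℂ) * ex (-(k * t)) with hH
  have hper : Function.Periodic H 1 := by
    intro t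
    simp only [hH]
    rw [hp]
    congr 1
    have : (-((k : ℝ) * (t + 1))) = -(k * t) + ((-k : ℤ) : ℝ) := by push_cast; ring
    rw [this, par_ex_add, par_ex_int, mul_one]
  have e1 : ∀ t : ℝ, (F (t + s) : ℂ) * ex (-(k * t)) = ex (k * s) * H (t + s) := by
    intro t
    simp only [hH]
    have : (-((k : ℝ) * t)) = k * s + -(k * (t + s)) := by ring
    rw [this, par_ex_add]
    ring
  calc ∫ t in (0 : ℝ)..1, (F (t + s) : ℂ) * ex (-(k * t))
      = ∫ t in (0 : ℝ)..1, ex (k * s) * H (t + s) := by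
        apply intervalIntegral.integral_congr
        intro t _
        exact e1 t
    _ = ex (k * s) * ∫ t in (0 : ℝ)..1, H (t + s) := by
        rw [intervalIntegral.integral_const_mul]
    _ = ex (k * s) * ∫ t in (0 + s)..(1 + s), H t := by
        rw [intervalIntegral.integral_comp_add_right]
    _ = ex (k * s) * ∫ t in (0 : ℝ)..(0 + 1), H t := by
        congr 1
        have := hper.intervalIntegral_add_eq (0 + s) 0
        rw [show (1 + s) = (0 + s) + 1 by ring]
        exact this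
    _ = ex (k * s) * fc F k := by
        simp only [zero_add, fc, hH]

theorem parseval_pr {F : ℝ → ℝ} (hp : ∀ t, F (t + 1) = F t) (hm : Measurable F)
    (h1 : ∀ t, F t = 1 ∨ F t = -1) : Summable (fun k : ℤ => ‖fc F k‖ ^ 2) ∧
    ∑' k : ℤ, ‖fc F k‖ ^ 2 = 1 ∧ ∀ s σ : ℝ, (σ = 1 ∨ σ = -1) →
      Summable (fun k : ℤ => ‖fc F k‖ ^ 2 * ‖ex (k * s) - σ‖ ^ 2) ∧
      ∑' k : ℤ, ‖fc F k‖ ^ 2 * ‖ex (k * s) - σ‖ ^ 2 = 2 * df F s σ := by
  have hmC : Measurable (fun t : ℝ => (F t : ℂ)) := Complex.measurable_ofReal.comp hm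
  have hb : ∀ t, ‖(F t : ℂ)‖ ≤ 1 := by
    intro t
    rcases h1 t with h | h <;> rw [h] <;> simp
  have A := par_hasSum hmC hb
  have e1 : (∫ t in (0 : ℝ)..1, ‖(F t : ℂ)‖ ^ 2) = 1 := by
    have : (∫ t in (0 : ℝ)..1, ‖(F t : ℂ)‖ ^ 2) = ∫ t in (0 : ℝ)..1, (1 : ℝ) := by
      apply intervalIntegral.integral_congr
      intro t _
      simp only
      rcases h1 t with h | h <;> rw [h] <;> simp
    rw [this]
    simp
  rw [e1] at A
  refine ⟨A.summable, A.tsum_eq, ?_⟩
  intro s σ hσ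
  have hσ' : ‖(σ : ℂ)‖ = 1 := by
    rcases hσ with h | h <;> rw [h] <;> simp
  have hms : Measurable (fun t : ℝ => (F (t + s) : ℂ)) :=
    Complex.measurable_ofReal.comp (hm.comp (measurable_id.add_const s))
  have hmG : Measurable (fun t : ℝ => (F (t + s) : ℂ) - σ * (F t : ℂ)) :=
    hms.sub (hmC.const_mul _)
  have hbs : ∀ t, ‖(F (t + s) : ℂ)‖ ≤ 1 := fun t => hb (t + s)
  have hbG : ∀ t, ‖(F (t + s) : ℂ) - σ * (F t : ℂ)‖ ≤ 2 := by
    intro t
    calc ‖(F (t + s) : ℂ) - σ * (F t : ℂ)‖ ≤ ‖(F (t + s) : ℂ)‖ + ‖σ * (F t : ℂ)‖ := norm_sub_le _ _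
      _ ≤ 1 + 1 := by
        rw [norm_mul, hσ', one_mul]
        exact add_le_add (hb _) (hb _)
      _ = 2 := by norm_num
  have B := par_hasSum hmG hbG
  have e2 : (fun k : ℤ => ‖∫ t in (0 : ℝ)..1, ((F (t + s) : ℂ) - σ * (F t : ℂ)) *
      ex (-(k * t))‖ ^ 2) = fun k : ℤ => ‖fc F k‖ ^ 2 * ‖ex (k * s) - σ‖ ^ 2 := by
    funext k
    have hexm : Measurable (fun t : ℝ => ex (-(k * t))) :=
      (par_ex_cont.comp (by fun_prop : Continuous fun t : ℝ => -((k : ℝ) * t))).measurable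
    have i1 : IntervalIntegrable (fun t : ℝ => (F (t + s) : ℂ) * ex (-(k * t))) volume 0 1 := by
      apply par_int (hms.mul hexm) (B := 1)
      intro t
      simp only [Pi.mul_apply, norm_mul]
      rw [par_ex_norm, mul_one]
      exact hbs t
    have i2 : IntervalIntegrable (fun t : ℝ => (σ : ℂ) * ((F t : ℂ) * ex (-(k * t)))) volume 0 1 := by
      apply par_int ((hmC.mul hexm).const_mul _) (B := 1)
      intro t
      simp only [Pi.mul_apply, norm_mul]
      rw [par_ex_norm, mul_one, hσ', one_mul]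
      exact hb t
    have : (∫ t in (0 : ℝ)..1, ((F (t + s) : ℂ) - σ * (F t : ℂ)) * ex (-(k * t))) =
        fc F k * (ex (k * s) - σ) := by
      calc (∫ t in (0 : ℝ)..1, ((F (t + s) : ℂ) - σ * (F t : ℂ)) * ex (-(k * t)))
          = ∫ t in (0 : ℝ)..1, ((F (t + s) : ℂ) * ex (-(k * t)) -
              (σ : ℂ) * ((F t : ℂ) * ex (-(k * t)))) := by
            apply intervalIntegral.integral_congr
            intro t _
            simp only
            ring
        _ = (∫ t in (0 : ℝ)..1, (F (t + s) : ℂ) * ex (-(k * t))) -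
              ∫ t in (0 : ℝ)..1, (σ : ℂ) * ((F t : ℂ) * ex (-(k * t))) :=
            intervalIntegral.integral_sub i1 i2
        _ = ex (k * s) * fc F k - σ * fc F k := by
            rw [par_shift hp, intervalIntegral.integral_const_mul]
            rfl
        _ = fc F k * (ex (k * s) - σ) := by ring
    rw [this, norm_mul, mul_pow]
  have e3 : (∫ t in (0 : ℝ)..1, ‖(F (t + s) : ℂ) - σ * (F t : ℂ)‖ ^ 2) = 2 * df F s σ := by
    unfold df
    rw [← intervalIntegral.integral_const_mul]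
    apply intervalIntegral.integral_congr
    intro t _
    simp only
    have : ((F (t + s) : ℂ) - σ * (F t : ℂ)) = ((F (t + s) - σ * F t : ℝ) : ℂ) := by
      push_cast
      ring
    rw [this, Complex.norm_real, Real.norm_eq_abs]
    rcases h1 t with h | h <;> rcases h1 (t + s) with h' | h' <;> rcases hσ with h'' | h'' <;>
      rw [h, h', h''] <;> norm_num
  rw [e2, e3] at B
  exact ⟨B.summable, B.tsum_eq⟩

end Pool.Agent.MQ

namespace Pool.Agent.MQ

theorem parseval : type_of% @parseval_pr := @parseval_pr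

end Pool.Agent.MQ
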