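import Pool.Agent.Lib_helper39.MQ.Defs
import Pool.Agent.Lib_helper39.MQ.Defs

/-!
# Block EXP: character sums over all elements (helper44)

`kl_var` and `vc_one` are copies of theorems of helper95 and helper14.
-/

/-!
# EXP, file 1: Kusmin–Landau with variation, van der Corput's inequality

`kl_var` and `vc_one` are copies of the theorems of helper95 (H3 block KL) and helper14 (H3 block
VC).
-/

namespace Pool.Agent.Lib_helper44.EXP

section

open Complex

/-- `e(x) = exp(2πix)` -/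
noncomputable def ee (x : ℝ) : ℂ := Complex.exp (2 * Real.pi * x * I)

theorem ee_add (x y : ℝ) : ee (x + y) = ee x * ee y := by
  simp only [ee]
  rw [← Complex.exp_add]
  congr 1
  push_cast
  ring

theorem ee_norm (x : ℝ) : ‖ee x‖ = 1 := by
  simp only [ee]
  rw [Complex.norm_exp]
  simp

theorem ee_int (n : ℤ) : ee (n : ℝ) = 1 := by
  simp only [ee]
  have h := Complex.exp_int_mul_two_pi_mul_I n
  rw [← h]
  congr 1
  push_cast
  ring

theorem ee_zero : ee 0 = 1 := by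
  have := ee_int 0
  simpa using this

theorem ee_neg (x : ℝ) : ee (-x) = starRingEnd ℂ (ee x) := by
  simp only [ee]
  rw [← Complex.exp_conj]
  congr 1
  simp only [map_mul, Complex.conj_ofReal, Complex.conj_I, map_ofNat]
  push_cast
  ring

theorem ee_sub (x y : ℝ) : ee (x - y) = ee x * starRingEnd ℂ (ee y) := by
  rw [sub_eq_add_neg, ee_add, ee_neg]

theorem ee_norm_sub (x y : ℝ) : ‖ee x - ee y‖ ≤ 2 * Real.pi * |x - y| := by
  have h1 : ee x - ee y = ee y * (ee (x - y) - 1) := by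
    rw [mul_sub, ← ee_add, mul_one]
    congr 2
    ring
  rw [h1, norm_mul, ee_norm, one_mul]
  have h2 := Real.norm_exp_I_mul_ofReal_sub_one_le (x := 2 * Real.pi * (x - y))
  have h3 : ee (x - y) = cexp (I * ((2 * Real.pi * (x - y) : ℝ) : ℂ)) := by
    simp only [ee]
    congr 1
    push_cast
    ring
  rw [h3]
  refine h2.trans ?_
  rw [Real.norm_eq_abs, abs_mul, abs_of_pos (by positivity : (0 : ℝ) < 2 * Real.pi)]

theorem kl_lower {x δ : ℝ} (h : ∀ l : ℤ, δ ≤ |x - l|) : 4 * δ ≤ ‖1 - ee x‖ := by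
  set y : ℝ := x - round x with hy
  have hy1 : |y| ≤ 1 / 2 := abs_sub_round x
  have hy2 : δ ≤ |y| := h (round x)
  have h1 : ee x = ee y := by
    have : x = y + ((round x : ℤ) : ℝ) := by rw [hy]; ring
    rw [this, ee_add, ee_int, mul_one]
  have h3 : ‖1 - ee y‖ = 2 * |Real.sin (Real.pi * y)| := by
    have h4 : ee y = cexp (I * ((2 * Real.pi * y : ℝ) : ℂ)) := by
      simp only [ee]
      congr 1
      push_cast
      ring
    rw [h4, norm_sub_rev, Complex.norm_exp_I_mul_ofReal_sub_one]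
    rw [norm_mul, Real.norm_eq_abs, Real.norm_eq_abs, abs_of_pos (by norm_num : (0 : ℝ) < 2)]
    congr 3
    ring
  rw [h1, h3]
  have h5 : |Real.pi * y| ≤ Real.pi / 2 := by
    rw [abs_mul, abs_of_pos Real.pi_pos]
    have := mul_le_mul_of_nonneg_left hy1 Real.pi_pos.le
    linarith
  have h6 := Real.mul_abs_le_abs_sin h5
  rw [abs_mul, abs_of_pos Real.pi_pos] at h6
  have h7 : 2 / Real.pi * (Real.pi * |y|) = 2 * |y| := by
    field_simp
  rw [h7] at h6
  linarith

/-- Kusmin–Landau with variation (helper95). -/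
theorem kl_var {F : ℕ → ℝ} {N : ℕ} {δ : ℝ} (hδ : 0 < δ) (hδ2 : δ ≤ 1 / 2)
    (h : ∀ j < N, ∀ l : ℤ, δ ≤ |F (j + 1) - F j - l|) :
    ‖∑ j ∈ Finset.range (N + 1), ee (F j)‖ ≤
      1 / δ + 1 / δ ^ 2 * ∑ j ∈ Finset.range (N - 1), |F (j + 2) - 2 * F (j + 1) + F j| := by
  rcases Nat.eq_zero_or_pos N with hN | hN
  · subst hN
    simp only [zero_add, Finset.range_one, Finset.sum_singleton, ee_norm]
    have h1 : (1 : ℝ) ≤ 1 / δ := by
      rw [le_div_iff₀ hδ]
      linarith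
    simpa using h1
  set c : ℕ → ℂ := fun j => (1 - ee (F (j + 1) - F j))⁻¹ with hc
  have hne : ∀ j < N, (1 : ℂ) - ee (F (j + 1) - F j) ≠ 0 := by
    intro j hj h0
    have := kl_lower (h j hj)
    rw [h0, norm_zero] at this
    linarith
  have hcn : ∀ j < N, ‖c j‖ ≤ 1 / (4 * δ) := by
    intro j hj
    have h1 := kl_lower (h j hj)
    rw [hc]
    simp only
    rw [norm_inv, ← one_div]
    exact one_div_le_one_div_of_le (by positivity) h1
  have hcu : ∀ j < N, ee (F j) = c j * (ee (F j) - ee (F (j + 1))) := by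
    intro j hj
    have h1 : ee (F (j + 1)) = ee (F j) * ee (F (j + 1) - F j) := by
      rw [← ee_add]
      congr 1
      ring
    rw [h1, hc]
    simp only
    rw [← mul_one_sub, mul_comm, mul_assoc, mul_inv_cancel₀ (hne j hj), mul_one]
  have hcd : ∀ j, j + 1 < N → ‖c (j + 1) - c j‖ ≤
      1 / δ ^ 2 * |F (j + 2) - 2 * F (j + 1) + F j| := by
    intro j hj
    have hj' : j < N := (Nat.lt_succ_self j).trans hj
    have h1 : c (j + 1) - c j = c (j + 1) * c j *
        (ee (F (j + 2) - F (j + 1)) - ee (F (j + 1) - F j)) := by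
      have e1 := hne j hj'
      have e2 := hne (j + 1) hj
      rw [hc]
      simp only
      rw [show j + 1 + 1 = j + 2 from rfl] at e2 ⊢
      field_simp
      ring
    rw [h1, norm_mul, norm_mul]
    have h2 := ee_norm_sub (F (j + 2) - F (j + 1)) (F (j + 1) - F j)
    have h3 : F (j + 2) - F (j + 1) - (F (j + 1) - F j) = F (j + 2) - 2 * F (j + 1) + F j := by
      ring
    rw [h3] at h2
    have h4 : ‖c (j + 1)‖ * ‖c j‖ ≤ 1 / (4 * δ) * (1 / (4 * δ)) :=
      mul_le_mul (hcn _ hj) (hcn _ hj') (norm_nonneg _) (by positivity)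
    have h5 : ‖c (j + 1)‖ * ‖c j‖ *
        ‖ee (F (j + 2) - F (j + 1)) - ee (F (j + 1) - F j)‖ ≤
        1 / (4 * δ) * (1 / (4 * δ)) * (2 * Real.pi * |F (j + 2) - 2 * F (j + 1) + F j|) :=
      mul_le_mul h4 h2 (norm_nonneg _) (by positivity)
    refine h5.trans ?_
    have h6 : 1 / (4 * δ) * (1 / (4 * δ)) * (2 * Real.pi * |F (j + 2) - 2 * F (j + 1) + F j|) =
        Real.pi / 8 * (1 / δ ^ 2 * |F (j + 2) - 2 * F (j + 1) + F j|) := by
      field_simp
      ring
    rw [h6]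
    have h7 : Real.pi / 8 ≤ 1 := by
      have := Real.pi_le_four
      linarith
    have h8 : 0 ≤ 1 / δ ^ 2 * |F (j + 2) - 2 * F (j + 1) + F j| := by positivity
    nlinarith
  -- Abel summation
  have key : ∀ n, n + 1 ≤ N → ∑ j ∈ Finset.range (n + 2), ee (F j) =
      ee (F 0) * c 0 + ee (F (n + 1)) * (1 - c n) +
        ∑ j ∈ Finset.range n, ee (F (j + 1)) * (c (j + 1) - c j) := by
    intro n
    induction n with
    | zero =>
      intro h1
      rw [Finset.sum_range_succ, Finset.sum_range_one, Finset.range_zero, Finset.sum_empty]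
      have := hcu 0 h1
      simp only [zero_add] at this ⊢
      linear_combination this
    | succ n ih =>
      intro h1
      rw [Finset.sum_range_succ, ih (by omega), Finset.sum_range_succ _ n]
      have := hcu (n + 1) (by omega)
      rw [show n + 1 + 1 = n + 2 from rfl] at this ⊢
      linear_combination this
  obtain ⟨n, rfl⟩ : ∃ n, N = n + 1 := ⟨N - 1, by omega⟩
  rw [show n + 1 + 1 = n + 2 from rfl, key n le_rfl, Nat.add_sub_cancel]
  have h1 : ‖ee (F 0) * c 0‖ ≤ 1 / (4 * δ) := by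
    rw [norm_mul, ee_norm, one_mul]
    exact hcn 0 (Nat.succ_pos n)
  have h2 : ‖ee (F (n + 1)) * (1 - c n)‖ ≤ 1 + 1 / (4 * δ) := by
    rw [norm_mul, ee_norm, one_mul]
    refine (norm_sub_le _ _).trans ?_
    rw [norm_one]
    have := hcn n (Nat.lt_succ_self n)
    linarith
  have h3 : ‖∑ j ∈ Finset.range n, ee (F (j + 1)) * (c (j + 1) - c j)‖ ≤
      1 / δ ^ 2 * ∑ j ∈ Finset.range n, |F (j + 2) - 2 * F (j + 1) + F j| := by
    rw [Finset.mul_sum]
    refine norm_sum_le_of_le _ fun j hj => ?_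
    rw [Finset.mem_range] at hj
    rw [norm_mul, ee_norm, one_mul]
    exact hcd j (by omega)
  have h4 : 1 / (4 * δ) + (1 + 1 / (4 * δ)) ≤ 1 / δ := by
    have e1 : 1 / (4 * δ) = 1 / δ / 4 := by
      field_simp
    have e2 : 2 ≤ 1 / δ := by
      rw [le_div_iff₀ hδ]
      linarith
    rw [e1]
    linarith
  calc _ ≤ ‖ee (F 0) * c 0 + ee (F (n + 1)) * (1 - c n)‖ +
        ‖∑ j ∈ Finset.range n, ee (F (j + 1)) * (c (j + 1) - c j)‖ := norm_add_le _ _
    _ ≤ (‖ee (F 0) * c 0‖ + ‖ee (F (n + 1)) * (1 - c n)‖) +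
        ‖∑ j ∈ Finset.range n, ee (F (j + 1)) * (c (j + 1) - c j)‖ := by
        gcongr
        exact norm_add_le _ _
    _ ≤ _ := by linarith

/-- van der Corput's inequality (helper14). -/
theorem vc_one {G : Type*} [AddCommGroup G] (f : G → ℂ) (hfin : (Function.support f).Finite)
    (H B : Finset G) (hB : ∀ n, ∀ h ∈ H, f (n + h) ≠ 0 → n ∈ B) (b : ℝ) (hb : (B.card : ℝ) ≤ b) :
    (H.card : ℝ) ^ 2 * ‖∑' n, f n‖ ^ 2 ≤
      b * (∑ h ∈ H, ∑ h' ∈ H, ∑' n, f (n + (h - h')) * starRingEnd ℂ (f n)).re := by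
  classical
  have hsum : ∀ h : G, Summable (fun n => f (n + h)) := by
    intro h
    refine summable_of_hasFiniteSupport ?_
    refine (hfin.image (fun n => n - h)).subset ?_
    intro n hn
    exact ⟨n + h, hn, by simp⟩
  set F : G → ℂ := fun n => ∑ h ∈ H, f (n + h) with hF
  have hFB : ∀ n, n ∉ B → F n = 0 := by
    intro n hn
    refine Finset.sum_eq_zero fun h hh => ?_
    by_contra hne
    exact hn (hB n h hh hne)
  have h1 : (H.card : ℂ) * ∑' n, f n = ∑ n ∈ B, F n := by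
    have e1 : ∀ h ∈ H, ∑' n, f (n + h) = ∑' n, f n := fun h _ =>
      (Equiv.addRight h).tsum_eq f
    have e2 : ∑' n, F n = ∑ h ∈ H, ∑' n, f (n + h) :=
      Summable.tsum_finsetSum (fun h _ => hsum h)
    have e3 : ∑' n, F n = ∑ n ∈ B, F n := tsum_eq_sum fun n hn => hFB n hn
    rw [← e3, e2, Finset.sum_congr rfl e1, Finset.sum_const, nsmul_eq_mul]
  have h2 : ∑ n ∈ B, ‖F n‖ ^ 2 =
      (∑ h ∈ H, ∑ h' ∈ H, ∑' n, f (n + (h - h')) * starRingEnd ℂ (f n)).re := by
    have e3 : ∀ h ∈ H, ∀ h' ∈ H, ∑' n, f (n + (h - h')) * starRingEnd ℂ (f n) =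
        ∑ n ∈ B, f (n + h) * starRingEnd ℂ (f (n + h')) := by
      intro h hh h' _
      have e30 : ∑' n, f (n + h) * starRingEnd ℂ (f (n + h')) =
          ∑ n ∈ B, f (n + h) * starRingEnd ℂ (f (n + h')) := by
        refine tsum_eq_sum fun n hn => ?_
        have : f (n + h) = 0 := by
          by_contra hne
          exact hn (hB n h hh hne)
        rw [this, zero_mul]
      rw [← e30, ← (Equiv.addRight h').tsum_eq (fun n => f (n + (h - h')) * starRingEnd ℂ (f n))]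
      refine tsum_congr fun n => ?_
      have e31 : n + h' + (h - h') = n + h := by abel
      simp only [Equiv.coe_addRight, e31]
    have e4 : ∑ h ∈ H, ∑ h' ∈ H, ∑' n, f (n + (h - h')) * starRingEnd ℂ (f n) =
        ∑ n ∈ B, F n * starRingEnd ℂ (F n) := by
      rw [Finset.sum_congr rfl fun h hh => Finset.sum_congr rfl fun h' hh' => e3 h hh h' hh']
      have e5 : ∀ n ∈ B, F n * starRingEnd ℂ (F n) =
          ∑ h ∈ H, ∑ h' ∈ H, f (n + h) * starRingEnd ℂ (f (n + h')) := by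
        intro n _
        simp only [hF, map_sum]
        rw [Finset.sum_mul_sum]
      rw [Finset.sum_congr rfl e5, Finset.sum_comm]
      conv_rhs => rw [Finset.sum_comm]
      rw [Finset.sum_comm]
      refine Finset.sum_congr rfl fun h _ => ?_
      rw [Finset.sum_comm]
    rw [e4, Complex.re_sum]
    refine Finset.sum_congr rfl fun n _ => ?_
    rw [Complex.mul_conj, Complex.ofReal_re, Complex.normSq_eq_norm_sq]
  have h3 : ((H.card : ℝ) * ‖∑' n, f n‖) ^ 2 ≤ B.card * ∑ n ∈ B, ‖F n‖ ^ 2 := by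
    have e6 : (H.card : ℝ) * ‖∑' n, f n‖ = ‖∑ n ∈ B, F n‖ := by
      rw [← h1, norm_mul, Complex.norm_natCast]
    rw [e6]
    calc ‖∑ n ∈ B, F n‖ ^ 2 ≤ (∑ n ∈ B, ‖F n‖) ^ 2 := by
          gcongr
          exact norm_sum_le _ _
      _ ≤ B.card * ∑ n ∈ B, ‖F n‖ ^ 2 := sq_sum_le_card_mul_sum_sq
  rw [← h2]
  calc (H.card : ℝ) ^ 2 * ‖∑' n, f n‖ ^ 2 = ((H.card : ℝ) * ‖∑' n, f n‖) ^ 2 := by ring
    _ ≤ B.card * ∑ n ∈ B, ‖F n‖ ^ 2 := h3
    _ ≤ b * ∑ n ∈ B, ‖F n‖ ^ 2 := by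
        refine mul_le_mul_of_nonneg_right hb (Finset.sum_nonneg fun n _ => by positivity)

end

end Pool.Agent.Lib_helper44.EXP

/-!
# EXP, file 2: repeated Weyl differencing
-/

namespace Pool.Agent.Lib_helper44.EXP

section

open Complex

/-- the sum of `e(φ n)` over `a ≤ n < b` -/
noncomputable def S (φ : ℤ → ℝ) (a b : ℤ) : ℂ := ∑ n ∈ Finset.Ico a b, ee (φ n)

/-- the difference -/
def dd (h : ℕ) (φ : ℤ → ℝ) : ℤ → ℝ := fun n => φ (n + h) - φ n

/-- iterated differences -/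
def dl : List ℕ → (ℤ → ℝ) → (ℤ → ℝ)
  | [], φ => φ
  | h :: hs, φ => dl hs (dd h φ)

theorem dl_append (hs : List ℕ) (h : ℕ) (φ : ℤ → ℝ) : dl (hs ++ [h]) φ = dd h (dl hs φ) := by
  induction hs generalizing φ with
  | nil => rfl
  | cons k hs ih => simp only [List.cons_append, dl]; exact ih _

theorem S_norm_le (φ : ℤ → ℝ) (a b : ℤ) : ‖S φ a b‖ ≤ (b - a).toNat := by
  unfold S
  refine (norm_sum_le _ _).trans ?_
  simp [ee_norm]

theorem vdc (φ : ℤ → ℝ) (a b : ℤ) (H : ℕ) (hH : 1 ≤ H) (L : ℝ) (hL : ((b - a : ℤ) : ℝ) ≤ L)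
    (hHL : (H : ℝ) ≤ L) :
    ‖S φ a b‖ ^ 2 ≤ 2 * L / H * (L + 2 * ∑ h ∈ Finset.Ico 1 H, ‖S (dd h φ) a (b - h)‖) := by
  classical
  set f : ℤ → ℂ := fun n => if n ∈ Finset.Ico a b then ee (φ n) else 0 with hf
  have hfs : ∑' n, f n = S φ a b := by
    rw [tsum_eq_sum (s := Finset.Ico a b)]
    · unfold S
      refine Finset.sum_congr rfl fun n hn => ?_
      simp only [hf, if_pos hn]
    · intro n hn
      simp only [hf, if_neg hn]
  have hfin : (Function.support f).Finite := by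
    refine (Finset.Ico a b).finite_toSet.subset ?_
    intro n hn
    by_contra h
    exact hn (by simp only [hf, if_neg (show n ∉ Finset.Ico a b from h)])
  have hpos : ∀ h : ℕ, ∑' n, f (n + h) * starRingEnd ℂ (f n) = S (dd h φ) a (b - h) := by
    intro h
    rw [tsum_eq_sum (s := Finset.Ico a (b - h))]
    · unfold S
      refine Finset.sum_congr rfl fun n hn => ?_
      rw [Finset.mem_Ico] at hn
      have h1 : n ∈ Finset.Ico a b := Finset.mem_Ico.2 ⟨hn.1, by omega⟩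
      have h2 : n + h ∈ Finset.Ico a b := Finset.mem_Ico.2 ⟨by omega, by omega⟩
      simp only [hf, if_pos h1, if_pos h2, dd, ee_sub]
    · intro n hn
      simp only [hf]
      by_cases h1 : n ∈ Finset.Ico a b
      · have h2 : n + h ∉ Finset.Ico a b := by
          intro h3
          rw [Finset.mem_Ico] at h1 h3 hn
          omega
        rw [if_neg h2, zero_mul]
      · rw [if_neg h1, map_zero, mul_zero]
  have hneg : ∀ h : ℕ, ‖∑' n, f (n + (-(h : ℤ))) * starRingEnd ℂ (f n)‖ =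
      ‖S (dd h φ) a (b - h)‖ := by
    intro h
    rw [← hpos h, ← (Equiv.addRight (h : ℤ)).tsum_eq
      (fun n => f (n + (-(h : ℤ))) * starRingEnd ℂ (f n))]
    have : ∀ n : ℤ, f ((Equiv.addRight (h : ℤ)) n + (-(h : ℤ))) *
        starRingEnd ℂ (f ((Equiv.addRight (h : ℤ)) n)) =
        starRingEnd ℂ (f (n + h) * starRingEnd ℂ (f n)) := by
      intro n
      rw [map_mul, Complex.conj_conj, mul_comm]
      simp
    rw [tsum_congr this, ← Complex.conj_tsum, RCLike.norm_conj]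
  set T : ℕ → ℝ := fun h => ‖S (dd h φ) a (b - h)‖ with hT
  have hall : ∀ d : ℤ, ‖∑' n, f (n + d) * starRingEnd ℂ (f n)‖ = T d.natAbs := by
    intro d
    rcases Int.natAbs_eq d with h | h
    · conv_lhs => rw [h]
      rw [hpos]
    · conv_lhs => rw [h]
      rw [hneg]
  have hL0 : 0 < L := lt_of_lt_of_le (by exact_mod_cast hH) hHL
  have hT0 : T 0 ≤ L := by
    refine (S_norm_le _ _ _).trans ?_
    rcases le_or_gt a b with h | h
    · have : (((b - (0 : ℕ) - a).toNat : ℤ) : ℝ) = ((b - a : ℤ) : ℝ) := by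
        congr 1
        omega
      have h2 : (((b - (0 : ℕ) - a).toNat : ℕ) : ℝ) = (((b - (0 : ℕ) - a).toNat : ℤ) : ℝ) := by
        push_cast; rfl
      rw [h2, this]
      exact hL
    · have : (b - (0 : ℕ) - a).toNat = 0 := by omega
      rw [this]
      simpa using hL0.le
  set Hs : Finset ℤ := (Finset.range H).image (fun n : ℕ => (n : ℤ)) with hHs
  have hHc : (Hs.card : ℝ) = H := by
    rw [hHs, Finset.card_image_of_injective _ Nat.cast_injective, Finset.card_range]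
  have hsumr : ∀ g : ℤ → ℂ, ∑ h ∈ Hs, g h = ∑ h ∈ Finset.range H, g h := by
    intro g
    rw [hHs, Finset.sum_image (fun _ _ _ _ h => Nat.cast_injective h)]
  rcases le_or_gt b a with hba | hba
  · have : S φ a b = 0 := by
      unfold S
      rw [Finset.Ico_eq_empty (by omega), Finset.sum_empty]
    rw [this, norm_zero, zero_pow two_ne_zero]
    positivity
  have hmain := vc_one f hfin Hs (Finset.Ico (a - H + 1) b) (by
    intro n h hh hne
    rw [hHs, Finset.mem_image] at hh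
    obtain ⟨j, hj, rfl⟩ := hh
    rw [Finset.mem_range] at hj
    have h1 : n + j ∈ Finset.Ico a b := by
      by_contra h2
      exact hne (by simp only [hf, if_neg h2])
    rw [Finset.mem_Ico] at h1 ⊢
    omega) (2 * L) (by
      rw [Int.card_Ico]
      have : (((b - (a - H + 1)).toNat : ℕ) : ℝ) = (((b - (a - H + 1)).toNat : ℤ) : ℝ) := by
        push_cast; rfl
      rw [this]
      have h2 : ((b - (a - H + 1)).toNat : ℤ) ≤ (b - a) + H := by omega
      have h3 : ((((b - (a - H + 1)).toNat : ℤ)) : ℝ) ≤ (((b - a) + H : ℤ) : ℝ) := by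
        exact_mod_cast h2
      push_cast at h3 hL
      refine h3.trans ?_
      linarith)
  rw [hfs, hHc] at hmain
  have hre : (∑ h ∈ Hs, ∑ h' ∈ Hs, ∑' n, f (n + (h - h')) * starRingEnd ℂ (f n)).re ≤
      H * (L + 2 * ∑ h ∈ Finset.Ico 1 H, T h) := by
    refine (Complex.re_le_norm _).trans ?_
    rw [hsumr]
    refine (norm_sum_le _ _).trans ?_
    have : ∀ i ∈ Finset.range H, ‖∑ h' ∈ Hs, ∑' n, f (n + ((i : ℤ) - h')) * starRingEnd ℂ (f n)‖ ≤
        L + 2 * ∑ h ∈ Finset.Ico 1 H, T h := by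
      intro i hi
      rw [Finset.mem_range] at hi
      rw [hsumr]
      refine (norm_sum_le _ _).trans ?_
      simp only [hall]
      have e1 : ∑ j ∈ Finset.range H, T ((i : ℤ) - j).natAbs =
          ∑ j ∈ Finset.range i, T (i - j) + T 0 + ∑ j ∈ Finset.Ico (i + 1) H, T (j - i) := by
        have e2 : Finset.range H = Finset.range (i + 1) ∪ Finset.Ico (i + 1) H := by
          ext j; simp only [Finset.mem_range, Finset.mem_union, Finset.mem_Ico]; omega
        rw [e2, Finset.sum_union (by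
          rw [Finset.disjoint_left]; intro j; simp only [Finset.mem_range, Finset.mem_Ico]; omega),
          Finset.sum_range_succ]
        congr 1
        · congr 1
          · refine Finset.sum_congr rfl fun j hj => ?_
            rw [Finset.mem_range] at hj
            congr 1
            omega
          · simp
        · refine Finset.sum_congr rfl fun j hj => ?_
          rw [Finset.mem_Ico] at hj
          congr 1
          omega
      rw [e1]
      have hTn : ∀ h, 0 ≤ T h := fun h => norm_nonneg _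
      have e3 : ∑ j ∈ Finset.range i, T (i - j) ≤ ∑ h ∈ Finset.Ico 1 H, T h := by
        have : ∑ j ∈ Finset.range i, T (i - j) = ∑ h ∈ Finset.Ico 1 (i + 1), T h := by
          rw [← Finset.sum_image (f := T) (s := Finset.range i) (g := fun j => i - j)]
          · congr 1
            ext h
            simp only [Finset.mem_image, Finset.mem_range, Finset.mem_Ico]
            constructor
            · rintro ⟨j, hj, rfl⟩; omega
            · rintro ⟨h1, h2⟩; exact ⟨i - h, by omega, by omega⟩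
          · intro x hx y hy hxy
            simp only [Finset.coe_range, Set.mem_Iio] at hx hy
            simp only at hxy
            omega
        rw [this]
        exact Finset.sum_le_sum_of_subset_of_nonneg (by
          intro h; simp only [Finset.mem_Ico]; omega) fun _ _ _ => hTn _
      have e4 : ∑ j ∈ Finset.Ico (i + 1) H, T (j - i) ≤ ∑ h ∈ Finset.Ico 1 H, T h := by
        have : ∑ j ∈ Finset.Ico (i + 1) H, T (j - i) = ∑ h ∈ Finset.Ico 1 (H - i), T h := by
          rw [← Finset.sum_image (f := T) (s := Finset.Ico (i + 1) H) (g := fun j => j - i)]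
          · congr 1
            ext h
            simp only [Finset.mem_image, Finset.mem_Ico]
            constructor
            · rintro ⟨j, hj, rfl⟩; omega
            · rintro ⟨h1, h2⟩; exact ⟨h + i, by omega, by omega⟩
          · intro x hx y hy hxy
            simp only [Finset.coe_Ico, Set.mem_Ico] at hx hy
            simp only at hxy
            omega
        rw [this]
        exact Finset.sum_le_sum_of_subset_of_nonneg (by
          intro h; simp only [Finset.mem_Ico]; omega) fun _ _ _ => hTn _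
      linarith
    refine (Finset.sum_le_sum this).trans ?_
    rw [Finset.sum_const, Finset.card_range, nsmul_eq_mul]
  have hH0 : (0 : ℝ) < H := by exact_mod_cast hH
  have h5 : (H : ℝ) ^ 2 * ‖S φ a b‖ ^ 2 ≤ 2 * L * (H * (L + 2 * ∑ h ∈ Finset.Ico 1 H, T h)) :=
    hmain.trans (mul_le_mul_of_nonneg_left hre (by positivity))
  have h6 : ‖S φ a b‖ ^ 2 ≤ 2 * L * (H * (L + 2 * ∑ h ∈ Finset.Ico 1 H, T h)) / (H : ℝ) ^ 2 := by
    rw [le_div_iff₀ (by positivity)]
    linarith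
  refine h6.trans (le_of_eq ?_)
  field_simp

/-- repeated differencing: constants -/
noncomputable def Cw : ℕ → ℝ
  | 0 => 1
  | (r + 1) => 2 ^ (2 * 2 ^ r) * (1 + 2 ^ (2 ^ r) * Cw r)

theorem Cw_pos (r : ℕ) : 0 < Cw r := by
  induction r with
  | zero => simp [Cw]
  | succ r ih => simp only [Cw]; positivity

theorem weyl (r : ℕ) : ∀ (φ : ℤ → ℝ) (a b : ℤ) (H : ℕ), 1 ≤ H → ∀ (L ℓ B : ℝ),
    ((b - a : ℤ) : ℝ) ≤ L → (H : ℝ) ≤ L → 0 ≤ ℓ → ∑ h ∈ Finset.Ico 1 H, (1 / (h : ℝ)) ≤ ℓ →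
    0 ≤ B →
    (∀ hs : List ℕ, hs.length = r → (∀ h ∈ hs, 1 ≤ h ∧ h < H) →
      ‖S (dl hs φ) a (b - (hs.sum : ℕ))‖ ≤ B / (hs.prod : ℕ)) →
    ‖S φ a b‖ ^ (2 ^ r) ≤ Cw r * L ^ (2 ^ r) * (1 / H + B / L * (ℓ / H) ^ r) := by
  induction r with
  | zero =>
    intro φ a b H hH L ℓ B hL hHL hℓ hs hB hyp
    have hH0 : (0 : ℝ) < H := by exact_mod_cast hH
    have hL0 : 0 < L := lt_of_lt_of_le hH0 hHL
    have h1 := hyp [] rfl (by simp)
    simp only [dl, List.sum_nil, Nat.cast_zero, sub_zero, List.prod_nil, Nat.cast_one,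
      div_one] at h1
    simp only [pow_zero, pow_one, Cw, mul_one, one_mul]
    have h2 : L * (1 / H + B / L) = L / H + B := by field_simp
    rw [h2]
    have : 0 ≤ L / H := by positivity
    linarith
  | succ r ih =>
    intro φ a b H hH L ℓ B hL hHL hℓ hs hB hyp
    have hH0 : (0 : ℝ) < H := by exact_mod_cast hH
    have hL0 : 0 < L := lt_of_lt_of_le hH0 hHL
    set p : ℕ := 2 ^ r with hp
    have hp1 : 1 ≤ p := Nat.one_le_two_pow
    set T : ℕ → ℝ := fun h => ‖S (dd h φ) a (b - h)‖ with hT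
    have hTn : ∀ h, 0 ≤ T h := fun h => norm_nonneg _
    have hv := vdc φ a b H hH L hL hHL
    have hTh : ∀ h ∈ Finset.Ico 1 H, T h ^ p ≤
        Cw r * L ^ p * (1 / H + B / L * (ℓ / H) ^ r * (1 / h)) := by
      intro h hh
      rw [Finset.mem_Ico] at hh
      have hh0 : (0 : ℝ) < h := by exact_mod_cast hh.1
      have := ih (dd h φ) a (b - h) H hH L ℓ (B / h) (by
        push_cast at hL ⊢
        linarith) hHL hℓ hs (by positivity) (by
        intro ks hks hks2
        have := hyp (h :: ks) (by simp [hks]) (by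
          intro x hx
          rcases List.mem_cons.1 hx with rfl | hx
          · exact hh
          · exact hks2 x hx)
        simp only [dl, List.sum_cons, List.prod_cons] at this
        rw [show b - (h : ℤ) - ((ks.sum : ℕ) : ℤ) = b - ((h + ks.sum : ℕ) : ℤ) by push_cast; ring]
        refine this.trans (le_of_eq ?_)
        push_cast
        rw [div_div])
      refine this.trans (le_of_eq ?_)
      congr 2
      field_simp
    set s0 : ℝ := ∑ h ∈ Finset.Ico 1 H, T h with hs0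
    have hs00 : 0 ≤ s0 := Finset.sum_nonneg fun _ _ => hTn _
    set E : ℝ := B / L * (ℓ / H) ^ r with hE
    have hE0 : 0 ≤ E := by positivity
    have hsump : s0 ^ p ≤ H ^ (p - 1) * (Cw r * L ^ p * (1 + E * ℓ)) := by
      have h1 : s0 ^ p ≤ ((Finset.Ico 1 H).card : ℝ) ^ (p - 1) * ∑ h ∈ Finset.Ico 1 H, T h ^ p := by
        obtain ⟨q, hq⟩ : ∃ q, p = q + 1 := ⟨p - 1, by omega⟩
        rw [hq, Nat.add_sub_cancel]
        exact pow_sum_le_card_mul_sum_pow (fun i _ => hTn i) q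
      have h2 : ((Finset.Ico 1 H).card : ℝ) ≤ H := by
        rw [Nat.card_Ico]
        exact_mod_cast Nat.sub_le _ _
      have h3 : ∑ h ∈ Finset.Ico 1 H, T h ^ p ≤ Cw r * L ^ p * (1 + E * ℓ) := by
        refine (Finset.sum_le_sum hTh).trans ?_
        rw [← Finset.mul_sum]
        have hC := Cw_pos r
        refine mul_le_mul_of_nonneg_left ?_ (by positivity)
        rw [Finset.sum_add_distrib, Finset.sum_const, nsmul_eq_mul, ← Finset.mul_sum]
        have h4 : ((Finset.Ico 1 H).card : ℝ) * (1 / H) ≤ 1 := by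
          rw [mul_one_div, div_le_one hH0]
          exact h2
        have h5 : E * ∑ h ∈ Finset.Ico 1 H, (1 / (h : ℝ)) ≤ E * ℓ :=
          mul_le_mul_of_nonneg_left hs hE0
        linarith
      calc s0 ^ p ≤ ((Finset.Ico 1 H).card : ℝ) ^ (p - 1) * ∑ h ∈ Finset.Ico 1 H, T h ^ p := h1
        _ ≤ H ^ (p - 1) * (Cw r * L ^ p * (1 + E * ℓ)) := by
            have := Finset.sum_nonneg (s := Finset.Ico 1 H) (f := fun h => T h ^ p)
              fun i _ => pow_nonneg (hTn i) p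
            gcongr
    have hconv : (L + 2 * s0) ^ p ≤ 2 ^ (p - 1) * (L ^ p + (2 * s0) ^ p) :=
      add_pow_le hL0.le (by positivity) p
    have h7 : ‖S φ a b‖ ^ (2 ^ (r + 1)) ≤ (2 * L / H * (L + 2 * s0)) ^ p := by
      have : 2 ^ (r + 1) = 2 * p := by rw [hp, pow_succ, mul_comm]
      rw [this, pow_mul]
      exact pow_le_pow_left₀ (by positivity) hv p
    refine h7.trans ?_
    rw [mul_pow]
    have hC := Cw_pos r
    have hHp : (H : ℝ) ^ p = H ^ (p - 1) * H := by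
      conv_lhs => rw [show p = (p - 1) + 1 by omega, pow_succ]
    have h2p : (2 : ℝ) ^ (p - 1) ≤ 2 ^ p := pow_le_pow_right₀ (by norm_num) (Nat.sub_le _ _)
    calc (2 * L / H) ^ p * (L + 2 * s0) ^ p
        ≤ (2 * L / H) ^ p * (2 ^ (p - 1) * (L ^ p + (2 * s0) ^ p)) := by gcongr
      _ ≤ (2 * L / H) ^ p * (2 ^ p * (L ^ p + (2 * s0) ^ p)) := by gcongr
      _ = (2 * L / H) ^ p * (2 ^ p * (L ^ p + 2 ^ p * s0 ^ p)) := by rw [mul_pow 2 s0 p]
      _ ≤ (2 * L / H) ^ p * (2 ^ p * (L ^ p + 2 ^ p *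
            (H ^ (p - 1) * (Cw r * L ^ p * (1 + E * ℓ))))) := by gcongr
      _ = 2 ^ (2 * p) * L ^ p * L ^ p *
            (1 / H ^ p + 2 ^ p * Cw r * (1 / H + E * ℓ / H)) := by
          rw [div_pow, mul_pow, hHp, two_mul, pow_add]
          have : (H : ℝ) ^ (p - 1) ≠ 0 := by positivity
          field_simp
      _ ≤ 2 ^ (2 * p) * L ^ p * L ^ p *
            ((1 + 2 ^ p * Cw r) * (1 / H + E * ℓ / H)) := by
          have h8 : 1 / (H : ℝ) ^ p ≤ 1 / H := by
            apply one_div_le_one_div_of_le hH0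
            calc (H : ℝ) = H ^ 1 := (pow_one _).symm
              _ ≤ H ^ p := pow_le_pow_right₀ (by exact_mod_cast hH) hp1
          have h9 : 0 ≤ E * ℓ / H := by positivity
          refine mul_le_mul_of_nonneg_left ?_ (by positivity)
          have : (1 + 2 ^ p * Cw r) * (1 / H + E * ℓ / H) =
            (1 / H + E * ℓ / H) + 2 ^ p * Cw r * (1 / H + E * ℓ / H) := by ring
          rw [this]
          linarith
      _ = Cw (r + 1) * L ^ 2 ^ (r + 1) * (1 / H + B / L * (ℓ / H) ^ (r + 1)) := by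
          simp only [Cw, ← hp]
          have : (2 : ℕ) ^ (r + 1) = p + p := by rw [hp, pow_succ]; ring
          rw [this, pow_add, hE, pow_succ]
          ring

end

end Pool.Agent.Lib_helper44.EXP

/-!
# EXP, file 3: the derivative test
-/

namespace Pool.Agent.Lib_helper44.EXP

section

open Complex

theorem dl_mvt (hs : List ℕ) : ∀ (F : ℕ → ℝ → ℝ) (φ : ℤ → ℝ) (x0 x1 : ℝ),
    (∀ i < hs.length, ∀ x ∈ Set.Icc x0 x1, HasDerivAt (F i) (F (i + 1) x) x) →
    (∀ n : ℤ, x0 ≤ n → (n : ℝ) ≤ x1 → φ n = F 0 n) →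
    (∀ h ∈ hs, 1 ≤ h) → ∀ n : ℤ, x0 ≤ n → (n : ℝ) + (hs.sum : ℕ) ≤ x1 →
    ∃ ξ ∈ Set.Icc x0 x1, dl hs φ n = (hs.prod : ℕ) * F hs.length ξ := by
  induction hs with
  | nil =>
    intro F φ x0 x1 _ hφ _ n hn hn1
    simp only [List.sum_nil, Nat.cast_zero, add_zero] at hn1
    exact ⟨n, ⟨hn, hn1⟩, by simp [dl, hφ n hn hn1]⟩
  | cons h ks ih =>
    intro F φ x0 x1 hF hφ hpos n hn hn1
    have hh : 1 ≤ h := hpos h (by simp)
    have hh0 : (0 : ℝ) < h := by exact_mod_cast hh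
    simp only [List.sum_cons, Nat.cast_add] at hn1
    obtain ⟨ξ, hξ, he⟩ := ih (fun i x => F i (x + h) - F i x) (dd h φ) x0 (x1 - h) (by
      intro i hi x hx
      have h1 := hF i (by simp only [List.length_cons]; omega) x ⟨hx.1, by linarith [hx.2]⟩
      have h2 := hF i (by simp only [List.length_cons]; omega) (x + h)
        ⟨by linarith [hx.1], by linarith [hx.2]⟩
      exact (h2.comp_add_const x (h : ℝ)).sub h1) (by
      intro m hm hm1
      simp only [dd]
      rw [hφ m hm (by linarith), hφ (m + h) (by push_cast; linarith) (by push_cast; linarith)]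
      push_cast
      rfl) (fun k hk => hpos k (by simp [hk])) n hn (by linarith)
    simp only [dl, List.prod_cons, List.length_cons]
    rw [he]
    obtain ⟨η, hη, he2⟩ := exists_hasDerivAt_eq_slope (F ks.length) (F (ks.length + 1))
      (a := ξ) (b := ξ + h) (by linarith) (by
        intro x hx
        exact (hF ks.length (by simp) x ⟨by linarith [hξ.1, hx.1],
          by linarith [hξ.2, hx.2]⟩).continuousAt.continuousWithinAt) (by
        intro x hx
        exact hF ks.length (by simp) x ⟨by linarith [hξ.1, hx.1], by linarith [hξ.2, hx.2]⟩)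
    refine ⟨η, ⟨by linarith [hξ.1, hη.1], by linarith [hξ.2, hη.2]⟩, ?_⟩
    have e5 : (h : ℝ) * F (ks.length + 1) η = F ks.length (ξ + h) - F ks.length ξ := by
      rw [he2, show ξ + (h : ℝ) - ξ = h by ring]
      field_simp
    rw [← e5, Nat.cast_mul]
    ring

theorem abs_test (r : ℕ) (F : ℕ → ℝ → ℝ) (x0 x1 : ℝ) (a b : ℤ) (ha : x0 ≤ a)
    (hb : (b : ℝ) - 1 ≤ x1)
    (hF : ∀ i < r + 2, ∀ x ∈ Set.Icc x0 x1, HasDerivAt (F i) (F (i + 1) x) x)
    (l0 l1 l2 : ℝ) (hl0 : 0 < l0) (hl2 : 0 ≤ l2) (h1 : ∀ x ∈ Set.Icc x0 x1, l0 ≤ |F (r + 1) x|)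
    (h2 : ∀ x ∈ Set.Icc x0 x1, |F (r + 1) x| ≤ l1)
    (h3 : ∀ x ∈ Set.Icc x0 x1, |F (r + 2) x| ≤ l2) (H : ℕ) (hH : 1 ≤ H)
    (hHr : (H : ℝ) ^ r * l1 ≤ 1 / 2) (L ℓ : ℝ) (hL : ((b - a : ℤ) : ℝ) ≤ L) (hHL : (H : ℝ) ≤ L)
    (hℓ : 0 ≤ ℓ) (hs : ∑ h ∈ Finset.Ico 1 H, (1 / (h : ℝ)) ≤ ℓ) :
    ‖S (fun n => F 0 n) a b‖ ^ (2 ^ r) ≤
      Cw r * L ^ (2 ^ r) * (1 / H + (1 / l0 + L * l2 / l0 ^ 2) / L * (ℓ / H) ^ r) := by
  have hH0 : (0 : ℝ) < H := by exact_mod_cast hH
  have hL0 : 0 < L := lt_of_lt_of_le hH0 hHL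
  refine weyl r (fun n => F 0 n) a b H hH L ℓ _ hL hHL hℓ hs (by positivity) ?_
  intro ks hks hks2
  set φ : ℤ → ℝ := fun n => F 0 n with hφ
  have hprod : (ks.prod : ℝ) ≤ (H : ℝ) ^ r := by
    have : ks.prod ≤ H ^ ks.length := List.prod_le_pow_card ks H fun x hx => (hks2 x hx).2.le
    rw [hks] at this
    exact_mod_cast this
  have hprod1 : 1 ≤ ks.prod := List.one_le_prod_of_one_le fun x hx => (hks2 x hx).1
  have hp0 : (0 : ℝ) < (ks.prod : ℕ) := by exact_mod_cast hprod1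
  obtain ⟨s, hs'⟩ : ∃ s : ℕ, ks.sum = s := ⟨_, rfl⟩
  rw [hs']
  rcases le_or_gt (b - (s : ℤ)) a with hba | hba
  · have : S (dl ks φ) a (b - (s : ℤ)) = 0 := by
      unfold S
      rw [Finset.Ico_eq_empty (by omega), Finset.sum_empty]
    rw [this, norm_zero]
    positivity
  obtain ⟨N, hN⟩ : ∃ N : ℕ, b - (s : ℤ) = a + (N + 1 : ℕ) :=
    ⟨(b - (s : ℤ) - a - 1).toNat, by push_cast; omega⟩
  have hNr : (b : ℝ) - s = a + (N + 1) := by
    have : ((b - (s : ℤ) : ℤ) : ℝ) = ((a + (N + 1 : ℕ) : ℤ) : ℝ) := by rw [hN]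
    push_cast at this
    exact this
  have hSr : S (dl ks φ) a (b - (s : ℤ)) =
      ∑ j ∈ Finset.range (N + 1), ee (dl ks φ (a + j)) := by
    unfold S
    rw [hN]
    rw [show Finset.Ico a (a + (N + 1 : ℕ)) =
      (Finset.range (N + 1)).image (fun j : ℕ => a + (j : ℤ)) by
        ext x
        simp only [Finset.mem_Ico, Finset.mem_image, Finset.mem_range]
        constructor
        · rintro ⟨h4, h5⟩
          exact ⟨(x - a).toNat, by push_cast at h5; omega, by omega⟩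
        · rintro ⟨j, hj, rfl⟩
          push_cast
          omega]
    rw [Finset.sum_image]
    intro x _ y _ hxy
    simpa using hxy
  have hs0 : (0 : ℝ) ≤ s := Nat.cast_nonneg _
  have hN0 : (0 : ℝ) ≤ N := Nat.cast_nonneg _
  have hx1 : (a : ℝ) + N + s ≤ x1 := by linarith
  -- a point is in the interval
  have hne : x0 ≤ x1 := by linarith
  have hl1 : l0 ≤ l1 := (h1 x0 ⟨le_rfl, hne⟩).trans (h2 x0 ⟨le_rfl, hne⟩)
  set δ : ℝ := (ks.prod : ℕ) * l0 with hδ
  have hδ0 : 0 < δ := by positivity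
  have hpl : ((ks.prod : ℕ) : ℝ) * l1 ≤ 1 / 2 := by
    have : 0 ≤ l1 := hl0.le.trans hl1
    exact (mul_le_mul_of_nonneg_right hprod this).trans hHr
  have hδ2 : δ ≤ 1 / 2 := (mul_le_mul_of_nonneg_left hl1 hp0.le).trans hpl
  have hd1 : ∀ j : ℕ, j < N → ∃ ξ ∈ Set.Icc x0 x1,
      dl ks φ (a + (j + 1 : ℕ)) - dl ks φ (a + j) = (ks.prod : ℕ) * F (r + 1) ξ := by
    intro j hj
    have hj' : (j : ℝ) + 1 ≤ N := by exact_mod_cast hj
    have hj0 : (0 : ℝ) ≤ j := Nat.cast_nonneg _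
    have es : (ks ++ [1]).sum = s + 1 := by simp [hs']
    obtain ⟨ξ, hξ, he⟩ := dl_mvt (ks ++ [1]) F φ x0 x1 (by
      intro i hi x hx
      rw [List.length_append, hks, List.length_singleton] at hi
      exact hF i (by omega) x hx) (fun n _ _ => rfl) (by
      intro h hh
      rcases List.mem_append.1 hh with hh | hh
      · exact (hks2 h hh).1
      · simp only [List.mem_singleton] at hh
        omega) (a + j) (by push_cast; linarith) (by
      rw [es]
      push_cast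
      linarith)
    refine ⟨ξ, hξ, ?_⟩
    rw [dl_append, List.length_append, hks, List.prod_append] at he
    simp only [dd, List.length_singleton, List.prod_singleton, mul_one] at he
    rw [← he]
    congr 2
    push_cast
    ring
  have hd2 : ∀ j : ℕ, j + 1 < N → ∃ ξ ∈ Set.Icc x0 x1,
      dl ks φ (a + (j + 2 : ℕ)) - 2 * dl ks φ (a + (j + 1 : ℕ)) + dl ks φ (a + j) =
        (ks.prod : ℕ) * F (r + 2) ξ := by
    intro j hj
    have hj' : (j : ℝ) + 1 + 1 ≤ N := by exact_mod_cast hj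
    have hj0 : (0 : ℝ) ≤ j := Nat.cast_nonneg _
    have es : (ks ++ [1] ++ [1]).sum = s + 2 := by simp [hs']
    obtain ⟨ξ, hξ, he⟩ := dl_mvt (ks ++ [1] ++ [1]) F φ x0 x1 (by
      intro i hi x hx
      simp only [List.length_append, hks, List.length_singleton] at hi
      exact hF i (by omega) x hx) (fun n _ _ => rfl) (by
      intro h hh
      simp only [List.mem_append, List.mem_singleton] at hh
      rcases hh with (hh | hh) | hh
      · exact (hks2 h hh).1
      · omega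
      · omega) (a + j) (by push_cast; linarith) (by
      rw [es]
      push_cast
      linarith)
    refine ⟨ξ, hξ, ?_⟩
    rw [dl_append, dl_append] at he
    simp only [dd, List.length_append, hks, List.length_singleton, List.prod_append,
      List.prod_singleton, mul_one] at he
    rw [← he]
    push_cast
    rw [show a + (j : ℤ) + 1 + 1 = a + (j + 2) by ring, show a + (j : ℤ) + 1 = a + (j + 1) by ring]
    ring
  rw [hSr]
  have hkl := kl_var (F := fun j => dl ks φ (a + j)) (N := N) hδ0 hδ2 (by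
    intro j hj l
    obtain ⟨ξ, hξ, he⟩ := hd1 j hj
    have e1 : δ ≤ |((ks.prod : ℕ) : ℝ) * F (r + 1) ξ| := by
      rw [abs_mul, abs_of_pos hp0]
      exact mul_le_mul_of_nonneg_left (h1 ξ hξ) hp0.le
    have e2 : |((ks.prod : ℕ) : ℝ) * F (r + 1) ξ| ≤ 1 / 2 := by
      rw [abs_mul, abs_of_pos hp0]
      exact (mul_le_mul_of_nonneg_left (h2 ξ hξ) hp0.le).trans hpl
    have e0 : dl ks φ (a + ((j + 1 : ℕ) : ℤ)) - dl ks φ (a + (j : ℤ)) - (l : ℝ) =
        ((ks.prod : ℕ) : ℝ) * F (r + 1) ξ - l := by rw [he]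
    refine le_trans ?_ (le_of_eq (congrArg abs e0.symm))
    rcases eq_or_ne l 0 with rfl | hl
    · simpa using e1
    · have e3 : (1 : ℝ) ≤ |(l : ℝ)| := by
        rw [← Int.cast_abs]
        exact_mod_cast Int.one_le_abs hl
      have e4 : |(l : ℝ)| - |((ks.prod : ℕ) : ℝ) * F (r + 1) ξ| ≤
          |((ks.prod : ℕ) : ℝ) * F (r + 1) ξ - l| := by
        rw [abs_sub_comm]
        exact abs_sub_abs_le_abs_sub _ _
      linarith)
  refine hkl.trans ?_
  have hsum2 : ∑ j ∈ Finset.range (N - 1), |dl ks φ (a + (j + 2 : ℕ)) -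
      2 * dl ks φ (a + (j + 1 : ℕ)) + dl ks φ (a + j)| ≤ L * ((ks.prod : ℕ) * l2) := by
    have e1 : ∀ j ∈ Finset.range (N - 1), |dl ks φ (a + (j + 2 : ℕ)) -
      2 * dl ks φ (a + (j + 1 : ℕ)) + dl ks φ (a + j)| ≤ (ks.prod : ℕ) * l2 := by
      intro j hj
      rw [Finset.mem_range] at hj
      obtain ⟨ξ, hξ, he⟩ := hd2 j (by omega)
      rw [he, abs_mul, abs_of_pos hp0]
      exact mul_le_mul_of_nonneg_left (h3 ξ hξ) hp0.le
    refine (Finset.sum_le_sum e1).trans ?_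
    rw [Finset.sum_const, Finset.card_range, nsmul_eq_mul]
    refine mul_le_mul_of_nonneg_right ?_ (by positivity)
    have e2 : ((N - 1 : ℕ) : ℝ) ≤ N + 1 := by
      have : ((N - 1 : ℕ) : ℝ) ≤ N := by exact_mod_cast Nat.sub_le _ _
      linarith
    push_cast at hL
    linarith
  calc 1 / δ + 1 / δ ^ 2 * ∑ j ∈ Finset.range (N - 1), |dl ks φ (a + (j + 2 : ℕ)) -
      2 * dl ks φ (a + (j + 1 : ℕ)) + dl ks φ (a + j)|
      ≤ 1 / δ + 1 / δ ^ 2 * (L * ((ks.prod : ℕ) * l2)) := by gcongr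
    _ = (1 / l0 + L * l2 / l0 ^ 2) / (ks.prod : ℕ) := by
        rw [hδ]
        field_simp

end

end Pool.Agent.Lib_helper44.EXP

/-!
# EXP, file 4: the derivatives of `1 / (x² + β x + γ)`
-/

namespace Pool.Agent.Lib_helper44.EXP

section

open Polynomial

/-- the polynomials `U_i` -/
noncomputable def Up (β γ : ℝ) : ℕ → ℝ[X]
  | 0 => 0
  | 1 => 1
  | (i + 2) => (C 2 * X + C β) * Up β γ (i + 1) - (X ^ 2 + C β * X + C γ) * Up β γ i

theorem Up_der (β γ : ℝ) (i : ℕ) :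
    derivative (Up β γ (i + 1)) = C ((i : ℝ) + 1) * Up β γ i ∧
      derivative (Up β γ (i + 2)) = C ((i : ℝ) + 2) * Up β γ (i + 1) := by
  induction i with
  | zero =>
    constructor
    · simp [Up]
    · simp [Up]
  | succ i ih =>
    obtain ⟨h1, h2⟩ := ih
    refine ⟨?_, ?_⟩
    · rw [show i + 1 + 1 = i + 2 from rfl, h2]
      congr 2
      push_cast
      ring
    · have e1 : Up β γ (i + 1 + 2) =
        (C 2 * X + C β) * Up β γ (i + 2) - (X ^ 2 + C β * X + C γ) * Up β γ (i + 1) := rfl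
      have e2 : Up β γ (i + 2) =
        (C 2 * X + C β) * Up β γ (i + 1) - (X ^ 2 + C β * X + C γ) * Up β γ i := rfl
      rw [e1, derivative_sub, derivative_mul, derivative_mul, h1, h2]
      simp only [derivative_add, derivative_mul, derivative_C, derivative_X, derivative_X_pow,
        zero_mul, zero_add, add_zero, mul_one]
      rw [show i + 1 + 1 = i + 2 from rfl]
      have e3 : (C (((i + 1 : ℕ) : ℝ) + 2) : ℝ[X]) = C ((i : ℝ) + 1) + C 2 := by
        rw [← C_add]; congr 1; push_cast; ring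
      have e4 : (C ((i : ℝ) + 2) : ℝ[X]) = C ((i : ℝ) + 1) + 1 := by
        rw [← C_1, ← C_add]; congr 1; ring
      rw [e3, e4]
      have e5 : (C ((2 : ℕ) : ℝ) : ℝ[X]) = C 2 := by norm_num
      rw [e5]
      have e6 : (C (2 : ℝ) : ℝ[X]) = 2 := by
        rw [← map_ofNat (C : ℝ →+* ℝ[X]) 2]
      have e7 : (X : ℝ[X]) ^ (2 - 1) = X := by norm_num
      rw [e7]
      linear_combination (-(C ((i : ℝ) + 1)) : ℝ[X]) * e2 + (0 : ℝ[X]) * e6

theorem Up_coeff (β γ : ℝ) (i : ℕ) :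
    ((Up β γ (i + 1)).natDegree ≤ i ∧ (Up β γ (i + 1)).coeff i = (i : ℝ) + 1) ∧
      (Up β γ (i + 2)).natDegree ≤ i + 1 ∧ (Up β γ (i + 2)).coeff (i + 1) = (i : ℝ) + 2 := by
  have hd1 : (C (2 : ℝ) * X + C β : ℝ[X]).natDegree ≤ 1 := natDegree_linear_le
  have hc1 : (C (2 : ℝ) * X + C β : ℝ[X]).coeff 1 = 2 := by
    simp
  have hd2 : (X ^ 2 + C β * X + C γ : ℝ[X]).natDegree ≤ 2 := by
    compute_degree
  have hc2 : (X ^ 2 + C β * X + C γ : ℝ[X]).coeff 2 = 1 := by
    simp [coeff_X, coeff_C]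
  induction i with
  | zero =>
    refine ⟨⟨by simp [Up], by simp [Up]⟩, ?_, ?_⟩
    · simp only [Up, mul_one, mul_zero, sub_zero]
      exact hd1
    · simp only [Up, mul_one, mul_zero, sub_zero]
      rw [zero_add, hc1]
      simp
  | succ i ih =>
    obtain ⟨⟨h1, h2⟩, h3, h4⟩ := ih
    refine ⟨⟨h3, ?_⟩, ?_, ?_⟩
    · rw [show i + 1 + 1 = i + 2 from rfl, h4]
      push_cast; ring
    · have e1 : Up β γ (i + 1 + 2) =
        (C 2 * X + C β) * Up β γ (i + 2) - (X ^ 2 + C β * X + C γ) * Up β γ (i + 1) := rfl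
      rw [e1]
      refine (natDegree_sub_le _ _).trans (max_le ?_ ?_)
      · exact (natDegree_mul_le).trans (by omega)
      · exact (natDegree_mul_le).trans (by omega)
    · have e1 : Up β γ (i + 1 + 2) =
        (C 2 * X + C β) * Up β γ (i + 2) - (X ^ 2 + C β * X + C γ) * Up β γ (i + 1) := rfl
      rw [e1, coeff_sub]
      have e2 := coeff_mul_add_eq_of_natDegree_le hd1 h3
      have e3 := coeff_mul_add_eq_of_natDegree_le hd2 h1
      rw [Nat.add_comm 1 (i + 1)] at e2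
      rw [Nat.add_comm 2 i] at e3
      rw [e2, show i + 1 + 1 = i + 2 from rfl, e3, h2, h4, hc1, hc2]
      push_cast
      ring

/-- a polynomial is large away from finitely many real points -/
theorem root_excl (p : ℝ[X]) (d : ℕ) (hd : p.natDegree ≤ d) (hc : p.coeff d ≠ 0) :
    ∃ Z : List ℝ, Z.length = d ∧ ∀ ρ : ℝ, 0 ≤ ρ → ∀ x : ℝ, (∀ z ∈ Z, ρ ≤ |x - z|) →
      |p.coeff d| * ρ ^ d ≤ |p.eval x| := by
  have hnd : p.natDegree = d := le_antisymm hd (le_natDegree_of_ne_zero hc)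
  set q : ℂ[X] := p.map (algebraMap ℝ ℂ) with hq
  have hqd : q.natDegree = d := by
    rw [hq, natDegree_map, hnd]
  have hqs : q.Splits := IsAlgClosed.splits q
  have hcard : Multiset.card q.roots = d := by
    rw [← hqd]
    exact (splits_iff_card_roots.1 hqs)
  refine ⟨(q.roots.map Complex.re).toList, by simp [hcard], ?_⟩
  intro ρ hρ x hx
  have h1 : q = C q.leadingCoeff * (q.roots.map (fun a => X - C a)).prod :=
    (hqs.eq_prod_roots)
  have h2 : ((p.eval x : ℝ) : ℂ) = q.eval (x : ℂ) := by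
    rw [hq, eval_map]
    exact (eval₂_at_apply (algebraMap ℝ ℂ) x).symm
  have h3 : q.leadingCoeff = ((p.coeff d : ℝ) : ℂ) := by
    rw [hq, leadingCoeff_map, leadingCoeff, hnd]
    rfl
  have h4 : |p.eval x| = ‖q.eval (x : ℂ)‖ := by
    rw [← h2, Complex.norm_real, Real.norm_eq_abs]
  rw [h4, h1, eval_mul, eval_C, norm_mul, h3, Complex.norm_real, Real.norm_eq_abs]
  refine mul_le_mul_of_nonneg_left ?_ (abs_nonneg _)
  have hx' : ∀ z ∈ q.roots, ρ ≤ ‖(x : ℂ) - z‖ := by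
    intro z hz
    have := hx z.re (by
      rw [Multiset.mem_toList]
      exact Multiset.mem_map_of_mem _ hz)
    refine this.trans ?_
    have h5 := Complex.abs_re_le_norm ((x : ℂ) - z)
    rwa [Complex.sub_re, Complex.ofReal_re] at h5
  rw [← hcard]
  clear h1 h2 h3 h4 hx hcard
  generalize q.roots = R at hx'
  induction R using Multiset.induction_on with
  | empty => simp
  | cons a R ih =>
    rw [Multiset.map_cons, Multiset.prod_cons, Multiset.card_cons, pow_succ', eval_mul, norm_mul]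
    have h6 := hx' a (Multiset.mem_cons_self _ _)
    have h7 := ih (fun z hz => hx' z (Multiset.mem_cons_of_mem hz))
    rw [eval_sub, eval_X, eval_C]
    exact mul_le_mul h6 h7 (by positivity) (norm_nonneg _)

/-- exceptional intervals -/
theorem split_sum (z : ℤ → ℂ) (hz : ∀ n, ‖z n‖ ≤ 1) (ρ B : ℝ) (hρ : 0 ≤ ρ) (hB : 0 ≤ B)
    (Z : List ℝ) : ∀ a b : ℤ, (∀ a' b' : ℤ, a ≤ a' → b' ≤ b →
      (∀ x : ℝ, (a' : ℝ) ≤ x → x ≤ (b' : ℝ) - 1 → ∀ ζ ∈ Z, ρ ≤ |x - ζ|) →
      ‖∑ n ∈ Finset.Ico a' b', z n‖ ≤ B) →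
    ‖∑ n ∈ Finset.Ico a b, z n‖ ≤ 2 ^ Z.length * (B + 2 * ρ + 1) - (2 * ρ + 1) := by
  induction Z with
  | nil =>
    intro a b h
    have := h a b le_rfl le_rfl (by simp)
    simp only [List.length_nil, pow_zero, one_mul]
    linarith
  | cons ζ Z ih =>
    intro a b h
    have hpos : 0 ≤ 2 ^ (ζ :: Z).length * (B + 2 * ρ + 1) - (2 * ρ + 1) := by
      have : (1 : ℝ) ≤ 2 ^ (ζ :: Z).length := one_le_pow₀ (by norm_num)
      nlinarith
    rcases le_or_gt b a with hab | hab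
    · rw [Finset.Ico_eq_empty (by omega), Finset.sum_empty, norm_zero]
      exact hpos
    set p1 : ℤ := ⌊ζ - ρ⌋ + 1 with hp1
    set p2 : ℤ := ⌈ζ + ρ⌉ with hp2
    have hp12 : p1 ≤ p2 + 1 := by
      have h1 : (⌊ζ - ρ⌋ : ℝ) ≤ ζ - ρ := Int.floor_le _
      have h2 : ζ + ρ ≤ (⌈ζ + ρ⌉ : ℝ) := Int.le_ceil _
      have h3 : (⌊ζ - ρ⌋ : ℝ) ≤ (⌈ζ + ρ⌉ : ℝ) := by linarith
      have h4 : ⌊ζ - ρ⌋ ≤ ⌈ζ + ρ⌉ := by exact_mod_cast h3
      omega
    set m1 : ℤ := max a (min b p1) with hm1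
    set m2 : ℤ := max m1 (min b p2) with hm2
    have ham1 : a ≤ m1 := le_max_left _ _
    have hm12 : m1 ≤ m2 := le_max_left _ _
    have hm1b : m1 ≤ b := by omega
    have hm2b : m2 ≤ b := by omega
    have hL := ih a m1 (by
      intro a' b' ha' hb' hx
      refine h a' b' ha' (hb'.trans hm1b) ?_
      intro x hx1 hx2 w hw
      rcases List.mem_cons.1 hw with rfl | hw
      · rcases le_or_gt p1 a with hpa | hpa
        · exfalso
          have : m1 = a := by omega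
          have h5 : (a' : ℝ) ≤ (b' : ℝ) - 1 := hx1.trans hx2
          have h6 : a' ≤ b' - 1 := by exact_mod_cast h5
          omega
        · have h5 : m1 ≤ p1 := by omega
          have h6 : (b' : ℝ) ≤ (p1 : ℝ) := by exact_mod_cast hb'.trans h5
          have h7 : (⌊w - ρ⌋ : ℝ) ≤ w - ρ := Int.floor_le _
          have h8 : (p1 : ℝ) = (⌊w - ρ⌋ : ℝ) + 1 := by rw [hp1]; push_cast; ring
          rw [abs_sub_comm]
          refine le_trans ?_ (le_abs_self _)
          linarith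
      · exact hx x hx1 hx2 w hw)
    have hR := ih m2 b (by
      intro a' b' ha' hb' hx
      refine h a' b' (by omega) hb' ?_
      intro x hx1 hx2 w hw
      rcases List.mem_cons.1 hw with rfl | hw
      · rcases le_or_gt b p2 with hpa | hpa
        · exfalso
          have : m2 = b := by omega
          have h5 : (a' : ℝ) ≤ (b' : ℝ) - 1 := hx1.trans hx2
          have h6 : a' ≤ b' - 1 := by exact_mod_cast h5
          omega
        · have h5 : p2 ≤ m2 := by omega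
          have h6 : (p2 : ℝ) ≤ (a' : ℝ) := by exact_mod_cast h5.trans ha'
          have h7 : w + ρ ≤ (⌈w + ρ⌉ : ℝ) := Int.le_ceil _
          refine le_trans ?_ (le_abs_self _)
          rw [← hp2] at h7
          linarith
      · exact hx x hx1 hx2 w hw)
    have hM : ‖∑ n ∈ Finset.Ico m1 m2, z n‖ ≤ 2 * ρ + 1 := by
      have h5 : ‖∑ n ∈ Finset.Ico m1 m2, z n‖ ≤ ((m2 - m1).toNat : ℝ) := by
        refine (norm_sum_le _ _).trans ?_
        refine (Finset.sum_le_sum (fun n _ => hz n)).trans ?_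
        simp
      refine h5.trans ?_
      have h6 : (m2 - m1).toNat ≤ (p2 - p1).toNat := by omega
      have h7 : ((m2 - m1).toNat : ℝ) ≤ ((p2 - p1).toNat : ℝ) := by exact_mod_cast h6
      refine h7.trans ?_
      rcases le_or_gt p1 p2 with h8 | h8
      · have h9 : (((p2 - p1).toNat : ℕ) : ℝ) = ((p2 - p1 : ℤ) : ℝ) := by
          have : (((p2 - p1).toNat : ℤ)) = p2 - p1 := by omega
          rw [← this]
          push_cast
          rfl
        rw [h9]
        have h10 : (p2 : ℝ) < ζ + ρ + 1 := Int.ceil_lt_add_one _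
        have h11 : ζ - ρ < (⌊ζ - ρ⌋ : ℝ) + 1 := Int.lt_floor_add_one _
        have h12 : (p1 : ℝ) = (⌊ζ - ρ⌋ : ℝ) + 1 := by rw [hp1]; push_cast; ring
        push_cast
        linarith
      · have : (p2 - p1).toNat = 0 := by omega
        rw [this]
        push_cast
        linarith
    have hsum : ∑ n ∈ Finset.Ico a b, z n = ∑ n ∈ Finset.Ico a m1, z n +
        ∑ n ∈ Finset.Ico m1 m2, z n + ∑ n ∈ Finset.Ico m2 b, z n := by
      rw [← Finset.sum_union (Finset.Ico_disjoint_Ico_consecutive _ _ _),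
        Finset.Ico_union_Ico_eq_Ico ham1 hm12,
        ← Finset.sum_union (Finset.Ico_disjoint_Ico_consecutive _ _ _),
        Finset.Ico_union_Ico_eq_Ico (ham1.trans hm12) hm2b]
    rw [hsum]
    refine (norm_add₃_le).trans ?_
    have : (2 : ℝ) ^ (ζ :: Z).length * (B + 2 * ρ + 1) = 2 * (2 ^ Z.length * (B + 2 * ρ + 1)) := by
      rw [List.length_cons, pow_succ]; ring
    rw [this]
    linarith

end

end Pool.Agent.Lib_helper44.EXP

/-!
# EXP, file 5: the phase and its derivatives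
-/

namespace Pool.Agent.Lib_helper44.EXP

section

open Polynomial Pool.Agent.MQ

/-- the norm of a real vector -/
def nr (b c : ℤ) (x y : ℝ) : ℝ := x ^ 2 + b * x * y + c * y ^ 2

theorem nr_eq (b c : ℤ) (x y : ℝ) (hy : 0 < y) :
    nr b c x y = y ^ 2 * ((x / y) ^ 2 + b * (x / y) + c) := by
  unfold nr
  field_simp

variable {b c : ℤ}

/-- lower bound for the norm in the window -/
theorem exists_c0 (S : Sys b c) : ∃ c0 : ℝ, 0 < c0 ∧ ∀ t : ℝ, (dsc b c < 0 ∨ S.lam ≤ t) →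
    c0 * (1 + t ^ 2) ≤ t ^ 2 + b * t + c := by
  set T : ℝ := 2 * (|(b : ℝ)| + |(c : ℝ)|) + 2 with hT
  have hb := abs_nonneg (b : ℝ)
  have hc := abs_nonneg (c : ℝ)
  have hT0 : 2 ≤ T := by rw [hT]; linarith
  have hlarge : ∀ t : ℝ, T ≤ |t| → 1 / 2 * (1 + t ^ 2) ≤ t ^ 2 + b * t + c := by
    intro t ht
    have h1 : -(|(b : ℝ)| * |t|) ≤ b * t := by
      rw [← abs_mul]; exact neg_abs_le _
    have h2 : -|(c : ℝ)| ≤ c := neg_abs_le _
    have h3 : t ^ 2 = |t| ^ 2 := (sq_abs t).symm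
    have h4 : T * |t| ≤ |t| ^ 2 := by
      rw [sq]; exact mul_le_mul_of_nonneg_right ht (abs_nonneg _)
    have h5 : 2 ≤ |t| := hT0.trans ht
    have h6 : |(c : ℝ)| * 1 ≤ |(c : ℝ)| * |t| := by
      apply mul_le_mul_of_nonneg_left _ hc
      linarith
    rw [hT] at h4
    rw [h3]
    nlinarith
  have hcomp : IsCompact ({t : ℝ | dsc b c < 0 ∨ S.lam ≤ t} ∩ Set.Icc (-T) T) := by
    refine IsCompact.inter_left isCompact_Icc ?_
    by_cases hD : dsc b c < 0
    · have : {t : ℝ | dsc b c < 0 ∨ S.lam ≤ t} = Set.univ := by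
        ext t; simp [hD]
      rw [this]; exact isClosed_univ
    · have : {t : ℝ | dsc b c < 0 ∨ S.lam ≤ t} = Set.Ici S.lam := by
        ext t; simp [hD]
      rw [this]; exact isClosed_Ici
  rcases Set.eq_empty_or_nonempty ({t : ℝ | dsc b c < 0 ∨ S.lam ≤ t} ∩ Set.Icc (-T) T) with he | hne
  · refine ⟨1 / 2, by norm_num, fun t ht => ?_⟩
    apply hlarge
    by_contra h
    push Not at h
    have : t ∈ ({t : ℝ | dsc b c < 0 ∨ S.lam ≤ t} ∩ Set.Icc (-T) T) := ⟨ht, abs_le.1 h.le⟩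
    rw [he] at this
    exact this
  · obtain ⟨t0, ht0, hmin⟩ := hcomp.exists_isMinOn hne
      (f := fun t : ℝ => (t ^ 2 + b * t + c) / (1 + t ^ 2)) (by
        apply ContinuousOn.div
        · fun_prop
        · fun_prop
        · intro t _
          positivity)
    have hp := S.pos t0 ht0.1
    refine ⟨min (1 / 2) ((t0 ^ 2 + b * t0 + c) / (1 + t0 ^ 2)), by
      apply lt_min (by norm_num); positivity, fun t ht => ?_⟩
    rcases le_or_gt T |t| with h | h
    · refine le_trans ?_ (hlarge t h)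
      apply mul_le_mul_of_nonneg_right (min_le_left _ _) (by positivity)
    · have h1 : (t0 ^ 2 + b * t0 + c) / (1 + t0 ^ 2) ≤ (t ^ 2 + b * t + c) / (1 + t ^ 2) :=
        hmin (show t ∈ _ from ⟨ht, abs_le.1 h.le⟩)
      have h2 : (min (1 / 2) ((t0 ^ 2 + b * t0 + c) / (1 + t0 ^ 2))) * (1 + t ^ 2) ≤
          ((t ^ 2 + b * t + c) / (1 + t ^ 2)) * (1 + t ^ 2) :=
        mul_le_mul_of_nonneg_right ((min_le_right _ _).trans h1) (by positivity)
      rwa [div_mul_cancel₀ _ (by positivity)] at h2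

theorem nr_lower {c0 : ℝ} (lam : ℝ) (h : ∀ t : ℝ, (dsc b c < 0 ∨ lam ≤ t) →
    c0 * (1 + t ^ 2) ≤ t ^ 2 + b * t + c) {x y : ℝ} (hy : 0 < y)
    (hx : dsc b c < 0 ∨ lam ≤ x / y) : c0 * (x ^ 2 + y ^ 2) ≤ nr b c x y := by
  rw [nr_eq b c x y hy]
  have h1 := mul_le_mul_of_nonneg_left (h (x / y) hx) (sq_nonneg y)
  refine le_trans (le_of_eq ?_) h1
  field_simp
  ring

/-- the derivatives of the phase -/
noncomputable def Fam (S : Sys b c) (k y : ℝ) : ℕ → ℝ → ℝ
  | 0, x => k * S.ur (x / y)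
  | (i + 1), x => (-1) ^ (i + 1) * (k * S.κ * (i.factorial : ℝ) * y) *
      ((Up (b * y) (c * y ^ 2) (i + 1)).eval x / nr b c x y ^ (i + 1))

theorem Up_eval_rec (β γ : ℝ) (i : ℕ) (x : ℝ) : (Up β γ (i + 2)).eval x =
    (2 * x + β) * (Up β γ (i + 1)).eval x - (x ^ 2 + β * x + γ) * (Up β γ i).eval x := by
  simp [Up]

theorem Fam_der (S : Sys b c) (k : ℝ) {y : ℝ} (hy : 0 < y) (i : ℕ) {x : ℝ}
    (hx : dsc b c < 0 ∨ S.lam < x / y) :
    HasDerivAt (Fam S k y i) (Fam S k y (i + 1) x) x := by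
  have hx' : dsc b c < 0 ∨ S.lam ≤ x / y := hx.imp id le_of_lt
  have hpos : 0 < nr b c x y := by
    rw [nr_eq b c x y hy]
    have := S.pos (x / y) hx'
    positivity
  cases i with
  | zero =>
    have h1 := (S.der (x / y) hx).comp x ((hasDerivAt_id x).div_const y)
    have h2 := h1.const_mul k
    refine h2.congr_deriv ?_
    simp only [Fam, Up, Nat.factorial_zero, Nat.cast_one, mul_one, eval_one, zero_add, pow_one]
    have h3 := S.pos (x / y) hx'
    rw [nr_eq b c x y hy]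
    field_simp
  | succ i =>
    have h1 : HasDerivAt (fun x => (Up (b * y) (c * y ^ 2) (i + 1)).eval x)
        (((i : ℝ) + 1) * (Up (b * y) (c * y ^ 2) i).eval x) x := by
      have := (Up (b * y) (c * y ^ 2) (i + 1)).hasDerivAt x
      rw [(Up_der (b * y) (c * y ^ 2) i).1, eval_mul, eval_C] at this
      exact this
    have h2 : HasDerivAt (fun x => nr b c x y) (2 * x + b * y) x := by
      unfold nr
      have e1 : HasDerivAt (fun x : ℝ => x ^ 2) (2 * x) x := by
        simpa using hasDerivAt_pow 2 x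
      have e2 : HasDerivAt (fun x : ℝ => (b : ℝ) * x * y) (b * y) x := by
        have := ((hasDerivAt_id x).const_mul (b : ℝ)).mul_const y
        simpa using this
      exact (e1.add e2).add_const _
    have h3 : HasDerivAt (fun x => nr b c x y ^ (i + 1))
        (((i + 1 : ℕ) : ℝ) * nr b c x y ^ i * (2 * x + b * y)) x := by
      have := h2.fun_pow (i + 1)
      simpa using this
    have h4 := (h1.div h3 (by positivity)).const_mul
      ((-1) ^ (i + 1) * (k * S.κ * (i.factorial : ℝ) * y))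
    refine h4.congr_deriv ?_
    simp only [Fam]
    rw [Up_eval_rec]
    have e1 : x ^ 2 + (b : ℝ) * y * x + c * y ^ 2 = nr b c x y := by
      unfold nr; ring
    rw [e1, Nat.factorial_succ]
    set N := nr b c x y with hN
    set U0 := eval x (Up (b * y) (c * y ^ 2) i)
    set U1 := eval x (Up (b * y) (c * y ^ 2) (i + 1))
    have hN0 : N ≠ 0 := hpos.ne'
    rw [show i + 1 + 1 = i + 2 from rfl]
    have e2 : (((i : ℝ) + 1) * U0 * N ^ (i + 1) -
        U1 * (((i + 1 : ℕ) : ℝ) * N ^ i * (2 * x + b * y))) / (N ^ (i + 1)) ^ 2 =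
        -((i : ℝ) + 1) * (((2 * x + b * y) * U1 - N * U0) / N ^ (i + 2)) := by
      rw [div_eq_iff (by positivity)]
      have : ((2 * x + b * y) * U1 - N * U0) / N ^ (i + 2) * (N ^ (i + 1)) ^ 2 =
          ((2 * x + b * y) * U1 - N * U0) * N ^ i := by
        rw [div_mul_eq_mul_div, div_eq_iff (by positivity)]
        ring
      rw [mul_assoc (-((i : ℝ) + 1)), this]
      push_cast
      ring
    rw [e2]
    push_cast
    ring

theorem Up_upper (b c : ℤ) {y : ℝ} (hy : 0 < y) (x : ℝ) (i : ℕ) :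
    |(Up (b * y) (c * y ^ 2) (i + 1)).eval x| ≤
        ((3 + 2 * |(b : ℝ)| + |(c : ℝ)|) * (|x| + y)) ^ i ∧
      |(Up (b * y) (c * y ^ 2) (i + 2)).eval x| ≤
        ((3 + 2 * |(b : ℝ)| + |(c : ℝ)|) * (|x| + y)) ^ (i + 1) := by
  set A : ℝ := 3 + 2 * |(b : ℝ)| + |(c : ℝ)| with hA
  set s : ℝ := |x| + y with hs
  have hb := abs_nonneg (b : ℝ)
  have hc := abs_nonneg (c : ℝ)
  have hx := abs_nonneg x
  have hs0 : 0 < s := by positivity
  have hA0 : 3 ≤ A := by rw [hA]; linarith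
  have h1 : |2 * x + (b : ℝ) * y| ≤ (2 + |(b : ℝ)|) * s := by
    refine (abs_add_le _ _).trans ?_
    rw [abs_mul, abs_mul, abs_of_pos hy, abs_two, hs]
    nlinarith
  have h2 : |x ^ 2 + (b : ℝ) * y * x + c * y ^ 2| ≤ (1 + |(b : ℝ)| + |(c : ℝ)|) * s ^ 2 := by
    have e1 : |x ^ 2 + (b : ℝ) * y * x + c * y ^ 2| ≤ |x| ^ 2 + |(b : ℝ)| * y * |x| +
        |(c : ℝ)| * y ^ 2 := by
      refine (abs_add_le _ _).trans ?_
      have := abs_add_le (x ^ 2) ((b : ℝ) * y * x)
      rw [abs_mul (b * y), abs_mul (b : ℝ) y, abs_pow, abs_of_pos hy] at this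
      rw [abs_mul (c : ℝ), abs_pow, abs_of_pos hy]
      linarith
    refine e1.trans ?_
    have e2 : |x| ^ 2 ≤ s ^ 2 := by rw [hs]; nlinarith
    have e3 : y * |x| ≤ s ^ 2 := by rw [hs]; nlinarith
    have e4 : y ^ 2 ≤ s ^ 2 := by rw [hs]; nlinarith
    have e5 : |(b : ℝ)| * (y * |x|) ≤ |(b : ℝ)| * s ^ 2 := mul_le_mul_of_nonneg_left e3 hb
    have e6 : |(c : ℝ)| * y ^ 2 ≤ |(c : ℝ)| * s ^ 2 := mul_le_mul_of_nonneg_left e4 hc
    nlinarith
  induction i with
  | zero =>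
    refine ⟨by simp [Up], ?_⟩
    rw [Up_eval_rec]
    simp only [Up, eval_one, eval_zero, mul_one, mul_zero, sub_zero, zero_add, pow_one]
    refine h1.trans ?_
    apply mul_le_mul_of_nonneg_right _ hs0.le
    rw [hA]; linarith
  | succ i ih =>
    refine ⟨ih.2, ?_⟩
    rw [Up_eval_rec]
    refine (abs_sub _ _).trans ?_
    rw [abs_mul, abs_mul]
    have e1 : |2 * x + (b : ℝ) * y| * |(Up (b * y) (c * y ^ 2) (i + 1 + 1)).eval x| ≤
        (2 + |(b : ℝ)|) * s * (A * s) ^ (i + 1) := mul_le_mul h1 ih.2 (abs_nonneg _) (by positivity)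
    have e2 : |x ^ 2 + (b : ℝ) * y * x + c * y ^ 2| *
        |(Up (b * y) (c * y ^ 2) (i + 1)).eval x| ≤
        (1 + |(b : ℝ)| + |(c : ℝ)|) * s ^ 2 * (A * s) ^ i :=
      mul_le_mul h2 ih.1 (abs_nonneg _) (by positivity)
    refine (add_le_add e1 e2).trans ?_
    have e3 : (1 + |(b : ℝ)| + |(c : ℝ)|) * s ^ 2 * (A * s) ^ i ≤
        (1 + |(b : ℝ)| + |(c : ℝ)|) * s * (A * s) ^ (i + 1) := by
      rw [pow_succ (A * s) i]
      have e4 : s ^ 2 ≤ s * (A * s) := by nlinarith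
      have e5 : 0 ≤ (1 + |(b : ℝ)| + |(c : ℝ)|) * (A * s) ^ i := by positivity
      calc (1 + |(b : ℝ)| + |(c : ℝ)|) * s ^ 2 * (A * s) ^ i
          = (1 + |(b : ℝ)| + |(c : ℝ)|) * (A * s) ^ i * s ^ 2 := by ring
        _ ≤ (1 + |(b : ℝ)| + |(c : ℝ)|) * (A * s) ^ i * (s * (A * s)) :=
            mul_le_mul_of_nonneg_left e4 e5
        _ = _ := by ring
    refine (add_le_add_right e3 _).trans (le_of_eq ?_)
    rw [pow_succ (A * s) (i + 1), hA]
    ring

theorem Fam_upper (S : Sys b c) {c0 : ℝ} (h0 : 0 < c0)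
    (hc0 : ∀ t : ℝ, (dsc b c < 0 ∨ S.lam ≤ t) → c0 * (1 + t ^ 2) ≤ t ^ 2 + b * t + c)
    (k : ℝ) {y : ℝ} (hy : 0 < y) (i : ℕ) {x : ℝ} (hx : dsc b c < 0 ∨ S.lam ≤ x / y) :
    |Fam S k y (i + 1) x| ≤ |k| * (S.κ * (i.factorial : ℝ) * (3 + 2 * |(b : ℝ)| + |(c : ℝ)|) ^ i *
      (2 / c0) ^ (i + 1)) / y ^ (i + 1) := by
  have hκ := S.κ_pos
  set A : ℝ := 3 + 2 * |(b : ℝ)| + |(c : ℝ)| with hA
  have hb := abs_nonneg (b : ℝ)
  have hc := abs_nonneg (c : ℝ)
  have hA0 : 3 ≤ A := by rw [hA]; linarith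
  set s : ℝ := |x| + y with hs
  have hx0 := abs_nonneg x
  have hs0 : 0 < s := by positivity
  have hN : c0 / 2 * s ^ 2 ≤ nr b c x y := by
    refine le_trans ?_ (nr_lower S.lam hc0 hy hx)
    have : s ^ 2 ≤ 2 * (x ^ 2 + y ^ 2) := by
      rw [hs, ← sq_abs x]
      nlinarith [sq_nonneg (|x| - y)]
    nlinarith
  have hN0 : 0 < nr b c x y := lt_of_lt_of_le (by positivity) hN
  simp only [Fam]
  rw [abs_mul, abs_mul, abs_pow, abs_neg, abs_one, one_pow, one_mul, abs_div, abs_mul, abs_mul,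
    abs_mul, abs_of_pos hκ, abs_of_pos hy, Nat.abs_cast, abs_pow, abs_of_pos hN0]
  have h1 := (Up_upper b c hy x i).1
  have h2 : |(Up (b * y) (c * y ^ 2) (i + 1)).eval x| / nr b c x y ^ (i + 1) ≤
      (A * s) ^ i / (c0 / 2 * s ^ 2) ^ (i + 1) := by
    apply div_le_div₀ (by positivity) h1 (by positivity)
    exact pow_le_pow_left₀ (by positivity) hN _
  have h3 : (A * s) ^ i / (c0 / 2 * s ^ 2) ^ (i + 1) = A ^ i * (2 / c0) ^ (i + 1) / s ^ (i + 2) := by
    rw [div_eq_div_iff (by positivity) (by positivity)]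
    have e1 : (2 / c0) ^ (i + 1) * (c0 / 2) ^ (i + 1) = 1 := by
      rw [← mul_pow, div_mul_div_comm, mul_comm c0 2, div_self (by positivity), one_pow]
    rw [mul_pow A s i, mul_pow (c0 / 2) (s ^ 2) (i + 1)]
    calc A ^ i * s ^ i * s ^ (i + 2) = A ^ i * (s ^ 2) ^ (i + 1) * 1 := by ring
      _ = A ^ i * (s ^ 2) ^ (i + 1) * ((2 / c0) ^ (i + 1) * (c0 / 2) ^ (i + 1)) := by rw [e1]
      _ = _ := by ring
  calc |k| * S.κ * (i.factorial : ℝ) * y *
        (|(Up (b * y) (c * y ^ 2) (i + 1)).eval x| / nr b c x y ^ (i + 1))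
      ≤ |k| * S.κ * (i.factorial : ℝ) * y * ((A * s) ^ i / (c0 / 2 * s ^ 2) ^ (i + 1)) := by gcongr
    _ = |k| * (S.κ * (i.factorial : ℝ) * A ^ i * (2 / c0) ^ (i + 1)) * (y / s ^ (i + 2)) := by
        rw [h3]; ring
    _ ≤ |k| * (S.κ * (i.factorial : ℝ) * A ^ i * (2 / c0) ^ (i + 1)) * (1 / y ^ (i + 1)) := by
        refine mul_le_mul_of_nonneg_left ?_ (by positivity)
        rw [div_le_div_iff₀ (by positivity) (by positivity), one_mul]
        have : y * y ^ (i + 1) = y ^ (i + 2) := by ring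
        rw [this]
        apply pow_le_pow_left₀ hy.le
        rw [hs]; linarith
    _ = _ := by ring

theorem Fam_lower (S : Sys b c) (k : ℝ) {y : ℝ} (hy : 0 < y) (i : ℕ) {x ρ R : ℝ}
    (hN : 0 < nr b c x y) (hR : nr b c x y ≤ R)
    (hU : ((i : ℝ) + 1) * ρ ^ i ≤ |(Up (b * y) (c * y ^ 2) (i + 1)).eval x|) :
    |k| * S.κ * (i.factorial : ℝ) * y * (((i : ℝ) + 1) * ρ ^ i) / R ^ (i + 1) ≤
      |Fam S k y (i + 1) x| := by
  have hκ := S.κ_pos
  simp only [Fam]
  rw [abs_mul, abs_mul, abs_pow, abs_neg, abs_one, one_pow, one_mul, abs_div, abs_mul, abs_mul,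
    abs_mul, abs_of_pos hκ, abs_of_pos hy, Nat.abs_cast, abs_pow, abs_of_pos hN, mul_div_assoc]
  refine mul_le_mul_of_nonneg_left ?_ (by positivity)
  have hR0 : 0 < R := lt_of_lt_of_le hN hR
  apply div_le_div₀ (abs_nonneg _) hU (by positivity)
  exact pow_le_pow_left₀ hN.le hR _

end

end Pool.Agent.Lib_helper44.EXP

/-!
# EXP, file 6: the sums over `x` for fixed `y`
-/

namespace Pool.Agent.Lib_helper44.EXP

section

open Polynomial Pool.Agent.MQ

variable {b c : ℤ}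

/-- the constant in the upper bound of the derivatives -/
noncomputable def Cs (Y : Sys b c) (c0 : ℝ) (i : ℕ) : ℝ :=
  Y.κ * (i.factorial : ℝ) * (3 + 2 * |(b : ℝ)| + |(c : ℝ)|) ^ i * (2 / c0) ^ (i + 1)

theorem Cs_nonneg (Y : Sys b c) {c0 : ℝ} (h0 : 0 < c0) (i : ℕ) : 0 ≤ Cs Y c0 i := by
  have := Y.κ_pos
  unfold Cs
  positivity

/-- the common constant -/
noncomputable def Cst (Y : Sys b c) (c0 : ℝ) : ℝ := 1 + Cs Y c0 0 + Cs Y c0 1 + Cs Y c0 6 + Cs Y c0 7

theorem harm_bound (H : ℕ) :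
    ∑ h ∈ Finset.Ico 1 H, (1 / (h : ℝ)) ≤ 1 + Real.log H := by
  refine le_trans ?_ (harmonic_le_one_add_log H)
  rw [Finset.sum_Ico_eq_sum_range, harmonic]
  push_cast
  refine le_trans ?_ (Finset.sum_le_sum_of_subset_of_nonneg
    (Finset.range_subset_range.2 (Nat.sub_le H 1)) fun _ _ _ => by positivity)
  refine Finset.sum_le_sum fun i _ => ?_
  rw [one_div]
  apply le_of_eq
  congr 1
  ring

theorem len_bound (Y : Sys b c) {c0 : ℝ} (h0 : 0 < c0)
    (hc0 : ∀ t : ℝ, (dsc b c < 0 ∨ Y.lam ≤ t) → c0 * (1 + t ^ 2) ≤ t ^ 2 + b * t + c)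
    {q y : ℝ} (hq : 1 ≤ q) (hy : 0 < y) {a b' : ℤ} (hab : ∀ x : ℝ, (a : ℝ) ≤ x → x ≤ b' - 1 →
      (dsc b c < 0 ∨ Y.lam < x / y) ∧ nr b c x y ≤ q ^ 1000) :
    ((b' - a : ℤ) : ℝ) ≤ (2 * (1 + 1 / c0) + 1) * q ^ 500 := by
  have hx : ∀ x : ℝ, (a : ℝ) ≤ x → x ≤ b' - 1 → |x| ≤ (1 + 1 / c0) * q ^ 500 := by
    intro x h1 h2
    obtain ⟨h3, h4⟩ := hab x h1 h2
    have h5 := (nr_lower Y.lam hc0 hy (h3.imp id le_of_lt)).trans h4
    apply abs_le_of_sq_le_sq _ (by positivity)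
    have h6 : c0 * x ^ 2 ≤ q ^ 1000 := by
      have : 0 ≤ c0 * y ^ 2 := by positivity
      nlinarith
    have h7 : x ^ 2 ≤ 1 / c0 * q ^ 1000 := by
      rw [one_div, inv_mul_eq_div, le_div_iff₀ h0]
      linarith
    refine h7.trans ?_
    have h8 : ((1 + 1 / c0) * q ^ 500) ^ 2 = (1 + 1 / c0) ^ 2 * q ^ 1000 := by ring
    rw [h8]
    apply mul_le_mul_of_nonneg_right _ (by positivity)
    have : 0 < 1 / c0 := by positivity
    nlinarith
  have hq5 : (1 : ℝ) ≤ q ^ 500 := one_le_pow₀ hq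
  have hc1 : 0 < 1 / c0 := by positivity
  rcases le_or_gt b' a with h | h
  · have : ((b' - a : ℤ) : ℝ) ≤ 0 := by
      have : b' - a ≤ 0 := by omega
      exact_mod_cast this
    refine this.trans (by positivity)
  · have h1 : (a : ℝ) ≤ b' - 1 := by
      have : (a : ℝ) + 1 ≤ b' := by exact_mod_cast h
      linarith
    have h2 := hx a le_rfl h1
    have h3 := hx (b' - 1) h1 le_rfl
    rw [abs_le] at h2 h3
    push_cast
    linarith [h2.1, h3.2]

theorem med (Y : Sys b c) {c0 : ℝ} (h0 : 0 < c0)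
    (hc0 : ∀ t : ℝ, (dsc b c < 0 ∨ Y.lam ≤ t) → c0 * (1 + t ^ 2) ≤ t ^ 2 + b * t + c)
    {q k y : ℝ} (hq : 1 ≤ q) (hk : q ^ 21 ≤ |k|) (hk2 : |k| * (2 * Cst Y c0) ≤ q ^ 495)
    (hy : q ^ 495 ≤ y) {a b' : ℤ} (hab : ∀ x : ℝ, (a : ℝ) ≤ x → x ≤ b' - 1 →
      (dsc b c < 0 ∨ Y.lam < x / y) ∧ nr b c x y ≤ q ^ 1000) :
    ‖S (fun n => k * Y.ur (n / y)) a b'‖ ≤ ((2 * (1 + 1 / c0) + 1) + 1 / Y.κ +
      (2 * (1 + 1 / c0) + 1) * Cst Y c0 / Y.κ ^ 2) * q ^ 499 := by
  have hκ := Y.κ_pos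
  have hq0 : 0 < q := by linarith
  have hy0 : 0 < y := lt_of_lt_of_le (by positivity) hy
  have hk0 : 0 < |k| := lt_of_lt_of_le (by positivity) hk
  set K1 : ℝ := 2 * (1 + 1 / c0) + 1 with hK1
  have hK1' : 3 ≤ K1 := by
    rw [hK1]
    have : 0 < 1 / c0 := by positivity
    linarith
  have hc_0 := Cs_nonneg Y h0 0
  have hc_1 := Cs_nonneg Y h0 1
  have hc_6 := Cs_nonneg Y h0 6
  have hc_7 := Cs_nonneg Y h0 7
  set Ct : ℝ := Cst Y c0 with hCt
  have hCt0 : Cs Y c0 0 ≤ Ct := by rw [hCt, Cst]; linarith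
  have hCt1 : Cs Y c0 1 ≤ Ct := by rw [hCt, Cst]; linarith
  have hCtp : 1 ≤ Ct := by rw [hCt, Cst]; linarith
  have hH : q ≤ ((⌊q⌋₊ + 1 : ℕ) : ℝ) := by
    push_cast; exact (Nat.lt_floor_add_one q).le
  have hH2 : ((⌊q⌋₊ + 1 : ℕ) : ℝ) ≤ K1 * q ^ 500 := by
    push_cast
    have e1 : (⌊q⌋₊ : ℝ) ≤ q := Nat.floor_le hq0.le
    have e2 : q ^ 1 ≤ q ^ 500 := pow_le_pow_right₀ hq (by norm_num)
    rw [pow_one] at e2
    have e3 : (1 : ℝ) ≤ q ^ 500 := one_le_pow₀ hq
    have e4 : 3 * q ^ 500 ≤ K1 * q ^ 500 := mul_le_mul_of_nonneg_right hK1' (by linarith)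
    linarith
  have main := abs_test 0 (Fam Y k y) a (b' - 1) a b' le_rfl le_rfl
    (fun i _ x hx => Fam_der Y k hy0 i (hab x hx.1 hx.2).1)
    (|k| * Y.κ * q ^ 495 / q ^ 1000) (|k| * Ct / q ^ 495) (|k| * Ct / (q ^ 495) ^ 2)
    (by positivity) (by positivity)
    (by
      intro x hx
      obtain ⟨h3, h4⟩ := hab x hx.1 hx.2
      have h5 : 0 < nr b c x y := by
        rw [nr_eq b c x y hy0]
        have := Y.pos (x / y) (h3.imp id le_of_lt)
        positivity
      have := Fam_lower Y k hy0 0 (ρ := 1) h5 h4 (by simp [Up])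
      refine le_trans ?_ this
      simp only [Nat.factorial_zero, Nat.cast_one, mul_one, CharP.cast_eq_zero, zero_add, one_pow,
        pow_one]
      gcongr)
    (by
      intro x hx
      obtain ⟨h3, h4⟩ := hab x hx.1 hx.2
      have := Fam_upper Y h0 hc0 k hy0 0 (h3.imp id le_of_lt)
      refine this.trans ?_
      change |k| * Cs Y c0 0 / y ^ (0 + 1) ≤ _
      rw [zero_add, pow_one]
      gcongr)
    (by
      intro x hx
      obtain ⟨h3, h4⟩ := hab x hx.1 hx.2
      have := Fam_upper Y h0 hc0 k hy0 1 (h3.imp id le_of_lt)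
      refine this.trans ?_
      change |k| * Cs Y c0 1 / y ^ 2 ≤ _
      gcongr)
    (⌊q⌋₊ + 1) (by omega)
    (by
      rw [pow_zero, one_mul, div_le_iff₀ (by positivity)]
      linarith)
    (K1 * q ^ 500) ((⌊q⌋₊ + 1 : ℕ) : ℝ) (len_bound Y h0 hc0 hq hy0 hab) hH2 (by positivity)
    (by
      have : ∀ h ∈ Finset.Ico 1 (⌊q⌋₊ + 1), (1 / (h : ℝ)) ≤ 1 := by
        intro h hh
        rw [Finset.mem_Ico] at hh
        have : (1 : ℝ) ≤ h := by exact_mod_cast hh.1
        rw [div_le_one (by linarith)]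
        exact this
      refine (Finset.sum_le_sum this).trans ?_
      simp)
  simp only [pow_zero, pow_one, mul_one, Cw, one_mul] at main
  change ‖S (fun n => k * Y.ur (n / y)) a b'‖ ≤ _ at main
  refine main.trans ?_
  have hL0 : 0 < K1 * q ^ 500 := by positivity
  have e1 : K1 * q ^ 500 * (1 / ((⌊q⌋₊ + 1 : ℕ) : ℝ)) ≤ K1 * q ^ 499 := by
    rw [mul_one_div, div_le_iff₀ (by positivity)]
    have : K1 * q ^ 500 = K1 * q ^ 499 * q := by ring
    rw [this]
    gcongr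
  have e2 : K1 * q ^ 500 * ((1 / (|k| * Y.κ * q ^ 495 / q ^ 1000) +
      K1 * q ^ 500 * (|k| * Ct / (q ^ 495) ^ 2) / (|k| * Y.κ * q ^ 495 / q ^ 1000) ^ 2) /
      (K1 * q ^ 500)) = (1 / Y.κ * q ^ 505 + K1 * Ct / Y.κ ^ 2 * q ^ 520) / |k| := by
    field_simp
  have e3 : (1 / Y.κ * q ^ 505 + K1 * Ct / Y.κ ^ 2 * q ^ 520) / |k| ≤
      1 / Y.κ * q ^ 499 + K1 * Ct / Y.κ ^ 2 * q ^ 499 := by
    rw [div_le_iff₀ hk0]
    have e4 : q ^ 505 ≤ q ^ 499 * |k| := by
      calc q ^ 505 ≤ q ^ 520 := pow_le_pow_right₀ hq (by norm_num)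
        _ = q ^ 499 * q ^ 21 := by ring
        _ ≤ q ^ 499 * |k| := by gcongr
    have e5 : q ^ 520 ≤ q ^ 499 * |k| := by
      calc q ^ 520 = q ^ 499 * q ^ 21 := by ring
        _ ≤ q ^ 499 * |k| := by gcongr
    have e6 : 0 ≤ 1 / Y.κ := by positivity
    have e7 : 0 ≤ K1 * Ct / Y.κ ^ 2 := by positivity
    calc 1 / Y.κ * q ^ 505 + K1 * Ct / Y.κ ^ 2 * q ^ 520
        ≤ 1 / Y.κ * (q ^ 499 * |k|) + K1 * Ct / Y.κ ^ 2 * (q ^ 499 * |k|) := by gcongr
      _ = _ := by ring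
  rw [mul_add]
  push_cast at e1 e2 ⊢
  rw [e2]
  linarith

theorem large (Y : Sys b c) {c0 : ℝ} (h0 : 0 < c0)
    (hc0 : ∀ t : ℝ, (dsc b c < 0 ∨ Y.lam ≤ t) → c0 * (1 + t ^ 2) ≤ t ^ 2 + b * t + c) :
    ∃ C : ℝ, 0 ≤ C ∧ ∀ q k y : ℝ, 1 ≤ q → 2 * Cst Y c0 ≤ q → q ^ 495 ≤ 2 * Cst Y c0 * |k| →
    |k| ≤ q ^ 3000 → q ^ 495 ≤ y → ∀ a b' : ℤ, (∀ x : ℝ, (a : ℝ) ≤ x → x ≤ b' - 1 →
      (dsc b c < 0 ∨ Y.lam < x / y) ∧ nr b c x y ≤ q ^ 1000) →
    ‖S (fun n => k * Y.ur (n / y)) a b'‖ ≤ C * q ^ 499 := by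
  have hκ := Y.κ_pos
  set K1 : ℝ := 2 * (1 + 1 / c0) + 1 with hK1
  have hK1' : 3 ≤ K1 := by
    rw [hK1]
    have : 0 < 1 / c0 := by positivity
    linarith
  have hc_0 := Cs_nonneg Y h0 0
  have hc_1 := Cs_nonneg Y h0 1
  have hc_6 := Cs_nonneg Y h0 6
  have hc_7 := Cs_nonneg Y h0 7
  set Ct : ℝ := Cst Y c0 with hCt
  have hCt6 : Cs Y c0 6 ≤ Ct := by rw [hCt, Cst]; linarith
  have hCt7 : Cs Y c0 7 ≤ Ct := by rw [hCt, Cst]; linarith
  have hCtp : 1 ≤ Ct := by rw [hCt, Cst]; linarith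
  set C3 : ℝ := (1 / Y.κ + Ct / Y.κ ^ 2) * (501 ^ 6 * 128 * Ct) with hC3
  have hC3' : 0 ≤ C3 := by positivity
  have hCw := Cw_pos 6
  set C4 : ℝ := Cw 6 * K1 ^ 64 * (2 + C3) + 1 with hC4
  have hC4' : 1 ≤ C4 := by
    rw [hC4]
    have : 0 ≤ Cw 6 * K1 ^ 64 * (2 + C3) := by positivity
    linarith
  refine ⟨64 * (C4 + 3), by positivity, ?_⟩
  intro q k y hq hq2 hk hk2 hy a b' hab
  have hq0 : 0 < q := by linarith
  have hy0 : 0 < y := lt_of_lt_of_le (by positivity) hy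
  have hk0 : 0 < |k| := by
    by_contra h
    have h1 : |k| = 0 := le_antisymm (not_lt.1 h) (abs_nonneg k)
    rw [h1, mul_zero] at hk
    have : 0 < q ^ 495 := by positivity
    linarith
  -- the number `H`
  set w : ℝ := q ^ 3465 / (2 * Ct * |k|) with hw
  have hw0 : 0 < w := by positivity
  set h₀ : ℝ := w ^ (1 / 6 : ℝ) with hh0
  have hh0p : 0 < h₀ := Real.rpow_pos_of_pos hw0 _
  have hh6 : h₀ ^ 6 = w := by
    rw [hh0, ← Real.rpow_natCast, ← Real.rpow_mul hw0.le]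
    norm_num
  have hlow : q ^ 77 ≤ h₀ := by
    refine le_of_pow_le_pow_left₀ (n := 6) (by norm_num) hh0p.le ?_
    rw [hh6, hw, le_div_iff₀ (by positivity)]
    calc (q ^ 77) ^ 6 * (2 * Ct * |k|) ≤ (q ^ 77) ^ 6 * (q * q ^ 3000) := by gcongr
      _ = q ^ 3463 := by ring
      _ ≤ q ^ 3465 := pow_le_pow_right₀ hq (by norm_num)
  have hup : h₀ ≤ q ^ 500 := by
    refine le_of_pow_le_pow_left₀ (n := 6) (by norm_num) (by positivity) ?_
    rw [hh6, hw, div_le_iff₀ (by positivity)]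
    calc q ^ 3465 = q ^ 2970 * q ^ 495 := by ring
      _ ≤ q ^ 3000 * q ^ 495 := by
          apply mul_le_mul_of_nonneg_right _ (by positivity)
          exact pow_le_pow_right₀ hq (by norm_num)
      _ ≤ q ^ 3000 * (2 * Ct * |k|) := by gcongr
      _ = (q ^ 500) ^ 6 * (2 * Ct * |k|) := by ring
  have hq77 : (1 : ℝ) ≤ q ^ 77 := one_le_pow₀ hq
  have hh1 : 1 ≤ h₀ := hq77.trans hlow
  set H : ℕ := ⌊h₀⌋₊ with hH
  have hH1 : 1 ≤ H := by
    rw [hH]; exact Nat.one_le_floor_iff _ |>.2 hh1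
  have hHr : (1 : ℝ) ≤ H := by exact_mod_cast hH1
  have hHle : (H : ℝ) ≤ h₀ := Nat.floor_le hh0p.le
  have hHge : h₀ ≤ 2 * H := by
    have : h₀ < H + 1 := Nat.lt_floor_add_one _
    linarith
  have hL0 : 0 < K1 * q ^ 500 := by positivity
  have hq5 : (1 : ℝ) ≤ q ^ 500 := one_le_pow₀ hq
  -- sum of 1/h
  have hℓ : ∑ h ∈ Finset.Ico 1 H, (1 / (h : ℝ)) ≤ 501 * q := by
    refine (harm_bound H).trans ?_
    have h1 : Real.log H ≤ Real.log (q ^ 500) := Real.log_le_log (by linarith) (hHle.trans hup)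
    rw [Real.log_pow] at h1
    have h2 : Real.log q ≤ q := (Real.log_le_sub_one_of_pos hq0).trans (by linarith)
    push_cast at h1
    linarith
  -- the polynomial
  set P : ℝ[X] := Up (b * y) (c * y ^ 2) 7 with hP
  have hPc : P.natDegree ≤ 6 ∧ P.coeff 6 = 7 := by
    have := (Up_coeff (b * y) (c * y ^ 2) 6).1
    refine ⟨this.1, this.2.trans (by norm_num)⟩
  obtain ⟨Z, hZl, hZ⟩ := root_excl P 6 hPc.1 (by rw [hPc.2]; norm_num)
  have hsplit := split_sum (fun n => ee (k * Y.ur (n / y))) (fun n => (ee_norm _).le) (q ^ 495)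
    (C4 * q ^ 499) (by positivity) (by positivity) Z a b' (by
    intro a₁ b₁ ha₁ hb₁ hx
    have hsub : ∀ x : ℝ, (a₁ : ℝ) ≤ x → x ≤ (b₁ : ℝ) - 1 → (a : ℝ) ≤ x ∧ x ≤ (b' : ℝ) - 1 := by
      intro x h1 h2
      have h3 : (a : ℝ) ≤ a₁ := by exact_mod_cast ha₁
      have h4 : (b₁ : ℝ) ≤ b' := by exact_mod_cast hb₁
      exact ⟨by linarith, by linarith⟩
    have hab' : ∀ x : ℝ, (a₁ : ℝ) ≤ x → x ≤ b₁ - 1 →
        (dsc b c < 0 ∨ Y.lam < x / y) ∧ nr b c x y ≤ q ^ 1000 := fun x h1 h2 =>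
      hab x (hsub x h1 h2).1 (hsub x h1 h2).2
    change ‖S (fun n => k * Y.ur (n / y)) a₁ b₁‖ ≤ _
    have main := abs_test 6 (Fam Y k y) a₁ (b₁ - 1) a₁ b₁ le_rfl le_rfl
      (fun i _ x hx => Fam_der Y k hy0 i (hab' x hx.1 hx.2).1)
      (5040 * Y.κ * |k| * q ^ 3465 / q ^ 7000) (|k| * Ct / q ^ 3465) (|k| * Ct / q ^ 3960)
      (by positivity) (by positivity)
      (by
        intro x hx'
        obtain ⟨h3, h4⟩ := hab' x hx'.1 hx'.2
        have h5 : 0 < nr b c x y := by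
          rw [nr_eq b c x y hy0]
          have := Y.pos (x / y) (h3.imp id le_of_lt)
          positivity
        have h6 := hZ (q ^ 495) (by positivity) x (hx x hx'.1 hx'.2)
        rw [hPc.2, abs_of_pos (by norm_num : (0 : ℝ) < 7)] at h6
        have := Fam_lower Y k hy0 6 (ρ := q ^ 495) h5 h4 (by
          refine le_trans (le_of_eq ?_) h6
          norm_num)
        refine le_trans ?_ this
        have e7 : ((Nat.factorial 6 : ℕ) : ℝ) = 720 := by norm_num [Nat.factorial]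
        rw [e7]
        have e8 : (q ^ 1000) ^ (6 + 1) = q ^ 7000 := by ring
        rw [e8]
        apply div_le_div_of_nonneg_right _ (by positivity)
        have e9 : 5040 * Y.κ * |k| * q ^ 3465 =
            |k| * Y.κ * 720 * q ^ 495 * (((6 : ℕ) : ℝ) + 1) * (q ^ 495) ^ 6 := by
          push_cast; ring
        rw [e9, mul_assoc (|k| * Y.κ * 720 * q ^ 495)]
        gcongr)
      (by
        intro x hx'
        obtain ⟨h3, h4⟩ := hab' x hx'.1 hx'.2
        have := Fam_upper Y h0 hc0 k hy0 6 (h3.imp id le_of_lt)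
        refine this.trans ?_
        change |k| * Cs Y c0 6 / y ^ 7 ≤ _
        have e8 : q ^ 3465 = (q ^ 495) ^ 7 := by ring
        rw [e8]
        gcongr)
      (by
        intro x hx'
        obtain ⟨h3, h4⟩ := hab' x hx'.1 hx'.2
        have := Fam_upper Y h0 hc0 k hy0 7 (h3.imp id le_of_lt)
        refine this.trans ?_
        change |k| * Cs Y c0 7 / y ^ 8 ≤ _
        have e8 : q ^ 3960 = (q ^ 495) ^ 8 := by ring
        rw [e8]
        gcongr)
      H hH1
      (by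
        calc (H : ℝ) ^ 6 * (|k| * Ct / q ^ 3465) ≤ h₀ ^ 6 * (|k| * Ct / q ^ 3465) := by gcongr
          _ = 1 / 2 := by
              rw [hh6, hw]
              field_simp)
      (K1 * q ^ 500) (501 * q) (len_bound Y h0 hc0 hq hy0 hab')
      ((hHle.trans hup).trans (le_mul_of_one_le_left (by positivity) (by linarith)))
      (by positivity) hℓ
    change ‖S (fun n => k * Y.ur (n / y)) a₁ b₁‖ ^ (2 ^ 6) ≤ _ at main
    have h64 : (2 : ℕ) ^ 6 = 64 := by norm_num
    rw [h64] at main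
    -- the two terms
    have e1 : 1 / (H : ℝ) ≤ 2 / q ^ 77 := by
      rw [div_le_div_iff₀ (by positivity) (by positivity)]
      linarith
    have e2 : (501 * q / (H : ℝ)) ^ 6 ≤ 501 ^ 6 * 64 * q ^ 6 * (2 * Ct * |k|) / q ^ 3465 := by
      have e3 : (501 * q / (H : ℝ)) ^ 6 ≤ (501 * q * 2 / h₀) ^ 6 := by
        apply pow_le_pow_left₀ (by positivity)
        rw [div_le_div_iff₀ (by positivity) hh0p, mul_assoc (501 * q)]
        exact mul_le_mul_of_nonneg_left hHge (by positivity)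
      refine e3.trans (le_of_eq ?_)
      rw [div_pow, hh6, hw]
      field_simp
      ring
    have e4 : (1 / (5040 * Y.κ * |k| * q ^ 3465 / q ^ 7000) + K1 * q ^ 500 *
        (|k| * Ct / q ^ 3960) / (5040 * Y.κ * |k| * q ^ 3465 / q ^ 7000) ^ 2) /
        (K1 * q ^ 500) ≤ (1 / Y.κ + Ct / Y.κ ^ 2) * q ^ 3110 / |k| := by
      have e5 : (1 / (5040 * Y.κ * |k| * q ^ 3465 / q ^ 7000) + K1 * q ^ 500 *
        (|k| * Ct / q ^ 3960) / (5040 * Y.κ * |k| * q ^ 3465 / q ^ 7000) ^ 2) /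
        (K1 * q ^ 500) = (1 / (5040 * K1) * (1 / Y.κ * q ^ 3035) +
          1 / 5040 ^ 2 * (Ct / Y.κ ^ 2 * q ^ 3110)) / |k| := by
        field_simp
      rw [e5]
      apply div_le_div_of_nonneg_right _ hk0.le
      have e6 : 1 / (5040 * K1) * (1 / Y.κ * q ^ 3035) ≤ 1 * (1 / Y.κ * q ^ 3110) := by
        apply mul_le_mul _ _ (by positivity) (by norm_num)
        · rw [div_le_one (by positivity)]
          linarith
        · apply mul_le_mul_of_nonneg_left _ (by positivity)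
          exact pow_le_pow_right₀ hq (by norm_num)
      have e7 : 1 / 5040 ^ 2 * (Ct / Y.κ ^ 2 * q ^ 3110) ≤ 1 * (Ct / Y.κ ^ 2 * q ^ 3110) := by
        apply mul_le_mul_of_nonneg_right _ (by positivity)
        norm_num
      calc _ ≤ 1 * (1 / Y.κ * q ^ 3110) + 1 * (Ct / Y.κ ^ 2 * q ^ 3110) := add_le_add e6 e7
        _ = _ := by ring
    have e8 : (1 / Y.κ + Ct / Y.κ ^ 2) * q ^ 3110 / |k| *
        (501 ^ 6 * 64 * q ^ 6 * (2 * Ct * |k|) / q ^ 3465) ≤ C3 / q ^ 77 := by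
      have e9 : (1 / Y.κ + Ct / Y.κ ^ 2) * q ^ 3110 / |k| *
        (501 ^ 6 * 64 * q ^ 6 * (2 * Ct * |k|) / q ^ 3465) = C3 / q ^ 349 := by
        rw [hC3]
        field_simp
        ring
      rw [e9]
      apply div_le_div_of_nonneg_left hC3' (by positivity)
      exact pow_le_pow_right₀ hq (by norm_num)
    have e10 : 1 / (H : ℝ) + (1 / (5040 * Y.κ * |k| * q ^ 3465 / q ^ 7000) + K1 * q ^ 500 *
        (|k| * Ct / q ^ 3960) / (5040 * Y.κ * |k| * q ^ 3465 / q ^ 7000) ^ 2) /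
        (K1 * q ^ 500) * (501 * q / (H : ℝ)) ^ 6 ≤ (2 + C3) / q ^ 77 := by
      have e11 : (1 / (5040 * Y.κ * |k| * q ^ 3465 / q ^ 7000) + K1 * q ^ 500 *
        (|k| * Ct / q ^ 3960) / (5040 * Y.κ * |k| * q ^ 3465 / q ^ 7000) ^ 2) /
        (K1 * q ^ 500) * (501 * q / (H : ℝ)) ^ 6 ≤ C3 / q ^ 77 := by
        refine le_trans ?_ e8
        exact mul_le_mul e4 e2 (by positivity) (by positivity)
      rw [add_div 2 C3]
      exact add_le_add e1 e11
    have e12 : ‖S (fun n => k * Y.ur (n / y)) a₁ b₁‖ ^ 64 ≤ (C4 * q ^ 499) ^ 64 := by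
      refine main.trans ?_
      calc _ ≤ Cw 6 * (K1 * q ^ 500) ^ 64 * ((2 + C3) / q ^ 77) := by
            apply mul_le_mul_of_nonneg_left e10 (by positivity)
        _ = Cw 6 * K1 ^ 64 * (2 + C3) * q ^ 31923 := by
            field_simp
        _ ≤ C4 * q ^ 31936 := by
            apply mul_le_mul _ _ (by positivity) (by positivity)
            · rw [hC4]; linarith
            · exact pow_le_pow_right₀ hq (by norm_num)
        _ ≤ C4 ^ 64 * q ^ 31936 := by
            apply mul_le_mul_of_nonneg_right _ (by positivity)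
            calc C4 = C4 ^ 1 := (pow_one _).symm
              _ ≤ C4 ^ 64 := pow_le_pow_right₀ hC4' (by norm_num)
        _ = (C4 * q ^ 499) ^ 64 := by
            rw [mul_pow, ← pow_mul]
    exact le_of_pow_le_pow_left₀ (n := 64) (by norm_num) (by positivity) e12)
  rw [hZl] at hsplit
  change ‖S (fun n => k * Y.ur (n / y)) a b'‖ ≤ _ at hsplit
  refine hsplit.trans ?_
  have e1 : q ^ 495 ≤ q ^ 499 := pow_le_pow_right₀ hq (by norm_num)
  have e2 : (1 : ℝ) ≤ q ^ 499 := one_le_pow₀ hq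
  have e3 : (0 : ℝ) ≤ q ^ 495 := by positivity
  have e4 : (2 : ℝ) ^ 6 * (C4 * q ^ 499 + 2 * q ^ 495 + 1) - (2 * q ^ 495 + 1) =
      64 * (C4 * q ^ 499) + 126 * q ^ 495 + 63 := by ring
  have e5 : 64 * (C4 + 3) * q ^ 499 = 64 * (C4 * q ^ 499) + 192 * q ^ 499 := by ring
  rw [e4, e5]
  linarith

end

end Pool.Agent.Lib_helper44.EXP

/-!
# EXP, file 7: a sum over an interval and the integral
-/

namespace Pool.Agent.Lib_helper44.EXP

section

open MeasureTheory

theorem int_piece (G : ℝ → ℂ) (u : ℝ → ℝ) (A : ℝ) {s t y : ℝ} (hA : 0 ≤ A) (hy : 0 < y)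
    (hst : t = s + 1 / y)
    (hG : ∀ x ∈ Set.Icc s t, ‖G s - G x‖ ≤ A * |u s - u x|) (hu : AntitoneOn u (Set.Icc s t))
    (hint : IntervalIntegrable G volume s t) :
    ‖G s - y * ∫ x in s..t, G x‖ ≤ A * (u s - u t) := by
  have hst' : s ≤ t := by rw [hst]; have : 0 < 1 / y := by positivity
                          linarith
  have h1 : G s - y * ∫ x in s..t, G x = y * ∫ x in s..t, (G s - G x) := by
    rw [intervalIntegral.integral_sub (by simp) hint, intervalIntegral.integral_const]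
    have : t - s = 1 / y := by rw [hst]; ring
    rw [this, Complex.real_smul, mul_sub]
    have hyc : (y : ℂ) ≠ 0 := by exact_mod_cast hy.ne'
    congr 1
    push_cast
    field_simp
  rw [h1, norm_mul, Complex.norm_real, Real.norm_eq_abs, abs_of_pos hy]
  have h2 : ‖∫ x in s..t, (G s - G x)‖ ≤ (A * (u s - u t)) * |t - s| := by
    apply intervalIntegral.norm_integral_le_of_norm_le_const
    intro x hx
    rw [Set.uIoc_of_le hst'] at hx
    have hx' : x ∈ Set.Icc s t := ⟨hx.1.le, hx.2⟩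
    refine (hG x hx').trans ?_
    apply mul_le_mul_of_nonneg_left _ hA
    have e1 : u x ≤ u s := hu ⟨le_rfl, hst'⟩ hx' hx.1.le
    have e2 : u t ≤ u x := hu hx' ⟨hst', le_rfl⟩ hx.2
    rw [abs_of_nonneg (by linarith)]
    linarith
  have h3 : |t - s| = 1 / y := by
    rw [hst, show s + 1 / y - s = 1 / y by ring, abs_of_pos (by positivity)]
  rw [h3] at h2
  calc y * ‖∫ x in s..t, (G s - G x)‖ ≤ y * ((A * (u s - u t)) * (1 / y)) := by gcongr
    _ = A * (u s - u t) := by field_simp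

/-- the sum over the points `n / y` of an interval and the integral -/
theorem int_sum (T : Set ℝ) (hT : T.OrdConnected) (hTm : MeasurableSet T) (G : ℝ → ℂ) (u : ℝ → ℝ)
    (A : ℝ) (hA : 0 ≤ A) {y : ℝ} (hy : 0 < y) (hG1 : ∀ x ∈ T, ‖G x‖ ≤ 1)
    (hG : ∀ s ∈ T, ∀ x ∈ T, ‖G s - G x‖ ≤ A * |u s - u x|) (hu : AntitoneOn u T)
    (hu0 : ∀ x ∈ T, 0 ≤ u x ∧ u x ≤ 1) (hint : IntegrableOn G T)
    (F : Finset ℤ) (hF : ∀ n : ℤ, n ∈ F ↔ (n : ℝ) / y ∈ T) (hTb : Bornology.IsBounded T) :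
    ‖∑ n ∈ F, G (n / y) - y * ∫ t in T, G t‖ ≤ A + 3 := by
  rcases Finset.eq_empty_or_nonempty F with hFe | hFne
  · -- no points
    rw [hFe, Finset.sum_empty, zero_sub, norm_neg, norm_mul, Complex.norm_real, Real.norm_eq_abs,
      abs_of_pos hy]
    rcases Set.eq_empty_or_nonempty T with hTe | ⟨t0, ht0⟩
    · rw [hTe]
      simp only [Measure.restrict_empty, integral_zero_measure, norm_zero, mul_zero]
      linarith
    · have hsub : T ⊆ Set.Ioo ((⌊t0 * y⌋ : ℝ) / y) (((⌊t0 * y⌋ + 1 : ℤ) : ℝ) / y) := by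
        have hf1 : (⌊t0 * y⌋ : ℝ) / y ≤ t0 := by
          rw [div_le_iff₀ hy]; exact Int.floor_le _
        have hf2 : t0 ≤ ((⌊t0 * y⌋ + 1 : ℤ) : ℝ) / y := by
          rw [le_div_iff₀ hy]; push_cast; exact (Int.lt_floor_add_one _).le
        intro t ht
        constructor
        · by_contra h
          push Not at h
          have : (⌊t0 * y⌋ : ℝ) / y ∈ T := hT.out ht ht0 ⟨h, hf1⟩
          have := (hF _).2 this
          rw [hFe] at this
          simp at this
        · by_contra h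
          push Not at h
          have : ((⌊t0 * y⌋ + 1 : ℤ) : ℝ) / y ∈ T := hT.out ht0 ht ⟨hf2, h⟩
          have := (hF _).2 this
          rw [hFe] at this
          simp at this
      have hvol : volume.real T ≤ 1 / y := by
        have h1 := measureReal_mono (μ := volume) hsub (by
          rw [Real.volume_Ioo]; exact ENNReal.ofReal_ne_top)
        refine h1.trans (le_of_eq ?_)
        rw [Real.volume_real_Ioo_of_le (by
          apply div_le_div_of_nonneg_right _ hy.le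
          push_cast; linarith)]
        push_cast
        ring
      have h2 : ‖∫ t in T, G t‖ ≤ 1 * volume.real T := by
        apply norm_setIntegral_le_of_norm_le_const _ hG1
        exact hTb.measure_lt_top
      calc y * ‖∫ t in T, G t‖ ≤ y * (1 * (1 / y)) := by
            gcongr
            exact h2.trans (by gcongr)
        _ = 1 := by field_simp
        _ ≤ A + 3 := by linarith
  · -- the points are `a ≤ n ≤ e`
    set a : ℤ := F.min' hFne with ha
    set e : ℤ := F.max' hFne with he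
    have haF : a ∈ F := F.min'_mem hFne
    have heF : e ∈ F := F.max'_mem hFne
    have hae : a ≤ e := F.min'_le_max' hFne
    have haT := (hF a).1 haF
    have heT := (hF e).1 heF
    have haer : (a : ℝ) / y ≤ (e : ℝ) / y := by
      apply div_le_div_of_nonneg_right _ hy.le
      exact_mod_cast hae
    have hFI : F = Finset.Icc a e := by
      ext n
      rw [Finset.mem_Icc]
      constructor
      · intro hn; exact ⟨F.min'_le n hn, F.le_max' n hn⟩
      · rintro ⟨h1, h2⟩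
        rw [hF]
        refine hT.out haT heT ⟨?_, ?_⟩
        · apply div_le_div_of_nonneg_right _ hy.le
          exact_mod_cast h1
        · apply div_le_div_of_nonneg_right _ hy.le
          exact_mod_cast h2
    set I : Set ℝ := Set.Icc ((a : ℝ) / y) ((e : ℝ) / y) with hI
    have hIT : I ⊆ T := fun x hx => hT.out haT heT hx
    have hsub : T \ I ⊆ Set.Ioo (((a - 1 : ℤ) : ℝ) / y) ((a : ℝ) / y) ∪
        Set.Ioo ((e : ℝ) / y) (((e + 1 : ℤ) : ℝ) / y) := by
      rintro t ⟨ht, htI⟩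
      rcases lt_or_ge t ((a : ℝ) / y) with h | h
      · left
        refine ⟨?_, h⟩
        by_contra h2
        push Not at h2
        have h3 : ((a - 1 : ℤ) : ℝ) / y ∈ T := hT.out ht haT ⟨h2, by
          apply div_le_div_of_nonneg_right _ hy.le
          push_cast; linarith⟩
        have h4 := F.min'_le _ ((hF _).2 h3)
        rw [← ha] at h4
        omega
      · right
        have h1 : (e : ℝ) / y < t := by
          by_contra h2
          exact htI ⟨h, not_lt.1 h2⟩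
        refine ⟨h1, ?_⟩
        by_contra h2
        push Not at h2
        have h3 : ((e + 1 : ℤ) : ℝ) / y ∈ T := hT.out heT ht ⟨by
          apply div_le_div_of_nonneg_right _ hy.le
          push_cast; linarith, h2⟩
        have h4 := F.le_max' _ ((hF _).2 h3)
        rw [← he] at h4
        omega
    have hvol : volume.real (T \ I) ≤ 2 / y := by
      have h1 := measureReal_mono (μ := volume) hsub (by
        apply ne_top_of_le_ne_top _ (measure_union_le _ _)
        rw [Real.volume_Ioo, Real.volume_Ioo]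
        exact ENNReal.add_ne_top.2 ⟨ENNReal.ofReal_ne_top, ENNReal.ofReal_ne_top⟩)
      refine h1.trans ((measureReal_union_le _ _).trans (le_of_eq ?_))
      rw [Real.volume_real_Ioo_of_le (by
          apply div_le_div_of_nonneg_right _ hy.le
          push_cast; linarith), Real.volume_real_Ioo_of_le (by
          apply div_le_div_of_nonneg_right _ hy.le
          push_cast; linarith)]
      push_cast
      ring
    have hint1 : ∫ t in T, G t = (∫ t in I, G t) + ∫ t in T \ I, G t := by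
      conv_lhs => rw [← Set.union_sdiff_cancel hIT]
      rw [setIntegral_union Set.disjoint_sdiff_right (hTm.diff measurableSet_Icc)
        (hint.mono_set hIT) (hint.mono_set Set.sdiff_subset)]
    have h5 : ‖∫ t in T \ I, G t‖ ≤ 2 / y := by
      have : ‖∫ t in T \ I, G t‖ ≤ 1 * volume.real (T \ I) := by
        apply norm_setIntegral_le_of_norm_le_const _ fun x hx => hG1 x hx.1
        exact (hTb.subset Set.sdiff_subset).measure_lt_top
      linarith
    -- the main part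
    obtain ⟨m, hm⟩ : ∃ m : ℕ, e = a + m := ⟨(e - a).toNat, by omega⟩
    set pt : ℕ → ℝ := fun j => ((a + j : ℤ) : ℝ) / y with hpt
    have hptT : ∀ j ≤ m, pt j ∈ T := by
      intro j hj
      rw [hpt]
      simp only
      rw [← hF, hFI, Finset.mem_Icc]
      omega
    have hptmono : ∀ i j, i ≤ j → pt i ≤ pt j := by
      intro i j hij
      apply div_le_div_of_nonneg_right _ hy.le
      have : (i : ℝ) ≤ j := by exact_mod_cast hij
      push_cast
      linarith
    have hpts : ∀ j, pt (j + 1) = pt j + 1 / y := by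
      intro j
      rw [hpt]
      push_cast
      ring
    have hIccT : ∀ j < m, Set.Icc (pt j) (pt (j + 1)) ⊆ T := by
      intro j hj x hx
      exact hT.out (hptT j hj.le) (hptT (j + 1) hj) hx
    have hII : ∀ j < m, IntervalIntegrable G volume (pt j) (pt (j + 1)) := by
      intro j hj
      rw [intervalIntegrable_iff_integrableOn_Ioc_of_le (hptmono _ _ (Nat.le_succ j))]
      exact hint.mono_set (Set.Ioc_subset_Icc_self.trans (hIccT j hj))
    have hadj := intervalIntegral.sum_integral_adjacent_intervals hII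
    have h6 : ∫ t in I, G t = ∑ j ∈ Finset.range m, ∫ t in (pt j)..(pt (j + 1)), G t := by
      rw [hadj, intervalIntegral.integral_of_le (hptmono 0 m (Nat.zero_le m)),
        ← integral_Icc_eq_integral_Ioc]
      congr 2
      rw [hI, hpt]
      simp only [Nat.cast_zero, add_zero]
      rw [hm]
    have h7 : ∑ n ∈ F, G (n / y) = ∑ j ∈ Finset.range m, G (pt j) + G (pt m) := by
      rw [← Finset.sum_range_succ, hFI]
      rw [show Finset.Icc a e = (Finset.range (m + 1)).image (fun j : ℕ => a + (j : ℤ)) by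
        ext x
        simp only [Finset.mem_Icc, Finset.mem_image, Finset.mem_range]
        constructor
        · rintro ⟨h4, h5⟩
          exact ⟨(x - a).toNat, by omega, by omega⟩
        · rintro ⟨j, hj, rfl⟩
          omega]
      rw [Finset.sum_image]
      intro x _ z _ hxz
      simpa using hxz
    have h8 : ‖∑ j ∈ Finset.range m, (G (pt j) - y * ∫ t in (pt j)..(pt (j + 1)), G t)‖ ≤ A := by
      have h9 : ∀ j ∈ Finset.range m, ‖G (pt j) - y * ∫ t in (pt j)..(pt (j + 1)), G t‖ ≤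
          A * (u (pt j) - u (pt (j + 1))) := by
        intro j hj
        rw [Finset.mem_range] at hj
        exact int_piece G u A hA hy (hpts j)
          (fun x hx => hG _ (hptT j hj.le) _ (hIccT j hj hx))
          (hu.mono (hIccT j hj)) (hII j hj)
      refine (norm_sum_le_of_le _ h9).trans ?_
      rw [← Finset.mul_sum]
      have h10 : ∑ j ∈ Finset.range m, (u (pt j) - u (pt (j + 1))) = u (pt 0) - u (pt m) :=
        Finset.sum_range_sub' (fun j => u (pt j)) m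
      rw [h10]
      have h11 := hu0 _ (hptT 0 (Nat.zero_le m))
      have h12 := hu0 _ (hptT m le_rfl)
      nlinarith [h11.2, h12.1]
    have h13 : ∑ n ∈ F, G (n / y) - y * ∫ t in T, G t =
        ∑ j ∈ Finset.range m, (G (pt j) - y * ∫ t in (pt j)..(pt (j + 1)), G t) + G (pt m) -
          y * ∫ t in T \ I, G t := by
      rw [h7, hint1, h6, Finset.sum_sub_distrib, ← Finset.mul_sum]
      ring
    rw [h13]
    have h14 : ‖(y : ℂ) * ∫ t in T \ I, G t‖ ≤ 2 := by
      rw [norm_mul, Complex.norm_real, Real.norm_eq_abs, abs_of_pos hy]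
      calc y * ‖∫ t in T \ I, G t‖ ≤ y * (2 / y) := by gcongr
        _ = 2 := by field_simp
    have h15 := hG1 _ (hptT m le_rfl)
    calc _ ≤ ‖∑ j ∈ Finset.range m, (G (pt j) - y * ∫ t in (pt j)..(pt (j + 1)), G t) +
          G (pt m)‖ + ‖(y : ℂ) * ∫ t in T \ I, G t‖ := norm_sub_le _ _
      _ ≤ (‖∑ j ∈ Finset.range m, (G (pt j) - y * ∫ t in (pt j)..(pt (j + 1)), G t)‖ +
          ‖G (pt m)‖) + ‖(y : ℂ) * ∫ t in T \ I, G t‖ := by
          gcongr
          exact norm_add_le _ _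
      _ ≤ A + 3 := by linarith

end

end Pool.Agent.Lib_helper44.EXP

/-!
# EXP, file 8: the window; small frequencies
-/

namespace Pool.Agent.Lib_helper44.EXP

section

open Pool.Agent.MQ MeasureTheory Filter Topology

variable {b c : ℤ}

theorem ex_eq (t : ℝ) : ex t = ee t := by
  unfold ex ee
  congr 1
  ring

/-- the real window -/
def W (Y : Sys b c) : Set ℝ := {t | dsc b c < 0 ∨ Y.lam < t}

/-- the polynomial -/
def ff (b c : ℤ) (t : ℝ) : ℝ := t ^ 2 + b * t + c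

theorem W_cases (Y : Sys b c) : (dsc b c < 0 ∧ W Y = Set.univ) ∨
    (0 ≤ dsc b c ∧ W Y = Set.Ioi Y.lam) := by
  by_cases h : dsc b c < 0
  · left; refine ⟨h, ?_⟩; ext t; simp [W, h]
  · right; refine ⟨not_lt.1 h, ?_⟩; ext t; simp [W, h]

theorem W_convex (Y : Sys b c) : Convex ℝ (W Y) := by
  rcases W_cases Y with ⟨_, h⟩ | ⟨_, h⟩
  · rw [h]; exact convex_univ
  · rw [h]; exact convex_Ioi _

theorem W_open (Y : Sys b c) : IsOpen (W Y) := by
  rcases W_cases Y with ⟨_, h⟩ | ⟨_, h⟩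
  · rw [h]; exact isOpen_univ
  · rw [h]; exact isOpen_Ioi

theorem W_meas (Y : Sys b c) : MeasurableSet (W Y) := (W_open Y).measurableSet

theorem ff_pos (Y : Sys b c) {t : ℝ} (ht : t ∈ W Y) : 0 < ff b c t :=
  Y.pos t (ht.imp id le_of_lt)

theorem ur_der (Y : Sys b c) {t : ℝ} (ht : t ∈ W Y) :
    HasDerivAt Y.ur (-Y.κ / ff b c t) t := Y.der t ht

theorem ur_cont (Y : Sys b c) : ContinuousOn Y.ur (W Y) := fun _ ht =>
  (ur_der Y ht).continuousAt.continuousWithinAt

theorem ur_anti (Y : Sys b c) : AntitoneOn Y.ur (W Y) := by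
  apply antitoneOn_of_deriv_nonpos (W_convex Y) (ur_cont Y)
  · intro t ht
    rw [(W_open Y).interior_eq] at ht
    exact (ur_der Y ht).differentiableAt.differentiableWithinAt
  · intro t ht
    rw [(W_open Y).interior_eq] at ht
    rw [(ur_der Y ht).deriv]
    have h1 := ff_pos Y ht
    have h2 := Y.κ_pos
    apply div_nonpos_of_nonpos_of_nonneg <;> linarith

theorem ur_range (Y : Sys b c) {t : ℝ} (ht : t ∈ W Y) : 0 ≤ Y.ur t ∧ Y.ur t ≤ 1 := by
  constructor
  · apply le_of_tendsto Y.top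
    filter_upwards [eventually_ge_atTop t] with s hs
    refine ur_anti Y ht ?_ hs
    rcases ht with h | h
    · left; exact h
    · right; exact lt_of_lt_of_le h hs
  · rcases W_cases Y with ⟨h, hW⟩ | ⟨h, hW⟩
    · apply ge_of_tendsto (Y.botN h)
      filter_upwards [eventually_le_atBot t] with s hs
      exact ur_anti Y (by rw [hW]; trivial) ht hs
    · obtain ⟨h1, h2⟩ := Y.botP h
      have h3 : Tendsto Y.ur (𝓝[>] Y.lam) (𝓝 1) := by
        have := h1.tendsto
        rw [h2] at this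
        exact this.mono_left (nhdsWithin_mono _ Set.Ioi_subset_Ici_self)
      apply ge_of_tendsto h3
      rw [hW] at ht
      have : Set.Ioo Y.lam t ∈ 𝓝[>] Y.lam := Ioo_mem_nhdsGT ht
      filter_upwards [this] with s hs
      exact ur_anti Y (by rw [hW]; exact hs.1) (by rw [hW]; exact ht) hs.2.le

/-- the character -/
noncomputable def Gk (Y : Sys b c) (k : ℤ) (t : ℝ) : ℂ := ee (k * Y.ur t)

theorem ee_hasDerivAt (x : ℝ) : HasDerivAt ee (2 * Real.pi * Complex.I * ee x) x := by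
  have h1 : HasDerivAt (fun x : ℝ => (2 * Real.pi * Complex.I : ℂ) * (x : ℂ))
      (2 * Real.pi * Complex.I * 1) x := (Complex.ofRealCLM.hasDerivAt (x := x)).const_mul _
  have h2 := h1.cexp
  have h3 : (fun x : ℝ => Complex.exp ((2 * Real.pi * Complex.I : ℂ) * (x : ℂ))) = ee := by
    funext x; unfold ee; congr 1; ring
  rw [h3] at h2
  refine h2.congr_deriv ?_
  have h4 : Complex.exp ((2 * Real.pi * Complex.I : ℂ) * (x : ℂ)) = ee x := by
    unfold ee; congr 1; ring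
  rw [h4]
  ring

theorem ee_cont : Continuous ee := by
  unfold ee
  fun_prop

theorem Gk_cont (Y : Sys b c) (k : ℤ) : ContinuousOn (Gk Y k) (W Y) :=
  ee_cont.comp_continuousOn (continuousOn_const.mul (ur_cont Y))

theorem Gk_norm (Y : Sys b c) (k : ℤ) (t : ℝ) : ‖Gk Y k t‖ = 1 := ee_norm _

theorem ff_cont (b c : ℤ) : Continuous (ff b c) := by
  unfold ff
  fun_prop

theorem int_dom (Y : Sys b c) {c0 : ℝ} (h0 : 0 < c0)
    (hc0 : ∀ t : ℝ, (dsc b c < 0 ∨ Y.lam ≤ t) → c0 * (1 + t ^ 2) ≤ t ^ 2 + b * t + c) (k : ℤ) :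
    IntegrableOn (fun t => Gk Y k t / (ff b c t : ℂ)) (W Y) := by
  have h1 : Integrable (fun t : ℝ => (1 / c0) * (1 + t ^ 2)⁻¹) :=
    integrable_inv_one_add_sq.const_mul _
  refine Integrable.mono' h1.integrableOn ?_ ?_
  · apply ContinuousOn.aestronglyMeasurable _ (W_meas Y)
    apply (Gk_cont Y k).div
    · exact (Complex.continuous_ofReal.comp (ff_cont b c)).continuousOn
    · intro t ht
      exact_mod_cast (ff_pos Y ht).ne'
  · rw [ae_restrict_iff' (W_meas Y)]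
    refine Eventually.of_forall fun t ht => ?_
    have h2 := ff_pos Y ht
    have h3 : c0 * (1 + t ^ 2) ≤ ff b c t := hc0 t (ht.imp id le_of_lt)
    rw [norm_div, Gk_norm, Complex.norm_real, Real.norm_eq_abs, abs_of_pos h2]
    calc 1 / ff b c t ≤ 1 / (c0 * (1 + t ^ 2)) := one_div_le_one_div_of_le (by positivity) h3
      _ = 1 / c0 * (1 + t ^ 2)⁻¹ := by field_simp

theorem area_zero (Y : Sys b c) {k : ℤ} (hk : k ≠ 0) :
    ∫ t in W Y, Gk Y k t / (ff b c t : ℂ) = 0 := by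
  obtain ⟨c0, h0, hc0⟩ := exists_c0 Y
  have hint := int_dom Y h0 hc0 k
  have hκ := Y.κ_pos
  set K : ℂ := 2 * Real.pi * Complex.I * (k * (-Y.κ)) with hK
  have hK0 : K ≠ 0 := by
    rw [hK]
    simp only [ne_eq, mul_eq_zero, neg_eq_zero, Complex.ofReal_eq_zero, Complex.I_ne_zero,
      Int.cast_eq_zero, OfNat.ofNat_ne_zero, false_or, Real.pi_ne_zero, hκ.ne', or_false]
    exact hk
  have hd : ∀ t ∈ W Y, HasDerivAt (Gk Y k) (K * (Gk Y k t / (ff b c t : ℂ))) t := by
    intro t ht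
    have h1 := (ur_der Y ht).const_mul (k : ℝ)
    have h2 := (ee_hasDerivAt (k * Y.ur t)).scomp t h1
    refine h2.congr_deriv ?_
    have h3 : (ff b c t : ℂ) ≠ 0 := by exact_mod_cast (ff_pos Y ht).ne'
    rw [Complex.real_smul, hK]
    unfold Gk
    push_cast
    field_simp
  have hint2 : IntegrableOn (fun t => K * (Gk Y k t / (ff b c t : ℂ))) (W Y) := hint.const_mul K
  have h1k : ee ((k : ℝ) * 1) = 1 := by rw [mul_one]; exact ee_int k
  have h0k : ee ((k : ℝ) * 0) = 1 := by rw [mul_zero]; exact ee_zero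
  have htop : Tendsto (Gk Y k) atTop (𝓝 1) := by
    have := (ee_cont.tendsto ((k : ℝ) * 0)).comp (Y.top.const_mul (k : ℝ))
    rw [h0k] at this
    exact this
  have hz : ∫ t in W Y, K * (Gk Y k t / (ff b c t : ℂ)) = 0 := by
    rcases W_cases Y with ⟨h, hW⟩ | ⟨h, hW⟩
    · have hbot : Tendsto (Gk Y k) atBot (𝓝 1) := by
        have := (ee_cont.tendsto ((k : ℝ) * 1)).comp ((Y.botN h).const_mul (k : ℝ))
        rw [h1k] at this
        exact this
      rw [hW] at hd hint2 ⊢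
      rw [setIntegral_univ]
      have := integral_of_hasDerivAt_of_tendsto (fun t => hd t trivial)
        (integrableOn_univ.1 hint2) hbot htop
      rw [this, sub_self]
    · obtain ⟨h1, h2⟩ := Y.botP h
      rw [hW] at hd hint2 ⊢
      have := integral_Ioi_of_hasDerivAt_of_tendsto (a := Y.lam) (f := Gk Y k) (by
        have : ContinuousWithinAt (fun t => (k : ℝ) * Y.ur t) (Set.Ici Y.lam) Y.lam :=
          continuousWithinAt_const.mul h1
        exact ee_cont.continuousAt.comp_continuousWithinAt this) hd hint2 htop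
      rw [this]
      unfold Gk
      rw [h2, h1k, sub_self]
  rw [integral_const_mul] at hz
  exact (mul_eq_zero.1 hz).resolve_left hK0

/-- the sum of the `y ≤ v` -/
theorem tau_est {w : ℝ} (hw : 0 < w) {m : ℕ} (hm : Real.sqrt w ≤ m) :
    |∑ y ∈ (Finset.Icc 1 m).filter (fun y : ℕ => (y : ℝ) ^ 2 ≤ w), (y : ℝ) - w / 2| ≤
      w ^ (3 / 4 : ℝ) := by
  set v := Real.sqrt w with hv
  have hv0 : 0 < v := Real.sqrt_pos.2 hw
  have hvw : v ^ 2 = w := Real.sq_sqrt hw.le
  have hfil : (Finset.Icc 1 m).filter (fun y : ℕ => (y : ℝ) ^ 2 ≤ w) = Finset.Icc 1 ⌊v⌋₊ := by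
    ext y
    simp only [Finset.mem_filter, Finset.mem_Icc]
    rw [Nat.le_floor_iff hv0.le, ← hvw, sq_le_sq₀ (by positivity) hv0.le]
    constructor
    · rintro ⟨⟨h1, _⟩, h3⟩; exact ⟨h1, h3⟩
    · rintro ⟨h1, h3⟩
      refine ⟨⟨h1, ?_⟩, h3⟩
      exact_mod_cast h3.trans hm
  rw [hfil]
  set n := ⌊v⌋₊ with hn
  have hsum : ∀ n : ℕ, ∑ y ∈ Finset.Icc 1 n, (y : ℝ) = n * (n + 1) / 2 := by
    intro n
    induction n with
    | zero => simp
    | succ n ih =>
      rw [Finset.sum_Icc_succ_top (by omega), ih]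
      push_cast
      ring
  rw [hsum, ← hvw]
  have h1 : (n : ℝ) ≤ v := Nat.floor_le hv0.le
  have h2 : v < n + 1 := Nat.lt_floor_add_one v
  have hn0 : (0 : ℝ) ≤ n := Nat.cast_nonneg _
  rcases le_or_gt 1 v with h | h
  · have h3 : v ≤ (v ^ 2) ^ (3 / 4 : ℝ) := by
      rw [← Real.rpow_natCast, ← Real.rpow_mul hv0.le]
      calc v = v ^ (1 : ℝ) := (Real.rpow_one v).symm
        _ ≤ v ^ (((2 : ℕ) : ℝ) * (3 / 4)) := Real.rpow_le_rpow_of_exponent_le h (by norm_num)
    refine le_trans ?_ h3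
    rw [abs_le]
    constructor
    · nlinarith
    · nlinarith
  · have h3 : v ^ 2 ≤ (v ^ 2) ^ (3 / 4 : ℝ) := by
      calc v ^ 2 = (v ^ 2) ^ (1 : ℝ) := (Real.rpow_one _).symm
        _ ≤ (v ^ 2) ^ (3 / 4 : ℝ) := Real.rpow_le_rpow_of_exponent_ge (by positivity)
            (by nlinarith) (by norm_num)
    have h4 : n = 0 := by
      rw [hn]
      exact Nat.floor_eq_zero.2 h
    rw [h4]
    push_cast
    rw [abs_le]
    constructor
    · nlinarith [sq_nonneg v]
    · nlinarith [sq_nonneg v]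

theorem fin_MF (Y : Sys b c) (X : ℝ) : {v : El | Y.wd v ∧ (nm b c v : ℝ) ≤ X}.Finite := by
  obtain ⟨c0, h0, hc0⟩ := exists_c0 Y
  set R : ℝ := X + X / c0 + 1 with hR
  have hbox : {v : El | Y.wd v ∧ (nm b c v : ℝ) ≤ X} ⊆
      ((Finset.Icc (-⌈|R|⌉) ⌈|R|⌉ ×ˢ Finset.Icc (-⌈|R|⌉) ⌈|R|⌉ : Finset (ℤ × ℤ)) : Set (ℤ × ℤ)) := by
    rintro ⟨x, y⟩ ⟨h1, h2⟩
    have key : (x : ℝ) ^ 2 + (y : ℝ) ^ 2 ≤ |R| := by
      rcases h1 with ⟨h3, h4⟩ | ⟨h3, h4⟩
      · simp only at h3 h4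
        subst h3
        simp only [nm] at h2
        push_cast at h2 ⊢
        have hx : 0 ≤ (x : ℝ) ^ 2 := by positivity
        have hX : 0 ≤ X := by nlinarith
        have : 0 ≤ X / c0 := by positivity
        refine le_trans ?_ (le_abs_self R)
        rw [hR]
        nlinarith
      · simp only at h3 h4
        have hy : (0 : ℝ) < y := by exact_mod_cast h3
        have h5 : dsc b c < 0 ∨ Y.lam ≤ (x : ℝ) / y := by
          rcases h4 with h4 | h4
          · left; exact h4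
          · right; rw [le_div_iff₀ hy]; exact h4.le
        have h6 := nr_lower Y.lam hc0 hy h5
        have h7 : (nm b c (x, y) : ℝ) = nr b c x y := by
          simp only [nm, nr]; push_cast; ring
        rw [h7] at h2
        have h8 := h6.trans h2
        have h9 : (x : ℝ) ^ 2 + (y : ℝ) ^ 2 ≤ X / c0 := by
          rw [le_div_iff₀ h0]; linarith
        have hX : 0 ≤ X := by
          have : 0 ≤ c0 * ((x : ℝ) ^ 2 + (y : ℝ) ^ 2) := by positivity
          linarith
        refine le_trans ?_ (le_abs_self R)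
        rw [hR]
        linarith
    have hbd : ∀ z : ℤ, (z : ℝ) ^ 2 ≤ |R| → z ∈ Finset.Icc (-⌈|R|⌉) ⌈|R|⌉ := by
      intro z hz
      have h3 : (|z| : ℤ) ≤ z ^ 2 := by
        rcases eq_or_ne z 0 with rfl | hz0
        · simp
        · have := Int.one_le_abs hz0
          rw [← sq_abs z]
          nlinarith
      have h4 : ((|z| : ℤ) : ℝ) ≤ (z : ℝ) ^ 2 := by exact_mod_cast h3
      have h5 : ((|z| : ℤ) : ℝ) ≤ (⌈|R|⌉ : ℝ) := h4.trans (hz.trans (Int.le_ceil _))
      have h6 : |z| ≤ ⌈|R|⌉ := by exact_mod_cast h5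
      rw [Finset.mem_Icc]
      exact abs_le.1 h6
    simp only [Finset.coe_product, Set.mem_prod, Finset.mem_coe]
    exact ⟨hbd x (by nlinarith [sq_nonneg (y : ℝ)]), hbd y (by nlinarith [sq_nonneg (x : ℝ)])⟩
  exact (Finset.finite_toSet _).subset hbox

theorem mem_MF' (Y : Sys b c) {X : ℝ} {v : El} : v ∈ Y.MF X ↔ Y.wd v ∧ (nm b c v : ℝ) ≤ X := by
  unfold Sys.MF
  rw [dif_pos (fin_MF Y X)]
  simp

/-- the set of `x / y` for given `y` -/
def Ty (Y : Sys b c) (X y : ℝ) : Set ℝ := W Y ∩ {t | y ^ 2 * ff b c t ≤ X}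

theorem Ty_conn (Y : Sys b c) (X : ℝ) {y : ℝ} (hy : 0 < y) : (Ty Y X y).OrdConnected := by
  constructor
  intro s hs t ht x hx
  refine ⟨(W_convex Y).ordConnected.out hs.1 ht.1 hx, ?_⟩
  have h1 : y ^ 2 * ff b c s ≤ X := hs.2
  have h2 : y ^ 2 * ff b c t ≤ X := ht.2
  change y ^ 2 * ff b c x ≤ X
  rcases eq_or_lt_of_le (hx.1.trans hx.2) with h | h
  · have : x = s := le_antisymm (hx.2.trans h.ge) hx.1
    rw [this]; exact h1
  · have h3 : (t - s) * (X - y ^ 2 * ff b c x) = (t - x) * (X - y ^ 2 * ff b c s) +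
        (x - s) * (X - y ^ 2 * ff b c t) + y ^ 2 * ((t - s) * (x - s) * (t - x)) := by
      unfold ff; ring
    have h4 : 0 ≤ (t - s) * (X - y ^ 2 * ff b c x) := by
      rw [h3]
      have e1 : 0 ≤ t - x := by linarith [hx.2]
      have e2 : 0 ≤ x - s := by linarith [hx.1]
      have e3 : 0 ≤ t - s := by linarith
      have e4 : 0 ≤ X - y ^ 2 * ff b c s := by linarith
      have e5 : 0 ≤ X - y ^ 2 * ff b c t := by linarith
      positivity
    have h5 : 0 < t - s := by linarith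
    by_contra h6
    push Not at h6
    have : (t - s) * (X - y ^ 2 * ff b c x) < 0 := mul_neg_of_pos_of_neg h5 (by linarith)
    linarith

theorem Ty_meas (Y : Sys b c) (X y : ℝ) : MeasurableSet (Ty Y X y) :=
  (W_meas Y).inter (measurableSet_le (measurable_const.mul (ff_cont b c).measurable)
    measurable_const)

theorem Ty_bdd (Y : Sys b c) (X : ℝ) {y : ℝ} (hy : 0 < y) : Bornology.IsBounded (Ty Y X y) := by
  obtain ⟨c0, h0, hc0⟩ := exists_c0 Y
  refine (Metric.isBounded_Icc (-(X / (y ^ 2 * c0) + 1)) (X / (y ^ 2 * c0) + 1)).subset ?_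
  intro t ht
  have h1 : y ^ 2 * ff b c t ≤ X := ht.2
  have h2 : c0 * (1 + t ^ 2) ≤ ff b c t := hc0 t (ht.1.imp id le_of_lt)
  have h3 : y ^ 2 * (c0 * (1 + t ^ 2)) ≤ X := (mul_le_mul_of_nonneg_left h2 (by positivity)).trans h1
  have h4 : 1 + t ^ 2 ≤ X / (y ^ 2 * c0) := by
    rw [le_div_iff₀ (by positivity)]; linarith
  rw [Set.mem_Icc]
  constructor <;> nlinarith [sq_nonneg (t - 1), sq_nonneg (t + 1)]

theorem mem_Ty (Y : Sys b c) (X : ℝ) {y : ℤ} (hy : 1 ≤ y) (x : ℤ) :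
    (x, y) ∈ Y.MF X ↔ (x : ℝ) / ((y : ℤ) : ℝ) ∈ Ty Y X y := by
  have hy0 : (0 : ℝ) < y := by exact_mod_cast hy
  rw [mem_MF']
  have h7 : (nm b c (x, y) : ℝ) = (y : ℝ) ^ 2 * ff b c (x / y) := by
    have := nr_eq b c x y hy0
    unfold ff
    rw [← this]
    simp only [nm, nr]; push_cast; ring
  rw [h7]
  unfold Ty
  refine and_congr ?_ Iff.rfl
  change wdw b c Y.lam (x, y) ↔ (dsc b c < 0 ∨ Y.lam < (x : ℝ) / y)
  unfold wdw
  simp only
  rw [lt_div_iff₀ hy0]
  constructor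
  · rintro (⟨h, _⟩ | ⟨_, h⟩)
    · omega
    · exact h
  · intro h
    right
    exact ⟨by omega, h⟩

end

end Pool.Agent.Lib_helper44.EXP

/-!
# EXP, file 9: the decomposition of the sum; small frequencies
-/

namespace Pool.Agent.Lib_helper44.EXP

section

open Pool.Agent.MQ MeasureTheory Filter Topology

variable {b c : ℤ}

/-- the `x` with `(x, y)` in the window -/
noncomputable def Fy (Y : Sys b c) (X : ℝ) (y : ℕ) : Finset ℤ :=
  ((Y.MF X).filter (fun v => v.2 = (y : ℤ))).image Prod.fst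

theorem mem_Fy (Y : Sys b c) (X : ℝ) (y : ℕ) (x : ℤ) : x ∈ Fy Y X y ↔ (x, (y : ℤ)) ∈ Y.MF X := by
  unfold Fy
  simp only [Finset.mem_image, Finset.mem_filter, Prod.exists]
  constructor
  · rintro ⟨a, e, ⟨h1, h2⟩, h3⟩
    subst h2 h3
    exact h1
  · intro h
    exact ⟨x, y, ⟨h, rfl⟩, rfl⟩

theorem Fy_Ty (Y : Sys b c) (X : ℝ) {y : ℕ} (hy : 1 ≤ y) (x : ℤ) :
    x ∈ Fy Y X y ↔ (x : ℝ) / (y : ℝ) ∈ Ty Y X y := by
  rw [mem_Fy]
  have := mem_Ty Y X (y := (y : ℤ)) (by exact_mod_cast hy) x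
  rw [this]
  simp

theorem snd_bound (Y : Sys b c) {c0 : ℝ} (h0 : 0 < c0)
    (hc0 : ∀ t : ℝ, (dsc b c < 0 ∨ Y.lam ≤ t) → c0 * (1 + t ^ 2) ≤ t ^ 2 + b * t + c) {X : ℝ}
    {v : El} (hv : v ∈ Y.MF X) : 0 ≤ v.2 ∧ v.2.toNat ≤ ⌊Real.sqrt (X / c0)⌋₊ := by
  obtain ⟨x, y⟩ := v
  obtain ⟨h1, h2⟩ := (mem_MF' Y).1 hv
  rcases h1 with ⟨h3, _⟩ | ⟨h3, h4⟩
  · simp only at h3 ⊢
    subst h3
    simp
  · simp only at h3 h4 ⊢
    have hy : (0 : ℝ) < y := by exact_mod_cast h3
    have h5 : dsc b c < 0 ∨ Y.lam ≤ (x : ℝ) / y := by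
      rcases h4 with h4 | h4
      · left; exact h4
      · right; rw [le_div_iff₀ hy]; exact h4.le
    have h6 := nr_lower Y.lam hc0 hy h5
    have h7 : (nm b c (x, y) : ℝ) = nr b c x y := by
      simp only [nm, nr]; push_cast; ring
    rw [h7] at h2
    have h8 := h6.trans h2
    refine ⟨h3.le, ?_⟩
    apply Nat.le_floor
    have h9 : ((y.toNat : ℕ) : ℝ) = (y : ℝ) := by
      have : ((y.toNat : ℕ) : ℤ) = y := by omega
      exact_mod_cast congrArg (Int.cast (R := ℝ)) this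
    rw [h9]
    apply Real.le_sqrt_of_sq_le
    rw [le_div_iff₀ h0]
    nlinarith [sq_nonneg (x : ℝ)]

theorem decomp (Y : Sys b c) {c0 : ℝ} (h0 : 0 < c0)
    (hc0 : ∀ t : ℝ, (dsc b c < 0 ∨ Y.lam ≤ t) → c0 * (1 + t ^ 2) ≤ t ^ 2 + b * t + c) {X : ℝ}
    (k : ℤ) :
    ‖Y.es k X‖ ≤ Real.sqrt X + ‖∑ y ∈ Finset.Icc 1 ⌊Real.sqrt (X / c0)⌋₊,
      ∑ x ∈ Fy Y X y, Gk Y k (x / y)‖ := by
  classical
  set m := ⌊Real.sqrt (X / c0)⌋₊ with hm
  have h1 : Y.es k X = ∑ y ∈ Finset.range (m + 1), ∑ v ∈ (Y.MF X).filter (fun v => v.2.toNat = y),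
      ex (k * Y.u v) := by
    unfold Sys.es
    rw [Finset.sum_fiberwise_of_maps_to]
    intro v hv
    rw [Finset.mem_range]
    exact Nat.lt_succ_of_le (snd_bound Y h0 hc0 hv).2
  have h2 : ∀ y ∈ Finset.Icc 1 m, ∑ v ∈ (Y.MF X).filter (fun v => v.2.toNat = y),
      ex (k * Y.u v) = ∑ x ∈ Fy Y X y, Gk Y k (x / y) := by
    intro y hy
    rw [Finset.mem_Icc] at hy
    have e1 : (Y.MF X).filter (fun v => v.2.toNat = y) =
        (Fy Y X y).image (fun x : ℤ => ((x, (y : ℤ)) : El)) := by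
      ext ⟨x, z⟩
      simp only [Finset.mem_filter, Finset.mem_image, Prod.mk.injEq]
      constructor
      · rintro ⟨h3, h4⟩
        have h5 := (snd_bound Y h0 hc0 h3).1
        simp only at h5
        have h6 : z = y := by omega
        subst h6
        exact ⟨x, (mem_Fy Y X y x).2 h3, rfl, rfl⟩
      · rintro ⟨x', h3, rfl, rfl⟩
        exact ⟨(mem_Fy Y X y x').1 h3, by simp⟩
    rw [e1, Finset.sum_image (by
      intro x _ x' _ h
      simpa using h)]
    refine Finset.sum_congr rfl fun x _ => ?_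
    rw [ex_eq]
    unfold Gk Sys.u uu
    have : ((x, (y : ℤ)) : El).2 ≠ 0 := by simp only; omega
    rw [if_neg this]
    simp
  have h3 : Finset.range (m + 1) = insert 0 (Finset.Icc 1 m) := by
    ext j
    simp only [Finset.mem_range, Finset.mem_insert, Finset.mem_Icc]
    omega
  rw [h1, h3, Finset.sum_insert (by simp), Finset.sum_congr rfl h2]
  refine (norm_add_le _ _).trans ?_
  refine add_le_add ?_ le_rfl
  have h4 : ‖∑ v ∈ (Y.MF X).filter (fun v => v.2.toNat = 0), ex (k * Y.u v)‖ ≤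
      (((Y.MF X).filter (fun v => v.2.toNat = 0)).card : ℝ) := by
    refine (norm_sum_le _ _).trans ?_
    simp [ex_eq, ee_norm]
  refine h4.trans ?_
  have h5 : ((Y.MF X).filter (fun v => v.2.toNat = 0)).card ≤
      (Finset.Icc (1 : ℤ) ⌊Real.sqrt X⌋).card := by
    apply Finset.card_le_card_of_injOn Prod.fst
    · rintro ⟨x, y⟩ hv
      simp only [Finset.coe_filter, Set.mem_ofPred_eq] at hv
      have h6 := (snd_bound Y h0 hc0 hv.1).1
      simp only at h6
      have h7 : y = 0 := by omega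
      subst h7
      obtain ⟨h8, h9⟩ := (mem_MF' Y).1 hv.1
      have h10 : 0 < x := by
        rcases h8 with ⟨_, h8⟩ | ⟨h8, _⟩
        · exact h8
        · simp at h8
      simp only [Finset.coe_Icc, Set.mem_Icc]
      refine ⟨h10, ?_⟩
      rw [Int.le_floor]
      apply Real.le_sqrt_of_sq_le
      simp only [nm] at h9
      push_cast at h9
      linarith
    · rintro ⟨x, y⟩ hv ⟨x', y'⟩ hv' h
      simp only [Finset.coe_filter, Set.mem_ofPred_eq] at hv hv'
      have h6 := (snd_bound Y h0 hc0 hv.1).1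
      have h6' := (snd_bound Y h0 hc0 hv'.1).1
      simp only at h6 h6' h hv hv'
      rw [Prod.mk.injEq]
      exact ⟨h, by omega⟩
  have h6 : (((Finset.Icc (1 : ℤ) ⌊Real.sqrt X⌋).card : ℕ) : ℝ) ≤ Real.sqrt X := by
    rw [Int.card_Icc]
    have h7 : 0 ≤ ⌊Real.sqrt X⌋ := Int.floor_nonneg.2 (Real.sqrt_nonneg _)
    have h8 : ((⌊Real.sqrt X⌋ + 1 - 1).toNat : ℤ) = ⌊Real.sqrt X⌋ := by omega
    have h9 : (((⌊Real.sqrt X⌋ + 1 - 1).toNat : ℕ) : ℝ) = (⌊Real.sqrt X⌋ : ℝ) := by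
      exact_mod_cast congrArg (Int.cast (R := ℝ)) h8
    rw [h9]
    exact Int.floor_le _
  have h7 : (((Y.MF X).filter (fun v => v.2.toNat = 0)).card : ℝ) ≤
      (((Finset.Icc (1 : ℤ) ⌊Real.sqrt X⌋).card : ℕ) : ℝ) := by exact_mod_cast h5
  exact h7.trans h6

/-- small frequencies -/
theorem small (Y : Sys b c) {c0 : ℝ} (h0 : 0 < c0)
    (hc0 : ∀ t : ℝ, (dsc b c < 0 ∨ Y.lam ≤ t) → c0 * (1 + t ^ 2) ≤ t ^ 2 + b * t + c) :
    ∃ C : ℝ, 0 ≤ C ∧ ∀ X : ℝ, 0 < X → ∀ k : ℤ, k ≠ 0 →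
    ‖∑ y ∈ Finset.Icc 1 ⌊Real.sqrt (X / c0)⌋₊, ∑ x ∈ Fy Y X y, Gk Y k (x / y)‖ ≤
      Real.sqrt (X / c0) * (2 * Real.pi * |(k : ℝ)| + 3) + C * X ^ (3 / 4 : ℝ) := by
  have hg : Integrable (fun t : ℝ => (1 + ‖t‖ ^ 2) ^ (-(3 / 2 : ℝ) / 2)) :=
    integrable_rpow_neg_one_add_norm_sq (by simp; norm_num)
  set I : ℝ := ∫ t in W Y, c0 ^ (-(3 / 4) : ℝ) * (1 + ‖t‖ ^ 2) ^ (-(3 / 2 : ℝ) / 2) with hI
  have hI0 : 0 ≤ I := by
    rw [hI]
    apply integral_nonneg
    intro t
    positivity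
  refine ⟨I, hI0, ?_⟩
  intro X hX k hk
  set m := ⌊Real.sqrt (X / c0)⌋₊ with hm
  have hms : (m : ℝ) ≤ Real.sqrt (X / c0) := Nat.floor_le (Real.sqrt_nonneg _)
  have hA0 : 0 ≤ 2 * Real.pi * |(k : ℝ)| := by positivity
  have hGi : ∀ y : ℕ, 1 ≤ y → IntegrableOn (Gk Y k) (Ty Y X y) := by
    intro y hy
    have hy0 : (0 : ℝ) < y := by exact_mod_cast hy
    have hfin : volume (Ty Y X y) ≠ ⊤ := (Ty_bdd Y X hy0).measure_lt_top.ne
    have h1 : IntegrableOn (fun _ : ℝ => (1 : ℝ)) (Ty Y X y) := integrableOn_const hfin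
    refine Integrable.mono' h1 ?_ ?_
    · exact ((Gk_cont Y k).mono Set.inter_subset_left).aestronglyMeasurable (Ty_meas Y X y)
    · exact Eventually.of_forall fun t => (Gk_norm Y k t).le
  -- step 1
  have hst1 : ∀ y ∈ Finset.Icc 1 m, ‖∑ x ∈ Fy Y X y, Gk Y k (x / y) -
      (y : ℝ) * ∫ t in Ty Y X y, Gk Y k t‖ ≤ 2 * Real.pi * |(k : ℝ)| + 3 := by
    intro y hy
    rw [Finset.mem_Icc] at hy
    have hy0 : (0 : ℝ) < y := by exact_mod_cast hy.1
    exact int_sum (Ty Y X y) (Ty_conn Y X hy0) (Ty_meas Y X y) (Gk Y k) Y.ur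
      (2 * Real.pi * |(k : ℝ)|) hA0 hy0 (fun x _ => (Gk_norm Y k x).le)
      (by
        intro s _ x _
        refine (ee_norm_sub _ _).trans (le_of_eq ?_)
        rw [← mul_sub, abs_mul]
        ring)
      ((ur_anti Y).mono Set.inter_subset_left) (fun x hx => ur_range Y hx.1) (hGi y hy.1)
      (Fy Y X y) (Fy_Ty Y X hy.1) (Ty_bdd Y X hy0)
  -- step 2
  have hint2 : ∀ y ∈ Finset.Icc 1 m, Integrable
      ({t : ℝ | (y : ℝ) ^ 2 * ff b c t ≤ X}.indicator (fun t => ((y : ℝ) : ℂ) * Gk Y k t))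
      (volume.restrict (W Y)) := by
    intro y hy
    rw [Finset.mem_Icc] at hy
    have hms : MeasurableSet {t : ℝ | (y : ℝ) ^ 2 * ff b c t ≤ X} :=
      measurableSet_le (measurable_const.mul (ff_cont b c).measurable) measurable_const
    rw [integrable_indicator_iff hms, IntegrableOn, Measure.restrict_restrict hms]
    have := (hGi y hy.1).const_mul ((y : ℝ) : ℂ)
    rw [Set.inter_comm]
    exact this
  have hst2 : ∑ y ∈ Finset.Icc 1 m, ((y : ℝ) : ℂ) * ∫ t in Ty Y X y, Gk Y k t =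
      ∫ t in W Y, ((∑ y ∈ (Finset.Icc 1 m).filter (fun y : ℕ => (y : ℝ) ^ 2 ≤ X / ff b c t),
        (y : ℝ) : ℝ) : ℂ) * Gk Y k t := by
    have e1 : ∀ y ∈ Finset.Icc 1 m, ((y : ℝ) : ℂ) * ∫ t in Ty Y X y, Gk Y k t =
        ∫ t in W Y, ({t : ℝ | (y : ℝ) ^ 2 * ff b c t ≤ X}.indicator
          (fun t => ((y : ℝ) : ℂ) * Gk Y k t)) t := by
      intro y hy
      have hms : MeasurableSet {t : ℝ | (y : ℝ) ^ 2 * ff b c t ≤ X} :=
        measurableSet_le (measurable_const.mul (ff_cont b c).measurable) measurable_const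
      rw [setIntegral_indicator hms, integral_const_mul]
      rfl
    rw [Finset.sum_congr rfl e1, ← integral_finsetSum _ hint2]
    apply setIntegral_congr_fun (W_meas Y)
    intro t ht
    simp only
    push_cast
    rw [Finset.sum_mul, Finset.sum_filter]
    refine Finset.sum_congr rfl fun y _ => ?_
    have h2 := ff_pos Y ht
    by_cases h3 : (y : ℝ) ^ 2 * ff b c t ≤ X
    · rw [Set.indicator_of_mem (by exact h3), if_pos (by rw [le_div_iff₀ h2]; exact h3)]
    · rw [Set.indicator_of_notMem (by exact h3), if_neg (by rw [le_div_iff₀ h2]; exact h3)]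
  -- step 3
  have hintτ : Integrable (fun t => ((∑ y ∈ (Finset.Icc 1 m).filter
      (fun y : ℕ => (y : ℝ) ^ 2 ≤ X / ff b c t), (y : ℝ) : ℝ) : ℂ) * Gk Y k t)
      (volume.restrict (W Y)) := by
    have := integrable_finsetSum _ hint2
    refine this.congr ?_
    rw [Filter.EventuallyEq, ae_restrict_iff' (W_meas Y)]
    refine Eventually.of_forall fun t ht => ?_
    push_cast
    rw [Finset.sum_mul, Finset.sum_filter]
    refine Finset.sum_congr rfl fun y _ => ?_
    have h2 := ff_pos Y ht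
    by_cases h3 : (y : ℝ) ^ 2 * ff b c t ≤ X
    · rw [Set.indicator_of_mem (by exact h3), if_pos (by rw [le_div_iff₀ h2]; exact h3)]
    · rw [Set.indicator_of_notMem (by exact h3), if_neg (by rw [le_div_iff₀ h2]; exact h3)]
  have hst3 : ∫ t in W Y, ((∑ y ∈ (Finset.Icc 1 m).filter
      (fun y : ℕ => (y : ℝ) ^ 2 ≤ X / ff b c t), (y : ℝ) : ℝ) : ℂ) * Gk Y k t =
      ∫ t in W Y, (((∑ y ∈ (Finset.Icc 1 m).filter
      (fun y : ℕ => (y : ℝ) ^ 2 ≤ X / ff b c t), (y : ℝ)) - X / ff b c t / 2 : ℝ) : ℂ) *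
        Gk Y k t := by
    have e1 : ∫ t in W Y, (X / 2 : ℂ) * (Gk Y k t / (ff b c t : ℂ)) = 0 := by
      rw [integral_const_mul, area_zero Y hk, mul_zero]
    rw [← sub_zero (∫ t in W Y, ((∑ y ∈ (Finset.Icc 1 m).filter
      (fun y : ℕ => (y : ℝ) ^ 2 ≤ X / ff b c t), (y : ℝ) : ℝ) : ℂ) * Gk Y k t), ← e1,
      ← integral_sub hintτ ((int_dom Y h0 hc0 k).const_mul _)]
    apply setIntegral_congr_fun (W_meas Y)
    intro t _
    simp only
    push_cast
    ring
  -- step 4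
  have hst4 : ‖∫ t in W Y, (((∑ y ∈ (Finset.Icc 1 m).filter
      (fun y : ℕ => (y : ℝ) ^ 2 ≤ X / ff b c t), (y : ℝ)) - X / ff b c t / 2 : ℝ) : ℂ) *
        Gk Y k t‖ ≤ I * X ^ (3 / 4 : ℝ) := by
    have e1 : I * X ^ (3 / 4 : ℝ) = ∫ t in W Y, X ^ (3 / 4 : ℝ) *
        (c0 ^ (-(3 / 4) : ℝ) * (1 + ‖t‖ ^ 2) ^ (-(3 / 2 : ℝ) / 2)) := by
      rw [integral_const_mul, hI, mul_comm]
    rw [e1]
    apply norm_integral_le_of_norm_le
    · exact ((hg.integrableOn).const_mul _).const_mul _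
    · rw [ae_restrict_iff' (W_meas Y)]
      refine Eventually.of_forall fun t ht => ?_
      have h2 := ff_pos Y ht
      have h3 : c0 * (1 + t ^ 2) ≤ ff b c t := hc0 t (ht.imp id le_of_lt)
      have hw : 0 < X / ff b c t := by positivity
      rw [norm_mul, Gk_norm, mul_one, Complex.norm_real, Real.norm_eq_abs]
      have h4 : X / ff b c t ≤ X / (c0 * (1 + t ^ 2)) :=
        div_le_div_of_nonneg_left hX.le (by positivity) h3
      have h5 : Real.sqrt (X / ff b c t) ≤ ((m + 1 : ℕ) : ℝ) := by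
        have e2 : X / ff b c t ≤ X / c0 := by
          refine div_le_div_of_nonneg_left hX.le h0 ?_
          nlinarith [sq_nonneg t, mul_nonneg h0.le (sq_nonneg t)]
        refine (Real.sqrt_le_sqrt e2).trans ?_
        push_cast
        exact (Nat.lt_floor_add_one _).le
      have h6 := tau_est hw h5
      have h7 : (Finset.Icc 1 (m + 1)).filter (fun y : ℕ => (y : ℝ) ^ 2 ≤ X / ff b c t) =
          (Finset.Icc 1 m).filter (fun y : ℕ => (y : ℝ) ^ 2 ≤ X / ff b c t) := by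
        ext y
        simp only [Finset.mem_filter, Finset.mem_Icc]
        constructor
        · rintro ⟨⟨h8, _⟩, h9⟩
          refine ⟨⟨h8, ?_⟩, h9⟩
          rw [hm]
          apply Nat.le_floor
          apply Real.le_sqrt_of_sq_le
          refine h9.trans (div_le_div_of_nonneg_left hX.le h0 ?_)
          nlinarith [sq_nonneg t, mul_nonneg h0.le (sq_nonneg t)]
        · rintro ⟨⟨h8, h8'⟩, h9⟩
          exact ⟨⟨h8, by omega⟩, h9⟩
      rw [h7] at h6
      refine h6.trans ?_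
      refine (Real.rpow_le_rpow hw.le h4 (by norm_num)).trans (le_of_eq ?_)
      rw [Real.div_rpow hX.le (by positivity), Real.mul_rpow h0.le (by positivity),
        Real.norm_eq_abs, sq_abs, Real.rpow_neg h0.le,
        show (-(3 / 2 : ℝ) / 2) = -(3 / 4) by norm_num, Real.rpow_neg (by positivity)]
      field_simp
  have hfin : ∑ y ∈ Finset.Icc 1 m, ∑ x ∈ Fy Y X y, Gk Y k (x / y) =
      ∑ y ∈ Finset.Icc 1 m, (∑ x ∈ Fy Y X y, Gk Y k (x / y) -
        (y : ℝ) * ∫ t in Ty Y X y, Gk Y k t) +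
      ∑ y ∈ Finset.Icc 1 m, ((y : ℝ) : ℂ) * ∫ t in Ty Y X y, Gk Y k t := by
    rw [← Finset.sum_add_distrib]
    refine Finset.sum_congr rfl fun y _ => ?_
    ring
  rw [hfin, hst2, hst3]
  refine (norm_add_le _ _).trans ?_
  refine add_le_add ?_ hst4
  refine (norm_sum_le_of_le _ hst1).trans ?_
  rw [Finset.sum_const, nsmul_eq_mul, Nat.card_Icc, Nat.add_sub_cancel]
  exact mul_le_mul_of_nonneg_right hms (by linarith)

end

end Pool.Agent.Lib_helper44.EXP

/-!
# EXP, file 10: the character sums over all elements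
-/

namespace Pool.Agent.Lib_helper44.EXP

section

open Pool.Agent.MQ

variable {b c : ℤ}

/-- the sum over one line as a sum over an interval -/
theorem line (Y : Sys b c) {X : ℝ} {y : ℕ} (hy : 1 ≤ y) (k : ℤ) : ∃ a e : ℤ,
    ∑ x ∈ Fy Y X y, Gk Y k (x / y) = S (fun n => (k : ℝ) * Y.ur (n / y)) a e ∧
    ∀ x : ℝ, (a : ℝ) ≤ x → x ≤ e - 1 →
      (dsc b c < 0 ∨ Y.lam < x / y) ∧ nr b c x y ≤ X := by
  have hy0 : (0 : ℝ) < y := by exact_mod_cast hy
  rcases Finset.eq_empty_or_nonempty (Fy Y X y) with h | hne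
  · refine ⟨0, 0, by rw [h]; simp [S], ?_⟩
    intro x hx hx2
    push_cast at hx hx2
    linarith
  · set F := Fy Y X y with hF
    set a : ℤ := F.min' hne with ha
    set e : ℤ := F.max' hne with he
    have haT := (Fy_Ty Y X hy a).1 (F.min'_mem hne)
    have heT := (Fy_Ty Y X hy e).1 (F.max'_mem hne)
    have hconn := Ty_conn Y X hy0
    have hFI : F = Finset.Ico a (e + 1) := by
      ext n
      rw [Finset.mem_Ico]
      constructor
      · intro hn; exact ⟨F.min'_le n hn, Int.lt_add_one_of_le (F.le_max' n hn)⟩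
      · rintro ⟨h1, h2⟩
        rw [hF, Fy_Ty Y X hy]
        refine hconn.out haT heT ⟨?_, ?_⟩
        · apply div_le_div_of_nonneg_right _ hy0.le
          exact_mod_cast h1
        · apply div_le_div_of_nonneg_right _ hy0.le
          exact_mod_cast Int.le_of_lt_add_one h2
    refine ⟨a, e + 1, ?_, ?_⟩
    · rw [hFI]
      rfl
    · intro x h1 h2
      push_cast at h2
      have h3 : x / y ∈ Ty Y X y := by
        refine hconn.out haT heT ⟨?_, ?_⟩
        · apply div_le_div_of_nonneg_right _ hy0.le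
          exact h1
        · apply div_le_div_of_nonneg_right _ hy0.le
          linarith
      refine ⟨h3.1, ?_⟩
      rw [nr_eq b c x y hy0]
      exact h3.2

theorem total (Y : Sys b c) : ∃ C q0 : ℝ, 0 ≤ C ∧ 1 ≤ q0 ∧ ∀ q : ℝ, q0 ≤ q → ∀ k : ℤ, k ≠ 0 →
    |(k : ℝ)| ≤ q ^ 3000 → ‖Y.es k (q ^ 1000)‖ ≤ C * q ^ 999 := by
  obtain ⟨c0, h0, hc0⟩ := exists_c0 Y
  obtain ⟨C1, hC1, hsmall⟩ := small Y h0 hc0
  obtain ⟨C2, hC2, hlarge⟩ := large Y h0 hc0
  have hκ := Y.κ_pos
  have hc_0 := Cs_nonneg Y h0 0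
  have hc_1 := Cs_nonneg Y h0 1
  have hc_6 := Cs_nonneg Y h0 6
  have hc_7 := Cs_nonneg Y h0 7
  have hCtp : 1 ≤ Cst Y c0 := by rw [Cst]; linarith
  set K1 : ℝ := 2 * (1 + 1 / c0) + 1 with hK1
  have hK1' : 3 ≤ K1 := by
    rw [hK1]
    have : 0 < 1 / c0 := by positivity
    linarith
  set C3 : ℝ := K1 + 1 / Y.κ + K1 * Cst Y c0 / Y.κ ^ 2 with hC3
  have hC3' : 0 ≤ C3 := by positivity
  set s0 : ℝ := Real.sqrt (1 / c0) with hs0
  have hs0' : 0 ≤ s0 := Real.sqrt_nonneg _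
  refine ⟨1 + s0 * (2 * Real.pi + 3) + C1 + K1 + s0 * (C2 + C3), max 1 (2 * Cst Y c0),
    by positivity, le_max_left _ _, ?_⟩
  intro q hq k hk hk3
  have hq1 : 1 ≤ q := (le_max_left _ _).trans hq
  have hq2 : 2 * Cst Y c0 ≤ q := (le_max_right _ _).trans hq
  have hq0 : 0 < q := by linarith
  have hX0 : 0 < q ^ 1000 := by positivity
  have hsX : Real.sqrt (q ^ 1000) = q ^ 500 := by
    rw [show q ^ 1000 = (q ^ 500) ^ 2 by ring, Real.sqrt_sq (by positivity)]
  have hsXc : Real.sqrt (q ^ 1000 / c0) = s0 * q ^ 500 := by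
    rw [div_eq_mul_one_div, Real.sqrt_mul (by positivity), hsX, mul_comm]
  have hX34 : (q ^ 1000) ^ (3 / 4 : ℝ) = q ^ 750 := by
    rw [← Real.rpow_natCast, ← Real.rpow_mul hq0.le, ← Real.rpow_natCast]
    norm_num
  refine (decomp Y h0 hc0 k).trans ?_
  have hp500 : q ^ 500 ≤ q ^ 999 := pow_le_pow_right₀ hq1 (by norm_num)
  have hpi := Real.pi_pos
  have hmain : ‖∑ y ∈ Finset.Icc 1 ⌊Real.sqrt (q ^ 1000 / c0)⌋₊,
      ∑ x ∈ Fy Y (q ^ 1000) y, Gk Y k (x / y)‖ ≤
      (s0 * (2 * Real.pi + 3) + C1 + K1 + s0 * (C2 + C3)) * q ^ 999 := by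
    rcases le_or_gt (|(k : ℝ)|) (q ^ 21) with hks | hks
    · -- small
      refine (hsmall (q ^ 1000) hX0 k hk).trans ?_
      rw [hsXc, hX34]
      have e1 : q ^ 521 ≤ q ^ 999 := pow_le_pow_right₀ hq1 (by norm_num)
      have e2 : q ^ 750 ≤ q ^ 999 := pow_le_pow_right₀ hq1 (by norm_num)
      have e3 : s0 * q ^ 500 * (2 * Real.pi * |(k : ℝ)| + 3) ≤
          s0 * (2 * Real.pi + 3) * q ^ 999 := by
        have e4 : 2 * Real.pi * |(k : ℝ)| + 3 ≤ (2 * Real.pi + 3) * q ^ 21 := by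
          have : (1 : ℝ) ≤ q ^ 21 := one_le_pow₀ hq1
          nlinarith
        calc s0 * q ^ 500 * (2 * Real.pi * |(k : ℝ)| + 3)
            ≤ s0 * q ^ 500 * ((2 * Real.pi + 3) * q ^ 21) := by gcongr
          _ = s0 * (2 * Real.pi + 3) * q ^ 521 := by ring
          _ ≤ s0 * (2 * Real.pi + 3) * q ^ 999 := by gcongr
      have e5 : C1 * q ^ 750 ≤ C1 * q ^ 999 := by gcongr
      have e6 : 0 ≤ (K1 + s0 * (C2 + C3)) * q ^ 999 := by positivity
      calc _ ≤ s0 * (2 * Real.pi + 3) * q ^ 999 + C1 * q ^ 999 := add_le_add e3 e5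
        _ ≤ s0 * (2 * Real.pi + 3) * q ^ 999 + C1 * q ^ 999 +
            (K1 + s0 * (C2 + C3)) * q ^ 999 := le_add_of_nonneg_right e6
        _ = _ := by ring
    · -- medium and large
      have hlines : ∀ y ∈ Finset.Icc 1 ⌊Real.sqrt (q ^ 1000 / c0)⌋₊,
          ‖∑ x ∈ Fy Y (q ^ 1000) y, Gk Y k (x / y)‖ ≤
            (if (y : ℝ) < q ^ 495 then K1 * q ^ 500 else 0) + (C2 + C3) * q ^ 499 := by
        intro y hy
        rw [Finset.mem_Icc] at hy
        have hy0 : (0 : ℝ) < y := by exact_mod_cast hy.1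
        obtain ⟨a, e, he1, he2⟩ := line Y (X := q ^ 1000) hy.1 k
        rw [he1]
        by_cases hyq : (y : ℝ) < q ^ 495
        · rw [if_pos hyq]
          have h1 := S_norm_le (fun n => (k : ℝ) * Y.ur (n / y)) a e
          have h2 := len_bound Y h0 hc0 hq1 hy0 he2
          have h3 : (((e - a).toNat : ℕ) : ℝ) ≤ K1 * q ^ 500 := by
            rcases le_or_gt a e with h | h
            · have : (((e - a).toNat : ℕ) : ℤ) = e - a := by omega
              have h5 : (((e - a).toNat : ℕ) : ℝ) = ((e - a : ℤ) : ℝ) := by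
                exact_mod_cast congrArg (Int.cast (R := ℝ)) this
              rw [h5]
              exact h2
            · have : (e - a).toNat = 0 := by omega
              rw [this]
              push_cast
              positivity
          have h4 : 0 ≤ (C2 + C3) * q ^ 499 := by positivity
          linarith
        · rw [if_neg hyq, zero_add]
          have hyq' : q ^ 495 ≤ y := not_lt.1 hyq
          rcases le_or_gt (|(k : ℝ)| * (2 * Cst Y c0)) (q ^ 495) with hkm | hkm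
          · have h1 := med Y h0 hc0 (k := k) hq1 hks.le hkm hyq' he2
            refine h1.trans ?_
            have : 0 ≤ C2 * q ^ 499 := by positivity
            rw [← hK1]
            calc (K1 + 1 / Y.κ + K1 * Cst Y c0 / Y.κ ^ 2) * q ^ 499 = C3 * q ^ 499 := by rw [hC3]
              _ ≤ C2 * q ^ 499 + C3 * q ^ 499 := by linarith
              _ = _ := by ring
          · have h1 := hlarge q k y hq1 hq2 (by linarith) hk3 hyq' a e he2
            refine h1.trans ?_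
            have : 0 ≤ C3 * q ^ 499 := by positivity
            linarith [add_mul C2 C3 (q ^ 499)]
      refine (norm_sum_le_of_le _ hlines).trans ?_
      rw [Finset.sum_add_distrib, Finset.sum_const, nsmul_eq_mul, Nat.card_Icc,
        Nat.add_sub_cancel, ← Finset.sum_filter, Finset.sum_const, nsmul_eq_mul]
      have e1 : (⌊Real.sqrt (q ^ 1000 / c0)⌋₊ : ℝ) ≤ s0 * q ^ 500 := by
        rw [← hsXc]
        exact Nat.floor_le (Real.sqrt_nonneg _)
      have e2 : (((Finset.Icc 1 ⌊Real.sqrt (q ^ 1000 / c0)⌋₊).filter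
          (fun y : ℕ => (y : ℝ) < q ^ 495)).card : ℝ) ≤ q ^ 495 := by
        have e3 : ((Finset.Icc 1 ⌊Real.sqrt (q ^ 1000 / c0)⌋₊).filter
          (fun y : ℕ => (y : ℝ) < q ^ 495)) ⊆ Finset.Icc 1 ⌊q ^ 495⌋₊ := by
          intro y hy
          rw [Finset.mem_filter, Finset.mem_Icc] at hy
          rw [Finset.mem_Icc]
          exact ⟨hy.1.1, Nat.le_floor hy.2.le⟩
        have e4 := Finset.card_le_card e3
        rw [Nat.card_Icc, Nat.add_sub_cancel] at e4
        have e5 : (((Finset.Icc 1 ⌊Real.sqrt (q ^ 1000 / c0)⌋₊).filter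
          (fun y : ℕ => (y : ℝ) < q ^ 495)).card : ℝ) ≤ (⌊q ^ 495⌋₊ : ℝ) := by exact_mod_cast e4
        exact e5.trans (Nat.floor_le (by positivity))
      have e6 : q ^ 995 ≤ q ^ 999 := pow_le_pow_right₀ hq1 (by norm_num)
      calc _ ≤ q ^ 495 * (K1 * q ^ 500) + s0 * q ^ 500 * ((C2 + C3) * q ^ 499) := by gcongr
        _ = K1 * q ^ 995 + s0 * (C2 + C3) * q ^ 999 := by ring
        _ ≤ K1 * q ^ 999 + s0 * (C2 + C3) * q ^ 999 := by gcongr
        _ ≤ K1 * q ^ 999 + s0 * (C2 + C3) * q ^ 999 +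
            (s0 * (2 * Real.pi + 3) + C1) * q ^ 999 := le_add_of_nonneg_right (by positivity)
        _ = _ := by ring
  rw [hsX]
  calc q ^ 500 + _ ≤ q ^ 999 + (s0 * (2 * Real.pi + 3) + C1 + K1 + s0 * (C2 + C3)) * q ^ 999 :=
        add_le_add hp500 hmain
    _ = _ := by ring

end

end Pool.Agent.Lib_helper44.EXP

namespace Pool.Agent.MQ

open Pool.Agent.Lib_helper44.EXP in
theorem exp_sum_pr : ∃ κ₁ : ℝ, 0 < κ₁ ∧ κ₁ ≤ 1 ∧ ∀ (b c : ℤ) (S : Sys b c), ∃ X₀ : ℝ,
    ∀ X : ℝ, X₀ ≤ X → ∀ k : ℤ, k ≠ 0 → |(k : ℝ)| ≤ X ^ 3 → ‖S.es k X‖ ≤ X ^ (1 - κ₁) := by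
  refine ⟨1 / 2000, by norm_num, by norm_num, ?_⟩
  intro b c Y
  obtain ⟨C, q0, hC, hq0, htot⟩ := total Y
  refine ⟨(max q0 (C ^ 2)) ^ 1000, ?_⟩
  intro X hX k hk hk3
  set Q : ℝ := max q0 (C ^ 2) with hQ
  have hQ1 : 1 ≤ Q := hq0.trans (le_max_left _ _)
  have hX1 : 1 ≤ X := (one_le_pow₀ hQ1).trans hX
  have hX0 : 0 < X := by linarith
  set q : ℝ := X ^ (1 / 1000 : ℝ) with hq
  have hqX : q ^ 1000 = X := by
    rw [hq, ← Real.rpow_natCast, ← Real.rpow_mul hX0.le]
    norm_num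
  have hqQ : Q ≤ q := by
    refine le_of_pow_le_pow_left₀ (n := 1000) (by norm_num) (by positivity) ?_
    rw [hqX]
    exact hX
  have hq0' : 0 < q := by linarith
  have h1 := htot q ((le_max_left _ _).trans hqQ) k hk (by
    refine hk3.trans (le_of_eq ?_)
    rw [← hqX]
    ring)
  rw [hqX] at h1
  refine h1.trans ?_
  have h2 : X ^ (1 - 1 / 2000 : ℝ) = q ^ 999 * q ^ (1 / 2 : ℝ) := by
    rw [← hqX, ← Real.rpow_natCast q 1000, ← Real.rpow_mul hq0'.le, ← Real.rpow_natCast q 999,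
      ← Real.rpow_add hq0']
    norm_num
  rw [h2, mul_comm]
  apply mul_le_mul_of_nonneg_left _ (by positivity)
  have h3 : C ^ 2 ≤ q := (le_max_right _ _).trans hqQ
  rw [← Real.sqrt_eq_rpow]
  exact Real.le_sqrt_of_sq_le h3

end Pool.Agent.MQ

namespace Pool.Agent.MQ

theorem exp_sum : type_of% @exp_sum_pr := @exp_sum_pr

end Pool.Agent.MQ
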