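import Pool.Agent.Lib_helper39.MQ.Defs

/-! Block FEJ: Fejer means -/

namespace Pool.Agent.MQ

open MeasureTheory intervalIntegral

theorem fej_ex_add (a b : ℝ) : ex (a + b) = ex a * ex b := by
  unfold ex
  rw [← Complex.exp_add]
  congr 1
  push_cast
  ring

theorem fej_ex_int (k : ℤ) : ex k = 1 := by
  unfold ex
  rw [Complex.exp_eq_one_iff]
  exact ⟨k, by push_cast; ring⟩

theorem fej_ex_norm (t : ℝ) : ‖ex t‖ = 1 := by
  unfold ex
  rw [show 2 * Real.pi * Complex.I * (t : ℂ) = ((2 * Real.pi * t : ℝ) : ℂ) * Complex.I by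
    push_cast; ring, Complex.norm_exp_ofReal_mul_I]

theorem fej_ex_neg (t : ℝ) : ex (-t) = starRingEnd ℂ (ex t) := by
  unfold ex
  rw [← Complex.exp_conj]
  congr 1
  simp only [map_mul, Complex.conj_ofReal, Complex.conj_I, Complex.conj_ofNat]
  push_cast
  ring

theorem fej_ex_cont : Continuous ex := by
  unfold ex
  fun_prop

theorem fej_ex_pow (j : ℕ) (s : ℝ) : ex (j * s) = ex s ^ j := by
  unfold ex
  rw [← Complex.exp_nat_mul]
  congr 1
  push_cast
  ring

/-- the Dirichlet type sum -/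
noncomputable def fej_D (N : ℕ) (s : ℝ) : ℂ := ∑ j ∈ Finset.range N, ex (j * s)

theorem fej_card (N : ℕ) (k : ℤ) :
    ((Finset.range N ×ˢ Finset.range N).filter (fun p : ℕ × ℕ => (p.1 : ℤ) - p.2 = k)).card =
      N - k.natAbs := by
  rw [← Finset.card_range (N - k.natAbs)]
  refine Finset.card_nbij' (fun p => min p.1 p.2) (fun i => (i + k.toNat, i + (-k).toNat)) ?_ ?_ ?_ ?_
  · rintro ⟨a, b⟩ hp
    simp only [Finset.coe_filter, Finset.mem_product, Finset.mem_range, Set.mem_ofPred_eq,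
      Finset.coe_range, Set.mem_Iio] at hp ⊢
    omega
  · intro i hi
    simp only [Finset.coe_filter, Finset.mem_product, Finset.mem_range, Set.mem_ofPred_eq,
      Finset.coe_range, Set.mem_Iio] at hi ⊢
    omega
  · rintro ⟨a, b⟩ hp
    simp only [Finset.coe_filter, Finset.mem_product, Finset.mem_range, Set.mem_ofPred_eq] at hp
    simp only [Prod.mk.injEq]
    omega
  · intro i hi
    simp only
    omega

theorem fej_ident (N : ℕ) (s : ℝ) :
    ∑ k ∈ Finset.Ioo (-(N : ℤ)) N, (((N : ℝ) - |(k : ℝ)| : ℝ) : ℂ) * ex (k * s) =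
      ((‖fej_D N s‖ ^ 2 : ℝ) : ℂ) := by
  have h1 : ((‖fej_D N s‖ ^ 2 : ℝ) : ℂ) = fej_D N s * starRingEnd ℂ (fej_D N s) := by
    rw [Complex.mul_conj, Complex.normSq_eq_norm_sq]
  rw [h1]
  unfold fej_D
  rw [map_sum, Finset.sum_mul_sum, ← Finset.sum_product',
    ← Finset.sum_fiberwise_of_maps_to (s := Finset.range N ×ˢ Finset.range N)
      (t := Finset.Ioo (-(N : ℤ)) N) (g := fun p : ℕ × ℕ => (p.1 : ℤ) - p.2)]
  · refine Finset.sum_congr rfl fun k hk => ?_
    rw [Finset.mem_Ioo] at hk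
    have h2 : ∀ p ∈ (Finset.range N ×ˢ Finset.range N).filter
        (fun p : ℕ × ℕ => (p.1 : ℤ) - p.2 = k),
        ex (p.1 * s) * starRingEnd ℂ (ex (p.2 * s)) = ex (k * s) := by
      intro p hp
      rw [Finset.mem_filter] at hp
      rw [← fej_ex_neg, ← fej_ex_add, ← hp.2]
      congr 1
      push_cast
      ring
    rw [Finset.sum_congr rfl h2, Finset.sum_const, fej_card, nsmul_eq_mul]
    congr 1
    have h3 : k.natAbs ≤ N := by omega
    rw [Nat.cast_sub h3]
    have h4 : |(k : ℝ)| = (k.natAbs : ℝ) := by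
      rw [← Int.cast_abs, ← Int.natCast_natAbs, Int.cast_natCast]
    rw [h4]
    push_cast
    ring
  · rintro ⟨a, b⟩ hp
    simp only [Finset.mem_product, Finset.mem_range] at hp
    rw [Finset.mem_Ioo]
    omega

theorem fej_geom (N : ℕ) {s : ℝ} (hs0 : s ≠ 0) (hs : |s| ≤ 1 / 2) :
    ‖fej_D N s‖ ≤ 1 / (2 * |s|) := by
  have h1 : fej_D N s * (ex s - 1) = ex s ^ N - 1 := by
    unfold fej_D
    have : ∀ j ∈ Finset.range N, ex (j * s) = ex s ^ j := fun j _ => fej_ex_pow j s
    rw [Finset.sum_congr rfl this, geom_sum_mul]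
  have h2 : ‖ex s ^ N - 1‖ ≤ 2 := by
    refine (norm_sub_le _ _).trans ?_
    rw [norm_pow, fej_ex_norm, one_pow, norm_one]
    norm_num
  have h3 : 4 * |s| ≤ ‖ex s - 1‖ := by
    have h4 : ex s = Complex.exp (Complex.I * ((2 * Real.pi * s : ℝ) : ℂ)) := by
      unfold ex
      congr 1
      push_cast
      ring
    rw [h4, Complex.norm_exp_I_mul_ofReal_sub_one]
    rw [show 2 * Real.pi * s / 2 = Real.pi * s by ring, norm_mul, Real.norm_eq_abs,
      Real.norm_eq_abs, abs_of_pos (by norm_num : (0 : ℝ) < 2)]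
    have h5 : |Real.sin (Real.pi * s)| = Real.sin (Real.pi * |s|) := by
      rcases le_total 0 s with h | h
      · rw [abs_of_nonneg h, abs_of_nonneg]
        apply Real.sin_nonneg_of_nonneg_of_le_pi (by positivity)
        rw [abs_of_nonneg h] at hs
        nlinarith [Real.pi_pos]
      · rw [abs_of_nonpos h, mul_neg, Real.sin_neg, abs_of_nonpos]
        apply Real.sin_nonpos_of_nonpos_of_neg_pi_le
        · nlinarith [Real.pi_pos]
        · rw [abs_of_nonpos h] at hs
          nlinarith [Real.pi_pos]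
    rw [h5]
    have h6 := Real.mul_le_sin (x := Real.pi * |s|) (by positivity)
      (by have := Real.pi_pos; nlinarith)
    have h7 : 2 / Real.pi * (Real.pi * |s|) = 2 * |s| := by
      have := Real.pi_ne_zero
      field_simp
    rw [h7] at h6
    linarith
  have h4 : 0 < |s| := abs_pos.2 hs0
  have h5 : ‖fej_D N s‖ * ‖ex s - 1‖ ≤ 2 := by rw [← norm_mul, h1]; exact h2
  rw [le_div_iff₀ (by positivity)]
  have h6 := mul_le_mul_of_nonneg_left h3 (norm_nonneg (fej_D N s))
  nlinarith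

/-- the Fejer kernel -/
noncomputable def fej_k (N : ℕ) (s : ℝ) : ℝ := ‖fej_D N s‖ ^ 2 / N

theorem fej_D_cont (N : ℕ) : Continuous (fej_D N) := by
  unfold fej_D
  refine continuous_finsetSum _ fun j _ => ?_
  exact fej_ex_cont.comp (by fun_prop)

theorem fej_k_cont (N : ℕ) : Continuous (fej_k N) := by
  unfold fej_k
  exact ((fej_D_cont N).norm.pow 2).div_const _

theorem fej_k_nonneg (N : ℕ) (s : ℝ) : 0 ≤ fej_k N s := by
  unfold fej_k
  positivity

theorem fej_k_per (N : ℕ) : Function.Periodic (fej_k N) 1 := by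
  intro s
  unfold fej_k fej_D
  congr 3
  refine Finset.sum_congr rfl fun j _ => ?_
  rw [mul_add, fej_ex_add, mul_one]
  have := fej_ex_int j
  push_cast at this
  rw [this, mul_one]

theorem fej_k_le (N : ℕ) (hN : 1 ≤ N) {s : ℝ} (hs0 : s ≠ 0) (hs : |s| ≤ 1 / 2) :
    fej_k N s ≤ 1 / (4 * N) * (s ^ 2)⁻¹ := by
  unfold fej_k
  have h := fej_geom N hs0 hs
  have h1 : ‖fej_D N s‖ ^ 2 ≤ (1 / (2 * |s|)) ^ 2 := pow_le_pow_left₀ (norm_nonneg _) h 2
  have hN' : (0 : ℝ) < N := by exact_mod_cast hN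
  calc ‖fej_D N s‖ ^ 2 / N ≤ (1 / (2 * |s|)) ^ 2 / N := by gcongr
    _ = _ := by
      rw [div_pow, mul_pow, sq_abs]
      field_simp
      norm_num

theorem fej_int_ex (k : ℤ) : ∫ s in (0 : ℝ)..1, ex (k * s) = if k = 0 then 1 else 0 := by
  split_ifs with h
  · subst h
    have : ∀ s : ℝ, ex (((0 : ℤ) : ℝ) * s) = 1 := by
      intro s
      unfold ex
      simp
    simp only [this]
    simp
  · have h1 : ∀ s : ℝ, ex (k * s) = Complex.exp ((2 * Real.pi * Complex.I * k) * s) := by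
      intro s
      unfold ex
      congr 1
      push_cast
      ring
    have hc : (2 * Real.pi * Complex.I * k : ℂ) ≠ 0 := by
      have h2 : (k : ℂ) ≠ 0 := by exact_mod_cast h
      have h3 : (Real.pi : ℂ) ≠ 0 := by exact_mod_cast Real.pi_ne_zero
      exact mul_ne_zero (mul_ne_zero (mul_ne_zero two_ne_zero h3) Complex.I_ne_zero) h2
    simp only [h1]
    rw [integral_exp_mul_complex hc]
    have h2 : Complex.exp (2 * Real.pi * Complex.I * k * ((1 : ℝ) : ℂ)) = 1 := by
      rw [Complex.exp_eq_one_iff]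
      exact ⟨k, by push_cast; ring⟩
    rw [h2]
    simp

theorem fej_k_eq (N : ℕ) (hN : 1 ≤ N) (s : ℝ) :
    ((fej_k N s : ℝ) : ℂ) =
      ∑ k ∈ Finset.Ioo (-(N : ℤ)) N, ((1 - |(k : ℝ)| / N : ℝ) : ℂ) * ex (k * s) := by
  have hN' : (N : ℝ) ≠ 0 := by
    have : (0 : ℝ) < N := by exact_mod_cast hN
    exact this.ne'
  have h := fej_ident N s
  unfold fej_k
  rw [Complex.ofReal_div, ← h, Finset.sum_div]
  refine Finset.sum_congr rfl fun k _ => ?_
  rw [mul_div_right_comm]
  congr 1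
  rw [← Complex.ofReal_div]
  congr 1
  field_simp

theorem fej_k_int (N : ℕ) (hN : 1 ≤ N) : ∫ s in (0 : ℝ)..1, fej_k N s = 1 := by
  have h : ((∫ s in (0 : ℝ)..1, fej_k N s : ℝ) : ℂ) = 1 := by
    rw [← intervalIntegral.integral_ofReal]
    simp only [fej_k_eq N hN]
    rw [intervalIntegral.integral_finsetSum]
    · simp only [intervalIntegral.integral_const_mul, fej_int_ex]
      rw [Finset.sum_eq_single 0]
      · simp
      · intro k _ hk
        rw [if_neg hk, mul_zero]
      · intro h0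
        exfalso
        apply h0
        rw [Finset.mem_Ioo]
        omega
    · intro k _
      apply Continuous.intervalIntegrable
      exact continuous_const.mul (fej_ex_cont.comp (by fun_prop))
  exact_mod_cast h

theorem fej_bdd_int {F : ℝ → ℝ} (hm : Measurable F) {C : ℝ} (hb : ∀ t, |F t| ≤ C) {g : ℝ → ℝ}
    (hg : Continuous g) (a b : ℝ) : IntervalIntegrable (fun s => F s * g s) volume a b := by
  have h1 : IntervalIntegrable g volume a b := hg.intervalIntegrable a b
  refine IntervalIntegrable.mono_fun' (g := fun s => C * |g s|) ?_ ?_ ?_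
  · exact (hg.abs.intervalIntegrable a b).const_mul C
  · exact (hm.mul hg.measurable).aestronglyMeasurable
  · refine Filter.Eventually.of_forall fun s => ?_
    simp only [Real.norm_eq_abs, abs_mul]
    exact mul_le_mul_of_nonneg_right (hb s) (abs_nonneg _)

theorem fej_bdd_intC {F : ℝ → ℝ} (hm : Measurable F) {C : ℝ} (hb : ∀ t, |F t| ≤ C) {g : ℝ → ℂ}
    (hg : Continuous g) (a b : ℝ) : IntervalIntegrable (fun s => (F s : ℂ) * g s) volume a b := by
  refine IntervalIntegrable.mono_fun' (g := fun s => C * ‖g s‖) ?_ ?_ ?_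
  · exact (hg.norm.intervalIntegrable a b).const_mul C
  · exact ((Complex.measurable_ofReal.comp hm).mul hg.measurable).aestronglyMeasurable
  · refine Filter.Eventually.of_forall fun s => ?_
    simp only [norm_mul, Complex.norm_real, Real.norm_eq_abs]
    exact mul_le_mul_of_nonneg_right (hb s) (norm_nonneg _)

theorem fej_sum_eq {F : ℝ → ℝ} (hm : Measurable F) (hb : ∀ t, |F t| ≤ 1) (N : ℕ) (hN : 1 ≤ N)
    (t : ℝ) :
    ∑ k ∈ Finset.Ioo (-(N : ℤ)) N, ((1 - |(k : ℝ)| / N : ℝ) : ℂ) * fc F k * ex (k * t) =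
      ((∫ s in (0 : ℝ)..1, F s * fej_k N (t - s) : ℝ) : ℂ) := by
  rw [← intervalIntegral.integral_ofReal]
  have h1 : ∀ s : ℝ, ((F s * fej_k N (t - s) : ℝ) : ℂ) =
      ∑ k ∈ Finset.Ioo (-(N : ℤ)) N, ((1 - |(k : ℝ)| / N : ℝ) : ℂ) *
        ((F s : ℂ) * ex (-(k * s))) * ex (k * t) := by
    intro s
    rw [Complex.ofReal_mul, fej_k_eq N hN, Finset.mul_sum]
    refine Finset.sum_congr rfl fun k _ => ?_
    rw [show (k : ℝ) * (t - s) = -(k * s) + k * t by ring, fej_ex_add]
    ring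
  simp only [h1]
  rw [intervalIntegral.integral_finsetSum]
  · refine Finset.sum_congr rfl fun k _ => ?_
    rw [intervalIntegral.integral_mul_const, intervalIntegral.integral_const_mul]
    rfl
  · intro k _
    apply IntervalIntegrable.mul_const
    apply IntervalIntegrable.const_mul
    exact fej_bdd_intC hm hb (fej_ex_cont.comp (by fun_prop)) 0 1

theorem fej_shift_int {G : ℝ → ℝ} (hG : Function.Periodic G 1) (t : ℝ) :
    ∫ s in (0 : ℝ)..1, G s = ∫ u in (-(1 / 2) : ℝ)..(1 / 2), G (t - u) := by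
  rw [intervalIntegral.integral_comp_sub_left (fun x => G x) t]
  have h := hG.intervalIntegral_add_eq 0 (t - 1 / 2)
  rw [zero_add] at h
  rw [h]
  congr 1
  ring

theorem fej_tail_int {η : ℝ} (hη : 0 < η) (hη2 : η ≤ 1 / 2) :
    ∫ u in η..(1 / 2 : ℝ), (u ^ 2)⁻¹ = 1 / η - 2 := by
  have hd : ∀ u ∈ Set.uIcc η (1 / 2), HasDerivAt (fun u : ℝ => -u⁻¹) ((u ^ 2)⁻¹) u := by
    intro u hu
    rw [Set.uIcc_of_le hη2, Set.mem_Icc] at hu
    have hu0 : u ≠ 0 := by linarith [hu.1]
    have := (hasDerivAt_inv hu0).neg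
    rw [neg_neg] at this
    exact this
  rw [intervalIntegral.integral_eq_sub_of_hasDerivAt hd]
  · rw [one_div, inv_inv]
    ring
  · apply ContinuousOn.intervalIntegrable
    intro u hu
    rw [Set.uIcc_of_le hη2, Set.mem_Icc] at hu
    have hu0 : u ≠ 0 := by linarith [hu.1]
    apply ContinuousAt.continuousWithinAt
    exact (continuousAt_id.pow 2).inv₀ (by simpa using hu0)

theorem fej_tail_bd {H : ℝ → ℝ} {N : ℕ} (hN : 1 ≤ N) {η : ℝ} (hη : 0 < η) (hη2 : η ≤ 1 / 2)
    (hH : ∀ u, η ≤ u → u ≤ 1 / 2 → |H u| ≤ 2 * (1 / (4 * N) * (u ^ 2)⁻¹)) :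
    |∫ u in η..(1 / 2 : ℝ), H u| ≤ 1 / (2 * N) * (1 / η - 2) := by
  have h1 : ‖∫ u in η..(1 / 2 : ℝ), H u‖ ≤ ∫ u in η..(1 / 2 : ℝ), 1 / (2 * N) * (u ^ 2)⁻¹ := by
    apply intervalIntegral.norm_integral_le_of_norm_le hη2
    · refine Filter.Eventually.of_forall fun u hu => ?_
      rw [Real.norm_eq_abs]
      refine (hH u hu.1.le hu.2).trans (le_of_eq ?_)
      have hN' : (N : ℝ) ≠ 0 := by
        have : (0 : ℝ) < N := by exact_mod_cast hN
        exact this.ne'
      field_simp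
      norm_num
    · apply ContinuousOn.intervalIntegrable
      intro u hu
      rw [Set.uIcc_of_le hη2, Set.mem_Icc] at hu
      have hu0 : u ≠ 0 := by linarith [hu.1]
      apply ContinuousAt.continuousWithinAt
      exact continuousAt_const.mul ((continuousAt_id.pow 2).inv₀ (by simpa using hu0))
  rwa [intervalIntegral.integral_const_mul, fej_tail_int hη hη2, Real.norm_eq_abs] at h1

theorem fejer_pr {F : ℝ → ℝ} (hp : ∀ t, F (t + 1) = F t) (hm : Measurable F)
    (h1 : ∀ t, F t = 1 ∨ F t = -1) {Z : ℝ} (hZ : 1 ≤ Z) (t : ℝ) :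
    ‖∑ k ∈ KK Z, ((1 - |(k : ℝ)| / ⌈Z⌉ : ℝ) : ℂ) * fc F k * ex (k * t)‖ ≤ 1 ∧
    ∀ η σ : ℝ, 0 < η → η ≤ 1 / 2 → (∀ s : ℝ, |s - t| ≤ η → F s = σ) →
      ‖∑ k ∈ KK Z, ((1 - |(k : ℝ)| / ⌈Z⌉ : ℝ) : ℂ) * fc F k * ex (k * t) - σ‖ ≤
        1 / (Z * η) := by
  obtain ⟨N, hN⟩ : ∃ N : ℕ, ⌈Z⌉ = (N : ℤ) :=
    ⟨⌈Z⌉.toNat, by rw [Int.toNat_of_nonneg (Int.ceil_nonneg (by linarith))]⟩
  have hZN : Z ≤ N := by
    have := Int.le_ceil Z
    rw [hN] at this
    exact_mod_cast this
  have hN1 : 1 ≤ N := by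
    have : (1 : ℝ) ≤ N := hZ.trans hZN
    exact_mod_cast this
  have hN0 : (0 : ℝ) < N := by exact_mod_cast hN1
  have hb : ∀ t, |F t| ≤ 1 := by
    intro t
    rcases h1 t with h | h <;> rw [h] <;> norm_num
  have hsum := fej_sum_eq hm hb N hN1 t
  have hKK : KK Z = Finset.Ioo (-(N : ℤ)) N := by
    unfold KK
    rw [hN]
  have hcast : ((⌈Z⌉ : ℤ) : ℝ) = (N : ℝ) := by rw [hN]; simp
  rw [hKK, hcast, hsum]
  have hkc : Continuous fun s => fej_k N (t - s) := (fej_k_cont N).comp (by fun_prop)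
  have hper : Function.Periodic (fun s => fej_k N (t - s)) 1 := by
    intro s
    simp only
    rw [show t - (s + 1) = t - s - 1 by ring]
    exact (fej_k_per N).sub_eq _
  have hone : ∫ s in (0 : ℝ)..1, fej_k N (t - s) = 1 := by
    rw [fej_shift_int hper t]
    simp only [sub_sub_cancel]
    have := (fej_k_per N).intervalIntegral_add_eq (-(1 / 2)) 0
    rw [zero_add, show (-(1 / 2) : ℝ) + 1 = 1 / 2 by norm_num] at this
    exact this.trans (fej_k_int N hN1)
  refine ⟨?_, ?_⟩
  · rw [Complex.norm_real]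
    calc ‖∫ s in (0 : ℝ)..1, F s * fej_k N (t - s)‖ ≤ ∫ s in (0 : ℝ)..1, fej_k N (t - s) := by
          apply intervalIntegral.norm_integral_le_of_norm_le zero_le_one
          · refine Filter.Eventually.of_forall fun s _ => ?_
            rw [norm_mul, Real.norm_eq_abs, Real.norm_eq_abs, abs_of_nonneg (fej_k_nonneg N _)]
            exact mul_le_of_le_one_left (fej_k_nonneg N _) (hb s)
          · exact hkc.intervalIntegrable _ _
      _ = 1 := hone
  · intro η σ hη hη2 hσ
    have hσ1 : |σ| ≤ 1 := by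
      rw [← hσ t (by simpa using hη.le)]
      exact hb t
    have hm' : Measurable (fun s => F s - σ) := hm.sub_const σ
    have hb' : ∀ s, |F s - σ| ≤ 2 := by
      intro s
      refine (abs_sub _ _).trans ?_
      linarith [hb s]
    have e1 : (∫ s in (0 : ℝ)..1, F s * fej_k N (t - s)) - σ =
        ∫ s in (0 : ℝ)..1, (F s - σ) * fej_k N (t - s) := by
      have e2 : ∀ s, (F s - σ) * fej_k N (t - s) = F s * fej_k N (t - s) - σ * fej_k N (t - s) :=
        fun s => by ring
      simp only [e2]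
      rw [intervalIntegral.integral_sub (fej_bdd_int hm hb hkc 0 1)
        ((hkc.intervalIntegrable 0 1).const_mul σ), intervalIntegral.integral_const_mul, hone,
        mul_one]
    rw [← Complex.ofReal_sub, Complex.norm_real, e1]
    have hperG : Function.Periodic (fun s => (F s - σ) * fej_k N (t - s)) 1 := by
      intro s
      have := hper s
      simp only at this ⊢
      rw [this, hp]
    rw [fej_shift_int hperG t]
    simp only [sub_sub_cancel]
    obtain ⟨G, hG⟩ : ∃ G : ℝ → ℝ, G = fun u => (F (t - u) - σ) * fej_k N u := ⟨_, rfl⟩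
    have hGi : ∀ a b, IntervalIntegrable G volume a b := by
      intro a b
      rw [hG]
      exact fej_bdd_int (F := fun u => F (t - u) - σ)
        ((hm.comp (measurable_const.sub measurable_id)).sub_const σ) (fun u => hb' (t - u))
        (fej_k_cont N) a b
    have hGb : ∀ u, u ≠ 0 → |u| ≤ 1 / 2 → |G u| ≤ 2 * (1 / (4 * N) * (u ^ 2)⁻¹) := by
      intro u hu0 hu
      rw [hG]
      simp only [abs_mul]
      rw [abs_of_nonneg (fej_k_nonneg N u)]
      exact mul_le_mul (hb' _) (fej_k_le N hN1 hu0 hu) (fej_k_nonneg N u) (by norm_num)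
    have hG0 : ∀ u, |u| ≤ η → G u = 0 := by
      intro u hu
      rw [hG]
      simp only
      rw [hσ (t - u) (by rw [show t - u - t = -u by ring, abs_neg]; exact hu), sub_self, zero_mul]
    have hspl : ∫ u in (-(1 / 2) : ℝ)..(1 / 2), G u =
        (∫ u in (-(1 / 2) : ℝ)..(-η), G u) + (∫ u in (-η)..η, G u) + ∫ u in η..(1 / 2 : ℝ), G u := by
      rw [intervalIntegral.integral_add_adjacent_intervals (hGi _ _) (hGi _ _),
        intervalIntegral.integral_add_adjacent_intervals (hGi _ _) (hGi _ _)]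
    have hmid : ∫ u in (-η)..η, G u = 0 := by
      rw [intervalIntegral.integral_congr (g := fun _ => 0)]
      · simp
      · intro u hu
        rw [Set.uIcc_of_le (by linarith), Set.mem_Icc] at hu
        exact hG0 u (abs_le.2 hu)
    have hright : |∫ u in η..(1 / 2 : ℝ), G u| ≤ 1 / (2 * N) * (1 / η - 2) := by
      apply fej_tail_bd hN1 hη hη2
      intro u hu1 hu2
      apply hGb u (by linarith)
      rw [abs_of_nonneg (by linarith)]
      exact hu2
    have hleft : |∫ u in (-(1 / 2) : ℝ)..(-η), G u| ≤ 1 / (2 * N) * (1 / η - 2) := by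
      have e3 : ∫ u in (-(1 / 2) : ℝ)..(-η), G u = ∫ u in η..(1 / 2 : ℝ), G (-u) := by
        rw [intervalIntegral.integral_comp_neg]
      rw [e3]
      apply fej_tail_bd hN1 hη hη2
      intro u hu1 hu2
      have := hGb (-u) (by linarith) (by rw [abs_neg, abs_of_nonneg (by linarith)]; exact hu2)
      rwa [neg_sq] at this
    have hfun : (fun u => (F (t - u) - σ) * fej_k N u) = G := hG.symm
    rw [hfun, hspl, hmid, add_zero, Real.norm_eq_abs]
    refine (abs_add_le _ _).trans ?_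
    have h5 : 1 / (2 * N) * (1 / η - 2) + 1 / (2 * N) * (1 / η - 2) ≤ 1 / (N * η) := by
      have : 1 / (2 * N) * (1 / η - 2) + 1 / (2 * N) * (1 / η - 2) = 1 / (N * η) - 2 / N := by
        field_simp
        ring
      rw [this]
      have : 0 ≤ 2 / (N : ℝ) := by positivity
      linarith
    have h6 : 1 / (N * η) ≤ 1 / (Z * η) := by
      apply one_div_le_one_div_of_le (by positivity)
      exact mul_le_mul_of_nonneg_right hZN hη.le
    linarith

end Pool.Agent.MQ

namespace Pool.Agent.MQ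

theorem fejer : type_of% @fejer_pr := @fejer_pr

end Pool.Agent.MQ
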