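import Pool.Agent.Lib_helper39.MQ.Defs
import Pool.Agent.Lib_helper35.Var.Sieve

/-! The large sieve (block LSV) -/

namespace Pool.Agent.MQ

open Filter Topology MeasureTheory

theorem lsv_ex (t : ℝ) : ex t = Pool.Agent.Var35.e t := by
  unfold ex Pool.Agent.Var35.e
  congr 1
  push_cast
  ring

/-- the frequencies as a shifted range -/
theorem lsv_sum {M : Type} [AddCommMonoid M] {K : ℝ} (hK : 1 ≤ K) (f : ℤ → M) :
    ∑ k ∈ KK K, f k = ∑ m ∈ Finset.range (2 * ⌈K⌉₊ - 1), f ((m : ℤ) - (⌈K⌉₊ - 1 : ℕ)) := by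
  have hc : 1 ≤ ⌈K⌉₊ := Nat.one_le_ceil_iff.2 (by linarith)
  have hz : ⌈K⌉ = (⌈K⌉₊ : ℤ) := (Int.natCast_ceil_eq_ceil (by linarith)).symm
  unfold KK
  rw [hz]
  refine Finset.sum_bij' (fun k _ => (k + (⌈K⌉₊ - 1 : ℕ)).toNat)
    (fun m _ => (m : ℤ) - (⌈K⌉₊ - 1 : ℕ)) ?_ ?_ ?_ ?_ ?_
  · intro k hk
    rw [Finset.mem_Ioo] at hk
    rw [Finset.mem_range]
    omega
  · intro m hm
    rw [Finset.mem_range] at hm
    rw [Finset.mem_Ioo]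
    omega
  · intro k hk
    rw [Finset.mem_Ioo] at hk
    omega
  · intro m hm
    omega
  · intro k hk
    rw [Finset.mem_Ioo] at hk
    congr 1
    omega

theorem lsv_H {K : ℝ} (hK : 1 ≤ K) : ((2 * ⌈K⌉₊ - 1 : ℕ) : ℝ) ≤ 4 * K := by
  have hc : 1 ≤ ⌈K⌉₊ := Nat.one_le_ceil_iff.2 (by linarith)
  have h1 : ((2 * ⌈K⌉₊ - 1 : ℕ) : ℝ) ≤ 2 * (⌈K⌉₊ : ℝ) := by
    have : (2 * ⌈K⌉₊ - 1 : ℕ) ≤ 2 * ⌈K⌉₊ := Nat.sub_le _ _
    exact_mod_cast this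
  have h2 : (⌈K⌉₊ : ℝ) < K + 1 := Nat.ceil_lt_add_one (by linarith)
  linarith

theorem large_sieve_pr : ∃ C : ℝ, 0 < C ∧ ∀ {ι : Type} (s : Finset ι) (t : ι → ℝ) (δ : ℝ), 0 < δ →
    δ ≤ 1 → (∀ i ∈ s, ∀ j ∈ s, i ≠ j → ∀ n : ℤ, δ ≤ |t i - t j + n|) → ∀ K : ℝ, 1 ≤ K →
    (∀ a : ι → ℂ, ∑ k ∈ KK K, ‖∑ i ∈ s, a i * ex (k * t i)‖ ^ 2 ≤
      C * (K + 1 / δ) * ∑ i ∈ s, ‖a i‖ ^ 2) ∧
    (∀ a : ℤ → ℂ, ∑ i ∈ s, ‖∑ k ∈ KK K, a k * ex (k * t i)‖ ^ 2 ≤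
      C * (K + 1 / δ) * ∑ k ∈ KK K, ‖a k‖ ^ 2) := by
  classical
  refine ⟨88, by norm_num, ?_⟩
  intro ι s t δ hδ hδ1 hsep K hK
  set H : ℕ := 2 * ⌈K⌉₊ - 1 with hH
  set N : ℕ := ⌈K⌉₊ - 1 with hN
  have hHK : (H : ℝ) ≤ 4 * K := lsv_H hK
  have hC : 22 * ((H : ℝ) + 1 / δ) ≤ 88 * (K + 1 / δ) := by
    have : 0 < 1 / δ := by positivity
    linarith
  have hS : Pool.Agent.Var35.Sep s t δ := by
    intro i hi j hj hij n
    have := hsep i hi j hj hij (-n)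
    push_cast at this
    rwa [← sub_eq_add_neg] at this
  -- the character at a shifted frequency
  have hex : ∀ (m : ℕ) (x : ℝ), ex ((((m : ℤ) - (N : ℤ) : ℤ) : ℝ) * x) =
      Pool.Agent.Var35.e (-(N * x)) * Pool.Agent.Var35.e (m * x) := by
    intro m x
    rw [lsv_ex, ← Pool.Agent.Var35.e_add]
    congr 1
    push_cast
    ring
  constructor
  · intro a
    rw [lsv_sum hK]
    have h1 := Pool.Agent.Var35.dual_ls s t δ hδ hδ1 hS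
      (fun i => a i * Pool.Agent.Var35.e (-(N * t i))) H
    have h2 : ∑ i ∈ s, ‖a i * Pool.Agent.Var35.e (-(N * t i))‖ ^ 2 = ∑ i ∈ s, ‖a i‖ ^ 2 := by
      refine Finset.sum_congr rfl fun i _ => ?_
      rw [norm_mul, Pool.Agent.Var35.norm_e, mul_one]
    rw [h2] at h1
    refine (le_of_eq ?_).trans (h1.trans (mul_le_mul_of_nonneg_right hC
      (Finset.sum_nonneg fun _ _ => by positivity)))
    refine Finset.sum_congr rfl fun m _ => ?_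
    congr 2
    refine Finset.sum_congr rfl fun i _ => ?_
    rw [hex, mul_assoc]
  · intro a
    have h1 := Pool.Agent.Var35.large_sieve s t δ hδ hδ1 hS (fun m => a ((m : ℤ) - (N : ℤ))) H
    rw [lsv_sum hK (fun k => ‖a k‖ ^ 2)]
    refine (le_of_eq ?_).trans (h1.trans (mul_le_mul_of_nonneg_right hC
      (Finset.sum_nonneg fun _ _ => by positivity)))
    refine Finset.sum_congr rfl fun i _ => ?_
    rw [lsv_sum hK]
    have h3 : ∑ m ∈ Finset.range H, a ((m : ℤ) - (N : ℤ)) *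
        ex ((((m : ℤ) - (N : ℤ) : ℤ) : ℝ) * t i) = Pool.Agent.Var35.e (-(N * t i)) *
          ∑ m ∈ Finset.range H, a ((m : ℤ) - (N : ℤ)) * Pool.Agent.Var35.e (m * t i) := by
      rw [Finset.mul_sum]
      refine Finset.sum_congr rfl fun m _ => ?_
      rw [hex]
      ring
    rw [h3, norm_mul, Pool.Agent.Var35.norm_e, one_mul]

end Pool.Agent.MQ

namespace Pool.Agent.MQ

theorem large_sieve : type_of% @large_sieve_pr := @large_sieve_pr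

end Pool.Agent.MQ
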