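import Pool.Agent.Lib_helper39.MQ.Defs

namespace Pool.Agent.MQ

open Filter Topology MeasureTheory

theorem roo_cls {L g : ℕ} (T : Finset ℕ) (hT : ∀ t ∈ T, t < L * g)
    (h : ∀ t ∈ T, ∀ t' ∈ T, t % L = t' % L) : T.card ≤ g := by
  have h1 : T.card ≤ (Finset.range g).card := by
    refine Finset.card_le_card_of_injOn (fun t => t / L) ?_ ?_
    · intro t ht
      simp only [Finset.coe_range, Set.mem_Iio]
      exact Nat.div_lt_of_lt_mul (hT t ht)
    · intro t ht t' ht' he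
      have h2 := h t ht t' ht'
      simp only at he
      rw [← Nat.div_add_mod t L, ← Nat.div_add_mod t' L, he, h2]
  simpa using h1

theorem roo_one {B C : ℤ} {d : ℕ} (hd : 1 ≤ d) {x0 : ℕ}
    (h0 : (d : ℤ) ∣ (x0 : ℤ) ^ 2 + B * x0 + C) {d1 : ℕ} (T : Finset ℕ)
    (hT : ∀ x ∈ T, x < d ∧ (d : ℤ) ∣ (x : ℤ) ^ 2 + B * x + C ∧ Int.gcd ((x : ℤ) - x0) d = d1) :
    T.card ≤ Nat.gcd d1 (d / d1) ∧
      (T.Nonempty → ((Nat.gcd d1 (d / d1) : ℕ) : ℤ) ^ 2 ∣ B ^ 2 - 4 * C) := by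
  rcases T.eq_empty_or_nonempty with hE | ⟨y, hy⟩
  · subst hE
    simp
  obtain ⟨hy1, hy2, hy3⟩ := hT y hy
  have hd1 : d1 ∣ d := by
    rw [← hy3]
    have := Int.gcd_dvd_right ((y : ℤ) - x0) d
    exact_mod_cast this
  obtain ⟨d2, hd2⟩ := hd1
  have hd1p : 0 < d1 := by
    rcases Nat.eq_zero_or_pos d1 with h | h
    · subst h
      omega
    · exact h
  have hdd : d / d1 = d2 := by
    rw [hd2]
    exact Nat.mul_div_cancel_left _ hd1p
  rw [hdd]
  have hd2z : (d : ℤ) = d1 * d2 := by exact_mod_cast hd2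
  have hd1z : (d1 : ℤ) ≠ 0 := by exact_mod_cast hd1p.ne'
  -- every member satisfies two congruences
  have key : ∀ x ∈ T, (d1 : ℤ) ∣ (x : ℤ) - x0 ∧ (d2 : ℤ) ∣ (x : ℤ) + x0 + B := by
    intro x hx
    obtain ⟨_, hx2, hx3⟩ := hT x hx
    have h1 : (d1 : ℤ) ∣ (x : ℤ) - x0 := by
      rw [← hx3]
      exact Int.gcd_dvd_left _ _
    refine ⟨h1, ?_⟩
    obtain ⟨u, hu⟩ := h1
    have h2 : (d : ℤ) ∣ ((x : ℤ) - x0) * ((x : ℤ) + x0 + B) := by
      have h3 := dvd_sub hx2 h0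
      have h4 : ((x : ℤ) - x0) * ((x : ℤ) + x0 + B) =
        (x : ℤ) ^ 2 + B * x + C - ((x0 : ℤ) ^ 2 + B * x0 + C) := by ring
      rw [h4]
      exact h3
    rw [hd2z, hu, mul_assoc] at h2
    have h5 := (mul_dvd_mul_iff_left hd1z).1 h2
    have h6 : Int.gcd u d2 = 1 := by
      rw [hu, hd2z, Int.gcd_mul_left] at hx3
      have : d1 * Int.gcd u d2 = d1 * 1 := by simpa using hx3
      exact Nat.eq_of_mul_eq_mul_left hd1p this
    exact Int.dvd_of_dvd_mul_right_of_gcd_one h5 (by rw [Int.gcd_comm]; exact h6)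
  constructor
  · refine roo_cls (L := Nat.lcm d1 d2) T ?_ ?_
    · intro x hx
      rw [mul_comm, Nat.gcd_mul_lcm, ← hd2]
      exact (hT x hx).1
    · intro x hx x' hx'
      obtain ⟨h1, h2⟩ := key x hx
      obtain ⟨h3, h4⟩ := key x' hx'
      have h5 : (d1 : ℤ) ∣ (x' : ℤ) - x := by
        have := dvd_sub h3 h1
        have h6 : (x' : ℤ) - x0 - ((x : ℤ) - x0) = (x' : ℤ) - x := by ring
        rwa [h6] at this
      have h7 : (d2 : ℤ) ∣ (x' : ℤ) - x := by
        have := dvd_sub h4 h2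
        have h6 : (x' : ℤ) + x0 + B - ((x : ℤ) + x0 + B) = (x' : ℤ) - x := by ring
        rwa [h6] at this
      have h8 : x ≡ x' [MOD d1] := (Nat.modEq_iff_dvd).2 h5
      have h9 : x ≡ x' [MOD d2] := (Nat.modEq_iff_dvd).2 h7
      have h10 : x ≡ x' [MOD (Nat.lcm d1 d2)] := by
        rw [Nat.modEq_iff_dvd]
        have h11 : (Nat.lcm d1 d2 : ℤ) = ((Int.lcm d1 d2 : ℕ) : ℤ) := by simp [Int.lcm]
        rw [h11]
        exact Int.coe_lcm_dvd h5 h7
      exact h10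
  · intro _
    obtain ⟨h1, h2⟩ := key y hy
    have h3 : ((Nat.gcd d1 d2 : ℕ) : ℤ) ∣ (d1 : ℤ) := by exact_mod_cast Nat.gcd_dvd_left d1 d2
    have h4 : ((Nat.gcd d1 d2 : ℕ) : ℤ) ∣ (d2 : ℤ) := by exact_mod_cast Nat.gcd_dvd_right d1 d2
    have h5 : ((Nat.gcd d1 d2 : ℕ) : ℤ) ∣ 2 * (x0 : ℤ) + B := by
      have := dvd_sub (h4.trans h2) (h3.trans h1)
      have h6 : (y : ℤ) + x0 + B - ((y : ℤ) - x0) = 2 * (x0 : ℤ) + B := by ring
      rwa [h6] at this
    have h6 : ((Nat.gcd d1 d2 : ℕ) : ℤ) ^ 2 ∣ (d : ℤ) := by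
      rw [hd2z, sq]
      exact mul_dvd_mul h3 h4
    have h7 : B ^ 2 - 4 * C = (2 * (x0 : ℤ) + B) ^ 2 - 4 * ((x0 : ℤ) ^ 2 + B * x0 + C) := by ring
    rw [h7]
    exact dvd_sub (pow_dvd_pow_of_dvd h5 2) (Dvd.dvd.mul_left (h6.trans h0) 4)

theorem roo_dsc_ne {b c : ℤ} (hs : ¬ IsSquare (dsc b c)) : dsc b c ≠ 0 := by
  intro h
  rw [h] at hs
  exact hs ⟨0, by ring⟩

theorem root_card_pr (b c : ℤ) (hs : ¬ IsSquare (dsc b c)) (d : ℕ) (hd : 1 ≤ d) :
    (((Finset.range d).filter (fun t : ℕ => (d : ℤ) ∣ (t : ℤ) ^ 2 + b * t + c)).card : ℝ) ≤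
      Real.sqrt |(dsc b c : ℝ)| * tau d := by
  classical
  set T := (Finset.range d).filter (fun t : ℕ => (d : ℤ) ∣ (t : ℤ) ^ 2 + b * t + c) with hT
  rcases T.eq_empty_or_nonempty with hE | ⟨t0, ht0⟩
  · rw [hE]
    simp only [Finset.card_empty, Nat.cast_zero]
    unfold tau
    positivity
  have h0 : (d : ℤ) ∣ (t0 : ℤ) ^ 2 + b * t0 + c := (Finset.mem_filter.1 ht0).2
  have hmaps : ∀ t ∈ T, Int.gcd ((t : ℤ) - t0) d ∈ d.divisors := by
    intro t _
    rw [Nat.mem_divisors]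
    refine ⟨?_, by omega⟩
    have := Int.gcd_dvd_right ((t : ℤ) - t0) d
    exact_mod_cast this
  rw [Finset.card_eq_sum_card_fiberwise hmaps]
  push_cast
  have hb : ∀ d1 ∈ d.divisors,
      (((T.filter fun t : ℕ => Int.gcd ((t : ℤ) - t0) d = d1).card : ℕ) : ℝ) ≤
        Real.sqrt |(dsc b c : ℝ)| := by
    intro d1 _
    obtain ⟨h1, h2⟩ := roo_one hd h0 (d1 := d1)
      (T.filter fun t : ℕ => Int.gcd ((t : ℤ) - t0) d = d1) (by
        intro x hx
        rw [Finset.mem_filter, hT, Finset.mem_filter, Finset.mem_range] at hx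
        exact ⟨hx.1.1, hx.1.2, hx.2⟩)
    rcases (T.filter fun t : ℕ => Int.gcd ((t : ℤ) - t0) d = d1).eq_empty_or_nonempty with hE | hE
    · rw [hE]
      simp
    · have h3 := h2 hE
      refine le_trans (Nat.cast_le.2 h1) ?_
      refine Real.le_sqrt_of_sq_le ?_
      have h4 : ((Nat.gcd d1 (d / d1) : ℕ) : ℤ) ^ 2 ≤ |dsc b c| := by
        refine Int.le_of_dvd (abs_pos.2 (roo_dsc_ne hs)) ?_
        rw [dvd_abs]
        exact h3
      exact_mod_cast h4
  refine (Finset.sum_le_card_nsmul _ _ _ hb).trans_eq ?_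
  rw [nsmul_eq_mul, mul_comm]
  rfl

theorem roo_mul {g d : ℕ} (hg : g ∣ d) (hd : 1 ≤ d) {D : ℤ} (hD : D ≠ 0) :
    g * ((Finset.range d).filter (fun y : ℕ => (g : ℤ) ∣ D * y)).card ≤ D.natAbs * d := by
  have hgp : 0 < g := Nat.pos_of_dvd_of_pos hg hd
  set e := Nat.gcd g D.natAbs with he
  have hep : 0 < e := Nat.gcd_pos_of_pos_left _ hgp
  obtain ⟨g', hg'⟩ : e ∣ g := Nat.gcd_dvd_left _ _
  have hg'p : 0 < g' := by
    rcases Nat.eq_zero_or_pos g' with h | h
    · rw [h] at hg'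
      omega
    · exact h
  have hg'd : g' ∣ d := (Dvd.intro_left e hg'.symm).trans hg
  have h1 : ((Finset.range d).filter (fun y : ℕ => (g : ℤ) ∣ D * y)).card ≤ d / g' := by
    refine roo_cls (L := g') _ ?_ ?_
    · intro t ht
      rw [Nat.mul_div_cancel' hg'd]
      exact Finset.mem_range.1 (Finset.mem_filter.1 ht).1
    · have h2 : ∀ t ∈ (Finset.range d).filter (fun y : ℕ => (g : ℤ) ∣ D * y), t % g' = 0 := by
        intro t ht
        have h3 := (Finset.mem_filter.1 ht).2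
        have h4 : g ∣ D.natAbs * t := by
          have := Int.natAbs_dvd_natAbs.2 h3
          simpa [Int.natAbs_mul] using this
        have h5 : g' ∣ t := by
          have h6 : Nat.Coprime (g / e) (D.natAbs / e) := Nat.coprime_div_gcd_div_gcd hep
          have h7 : g / e = g' := by
            rw [hg']
            exact Nat.mul_div_cancel_left _ hep
          rw [h7] at h6
          obtain ⟨D', hD'⟩ : e ∣ D.natAbs := Nat.gcd_dvd_right _ _
          have h8 : D.natAbs / e = D' := by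
            rw [hD']
            exact Nat.mul_div_cancel_left _ hep
          rw [h8] at h6
          have h9 : e * g' ∣ e * (D' * t) := by
            rw [← mul_assoc, ← hD', ← hg']
            exact h4
          have h10 : g' ∣ D' * t := (Nat.mul_dvd_mul_iff_left hep).1 h9
          exact h6.dvd_of_dvd_mul_left h10
        exact Nat.mod_eq_zero_of_dvd h5
      intro t ht t' ht'
      rw [h2 t ht, h2 t' ht']
  calc g * ((Finset.range d).filter (fun y : ℕ => (g : ℤ) ∣ D * y)).card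
      ≤ g * (d / g') := Nat.mul_le_mul_left _ h1
    _ = e * (g' * (d / g')) := by
        conv_lhs => rw [hg']
        ring
    _ = e * d := by rw [Nat.mul_div_cancel' hg'd]
    _ ≤ D.natAbs * d := Nat.mul_le_mul_right _
        (Nat.le_of_dvd (Int.natAbs_pos.2 hD) (Nat.gcd_dvd_right _ _))

theorem root_card_two_pr (b c : ℤ) (hs : ¬ IsSquare (dsc b c)) (d : ℕ) (hd : 1 ≤ d) :
    ((((Finset.range d) ×ˢ (Finset.range d)).filter
      (fun q : ℕ × ℕ => (d : ℤ) ∣ nm b c ((q.1 : ℤ), (q.2 : ℤ)))).card : ℝ) ≤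
      |(dsc b c : ℝ)| * d * tau d := by
  classical
  have hD := roo_dsc_ne hs
  set T := ((Finset.range d) ×ˢ (Finset.range d)).filter
      (fun q : ℕ × ℕ => (d : ℤ) ∣ nm b c ((q.1 : ℤ), (q.2 : ℤ))) with hT
  -- a root for every second coordinate
  have hch : ∀ y : ℕ, ∃ x0 : ℕ, ∀ x : ℕ, (x, y) ∈ T →
      (d : ℤ) ∣ (x0 : ℤ) ^ 2 + (b * y) * x0 + c * y ^ 2 := by
    intro y
    by_cases h : ∃ x : ℕ, (x, y) ∈ T
    · obtain ⟨x, hx⟩ := h
      refine ⟨x, fun _ _ => ?_⟩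
      rw [hT, Finset.mem_filter] at hx
      have h1 := hx.2
      simp only [nm] at h1
      have h2 : (x : ℤ) ^ 2 + (b * y) * x + c * y ^ 2 =
        (x : ℤ) ^ 2 + b * x * y + c * (y : ℤ) ^ 2 := by ring
      rw [h2]
      exact h1
    · exact ⟨0, fun x hx => (h ⟨x, hx⟩).elim⟩
  choose X0 hX0 using hch
  have hmaps : ∀ q ∈ T, ((q.2 : ℕ), Int.gcd ((q.1 : ℤ) - X0 q.2) d) ∈
      (Finset.range d) ×ˢ d.divisors := by
    intro q hq
    rw [Finset.mem_product, Nat.mem_divisors]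
    refine ⟨?_, ?_, by omega⟩
    · rw [hT, Finset.mem_filter, Finset.mem_product] at hq
      exact hq.1.2
    · have := Int.gcd_dvd_right ((q.1 : ℤ) - X0 q.2) d
      exact_mod_cast this
  rw [Finset.card_eq_sum_card_fiberwise hmaps, Finset.sum_product_right]
  have hfib : ∀ d1 ∈ d.divisors, ∀ y ∈ Finset.range d,
      (T.filter fun q => (q.2, Int.gcd ((q.1 : ℤ) - X0 q.2) d) = (y, d1)).card ≤
        if ((Nat.gcd d1 (d / d1) : ℕ) : ℤ) ∣ dsc b c * y then Nat.gcd d1 (d / d1) else 0 := by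
    intro d1 _ y _
    have hcard : (T.filter fun q => (q.2, Int.gcd ((q.1 : ℤ) - X0 q.2) d) = (y, d1)).card =
        ((T.filter fun q => (q.2, Int.gcd ((q.1 : ℤ) - X0 q.2) d) = (y, d1)).image
          Prod.fst).card := by
      rw [Finset.card_image_of_injOn]
      intro q hq q' hq' he
      rw [Finset.mem_coe, Finset.mem_filter, Prod.mk.injEq] at hq hq'
      exact Prod.ext he (hq.2.1.trans hq'.2.1.symm)
    rw [hcard]
    rcases ((T.filter fun q => (q.2, Int.gcd ((q.1 : ℤ) - X0 q.2) d) = (y, d1)).image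
          Prod.fst).eq_empty_or_nonempty with hE | hE
    · rw [hE]
      simp
    · obtain ⟨x1, hx1⟩ := hE
      have hmem : ∀ x ∈ (T.filter fun q => (q.2, Int.gcd ((q.1 : ℤ) - X0 q.2) d) =
          (y, d1)).image Prod.fst, (x, y) ∈ T ∧ Int.gcd ((x : ℤ) - X0 y) d = d1 := by
        intro x hx
        rw [Finset.mem_image] at hx
        obtain ⟨q, hq, hqx⟩ := hx
        rw [Finset.mem_filter, Prod.mk.injEq] at hq
        obtain ⟨h1, h2, h3⟩ := hq
        have h4 : q = (x, y) := Prod.ext hqx h2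
        rw [h4] at h1 h3
        exact ⟨h1, h3⟩
      have h0 : (d : ℤ) ∣ (X0 y : ℤ) ^ 2 + (b * y) * X0 y + c * y ^ 2 :=
        hX0 y x1 (hmem x1 hx1).1
      obtain ⟨h1, h2⟩ := roo_one hd h0 (d1 := d1)
        ((T.filter fun q => (q.2, Int.gcd ((q.1 : ℤ) - X0 q.2) d) = (y, d1)).image Prod.fst)
        (by
          intro x hx
          obtain ⟨h3, h4⟩ := hmem x hx
          rw [hT, Finset.mem_filter, Finset.mem_product] at h3
          refine ⟨Finset.mem_range.1 h3.1.1, ?_, h4⟩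
          have h5 := h3.2
          simp only [nm] at h5
          have h6 : (x : ℤ) ^ 2 + (b * y) * x + c * y ^ 2 =
            (x : ℤ) ^ 2 + b * x * y + c * (y : ℤ) ^ 2 := by ring
          rw [h6]
          exact h5)
      have h3 := h2 ⟨x1, hx1⟩
      have h4 : ((Nat.gcd d1 (d / d1) : ℕ) : ℤ) ∣ dsc b c * y := by
        have h5 : (b * (y : ℤ)) ^ 2 - 4 * (c * (y : ℤ) ^ 2) = dsc b c * (y : ℤ) ^ 2 := by
          simp only [dsc]
          ring
        rw [h5] at h3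
        have h6 : ((Nat.gcd d1 (d / d1) : ℕ) : ℤ) ^ 2 ∣ (dsc b c * y) ^ 2 := by
          have h7 : (dsc b c * (y : ℤ)) ^ 2 = dsc b c * (dsc b c * (y : ℤ) ^ 2) := by ring
          rw [h7]
          exact Dvd.dvd.mul_left h3 _
        exact (Int.pow_dvd_pow_iff two_ne_zero).1 h6
      rw [if_pos h4]
      exact h1
  have hb : ∀ d1 ∈ d.divisors, ∑ y ∈ Finset.range d,
      (T.filter fun q => (q.2, Int.gcd ((q.1 : ℤ) - X0 q.2) d) = (y, d1)).card ≤
        (dsc b c).natAbs * d := by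
    intro d1 hd1
    refine (Finset.sum_le_sum (hfib d1 hd1)).trans ?_
    rw [← Finset.sum_filter, Finset.sum_const, smul_eq_mul, mul_comm]
    exact roo_mul ((Nat.gcd_dvd_left _ _).trans (Nat.mem_divisors.1 hd1).1) hd hD
  have hfin := Finset.sum_le_card_nsmul _ _ _ hb
  rw [smul_eq_mul] at hfin
  have hcast : ((∑ d1 ∈ d.divisors, ∑ y ∈ Finset.range d,
      (T.filter fun q => (q.2, Int.gcd ((q.1 : ℤ) - X0 q.2) d) = (y, d1)).card : ℕ) : ℝ) ≤
      ((d.divisors.card * ((dsc b c).natAbs * d) : ℕ) : ℝ) := Nat.cast_le.2 hfin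
  refine hcast.trans_eq ?_
  have h9 : (((dsc b c).natAbs : ℕ) : ℝ) = |(dsc b c : ℝ)| := by
    rw [Nat.cast_natAbs]
    push_cast
    rfl
  push_cast
  rw [h9]
  unfold tau
  ring

end Pool.Agent.MQ

namespace Pool.Agent.MQ

theorem root_card : type_of% @root_card_pr := @root_card_pr
theorem root_card_two : type_of% @root_card_two_pr := @root_card_two_pr

end Pool.Agent.MQ
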