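import Pool.Agent.Lib_helper39.MQ.Defs
import Mathlib.Data.Finset.NatDivisors

/-! Block TAU: the divisor function -/

namespace Pool.Agent.MQ

open Finset

theorem tau_mul_pr {m n : ℕ} (hm : 1 ≤ m) (hn : 1 ≤ n) : tau (m * n) ≤ tau m * tau n := by
  unfold tau
  rw [Nat.divisors_mul]
  exact_mod_cast Finset.card_mul_le

theorem tauaux_nonneg (n : ℕ) : 0 ≤ tau n := Nat.cast_nonneg _

theorem tauaux_step (k N : ℕ) : ∑ d ∈ Icc 1 N, tau d ^ (k + 1) / d ≤
    (∑ d ∈ Icc 1 N, tau d ^ k / d) ^ 2 := by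
  classical
  set T : Finset (ℕ × ℕ) := (Icc 1 N ×ˢ Icc 1 N).filter (fun p => p.1 * p.2 ≤ N) with hT
  have h1 : ∀ d ∈ Icc 1 N, tau d ^ (k + 1) / d =
      ∑ p ∈ T.filter (fun p => p.1 * p.2 = d), tau (p.1 * p.2) ^ k / ((p.1 : ℝ) * p.2) := by
    intro d hd
    rw [Finset.mem_Icc] at hd
    have h2 : T.filter (fun p => p.1 * p.2 = d) = d.divisorsAntidiagonal := by
      ext ⟨a, b⟩
      simp only [hT, Finset.mem_filter, Finset.mem_product, Finset.mem_Icc,
        Nat.mem_divisorsAntidiagonal]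
      constructor
      · rintro ⟨⟨_, _⟩, h⟩
        exact ⟨h, by omega⟩
      · rintro ⟨h, _⟩
        have ha : 1 ≤ a := by
          rcases Nat.eq_zero_or_pos a with h0 | h0
          · rw [h0, zero_mul] at h; omega
          · exact h0
        have hb : 1 ≤ b := by
          rcases Nat.eq_zero_or_pos b with h0 | h0
          · rw [h0, mul_zero] at h; omega
          · exact h0
        have h3 : a ≤ d := by rw [← h]; exact Nat.le_mul_of_pos_right a hb
        have h4 : b ≤ d := by rw [← h]; exact Nat.le_mul_of_pos_left b ha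
        exact ⟨⟨⟨⟨ha, by omega⟩, ⟨hb, by omega⟩⟩, by omega⟩, h⟩
    rw [h2]
    have h3 : ∀ p ∈ d.divisorsAntidiagonal, tau (p.1 * p.2) ^ k / ((p.1 : ℝ) * p.2) =
        tau d ^ k / d := by
      intro p hp
      have h4 := (Nat.mem_divisorsAntidiagonal.1 hp).1
      rw [← Nat.cast_mul, h4]
    rw [Finset.sum_congr rfl h3, Finset.sum_const, nsmul_eq_mul]
    have h5 : (d.divisorsAntidiagonal.card : ℝ) = tau d := by
      unfold tau
      rw [← Nat.map_div_right_divisors, Finset.card_map]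
    rw [h5, pow_succ]
    ring
  rw [Finset.sum_congr rfl h1, Finset.sum_fiberwise_of_maps_to (s := T) (t := Icc 1 N)
    (g := fun p => p.1 * p.2) (f := fun p => tau (p.1 * p.2) ^ k / ((p.1 : ℝ) * p.2))]
  · rw [sq, Finset.sum_mul_sum, ← Finset.sum_product']
    refine (Finset.sum_le_sum (g := fun p => tau p.1 ^ k / (p.1 : ℝ) * (tau p.2 ^ k / (p.2 : ℝ)))
      fun p hp => ?_).trans ?_
    · rw [hT, Finset.mem_filter, Finset.mem_product, Finset.mem_Icc, Finset.mem_Icc] at hp
      rw [div_mul_div_comm, ← mul_pow]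
      have := tau_mul_pr hp.1.1.1 hp.1.2.1
      have h0 := tauaux_nonneg (p.1 * p.2)
      gcongr
    · refine Finset.sum_le_sum_of_subset_of_nonneg (Finset.filter_subset _ _) fun p _ _ => ?_
      have h0 := tauaux_nonneg p.1
      have h1 := tauaux_nonneg p.2
      positivity
  · intro p hp
    rw [hT, Finset.mem_filter, Finset.mem_product, Finset.mem_Icc, Finset.mem_Icc] at hp
    rw [Finset.mem_Icc]
    exact ⟨Nat.mul_pos hp.1.1.1 hp.1.2.1, hp.2⟩

theorem tau_pow_sum_pr (k : ℕ) : ∃ a : ℕ, ∀ x : ℝ, 1 ≤ x →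
    ∑ d ∈ Finset.Icc 1 ⌊x⌋₊, tau d ^ k / d ≤ (1 + Real.log x) ^ a := by
  induction k with
  | zero =>
    refine ⟨1, fun x hx => ?_⟩
    have h := harmonic_floor_le_one_add_log x hx
    rw [pow_one]
    refine le_trans (le_of_eq ?_) h
    rw [harmonic_eq_sum_Icc]
    push_cast
    refine Finset.sum_congr rfl fun d _ => ?_
    rw [pow_zero, one_div]
  | succ k ih =>
    obtain ⟨a, ha⟩ := ih
    refine ⟨a * 2, fun x hx => ?_⟩
    refine (tauaux_step k _).trans ?_
    rw [pow_mul]
    have h0 : 0 ≤ ∑ d ∈ Finset.Icc 1 ⌊x⌋₊, tau d ^ k / d := by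
      refine Finset.sum_nonneg fun d _ => ?_
      have h0 := tauaux_nonneg d
      positivity
    exact pow_le_pow_left₀ h0 (ha x hx) 2

/-- both factors have at least the square root of the number of divisors -/
def tauaux_Bal (n : ℕ) : Prop := ∃ a b : ℕ, a * b = n ∧ n.divisors.card ≤ a.divisors.card ^ 2 ∧
  n.divisors.card ≤ b.divisors.card ^ 2

/-- nearly balanced -/
def tauaux_Odd (n : ℕ) : Prop := ∃ a b : ℕ, a * b = n ∧ n.divisors.card ≤ 2 * a.divisors.card ^ 2 ∧
  2 * n.divisors.card ≤ b.divisors.card ^ 2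

theorem tauaux_card {p : ℕ} (hp : p.Prime) (k : ℕ) : (p ^ k).divisors.card = k + 1 := by
  rw [Nat.divisors_prime_pow hp, Finset.card_map, Finset.card_range]

theorem tauaux_main (n : ℕ) (hn : n ≠ 0) : tauaux_Bal n ∨ tauaux_Odd n := by
  induction n using Nat.recOnPosPrimePosCoprime with
  | zero => exact absurd rfl hn
  | one => exact Or.inl ⟨1, 1, by norm_num, by simp, by simp⟩
  | prime_pow p k hp hk =>
    rcases Nat.lt_or_ge k 2 with h | h
    · have hk1 : k = 1 := by omega
      subst hk1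
      refine Or.inr ⟨1, p, by ring, ?_, ?_⟩
      · rw [tauaux_card hp]; simp
      · rw [tauaux_card hp]
        have := tauaux_card hp 1
        rw [pow_one] at this
        rw [this]; norm_num
    · refine Or.inl ⟨p ^ (k / 2), p ^ (k - k / 2), ?_, ?_, ?_⟩
      · rw [← pow_add]
        congr 1
        omega
      · rw [tauaux_card hp, tauaux_card hp]
        obtain ⟨c, hc | hc⟩ : ∃ c, k = 2 * c ∨ k = 2 * c + 1 := ⟨k / 2, by omega⟩
        · rw [show k / 2 = c by omega, hc]; nlinarith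
        · rw [show k / 2 = c by omega, hc]
          have : 1 ≤ c := by omega
          nlinarith
      · rw [tauaux_card hp, tauaux_card hp]
        obtain ⟨c, hc | hc⟩ : ∃ c, k = 2 * c ∨ k = 2 * c + 1 := ⟨k / 2, by omega⟩
        · rw [show k - k / 2 = c by omega, hc]; nlinarith
        · rw [show k - k / 2 = c + 1 by omega, hc]
          nlinarith
  | coprime m n hm1 hn1 hmn ihm ihn =>
    have hm0 : m ≠ 0 := by omega
    have hn0 : n ≠ 0 := by omega
    have key : ∀ a b c d : ℕ, a * b = m → c * d = n →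
        (a * c) * (b * d) = m * n ∧ (a * c).divisors.card = a.divisors.card * c.divisors.card ∧
          (b * d).divisors.card = b.divisors.card * d.divisors.card := by
      intro a b c d h1 h2
      have ha : a ∣ m := ⟨b, h1.symm⟩
      have hb : b ∣ m := ⟨a, by rw [mul_comm, h1]⟩
      have hc : c ∣ n := ⟨d, h2.symm⟩
      have hd : d ∣ n := ⟨c, by rw [mul_comm, h2]⟩
      refine ⟨by rw [← h1, ← h2]; ring, ?_, ?_⟩
      · exact Nat.Coprime.card_divisors_mul ((hmn.coprime_dvd_left ha).coprime_dvd_right hc)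
      · exact Nat.Coprime.card_divisors_mul ((hmn.coprime_dvd_left hb).coprime_dvd_right hd)
    have hc := Nat.Coprime.card_divisors_mul hmn
    rcases ihm hm0 with ⟨a, b, hab, h1, h2⟩ | ⟨a, b, hab, h1, h2⟩ <;>
    rcases ihn hn0 with ⟨c, d, hcd, h3, h4⟩ | ⟨c, d, hcd, h3, h4⟩
    · obtain ⟨k1, k2, k3⟩ := key a b c d hab hcd
      refine Or.inl ⟨a * c, b * d, k1, ?_, ?_⟩
      · rw [hc, k2, mul_pow]; exact Nat.mul_le_mul h1 h3
      · rw [hc, k3, mul_pow]; exact Nat.mul_le_mul h2 h4
    · obtain ⟨k1, k2, k3⟩ := key a b c d hab hcd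
      refine Or.inr ⟨a * c, b * d, k1, ?_, ?_⟩
      · rw [hc, k2, mul_pow]
        calc _ ≤ a.divisors.card ^ 2 * (2 * c.divisors.card ^ 2) := Nat.mul_le_mul h1 h3
          _ = _ := by ring
      · rw [hc, k3, mul_pow]
        calc _ = m.divisors.card * (2 * n.divisors.card) := by ring
          _ ≤ _ := Nat.mul_le_mul h2 h4
    · obtain ⟨k1, k2, k3⟩ := key a b c d hab hcd
      refine Or.inr ⟨a * c, b * d, k1, ?_, ?_⟩
      · rw [hc, k2, mul_pow]
        calc _ ≤ (2 * a.divisors.card ^ 2) * c.divisors.card ^ 2 := Nat.mul_le_mul h1 h3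
          _ = _ := by ring
      · rw [hc, k3, mul_pow]
        calc _ = (2 * m.divisors.card) * n.divisors.card := by ring
          _ ≤ _ := Nat.mul_le_mul h2 h4
    · have hdc : d * c = n := by rw [mul_comm, hcd]
      obtain ⟨k1, k2, k3⟩ := key a b d c hab hdc
      refine Or.inl ⟨a * d, b * c, k1, ?_, ?_⟩
      · rw [hc, k2, mul_pow]
        have h5 := Nat.mul_le_mul h1 h4
        have h6 : m.divisors.card * (2 * n.divisors.card) = 2 * (m.divisors.card * n.divisors.card) :=
          by ring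
        have h7 : 2 * a.divisors.card ^ 2 * d.divisors.card ^ 2 =
          2 * (a.divisors.card ^ 2 * d.divisors.card ^ 2) := by ring
        omega
      · rw [hc, k3, mul_pow]
        have h5 := Nat.mul_le_mul h2 h3
        have h6 : 2 * m.divisors.card * n.divisors.card = 2 * (m.divisors.card * n.divisors.card) :=
          by ring
        have h7 : b.divisors.card ^ 2 * (2 * c.divisors.card ^ 2) =
          2 * (b.divisors.card ^ 2 * c.divisors.card ^ 2) := by ring
        omega

theorem tau_half_pr {n : ℕ} (hn : 1 ≤ n) :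
    ∃ d : ℕ, d ∣ n ∧ d ^ 2 ≤ n ∧ tau n ≤ 2 * tau d ^ 2 := by
  have key : ∃ a b : ℕ, a * b = n ∧ n.divisors.card ≤ 2 * a.divisors.card ^ 2 ∧
      n.divisors.card ≤ 2 * b.divisors.card ^ 2 := by
    rcases tauaux_main n (by omega) with ⟨a, b, hab, h1, h2⟩ | ⟨a, b, hab, h1, h2⟩
    · exact ⟨a, b, hab, by omega, by omega⟩
    · exact ⟨a, b, hab, h1, by omega⟩
  obtain ⟨a, b, hab, h1, h2⟩ := key
  unfold tau
  rcases le_total a b with h | h
  · refine ⟨a, ⟨b, hab.symm⟩, ?_, by exact_mod_cast h1⟩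
    rw [sq, ← hab]
    exact Nat.mul_le_mul_left a h
  · refine ⟨b, ⟨a, by rw [mul_comm, hab]⟩, ?_, by exact_mod_cast h2⟩
    rw [sq, ← hab]
    exact Nat.mul_le_mul_right b h

end Pool.Agent.MQ

namespace Pool.Agent.MQ

theorem tau_mul : type_of% @tau_mul_pr := @tau_mul_pr
theorem tau_pow_sum : type_of% @tau_pow_sum_pr := @tau_pow_sum_pr
theorem tau_half : type_of% @tau_half_pr := @tau_half_pr

end Pool.Agent.MQ
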