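import Pool.Agent.Lib_helper39.MQ.Defs
import Pool.Agent.Lib_helper39.MQX.ROO
import Pool.Agent.Lib_helper39.MQX.SBA
import Pool.Agent.Lib_helper39.MQX.SBB
import Pool.Agent.Lib_helper39.MQX.TAU

namespace Pool.Agent.MQ

open Filter Topology MeasureTheory

theorem mob_abs {x R : ℝ} {y : ℝ} (h : x ^ 2 + y ^ 2 ≤ R ^ 2) (hR : 0 ≤ R) : |x| ≤ R := by
  refine abs_le_of_sq_le_sq ?_ hR
  nlinarith [sq_nonneg y]

theorem mob_div {x : ℤ} {R : ℝ} {d N : ℕ} (hd : 1 ≤ d) (hx : |(x : ℝ)| ≤ R)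
    (hN : R / d < N) : x / (d : ℤ) ∈ Finset.Icc (-(N : ℤ)) N := by
  have hdp : (0 : ℝ) < d := by exact_mod_cast hd
  have hdz : (0 : ℤ) < d := by exact_mod_cast hd
  have h1 : R < N * d := by
    rwa [div_lt_iff₀ hdp] at hN
  have h2 := abs_le.1 hx
  have h3 : x < N * d := by
    have : (x : ℝ) < N * d := lt_of_le_of_lt h2.2 h1
    exact_mod_cast this
  have h4 : -((N : ℤ) * d) < x := by
    have : -((N : ℝ) * d) < x := by linarith
    exact_mod_cast this
  rw [Finset.mem_Icc]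
  constructor
  · rw [Int.le_ediv_iff_mul_le hdz]
    linarith
  · have : x / (d : ℤ) < N := by
      rw [Int.ediv_lt_iff_lt_mul hdz]
      exact h3
    exact this.le

theorem mob_count {b c : ℤ} (hs : ¬ IsSquare (dsc b c)) {d : ℕ} (hd : 1 ≤ d) {R : ℝ}
    (hR : (d : ℝ) ≤ R) (Q : Finset El)
    (hQ : ∀ v ∈ Q, (v.1 : ℝ) ^ 2 + (v.2 : ℝ) ^ 2 ≤ R ^ 2 ∧ (d : ℤ) ∣ nm b c v) :
    (Q.card : ℝ) ≤ 25 * |(dsc b c : ℝ)| * R ^ 2 * (tau d / d) := by
  classical
  have hdp : (0 : ℝ) < d := by exact_mod_cast hd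
  have hdz : (0 : ℤ) < d := by exact_mod_cast hd
  have hR0 : 0 ≤ R := hdp.le.trans hR
  set N : ℕ := ⌊R / d⌋₊ + 1 with hN
  have hN1 : R / d < N := by
    rw [hN]
    push_cast
    exact Nat.lt_floor_add_one _
  have hN2 : (N : ℝ) ≤ R / d + 1 := by
    rw [hN]
    push_cast
    have := Nat.floor_le (a := R / d) (by positivity)
    linarith
  have hRd : 1 ≤ R / d := by
    rw [le_div_iff₀ hdp]
    linarith
  set T := ((Finset.range d) ×ˢ (Finset.range d)).filter
      (fun q : ℕ × ℕ => (d : ℤ) ∣ nm b c ((q.1 : ℤ), (q.2 : ℤ))) with hT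
  have hT2 := root_card_two b c hs d hd
  rw [← hT] at hT2
  set I := Finset.Icc (-(N : ℤ)) N with hI
  have hIc : I.card = 2 * N + 1 := by
    rw [hI, Int.card_Icc]
    omega
  have hcard : Q.card ≤ (T ×ˢ (I ×ˢ I)).card := by
    refine Finset.card_le_card_of_injOn
      (fun v => (((v.1 % (d : ℤ)).toNat, (v.2 % (d : ℤ)).toNat), (v.1 / (d : ℤ), v.2 / (d : ℤ))))
      ?_ ?_
    · intro v hv
      obtain ⟨h1, h2⟩ := hQ v hv
      have ha : |(v.1 : ℝ)| ≤ R := mob_abs h1 hR0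
      have hb : |(v.2 : ℝ)| ≤ R := mob_abs (y := (v.1 : ℝ)) (by linarith) hR0
      have e1 : (((v.1 % (d : ℤ)).toNat : ℕ) : ℤ) = v.1 % (d : ℤ) :=
        Int.toNat_of_nonneg (Int.emod_nonneg _ hdz.ne')
      have e2 : (((v.2 % (d : ℤ)).toNat : ℕ) : ℤ) = v.2 % (d : ℤ) :=
        Int.toNat_of_nonneg (Int.emod_nonneg _ hdz.ne')
      have l1 := Int.emod_lt_of_pos v.1 hdz
      have l2 := Int.emod_lt_of_pos v.2 hdz
      rw [Finset.mem_coe, Finset.mem_product, Finset.mem_product, hT, Finset.mem_filter,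
        Finset.mem_product, Finset.mem_range, Finset.mem_range]
      refine ⟨⟨⟨?_, ?_⟩, ?_⟩, mob_div hd ha hN1, mob_div hd hb hN1⟩
      · show (v.1 % (d : ℤ)).toNat < d
        omega
      · show (v.2 % (d : ℤ)).toNat < d
        omega
      · show (d : ℤ) ∣ nm b c ((((v.1 % (d : ℤ)).toNat : ℕ) : ℤ), (((v.2 % (d : ℤ)).toNat : ℕ) : ℤ))
        rw [e1, e2]
        have m1 : v.1 % (d : ℤ) ≡ v.1 [ZMOD d] := Int.mod_modEq _ _
        have m2 : v.2 % (d : ℤ) ≡ v.2 [ZMOD d] := Int.mod_modEq _ _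
        have m3 : nm b c (v.1 % (d : ℤ), v.2 % (d : ℤ)) ≡ nm b c v [ZMOD d] := by
          simp only [nm]
          exact ((m1.pow 2).add (((Int.ModEq.refl b).mul m1).mul m2)).add
            ((Int.ModEq.refl c).mul (m2.pow 2))
        exact m3.dvd_iff.2 h2
    · intro v _ w _ he
      simp only [Prod.mk.injEq] at he
      obtain ⟨⟨e1, e2⟩, e3, e4⟩ := he
      have f1 : v.1 % (d : ℤ) = w.1 % (d : ℤ) := by
        have := congrArg (fun n : ℕ => (n : ℤ)) e1
        simp only [Int.toNat_of_nonneg (Int.emod_nonneg _ hdz.ne')] at this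
        exact this
      have f2 : v.2 % (d : ℤ) = w.2 % (d : ℤ) := by
        have := congrArg (fun n : ℕ => (n : ℤ)) e2
        simp only [Int.toNat_of_nonneg (Int.emod_nonneg _ hdz.ne')] at this
        exact this
      refine Prod.ext ?_ ?_
      · rw [← Int.mul_ediv_add_emod v.1 d, ← Int.mul_ediv_add_emod w.1 d, e3, f1]
      · rw [← Int.mul_ediv_add_emod v.2 d, ← Int.mul_ediv_add_emod w.2 d, e4, f2]
  rw [Finset.card_product, Finset.card_product, hIc] at hcard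
  have h1 : (Q.card : ℝ) ≤ (T.card : ℝ) * ((2 * N + 1) * (2 * N + 1)) := by
    exact_mod_cast hcard
  have h2 : (2 * (N : ℝ) + 1) ≤ 5 * (R / d) := by linarith
  have h3 : (0 : ℝ) ≤ 2 * N + 1 := by positivity
  have htau : 0 ≤ tau d := by
    unfold tau
    positivity
  calc (Q.card : ℝ) ≤ (T.card : ℝ) * ((2 * N + 1) * (2 * N + 1)) := h1
    _ ≤ (|(dsc b c : ℝ)| * d * tau d) * ((5 * (R / d)) * (5 * (R / d))) := by
        refine mul_le_mul hT2 (mul_le_mul h2 h2 h3 (by positivity)) (by positivity)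
          (by positivity)
    _ = 25 * |(dsc b c : ℝ)| * R ^ 2 * (tau d / d) := by
        field_simp
        ring

theorem mom_two_pr (k : ℕ) : ∃ a : ℕ, ∀ (b c : ℤ) (S : Sys b c), ¬ IsSquare (dsc b c) →
    ∃ C : ℝ, 1 ≤ C ∧ ∀ X : ℝ, 1 ≤ X → ∑ v ∈ S.MF X, tau (nm b c v).natAbs ^ k ≤
      C * X * (1 + Real.log X) ^ a := by
  classical
  obtain ⟨a, ha⟩ := tau_pow_sum (2 * k + 1)
  refine ⟨a, fun b c S hs => ?_⟩
  obtain ⟨C1, hC1, hsz⟩ := wd_size S
  set M : ℝ := 2 ^ k * (25 * |(dsc b c : ℝ)| * C1) with hM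
  have hM0 : 0 ≤ M := by positivity
  refine ⟨max 1 M, le_max_left _ _, fun X hX => ?_⟩
  have hX0 : (0 : ℝ) ≤ X := by linarith
  have hsX : 1 ≤ Real.sqrt X := by
    rw [Real.le_sqrt' one_pos]
    linarith
  have htau : ∀ n : ℕ, 0 ≤ tau n := fun n => by
    unfold tau
    positivity
  set J := Finset.Icc 1 ⌊Real.sqrt X⌋₊ with hJ
  -- pointwise bound
  have hpt : ∀ v ∈ S.MF X, tau (nm b c v).natAbs ^ k ≤
      ∑ d ∈ J, if (d : ℤ) ∣ nm b c v then 2 ^ k * tau d ^ (2 * k) else 0 := by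
    intro v hv
    rw [mem_MF] at hv
    have hpos := wd_nm S hv.1
    set n := (nm b c v).natAbs with hn
    have hnz : (n : ℤ) = nm b c v := by
      rw [hn]
      exact Int.natAbs_of_nonneg hpos.le
    have hn1 : 1 ≤ n := by omega
    have hnX : (n : ℝ) ≤ X := by
      have : ((n : ℤ) : ℝ) ≤ X := by
        rw [hnz]
        exact hv.2
      exact_mod_cast this
    obtain ⟨d, hd1, hd2, hd3⟩ := tau_half hn1
    have hdpos : 1 ≤ d := Nat.pos_of_dvd_of_pos hd1 hn1
    have hdJ : d ∈ J := by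
      rw [hJ, Finset.mem_Icc]
      refine ⟨hdpos, Nat.le_floor ?_⟩
      refine Real.le_sqrt_of_sq_le ?_
      have : ((d ^ 2 : ℕ) : ℝ) ≤ n := Nat.cast_le.2 hd2
      push_cast at this
      linarith
    have hdv : (d : ℤ) ∣ nm b c v := by
      rw [← hnz]
      exact_mod_cast hd1
    have h1 : tau n ^ k ≤ 2 ^ k * tau d ^ (2 * k) := by
      calc tau n ^ k ≤ (2 * tau d ^ 2) ^ k := pow_le_pow_left₀ (htau n) hd3 k
        _ = 2 ^ k * tau d ^ (2 * k) := by
            rw [mul_pow, ← pow_mul]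
    refine h1.trans ?_
    have h2 : 2 ^ k * tau d ^ (2 * k) =
        if (d : ℤ) ∣ nm b c v then 2 ^ k * tau d ^ (2 * k) else 0 := by
      rw [if_pos hdv]
    rw [h2]
    refine Finset.single_le_sum (f := fun d : ℕ => if (d : ℤ) ∣ nm b c v then
      2 ^ k * tau d ^ (2 * k) else 0) (fun i _ => ?_) hdJ
    have := htau i
    show (0 : ℝ) ≤ if (i : ℤ) ∣ nm b c v then 2 ^ k * tau i ^ (2 * k) else 0
    split_ifs
    · positivity
    · exact le_rfl
  have hcnt : ∀ d ∈ J, (((S.MF X).filter fun v => (d : ℤ) ∣ nm b c v).card : ℝ) ≤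
      25 * |(dsc b c : ℝ)| * C1 * X * (tau d / d) := by
    intro d hd
    rw [hJ, Finset.mem_Icc] at hd
    have h1 : (d : ℝ) ≤ Real.sqrt X :=
      (Nat.cast_le.2 hd.2).trans (Nat.floor_le (Real.sqrt_nonneg _))
    have h2 : Real.sqrt X ≤ Real.sqrt (C1 * X) := Real.sqrt_le_sqrt (by nlinarith)
    have hsq : Real.sqrt (C1 * X) ^ 2 = C1 * X := Real.sq_sqrt (by positivity)
    have h3 := mob_count hs hd.1 (R := Real.sqrt (C1 * X)) (h1.trans h2)
      ((S.MF X).filter fun v => (d : ℤ) ∣ nm b c v) (by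
        intro v hv
        rw [Finset.mem_filter, mem_MF] at hv
        refine ⟨?_, hv.2⟩
        rw [hsq]
        refine (hsz v hv.1.1).trans ?_
        exact mul_le_mul_of_nonneg_left hv.1.2 (by linarith))
    rw [hsq] at h3
    refine h3.trans_eq ?_
    ring
  have h1 : ∑ v ∈ S.MF X, tau (nm b c v).natAbs ^ k ≤
      ∑ d ∈ J, M * X * (tau d ^ (2 * k + 1) / d) := by
    refine (Finset.sum_le_sum hpt).trans ?_
    rw [Finset.sum_comm]
    refine Finset.sum_le_sum fun d hd => ?_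
    rw [← Finset.sum_filter, Finset.sum_const, nsmul_eq_mul]
    have h2 : 0 ≤ 2 ^ k * tau d ^ (2 * k) := by
      have := htau d
      positivity
    refine (mul_le_mul_of_nonneg_right (hcnt d hd) h2).trans_eq ?_
    rw [hM]
    ring
  have h2 : ∑ d ∈ J, M * X * (tau d ^ (2 * k + 1) / d) ≤ M * X * (1 + Real.log X) ^ a := by
    rw [← Finset.mul_sum]
    refine mul_le_mul_of_nonneg_left ?_ (by positivity)
    refine (ha _ hsX).trans ?_
    have hlog : Real.log (Real.sqrt X) ≤ Real.log X := by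
      rw [Real.log_sqrt hX0]
      have := Real.log_nonneg hX
      linarith
    have hlog0 : 0 ≤ Real.log (Real.sqrt X) := Real.log_nonneg hsX
    exact pow_le_pow_left₀ (by linarith) (by linarith) a
  refine h1.trans (h2.trans ?_)
  have hlog0 : 0 ≤ Real.log X := Real.log_nonneg hX
  refine mul_le_mul_of_nonneg_right ?_ (by positivity)
  exact mul_le_mul_of_nonneg_right (le_max_right _ _) hX0

end Pool.Agent.MQ

namespace Pool.Agent.MQ

theorem mom_two : type_of% @mom_two_pr := @mom_two_pr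

end Pool.Agent.MQ
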