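import Pool.Agent.Lib_helper39.MQ.Defs
import Pool.Agent.Lib_helper39.MQX.ALG
import Pool.Agent.Lib_helper39.MQX.ROO
import Pool.Agent.Lib_helper39.MQX.SBA
import Pool.Agent.Lib_helper39.MQX.SBB

/-! MQ, block REP: the number of elements of given norm. -/

namespace Pool.Agent.MQ

open Filter Topology MeasureTheory

/-- a primitive element of norm `d` gives a root modulo `d` -/
theorem rep_root {b c : ℤ} {v : El} {d : ℕ} (hd : 1 ≤ d) (hg : Int.gcd v.1 v.2 = 1)
    (hn : nm b c v = d) : ∃ t : ℕ, t < d ∧ (d : ℤ) ∣ (t : ℤ) ^ 2 + b * t + c ∧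
      (d : ℤ) ∣ v.1 - t * v.2 := by
  have hco : IsCoprime v.1 v.2 := Int.isCoprime_iff_gcd_eq_one.mpr hg
  have h2 : IsCoprime (v.1 ^ 2 + v.2 * (b * v.1 + c * v.2)) v.2 :=
    (IsCoprime.pow_left hco).add_mul_left_left _
  have hdv : v.1 ^ 2 + v.2 * (b * v.1 + c * v.2) = (d : ℤ) := by
    rw [← hn, nm]; ring
  rw [hdv] at h2
  obtain ⟨y, x, hxy⟩ := h2
  -- y * d + x * v.2 = 1
  have hdpos : (0 : ℤ) < d := by exact_mod_cast hd
  set t0 : ℤ := v.1 * x with ht0
  have hr := Int.emod_add_mul_ediv t0 (d : ℤ)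
  set k := t0 / (d : ℤ) with hk
  set t1 := t0 % (d : ℤ) with ht1
  have hnn : 0 ≤ t1 := Int.emod_nonneg _ hdpos.ne'
  have hlt : t1 < d := Int.emod_lt_of_pos _ hdpos
  obtain ⟨t, ht⟩ := Int.eq_ofNat_of_zero_le hnn
  refine ⟨t, by rw [ht] at hlt; exact_mod_cast hlt, ?_, ?_⟩
  · have h0 : (d : ℤ) ∣ t0 ^ 2 + b * t0 + c := by
      refine ⟨x ^ 2 + b * t0 * y + 2 * c * y - c * y ^ 2 * d, ?_⟩
      have e1 : t0 ^ 2 + b * t0 * (x * v.2) + c * (x * v.2) ^ 2 = x ^ 2 * d := by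
        rw [← hdv, ht0]; ring
      have e2 : x * v.2 = 1 - y * d := by linarith
      rw [e2] at e1
      linear_combination e1
    have h1 : (d : ℤ) ∣ t0 - t := by
      refine ⟨k, ?_⟩
      rw [← ht]; linarith
    have h3 : (t : ℤ) ^ 2 + b * t + c = (t0 ^ 2 + b * t0 + c) - (t0 - t) * (t0 + t + b) := by
      ring
    rw [h3]
    exact dvd_sub h0 (Dvd.dvd.mul_right h1 _)
  · have h1 : (d : ℤ) ∣ t0 - t := by
      refine ⟨k, ?_⟩
      rw [← ht]; linarith
    have h4 : v.1 - t * v.2 = (v.1 - t0 * v.2) + (t0 - t) * v.2 := by ring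
    rw [h4]
    refine dvd_add ⟨v.1 * y, ?_⟩ (Dvd.dvd.mul_right h1 _)
    rw [ht0]
    linear_combination (-v.1) * hxy

/-- two elements with the same root differ by an element of norm one -/
theorem rep_unit {b c : ℤ} {v w : El} {d : ℕ} (hd : 1 ≤ d) {t : ℤ}
    (hnv : nm b c v = d) (hnw : nm b c w = d) (ht : (d : ℤ) ∣ t ^ 2 + b * t + c)
    (hv : (d : ℤ) ∣ v.1 - t * v.2) (hw : (d : ℤ) ∣ w.1 - t * w.2) :
    ∃ o : El, nm b c o = 1 ∧ w = ml b c o v := by
  have hdpos : (0 : ℤ) < d := by exact_mod_cast hd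
  have hdt : (d : ℤ) ∣ dt v w := by
    have : dt v w = (v.1 - t * v.2) * w.2 - v.2 * (w.1 - t * w.2) := by rw [dt]; ring
    rw [this]
    exact dvd_sub (Dvd.dvd.mul_right hv _) (Dvd.dvd.mul_left hw _)
  have hbl : (d : ℤ) ∣ bl b c v w := by
    have : bl b c v w = (v.1 - t * v.2) * w.1 + (t * v.2 + b * v.2) * (w.1 - t * w.2) +
        v.2 * w.2 * (t ^ 2 + b * t + c) := by rw [bl]; ring
    rw [this]
    exact dvd_add (dvd_add (Dvd.dvd.mul_right hv _) (Dvd.dvd.mul_left hw _))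
      (Dvd.dvd.mul_left ht _)
  obtain ⟨o1, h1⟩ := hbl
  obtain ⟨o2, h2⟩ := hdt
  have hb := nm_bl b c v w
  rw [h1, h2, hnv, hnw] at hb
  have ho : nm b c (o1, o2) = 1 := by
    have h3 : (d : ℤ) ^ 2 * (nm b c (o1, o2) - 1) = 0 := by
      simp only [nm]
      linear_combination (-1 : ℤ) * hb
    rcases mul_eq_zero.mp h3 with h4 | h4
    · exact absurd h4 (by positivity)
    · linarith
  refine ⟨(o1, o2), ho, ?_⟩
  have hne : nm b c (cj b v) ≠ 0 := by rw [nm_cj, hnv]; exact hdpos.ne'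
  apply ml_cancel b c (cj b v) w (ml b c (o1, o2) v) hne
  rw [ml_cj, h1, h2, ml_comm b c (o1, o2) v, ← ml_assoc, ml_cj_self, ml_scal, hnv]

theorem rep_tau_le {m n : ℕ} (hn : n ≠ 0) (h : m ∣ n) : tau m ≤ tau n := by
  unfold tau
  exact_mod_cast Finset.card_le_card (Nat.divisors_subset_of_dvd hn h)

/-- the primitive elements of given norm -/
theorem rep_prim {b c : ℤ} (S : Sys b c) (hs : ¬ IsSquare (dsc b c)) (d : ℕ) (hd : 1 ≤ d)
    (Q : Finset El) (hQ : ∀ v ∈ Q, S.wd v ∧ nm b c v = d ∧ Int.gcd v.1 v.2 = 1) :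
    (Q.card : ℝ) ≤ ((S.MF 1).card : ℝ) * (Real.sqrt |(dsc b c : ℝ)| * tau d) := by
  classical
  have hex : ∀ v : El, ∃ t : ℕ, v ∈ Q → t < d ∧ (d : ℤ) ∣ (t : ℤ) ^ 2 + b * t + c ∧
      (d : ℤ) ∣ v.1 - t * v.2 := by
    intro v
    by_cases hv : v ∈ Q
    · obtain ⟨t, ht⟩ := rep_root hd (hQ v hv).2.2 (hQ v hv).2.1
      exact ⟨t, fun _ => ht⟩
    · exact ⟨0, fun h => absurd h hv⟩
  choose f hf using hex
  have h1 : Q.card ≤ (S.MF 1).card * (Q.image f).card := by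
    apply Finset.card_le_mul_card_image
    intro t ht
    obtain ⟨v, hv, hvt⟩ := Finset.mem_image.mp ht
    obtain ⟨ht1, ht2, ht3⟩ := hf v hv
    rw [hvt] at ht1 ht2 ht3
    have hex2 : ∀ w : El, ∃ o : El, w ∈ Q.filter (fun x => f x = t) →
        nm b c o = 1 ∧ w = ml b c o v := by
      intro w
      by_cases hw : w ∈ Q.filter (fun x => f x = t)
      · obtain ⟨hwQ, hwt⟩ := Finset.mem_filter.mp hw
        obtain ⟨-, -, hw3⟩ := hf w hwQ
        rw [hwt] at hw3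
        obtain ⟨o, ho⟩ := rep_unit hd (hQ v hv).2.1 (hQ w hwQ).2.1 ht2 ht3 hw3
        exact ⟨o, fun _ => ho⟩
      · exact ⟨(1, 0), fun h => absurd h hw⟩
    choose o ho using hex2
    have hvpos : 0 < nm b c v := by
      rw [(hQ v hv).2.1]; exact_mod_cast hd
    apply Finset.card_le_card_of_injOn (fun w => S.rp (o w))
    · intro w hw
      have hw' : w ∈ Q.filter (fun x => f x = t) := hw
      obtain ⟨h1, h2⟩ := ho w hw'
      have hpos : 0 < nm b c (o w) := by rw [h1]; norm_num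
      rw [Finset.mem_coe, mem_MF]
      refine ⟨S.rp_wd _ hpos, ?_⟩
      rw [rp_nm S hpos, h1]; norm_num
    · intro w hw w' hw' hEq
      have hw1 : w ∈ Q.filter (fun x => f x = t) := hw
      have hw1' : w' ∈ Q.filter (fun x => f x = t) := hw'
      obtain ⟨h1, h2⟩ := ho w hw1
      obtain ⟨h1', h2'⟩ := ho w' hw1'
      have hpos : 0 < nm b c (o w) := by rw [h1]; norm_num
      have hpos' : 0 < nm b c (o w') := by rw [h1']; norm_num
      have e1 : S.rp w = S.rp (ml b c (S.rp (o w)) v) := by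
        rw [rp_ml_rp S hpos hvpos, ← h2]
      have e2 : S.rp w' = S.rp (ml b c (S.rp (o w')) v) := by
        rw [rp_ml_rp S hpos' hvpos, ← h2']
      have hEq' : S.rp (o w) = S.rp (o w') := hEq
      rw [S.rp_self w (hQ w (Finset.mem_filter.mp hw1).1).1] at e1
      rw [S.rp_self w' (hQ w' (Finset.mem_filter.mp hw1').1).1] at e2
      rw [e1, e2, hEq']
  have h2 : (Q.image f).card ≤
      ((Finset.range d).filter (fun t : ℕ => (d : ℤ) ∣ (t : ℤ) ^ 2 + b * t + c)).card := by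
    apply Finset.card_le_card
    intro t ht
    obtain ⟨v, hv, hvt⟩ := Finset.mem_image.mp ht
    obtain ⟨ht1, ht2, -⟩ := hf v hv
    rw [hvt] at ht1 ht2
    exact Finset.mem_filter.mpr ⟨Finset.mem_range.mpr ht1, ht2⟩
  have h3 := root_card b c hs d hd
  calc (Q.card : ℝ) ≤ ((S.MF 1).card : ℝ) * ((Q.image f).card : ℝ) := by exact_mod_cast h1
    _ ≤ ((S.MF 1).card : ℝ) * (Real.sqrt |(dsc b c : ℝ)| * tau d) := by
        apply mul_le_mul_of_nonneg_left _ (Nat.cast_nonneg _)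
        exact le_trans (by exact_mod_cast h2) h3

/-- the primitive part -/
noncomputable def rep_pp (v : El) : El :=
  (v.1 / (Int.gcd v.1 v.2 : ℤ), v.2 / (Int.gcd v.1 v.2 : ℤ))

theorem rep_pp_spec {v : El} (h : Int.gcd v.1 v.2 ≠ 0) :
    v = sm (Int.gcd v.1 v.2) (rep_pp v) ∧ Int.gcd (rep_pp v).1 (rep_pp v).2 = 1 := by
  constructor
  · apply Prod.ext
    · simp only [sm, rep_pp]
      exact (Int.mul_ediv_cancel' (Int.gcd_dvd_left _ _)).symm
    · simp only [sm, rep_pp]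
      exact (Int.mul_ediv_cancel' (Int.gcd_dvd_right _ _)).symm
  · simp only [rep_pp]
    exact Int.gcd_div_gcd_div_gcd (Nat.pos_of_ne_zero h)

theorem rep_nm_sm (b c : ℤ) (k : ℕ) (v : El) : nm b c (sm k v) = (k : ℤ) ^ 2 * nm b c v := by
  simp only [nm, sm]; ring

theorem rep_card_pr {b c : ℤ} (S : Sys b c) (hs : ¬ IsSquare (dsc b c)) : ∃ C : ℝ, 1 ≤ C ∧
    ∀ (d : ℕ) (Q : Finset El), 1 ≤ d → (∀ v ∈ Q, S.wd v ∧ nm b c v = d) →
      (Q.card : ℝ) ≤ C * tau d ^ 2 := by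
  classical
  set M : ℝ := ((S.MF 1).card : ℝ) with hM
  set r : ℝ := Real.sqrt |(dsc b c : ℝ)| with hr
  refine ⟨1 + M * r, ?_, ?_⟩
  · have : 0 ≤ M * r := by positivity
    linarith
  intro d Q hd hQ
  have hd0 : d ≠ 0 := by omega
  have hgne : ∀ v ∈ Q, Int.gcd v.1 v.2 ≠ 0 := by
    intro v hv h0
    have h1 := (hQ v hv).2
    rw [Int.gcd_eq_zero_iff] at h0
    rw [nm, h0.1, h0.2] at h1
    simp at h1
    omega
  -- the fibres of the gcd
  have hfib : ∀ g ∈ Q.image (fun v => Int.gcd v.1 v.2),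
      ((Q.filter (fun v => Int.gcd v.1 v.2 = g)).card : ℝ) ≤ M * (r * tau d) := by
    intro g hg
    obtain ⟨v₀, hv₀, hvg⟩ := Finset.mem_image.mp hg
    have hg0 : g ≠ 0 := by rw [← hvg]; exact hgne v₀ hv₀
    have hg1 : 1 ≤ g := Nat.one_le_iff_ne_zero.mpr hg0
    have hvg' : Int.gcd v₀.1 v₀.2 = g := hvg
    -- d = g ^ 2 * d'
    have hnpp : (d : ℤ) = (g : ℤ) ^ 2 * nm b c (rep_pp v₀) := by
      have h1 := (rep_pp_spec (hgne v₀ hv₀)).1
      rw [hvg'] at h1
      rw [← (hQ v₀ hv₀).2]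
      conv_lhs => rw [h1]
      rw [rep_nm_sm]
    have hdvd : g ^ 2 ∣ d := by
      have : ((g ^ 2 : ℕ) : ℤ) ∣ (d : ℤ) := ⟨nm b c (rep_pp v₀), by push_cast; exact hnpp⟩
      exact_mod_cast this
    obtain ⟨d', hd'⟩ := hdvd
    have hd'1 : 1 ≤ d' := by
      rcases Nat.eq_zero_or_pos d' with h | h
      · rw [h, mul_zero] at hd'; omega
      · exact h
    have hnm : ∀ v ∈ Q, Int.gcd v.1 v.2 = g → nm b c (rep_pp v) = d' := by
      intro v hv hvv
      have h1 := (rep_pp_spec (hgne v hv)).1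
      rw [hvv] at h1
      have h2 : (d : ℤ) = (g : ℤ) ^ 2 * nm b c (rep_pp v) := by
        rw [← (hQ v hv).2]
        conv_lhs => rw [h1]
        rw [rep_nm_sm]
      rw [hd'] at h2
      push_cast at h2
      have hg2 : ((g : ℤ) ^ 2) ≠ 0 := by positivity
      exact (mul_left_cancel₀ hg2 h2).symm
    set Q' := (Q.filter (fun v => Int.gcd v.1 v.2 = g)).image rep_pp with hQ'
    have hcard : (Q.filter (fun v => Int.gcd v.1 v.2 = g)).card = Q'.card := by
      rw [hQ', Finset.card_image_of_injOn]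
      intro v hv w hw hvw
      have hv' := Finset.mem_filter.mp (Finset.mem_coe.mp hv)
      have hw' := Finset.mem_filter.mp (Finset.mem_coe.mp hw)
      have h1 := (rep_pp_spec (hgne v hv'.1)).1
      have h2 := (rep_pp_spec (hgne w hw'.1)).1
      rw [h1, h2, hv'.2, hw'.2, hvw]
    have hb := rep_prim S hs d' hd'1 Q' (by
      intro v' hv'
      obtain ⟨v, hv, hvv⟩ := Finset.mem_image.mp hv'
      obtain ⟨hvQ, hvg2⟩ := Finset.mem_filter.mp hv
      have h1 := rep_pp_spec (hgne v hvQ)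
      rw [← hvv]
      refine ⟨?_, hnm v hvQ hvg2, h1.2⟩
      have hwd := (hQ v hvQ).1
      rw [h1.1, hvg2, wd_sm S hg1] at hwd
      exact hwd)
    rw [hcard]
    refine hb.trans ?_
    apply mul_le_mul_of_nonneg_left _ (Nat.cast_nonneg _)
    apply mul_le_mul_of_nonneg_left _ (Real.sqrt_nonneg _)
    exact rep_tau_le hd0 ⟨g ^ 2, by rw [hd']; ring⟩
  have himg : ((Q.image (fun v => Int.gcd v.1 v.2)).card : ℝ) ≤ tau d := by
    unfold tau
    have : (Q.image (fun v => Int.gcd v.1 v.2)) ⊆ d.divisors := by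
      intro g hg
      obtain ⟨v, hv, hvg⟩ := Finset.mem_image.mp hg
      have hvg' : Int.gcd v.1 v.2 = g := hvg
      rw [Nat.mem_divisors]
      refine ⟨?_, hd0⟩
      have h1 := (rep_pp_spec (hgne v hv)).1
      rw [hvg'] at h1
      have h2 : (d : ℤ) = (g : ℤ) ^ 2 * nm b c (rep_pp v) := by
        rw [← (hQ v hv).2]
        conv_lhs => rw [h1]
        rw [rep_nm_sm]
      have h3 : (g : ℤ) ∣ (d : ℤ) := ⟨(g : ℤ) * nm b c (rep_pp v), by rw [h2]; ring⟩
      exact_mod_cast h3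
    exact_mod_cast Finset.card_le_card this
  have hsum : (Q.card : ℝ) = ∑ g ∈ Q.image (fun v => Int.gcd v.1 v.2),
      ((Q.filter (fun v => Int.gcd v.1 v.2 = g)).card : ℝ) := by
    exact_mod_cast Finset.card_eq_sum_card_image (fun v : El => Int.gcd v.1 v.2) Q
  rw [hsum]
  have htau : 0 ≤ tau d := by unfold tau; positivity
  calc ∑ g ∈ Q.image (fun v => Int.gcd v.1 v.2),
        ((Q.filter (fun v => Int.gcd v.1 v.2 = g)).card : ℝ)
      ≤ ∑ g ∈ Q.image (fun v => Int.gcd v.1 v.2), M * (r * tau d) := Finset.sum_le_sum hfib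
    _ = ((Q.image (fun v => Int.gcd v.1 v.2)).card : ℝ) * (M * (r * tau d)) := by
        rw [Finset.sum_const, nsmul_eq_mul]
    _ ≤ tau d * (M * (r * tau d)) := by
        apply mul_le_mul_of_nonneg_right himg
        positivity
    _ ≤ (1 + M * r) * tau d ^ 2 := by nlinarith [sq_nonneg (tau d)]

end Pool.Agent.MQ

namespace Pool.Agent.MQ

theorem rep_card : type_of% @rep_card_pr := @rep_card_pr

end Pool.Agent.MQ
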