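import Pool.Agent.Lib_helper39.MQ.Defs
import Pool.Agent.Lib_helper39.MQX.ALG
import Pool.Agent.Lib_helper39.MQX.MOB
import Pool.Agent.Lib_helper39.MQX.REP
import Pool.Agent.Lib_helper39.MQX.SBA
import Pool.Agent.Lib_helper39.MQX.SBB
import Pool.Agent.Lib_helper39.MQX.TAU

/-! MQ, block RRS: the number of factorisations in mean square. -/

namespace Pool.Agent.MQ

open Filter Topology MeasureTheory

theorem rrs_tau_le {d n : ℕ} (h : d ∣ n) (hn : n ≠ 0) : tau d ≤ tau n := by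
  unfold tau
  exact_mod_cast Finset.card_le_card (Nat.divisors_subset_of_dvd hn h)

theorem rrs_tau_nonneg (n : ℕ) : 0 ≤ tau n := Nat.cast_nonneg _

theorem rr_card_pr {b c : ℤ} (S : Sys b c) (hs : ¬ IsSquare (dsc b c)) : ∃ C : ℝ, 1 ≤ C ∧
    ∀ (X : ℝ) (m : El), S.wd m → (S.rr X m : ℝ) ≤ C * tau (nm b c m).natAbs ^ 3 := by
  classical
  obtain ⟨C, hC, hrep⟩ := rep_card S hs
  refine ⟨C, hC, ?_⟩
  intro X m hm
  have hm0 := wd_nm S hm
  set N := (nm b c m).natAbs with hN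
  have hN0 : N ≠ 0 := by rw [hN]; omega
  set F := (S.MF X ×ˢ S.MF X).filter (fun q => S.rp (ml b c q.1 q.2) = m) with hF
  have hrr : S.rr X m = F.card := by
    unfold Sys.rr
    congr 1
  have hmem : ∀ q ∈ F, S.wd q.1 ∧ S.wd q.2 ∧ S.rp (ml b c q.1 q.2) = m := by
    intro q hq
    rw [hF, Finset.mem_filter, Finset.mem_product] at hq
    exact ⟨((mem_MF S).1 hq.1.1).1, ((mem_MF S).1 hq.1.2).1, hq.2⟩
  have hinj : Set.InjOn (fun q : El × El => q.1) (F : Set (El × El)) := by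
    rintro ⟨v, w⟩ hq ⟨v', w'⟩ hq' h
    obtain ⟨h1, h2, h3⟩ := hmem _ (Finset.mem_coe.1 hq)
    obtain ⟨h1', h2', h3'⟩ := hmem _ (Finset.mem_coe.1 hq')
    simp only at h h1 h2 h3 h1' h2' h3'
    subst h
    have := rp_inj S (wd_nm S h1) h2 h2' (h3.trans h3'.symm)
    rw [this]
  have hcard : F.card = (F.image (fun q : El × El => q.1)).card :=
    (Finset.card_image_of_injOn hinj).symm
  have hmaps : Set.MapsTo (fun v : El => (nm b c v).natAbs)
      (F.image (fun q : El × El => q.1) : Set El) (N.divisors : Set ℕ) := by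
    intro v hv
    rw [Finset.mem_coe, Finset.mem_image] at hv
    obtain ⟨q, hq, rfl⟩ := hv
    obtain ⟨h1, h2, h3⟩ := hmem q hq
    rw [Finset.mem_coe, Nat.mem_divisors]
    refine ⟨?_, hN0⟩
    have p1 := wd_nm S h1
    have p2 := wd_nm S h2
    have h4 : nm b c m = nm b c q.1 * nm b c q.2 := by
      rw [← h3, rp_nm S (by rw [nm_ml]; positivity), nm_ml]
    rw [hN, h4, Int.natAbs_mul]
    exact Dvd.intro _ rfl
  rw [hrr, hcard, Finset.card_eq_sum_card_fiberwise hmaps]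
  push_cast
  calc ∑ d ∈ N.divisors, (((F.image (fun q : El × El => q.1)).filter
        (fun v => (nm b c v).natAbs = d)).card : ℝ)
      ≤ ∑ d ∈ N.divisors, C * tau N ^ 2 := by
        apply Finset.sum_le_sum
        intro d hd
        rw [Nat.mem_divisors] at hd
        have hd1 : 1 ≤ d := Nat.pos_of_dvd_of_pos hd.1 (Nat.pos_of_ne_zero hN0)
        refine (hrep d _ hd1 ?_).trans ?_
        · intro v hv
          rw [Finset.mem_filter, Finset.mem_image] at hv
          obtain ⟨⟨q, hq, rfl⟩, h5⟩ := hv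
          have h1 := (hmem q hq).1
          have p1 := wd_nm S h1
          exact ⟨h1, by omega⟩
        · apply mul_le_mul_of_nonneg_left _ (by linarith)
          exact pow_le_pow_left₀ (rrs_tau_nonneg _) (rrs_tau_le hd.1 hN0) 2
    _ = C * tau N ^ 3 := by
        rw [Finset.sum_const, nsmul_eq_mul]
        change tau N * (C * tau N ^ 2) = _
        ring

theorem rr_sq_pr : ∃ a : ℕ, ∀ (b c : ℤ) (S : Sys b c), ¬ IsSquare (dsc b c) → ∃ C : ℝ, 1 ≤ C ∧
    ∀ X : ℝ, 1 ≤ X → ∀ j : ℕ, 1 ≤ j → ∑ m ∈ S.MF (X ^ 2 / j ^ 2), (S.rr X (sm j m) : ℝ) ^ 2 ≤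
      C * tau j ^ 12 * (X ^ 2 / j ^ 2) * (1 + Real.log X) ^ a := by
  obtain ⟨a, ha⟩ := mom_two 6
  refine ⟨a, ?_⟩
  intro b c S hs
  obtain ⟨C1, hC1, h1⟩ := rr_card_pr S hs
  obtain ⟨C2, hC2, h2⟩ := ha b c S hs
  have hCC : (1 : ℝ) ≤ C1 ^ 2 * C2 * 2 ^ a := by
    have e1 : (1 : ℝ) ≤ C1 ^ 2 := one_le_pow₀ hC1
    have e2 : (1 : ℝ) ≤ 2 ^ a := one_le_pow₀ (by norm_num)
    have e3 : (1 : ℝ) ≤ C1 ^ 2 * C2 := by nlinarith
    nlinarith
  refine ⟨C1 ^ 2 * C2 * 2 ^ a, hCC, ?_⟩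
  intro X hX j hj
  have hj1 : (1 : ℝ) ≤ j := by exact_mod_cast hj
  have hlX : 0 ≤ Real.log X := Real.log_nonneg hX
  set Y := X ^ 2 / (j : ℝ) ^ 2 with hY
  have hY0 : 0 < Y := by positivity
  have hterm : ∀ m ∈ S.MF Y, (S.rr X (sm j m) : ℝ) ^ 2 ≤
      C1 ^ 2 * tau j ^ 12 * tau (nm b c m).natAbs ^ 6 := by
    intro m hm
    have hwd := ((mem_MF S).1 hm).1
    have hm0 := wd_nm S hwd
    have hr := h1 X (sm j m) ((wd_sm S hj).2 hwd)
    have e1 : (nm b c (sm j m)).natAbs = (j * j) * (nm b c m).natAbs := by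
      have : nm b c (sm j m) = ((j : ℤ) * j) * nm b c m := by
        simp only [nm, sm]
        ring
      rw [this, Int.natAbs_mul, Int.natAbs_mul, Int.natAbs_natCast]
    have e2 : tau (nm b c (sm j m)).natAbs ≤ tau j ^ 2 * tau (nm b c m).natAbs := by
      rw [e1]
      have t1 := tau_mul (m := j * j) (n := (nm b c m).natAbs) (Nat.mul_pos hj hj) (by omega)
      have t2 := tau_mul (m := j) (n := j) hj hj
      calc tau (j * j * (nm b c m).natAbs) ≤ tau (j * j) * tau (nm b c m).natAbs := t1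
        _ ≤ (tau j * tau j) * tau (nm b c m).natAbs :=
          mul_le_mul_of_nonneg_right t2 (rrs_tau_nonneg _)
        _ = _ := by ring
    calc (S.rr X (sm j m) : ℝ) ^ 2 ≤ (C1 * tau (nm b c (sm j m)).natAbs ^ 3) ^ 2 :=
          pow_le_pow_left₀ (Nat.cast_nonneg _) hr 2
      _ ≤ (C1 * (tau j ^ 2 * tau (nm b c m).natAbs) ^ 3) ^ 2 := by
          apply pow_le_pow_left₀
          · have := rrs_tau_nonneg (nm b c (sm j m)).natAbs
            positivity
          · apply mul_le_mul_of_nonneg_left _ (by linarith)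
            exact pow_le_pow_left₀ (rrs_tau_nonneg _) e2 3
      _ = _ := by ring
  refine (Finset.sum_le_sum hterm).trans ?_
  rw [← Finset.mul_sum]
  have htj := rrs_tau_nonneg j
  by_cases hY1 : 1 ≤ Y
  · have h3 := h2 Y hY1
    have h4 : 1 + Real.log Y ≤ 2 * (1 + Real.log X) := by
      have e1 : Y ≤ X ^ 2 := by
        rw [hY]
        exact div_le_self (by positivity) (one_le_pow₀ hj1)
      have e2 := Real.log_le_log hY0 e1
      rw [Real.log_pow] at e2
      push_cast at e2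
      linarith
    have h5 : (1 + Real.log Y) ^ a ≤ 2 ^ a * (1 + Real.log X) ^ a := by
      rw [← mul_pow]
      have := Real.log_nonneg hY1
      exact pow_le_pow_left₀ (by linarith) h4 a
    calc C1 ^ 2 * tau j ^ 12 * ∑ m ∈ S.MF Y, tau (nm b c m).natAbs ^ 6
        ≤ C1 ^ 2 * tau j ^ 12 * (C2 * Y * (1 + Real.log Y) ^ a) :=
          mul_le_mul_of_nonneg_left h3 (by positivity)
      _ ≤ C1 ^ 2 * tau j ^ 12 * (C2 * Y * (2 ^ a * (1 + Real.log X) ^ a)) := by
          apply mul_le_mul_of_nonneg_left _ (by positivity)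
          exact mul_le_mul_of_nonneg_left h5 (by positivity)
      _ = _ := by ring
  · have hempty : S.MF Y = ∅ := by
      rw [Finset.eq_empty_iff_forall_notMem]
      intro v hv
      obtain ⟨h6, h7⟩ := (mem_MF S).1 hv
      have h8 : (1 : ℝ) ≤ nm b c v := by
        have := wd_nm S h6
        exact_mod_cast this
      linarith
    rw [hempty, Finset.sum_empty, mul_zero]
    positivity

end Pool.Agent.MQ

namespace Pool.Agent.MQ

theorem rr_card : type_of% @rr_card_pr := @rr_card_pr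
theorem rr_sq : type_of% @rr_sq_pr := @rr_sq_pr

end Pool.Agent.MQ
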