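import Pool.Agent.Lib_helper39.MQ.Defs
import Pool.Agent.Lib_helper39.MQX.ALG
import Pool.Agent.Lib_helper39.MQX.LSV
import Pool.Agent.Lib_helper39.MQX.RRS
import Pool.Agent.Lib_helper39.MQX.SBA
import Pool.Agent.Lib_helper39.MQX.SBB
import Pool.Agent.Lib_helper39.MQX.SBC
import Pool.Agent.Lib_helper39.MQX.TAU

/-! The mean of a trigonometric polynomial over products (block SAM) -/

namespace Pool.Agent.MQ

open Filter Topology MeasureTheory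

theorem sam_ex_add (s t : ℝ) : ex (s + t) = ex s * ex t := by
  unfold ex
  rw [← Complex.exp_add]
  congr 1
  push_cast
  ring

theorem sam_ex_int (n : ℤ) : ex n = 1 := by
  unfold ex
  rw [Complex.exp_eq_one_iff]
  exact ⟨n, by push_cast; ring⟩

/-- the trigonometric polynomial -/
noncomputable def samW (Q : Finset ℤ) (w : ℤ → ℂ) (t : ℝ) : ℝ := ‖∑ k ∈ Q, w k * ex (k * t)‖

theorem sam_W_int (Q : Finset ℤ) (w : ℤ → ℂ) (t : ℝ) (n : ℤ) :
    samW Q w (t + n) = samW Q w t := by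
  unfold samW
  congr 1
  refine Finset.sum_congr rfl fun k _ => ?_
  rw [mul_add, sam_ex_add]
  have : ex ((k : ℝ) * (n : ℝ)) = 1 := by
    have := sam_ex_int (k * n)
    push_cast at this
    exact this
  rw [this, mul_one]

theorem sam_W_nonneg (Q : Finset ℤ) (w : ℤ → ℂ) (t : ℝ) : 0 ≤ samW Q w t := norm_nonneg _

variable {b c : ℤ} (S : Sys b c)

theorem sam_wd_cases {v : El} (hv : S.wd v) : 0 ≤ v.2 ∧ (v.2 = 0 → 0 < v.1) := by
  rcases hv with ⟨h1, h2⟩ | ⟨h1, _⟩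
  · exact ⟨h1.ge, fun _ => h2⟩
  · exact ⟨h1.le, fun h => absurd h h1.ne'⟩

/-- parallel primitive elements of the window are equal -/
theorem sam_parallel {v w : El} (hv : S.wd v) (hw : S.wd w) (pv : Pm v) (pw : Pm w)
    (h : dt v w = 0) : v = w := by
  obtain ⟨v1, v2⟩ := v
  obtain ⟨w1, w2⟩ := w
  obtain ⟨hv0, hv1⟩ := sam_wd_cases S hv
  obtain ⟨hw0, hw1⟩ := sam_wd_cases S hw
  unfold Pm at pv pw
  unfold dt at h
  simp only at *
  have hcv : IsCoprime v1 v2 := Int.isCoprime_iff_gcd_eq_one.2 pv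
  have hcw : IsCoprime w1 w2 := Int.isCoprime_iff_gcd_eq_one.2 pw
  have e : v1 * w2 = v2 * w1 := by linarith
  have d1 : v2 ∣ w2 := by
    have : v2 ∣ v1 * w2 := ⟨w1, e⟩
    exact hcv.symm.dvd_of_dvd_mul_left this
  have d2 : w2 ∣ v2 := by
    have : w2 ∣ w1 * v2 := ⟨v1, by linarith⟩
    exact hcw.symm.dvd_of_dvd_mul_left this
  have h2 : v2 = w2 := Int.dvd_antisymm hv0 hw0 d1 d2
  subst h2
  rcases hv0.eq_or_lt with h0 | h0
  · have h0' : v2 = 0 := h0.symm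
    subst h0'
    have a1 := hv1 rfl
    have a2 := hw1 rfl
    rw [Int.gcd_zero_right] at pv pw
    have : v1 = w1 := by omega
    rw [this]
  · have : v1 = w1 := by
      have h3 : v2 * v1 = v2 * w1 := by linarith
      exact mul_left_cancel₀ h0.ne' h3
    rw [this]

theorem sam_nm_sm (j : ℕ) (v : El) : nm b c (sm j v) = (j : ℤ) ^ 2 * nm b c v := by
  unfold nm sm
  ring

/-- the primitive part -/
theorem sam_prim {X : ℝ} {m : El} (hm : m ∈ S.MF (X ^ 2)) (hX : 1 ≤ X) :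
    ∃ j ∈ Finset.Icc 1 ⌊X⌋₊, ∃ m' ∈ S.MF (X ^ 2 / (j : ℝ) ^ 2), Pm m' ∧ sm j m' = m := by
  rw [mem_MF] at hm
  obtain ⟨hw, hn⟩ := hm
  obtain ⟨m1, m2⟩ := m
  obtain ⟨h0, h1⟩ := sam_wd_cases S hw
  simp only at h0 h1
  have hg : 0 < Int.gcd m1 m2 := by
    rw [Nat.pos_iff_ne_zero]
    intro h
    rw [Int.gcd_eq_zero_iff] at h
    have := h1 h.2
    omega
  obtain ⟨a1, a2, hco, e1, e2⟩ : ∃ a1 a2 : ℤ, Int.gcd a1 a2 = 1 ∧
      m1 = a1 * (Int.gcd m1 m2 : ℕ) ∧ m2 = a2 * (Int.gcd m1 m2 : ℕ) := by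
    obtain ⟨a1, a2, h2, h3, h4⟩ := Int.exists_gcd_one hg
    exact ⟨a1, a2, h2, h3, h4⟩
  set g : ℕ := Int.gcd m1 m2 with hgdef
  have hsm : sm g (a1, a2) = (m1, m2) := by
    unfold sm
    rw [e1, e2]
    ring_nf
  have hwd : S.wd (a1, a2) := (wd_sm S (v := (a1, a2)) hg).1 (by rw [hsm]; exact hw)
  have hpos : 0 < nm b c (a1, a2) := wd_nm S hwd
  have hnm : nm b c (m1, m2) = (g : ℤ) ^ 2 * nm b c (a1, a2) := by rw [← hsm, sam_nm_sm]
  have hnmR : (nm b c (m1, m2) : ℝ) = (g : ℝ) ^ 2 * (nm b c (a1, a2) : ℝ) := by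
    rw [hnm]
    push_cast
    ring
  have hg1 : (1 : ℝ) ≤ g := by exact_mod_cast hg
  have hpR : (1 : ℝ) ≤ (nm b c (a1, a2) : ℝ) := by exact_mod_cast hpos
  have hgX : (g : ℝ) ≤ X := by
    have h3 : (g : ℝ) ^ 2 ≤ X ^ 2 := by
      calc (g : ℝ) ^ 2 = (g : ℝ) ^ 2 * 1 := (mul_one _).symm
        _ ≤ (g : ℝ) ^ 2 * (nm b c (a1, a2) : ℝ) := by gcongr
        _ = nm b c (m1, m2) := hnmR.symm
        _ ≤ X ^ 2 := hn
    exact (abs_le_of_sq_le_sq' h3 (by linarith)).2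
  refine ⟨g, ?_, (a1, a2), ?_, hco, hsm⟩
  · rw [Finset.mem_Icc]
    exact ⟨hg, Nat.le_floor hgX⟩
  · rw [mem_MF]
    refine ⟨hwd, ?_⟩
    rw [le_div_iff₀ (by positivity), mul_comm, ← hnmR]
    exact hn

theorem sam_sum_le {f : El → ℝ} (hf : ∀ m, 0 ≤ f m) (M : Finset El) (I : Finset ℕ)
    (P : ℕ → Finset El) (h : ∀ m ∈ M, ∃ j ∈ I, ∃ m' ∈ P j, sm j m' = m) :
    ∑ m ∈ M, f m ≤ ∑ j ∈ I, ∑ m' ∈ P j, f (sm j m') := by
  classical
  rw [Finset.sum_sigma']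
  set T := I.sigma P with hT
  have h1 : ∑ x ∈ T.filter (fun x => sm x.1 x.2 ∈ M), f (sm x.1 x.2) ≤
      ∑ x ∈ T, f (sm x.1 x.2) :=
    Finset.sum_le_sum_of_subset_of_nonneg (Finset.filter_subset _ _) fun _ _ _ => hf _
  refine le_trans ?_ h1
  rw [← Finset.sum_fiberwise_of_maps_to (s := T.filter (fun x => sm x.1 x.2 ∈ M)) (t := M)
    (g := fun x => sm x.1 x.2) (fun x hx => (Finset.mem_filter.1 hx).2)]
  refine Finset.sum_le_sum fun m hm => ?_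
  obtain ⟨j, hj, m', hm', he⟩ := h m hm
  have hmem : (⟨j, m'⟩ : Σ _ : ℕ, El) ∈ (T.filter (fun x => sm x.1 x.2 ∈ M)).filter
      (fun x => sm x.1 x.2 = m) := by
    rw [Finset.mem_filter, Finset.mem_filter, hT, Finset.mem_sigma]
    exact ⟨⟨⟨hj, hm'⟩, by rw [he]; exact hm⟩, he⟩
  have h2 := Finset.single_le_sum (f := fun x : (Σ _ : ℕ, El) => f (sm x.1 x.2))
    (fun x _ => hf _) hmem
  refine le_trans (le_of_eq ?_) h2
  rw [← he]

theorem sampling_pr : ∃ a : ℕ, ∀ (b c : ℤ) (S : Sys b c), ¬ IsSquare (dsc b c) → ∃ C : ℝ, 1 ≤ C ∧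
    ∀ X : ℝ, 1 ≤ X → ∀ (Q : Finset ℤ) (w : ℤ → ℂ), Q ⊆ KK (X ^ 2) →
      ∑ q ∈ S.MF X ×ˢ S.MF X, ‖∑ k ∈ Q, w k * ex (k * (S.u q.1 + S.u q.2))‖ ≤
        C * X ^ 2 * (1 + Real.log X) ^ a * Real.sqrt (∑ k ∈ Q, ‖w k‖ ^ 2) := by
  classical
  obtain ⟨a1, ha1⟩ := rr_sq
  obtain ⟨a2, ha2⟩ := tau_pow_sum 6
  obtain ⟨CL, hCL, hls⟩ := large_sieve
  refine ⟨a1 + a2, fun b c S hs => ?_⟩
  obtain ⟨CR, hCR, hrr⟩ := ha1 b c S hs
  obtain ⟨δ, hδ, hδ1, hsep⟩ := u_sep S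
  set C0 : ℝ := Real.sqrt CR * Real.sqrt (CL * (1 + 1 / δ)) with hC0
  have hC00 : 0 ≤ C0 := by positivity
  refine ⟨1 + C0, by linarith, fun X hX Q w hQ => ?_⟩
  have hX0 : 0 < X := by linarith
  have hX2 : 1 ≤ X ^ 2 := one_le_pow₀ hX
  have hL0 : 0 ≤ Real.log X := Real.log_nonneg hX
  have hL1 : 1 ≤ 1 + Real.log X := by linarith
  set W : ℝ → ℝ := samW Q w with hW
  set Sw : ℝ := ∑ k ∈ Q, ‖w k‖ ^ 2 with hSw
  have hSw0 : 0 ≤ Sw := Finset.sum_nonneg fun _ _ => by positivity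
  -- group by the product
  have hmap : ∀ q ∈ S.MF X ×ˢ S.MF X, S.rp (ml b c q.1 q.2) ∈ S.MF (X ^ 2) := by
    intro q hq
    rw [Finset.mem_product, mem_MF, mem_MF] at hq
    obtain ⟨⟨h1, h2⟩, h3, h4⟩ := hq
    have p1 := wd_nm S h1
    have p2 := wd_nm S h3
    have p3 : 0 < nm b c (ml b c q.1 q.2) := by
      rw [nm_ml]
      positivity
    rw [mem_MF]
    refine ⟨S.rp_wd _ p3, ?_⟩
    rw [rp_nm S p3, nm_ml]
    push_cast
    have p1R : (0 : ℝ) < nm b c q.1 := by exact_mod_cast p1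
    have p2R : (0 : ℝ) < nm b c q.2 := by exact_mod_cast p2
    rw [sq]
    exact mul_le_mul h2 h4 p2R.le hX0.le
  have hval : ∀ q ∈ S.MF X ×ˢ S.MF X,
      ‖∑ k ∈ Q, w k * ex (k * (S.u q.1 + S.u q.2))‖ = W (S.u (S.rp (ml b c q.1 q.2))) := by
    intro q hq
    rw [Finset.mem_product, mem_MF, mem_MF] at hq
    obtain ⟨⟨h1, _⟩, h3, _⟩ := hq
    obtain ⟨n, hn⟩ := u_ml S (wd_nm S h1) (wd_nm S h3)
    rw [S.rp_self _ h1, S.rp_self _ h3] at hn
    rw [hn]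
    show _ = samW Q w (S.u q.1 + S.u q.2 + (n : ℝ))
    rw [sam_W_int]
    rfl
  have hsum1 : ∑ q ∈ S.MF X ×ˢ S.MF X, ‖∑ k ∈ Q, w k * ex (k * (S.u q.1 + S.u q.2))‖ =
      ∑ m ∈ S.MF (X ^ 2), (S.rr X m : ℝ) * W (S.u m) := by
    rw [Finset.sum_congr rfl hval, ← Finset.sum_fiberwise_of_maps_to hmap]
    refine Finset.sum_congr rfl fun m _ => ?_
    have : ∀ q ∈ (S.MF X ×ˢ S.MF X).filter (fun q => S.rp (ml b c q.1 q.2) = m),
        W (S.u (S.rp (ml b c q.1 q.2))) = W (S.u m) := by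
      intro q hq
      rw [(Finset.mem_filter.1 hq).2]
    rw [Finset.sum_congr rfl this, Finset.sum_const, nsmul_eq_mul]
    rfl
  -- primitive parts
  set P : ℕ → Finset El := fun j => (S.MF (X ^ 2 / (j : ℝ) ^ 2)).filter Pm with hP
  have hsum2 : ∑ m ∈ S.MF (X ^ 2), (S.rr X m : ℝ) * W (S.u m) ≤
      ∑ j ∈ Finset.Icc 1 ⌊X⌋₊, ∑ m ∈ P j, (S.rr X (sm j m) : ℝ) * W (S.u (sm j m)) := by
    have hnn : ∀ m : El, 0 ≤ (S.rr X m : ℝ) * W (S.u m) := fun m =>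
      mul_nonneg (Nat.cast_nonneg _) (sam_W_nonneg _ _ _)
    refine sam_sum_le (f := fun m => (S.rr X m : ℝ) * W (S.u m)) hnn _ _ _ fun m hm => ?_
    obtain ⟨j, hj, m', hm', hpm, he⟩ := sam_prim S hm hX
    exact ⟨j, hj, m', Finset.mem_filter.2 ⟨hm', hpm⟩, he⟩
  -- one value of `j`
  have hone : ∀ j ∈ Finset.Icc 1 ⌊X⌋₊, ∑ m ∈ P j, (S.rr X (sm j m) : ℝ) * W (S.u (sm j m)) ≤
      C0 * X ^ 2 * (1 + Real.log X) ^ a1 * Real.sqrt Sw * (tau j ^ 6 / j) := by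
    intro j hj
    have hj1 : 1 ≤ j := (Finset.mem_Icc.1 hj).1
    have hjR : (1 : ℝ) ≤ j := by exact_mod_cast hj1
    have hj0 : (0 : ℝ) < j := by linarith
    have e1 : ∀ m ∈ P j, (S.rr X (sm j m) : ℝ) * W (S.u (sm j m)) =
        (S.rr X (sm j m) : ℝ) * W (S.u m) := fun m _ => by rw [u_sm S hj1]
    rw [Finset.sum_congr rfl e1]
    refine (Real.sum_mul_le_sqrt_mul_sqrt _ _ _).trans ?_
    have h1 : ∑ m ∈ P j, (S.rr X (sm j m) : ℝ) ^ 2 ≤
        CR * tau j ^ 12 * (X ^ 2 / (j : ℝ) ^ 2) * (1 + Real.log X) ^ a1 := by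
      refine le_trans ?_ (hrr X hX j hj1)
      exact Finset.sum_le_sum_of_subset_of_nonneg (Finset.filter_subset _ _)
        fun _ _ _ => by positivity
    have h2 : ∑ m ∈ P j, W (S.u m) ^ 2 ≤ CL * (X ^ 2 + 1 / (δ / X ^ 2)) * Sw := by
      have hd0 : 0 < δ / X ^ 2 := by positivity
      have hd1 : δ / X ^ 2 ≤ 1 := by
        rw [div_le_one (by positivity)]
        linarith
      have hsp : ∀ v ∈ P j, ∀ v' ∈ P j, v ≠ v' → ∀ n : ℤ, δ / X ^ 2 ≤ |S.u v - S.u v' + n| := by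
        intro v hv v' hv' hne n
        rw [hP, Finset.mem_filter, mem_MF] at hv hv'
        obtain ⟨⟨g1, g2⟩, g3⟩ := hv
        obtain ⟨⟨g1', g2'⟩, g3'⟩ := hv'
        have hle : X ^ 2 / (j : ℝ) ^ 2 ≤ X ^ 2 := by
          apply div_le_self (by positivity)
          exact one_le_pow₀ hjR
        exact hsep (X ^ 2) hX2 v v' g1 g1' (g2.trans hle) (g2'.trans hle)
          (fun h => hne (sam_parallel S g1 g1' g3 g3' h)) n
      have h3 := (hls (P j) S.u (δ / X ^ 2) hd0 hd1 hsp (X ^ 2) hX2).2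
        (fun k => if k ∈ Q then w k else 0)
      have e2 : ∀ m : El, ∑ k ∈ KK (X ^ 2), (if k ∈ Q then w k else 0) * ex (k * S.u m) =
          ∑ k ∈ Q, w k * ex (k * S.u m) := by
        intro m
        rw [← Finset.sum_subset hQ (fun k _ hk => by rw [if_neg hk, zero_mul])]
        exact Finset.sum_congr rfl fun k hk => by rw [if_pos hk]
      have e3 : ∑ k ∈ KK (X ^ 2), ‖(if k ∈ Q then w k else 0 : ℂ)‖ ^ 2 = Sw := by
        rw [← Finset.sum_subset hQ (fun k _ hk => by rw [if_neg hk, norm_zero]; norm_num)]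
        exact Finset.sum_congr rfl fun k hk => by rw [if_pos hk]
      rw [e3] at h3
      refine le_trans (le_of_eq ?_) h3
      refine Finset.sum_congr rfl fun m _ => ?_
      rw [e2]
      rfl
    have h1' : Real.sqrt (∑ m ∈ P j, (S.rr X (sm j m) : ℝ) ^ 2) ≤
        Real.sqrt CR * (tau j ^ 6 * (X / j)) * (1 + Real.log X) ^ a1 := by
      rw [Real.sqrt_le_left (by unfold tau; positivity)]
      refine h1.trans ?_
      have e4 : (Real.sqrt CR * (tau j ^ 6 * (X / j)) * (1 + Real.log X) ^ a1) ^ 2 =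
          CR * tau j ^ 12 * (X ^ 2 / (j : ℝ) ^ 2) * ((1 + Real.log X) ^ a1 *
            (1 + Real.log X) ^ a1) := by
        have : (Real.sqrt CR) ^ 2 = CR := Real.sq_sqrt (by linarith)
        rw [mul_pow, mul_pow, this, mul_pow, div_pow]
        ring
      rw [e4]
      have h5 : 1 ≤ (1 + Real.log X) ^ a1 := one_le_pow₀ hL1
      have h6 : (1 + Real.log X) ^ a1 ≤ (1 + Real.log X) ^ a1 * (1 + Real.log X) ^ a1 := by
        nlinarith
      have h7 : 0 ≤ CR * tau j ^ 12 * (X ^ 2 / (j : ℝ) ^ 2) := by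
        unfold tau
        positivity
      exact mul_le_mul_of_nonneg_left h6 h7
    have h2' : Real.sqrt (∑ m ∈ P j, W (S.u m) ^ 2) ≤
        Real.sqrt (CL * (1 + 1 / δ)) * X * Real.sqrt Sw := by
      have e5 : CL * (X ^ 2 + 1 / (δ / X ^ 2)) * Sw = (CL * (1 + 1 / δ)) * X ^ 2 * Sw := by
        field_simp
      rw [e5] at h2
      refine (Real.sqrt_le_sqrt h2).trans (le_of_eq ?_)
      rw [Real.sqrt_mul (by positivity), Real.sqrt_mul (by positivity), Real.sqrt_sq hX0.le]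
    calc Real.sqrt (∑ m ∈ P j, (S.rr X (sm j m) : ℝ) ^ 2) * Real.sqrt (∑ m ∈ P j, W (S.u m) ^ 2)
        ≤ (Real.sqrt CR * (tau j ^ 6 * (X / j)) * (1 + Real.log X) ^ a1) *
          (Real.sqrt (CL * (1 + 1 / δ)) * X * Real.sqrt Sw) :=
          mul_le_mul h1' h2' (Real.sqrt_nonneg _) (by unfold tau; positivity)
      _ = C0 * X ^ 2 * (1 + Real.log X) ^ a1 * Real.sqrt Sw * (tau j ^ 6 / j) := by
          rw [hC0]
          field_simp
  rw [hsum1]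
  refine hsum2.trans ((Finset.sum_le_sum hone).trans ?_)
  rw [← Finset.mul_sum]
  have h8 := ha2 X hX
  calc C0 * X ^ 2 * (1 + Real.log X) ^ a1 * Real.sqrt Sw * ∑ j ∈ Finset.Icc 1 ⌊X⌋₊, tau j ^ 6 / j
      ≤ C0 * X ^ 2 * (1 + Real.log X) ^ a1 * Real.sqrt Sw * (1 + Real.log X) ^ a2 :=
        mul_le_mul_of_nonneg_left h8 (by positivity)
    _ = C0 * (X ^ 2 * (1 + Real.log X) ^ (a1 + a2) * Real.sqrt Sw) := by
        rw [pow_add]
        ring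
    _ ≤ (1 + C0) * (X ^ 2 * (1 + Real.log X) ^ (a1 + a2) * Real.sqrt Sw) :=
        mul_le_mul_of_nonneg_right (by linarith) (by positivity)
    _ = (1 + C0) * X ^ 2 * (1 + Real.log X) ^ (a1 + a2) * Real.sqrt Sw := by ring

end Pool.Agent.MQ

namespace Pool.Agent.MQ

theorem sampling : type_of% @sampling_pr := @sampling_pr

end Pool.Agent.MQ
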