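import Pool.Agent.Lib_helper39.MQ.Defs

/-! MQ, block FAA: Farey cells. -/

namespace Pool.Agent.MQ

open Filter Topology MeasureTheory

theorem faa_cn_one_zero (e : ℕ → El) (i : ℕ) : cn e i 1 0 = e i := by
  simp [cn]

theorem faa_cn_zero_one (e : ℕ → El) (i : ℕ) : cn e i 0 1 = e (i + 1) := by
  simp [cn]

section
variable {b c : ℤ} (S : Sys b c)

theorem faa_cover_aux {ρ i : ℕ} (hi : i < S.r) {t : ℝ} (n : ℕ) :
    ∀ p q p' q' : ℕ, (p : ℤ) * q' - q * p' = 1 → p + q ≤ ρ → p' + q' ≤ ρ →
      S.u (cn S.e i p q) ≤ t → t < S.u (cn S.e i p' q') →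
      2 * ρ ≤ n + (p + q + p' + q') →
      ∃ p q p' q' : ℕ, S.Cell ρ i p q p' q' ∧
        S.u (cn S.e i p q) ≤ t ∧ t < S.u (cn S.e i p' q') := by
  induction n with
  | zero =>
    intro p q p' q' hd h1 h2 h3 h4 h5
    refine ⟨p, q, p', q', ⟨hi, hd, h1, h2, ?_⟩, h3, h4⟩
    by_contra hcon
    have : ρ = 0 := by omega
    subst this
    have hp : p = 0 := by omega
    have hq : q = 0 := by omega
    subst hp hq
    simp at hd
  | succ n ih =>
    intro p q p' q' hd h1 h2 h3 h4 h5
    by_cases hρ : ρ < p + q + p' + q'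
    · exact ⟨p, q, p', q', ⟨hi, hd, h1, h2, hρ⟩, h3, h4⟩
    · have hpq : 1 ≤ p + q := by
        by_contra hcon
        have hp : p = 0 := by omega
        have hq : q = 0 := by omega
        subst hp hq
        simp at hd
      have hpq' : 1 ≤ p' + q' := by
        by_contra hcon
        have hp : p' = 0 := by omega
        have hq : q' = 0 := by omega
        subst hp hq
        simp at hd
      by_cases hm : S.u (cn S.e i (p + p') (q + q')) ≤ t
      · refine ih (p + p') (q + q') p' q' ?_ (by omega) h2 hm h4 (by omega)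
        push_cast
        linear_combination hd
      · refine ih p q (p + p') (q + q') ?_ h1 (by omega) h3 (not_le.mp hm) (by omega)
        push_cast
        linear_combination hd

/-- every direction lies in a cell -/
theorem cell_cover_pr {ρ i : ℕ} (hρ : 1 ≤ ρ) (hi : i < S.r) {t : ℝ} (h1 : S.u (S.e i) ≤ t)
    (h2 : t < S.u (S.e (i + 1))) : ∃ p q p' q' : ℕ, S.Cell ρ i p q p' q' ∧
      S.u (cn S.e i p q) ≤ t ∧ t < S.u (cn S.e i p' q') := by
  refine faa_cover_aux S hi (2 * ρ) 1 0 0 1 (by norm_num) (by omega) (by omega) ?_ ?_ (by omega)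
  · rw [faa_cn_one_zero]; exact h1
  · rw [faa_cn_zero_one]; exact h2

theorem faa_vec_aux {ρ i s t : ℕ} (hi : i < S.r) (h : ρ < s + t) (n : ℕ) :
    ∀ p q p' q' α β : ℕ, (p : ℤ) * q' - q * p' = 1 → p + q ≤ ρ → p' + q' ≤ ρ →
      1 ≤ α → 1 ≤ β → s = α * p + β * p' → t = α * q + β * q' → Nat.Coprime α β →
      α + β ≤ n →
      ∃ p q p' q' α β : ℕ, S.Cell ρ i p q p' q' ∧ 1 ≤ α ∧ 1 ≤ β ∧
        s = α * p + β * p' ∧ t = α * q + β * q' := by
  induction n with
  | zero =>
    intro p q p' q' α β hd h1 h2 hα hβ hs ht hc hn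
    omega
  | succ n ih =>
    intro p q p' q' α β hd h1 h2 hα hβ hs ht hc hn
    by_cases hρ : ρ < p + q + p' + q'
    · exact ⟨p, q, p', q', α, β, ⟨hi, hd, h1, h2, hρ⟩, hα, hβ, hs, ht⟩
    · rcases lt_trichotomy α β with hlt | heq | hgt
      · obtain ⟨k, rfl⟩ : ∃ k, β = α + k := ⟨β - α, by omega⟩
        refine ih (p + p') (q + q') p' q' α k ?_ (by omega) h2 hα (by omega) ?_ ?_ ?_ (by omega)
        · push_cast
          linear_combination hd
        · rw [hs]; ring
        · rw [ht]; ring
        · exact (Nat.coprime_self_add_right.mp hc)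
      · subst heq
        have h1' : α = 1 := (Nat.coprime_self α).mp hc
        subst h1'
        omega
      · obtain ⟨k, rfl⟩ : ∃ k, α = β + k := ⟨α - β, by omega⟩
        refine ih p q (p + p') (q + q') k β ?_ h1 (by omega) (by omega) hβ ?_ ?_ ?_ (by omega)
        · push_cast
          linear_combination hd
        · rw [hs]; ring
        · rw [ht]; ring
        · exact (Nat.coprime_self_add_left.mp hc)

/-- every primitive vector of large height lies in the interior of a cell -/
theorem cell_vec_pr {ρ i s t : ℕ} (hρ : 1 ≤ ρ) (hi : i < S.r) (hst : Nat.Coprime s t)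
    (h : ρ < s + t) : ∃ p q p' q' α β : ℕ, S.Cell ρ i p q p' q' ∧ 1 ≤ α ∧ 1 ≤ β ∧
      s = α * p + β * p' ∧ t = α * q + β * q' := by
  have hs : 1 ≤ s := by
    by_contra hcon
    have h0 : s = 0 := by omega
    subst h0
    have : t = 1 := by simpa using hst
    omega
  have ht : 1 ≤ t := by
    by_contra hcon
    have h0 : t = 0 := by omega
    subst h0
    have : s = 1 := by simpa using hst
    omega
  exact faa_vec_aux S hi h (s + t) 1 0 0 1 s t (by norm_num) (by omega) (by omega) hs ht
    (by ring) (by ring) hst le_rfl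

end

end Pool.Agent.MQ

namespace Pool.Agent.MQ

theorem cell_cover : type_of% @cell_cover_pr := @cell_cover_pr
theorem cell_vec : type_of% @cell_vec_pr := @cell_vec_pr

end Pool.Agent.MQ
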