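import Pool.Agent.Lib_helper39.MQ.Defs

/-! MQ, block FAB: a change of sign leads to an edge. -/

namespace Pool.Agent.MQ

open Filter Topology MeasureTheory

theorem fab_path (G : ℕ → ℕ → ℤ) : ∀ (n α β p q p' q' : ℕ), α + β = n →
    (p : ℤ) * q' - q * p' = 1 → 1 ≤ α → 1 ≤ β → Nat.Coprime α β →
    G (α * p + β * p') (α * q + β * q') ≠ G p q →
    ∃ x y x' y' A B A' B' α' β' : ℕ,
      x = A * p + B * p' ∧ y = A * q + B * q' ∧ x' = A' * p + B' * p' ∧ y' = A' * q + B' * q' ∧
      (x : ℤ) * y' - y * x' = 1 ∧ G x y ≠ G x' y' ∧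
      α * p + β * p' = α' * x + β' * x' ∧ α * q + β * q' = α' * y + β' * y' ∧
      x + y ≤ (α * p + β * p') + (α * q + β * q') ∧
      x' + y' ≤ (α * p + β * p') + (α * q + β * q') := by
  intro n
  induction n using Nat.strong_induction_on with
  | _ n ih =>
    intro α β p q p' q' hn hd hα hβ hc hg
    have hαp : p ≤ α * p := Nat.le_mul_of_pos_left _ hα
    have hαq : q ≤ α * q := Nat.le_mul_of_pos_left _ hα
    have hβp : p' ≤ β * p' := Nat.le_mul_of_pos_left _ hβ
    have hβq : q' ≤ β * q' := Nat.le_mul_of_pos_left _ hβ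
    by_cases h1 : G p q = G p' q'
    · rcases lt_trichotomy α β with hlt | heq | hgt
      · -- `α < β`
        obtain ⟨γ, rfl⟩ := Nat.exists_eq_add_of_lt hlt
        by_cases h2 : G (p + p') (q + q') = G p' q'
        · have e1 : α * (p + p') + (γ + 1) * p' = α * p + (α + γ + 1) * p' := by ring
          have e2 : α * (q + q') + (γ + 1) * q' = α * q + (α + γ + 1) * q' := by ring
          have hc' : Nat.Coprime α (γ + 1) := by
            have : α + γ + 1 = γ + 1 + α := by ring
            rw [this, Nat.coprime_add_self_right] at hc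
            exact hc
          obtain ⟨x, y, x', y', A, B, A', B', α', β', r1, r2, r3, r4, r5, r6, r7, r8, r9, r10⟩ :=
            ih (α + (γ + 1)) (by omega) α (γ + 1) (p + p') (q + q') p' q' rfl
              (by push_cast; linear_combination hd) hα (by omega) hc'
              (by rw [e1, e2, h2, ← h1]; exact hg)
          rw [e1] at r7 r9 r10
          rw [e2] at r8 r9 r10
          refine ⟨x, y, x', y', A, A + B, A', A' + B', α', β', ?_, ?_, ?_, ?_, r5, r6, r7, r8,
            r9, r10⟩
          · rw [r1]; ring
          · rw [r2]; ring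
          · rw [r3]; ring
          · rw [r4]; ring
        · refine ⟨p + p', q + q', p', q', 1, 1, 0, 1, α, γ + 1, by ring, by ring, by ring, by ring,
            by push_cast; linear_combination hd, h2, by ring, by ring, ?_, ?_⟩
          · omega
          · omega
      · -- `α = β = 1`
        subst heq
        have : α = 1 := by rwa [Nat.coprime_self] at hc
        subst this
        refine ⟨p, q, p + p', q + q', 1, 0, 1, 1, 0, 1, by ring, by ring, by ring, by ring,
          by push_cast; linear_combination hd, ?_, by ring, by ring, by omega, by omega⟩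
        intro h
        apply hg
        rw [h]
        congr 1 <;> ring
      · -- `β < α`
        obtain ⟨γ, rfl⟩ := Nat.exists_eq_add_of_lt hgt
        have e1 : (γ + 1) * p + β * (p + p') = (β + γ + 1) * p + β * p' := by ring
        have e2 : (γ + 1) * q + β * (q + q') = (β + γ + 1) * q + β * q' := by ring
        have hc' : Nat.Coprime (γ + 1) β := by
          have : β + γ + 1 = γ + 1 + β := by ring
          rw [this, Nat.coprime_add_self_left] at hc
          exact hc
        obtain ⟨x, y, x', y', A, B, A', B', α', β', r1, r2, r3, r4, r5, r6, r7, r8, r9, r10⟩ :=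
          ih (γ + 1 + β) (by omega) (γ + 1) β p q (p + p') (q + q') rfl
            (by push_cast; linear_combination hd) (by omega) hβ hc'
            (by rw [e1, e2]; exact hg)
        rw [e1] at r7 r9 r10
        rw [e2] at r8 r9 r10
        refine ⟨x, y, x', y', A + B, B, A' + B', B', α', β', ?_, ?_, ?_, ?_, r5, r6, r7, r8,
          r9, r10⟩
        · rw [r1]; ring
        · rw [r2]; ring
        · rw [r3]; ring
        · rw [r4]; ring
    · exact ⟨p, q, p', q', 1, 0, 0, 1, α, β, by ring, by ring, by ring, by ring, hd, h1, rfl, rfl,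
        by omega, by omega⟩

section
variable {b c : ℤ} (S : Sys b c)

theorem sign_path_pr {h : ℕ → ℤ} (hh : Sgn h) {i p q p' q' α β : ℕ} (hi : i < S.r)
    (hd : (p : ℤ) * q' - q * p' = 1) (hα : 1 ≤ α) (hβ : 1 ≤ β) (hc : Nat.Coprime α β)
    (hg : gg b c h (cn S.e i (α * p + β * p') (α * q + β * q')) ≠ gg b c h (cn S.e i p q)) :
    ∃ x y x' y' A B A' B' α' β' : ℕ,
      x = A * p + B * p' ∧ y = A * q + B * q' ∧ x' = A' * p + B' * p' ∧ y' = A' * q + B' * q' ∧
      (x : ℤ) * y' - y * x' = 1 ∧ gg b c h (cn S.e i x y) ≠ gg b c h (cn S.e i x' y') ∧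
      α * p + β * p' = α' * x + β' * x' ∧ α * q + β * q' = α' * y + β' * y' ∧
      x + y ≤ (α * p + β * p') + (α * q + β * q') ∧
      x' + y' ≤ (α * p + β * p') + (α * q + β * q') :=
  fab_path (fun s t => gg b c h (cn S.e i s t)) (α + β) α β p q p' q' rfl hd hα hβ hc hg

end

end Pool.Agent.MQ

namespace Pool.Agent.MQ

theorem sign_path : type_of% @sign_path_pr := @sign_path_pr

end Pool.Agent.MQ
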