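import Pool.Agent.Lib_helper39.MQ.Defs
import Pool.Agent.Lib_helper39.MQX.ALG
import Pool.Agent.Lib_helper39.MQX.SBA
import Pool.Agent.Lib_helper39.MQX.SBB
import Pool.Agent.Lib_helper39.MQX.SBC

/-! MQ, block NEA. -/

namespace Pool.Agent.MQ

open Filter Topology MeasureTheory

theorem nea_count (s t : ℕ) (hst : Nat.Coprime s t) (D H : ℝ) (hD : 0 ≤ D) (hH : 0 ≤ H)
    (A : Finset (ℕ × ℕ))
    (hA : ∀ q ∈ A, ((q.1 + q.2 : ℕ) : ℝ) ≤ H ∧ |(((q.1 : ℤ) * t - q.2 * s : ℤ) : ℝ)| ≤ D) :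
    (A.card : ℝ) ≤ (2 * D + 1) * (H / ((s + t : ℕ) : ℝ) + 1) := by
  have hpos : 0 < s + t := by
    rcases Nat.eq_zero_or_pos (s + t) with h | h
    · have h1 : s = 0 := by omega
      have h2 : t = 0 := by omega
      subst h1; subst h2
      simp [Nat.Coprime] at hst
    · exact h
  have hposR : (0 : ℝ) < ((s + t : ℕ) : ℝ) := by exact_mod_cast hpos
  set T : Finset (ℤ × ℕ) := (Finset.Icc (-⌊D⌋) ⌊D⌋) ×ˢ
    (Finset.range (⌊H / ((s + t : ℕ) : ℝ)⌋₊ + 1)) with hT
  have hcard : A.card ≤ T.card := by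
    apply Finset.card_le_card_of_injOn
      (fun q : ℕ × ℕ => (((q.1 : ℤ) * t - q.2 * s, (q.1 + q.2) / (s + t)) : ℤ × ℕ))
    · intro q hq
      obtain ⟨h1, h2⟩ := hA q (by simpa using hq)
      rw [hT]
      simp only [Finset.coe_product, Set.mem_prod, Finset.coe_Icc, Set.mem_Icc, Finset.coe_range,
        Set.mem_Iio]
      rw [abs_le] at h2
      refine ⟨⟨?_, ?_⟩, ?_⟩
      · have : -((q.1 : ℤ) * t - q.2 * s) ≤ ⌊D⌋ := by
          rw [Int.le_floor]; push_cast at h2 ⊢; linarith [h2.1]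
        linarith
      · rw [Int.le_floor]; exact h2.2
      · rw [Nat.lt_succ_iff]
        apply Nat.le_floor
        rw [le_div_iff₀ hposR]
        have : ((q.1 + q.2) / (s + t)) * (s + t) ≤ q.1 + q.2 := Nat.div_mul_le_self _ _
        calc (((q.1 + q.2) / (s + t) : ℕ) : ℝ) * ((s + t : ℕ) : ℝ)
            = ((((q.1 + q.2) / (s + t)) * (s + t) : ℕ) : ℝ) := by push_cast; ring
          _ ≤ ((q.1 + q.2 : ℕ) : ℝ) := by exact_mod_cast this
          _ ≤ H := h1
    · intro q hq q' hq' h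
      simp only [Prod.mk.injEq] at h
      obtain ⟨h1, h2⟩ := h
      -- (a - a') t = (b - b') s
      have hz : ((q.1 : ℤ) - q'.1) * t = ((q.2 : ℤ) - q'.2) * s := by linarith
      have hco : IsCoprime (s : ℤ) (t : ℤ) := Nat.isCoprime_iff_coprime.mpr hst
      have hd : (s : ℤ) ∣ ((q.1 : ℤ) - q'.1) := by
        have : (s : ℤ) ∣ ((q.1 : ℤ) - q'.1) * t := ⟨(q.2 : ℤ) - q'.2, by rw [hz]; ring⟩
        exact hco.dvd_of_dvd_mul_right this
      have hd' : (t : ℤ) ∣ ((q.2 : ℤ) - q'.2) := by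
        have : (t : ℤ) ∣ ((q.2 : ℤ) - q'.2) * s := ⟨(q.1 : ℤ) - q'.1, by rw [← hz]; ring⟩
        exact hco.symm.dvd_of_dvd_mul_right this
      obtain ⟨m, hm⟩ := hd
      obtain ⟨m', hm'⟩ := hd'
      have hmm : ∃ k : ℤ, ((q.1 : ℤ) - q'.1) = s * k ∧ ((q.2 : ℤ) - q'.2) = t * k := by
        rcases Nat.eq_zero_or_pos s with hs | hs
        · refine ⟨m', ?_, hm'⟩
          rw [hs] at hm ⊢
          push_cast at hm ⊢
          linarith
        · refine ⟨m, hm, ?_⟩
          rw [hm, hm'] at hz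
          have hs' : (s : ℤ) ≠ 0 := by positivity
          have h3 : (s : ℤ) * (t * m) = s * (t * m') := by linarith
          have h4 : (t : ℤ) * m = t * m' := mul_left_cancel₀ hs' h3
          rw [hm', h4]
      obtain ⟨k, hk1, hk2⟩ := hmm
      have hsum : ((q.1 + q.2 : ℕ) : ℤ) - ((q'.1 + q'.2 : ℕ) : ℤ) = ((s + t : ℕ) : ℤ) * k := by
        push_cast; linarith
      have e1 := Nat.div_add_mod (q.1 + q.2) (s + t)
      have e2 := Nat.div_add_mod (q'.1 + q'.2) (s + t)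
      have l1 := Nat.mod_lt (q.1 + q.2) hpos
      have l2 := Nat.mod_lt (q'.1 + q'.2) hpos
      rw [h2] at e1
      have habs : |((q.1 + q.2 : ℕ) : ℤ) - ((q'.1 + q'.2 : ℕ) : ℤ)| < ((s + t : ℕ) : ℤ) := by
        rw [abs_lt]; constructor <;> · push_cast; omega
      rw [hsum, abs_mul] at habs
      have hk0 : k = 0 := by
        by_contra hne
        have : 1 ≤ |k| := Int.one_le_abs hne
        have h5 : |((s + t : ℕ) : ℤ)| = ((s + t : ℕ) : ℤ) := abs_of_nonneg (by positivity)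
        rw [h5] at habs
        nlinarith
      rw [hk0] at hk1 hk2
      ext
      · have : (q.1 : ℤ) = q'.1 := by linarith
        exact_mod_cast this
      · have : (q.2 : ℤ) = q'.2 := by linarith
        exact_mod_cast this
  have hT' : (T.card : ℝ) ≤ (2 * D + 1) * (H / ((s + t : ℕ) : ℝ) + 1) := by
    rw [hT, Finset.card_product]
    push_cast
    rw [Int.card_Icc, Finset.card_range]
    have h0 : 0 ≤ ⌊D⌋ := Int.floor_nonneg.mpr hD
    have h1 : (((⌊D⌋ + 1 - -⌊D⌋).toNat : ℕ) : ℝ) ≤ 2 * D + 1 := by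
      have h2 : (((⌊D⌋ + 1 - -⌊D⌋).toNat : ℕ) : ℤ) = ⌊D⌋ + 1 - -⌊D⌋ := Int.toNat_of_nonneg (by linarith)
      have h3 : (((⌊D⌋ + 1 - -⌊D⌋).toNat : ℕ) : ℝ) = ((⌊D⌋ + 1 - -⌊D⌋ : ℤ) : ℝ) := by
        exact_mod_cast h2
      rw [h3]; push_cast
      have := Int.floor_le D
      linarith
    have h4 : ((⌊H / ((s + t : ℕ) : ℝ)⌋₊ + 1 : ℕ) : ℝ) ≤ H / ((s + t : ℕ) : ℝ) + 1 := by
      push_cast
      have := Nat.floor_le (a := H / ((s + t : ℕ) : ℝ)) (by positivity)
      push_cast at this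
      linarith
    have h5 : (0 : ℝ) ≤ 2 * D + 1 := by linarith
    push_cast at h4 ⊢
    exact mul_le_mul h1 h4 (by positivity) h5
  exact le_trans (by exact_mod_cast hcard) hT'

/-- the vertices -/
noncomputable def nea_box (ρ : ℕ) : Finset (ℕ × ℕ) :=
  (Finset.range (ρ + 1) ×ˢ Finset.range (ρ + 1)).filter
    (fun q => Nat.Coprime q.1 q.2 ∧ q.1 + q.2 ≤ ρ)

theorem nea_box_card {ρ : ℕ} (hρ : 1 ≤ ρ) : ((nea_box ρ).card : ℝ) ≤ 4 * (ρ : ℝ) ^ 2 := by
  have h1 : (nea_box ρ).card ≤ (ρ + 1) * (ρ + 1) := by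
    unfold nea_box
    refine (Finset.card_filter_le _ _).trans ?_
    rw [Finset.card_product, Finset.card_range]
  have h2 : ((nea_box ρ).card : ℝ) ≤ (ρ + 1) * (ρ + 1) := by exact_mod_cast h1
  have h3 : (1 : ℝ) ≤ ρ := by exact_mod_cast hρ
  nlinarith

theorem nea_box_sum (ρ : ℕ) :
    ∑ q ∈ nea_box ρ, (1 : ℝ) / ((q.1 + q.2 : ℕ) : ℝ) ≤ 2 * ρ := by
  have hmap : ∀ q ∈ nea_box ρ, q.1 + q.2 ∈ Finset.Icc 1 ρ := by
    intro q hq
    unfold nea_box at hq
    simp only [Finset.mem_filter, Finset.mem_product, Finset.mem_range] at hq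
    rw [Finset.mem_Icc]
    refine ⟨?_, hq.2.2⟩
    rcases Nat.eq_zero_or_pos (q.1 + q.2) with h | h
    · have h1 : q.1 = 0 := by omega
      have h2 : q.2 = 0 := by omega
      rw [h1, h2] at hq
      simp [Nat.Coprime] at hq
    · exact h
  rw [← Finset.sum_fiberwise_of_maps_to hmap]
  calc ∑ n ∈ Finset.Icc 1 ρ, ∑ q ∈ nea_box ρ with q.1 + q.2 = n, (1 : ℝ) / ((q.1 + q.2 : ℕ) : ℝ)
      ≤ ∑ n ∈ Finset.Icc 1 ρ, (2 : ℝ) := by
        apply Finset.sum_le_sum
        intro n hn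
        rw [Finset.mem_Icc] at hn
        have hn1 : (1 : ℝ) ≤ n := by exact_mod_cast hn.1
        have h1 : ∑ q ∈ nea_box ρ with q.1 + q.2 = n, (1 : ℝ) / ((q.1 + q.2 : ℕ) : ℝ) =
            ((nea_box ρ).filter (fun q => q.1 + q.2 = n)).card * (1 / (n : ℝ)) := by
          rw [Finset.sum_congr rfl (g := fun _ => 1 / (n : ℝ))]
          · rw [Finset.sum_const, nsmul_eq_mul]
          · intro q hq
            rw [Finset.mem_filter] at hq
            rw [hq.2]
        rw [h1]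
        have h2 : ((nea_box ρ).filter (fun q => q.1 + q.2 = n)).card ≤ n + 1 := by
          have : ((nea_box ρ).filter (fun q => q.1 + q.2 = n)).card ≤ (Finset.range (n + 1)).card := by
            apply Finset.card_le_card_of_injOn (fun q : ℕ × ℕ => q.1)
            · intro q hq
              simp only [Finset.coe_filter, Set.mem_ofPred_eq] at hq
              simp only [Finset.coe_range, Set.mem_Iio]
              omega
            · intro q hq q' hq' h
              simp only [Finset.coe_filter, Set.mem_ofPred_eq] at hq hq'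
              simp only at h
              ext
              · exact h
              · omega
          simpa using this
        have h3 : (((nea_box ρ).filter (fun q => q.1 + q.2 = n)).card : ℝ) ≤ n + 1 := by
          exact_mod_cast h2
        calc (((nea_box ρ).filter (fun q => q.1 + q.2 = n)).card : ℝ) * (1 / (n : ℝ))
            ≤ (n + 1) * (1 / (n : ℝ)) := by
              apply mul_le_mul_of_nonneg_right h3 (by positivity)
          _ ≤ 2 := by
              rw [mul_one_div, div_le_iff₀ (by linarith)]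
              linarith
    _ = 2 * ρ := by
        rw [Finset.sum_const, Nat.card_Icc]
        simp
        ring

section
variable {b c : ℤ} (S : Sys b c)

theorem nea_mono {i j : ℕ} (hij : i ≤ j) (hj : j ≤ S.r) : S.u (S.e i) ≤ S.u (S.e j) := by
  induction j, hij using Nat.le_induction with
  | base => exact le_rfl
  | succ n hn ih =>
    have h1 := (u_ends S).2.2 n (by omega)
    exact (ih (by omega)).trans h1.le

theorem nea_e0 (i : ℕ) : cn S.e i 1 0 = S.e i := by
  unfold cn; ext <;> simp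

theorem nea_e1 (i : ℕ) : cn S.e i 0 1 = S.e (i + 1) := by
  unfold cn; ext <;> simp

/-- a vertex in the same cone -/
theorem nea_same {v : El} {η : ℝ} {ρ : ℕ} (hρ : 1 ≤ ρ) (hv : S.wd v)
    (h : ∃ i s t : ℕ, i < S.r ∧ Nat.Coprime s t ∧ s + t ≤ ρ ∧
      |S.u v - S.u (cn S.e i s t)| ≤ η) :
    ∃ j x y s t : ℕ, j < S.r ∧ 1 ≤ x ∧ v = cn S.e j x y ∧ Nat.Coprime s t ∧ s + t ≤ ρ ∧
      |S.u v - S.u (cn S.e j s t)| ≤ η := by
  obtain ⟨i, s, t, hi, hst, hle, hu⟩ := h
  obtain ⟨j, x, y, hj, hx, rfl⟩ := (S.e_wd v).mp hv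
  have hc := u_cone S hj (s := x) (t := y) (by omega)
  have hst1 : 1 ≤ s + t := by
    rcases Nat.eq_zero_or_pos (s + t) with h | h
    · have h1 : s = 0 := by omega
      have h2 : t = 0 := by omega
      subst h1; subst h2
      simp [Nat.Coprime] at hst
    · exact h
  have hc' := u_cone S hi (s := s) (t := t) hst1
  rcases lt_trichotomy i j with hij | hij | hij
  · refine ⟨j, x, y, 1, 0, hj, hx, rfl, by simp, by omega, ?_⟩
    rw [nea_e0]
    have h1 : S.u (S.e (i + 1)) ≤ S.u (S.e j) := nea_mono S (by omega) hj.le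
    rw [abs_le] at hu ⊢
    constructor <;> linarith [hu.1, hu.2, hc.1, hc'.2]
  · subst hij
    exact ⟨i, x, y, s, t, hj, hx, rfl, hst, hle, hu⟩
  · refine ⟨j, x, y, 0, 1, hj, hx, rfl, by simp, by omega, ?_⟩
    rw [nea_e1]
    have h1 : S.u (S.e (j + 1)) ≤ S.u (S.e i) := nea_mono S (by omega) hi.le
    rw [abs_le] at hu ⊢
    constructor <;> linarith [hu.1, hu.2, hc.2, hc'.1]

open Classical in
theorem near_card_pr : ∃ C : ℝ, 1 ≤ C ∧ ∀ (X η : ℝ) (ρ : ℕ), 1 ≤ X → 0 ≤ η → 1 ≤ ρ →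
    (ρ : ℝ) ≤ Real.sqrt X →
    (((S.MF X).filter (fun v => ∃ i s t : ℕ, i < S.r ∧ Nat.Coprime s t ∧ s + t ≤ ρ ∧
      |S.u v - S.u (cn S.e i s t)| ≤ η)).card : ℝ) ≤
      C * (η * X * ρ ^ 2 + Real.sqrt X * ρ + ρ ^ 2) := by
  obtain ⟨Cn, hCn, hcn⟩ := cone_nm S
  have hc₁ := S.c₁_pos
  have hCs : 1 ≤ Real.sqrt Cn := by
    rw [show (1 : ℝ) = Real.sqrt 1 by simp]; exact Real.sqrt_le_sqrt hCn
  set a := Real.sqrt Cn with ha
  have ha2 : a ^ 2 = Cn := Real.sq_sqrt (by linarith)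
  set K := a / S.c₁ with hK
  have hKpos : 0 < K := by positivity
  have hr1 : (1 : ℝ) ≤ S.r := by exact_mod_cast S.r_pos
  refine ⟨S.r * (8 * K * (a + 1) + 2 * a + 4), ?_, ?_⟩
  · have : 1 ≤ 8 * K * (a + 1) + 2 * a + 4 := by
      have : 0 ≤ 8 * K * (a + 1) := by positivity
      linarith
    nlinarith
  intro X η ρ hX hη hρ hρX
  have hX0 : 0 ≤ X := by linarith
  set H := a * Real.sqrt X with hH
  have hsX : 1 ≤ Real.sqrt X := by
    rw [show (1 : ℝ) = Real.sqrt 1 by simp]; exact Real.sqrt_le_sqrt hX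
  have hsX2 : Real.sqrt X ^ 2 = X := Real.sq_sqrt hX0
  have hH0 : 0 ≤ H := by positivity
  -- the boxes
  let Ab : ℕ × ℕ → Finset (ℕ × ℕ) := fun q =>
    ((Finset.range (⌊H⌋₊ + 1)) ×ˢ (Finset.range (⌊H⌋₊ + 1))).filter
      (fun p => ((p.1 + p.2 : ℕ) : ℝ) ≤ H ∧
        |(((p.1 : ℤ) * q.2 - p.2 * q.1 : ℤ) : ℝ)| ≤ K * η * Real.sqrt X * ((q.1 + q.2 : ℕ) : ℝ))
  have hsub : (S.MF X).filter (fun v => ∃ i s t : ℕ, i < S.r ∧ Nat.Coprime s t ∧ s + t ≤ ρ ∧
      |S.u v - S.u (cn S.e i s t)| ≤ η) ⊆ (Finset.range S.r ×ˢ nea_box ρ).biUnion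
        (fun q => (Ab q.2).image (fun p => cn S.e q.1 p.1 p.2)) := by
    intro v hv
    rw [Finset.mem_filter] at hv
    obtain ⟨hvM, hv2⟩ := hv
    rw [mem_MF] at hvM
    obtain ⟨j, x, y, s, t, hj, hx, hvxy, hst, hle, hu⟩ := nea_same S hρ hvM.1 hv2
    have hst1 : 1 ≤ s + t := by
      rcases Nat.eq_zero_or_pos (s + t) with h | h
      · have h1 : s = 0 := by omega
        have h2 : t = 0 := by omega
        subst h1; subst h2
        simp [Nat.Coprime] at hst
      · exact h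
    rw [Finset.mem_biUnion]
    refine ⟨(j, (s, t)), ?_, ?_⟩
    · rw [Finset.mem_product]
      refine ⟨Finset.mem_range.mpr hj, ?_⟩
      unfold nea_box
      rw [Finset.mem_filter, Finset.mem_product, Finset.mem_range, Finset.mem_range]
      exact ⟨⟨by simp only; omega, by simp only; omega⟩, hst, hle⟩
    · rw [Finset.mem_image]
      refine ⟨(x, y), ?_, hvxy.symm⟩
      have hxyH : ((x + y : ℕ) : ℝ) ≤ H := by
        have h1 := (hcn j x y hj).1
        rw [← hvxy] at h1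
        have h2 : ((x + y : ℕ) : ℝ) ^ 2 ≤ Cn * X := by
          have h3 := h1.trans hvM.2
          rw [div_le_iff₀ (by linarith)] at h3
          linarith
        have h4 : ((x + y : ℕ) : ℝ) ^ 2 ≤ H ^ 2 := by
          rw [hH, mul_pow, ha2, hsX2]; exact h2
        exact le_of_sq_le_sq h4 hH0
      have hb : x + y ≤ ⌊H⌋₊ := Nat.le_floor hxyH
      rw [Finset.mem_filter, Finset.mem_product, Finset.mem_range, Finset.mem_range]
      refine ⟨⟨by simp only; omega, by simp only; omega⟩, hxyH, ?_⟩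
      simp only
      -- the determinant
      have hnv : (0 : ℝ) < nm b c v := by exact_mod_cast wd_nm S hvM.1
      have hst1R : (1 : ℝ) ≤ ((s + t : ℕ) : ℝ) := by exact_mod_cast hst1
      have hnp : (0 : ℝ) < nm b c (cn S.e j s t) := by
        have h1 := (hcn j s t hj).1
        have h2 : 0 < ((s + t : ℕ) : ℝ) ^ 2 / Cn := by positivity
        linarith
      have hnp2 : (nm b c (cn S.e j s t) : ℝ) ≤ Cn * ((s + t : ℕ) : ℝ) ^ 2 := (hcn j s t hj).2
      have hsq : Real.sqrt (nm b c v * nm b c (cn S.e j s t)) ≤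
          a * Real.sqrt X * ((s + t : ℕ) : ℝ) := by
        apply Real.sqrt_le_iff.mpr
        refine ⟨by positivity, ?_⟩
        have h5 : (a * Real.sqrt X * ((s + t : ℕ) : ℝ)) ^ 2 = X * (Cn * ((s + t : ℕ) : ℝ) ^ 2) := by
          rw [mul_pow, mul_pow, ha2, hsX2]; ring
        rw [h5]
        exact mul_le_mul hvM.2 hnp2 hnp.le hX0
      have hsqpos : 0 < Real.sqrt (nm b c v * nm b c (cn S.e j s t)) := Real.sqrt_pos.mpr (by positivity)
      have hdt1 : dt v (cn S.e j s t) = (x : ℤ) * t - y * s := by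
        rw [hvxy, dt_cn, S.e_det j hj, mul_one]
      have hdt2 : dt (cn S.e j s t) v = (s : ℤ) * y - t * x := by
        rw [hvxy, dt_cn, S.e_det j hj, mul_one]
      rcases lt_trichotomy (0 : ℤ) (dt v (cn S.e j s t)) with hd | hd | hd
      · have h1 := (S.u_det j x y s t hj (by rw [← hvxy]; exact hd)).1
        rw [← hvxy] at h1
        have h2 : S.c₁ * dt v (cn S.e j s t) / Real.sqrt (nm b c v * nm b c (cn S.e j s t)) ≤ η := by
          refine h1.trans ?_
          have := (abs_le.mp hu).1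
          change S.u (cn S.e j s t) - S.u v ≤ η
          linarith
        rw [div_le_iff₀ hsqpos] at h2
        have h3 : S.c₁ * dt v (cn S.e j s t) ≤ η * (a * Real.sqrt X * ((s + t : ℕ) : ℝ)) :=
          h2.trans (mul_le_mul_of_nonneg_left hsq hη)
        rw [← hdt1, abs_of_pos (by exact_mod_cast hd)]
        rw [hK, div_mul_eq_mul_div, div_mul_eq_mul_div, div_mul_eq_mul_div, le_div_iff₀ hc₁]
        linarith
      · rw [← hdt1, ← hd]
        simp only [Int.cast_zero, abs_zero]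
        positivity
      · have hd' : 0 < dt (cn S.e j s t) v := by rw [hdt2]; rw [hdt1] at hd; linarith
        have h1 := (S.u_det j s t x y hj (by rw [← hvxy]; exact hd')).1
        rw [← hvxy] at h1
        have h2 : S.c₁ * dt (cn S.e j s t) v / Real.sqrt (nm b c (cn S.e j s t) * nm b c v) ≤ η := by
          refine h1.trans ?_
          have := (abs_le.mp hu).2
          change S.u v - S.u (cn S.e j s t) ≤ η
          linarith
        rw [mul_comm ((nm b c (cn S.e j s t) : ℤ) : ℝ) _, div_le_iff₀ hsqpos] at h2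
        have h3 : S.c₁ * dt (cn S.e j s t) v ≤ η * (a * Real.sqrt X * ((s + t : ℕ) : ℝ)) :=
          h2.trans (mul_le_mul_of_nonneg_left hsq hη)
        have h4 : ((x : ℤ) * t - y * s) = - dt (cn S.e j s t) v := by rw [hdt2]; ring
        rw [h4, Int.cast_neg, abs_neg, abs_of_pos (by exact_mod_cast hd')]
        rw [hK, div_mul_eq_mul_div, div_mul_eq_mul_div, div_mul_eq_mul_div, le_div_iff₀ hc₁]
        linarith
  -- the count
  have hcount : (((S.MF X).filter (fun v => ∃ i s t : ℕ, i < S.r ∧ Nat.Coprime s t ∧ s + t ≤ ρ ∧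
      |S.u v - S.u (cn S.e i s t)| ≤ η)).card : ℝ) ≤
      ∑ q ∈ Finset.range S.r ×ˢ nea_box ρ, ((Ab q.2).card : ℝ) := by
    have h1 := Finset.card_le_card hsub
    have h2 := h1.trans Finset.card_biUnion_le
    have h3 : ∑ q ∈ Finset.range S.r ×ˢ nea_box ρ,
        ((Ab q.2).image (fun p => cn S.e q.1 p.1 p.2)).card ≤
        ∑ q ∈ Finset.range S.r ×ˢ nea_box ρ, (Ab q.2).card :=
      Finset.sum_le_sum (fun q _ => Finset.card_image_le)
    exact_mod_cast h2.trans h3
  refine hcount.trans ?_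
  rw [Finset.sum_product]
  simp only
  rw [Finset.sum_const, Finset.card_range, nsmul_eq_mul, mul_assoc]
  apply mul_le_mul_of_nonneg_left _ (by positivity)
  have hbox : ∀ q ∈ nea_box ρ, ((Ab q).card : ℝ) ≤
      2 * K * η * X * (a + 1) + 1 + H * (1 / ((q.1 + q.2 : ℕ) : ℝ)) := by
    intro q hq
    unfold nea_box at hq
    rw [Finset.mem_filter] at hq
    have hq1 : 1 ≤ q.1 + q.2 := by
      rcases Nat.eq_zero_or_pos (q.1 + q.2) with h | h
      · have h1 : q.1 = 0 := by omega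
        have h2 : q.2 = 0 := by omega
        rw [h1, h2] at hq
        simp [Nat.Coprime] at hq
      · exact h
    have hqR : (1 : ℝ) ≤ ((q.1 + q.2 : ℕ) : ℝ) := by exact_mod_cast hq1
    have hqρ : ((q.1 + q.2 : ℕ) : ℝ) ≤ Real.sqrt X := by
      refine le_trans ?_ hρX
      exact_mod_cast hq.2.2
    have h1 := nea_count q.1 q.2 hq.2.1 (K * η * Real.sqrt X * ((q.1 + q.2 : ℕ) : ℝ)) H
      (by positivity) hH0 (Ab q) (by
        intro p hp
        rw [Finset.mem_filter] at hp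
        exact hp.2)
    refine h1.trans ?_
    set n : ℝ := ((q.1 + q.2 : ℕ) : ℝ) with hn
    have hn0 : n ≠ 0 := by linarith
    have e1 : (2 * (K * η * Real.sqrt X * n) + 1) * (H / n + 1) =
        2 * K * η * Real.sqrt X * H + 2 * K * η * Real.sqrt X * n + 1 + H * (1 / n) := by
      field_simp
      ring
    rw [e1]
    have e2 : 2 * K * η * Real.sqrt X * H = 2 * K * η * X * a := by
      rw [hH]
      calc 2 * K * η * Real.sqrt X * (a * Real.sqrt X) = 2 * K * η * a * Real.sqrt X ^ 2 := by ring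
        _ = 2 * K * η * X * a := by rw [hsX2]; ring
    have e3 : 2 * K * η * Real.sqrt X * n ≤ 2 * K * η * X := by
      calc 2 * K * η * Real.sqrt X * n ≤ 2 * K * η * Real.sqrt X * Real.sqrt X :=
            mul_le_mul_of_nonneg_left hqρ (by positivity)
        _ = 2 * K * η * Real.sqrt X ^ 2 := by ring
        _ = 2 * K * η * X := by rw [hsX2]
    rw [e2]
    linarith
  have hsum := Finset.sum_le_sum hbox
  refine hsum.trans ?_
  rw [Finset.sum_add_distrib, Finset.sum_const, nsmul_eq_mul, ← Finset.mul_sum]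
  have hb1 := nea_box_card hρ
  have hb2 := nea_box_sum ρ
  have hρ0 : (0 : ℝ) ≤ (ρ : ℝ) ^ 2 := by positivity
  have t1 : ((nea_box ρ).card : ℝ) * (2 * K * η * X * (a + 1) + 1) ≤
      4 * (ρ : ℝ) ^ 2 * (2 * K * η * X * (a + 1) + 1) :=
    mul_le_mul_of_nonneg_right hb1 (by positivity)
  have t2 : H * ∑ q ∈ nea_box ρ, (1 : ℝ) / ((q.1 + q.2 : ℕ) : ℝ) ≤ H * (2 * ρ) :=
    mul_le_mul_of_nonneg_left hb2 hH0
  have t3 : 4 * (ρ : ℝ) ^ 2 * (2 * K * η * X * (a + 1) + 1) + H * (2 * ρ) =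
      8 * K * (a + 1) * (η * X * ρ ^ 2) + 2 * a * (Real.sqrt X * ρ) + 4 * ρ ^ 2 := by
    rw [hH]; ring
  have t4 : 8 * K * (a + 1) * (η * X * ρ ^ 2) + 2 * a * (Real.sqrt X * ρ) + 4 * ρ ^ 2 ≤
      (8 * K * (a + 1) + 2 * a + 4) * (η * X * ρ ^ 2 + Real.sqrt X * ρ + ρ ^ 2) := by
    have p1 : 0 ≤ η * X * (ρ : ℝ) ^ 2 := by positivity
    have p2 : 0 ≤ Real.sqrt X * (ρ : ℝ) := by positivity
    have p3 : 0 ≤ 8 * K * (a + 1) := by positivity
    have p4 : 0 ≤ 2 * a := by positivity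
    nlinarith [mul_nonneg p3 p2, mul_nonneg p3 hρ0, mul_nonneg p4 p1, mul_nonneg p4 hρ0]
  linarith

end

end Pool.Agent.MQ

namespace Pool.Agent.MQ

theorem near_card : type_of% @near_card_pr := @near_card_pr

end Pool.Agent.MQ
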