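import Pool.Agent.Lib_helper39.MQ.Defs
import Pool.Agent.Lib_helper39.MQX.ALG
import Pool.Agent.Lib_helper39.MQX.SBB
import Pool.Agent.Lib_helper39.MQX.SBC

/-! MQ, block FAC. -/

namespace Pool.Agent.MQ

open Filter Topology MeasureTheory

/-- two primitive vectors which are parallel are equal -/
theorem fac_par {s t s₁ t₁ : ℕ} (h : Nat.Coprime s t) (h₁ : Nat.Coprime s₁ t₁)
    (hd : (s : ℤ) * t₁ - t * s₁ = 0) : s = s₁ ∧ t = t₁ := by
  have e : s * t₁ = t * s₁ := by
    have : (s : ℤ) * t₁ = t * s₁ := by linarith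
    exact_mod_cast this
  have a1 : s ∣ s₁ := h.dvd_of_dvd_mul_left (Dvd.intro _ e)
  have a2 : s₁ ∣ s := h₁.dvd_of_dvd_mul_right (by
    rw [e]
    exact Dvd.intro_left _ rfl)
  have a3 : t ∣ t₁ := h.symm.dvd_of_dvd_mul_left (Dvd.intro _ e.symm)
  have a4 : t₁ ∣ t := h₁.symm.dvd_of_dvd_mul_right (by
    rw [← e]
    exact Dvd.intro_left _ rfl)
  exact ⟨Nat.dvd_antisymm a1 a2, Nat.dvd_antisymm a3 a4⟩

theorem fac_cop {s t s' t' : ℕ} (h : (s : ℤ) * t' - t * s' = 1) :
    Nat.Coprime s t ∧ Nat.Coprime s' t' := by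
  constructor
  · rw [← Nat.isCoprime_iff_coprime]
    exact ⟨t', -s', by linarith⟩
  · rw [← Nat.isCoprime_iff_coprime]
    exact ⟨-t, s, by linarith⟩

section
variable {b c : ℤ} (S : Sys b c)

theorem fac_nm_pos {i s t : ℕ} (hi : i < S.r) (h : 1 ≤ s + t) : 0 < (nm b c (cn S.e i s t) : ℝ) := by
  obtain ⟨C, hC, h1⟩ := cone_nm S
  refine lt_of_lt_of_le ?_ (h1 i s t hi).1
  have : (1 : ℝ) ≤ ((s + t : ℕ) : ℝ) := by exact_mod_cast h
  positivity

theorem fac_dt {i s t s' t' : ℕ} (hi : i < S.r) :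
    dt (cn S.e i s t) (cn S.e i s' t') = (s : ℤ) * t' - t * s' := by
  rw [dt_cn, S.e_det i hi, mul_one]

theorem fac_lt {i s t s' t' : ℕ} (hi : i < S.r) (h : 0 < (s : ℤ) * t' - t * s') :
    S.u (cn S.e i s t) < S.u (cn S.e i s' t') := by
  have h1 : 1 ≤ s + t := by
    by_contra hcon
    have h2 : s = 0 ∧ t = 0 := by omega
    rw [h2.1, h2.2] at h
    simp at h
  have h2 : 1 ≤ s' + t' := by
    by_contra hcon
    have h2 : s' = 0 ∧ t' = 0 := by omega
    rw [h2.1, h2.2] at h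
    simp at h
  have hd := fac_dt S (s := s) (t := t) (s' := s') (t' := t') hi
  have h3 := (S.u_det i s t s' t' hi (by rw [hd]; exact h)).1
  have h4 := fac_nm_pos S hi h1
  have h5 := fac_nm_pos S hi h2
  have h6 : (0 : ℝ) < dt (cn S.e i s t) (cn S.e i s' t') := by
    rw [hd]
    exact_mod_cast h
  have h7 := S.c₁_pos
  have h8 : 0 < S.c₁ * dt (cn S.e i s t) (cn S.e i s' t') /
        Real.sqrt (nm b c (cn S.e i s t) * nm b c (cn S.e i s' t')) := by positivity
  have h9 : S.u (cn S.e i s' t') - S.u (cn S.e i s t) =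
    uu S.ur (cn S.e i s' t') - uu S.ur (cn S.e i s t) := rfl
  linarith

/-- the converse, for primitive vectors -/
theorem fac_det {i s t s' t' : ℕ} (hi : i < S.r) (h : Nat.Coprime s t) (h' : Nat.Coprime s' t')
    (hu : S.u (cn S.e i s t) < S.u (cn S.e i s' t')) : 0 < (s : ℤ) * t' - t * s' := by
  by_contra hcon
  rcases lt_or_eq_of_le (not_lt.1 hcon) with h1 | h1
  · have := fac_lt S (s := s') (t := t') (s' := s) (t' := t) hi (by linarith)
    linarith
  · obtain ⟨e1, e2⟩ := fac_par h h' h1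
    subst e1
    subst e2
    exact lt_irrefl _ hu

/-- a vector inside a cell is high -/
theorem fac_inside {ρ i p q p' q' x y : ℕ} (h : S.Cell ρ i p q p' q')
    (h1 : 0 < (p : ℤ) * y - q * x) (h2 : 0 < (x : ℤ) * q' - y * p') : ρ < x + y := by
  obtain ⟨_, hd, _, _, hρ⟩ := h
  have e1 : (x : ℤ) = (x * q' - y * p') * p + (p * y - q * x) * p' := by
    linear_combination (-(x : ℤ)) * hd
  have e2 : (y : ℤ) = (x * q' - y * p') * q + (p * y - q * x) * q' := by
    linear_combination (-(y : ℤ)) * hd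
  have a1 : (0 : ℤ) ≤ p := by positivity
  have a2 : (0 : ℤ) ≤ q := by positivity
  have a3 : (0 : ℤ) ≤ p' := by positivity
  have a4 : (0 : ℤ) ≤ q' := by positivity
  have b1 : (p : ℤ) ≤ (x * q' - y * p') * p := by nlinarith
  have b2 : (p' : ℤ) ≤ (p * y - q * x) * p' := by nlinarith
  have b3 : (q : ℤ) ≤ (x * q' - y * p') * q := by nlinarith
  have b4 : (q' : ℤ) ≤ (p * y - q * x) * q' := by nlinarith
  have : (p : ℤ) + q + p' + q' ≤ x + y := by linarith
  omega

/-- the interiors of different cells are disjoint -/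
theorem cell_disj_pr {ρ i p q p' q' i₁ p₁ q₁ p₁' q₁' : ℕ} (h : S.Cell ρ i p q p' q')
    (h' : S.Cell ρ i₁ p₁ q₁ p₁' q₁') {t : ℝ} (h1 : S.u (cn S.e i p q) ≤ t)
    (h2 : t < S.u (cn S.e i p' q')) (h3 : S.u (cn S.e i₁ p₁ q₁) ≤ t)
    (h4 : t < S.u (cn S.e i₁ p₁' q₁')) :
    i = i₁ ∧ p = p₁ ∧ q = q₁ ∧ p' = p₁' ∧ q' = q₁' := by
  obtain ⟨hi, hd, hs, hs', hρ⟩ := id h
  obtain ⟨hi₁, hd₁, hs₁, hs₁', hρ₁⟩ := id h'
  obtain ⟨c1, c2⟩ := fac_cop hd
  obtain ⟨c3, c4⟩ := fac_cop hd₁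
  have hne : ∀ {s t s' t' : ℕ}, (s : ℤ) * t' - t * s' = 1 → 1 ≤ s + t ∧ 1 ≤ s' + t' := by
    intro s t s' t' hh
    constructor
    · by_contra hcon
      have h2 : s = 0 ∧ t = 0 := by omega
      rw [h2.1, h2.2] at hh
      simp at hh
    · by_contra hcon
      have h2 : s' = 0 ∧ t' = 0 := by omega
      rw [h2.1, h2.2] at hh
      simp at hh
  -- the cones are equal
  have hmono : ∀ j k : ℕ, j ≤ k → k ≤ S.r → S.u (S.e j) ≤ S.u (S.e k) := by
    intro j k hjk
    induction k, hjk using Nat.le_induction with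
    | base => exact fun _ => le_rfl
    | succ m _ ih =>
      intro hm
      exact (ih (by omega)).trans ((u_ends S).2.2 m (by omega)).le
  have hcone : i = i₁ := by
    have a1 := (u_cone S hi (hne hd).1).1
    have a2 := (u_cone S hi (hne hd).2).2
    have a3 := (u_cone S hi₁ (hne hd₁).1).1
    have a4 := (u_cone S hi₁ (hne hd₁).2).2
    rcases lt_trichotomy i i₁ with hlt | heq | hgt
    · have := hmono (i + 1) i₁ hlt hi₁.le
      linarith
    · exact heq
    · have := hmono (i₁ + 1) i hgt hi.le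
      linarith
  subst hcone
  have hv : p = p₁ ∧ q = q₁ := by
    refine fac_par c1 c3 ?_
    rcases lt_trichotomy ((p : ℤ) * q₁ - q * p₁) 0 with hlt | heq | hgt
    · exfalso
      have a1 : 0 < (p₁ : ℤ) * q - q₁ * p := by linarith
      have a2 := fac_det S hi c1 c4 (lt_of_le_of_lt h1 h4)
      have := fac_inside S h' a1 a2
      omega
    · exact heq
    · exfalso
      have a2 := fac_det S hi c3 c2 (lt_of_le_of_lt h3 h2)
      have := fac_inside S h hgt a2
      omega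
  obtain ⟨e1, e2⟩ := hv
  subst e1
  subst e2
  have hw : p' = p₁' ∧ q' = q₁' := by
    refine fac_par c2 c4 ?_
    rcases lt_trichotomy ((p' : ℤ) * q₁' - q' * p₁') 0 with hlt | heq | hgt
    · exfalso
      have := fac_inside S h (x := p₁') (y := q₁') (by linarith) (by linarith)
      omega
    · exact heq
    · exfalso
      have := fac_inside S h' (x := p') (y := q') (by linarith) hgt
      omega
  exact ⟨rfl, rfl, rfl, hw.1, hw.2⟩

end

theorem fac_uni {p q p' q' x y ρ : ℕ} (h1 : (p : ℤ) * q' - q * p' = 1)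
    (h2 : (p : ℤ) * y - q * x = 1) (a1 : p' + q' ≤ ρ) (a2 : ρ < p + q + p' + q')
    (a3 : x + y ≤ ρ) (a4 : ρ < p + q + x + y) : p' = x ∧ q' = y := by
  set k : ℤ := ((p' : ℤ) - x) * q' - p' * ((q' : ℤ) - y) with hk
  have e1 : (p' : ℤ) - x = p * k := by
    rw [hk]
    linear_combination (-((p' : ℤ) - x)) * h1 + (p' : ℤ) * (h1 - h2)
  have e2 : (q' : ℤ) - y = q * k := by
    rw [hk]
    linear_combination (-((q' : ℤ) - y)) * h1 + (q' : ℤ) * (h1 - h2)
  have hs : ((p' : ℤ) - x) + (q' - y) = (p + q) * k := by rw [e1, e2]; ring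
  have hk0 : k = 0 := by
    have b1 : ((p : ℤ) + q) * k < p + q := by
      have : ((p' : ℤ) - x) + (q' - y) < p + q := by omega
      linarith
    have b2 : -((p : ℤ) + q) < (p + q) * k := by
      have : -((p : ℤ) + q) < ((p' : ℤ) - x) + (q' - y) := by omega
      linarith
    have b3 : (0 : ℤ) < p + q := by omega
    have c1 : k < 1 := by nlinarith
    have c2 : -1 < k := by nlinarith
    omega
  rw [hk0] at e1 e2
  constructor
  · have : (p' : ℤ) = x := by linarith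
    exact_mod_cast this
  · have : (q' : ℤ) = y := by linarith
    exact_mod_cast this

theorem fac_uni' {p q p' q' x y ρ : ℕ} (h1 : (p : ℤ) * q' - q * p' = 1)
    (h2 : (x : ℤ) * q' - y * p' = 1) (a1 : p + q ≤ ρ) (a2 : ρ < p + q + p' + q')
    (a3 : x + y ≤ ρ) (a4 : ρ < x + y + p' + q') : p = x ∧ q = y := by
  have := fac_uni (p := q') (q := p') (p' := q) (q' := p) (x := y) (y := x) (ρ := ρ)
    (by linarith) (by linarith) (by omega) (by omega) (by omega) (by omega)
  exact ⟨this.2, this.1⟩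

section
variable {b c : ℤ} (S : Sys b c)

/-- the smaller height -/
def fac_m (q : ℕ × (ℕ × ℕ) × (ℕ × ℕ)) : ℕ := min (q.2.1.1 + q.2.1.2) (q.2.2.1 + q.2.2.2)

/-- a code for the lower vector -/
def fac_code (q : ℕ × (ℕ × ℕ) × (ℕ × ℕ)) : ℕ × Bool × ℕ :=
  (q.1, decide (q.2.1.1 + q.2.1.2 ≤ q.2.2.1 + q.2.2.2),
    if q.2.1.1 + q.2.1.2 ≤ q.2.2.1 + q.2.2.2 then q.2.1.1 else q.2.2.1)

theorem fac_card {ρ j : ℕ} (Q : Finset (ℕ × (ℕ × ℕ) × (ℕ × ℕ)))
    (hQ : ∀ q ∈ Q, S.Cell ρ q.1 q.2.1.1 q.2.1.2 q.2.2.1 q.2.2.2) :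
    (Q.filter (fun q => fac_m q = j)).card ≤ S.r * (2 * (j + 1)) := by
  classical
  have hcard : (Finset.range S.r ×ˢ ((Finset.univ : Finset Bool) ×ˢ Finset.range (j + 1))).card =
      S.r * (2 * (j + 1)) := by simp
  rw [← hcard]
  refine Finset.card_le_card_of_injOn fac_code ?_ ?_
  · intro q hq
    rw [Finset.mem_coe, Finset.mem_filter] at hq
    obtain ⟨hq, hj⟩ := hq
    have hc := hQ q hq
    simp only [fac_code, Finset.coe_product, Finset.coe_range, Finset.coe_univ, Set.mem_prod,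
      Set.mem_Iio, Set.mem_univ, true_and]
    refine ⟨hc.1, ?_⟩
    unfold fac_m at hj
    split_ifs with hle
    · rw [min_eq_left hle] at hj
      omega
    · rw [min_eq_right (not_le.1 hle).le] at hj
      omega
  · intro q hq q₁ hq₁ he
    rw [Finset.mem_coe, Finset.mem_filter] at hq hq₁
    obtain ⟨hq, hj⟩ := hq
    obtain ⟨hq₁, hj₁⟩ := hq₁
    obtain ⟨_, d1, d2, d3, d4⟩ := hQ q hq
    obtain ⟨_, d1', d2', d3', d4'⟩ := hQ q₁ hq₁
    obtain ⟨i, ⟨p, r⟩, ⟨p', r'⟩⟩ := q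
    obtain ⟨i₁, ⟨x, y⟩, ⟨x', y'⟩⟩ := q₁
    simp only [fac_code, fac_m, Prod.mk.injEq] at he hj hj₁ d1 d2 d3 d4 d1' d2' d3' d4'
    obtain ⟨e1, e2, e3⟩ := he
    by_cases hle : p + r ≤ p' + r'
    · have hle' : x + y ≤ x' + y' := by
        have : decide (x + y ≤ x' + y') = true := by
          rw [← e2]
          exact decide_eq_true hle
        exact of_decide_eq_true this
      rw [min_eq_left hle] at hj
      rw [min_eq_left hle'] at hj₁
      rw [if_pos hle, if_pos hle'] at e3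
      have e4 : r = y := by omega
      subst e1
      subst e3
      subst e4
      obtain ⟨f1, f2⟩ := fac_uni d1 d1' d3 d4 d3' d4'
      subst f1
      subst f2
      rfl
    · have hle' : ¬ x + y ≤ x' + y' := by
        have : decide (x + y ≤ x' + y') = false := by
          rw [← e2]
          exact decide_eq_false hle
        exact of_decide_eq_false this
      rw [min_eq_right (not_le.1 hle).le] at hj
      rw [min_eq_right (not_le.1 hle').le] at hj₁
      rw [if_neg hle, if_neg hle'] at e3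
      have e4 : r' = y' := by omega
      subst e1
      subst e3
      subst e4
      obtain ⟨f1, f2⟩ := fac_uni' d1 d1' d2 d4 d2' (by omega)
      subst f1
      subst f2
      rfl

theorem fac_m_pos {ρ : ℕ} {q : ℕ × (ℕ × ℕ) × (ℕ × ℕ)}
    (h : S.Cell ρ q.1 q.2.1.1 q.2.1.2 q.2.2.1 q.2.2.2) : 1 ≤ fac_m q := by
  obtain ⟨_, d1, _⟩ := h
  unfold fac_m
  have h1 : 1 ≤ q.2.1.1 + q.2.1.2 := by
    by_contra hcon
    have h2 : q.2.1.1 = 0 ∧ q.2.1.2 = 0 := by omega
    rw [h2.1, h2.2] at d1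
    simp at d1
  have h2 : 1 ≤ q.2.2.1 + q.2.2.2 := by
    by_contra hcon
    have h2 : q.2.2.1 = 0 ∧ q.2.2.2 = 0 := by omega
    rw [h2.1, h2.2] at d1
    simp at d1
  exact le_min h1 h2

/-- the length of one cell -/
theorem fac_len : ∃ C : ℝ, 1 ≤ C ∧ ∀ (ρ : ℕ) (q : ℕ × (ℕ × ℕ) × (ℕ × ℕ)), 1 ≤ ρ →
    S.Cell ρ q.1 q.2.1.1 q.2.1.2 q.2.2.1 q.2.2.2 →
      S.u (cn S.e q.1 q.2.2.1 q.2.2.2) - S.u (cn S.e q.1 q.2.1.1 q.2.1.2) ≤
        C / (ρ * fac_m q) := by
  obtain ⟨C, hC, h1⟩ := cone_nm S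
  have hc2 := S.c₂_pos
  refine ⟨1 + 2 * S.c₂ * C, by nlinarith, ?_⟩
  intro ρ q hρ h
  have hm := fac_m_pos S h
  obtain ⟨hi, d1, d2, d3, d4⟩ := h
  obtain ⟨i, ⟨p, r⟩, ⟨p', r'⟩⟩ := q
  simp only at hi d1 d2 d3 d4 ⊢
  have hd := fac_dt S (s := p) (t := r) (s' := p') (t' := r') hi
  have h2 := (S.u_det i p r p' r' hi (by rw [hd, d1]; norm_num)).2
  rw [hd, d1] at h2
  have hm1 : fac_m (i, (p, r), (p', r')) = min (p + r) (p' + r') := rfl
  rw [hm1] at hm ⊢
  have g1 : 1 ≤ p + r := le_trans hm (min_le_left _ _)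
  have g2 : 1 ≤ p' + r' := le_trans hm (min_le_right _ _)
  -- heights
  have g3 : (ρ : ℝ) * ((min (p + r) (p' + r') : ℕ) : ℝ) ≤
      2 * (((p + r : ℕ) : ℝ) * ((p' + r' : ℕ) : ℝ)) := by
    have : ρ * min (p + r) (p' + r') ≤ 2 * ((p + r) * (p' + r')) := by
      rcases le_total (p + r) (p' + r') with hle | hle
      · rw [min_eq_left hle]
        have : ρ ≤ 2 * (p' + r') := by omega
        nlinarith
      · rw [min_eq_right hle]
        have : ρ ≤ 2 * (p + r) := by omega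
        nlinarith
    exact_mod_cast this
  have n1 := (h1 i p r hi).1
  have n2 := (h1 i p' r' hi).1
  set A : ℝ := ((p + r : ℕ) : ℝ) with hA
  set B : ℝ := ((p' + r' : ℕ) : ℝ) with hB
  have hA1 : 1 ≤ A := by rw [hA]; exact_mod_cast g1
  have hB1 : 1 ≤ B := by rw [hB]; exact_mod_cast g2
  have hsq : A * B / C ≤ Real.sqrt (nm b c (cn S.e i p r) * nm b c (cn S.e i p' r')) := by
    refine Real.le_sqrt_of_sq_le ?_
    have e : (A * B / C) ^ 2 = A ^ 2 / C * (B ^ 2 / C) := by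
      field_simp
    rw [e]
    exact mul_le_mul n1 n2 (by positivity) (le_trans (by positivity) n1)
  have hpos : 0 < A * B / C := by positivity
  have h3 : S.c₂ * (1 : ℤ) / Real.sqrt (nm b c (cn S.e i p r) * nm b c (cn S.e i p' r')) ≤
      S.c₂ / (A * B / C) := by
    rw [Int.cast_one, mul_one]
    exact div_le_div_of_nonneg_left hc2.le hpos hsq
  have hM : (0 : ℝ) < ((min (p + r) (p' + r') : ℕ) : ℝ) := by exact_mod_cast hm
  have hR : (0 : ℝ) < ρ := by exact_mod_cast hρ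
  have h4 : S.c₂ / (A * B / C) ≤ (1 + 2 * S.c₂ * C) / (ρ * ((min (p + r) (p' + r') : ℕ) : ℝ)) := by
    rw [div_le_div_iff₀ hpos (by positivity)]
    have e : (1 + 2 * S.c₂ * C) * (A * B / C) = A * B / C + S.c₂ * (2 * (A * B)) := by
      field_simp
    rw [e]
    have := mul_le_mul_of_nonneg_left g3 hc2.le
    linarith
  calc S.u (cn S.e i p' r') - S.u (cn S.e i p r) ≤
      S.c₂ * (1 : ℤ) / Real.sqrt (nm b c (cn S.e i p r) * nm b c (cn S.e i p' r')) := h2
    _ ≤ S.c₂ / (A * B / C) := h3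
    _ ≤ _ := h4

/-- the sum of the inverses of the heights -/
theorem fac_sum {ρ : ℕ} (Q : Finset (ℕ × (ℕ × ℕ) × (ℕ × ℕ)))
    (hQ : ∀ q ∈ Q, S.Cell ρ q.1 q.2.1.1 q.2.1.2 q.2.2.1 q.2.2.2) :
    ∑ q ∈ Q, (1 : ℝ) / fac_m q ≤ (8 * S.r + 1) * Real.sqrt Q.card := by
  classical
  rcases Q.eq_empty_or_nonempty with h0 | h0
  · rw [h0]
    simp
  set N : ℝ := (Q.card : ℝ) with hN
  have hN1 : 1 ≤ N := by
    rw [hN]
    exact_mod_cast h0.card_pos
  set R : ℝ := Real.sqrt N with hR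
  have hR1 : 1 ≤ R := by
    rw [hR]
    exact Real.one_le_sqrt.2 hN1
  have hRR : R * R = N := Real.mul_self_sqrt (by linarith)
  set V : ℕ := ⌊R⌋₊ + 1 with hV
  have hV1 : R < V := by
    rw [hV]
    push_cast
    exact Nat.lt_floor_add_one R
  have hV2 : (V : ℝ) ≤ 2 * R := by
    rw [hV]
    push_cast
    have := Nat.floor_le (show 0 ≤ R by linarith)
    linarith
  rw [← Finset.sum_filter_add_sum_filter_not Q (fun q => fac_m q ≤ V)]
  have hlow : ∑ q ∈ Q.filter (fun q => fac_m q ≤ V), (1 : ℝ) / fac_m q ≤ 4 * S.r * V := by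
    have hmaps : ∀ q ∈ Q.filter (fun q => fac_m q ≤ V), fac_m q ∈ Finset.Icc 1 V := by
      intro q hq
      rw [Finset.mem_filter] at hq
      exact Finset.mem_Icc.2 ⟨fac_m_pos S (hQ q hq.1), hq.2⟩
    rw [← Finset.sum_fiberwise_of_maps_to hmaps]
    calc ∑ j ∈ Finset.Icc 1 V, ∑ q ∈ (Q.filter (fun q => fac_m q ≤ V)).filter
          (fun q => fac_m q = j), (1 : ℝ) / fac_m q
        ≤ ∑ j ∈ Finset.Icc 1 V, (4 * S.r : ℝ) := by
          refine Finset.sum_le_sum fun j hj => ?_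
          rw [Finset.mem_Icc] at hj
          have hj1 : (1 : ℝ) ≤ j := by exact_mod_cast hj.1
          have e1 : ∑ q ∈ (Q.filter (fun q => fac_m q ≤ V)).filter
              (fun q => fac_m q = j), (1 : ℝ) / fac_m q =
              ((Q.filter (fun q => fac_m q ≤ V)).filter (fun q => fac_m q = j)).card * (1 / j) := by
            rw [Finset.sum_congr rfl (g := fun _ => (1 : ℝ) / j) (fun q hq => by
              rw [Finset.mem_filter] at hq
              rw [hq.2]), Finset.sum_const, nsmul_eq_mul]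
          have e2 : ((Q.filter (fun q => fac_m q ≤ V)).filter (fun q => fac_m q = j)).card ≤
              S.r * (2 * (j + 1)) := by
            exact fac_card S (ρ := ρ) _ fun q hq => hQ q (Finset.mem_filter.1 hq).1
          have e3 : (((Q.filter (fun q => fac_m q ≤ V)).filter (fun q => fac_m q = j)).card : ℝ) ≤
              S.r * (2 * (j + 1)) := by exact_mod_cast e2
          rw [e1]
          calc (((Q.filter (fun q => fac_m q ≤ V)).filter (fun q => fac_m q = j)).card : ℝ) *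
                (1 / j) ≤ S.r * (2 * (j + 1)) * (1 / j) :=
                mul_le_mul_of_nonneg_right e3 (by positivity)
            _ ≤ 4 * S.r := by
                rw [mul_one_div, div_le_iff₀ (by linarith)]
                have : (0 : ℝ) ≤ S.r := by positivity
                nlinarith
      _ = 4 * S.r * V := by
          rw [Finset.sum_const, Nat.card_Icc, nsmul_eq_mul]
          simp only [Nat.add_sub_cancel]
          ring
  have hhigh : ∑ q ∈ Q.filter (fun q => ¬ fac_m q ≤ V), (1 : ℝ) / fac_m q ≤ R := by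
    calc ∑ q ∈ Q.filter (fun q => ¬ fac_m q ≤ V), (1 : ℝ) / fac_m q
        ≤ ∑ q ∈ Q.filter (fun q => ¬ fac_m q ≤ V), 1 / R := by
          refine Finset.sum_le_sum fun q hq => ?_
          rw [Finset.mem_filter, not_le] at hq
          have : (V : ℝ) < fac_m q := by exact_mod_cast hq.2
          exact one_div_le_one_div_of_le (by linarith) (by linarith)
      _ = (Q.filter (fun q => ¬ fac_m q ≤ V)).card * (1 / R) := by
          rw [Finset.sum_const, nsmul_eq_mul]
      _ ≤ N * (1 / R) := by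
          refine mul_le_mul_of_nonneg_right ?_ (by positivity)
          rw [hN]
          exact_mod_cast Finset.card_filter_le _ _
      _ = R := by
          rw [← hRR]
          field_simp
  have hr : (0 : ℝ) ≤ S.r := by positivity
  nlinarith

/-- the total length of few cells is small; a cell is given by `(i, (p, q), (p', q'))` -/
theorem cell_len_pr : ∃ C : ℝ, 1 ≤ C ∧ ∀ (ρ : ℕ) (Q : Finset (ℕ × (ℕ × ℕ) × (ℕ × ℕ))), 1 ≤ ρ →
    (∀ q ∈ Q, S.Cell ρ q.1 q.2.1.1 q.2.1.2 q.2.2.1 q.2.2.2) →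
      ∑ q ∈ Q, (S.u (cn S.e q.1 q.2.2.1 q.2.2.2) - S.u (cn S.e q.1 q.2.1.1 q.2.1.2)) ≤
        C * Real.sqrt Q.card / ρ := by
  obtain ⟨C, hC, h1⟩ := fac_len S
  refine ⟨C * (8 * S.r + 1), ?_, ?_⟩
  · have : (0 : ℝ) ≤ S.r := by positivity
    nlinarith
  intro ρ Q hρ hQ
  have hR : (0 : ℝ) < ρ := by exact_mod_cast hρ
  calc ∑ q ∈ Q, (S.u (cn S.e q.1 q.2.2.1 q.2.2.2) - S.u (cn S.e q.1 q.2.1.1 q.2.1.2))
      ≤ ∑ q ∈ Q, C / ρ * (1 / fac_m q) := by
        refine Finset.sum_le_sum fun q hq => ?_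
        refine (h1 ρ q hρ (hQ q hq)).trans (le_of_eq ?_)
        have := fac_m_pos S (hQ q hq)
        have h2 : (0 : ℝ) < fac_m q := by exact_mod_cast this
        field_simp
    _ = C / ρ * ∑ q ∈ Q, (1 : ℝ) / fac_m q := by rw [Finset.mul_sum]
    _ ≤ C / ρ * ((8 * S.r + 1) * Real.sqrt Q.card) :=
        mul_le_mul_of_nonneg_left (fac_sum S Q hQ) (by positivity)
    _ = C * (8 * S.r + 1) * Real.sqrt Q.card / ρ := by ring

end


end Pool.Agent.MQ

namespace Pool.Agent.MQ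

theorem cell_disj : type_of% @cell_disj_pr := @cell_disj_pr
theorem cell_len : type_of% @cell_len_pr := @cell_len_pr

end Pool.Agent.MQ
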