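import Pool.Agent.Lib_helper39.MQ.Defs
import Pool.Agent.Lib_helper39.MQX.ALG
import Pool.Agent.Lib_helper39.MQX.FAA
import Pool.Agent.Lib_helper39.MQX.FAC
import Pool.Agent.Lib_helper39.MQX.SBA
import Pool.Agent.Lib_helper39.MQX.SBB
import Pool.Agent.Lib_helper39.MQX.SBC

/-! MQ, block STB: translation by elements of small norm -/

namespace Pool.Agent.MQ

open Filter Topology MeasureTheory

theorem stb_abs {F : ℝ → ℝ} (h1 : ∀ t, F t = 1 ∨ F t = -1) {σ : ℝ}
    (hσ : σ = 1 ∨ σ = -1) (x y : ℝ) : |F x - σ * F y| ≤ 2 := by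
  rcases h1 x with h | h <;> rcases h1 y with h' | h' <;> rcases hσ with h2 | h2 <;>
    rw [h, h', h2] <;> norm_num

theorem stb_trivial {F : ℝ → ℝ} (h1 : ∀ t, F t = 1 ∨ F t = -1) (s : ℝ) {σ : ℝ}
    (hσ : σ = 1 ∨ σ = -1) : df F s σ ≤ 2 := by
  have h := intervalIntegral.norm_integral_le_of_norm_le_const (a := (0 : ℝ)) (b := 1) (C := 2)
    (f := fun t => |F (t + s) - σ * F t|) (fun t _ => by
      rw [Real.norm_eq_abs, abs_abs]; exact stb_abs h1 hσ _ _)
  have h2 : df F s σ ≤ ‖∫ t in (0 : ℝ)..1, |F (t + s) - σ * F t|‖ := Real.le_norm_self _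
  norm_num at h
  have h3 : ‖∫ t in (0 : ℝ)..1, |F (t + s) - σ * F t|‖ ≤ 2 := by simpa using h
  linarith

theorem stb_int {ι : Type} (Q : Finset ι) (lo hi : ι → ℝ) (hlh : ∀ q ∈ Q, lo q ≤ hi q)
    {F : ℝ → ℝ} (hm : Measurable F) (h1 : ∀ t, F t = 1 ∨ F t = -1) {s σ : ℝ}
    (hσ : σ = 1 ∨ σ = -1)
    (hQ : ∀ t, 0 < t → t < 1 → F (t + s) = σ * F t ∨ ∃ q ∈ Q, lo q ≤ t ∧ t < hi q) :
    df F s σ ≤ 2 * ∑ q ∈ Q, (hi q - lo q) := by
  have hI : ∀ q ∈ Q, Integrable ((Set.Ico (lo q) (hi q)).indicator (fun _ : ℝ => (2 : ℝ))) := by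
    intro q _
    exact IntegrableOn.integrable_indicator (integrableOn_const (by simp)) measurableSet_Ico
  have hS : Integrable (fun t => ∑ q ∈ Q, (Set.Ico (lo q) (hi q)).indicator
      (fun _ : ℝ => (2 : ℝ)) t) := integrable_finsetSum _ hI
  have hnn : ∀ t, 0 ≤ ∑ q ∈ Q, (Set.Ico (lo q) (hi q)).indicator (fun _ : ℝ => (2 : ℝ)) t :=
    fun t => Finset.sum_nonneg fun q _ => Set.indicator_nonneg (fun _ _ => by norm_num) _
  have hf : IntegrableOn (fun t => |F (t + s) - σ * F t|) (Set.Ioo 0 1) := by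
    refine Measure.integrableOn_of_bounded (M := 2) (by simp) ?_ ?_
    · exact (((hm.comp (measurable_id.add_const s)).sub (hm.const_mul σ)).abs).aestronglyMeasurable
    · refine Filter.Eventually.of_forall fun t => ?_
      rw [Real.norm_eq_abs, abs_abs]; exact stb_abs h1 hσ _ _
  have h2 : df F s σ = ∫ t in Set.Ioo (0 : ℝ) 1, |F (t + s) - σ * F t| := by
    unfold df
    rw [intervalIntegral.integral_of_le zero_le_one, integral_Ioc_eq_integral_Ioo]
  have h3 : ∫ t in Set.Ioo (0 : ℝ) 1, |F (t + s) - σ * F t| ≤ ∫ t in Set.Ioo (0 : ℝ) 1,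
      ∑ q ∈ Q, (Set.Ico (lo q) (hi q)).indicator (fun _ : ℝ => (2 : ℝ)) t := by
    refine setIntegral_mono_on hf hS.integrableOn measurableSet_Ioo ?_
    intro t ht
    rcases hQ t ht.1 ht.2 with h | ⟨q, hq, hq1, hq2⟩
    · rw [h, sub_self, abs_zero]; exact hnn t
    · refine (stb_abs h1 hσ _ _).trans ?_
      have : (Set.Ico (lo q) (hi q)).indicator (fun _ : ℝ => (2 : ℝ)) t = 2 :=
        Set.indicator_of_mem (show t ∈ Set.Ico (lo q) (hi q) from ⟨hq1, hq2⟩) _
      refine this.symm.le.trans ?_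
      exact Finset.single_le_sum (f := fun q => (Set.Ico (lo q) (hi q)).indicator
        (fun _ : ℝ => (2 : ℝ)) t)
        (fun q _ => Set.indicator_nonneg (fun _ _ => by norm_num) _) hq
  have h4 : ∫ t in Set.Ioo (0 : ℝ) 1, ∑ q ∈ Q, (Set.Ico (lo q) (hi q)).indicator
      (fun _ : ℝ => (2 : ℝ)) t ≤ ∫ t, ∑ q ∈ Q, (Set.Ico (lo q) (hi q)).indicator
      (fun _ : ℝ => (2 : ℝ)) t :=
    setIntegral_le_integral hS (Filter.Eventually.of_forall hnn)
  have h5 : ∫ t, ∑ q ∈ Q, (Set.Ico (lo q) (hi q)).indicator (fun _ : ℝ => (2 : ℝ)) t =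
      2 * ∑ q ∈ Q, (hi q - lo q) := by
    rw [integral_finsetSum _ hI, Finset.mul_sum]
    refine Finset.sum_congr rfl fun q hq => ?_
    rw [integral_indicator_const _ measurableSet_Ico]
    have : volume.real (Set.Ico (lo q) (hi q)) = hi q - lo q := by
      rw [Measure.real, Real.volume_Ico, ENNReal.toReal_ofReal (by linarith [hlh q hq])]
    rw [this, smul_eq_mul, mul_comm]
  rw [h2]
  linarith

theorem stb_const {J : Finset ℝ} {F : ℝ → ℝ} (hJ : ∀ s t : ℝ, s ≤ t →
      (∀ j ∈ J, ∀ n : ℤ, ¬ (s < j + n ∧ j + n ≤ t)) → F s = F t) {lo hi x y : ℝ}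
    (hx : lo ≤ x) (hx' : x < hi) (hy : lo ≤ y) (hy' : y < hi)
    (hn : ∀ j ∈ J, ∀ n : ℤ, ¬ (lo < j + n ∧ j + n < hi)) : F x = F y := by
  rcases le_total x y with h | h
  · exact hJ x y h fun j hj n hh => hn j hj n ⟨lt_of_le_of_lt hx hh.1, lt_of_le_of_lt hh.2 hy'⟩
  · exact (hJ y x h fun j hj n hh =>
      hn j hj n ⟨lt_of_le_of_lt hy hh.1, lt_of_le_of_lt hh.2 hx'⟩).symm

section
variable {b c : ℤ} (S : Sys b c)

theorem stb_mono : ∀ i j : ℕ, i ≤ j → j ≤ S.r → S.u (S.e i) ≤ S.u (S.e j) := by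
  intro i j hij
  induction j, hij using Nat.le_induction with
  | base => intro _; exact le_rfl
  | succ j hj ih =>
    intro hr
    exact (ih (by omega)).trans ((u_ends S).2.2 j (by omega)).le

theorem stb_find {t : ℝ} (h0 : 0 ≤ t) (h1 : t < 1) : ∃ i, i < S.r ∧ S.u (S.e i) ≤ t ∧
    t < S.u (S.e (i + 1)) := by
  classical
  have hex : ∃ j, j ≤ S.r ∧ t < S.u (S.e j) := ⟨S.r, le_rfl, by rw [(u_ends S).2.1]; exact h1⟩
  have hj := Nat.find_spec hex
  have hj0 : Nat.find hex ≠ 0 := by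
    intro h
    rw [h, (u_ends S).1] at hj
    linarith [hj.2]
  obtain ⟨i, hi⟩ := Nat.exists_eq_succ_of_ne_zero hj0
  have hlt : i < Nat.find hex := by omega
  have hmin := Nat.find_min hex hlt
  rw [hi] at hj
  refine ⟨i, by omega, ?_, hj.2⟩
  by_contra hcon
  exact hmin ⟨by omega, not_le.1 hcon⟩

theorem stb_lt {i s t s' t' : ℕ} (hi : i < S.r)
    (hd : (s : ℤ) * t' - t * s' = 1) : S.u (cn S.e i s t) < S.u (cn S.e i s' t') := by
  obtain ⟨C, hC, hCn⟩ := cone_nm S
  have hs : 1 ≤ s + t := by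
    by_contra h
    have h1 : s = 0 := by omega
    have h2 : t = 0 := by omega
    rw [h1, h2] at hd; norm_num at hd
  have hs' : 1 ≤ s' + t' := by
    by_contra h
    have h1 : s' = 0 := by omega
    have h2 : t' = 0 := by omega
    rw [h1, h2] at hd; norm_num at hd
  have hpos : ∀ s t : ℕ, 1 ≤ s + t → (0 : ℝ) < nm b c (cn S.e i s t) := by
    intro s t hst
    refine lt_of_lt_of_le ?_ (hCn i s t hi).1
    have : (1 : ℝ) ≤ ((s + t : ℕ) : ℝ) := by exact_mod_cast hst
    positivity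
  have hdt : dt (cn S.e i s t) (cn S.e i s' t') = 1 := by
    rw [dt_cn, hd, S.e_det i hi]; norm_num
  have h := (S.u_det i s t s' t' hi (by rw [hdt]; norm_num)).1
  rw [hdt] at h
  have h2 : 0 < S.c₁ * ((1 : ℤ) : ℝ) /
      Real.sqrt (nm b c (cn S.e i s t) * nm b c (cn S.e i s' t')) := by
    have := hpos s t hs
    have := hpos s' t' hs'
    have := S.c₁_pos
    push_cast
    positivity
  have h3 : 0 < uu S.ur (cn S.e i s' t') - uu S.ur (cn S.e i s t) := lt_of_lt_of_le h2 h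
  unfold Sys.u
  linarith

theorem stb_periodic {F : ℝ → ℝ} (hp : ∀ t, F (t + 1) = F t) (t : ℝ) (n : ℤ) :
    F (t + n) = F t := by
  have h : Function.Periodic F 1 := hp
  have := h.int_mul n t
  simpa using this

theorem stb_unit {x : ℝ} {n n' : ℤ} (h1 : 0 < x + n) (h2 : x + n < 1) (h3 : 0 < x + n')
    (h4 : x + n' < 1) : n = n' := by
  have h5 : ((n - n' : ℤ) : ℝ) < 1 := by push_cast; linarith
  have h6 : (-1 : ℝ) < ((n - n' : ℤ) : ℝ) := by push_cast; linarith
  have h7 : n - n' < 1 := by exact_mod_cast h5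
  have h8 : -1 < n - n' := by exact_mod_cast h6
  omega

theorem step_b_pr {b c : ℤ} (S : Sys b c) : ∃ C : ℝ, 1 ≤ C ∧ ∀ (h : ℕ → ℤ), Sgn h →
    ∀ (X L : ℝ) (F : ℝ → ℝ), 1 ≤ L → L ≤ X → Loc S h X L F → ∀ v : El, S.wd v →
      df F (S.u v) (gg b c h v) ≤ C * Real.sqrt (nm b c v / L) := by
  classical
  obtain ⟨C1, hC1, hCn⟩ := cone_nm S
  obtain ⟨C2, hC2, hlen⟩ := cell_len S
  set K : ℝ := Real.sqrt C1 with hK
  have hK1 : 1 ≤ K := by rw [hK]; exact Real.one_le_sqrt.2 hC1
  have hK2 : K ^ 2 = C1 := Real.sq_sqrt (by linarith)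
  refine ⟨16 * C2 * K, by nlinarith, ?_⟩
  intro h hh X L F hL hLX hF v hv
  have hnv : 0 < nm b c v := wd_nm S hv
  have hN1 : (1 : ℝ) ≤ nm b c v := by exact_mod_cast hnv
  set N : ℝ := (nm b c v : ℝ) with hN
  have hX1 : 1 ≤ X := hL.trans hLX
  have hσ : ((gg b c h v : ℤ) : ℝ) = 1 ∨ ((gg b c h v : ℤ) : ℝ) = -1 := by
    rcases gg_pm hh hnv.ne' with h | h
    · left; rw [h]; norm_num
    · right; rw [h]; norm_num
  rcases lt_or_ge (Real.sqrt (X / N)) (2 * K) with hcase | hcase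
  · -- the trivial case
    have h1 : df F (S.u v) (gg b c h v) ≤ 2 := stb_trivial hF.pm _ hσ
    refine h1.trans ?_
    have h2 : X / N < (2 * K) ^ 2 := by
      have := Real.sqrt_lt' (x := X / N) (y := 2 * K) (by linarith)
      exact this.1 hcase
    have h3 : 1 / (2 * K) ^ 2 ≤ N / L := by
      rw [div_le_div_iff₀ (by positivity) (by linarith)]
      have h4 : X < (2 * K) ^ 2 * N := by
        rwa [div_lt_iff₀ (by linarith)] at h2
      nlinarith
    have h4 : 1 / (2 * K) ≤ Real.sqrt (N / L) := by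
      apply Real.le_sqrt_of_sq_le
      rw [div_pow, one_pow]; exact h3
    have h5 : 16 * C2 * K * (1 / (2 * K)) ≤ 16 * C2 * K * Real.sqrt (N / L) :=
      mul_le_mul_of_nonneg_left h4 (by positivity)
    have h6 : 16 * C2 * K * (1 / (2 * K)) = 8 * C2 := by field_simp; ring
    linarith
  · -- the main case
    set ρ : ℕ := ⌊Real.sqrt (X / N) / (2 * K)⌋₊ with hρ
    have hq1 : 1 ≤ Real.sqrt (X / N) / (2 * K) := by
      rw [le_div_iff₀ (by linarith)]; linarith
    have hρ1 : 1 ≤ ρ := by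
      rw [hρ]; exact Nat.one_le_floor_iff _ |>.2 hq1
    have hρle : (ρ : ℝ) ≤ Real.sqrt (X / N) / (2 * K) := Nat.floor_le (by linarith)
    have hρge : Real.sqrt (X / N) / (2 * K) < 2 * ρ := by
      have := Nat.lt_floor_add_one (Real.sqrt (X / N) / (2 * K))
      have h2 : (1 : ℝ) ≤ ρ := by exact_mod_cast hρ1
      rw [← hρ] at this
      linarith
    have hρsq : C1 * (2 * (ρ : ℝ)) ^ 2 ≤ X / N := by
      have h2 : 2 * (ρ : ℝ) * K ≤ Real.sqrt (X / N) := by
        rw [le_div_iff₀ (by linarith)] at hρle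
        linarith
      have h3 : (2 * (ρ : ℝ) * K) ^ 2 ≤ X / N := by
        have := pow_le_pow_left₀ (by positivity) h2 2
        rwa [Real.sq_sqrt (by positivity)] at this
      calc C1 * (2 * (ρ : ℝ)) ^ 2 = (2 * (ρ : ℝ) * K) ^ 2 := by rw [← hK2]; ring
        _ ≤ X / N := h3
    obtain ⟨J, hJc, hJ⟩ := hF.jump
    obtain ⟨Bs, hBs, hBc⟩ : ∃ Bs : Finset El, (∀ w, w ∈ Bs ↔ w ∈ S.MF X ∧
        ∃ t : ℝ, |t - S.u w| ≤ L / X ∧ F t ≠ gg b c h w) ∧ (Bs.card : ℝ) ≤ X / L :=
      ⟨_, fun w => Finset.mem_filter, hF.good⟩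
    have hLX0 : 0 ≤ L / X := by positivity
    have hgood : ∀ w ∈ S.MF X, w ∉ Bs → F (S.u w) = gg b c h w := by
      intro w hw hw'
      by_contra hne
      exact hw' ((hBs w).2 ⟨hw, S.u w, by simpa using hLX0, hne⟩)
    -- the cells
    let md : ℕ × (ℕ × ℕ) × (ℕ × ℕ) → El := fun x =>
      cn S.e x.1 (x.2.1.1 + x.2.2.1) (x.2.1.2 + x.2.2.2)
    let lo : ℕ × (ℕ × ℕ) × (ℕ × ℕ) → ℝ := fun x => S.u (cn S.e x.1 x.2.1.1 x.2.1.2)
    let hi : ℕ × (ℕ × ℕ) × (ℕ × ℕ) → ℝ := fun x => S.u (cn S.e x.1 x.2.2.1 x.2.2.2)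
    let IsC : ℕ × (ℕ × ℕ) × (ℕ × ℕ) → Prop := fun x =>
      S.Cell ρ x.1 x.2.1.1 x.2.1.2 x.2.2.1 x.2.2.2
    let All : Finset (ℕ × (ℕ × ℕ) × (ℕ × ℕ)) := (Finset.range S.r ×ˢ
      ((Finset.range (ρ + 1) ×ˢ Finset.range (ρ + 1)) ×ˢ
        (Finset.range (ρ + 1) ×ˢ Finset.range (ρ + 1)))).filter IsC
    have hAll : ∀ x, x ∈ All ↔ IsC x := by
      intro x
      simp only [All, Finset.mem_filter, Finset.mem_product, Finset.mem_range]
      constructor
      · exact fun h => h.2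
      · intro hx
        refine ⟨⟨hx.1, ⟨⟨?_, ?_⟩, ?_, ?_⟩⟩, hx⟩
        · have := hx.2.2.1; omega
        · have := hx.2.2.1; omega
        · have := hx.2.2.2.1; omega
        · have := hx.2.2.2.1; omega
    have hord : ∀ x, IsC x → lo x < S.u (md x) ∧ S.u (md x) < hi x := by
      intro x hx
      constructor
      · refine stb_lt S hx.1 ?_
        have := hx.2.1
        push_cast; linarith
      · refine stb_lt S hx.1 ?_
        have := hx.2.1
        push_cast; linarith
    have hp1 : ∀ x, IsC x → 1 ≤ x.2.1.1 := by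
      intro x hx
      by_contra hcon
      have h0 : x.2.1.1 = 0 := by omega
      have h2 := hx.2.1
      rw [h0] at h2
      have h3 : (0 : ℤ) ≤ (x.2.1.2 : ℤ) * x.2.2.1 := by positivity
      push_cast at h2
      linarith
    have hwlo : ∀ x, IsC x → 0 ≤ lo x := by
      intro x hx
      refine (u_range S ?_).1
      exact (S.e_wd _).2 ⟨x.1, x.2.1.1, x.2.1.2, hx.1, hp1 x hx, rfl⟩
    have hwhi : ∀ x, IsC x → hi x ≤ 1 := by
      intro x hx
      have h1 : 1 ≤ x.2.2.1 + x.2.2.2 := by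
        by_contra hcon
        have h2 := hx.2.1
        have h3 : x.2.2.1 = 0 := by omega
        have h4 : x.2.2.2 = 0 := by omega
        rw [h3, h4] at h2; norm_num at h2
      refine ((u_cone S hx.1 h1).2).trans ?_
      have := stb_mono S (x.1 + 1) S.r hx.1 le_rfl
      rwa [(u_ends S).2.1] at this
    have hmw : ∀ x, IsC x → S.wd (md x) := fun x hx =>
      (S.e_wd _).2 ⟨x.1, _, _, hx.1, by have := hp1 x hx; omega, rfl⟩
    have hmn : ∀ x, IsC x → (nm b c (md x) : ℝ) ≤ X / N := by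
      intro x hx
      refine ((hCn x.1 _ _ hx.1).2).trans (le_trans ?_ hρsq)
      refine mul_le_mul_of_nonneg_left ?_ (by linarith)
      refine pow_le_pow_left₀ (by positivity) ?_ 2
      have h1 : x.2.1.1 + x.2.2.1 + (x.2.1.2 + x.2.2.2) ≤ 2 * ρ := by
        have := hx.2.2.1
        have := hx.2.2.2.1
        omega
      exact_mod_cast h1
    have hmM : ∀ x, IsC x → md x ∈ S.MF X := by
      intro x hx
      refine (mem_MF S).2 ⟨hmw x hx, (hmn x hx).trans ?_⟩
      exact div_le_self (by linarith) hN1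
    have hvn : ∀ x, IsC x → 0 < nm b c (ml b c v (md x)) := by
      intro x hx
      rw [nm_ml]
      exact mul_pos hnv (wd_nm S (hmw x hx))
    have hrM : ∀ x, IsC x → S.rp (ml b c v (md x)) ∈ S.MF X := by
      intro x hx
      refine (mem_MF S).2 ⟨S.rp_wd _ (hvn x hx), ?_⟩
      rw [rp_nm S (hvn x hx), nm_ml]
      push_cast
      have := hmn x hx
      rw [le_div_iff₀ (by linarith)] at this
      rw [← hN]; linarith
    -- two cells with a common point
    have hdisj : ∀ x y, IsC x → IsC y → ∀ t, lo x ≤ t → t < hi x → lo y ≤ t → t < hi y →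
        x = y := by
      intro x y hx hy t h1 h2 h3 h4
      obtain ⟨e1, e2, e3, e4, e5⟩ := cell_disj S hx hy h1 h2 h3 h4
      obtain ⟨x1, ⟨x2, x3⟩, x4, x5⟩ := x
      obtain ⟨y1, ⟨y2, y3⟩, y4, y5⟩ := y
      simp only at e1 e2 e3 e4 e5
      rw [e1, e2, e3, e4, e5]
    have hmdinj : ∀ x y, IsC x → IsC y → md x = md y → x = y := by
      intro x y hx hy hxy
      have h1 := hord x hx
      have h2 := hord y hy
      rw [← hxy] at h2
      exact hdisj x y hx hy _ h1.1.le h1.2 h2.1.le h2.2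
    -- the bad cells
    let Q1 := All.filter (fun x => ∃ j ∈ J, ∃ n : ℤ, lo x < j + n ∧ j + n < hi x)
    let Q2 := All.filter (fun x => ∃ j ∈ J, ∃ n : ℤ, lo x + S.u v < j + n ∧
      j + n < hi x + S.u v)
    let Q3 := All.filter (fun x => md x ∈ Bs)
    let Q4 := All.filter (fun x => S.rp (ml b c v (md x)) ∈ Bs)
    have hc1 : Q1.card ≤ J.card := by
      refine Finset.card_le_card_of_forall_subsingleton
        (fun x j => ∃ n : ℤ, lo x < j + n ∧ j + n < hi x) ?_ ?_
      · intro x hx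
        obtain ⟨j, hj, hn⟩ := (Finset.mem_filter.1 hx).2
        exact ⟨j, hj, hn⟩
      · rintro j hj x ⟨hx, n, hn1, hn2⟩ y ⟨hy, n', hn1', hn2'⟩
        have hx' := (hAll x).1 (Finset.mem_filter.1 hx).1
        have hy' := (hAll y).1 (Finset.mem_filter.1 hy).1
        have e : n = n' := stb_unit (x := j) (by linarith [hwlo x hx']) (by linarith [hwhi x hx'])
          (by linarith [hwlo y hy']) (by linarith [hwhi y hy'])
        subst e
        exact hdisj x y hx' hy' _ hn1.le hn2 hn1'.le hn2'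
    have hc2 : Q2.card ≤ J.card := by
      refine Finset.card_le_card_of_forall_subsingleton
        (fun x j => ∃ n : ℤ, lo x + S.u v < j + n ∧ j + n < hi x + S.u v) ?_ ?_
      · intro x hx
        obtain ⟨j, hj, hn⟩ := (Finset.mem_filter.1 hx).2
        exact ⟨j, hj, hn⟩
      · rintro j hj x ⟨hx, n, hn1, hn2⟩ y ⟨hy, n', hn1', hn2'⟩
        have hx' := (hAll x).1 (Finset.mem_filter.1 hx).1
        have hy' := (hAll y).1 (Finset.mem_filter.1 hy).1
        have e : n = n' := stb_unit (x := j - S.u v) (by linarith [hwlo x hx'])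
          (by linarith [hwhi x hx']) (by linarith [hwlo y hy']) (by linarith [hwhi y hy'])
        subst e
        exact hdisj x y hx' hy' (j + n - S.u v) (by linarith) (by linarith) (by linarith)
          (by linarith)
    have hc3 : Q3.card ≤ Bs.card := by
      refine Finset.card_le_card_of_injOn md (fun x hx => (Finset.mem_filter.1 hx).2) ?_
      intro x hx y hy hxy
      exact hmdinj x y ((hAll x).1 (Finset.mem_filter.1 hx).1)
        ((hAll y).1 (Finset.mem_filter.1 hy).1) hxy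
    have hc4 : Q4.card ≤ Bs.card := by
      refine Finset.card_le_card_of_injOn (fun x => S.rp (ml b c v (md x)))
        (fun x hx => (Finset.mem_filter.1 hx).2) ?_
      intro x hx y hy hxy
      have hx' := (hAll x).1 (Finset.mem_filter.1 hx).1
      have hy' := (hAll y).1 (Finset.mem_filter.1 hy).1
      exact hmdinj x y hx' hy' (rp_inj S hnv (hmw x hx') (hmw y hy') hxy)
    let Q := Q1 ∪ Q2 ∪ Q3 ∪ Q4
    have hQc : (Q.card : ℝ) ≤ 4 * (X / L) := by
      have h1 : Q.card ≤ Q1.card + Q2.card + Q3.card + Q4.card := by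
        refine (Finset.card_union_le _ _).trans ?_
        refine Nat.add_le_add_right ((Finset.card_union_le _ _).trans ?_) _
        exact Nat.add_le_add_right (Finset.card_union_le _ _) _
      have h2 : Q.card ≤ 2 * J.card + 2 * Bs.card := by omega
      have h3 : (Q.card : ℝ) ≤ 2 * J.card + 2 * Bs.card := by exact_mod_cast h2
      linarith
    have hQC : ∀ x ∈ Q, IsC x := by
      intro x hx
      simp only [Q, Q1, Q2, Q3, Q4, Finset.mem_union, Finset.mem_filter] at hx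
      rcases hx with ((h | h) | h) | h <;> exact (hAll x).1 h.1
    have hint := stb_int Q lo hi (fun x hx => ((hord x (hQC x hx)).1.trans
      (hord x (hQC x hx)).2).le) hF.meas hF.pm hσ (s := S.u v) (by
        intro t ht0 ht1
        by_cases hin : ∃ x ∈ Q, lo x ≤ t ∧ t < hi x
        · exact Or.inr hin
        left
        obtain ⟨i, hi', hi1, hi2⟩ := stb_find S ht0.le ht1
        obtain ⟨p, q, p', q', hcell, h1, h2⟩ := cell_cover S hρ1 hi' hi1 hi2
        let x : ℕ × (ℕ × ℕ) × (ℕ × ℕ) := (i, (p, q), (p', q'))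
        have hx : IsC x := hcell
        have hxA := (hAll x).2 hx
        have hxlo : lo x ≤ t := h1
        have hxhi : t < hi x := h2
        have hxQ : x ∉ Q := fun hxQ => hin ⟨x, hxQ, hxlo, hxhi⟩
        simp only [Q, Q1, Q2, Q3, Q4, Finset.mem_union, Finset.mem_filter, hxA, true_and,
          not_or] at hxQ
        obtain ⟨⟨⟨n1, n2⟩, n3⟩, n4⟩ := hxQ
        have ho := hord x hx
        have e1 : F t = F (S.u (md x)) := stb_const hJ hxlo hxhi ho.1.le ho.2
          (fun j hj n hn => n1 ⟨j, hj, n, hn⟩)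
        have e2 : F (t + S.u v) = F (S.u (md x) + S.u v) :=
          stb_const (lo := lo x + S.u v) (hi := hi x + S.u v) hJ (by linarith) (by linarith)
            (by linarith) (by linarith) (fun j hj n hn => n2 ⟨j, hj, n, hn⟩)
        have e3 := hgood _ (hmM x hx) n3
        have e4 := hgood _ (hrM x hx) n4
        have hmn0 : 0 < nm b c (md x) := wd_nm S (hmw x hx)
        obtain ⟨n, hn⟩ := u_ml S hnv hmn0
        have e5 : S.rp v = v := S.rp_self v hv
        have e6 : S.rp (md x) = md x := S.rp_self _ (hmw x hx)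
        rw [e5, e6] at hn
        rw [gg_rp S h (hvn x hx), gg_ml hh hnv.ne' hmn0.ne', hn, stb_periodic hF.per] at e4
        rw [e2, e1, e3, add_comm (S.u (md x)), e4]
        push_cast
        ring)
    have hl := hlen ρ Q hρ1 (fun x hx => hQC x hx)
    have hsum : ∑ x ∈ Q, (hi x - lo x) ≤ C2 * Real.sqrt Q.card / ρ := hl
    refine hint.trans ?_
    have hρ0 : (0 : ℝ) < ρ := by exact_mod_cast hρ1
    have hs1 : Real.sqrt Q.card ≤ 2 * Real.sqrt (X / L) := by
      have : Real.sqrt (4 * (X / L)) = 2 * Real.sqrt (X / L) := by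
        rw [Real.sqrt_mul (by norm_num)]
        congr 1
        rw [show (4 : ℝ) = 2 ^ 2 by norm_num]
        exact Real.sqrt_sq (by norm_num)
      rw [← this]
      exact Real.sqrt_le_sqrt hQc
    have hs2 : Real.sqrt (X / L) = Real.sqrt (X / N) * Real.sqrt (N / L) := by
      rw [← Real.sqrt_mul (by positivity)]
      congr 1
      field_simp
    have hs3 : C2 * Real.sqrt Q.card / ρ ≤ 8 * C2 * K * Real.sqrt (N / L) := by
      rw [div_le_iff₀ hρ0]
      have h1 : Real.sqrt (X / N) ≤ 2 * ρ * (2 * K) := by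
        rw [div_lt_iff₀ (by linarith)] at hρge
        exact hρge.le
      calc C2 * Real.sqrt Q.card ≤ C2 * (2 * (Real.sqrt (X / N) * Real.sqrt (N / L))) := by
            rw [← hs2]; exact mul_le_mul_of_nonneg_left hs1 (by linarith)
        _ ≤ C2 * (2 * ((2 * ρ * (2 * K)) * Real.sqrt (N / L))) := by
            refine mul_le_mul_of_nonneg_left ?_ (by linarith)
            refine mul_le_mul_of_nonneg_left ?_ (by norm_num)
            exact mul_le_mul_of_nonneg_right h1 (Real.sqrt_nonneg _)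
        _ = 8 * C2 * K * Real.sqrt (N / L) * ρ := by ring
    have hfin : 2 * ∑ x ∈ Q, (hi x - lo x) ≤ 16 * C2 * K * Real.sqrt (N / L) := by linarith
    exact hfin

end

end Pool.Agent.MQ

namespace Pool.Agent.MQ

theorem step_b : type_of% @step_b_pr := @step_b_pr

end Pool.Agent.MQ
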