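import Pool.Agent.Lib_helper39.MQ.Defs
import Pool.Agent.Lib_helper39.MQX.ALG
import Pool.Agent.Lib_helper39.MQX.REP
import Pool.Agent.Lib_helper39.MQX.SBA
import Pool.Agent.Lib_helper39.MQX.SBB

/-! MQ, block EDG: edges with given label. -/

namespace Pool.Agent.MQ

open Filter Topology MeasureTheory

theorem edg_data {b c : ℤ} (S : Sys b c) {v w : El} (he : S.Edge v w) :
    S.wd v ∧ 0 < nm b c v ∧ 0 < nm b c w ∧ dt v w = 1 := by
  obtain ⟨i, s, t, s', t', hi, hdet, rfl, rfl⟩ := he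
  have hs : 1 ≤ s := by
    rcases Nat.eq_zero_or_pos s with rfl | h
    · exfalso
      have : 0 ≤ (t : ℤ) * s' := by positivity
      push_cast at hdet
      linarith
    · exact h
  have ht' : 1 ≤ t' := by
    rcases Nat.eq_zero_or_pos t' with rfl | h
    · exfalso
      have : 0 ≤ (t : ℤ) * s' := by positivity
      push_cast at hdet
      linarith
    · exact h
  have hwd : S.wd (cn S.e i s t) := (S.e_wd _).2 ⟨i, s, t, hi, hs, rfl⟩
  refine ⟨hwd, wd_nm S hwd, ?_, ?_⟩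
  · obtain ⟨C, hC, H⟩ := cone_nm S
    have h1 := (H i s' t' hi).1
    have h2 : (0 : ℝ) < ((s' + t' : ℕ) : ℝ) ^ 2 / C := by
      have : (1 : ℝ) ≤ ((s' + t' : ℕ) : ℝ) := by exact_mod_cast (by omega : 1 ≤ s' + t')
      positivity
    have h3 : (0 : ℝ) < (nm b c (cn S.e i s' t') : ℝ) := lt_of_lt_of_le h2 h1
    exact_mod_cast h3
  · rw [dt_cn, S.e_det i hi, hdet, mul_one]

theorem edge_gg_pr {b c : ℤ} (S : Sys b c) {h : ℕ → ℤ} (hh : Sgn h) {v w : El}
    (he : S.Edge v w) : gg b c h v * gg b c h w = h (fv b c (bl b c v w)).natAbs := by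
  obtain ⟨_, hv, hw, hd⟩ := edg_data S he
  rw [← nm_bl_one b c v w hd, Int.natAbs_mul]
  unfold gg
  rw [hh.mul]
  · have := Int.natAbs_pos.2 hv.ne'
    omega
  · have := Int.natAbs_pos.2 hw.ne'
    omega

theorem edge_card_pr {b c : ℤ} (S : Sys b c) (hs : ¬ IsSquare (dsc b c)) : ∃ C : ℝ, 1 ≤ C ∧
    ∀ (n : ℤ) (Q : Finset (El × El)), (∀ q ∈ Q, S.Edge q.1 q.2 ∧ bl b c q.1 q.2 = n) →
      (Q.card : ℝ) ≤ C * tau (fv b c n).natAbs ^ 3 := by
  classical
  obtain ⟨C, hC, HC⟩ := rep_card S hs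
  refine ⟨C, hC, ?_⟩
  intro n Q hQ
  rcases Q.eq_empty_or_nonempty with rfl | ⟨q0, hq0⟩
  · simp only [Finset.card_empty, Nat.cast_zero]
    unfold tau
    positivity
  set N : ℕ := (fv b c n).natAbs with hN
  have hprod : ∀ q ∈ Q, nm b c q.1 * nm b c q.2 = fv b c n := by
    intro q hq
    obtain ⟨he, hb⟩ := hQ q hq
    obtain ⟨_, _, _, hd⟩ := edg_data S he
    rw [nm_bl_one b c _ _ hd, hb]
  have hN0 : N ≠ 0 := by
    obtain ⟨he, hb⟩ := hQ q0 hq0
    obtain ⟨_, hv, hw, hd⟩ := edg_data S he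
    rw [hN, ← hprod q0 hq0]
    exact Int.natAbs_ne_zero.2 (mul_pos hv hw).ne'
  have hinj : Set.InjOn (Prod.fst : El × El → El) (Q : Set (El × El)) := by
    intro q hq q' hq' hqq
    obtain ⟨he, hb⟩ := hQ q hq
    obtain ⟨he', hb'⟩ := hQ q' hq'
    obtain ⟨_, hv, hw, hd⟩ := edg_data S he
    obtain ⟨_, hv', hw', hd'⟩ := edg_data S he'
    have h1 : ml b c (cj b q.1) q.2 = (n, 1) := by rw [ml_cj, hb, hd]
    have h2 : ml b c (cj b q.1) q'.2 = (n, 1) := by
      rw [hqq, ml_cj, hb', hd']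
    have h3 : q.2 = q'.2 := ml_cancel b c (cj b q.1) _ _ (by rw [nm_cj]; exact hv.ne')
      (h1.trans h2.symm)
    exact Prod.ext hqq h3
  have hcard : Q.card = (Q.image Prod.fst).card := (Finset.card_image_of_injOn hinj).symm
  have hsub : Q.image Prod.fst ⊆ N.divisors.biUnion (fun d : ℕ =>
      (Q.image Prod.fst).filter (fun v => nm b c v = d)) := by
    intro v hv
    obtain ⟨q, hq, rfl⟩ := Finset.mem_image.1 hv
    obtain ⟨he, _⟩ := hQ q hq
    obtain ⟨_, hv0, _, _⟩ := edg_data S he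
    rw [Finset.mem_biUnion]
    refine ⟨(nm b c q.1).natAbs, ?_, ?_⟩
    · rw [Nat.mem_divisors]
      refine ⟨?_, hN0⟩
      rw [hN, ← hprod q hq, Int.natAbs_mul]
      exact Nat.dvd_mul_right _ _
    · rw [Finset.mem_filter]
      refine ⟨hv, ?_⟩
      rw [Int.natCast_natAbs, abs_of_pos hv0]
  have hle : ∀ d ∈ N.divisors,
      ((((Q.image Prod.fst).filter (fun v => nm b c v = d)).card : ℕ) : ℝ) ≤ C * tau N ^ 2 := by
    intro d hd
    have hd1 : 1 ≤ d := Nat.pos_of_mem_divisors hd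
    have h1 := HC d ((Q.image Prod.fst).filter (fun v => nm b c v = d)) hd1 (by
      intro v hv
      rw [Finset.mem_filter] at hv
      obtain ⟨q, hq, rfl⟩ := Finset.mem_image.1 hv.1
      exact ⟨(edg_data S (hQ q hq).1).1, hv.2⟩)
    have h2 : tau d ≤ tau N := by
      unfold tau
      exact_mod_cast Finset.card_le_card
        (Nat.divisors_subset_of_dvd hN0 (Nat.dvd_of_mem_divisors hd))
    have h3 : 0 ≤ tau d := by unfold tau; positivity
    refine h1.trans ?_
    gcongr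
  have h4 : (Q.card : ℝ) ≤ ∑ d ∈ N.divisors,
      ((((Q.image Prod.fst).filter (fun v => nm b c v = d)).card : ℕ) : ℝ) := by
    rw [hcard]
    exact_mod_cast (Finset.card_le_card hsub).trans Finset.card_biUnion_le
  calc (Q.card : ℝ) ≤ _ := h4
    _ ≤ ∑ d ∈ N.divisors, C * tau N ^ 2 := Finset.sum_le_sum hle
    _ = C * tau N ^ 3 := by
        rw [Finset.sum_const, nsmul_eq_mul]
        unfold tau
        ring


end Pool.Agent.MQ

namespace Pool.Agent.MQ

theorem edge_gg : type_of% @edge_gg_pr := @edge_gg_pr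
theorem edge_card : type_of% @edge_card_pr := @edge_card_pr

end Pool.Agent.MQ
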