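import Pool.Agent.Lib_helper39.MQ.Defs
import Pool.Agent.Lib_helper39.MQX.ROO
import Pool.Agent.Lib_helper39.MQX.TAU

/-! MQ, block MOA: moments of the divisor function along the polynomial. -/

namespace Pool.Agent.MQ

open Filter Topology MeasureTheory

/-- the values of the polynomial are not zero -/
theorem moa_ne {b c : ℤ} (hs : ¬ IsSquare (dsc b c)) (n : ℤ) : fv b c n ≠ 0 := by
  intro h
  apply hs
  refine ⟨2 * n + b, ?_⟩
  unfold fv at h
  unfold dsc
  nlinarith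

theorem moa_size (b c : ℤ) {n : ℕ} (hn : 1 ≤ n) :
    ((fv b c n).natAbs : ℝ) ≤ (1 + |(b : ℝ)| + |(c : ℝ)|) * (n : ℝ) ^ 2 := by
  have h1 : (1 : ℝ) ≤ n := by exact_mod_cast hn
  rw [Nat.cast_natAbs]
  unfold fv
  push_cast
  have h2 : |(n : ℝ) ^ 2 + b * n + c| ≤ |(n : ℝ) ^ 2| + |(b : ℝ) * n| + |(c : ℝ)| :=
    abs_add_three _ _ _
  have h3 : |(n : ℝ) ^ 2| = (n : ℝ) ^ 2 := abs_of_nonneg (by positivity)
  have h4 : |(b : ℝ) * n| = |(b : ℝ)| * n := by
    rw [abs_mul, abs_of_nonneg (by positivity : (0 : ℝ) ≤ n)]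
  rw [h3, h4] at h2
  have hb := abs_nonneg (b : ℝ)
  have hc := abs_nonneg (c : ℝ)
  have h5 : (n : ℝ) ≤ (n : ℝ) ^ 2 := by nlinarith
  have h6 : (1 : ℝ) ≤ (n : ℝ) ^ 2 := by nlinarith
  nlinarith [mul_le_mul_of_nonneg_left h5 hb, mul_le_mul_of_nonneg_left h6 hc]

/-- the number of `n ≤ N` with `d ∣ f(n)` -/
theorem moa_count (b c : ℤ) (hs : ¬ IsSquare (dsc b c)) (N d : ℕ) (hd : 1 ≤ d) :
    ((((Finset.Icc 1 N).filter (fun n : ℕ => d ∣ (fv b c n).natAbs)).card : ℕ) : ℝ) ≤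
      ((N : ℝ) / d + 1) * (Real.sqrt |(dsc b c : ℝ)| * tau d) := by
  set R := (Finset.range d).filter (fun t : ℕ => (d : ℤ) ∣ (t : ℤ) ^ 2 + b * t + c) with hR
  have h1 : ((Finset.Icc 1 N).filter (fun n : ℕ => d ∣ (fv b c n).natAbs)).card ≤
      R.card * (N / d + 1) := by
    have h2 : ((Finset.Icc 1 N).filter (fun n : ℕ => d ∣ (fv b c n).natAbs)).card ≤
        (R ×ˢ Finset.range (N / d + 1)).card := by
      apply Finset.card_le_card_of_injOn (fun n => (n % d, n / d))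
      · intro n hn
        rw [Finset.mem_coe, Finset.mem_filter, Finset.mem_Icc] at hn
        obtain ⟨⟨hn1, hn2⟩, hn3⟩ := hn
        rw [Finset.mem_coe, Finset.mem_product]
        constructor
        · rw [hR, Finset.mem_filter, Finset.mem_range]
          refine ⟨Nat.mod_lt _ hd, ?_⟩
          have h3 : (d : ℤ) ∣ fv b c n := by
            rw [← Int.natCast_dvd] at hn3
            exact hn3
          unfold fv at h3
          have h4 : (n : ℤ) = d * (n / d : ℕ) + (n % d : ℕ) := by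
            exact_mod_cast (Nat.div_add_mod n d).symm
          have h5 : ((n % d : ℕ) : ℤ) ^ 2 + b * ((n % d : ℕ) : ℤ) + c =
              ((n : ℤ) ^ 2 + b * n + c) - d * ((n / d : ℕ) *
                (n + ((n % d : ℕ) : ℤ) + b)) := by
            set r : ℤ := ((n % d : ℕ) : ℤ) with hr
            set q : ℤ := ((n / d : ℕ) : ℤ) with hq
            have h6 : r = n - d * q := by linarith
            rw [h6]
            ring
          rw [h5]
          exact dvd_sub h3 (Dvd.intro _ rfl)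
        · rw [Finset.mem_range]
          exact Nat.lt_succ_of_le (Nat.div_le_div_right hn2)
      · intro n _ m _ hnm
        simp only [Prod.mk.injEq] at hnm
        rw [← Nat.div_add_mod n d, ← Nat.div_add_mod m d, hnm.1, hnm.2]
    rwa [Finset.card_product, Finset.card_range] at h2
  have h7 : (R.card : ℝ) ≤ Real.sqrt |(dsc b c : ℝ)| * tau d := root_card b c hs d hd
  have h8 : ((N / d + 1 : ℕ) : ℝ) ≤ (N : ℝ) / d + 1 := by
    push_cast
    have := @Nat.cast_div_le ℝ _ _ _ N d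
    linarith
  calc ((((Finset.Icc 1 N).filter (fun n : ℕ => d ∣ (fv b c n).natAbs)).card : ℕ) : ℝ)
      ≤ ((R.card * (N / d + 1) : ℕ) : ℝ) := by exact_mod_cast h1
    _ = ((N / d + 1 : ℕ) : ℝ) * R.card := by rw [Nat.cast_mul, mul_comm]
    _ ≤ ((N : ℝ) / d + 1) * (Real.sqrt |(dsc b c : ℝ)| * tau d) :=
        mul_le_mul h8 h7 (Nat.cast_nonneg _) (by positivity)

theorem moa_tau_pos (d : ℕ) : 0 ≤ tau d := by unfold tau; positivity

theorem mom_one_pr (k : ℕ) : ∃ a : ℕ, ∀ b c : ℤ, ¬ IsSquare (dsc b c) → ∃ C : ℝ, 1 ≤ C ∧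
    ∀ x : ℝ, 1 ≤ x → ∑ n ∈ Finset.Icc 1 ⌊x⌋₊, tau (fv b c n).natAbs ^ k ≤
      C * x * (1 + Real.log x) ^ a := by
  obtain ⟨a, ha⟩ := tau_pow_sum (2 * k + 1)
  refine ⟨a, ?_⟩
  intro b c hs
  set C₀ : ℝ := 1 + |(b : ℝ)| + |(c : ℝ)| with hC₀
  have hC₀1 : 1 ≤ C₀ := by
    have := abs_nonneg (b : ℝ)
    have := abs_nonneg (c : ℝ)
    linarith
  set M : ℝ := 2 ^ k * (2 * C₀ * Real.sqrt |(dsc b c : ℝ)|) * (1 + Real.log C₀) ^ a with hM
  have hlogC : 0 ≤ Real.log C₀ := Real.log_nonneg hC₀1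
  have hM0 : 0 ≤ M := by positivity
  refine ⟨1 + M, by linarith, ?_⟩
  intro x hx
  have hlogx : 0 ≤ Real.log x := Real.log_nonneg hx
  have hy1 : 1 ≤ C₀ * x := by nlinarith
  set N := ⌊x⌋₊ with hN
  have hNx : (N : ℝ) ≤ x := Nat.floor_le (by linarith)
  set Y := ⌊C₀ * x⌋₊ with hY
  -- pointwise
  have h1 : ∀ n ∈ Finset.Icc 1 N, tau (fv b c n).natAbs ^ k ≤
      2 ^ k * ∑ d ∈ (Finset.Icc 1 Y).filter (fun d => d ∣ (fv b c n).natAbs),
        tau d ^ (2 * k) := by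
    intro n hn
    rw [Finset.mem_Icc] at hn
    have hm : 1 ≤ (fv b c n).natAbs := Int.natAbs_pos.mpr (moa_ne hs n)
    obtain ⟨d, hd1, hd2, hd3⟩ := tau_half hm
    have hd0 : 1 ≤ d := Nat.pos_of_dvd_of_pos hd1 hm
    have hnx : (n : ℝ) ≤ x := le_trans (by exact_mod_cast hn.2) hNx
    have hn0 : (0 : ℝ) ≤ n := Nat.cast_nonneg _
    have hdY : d ≤ Y := by
      apply Nat.le_floor
      have h2 : (d : ℝ) ^ 2 ≤ (C₀ * x) ^ 2 := by
        calc (d : ℝ) ^ 2 = ((d ^ 2 : ℕ) : ℝ) := by push_cast; ring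
          _ ≤ ((fv b c n).natAbs : ℝ) := by exact_mod_cast hd2
          _ ≤ C₀ * (n : ℝ) ^ 2 := moa_size b c hn.1
          _ ≤ C₀ * x ^ 2 := by
            apply mul_le_mul_of_nonneg_left _ (by linarith)
            exact pow_le_pow_left₀ hn0 hnx 2
          _ ≤ (C₀ * x) ^ 2 := by
            rw [mul_pow]
            apply mul_le_mul_of_nonneg_right _ (by positivity)
            nlinarith
      exact le_of_sq_le_sq h2 (by linarith)
    have hmem : d ∈ (Finset.Icc 1 Y).filter (fun d => d ∣ (fv b c n).natAbs) := by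
      rw [Finset.mem_filter, Finset.mem_Icc]
      exact ⟨⟨hd0, hdY⟩, hd1⟩
    have h3 : tau d ^ (2 * k) ≤
        ∑ d ∈ (Finset.Icc 1 Y).filter (fun d => d ∣ (fv b c n).natAbs), tau d ^ (2 * k) :=
      Finset.single_le_sum (f := fun d => tau d ^ (2 * k))
        (fun i _ => pow_nonneg (moa_tau_pos i) _) hmem
    calc tau (fv b c n).natAbs ^ k ≤ (2 * tau d ^ 2) ^ k :=
          pow_le_pow_left₀ (moa_tau_pos _) hd3 k
      _ = 2 ^ k * tau d ^ (2 * k) := by rw [mul_pow, ← pow_mul]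
      _ ≤ _ := mul_le_mul_of_nonneg_left h3 (by positivity)
  -- summation
  have h4 : ∑ n ∈ Finset.Icc 1 N,
      ∑ d ∈ (Finset.Icc 1 Y).filter (fun d => d ∣ (fv b c n).natAbs), tau d ^ (2 * k) =
      ∑ d ∈ Finset.Icc 1 Y, (((Finset.Icc 1 N).filter
        (fun n : ℕ => d ∣ (fv b c n).natAbs)).card : ℝ) * tau d ^ (2 * k) := by
    simp_rw [Finset.sum_filter]
    rw [Finset.sum_comm]
    refine Finset.sum_congr rfl (fun d _ => ?_)
    rw [← Finset.sum_filter, Finset.sum_const, nsmul_eq_mul]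
  have h5 : ∀ d ∈ Finset.Icc 1 Y, (((Finset.Icc 1 N).filter
        (fun n : ℕ => d ∣ (fv b c n).natAbs)).card : ℝ) * tau d ^ (2 * k) ≤
      2 * C₀ * Real.sqrt |(dsc b c : ℝ)| * x * (tau d ^ (2 * k + 1) / d) := by
    intro d hd
    rw [Finset.mem_Icc] at hd
    have hd0 : (0 : ℝ) < d := by exact_mod_cast hd.1
    have hdle : (d : ℝ) ≤ C₀ * x := by
      have : (d : ℝ) ≤ (Y : ℝ) := by exact_mod_cast hd.2
      exact this.trans (Nat.floor_le (by linarith))
    have h6 : (N : ℝ) / d + 1 ≤ 2 * C₀ * x / d := by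
      rw [div_add_one hd0.ne']
      apply div_le_div_of_nonneg_right _ hd0.le
      nlinarith
    have h7 := moa_count b c hs N d hd.1
    have h8 : 0 ≤ Real.sqrt |(dsc b c : ℝ)| * tau d :=
      mul_nonneg (Real.sqrt_nonneg _) (moa_tau_pos _)
    calc (((Finset.Icc 1 N).filter (fun n : ℕ => d ∣ (fv b c n).natAbs)).card : ℝ) *
          tau d ^ (2 * k)
        ≤ (2 * C₀ * x / d * (Real.sqrt |(dsc b c : ℝ)| * tau d)) * tau d ^ (2 * k) := by
          apply mul_le_mul_of_nonneg_right _ (pow_nonneg (moa_tau_pos _) _)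
          exact h7.trans (mul_le_mul_of_nonneg_right h6 h8)
      _ = 2 * C₀ * Real.sqrt |(dsc b c : ℝ)| * x * (tau d ^ (2 * k + 1) / d) := by
          rw [pow_succ]
          field_simp
  have h9 : Real.log (C₀ * x) = Real.log C₀ + Real.log x :=
    Real.log_mul (by linarith) (by linarith)
  have h10 : (1 + Real.log (C₀ * x)) ^ a ≤ (1 + Real.log C₀) ^ a * (1 + Real.log x) ^ a := by
    rw [← mul_pow]
    apply pow_le_pow_left₀ (by rw [h9]; linarith)
    rw [h9]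
    nlinarith
  calc ∑ n ∈ Finset.Icc 1 N, tau (fv b c n).natAbs ^ k
      ≤ ∑ n ∈ Finset.Icc 1 N, 2 ^ k *
        ∑ d ∈ (Finset.Icc 1 Y).filter (fun d => d ∣ (fv b c n).natAbs), tau d ^ (2 * k) :=
        Finset.sum_le_sum h1
    _ = 2 ^ k * ∑ d ∈ Finset.Icc 1 Y, (((Finset.Icc 1 N).filter
        (fun n : ℕ => d ∣ (fv b c n).natAbs)).card : ℝ) * tau d ^ (2 * k) := by
        rw [← Finset.mul_sum, h4]
    _ ≤ 2 ^ k * ∑ d ∈ Finset.Icc 1 Y,
        2 * C₀ * Real.sqrt |(dsc b c : ℝ)| * x * (tau d ^ (2 * k + 1) / d) :=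
        mul_le_mul_of_nonneg_left (Finset.sum_le_sum h5) (by positivity)
    _ = 2 ^ k * (2 * C₀ * Real.sqrt |(dsc b c : ℝ)| * x) *
        ∑ d ∈ Finset.Icc 1 Y, tau d ^ (2 * k + 1) / d := by
        rw [← Finset.mul_sum]; ring
    _ ≤ 2 ^ k * (2 * C₀ * Real.sqrt |(dsc b c : ℝ)| * x) *
        ((1 + Real.log C₀) ^ a * (1 + Real.log x) ^ a) :=
        mul_le_mul_of_nonneg_left ((ha (C₀ * x) hy1).trans h10) (by positivity)
    _ = M * (x * (1 + Real.log x) ^ a) := by rw [hM]; ring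
    _ ≤ (1 + M) * (x * (1 + Real.log x) ^ a) := by
        apply mul_le_mul_of_nonneg_right (by linarith)
        positivity
    _ = (1 + M) * x * (1 + Real.log x) ^ a := by ring

end Pool.Agent.MQ

namespace Pool.Agent.MQ

theorem mom_one : type_of% @mom_one_pr := @mom_one_pr

end Pool.Agent.MQ
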