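import Pool.Agent.Lib_helper39.MQ.Defs
import Pool.Agent.Lib_helper39.MQX.ALG

/-! MQ. Block SYP: the system for positive discriminant. -/

namespace Pool.Agent.MQ

open Filter Topology MeasureTheory

/-- the data: the root of the discriminant and a Pell unit -/
structure syp_D (b c : ℤ) where
  s : ℝ
  X : ℤ
  Y : ℤ
  s_pos : 0 < s
  s_sq : s ^ 2 = (b : ℝ) ^ 2 - 4 * c
  X_pos : 1 ≤ X
  Y_pos : 1 ≤ Y
  pell : X ^ 2 - (b ^ 2 - 4 * c) * Y ^ 2 = 1

/-- an embedding -/
noncomputable def syp_a (b : ℤ) (s : ℝ) (v : El) : ℝ := v.1 + v.2 * ((b + s) / 2)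

theorem syp_a_ml {b c : ℤ} {s : ℝ} (hs : s ^ 2 = (b : ℝ) ^ 2 - 4 * c) (v w : El) :
    syp_a b s (ml b c v w) = syp_a b s v * syp_a b s w := by
  unfold syp_a ml
  push_cast
  linear_combination (-(v.2 : ℝ) * w.2 / 4) * hs

theorem syp_a_nm {b c : ℤ} {s : ℝ} (hs : s ^ 2 = (b : ℝ) ^ 2 - 4 * c) (v : El) :
    (nm b c v : ℝ) = syp_a b s v * syp_a b (-s) v := by
  unfold syp_a nm
  push_cast
  linear_combination (v.2 : ℝ) ^ 2 / 4 * hs

theorem syp_a_cj (b : ℤ) (s : ℝ) (v : El) : syp_a b s (cj b v) = syp_a b (-s) v := by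
  unfold syp_a cj
  push_cast
  ring

theorem syp_a_dt (b : ℤ) (s : ℝ) (v w : El) :
    syp_a b s w * syp_a b (-s) v - syp_a b (-s) w * syp_a b s v = s * dt v w := by
  unfold syp_a dt
  push_cast
  ring

theorem syp_a_sub (b : ℤ) (s : ℝ) (v : El) : syp_a b s v - syp_a b (-s) v = s * v.2 := by
  unfold syp_a
  ring

theorem syp_a_cn (b : ℤ) (s : ℝ) (e : ℕ → El) (i k l : ℕ) :
    syp_a b s (cn e i k l) = k * syp_a b s (e i) + l * syp_a b s (e (i + 1)) := by
  unfold syp_a cn
  push_cast
  ring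

theorem syp_a_one (b : ℤ) (s : ℝ) : syp_a b s (1, 0) = 1 := by
  unfold syp_a; simp

/-- the chain -/
theorem syp_chain (n : ℕ) : ∀ P : El, P.2 = n → 1 ≤ n → Int.gcd P.1 P.2 = 1 →
    ∃ (r : ℕ) (e : ℕ → El), 1 ≤ r ∧ e 0 = (1, 0) ∧ e r = P ∧
      (∀ i, i < r → dt (e i) (e (i + 1)) = 1) ∧
      ∀ v : El, (0 ≤ v.2 ∧ 0 < dt v P) ↔ ∃ i s t : ℕ, i < r ∧ 1 ≤ s ∧ v = cn e i s t := by
  induction n using Nat.strong_induction_on with
  | _ n ih =>
    intro P hP hn hg
    -- the unimodular description of a cone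
    have cone : ∀ w v : El, dt w P = 1 → v = (dt v P * w.1 + dt w v * P.1,
        dt v P * w.2 + dt w v * P.2) := by
      intro w v h
      unfold dt at *
      ext
      · simp only
        linear_combination (-v.1) * h
      · simp only
        linear_combination (-v.2) * h
    rcases Nat.lt_or_ge 1 n with h1 | h1
    · -- choose the neighbour
      obtain ⟨w, hw, hw1, hw2⟩ : ∃ w : El, dt w P = 1 ∧ 0 < w.2 ∧ w.2 < n := by
        have hb : P.1 * Int.gcdA P.1 P.2 + P.2 * Int.gcdB P.1 P.2 = 1 := by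
          have := Int.gcd_eq_gcd_ab P.1 P.2
          rw [hg] at this
          push_cast at this
          linarith
        set A := Int.gcdA P.1 P.2
        set B := Int.gcdB P.1 P.2
        have hn0 : (0 : ℤ) < n := by exact_mod_cast (by omega : 0 < n)
        -- q' = (-A) mod n
        refine ⟨(B + P.1 * (-((-A) / n)), (-A) % n), ?_, ?_, ?_⟩
        · unfold dt
          have h2 := Int.emod_add_mul_ediv (-A) n
          simp only [hP] at hb ⊢
          have h3 : (-A) % (n : ℤ) = -A - n * (-A / n) := by linarith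
          rw [h3]
          linear_combination hb
        · simp only
          rcases lt_or_eq_of_le (Int.emod_nonneg (-A) hn0.ne') with h | h
          · exact h
          · exfalso
            have hd : (n : ℤ) ∣ -A := Int.dvd_of_emod_eq_zero h.symm
            have hd' : (n : ℤ) ∣ 1 := by
              rw [← hb, hP]
              exact dvd_add (Dvd.dvd.mul_left ((dvd_neg).1 hd) _) (dvd_mul_right _ _)
            have := Int.le_of_dvd one_pos hd'
            have : (1 : ℤ) < n := by exact_mod_cast h1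
            linarith
        · exact Int.emod_lt_of_pos _ hn0
      obtain ⟨m, hm⟩ : ∃ m : ℕ, w.2 = m := ⟨w.2.toNat, (Int.toNat_of_nonneg hw1.le).symm⟩
      have hmn : m < n := by
        have : (m : ℤ) < n := by rw [← hm]; exact hw2
        exact_mod_cast this
      have hm1 : 1 ≤ m := by
        have : (0 : ℤ) < m := by rw [← hm]; exact hw1
        exact_mod_cast this
      have hgw : Int.gcd w.1 w.2 = 1 := by
        have h2 : ((Int.gcd w.1 w.2 : ℕ) : ℤ) ∣ 1 := by
          rw [← hw]
          unfold dt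
          exact dvd_sub (Dvd.dvd.mul_right (Int.gcd_dvd_left ..) _)
            (Dvd.dvd.mul_right (Int.gcd_dvd_right ..) _)
        have := Int.natCast_dvd_natCast.1 (by exact_mod_cast h2 : ((Int.gcd w.1 w.2 : ℕ) : ℤ) ∣ ((1 : ℕ) : ℤ))
        exact Nat.dvd_one.1 this
      obtain ⟨r, e, hr, e0, er, ed, ew⟩ := ih m hmn w hm hm1 hgw
      refine ⟨r + 1, fun i => if i ≤ r then e i else P, by omega, by simpa using e0, by simp, ?_, ?_⟩
      · intro i hi
        rcases Nat.lt_or_ge i r with h | h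
        · have a1 : i ≤ r := by omega
          have a2 : i + 1 ≤ r := by omega
          simp only [a1, a2, if_true]
          exact ed i h
        · have a1 : i = r := by omega
          subst a1
          simp [er, hw]
      · intro v
        have pl : dt v P * w.2 = dt v w * P.2 + v.2 * dt w P := by unfold dt; ring
        rw [hw, hP, mul_one] at pl
        constructor
        · rintro ⟨h2, h3⟩
          rcases lt_or_ge 0 (dt v w) with h4 | h4
          · obtain ⟨i, s, t, hi, hs, hv⟩ := (ew v).1 ⟨h2, h4⟩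
            refine ⟨i, s, t, by omega, hs, ?_⟩
            have a1 : i ≤ r := by omega
            have a2 : i + 1 ≤ r := by omega
            rw [hv]
            unfold cn
            simp only [a1, a2, if_true]
          · have h5 : 0 ≤ dt w v := by
              have : dt w v = - dt v w := by unfold dt; ring
              linarith
            refine ⟨r, (dt v P).toNat, (dt w v).toNat, by omega, ?_, ?_⟩
            · have : (0 : ℤ) < ((dt v P).toNat : ℤ) := by rw [Int.toNat_of_nonneg h3.le]; exact h3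
              exact_mod_cast this
            · unfold cn
              have : ¬ (r + 1 ≤ r) := by omega
              simp only [le_refl, if_true, this, if_false, er]
              rw [Int.toNat_of_nonneg h3.le, Int.toNat_of_nonneg h5]
              exact cone w v hw
        · rintro ⟨i, s, t, hi, hs, hv⟩
          rcases Nat.lt_or_ge i r with h | h
          · have a1 : i ≤ r := by omega
            have a2 : i + 1 ≤ r := by omega
            have hv' : v = cn e i s t := by
              rw [hv]; unfold cn; simp only [a1, a2, if_true]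
            obtain ⟨h2, h3⟩ := (ew v).2 ⟨i, s, t, h, hs, hv'⟩
            refine ⟨h2, ?_⟩
            have h4 : 0 < dt v P * w.2 := by
              rw [pl]
              have : (0 : ℤ) < n := by exact_mod_cast (by omega : 0 < n)
              have := mul_pos h3 this
              linarith
            exact (pos_iff_pos_of_mul_pos h4).2 hw1
          · have a1 : i = r := by omega
            subst a1
            have hnot : ¬ (i + 1 ≤ i) := by omega
            have hv' : v = ((s : ℤ) * w.1 + t * P.1, (s : ℤ) * w.2 + t * P.2) := by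
              rw [hv]; unfold cn; simp only [le_refl, if_true, hnot, if_false, er]
            constructor
            · rw [hv']
              simp only [hP]
              positivity
            · have : dt v P = s * dt w P := by
                rw [hv']; unfold dt; ring
              rw [this, hw, mul_one]
              exact_mod_cast hs
    · have h2 : n = 1 := by omega
      subst h2
      have hP2 : P.2 = 1 := by simpa using hP
      have hw : dt (1, 0) P = 1 := by unfold dt; simp [hP2]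
      refine ⟨1, fun i => if i = 0 then (1, 0) else P, le_refl _, by simp, by simp, ?_, ?_⟩
      · intro i hi
        have : i = 0 := by omega
        subst this
        simp [hw]
      · intro v
        constructor
        · rintro ⟨h2, h3⟩
          have h5 : dt (1, 0) v = v.2 := by unfold dt; simp
          refine ⟨0, (dt v P).toNat, (dt (1, 0) v).toNat, by omega, ?_, ?_⟩
          · have : (0 : ℤ) < ((dt v P).toNat : ℤ) := by rw [Int.toNat_of_nonneg h3.le]; exact h3
            exact_mod_cast this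
          · unfold cn
            have h6 : ¬ ((0 : ℕ) + 1 = 0) := by omega
            simp only [if_true, h6, if_false]
            rw [Int.toNat_of_nonneg h3.le, Int.toNat_of_nonneg (h5.symm ▸ h2)]
            exact cone (1, 0) v hw
        · rintro ⟨i, s, t, hi, hs, hv⟩
          have a1 : i = 0 := by omega
          subst a1
          have h6 : ¬ ((0 : ℕ) + 1 = 0) := by omega
          have hv' : v = ((s : ℤ) * 1 + t * P.1, (s : ℤ) * 0 + t * P.2) := by
            rw [hv]; unfold cn; simp only [if_true, h6, if_false]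
          constructor
          · rw [hv']
            simp only [hP]
            positivity
          · have : dt v P = s * dt (1, 0) P := by
              rw [hv']; unfold dt; ring
            rw [this, hw, mul_one]
            exact_mod_cast hs

section
variable {b c : ℤ} (P : syp_D b c)

/-- first embedding -/
noncomputable def syp_D.a (v : El) : ℝ := syp_a b P.s v
/-- second embedding -/
noncomputable def syp_D.a' (v : El) : ℝ := syp_a b (-P.s) v
/-- the unit -/
noncomputable def syp_D.h : ℝ := P.X + P.Y * P.s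
/-- the unit -/
def syp_D.eta : El := (P.X - b * P.Y, 2 * P.Y)
/-- the window -/
def syp_D.W (v : El) : Prop := 0 < P.a' v ∧ P.a' v ≤ P.a v ∧ P.a v < P.h ^ 2 * P.a' v
/-- the group -/
def syp_D.G (o : El) : Prop := nm b c o = 1 ∧ ∃ k : ℤ, P.a o = P.h ^ k ∨ P.a o = - P.h ^ k
/-- the coordinate -/
noncomputable def syp_D.U (v : El) : ℝ := Real.log (P.a v / P.a' v) / Real.log (P.h ^ 2)
/-- the coordinate -/
noncomputable def syp_D.ur (t : ℝ) : ℝ :=
  Real.log ((2 * t + b + P.s) / (2 * t + b - P.s)) / Real.log (P.h ^ 2)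
/-- the end of the window -/
noncomputable def syp_D.lam : ℝ := (P.X - b * P.Y) / (2 * P.Y)

theorem syp_ml (v w : El) : P.a (ml b c v w) = P.a v * P.a w := syp_a_ml P.s_sq v w
theorem syp_ml' (v w : El) : P.a' (ml b c v w) = P.a' v * P.a' w :=
  syp_a_ml (by rw [neg_sq]; exact P.s_sq) v w
theorem syp_nm (v : El) : (nm b c v : ℝ) = P.a v * P.a' v := syp_a_nm P.s_sq v
theorem syp_cj (v : El) : P.a (cj b v) = P.a' v := syp_a_cj b P.s v
theorem syp_dt (v w : El) : P.a w * P.a' v - P.a' w * P.a v = P.s * dt v w :=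
  syp_a_dt b P.s v w
theorem syp_sub (v : El) : P.a v - P.a' v = P.s * v.2 := syp_a_sub b P.s v
theorem syp_cn (e : ℕ → El) (i k l : ℕ) :
    P.a (cn e i k l) = k * P.a (e i) + l * P.a (e (i + 1)) := syp_a_cn b P.s e i k l
theorem syp_cn' (e : ℕ → El) (i k l : ℕ) :
    P.a' (cn e i k l) = k * P.a' (e i) + l * P.a' (e (i + 1)) := syp_a_cn b (-P.s) e i k l

theorem syp_Xr : (1 : ℝ) ≤ P.X := by exact_mod_cast P.X_pos
theorem syp_Yr : (1 : ℝ) ≤ P.Y := by exact_mod_cast P.Y_pos

theorem syp_h_gt : 1 < P.h := by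
  unfold syp_D.h
  have h1 := syp_Xr P
  have h2 := syp_Yr P
  have h3 := P.s_pos
  have : 0 < (P.Y : ℝ) * P.s := by positivity
  linarith

theorem syp_h_mul : P.h * (P.X - P.Y * P.s) = 1 := by
  have h1 : ((P.X : ℝ)) ^ 2 - ((b : ℝ) ^ 2 - 4 * c) * P.Y ^ 2 = 1 := by exact_mod_cast P.pell
  unfold syp_D.h
  linear_combination h1 - (P.Y : ℝ) ^ 2 * P.s_sq

theorem syp_h_inv : (P.X : ℝ) - P.Y * P.s = P.h⁻¹ :=
  eq_inv_of_mul_eq_one_right (syp_h_mul P)

theorem syp_a_eta : P.a P.eta = P.h := by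
  unfold syp_D.a syp_D.eta syp_D.h syp_a
  push_cast
  ring

theorem syp_a'_eta : P.a' P.eta = P.h⁻¹ := by
  rw [← syp_h_inv]
  unfold syp_D.a' syp_D.eta syp_a
  push_cast
  ring

theorem syp_nm_eta : nm b c P.eta = 1 := by
  have h1 := P.pell
  unfold nm syp_D.eta
  simp only
  linear_combination h1

theorem syp_logE : 0 < Real.log (P.h ^ 2) := by
  apply Real.log_pos
  have := syp_h_gt P
  nlinarith

theorem syp_W_iff (v : El) : P.W v ↔ 0 ≤ v.2 ∧ 0 < dt v P.eta := by
  have hs := P.s_pos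
  have hh := syp_h_gt P
  have h0 : 0 < P.h := by linarith
  have h1 := syp_sub P v
  have h2 := syp_dt P v P.eta
  rw [syp_a_eta, syp_a'_eta] at h2
  have h3 : P.h ^ 2 * P.a' v - P.a v = P.h * (P.s * dt v P.eta) := by
    rw [← h2]; field_simp
  unfold syp_D.W
  constructor
  · rintro ⟨h4, h5, h6⟩
    constructor
    · have : 0 ≤ P.s * v.2 := by linarith
      have := nonneg_of_mul_nonneg_right this hs
      exact_mod_cast this
    · have : 0 < P.h * (P.s * dt v P.eta) := by linarith
      have := (pos_iff_pos_of_mul_pos this).1 h0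
      have := (pos_iff_pos_of_mul_pos this).1 hs
      exact_mod_cast this
  · rintro ⟨h4, h5⟩
    have h6 : 0 < P.h * (P.s * dt v P.eta) := by
      have : (0 : ℝ) < dt v P.eta := by exact_mod_cast h5
      positivity
    have h7 : 0 ≤ P.s * v.2 := by
      have : (0 : ℝ) ≤ v.2 := by exact_mod_cast h4
      positivity
    refine ⟨?_, by linarith, by linarith⟩
    have h8 : 0 < (P.h ^ 2 - 1) * P.a' v := by nlinarith
    have h9 : 0 < P.h ^ 2 - 1 := by nlinarith
    exact (pos_iff_pos_of_mul_pos h8).1 h9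

theorem syp_wdw (hD : 0 < dsc b c) (v : El) : wdw b c P.lam v ↔ P.W v := by
  rw [syp_W_iff]
  have hY : (0 : ℝ) < P.Y := by have := syp_Yr P; linarith
  unfold wdw
  have key : P.lam * v.2 < v.1 ↔ 0 < dt v P.eta := by
    unfold syp_D.lam
    rw [div_mul_eq_mul_div, div_lt_iff₀ (by positivity)]
    have : (0 < dt v P.eta) ↔ (0 : ℝ) < ((dt v P.eta : ℤ) : ℝ) := by
      exact_mod_cast Iff.rfl
    rw [this]
    unfold dt syp_D.eta
    push_cast
    constructor <;> intro h <;> linarith
  constructor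
  · rintro (⟨h1, h2⟩ | ⟨h1, h2⟩)
    · refine ⟨h1.ge, ?_⟩
      unfold dt syp_D.eta
      simp only [h1]
      have := P.Y_pos
      have : 0 < v.1 * (2 * P.Y) := by positivity
      linarith
    · refine ⟨h1.le, ?_⟩
      rcases h2 with h2 | h2
      · omega
      · exact key.1 h2
  · rintro ⟨h1, h2⟩
    rcases h1.eq_or_lt with h3 | h3
    · left
      refine ⟨h3.symm, ?_⟩
      unfold dt syp_D.eta at h2
      simp only [← h3] at h2
      have h4 : 0 < v.1 * (2 * P.Y) := by linarith
      have := P.Y_pos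
      exact (pos_iff_pos_of_mul_pos h4).2 (by linarith)
    · right
      exact ⟨h3, Or.inr (key.2 h2)⟩

/-- coordinates -/
theorem syp_uu (v : El) (h1 : 0 < P.a' v) (h2 : P.a' v ≤ P.a v) : uu P.ur v = P.U v := by
  have hs := P.s_pos
  have h3 := syp_sub P v
  have h4 : 0 ≤ (v.2 : ℝ) := by
    have : 0 ≤ P.s * v.2 := by linarith
    exact nonneg_of_mul_nonneg_right this hs
  unfold uu
  by_cases h5 : v.2 = 0
  · have h6 : P.a v = P.a' v := by
      rw [h5] at h3; simp at h3; linarith
    have h7 : 0 < v.1 := by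
      have : P.a' v = v.1 := by unfold syp_D.a' syp_a; rw [h5]; simp
      rw [this] at h1
      exact_mod_cast h1
    rw [if_pos h5, if_pos h7]
    unfold syp_D.U
    rw [h6, div_self h1.ne', Real.log_one, zero_div]
  · rw [if_neg h5]
    have h6 : 0 < (v.2 : ℝ) := lt_of_le_of_ne h4 (by exact_mod_cast (Ne.symm h5))
    unfold syp_D.U syp_D.ur
    congr 2
    have e1 : 2 * ((v.1 : ℝ) / v.2) + b + P.s = 2 * P.a v / v.2 := by
      unfold syp_D.a syp_a; field_simp; ring
    have e2 : 2 * ((v.1 : ℝ) / v.2) + b - P.s = 2 * P.a' v / v.2 := by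
      unfold syp_D.a' syp_a; field_simp; ring
    rw [e1, e2]
    field_simp

theorem syp_G_ml {o o' : El} (h : P.G o) (h' : P.G o') : P.G (ml b c o o') := by
  obtain ⟨h1, k, h2⟩ := h
  obtain ⟨h1', k', h2'⟩ := h'
  have hh : P.h ≠ 0 := by have := syp_h_gt P; positivity
  refine ⟨by rw [nm_ml, h1, h1']; rfl, k + k', ?_⟩
  rw [syp_ml, zpow_add₀ hh]
  rcases h2 with h2 | h2 <;> rcases h2' with h2' | h2' <;> rw [h2, h2']
  · left; rfl
  · right; ring
  · right; ring
  · left; ring

theorem syp_G_cj {o : El} (h : P.G o) : P.G (cj b o) := by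
  obtain ⟨h1, k, h2⟩ := h
  have hh : P.h ≠ 0 := by have := syp_h_gt P; positivity
  have hk : P.h ^ k ≠ 0 := zpow_ne_zero _ hh
  have h3 : P.a o * P.a' o = 1 := by
    rw [← syp_nm, h1]; simp
  refine ⟨by rw [nm_cj, h1], -k, ?_⟩
  rw [syp_cj, zpow_neg]
  rcases h2 with h2 | h2 <;> rw [h2] at h3
  · left; exact eq_inv_of_mul_eq_one_right h3
  · right
    have : P.h ^ k * (- P.a' o) = 1 := by linarith
    have := eq_inv_of_mul_eq_one_right this
    linarith

theorem syp_G_pow (n : ℕ) : ∃ o : El, nm b c o = 1 ∧ P.a o = P.h ^ n := by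
  induction n with
  | zero => exact ⟨(1, 0), by unfold nm; simp, by rw [pow_zero]; exact syp_a_one b P.s⟩
  | succ n ih =>
    obtain ⟨o, h1, h2⟩ := ih
    exact ⟨ml b c P.eta o, by rw [nm_ml, h1, syp_nm_eta]; rfl, by
      rw [syp_ml, h2, syp_a_eta, pow_succ]; ring⟩

theorem syp_G_zpow (k : ℤ) : ∃ o : El, nm b c o = 1 ∧ P.a o = P.h ^ k := by
  obtain ⟨n, rfl | rfl⟩ := k.eq_nat_or_neg
  · obtain ⟨o, h1, h2⟩ := syp_G_pow P n
    exact ⟨o, h1, by rw [h2, zpow_natCast]⟩
  · obtain ⟨o, h1, h2⟩ := syp_G_pow P n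
    refine ⟨cj b o, by rw [nm_cj, h1], ?_⟩
    rw [syp_cj, zpow_neg, zpow_natCast, ← h2]
    apply eq_inv_of_mul_eq_one_right
    rw [← syp_nm, h1]; simp

theorem syp_ex (v : El) (hv : 0 < nm b c v) : ∃ w : El, P.W w ∧ ∃ o, P.G o ∧ w = ml b c o v := by
  have hh := syp_h_gt P
  have h0 : 0 < P.h := by linarith
  have h1 : 0 < P.a v * P.a' v := by rw [← syp_nm]; exact_mod_cast hv
  have ha : P.a v ≠ 0 := fun h => by rw [h, zero_mul] at h1; exact lt_irrefl _ h1
  have ha' : P.a' v ≠ 0 := fun h => by rw [h, mul_zero] at h1; exact lt_irrefl _ h1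
  have hρ : 0 < |P.a v| / |P.a' v| := by positivity
  obtain ⟨k, hk1, hk2⟩ := exists_mem_Ico_zpow (y := P.h ^ 2) hρ (by nlinarith)
  obtain ⟨o, ho1, ho2⟩ := syp_G_zpow P (-k)
  -- the sign
  have hoo : P.a o * P.a' o = 1 := by rw [← syp_nm, ho1]; simp
  have ho3 : P.a' o = P.h ^ k := by
    rw [ho2, zpow_neg] at hoo
    have := eq_inv_of_mul_eq_one_right hoo
    rw [this, inv_inv]
  have hkk : 0 < P.h ^ k := zpow_pos h0 k
  have e1 : (P.h ^ 2) ^ k = P.h ^ k * P.h ^ k := by
    rw [← mul_zpow, sq]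
  have e2 : (P.h ^ 2) ^ (k + 1) = P.h ^ k * P.h ^ k * P.h ^ 2 := by
    rw [zpow_add₀ (by positivity), e1, zpow_one]
  have pa' : 0 < |P.a' v| := abs_pos.2 ha'
  rw [e1, le_div_iff₀ pa'] at hk1
  rw [e2, div_lt_iff₀ pa'] at hk2
  -- the element with absolute values
  have main : ∀ w : El, P.a w = P.h ^ (-k) * |P.a v| → P.a' w = P.h ^ k * |P.a' v| → P.W w := by
    intro w hw hw'
    rw [zpow_neg] at hw
    refine ⟨by rw [hw']; positivity, ?_, ?_⟩
    · rw [hw, hw', inv_mul_eq_div, le_div_iff₀ hkk]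
      linarith
    · rw [hw, hw', inv_mul_eq_div, div_lt_iff₀ hkk]
      linarith
  rcases lt_or_gt_of_ne ha' with h2 | h2
  · have h3 : P.a v < 0 := by nlinarith
    refine ⟨ml b c (ml b c (-1, 0) o) v, ?_, ml b c (-1, 0) o, ?_, rfl⟩
    · have m1 : P.a (-1, 0) = -1 := by unfold syp_D.a syp_a; simp
      have m2 : P.a' (-1, 0) = -1 := by unfold syp_D.a' syp_a; simp
      apply main
      · rw [syp_ml, syp_ml, m1, ho2, abs_of_neg h3]; ring
      · rw [syp_ml', syp_ml', m2, ho3, abs_of_neg h2]; ring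
    · apply syp_G_ml
      · refine ⟨by unfold nm; simp, 0, Or.inr ?_⟩
        unfold syp_D.a syp_a; simp
      · exact ⟨ho1, -k, Or.inl ho2⟩
  · have h3 : 0 < P.a v := (pos_iff_pos_of_mul_pos h1).2 h2
    refine ⟨ml b c o v, ?_, o, ⟨ho1, -k, Or.inl ho2⟩, rfl⟩
    apply main
    · rw [syp_ml, ho2, abs_of_pos h3]
    · rw [syp_ml', ho3, abs_of_pos h2]

theorem syp_uniq {o w w' : El} (ho : P.G o) (hw : P.W w) (hw' : P.W w') (h : w' = ml b c o w) :
    w' = w := by
  have hh := syp_h_gt P
  have h0 : 0 < P.h := by linarith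
  obtain ⟨h1, k, h2⟩ := ho
  have h3 : P.a o * P.a' o = 1 := by rw [← syp_nm, h1]; simp
  have hk : 0 < P.h ^ k := zpow_pos h0 k
  have e : P.a w' = P.a o * P.a w := by rw [h, syp_ml]
  have e' : P.a' w' = P.a' o * P.a' w := by rw [h, syp_ml']
  obtain ⟨w1, w2, w3⟩ := hw
  obtain ⟨w1', w2', w3'⟩ := hw'
  have wa : 0 < P.a w := by linarith
  have wa' : 0 < P.a w' := by linarith
  have h4 : P.a o = P.h ^ k := by
    rcases h2 with h2 | h2
    · exact h2
    · exfalso
      rw [h2] at e
      nlinarith [mul_pos hk wa]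
  have h5 : P.a' o = (P.h ^ k)⁻¹ := by
    rw [h4] at h3; exact eq_inv_of_mul_eq_one_right h3
  have hk0 : k = 0 := by
    rw [e, e', h4, h5, inv_mul_le_iff₀ hk] at w2'
    rw [e, e', h4, h5] at w3'
    have w4 : P.h ^ k * (P.h ^ k * P.a w) < P.h ^ 2 * P.a' w := by
      have := mul_lt_mul_of_pos_left w3' hk
      calc _ < P.h ^ k * (P.h ^ 2 * ((P.h ^ k)⁻¹ * P.a' w)) := this
        _ = _ := by field_simp
    -- w2' : a' w ≤ h^k (h^k a w)
    have q1 : (P.h ^ k) ^ 2 < P.h ^ 2 := by
      by_contra hc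
      push Not at hc
      have : P.h ^ 2 * P.a w ≤ (P.h ^ k) ^ 2 * P.a w := mul_le_mul_of_nonneg_right hc wa.le
      have h7 : P.h ^ 2 * P.a' w ≤ P.h ^ 2 * P.a w := mul_le_mul_of_nonneg_left w2 (by positivity)
      nlinarith
    have q2 : 1 < (P.h ^ k) ^ 2 * P.h ^ 2 := by
      by_contra hc
      push Not at hc
      have h6 : (P.h ^ k) ^ 2 * P.a w < (P.h ^ k) ^ 2 * (P.h ^ 2 * P.a' w) :=
        mul_lt_mul_of_pos_left w3 (by positivity)
      have h7 : (P.h ^ k) ^ 2 * P.h ^ 2 * P.a' w ≤ 1 * P.a' w :=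
        mul_le_mul_of_nonneg_right hc w1.le
      nlinarith
    have q3 : P.h ^ k < P.h ^ (1 : ℤ) := by
      rw [zpow_one]; exact lt_of_pow_lt_pow_left₀ 2 h0.le q1
    have q4 : P.h ^ (-1 : ℤ) < P.h ^ k := by
      rw [zpow_neg_one]
      apply lt_of_pow_lt_pow_left₀ 2 hk.le
      rw [inv_pow, inv_lt_iff_one_lt_mul₀ (by positivity)]
      exact q2
    have r1 := (zpow_lt_zpow_iff_right₀ hh).1 q3
    have r2 := (zpow_lt_zpow_iff_right₀ hh).1 q4
    omega
  subst hk0
  rw [zpow_zero] at h4 h5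
  rw [inv_one] at h5
  have h6 := syp_sub P o
  rw [h4, h5, sub_self] at h6
  have h7 : o.2 = 0 := by
    have : (o.2 : ℝ) = 0 := by
      rcases mul_eq_zero.1 h6.symm with h | h
      · exact absurd h P.s_pos.ne'
      · exact h
    exact_mod_cast this
  have h8 : o.1 = 1 := by
    have : P.a o = o.1 := by unfold syp_D.a syp_a; rw [h7]; simp
    rw [this] at h4
    exact_mod_cast h4
  have h9 : o = (1, 0) := Prod.ext h8 h7
  rw [h, h9, ml_comm, ml_one]

open Classical in
/-- the representative -/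
noncomputable def syp_D.rp (v : El) : El :=
  if h : 0 < nm b c v then Classical.choose (syp_ex P v h) else (1, 0)

theorem syp_rp {v : El} (h : 0 < nm b c v) : P.W (P.rp v) ∧ ∃ o, P.G o ∧ P.rp v = ml b c o v := by
  unfold syp_D.rp
  rw [dif_pos h]
  exact Classical.choose_spec (syp_ex P v h)

theorem syp_G_nm {o : El} (ho : P.G o) (v : El) : nm b c (ml b c o v) = nm b c v := by
  rw [nm_ml, ho.1, one_mul]

theorem syp_G_cancel {o : El} (ho : P.G o) (v : El) : ml b c (cj b o) (ml b c o v) = v := by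
  rw [← ml_assoc, ml_cj_self, ho.1, ml_scal]
  simp

theorem syp_W_nm {v : El} (h : P.W v) : 0 < nm b c v := by
  have h1 : (0 : ℝ) < nm b c v := by
    rw [syp_nm P]
    obtain ⟨h1, h2, h3⟩ := h
    have : 0 < P.a v := by linarith
    positivity
  exact_mod_cast h1

theorem syp_rp_eq {o v w : El} (hv : 0 < nm b c v) (ho : P.G o) (hw : P.W w)
    (h : w = ml b c o v) : P.rp v = w := by
  obtain ⟨h1, o', h2, h3⟩ := syp_rp P hv
  apply syp_uniq P (syp_G_ml P h2 (syp_G_cj P ho)) hw h1
  rw [h3, h, ml_assoc, syp_G_cancel P ho]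

theorem syp_U_diff {v w : El} (hv1 : 0 < P.a' v) (hv2 : P.a' v ≤ P.a v)
    (_hv3 : P.a v ≤ P.h ^ 2 * P.a' v) (hw1 : 0 < P.a' w) (hw2 : P.a' w ≤ P.a w)
    (hw3 : P.a w ≤ P.h ^ 2 * P.a' w) (hd : 0 < dt v w) :
    2 * P.s / (P.h + 1) / Real.log (P.h ^ 2) * dt v w /
        Real.sqrt (nm b c v * nm b c w) ≤ P.U w - P.U v ∧
      P.U w - P.U v ≤ P.s / Real.log (P.h ^ 2) * dt v w /
        Real.sqrt (nm b c v * nm b c w) := by
  have hs := P.s_pos
  have hh := syp_h_gt P
  have hL := syp_logE P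
  have hv : 0 < P.a v := by linarith
  have hw : 0 < P.a w := by linarith
  have h1 := syp_dt P v w
  have hdr : (0 : ℝ) < dt v w := by exact_mod_cast hd
  set A := Real.sqrt (P.a w * P.a' v) with hA
  set B := Real.sqrt (P.a' w * P.a v) with hB
  have hA0 : 0 < A := Real.sqrt_pos.2 (by positivity)
  have hB0 : 0 < B := Real.sqrt_pos.2 (by positivity)
  have hA2 : A ^ 2 = P.a w * P.a' v := Real.sq_sqrt (by positivity)
  have hB2 : B ^ 2 = P.a' w * P.a v := Real.sq_sqrt (by positivity)
  have hAB : Real.sqrt (nm b c v * nm b c w) = A * B := by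
    rw [syp_nm P, syp_nm P, hA, hB, ← Real.sqrt_mul (by positivity)]
    congr 1; ring
  have hdiff : A ^ 2 - B ^ 2 = P.s * dt v w := by rw [hA2, hB2, h1]
  have hAgt : B < A := by
    have : B ^ 2 < A ^ 2 := by have := mul_pos hs hdr; linarith
    exact lt_of_pow_lt_pow_left₀ 2 hA0.le this
  -- the difference is `2 log (A / B)`
  have hU : P.U w - P.U v = 2 * Real.log (A / B) / Real.log (P.h ^ 2) := by
    unfold syp_D.U
    rw [div_sub_div_same]
    congr 1
    have e1 : P.a w / P.a' w / (P.a v / P.a' v) = (A / B) ^ 2 := by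
      rw [div_pow, hA2, hB2]; field_simp
    rw [← Real.log_div (by positivity) (by positivity), e1, Real.log_pow]
    push_cast; ring
  set x := A / B with hx
  have hx1 : 1 < x := (one_lt_div hB0).2 hAgt
  have hx0 : 0 < x := by linarith
  have hxh : x ≤ P.h := by
    have : x ^ 2 ≤ P.h ^ 2 := by
      rw [hx, div_pow, hA2, hB2, div_le_iff₀ (by positivity)]
      calc P.a w * P.a' v ≤ (P.h ^ 2 * P.a' w) * P.a v := mul_le_mul hw3 hv2 hv1.le (by positivity)
        _ = _ := by ring
    exact le_of_sq_le_sq this (by linarith)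
  have hδ : P.s * dt v w / (A * B) = x - 1 / x := by
    rw [← hdiff, hx]; field_simp
  have up : 2 * Real.log x ≤ x - 1 / x := by
    have h2 := Real.log_le_sub_one_of_pos (Real.sqrt_pos.2 hx0)
    -- use log y ≤ (y - 1/y)/2 via sinh
    have h3 : Real.log x ≤ Real.sinh (Real.log x) :=
      Real.self_le_sinh_iff.2 (Real.log_nonneg hx1.le)
    rw [Real.sinh_eq, Real.exp_neg, Real.exp_log hx0] at h3
    rw [one_div]; linarith
  have low : 2 / (P.h + 1) * (x - 1 / x) ≤ 2 * Real.log x := by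
    have h2 := Real.one_sub_inv_le_log_of_pos hx0
    have h3 : 2 / (P.h + 1) * (x - 1 / x) ≤ 2 * (1 - x⁻¹) := by
      have e1 : x - 1 / x = (x + 1) * (1 - x⁻¹) := by field_simp; ring
      rw [e1]
      have h4 : 0 ≤ 1 - x⁻¹ := by
        have := inv_le_one_of_one_le₀ hx1.le
        linarith
      have h5 : 2 / (P.h + 1) * (x + 1) ≤ 2 := by
        rw [div_mul_eq_mul_div, div_le_iff₀ (by linarith)]
        nlinarith
      calc _ = (2 / (P.h + 1) * (x + 1)) * (1 - x⁻¹) := by ring
        _ ≤ 2 * (1 - x⁻¹) := mul_le_mul_of_nonneg_right h5 h4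
    linarith
  rw [hU, hAB]
  constructor
  · have : 2 * P.s / (P.h + 1) / Real.log (P.h ^ 2) * dt v w / (A * B) =
        (2 / (P.h + 1) * (P.s * dt v w / (A * B))) / Real.log (P.h ^ 2) := by
      field_simp
    rw [this, hδ]
    exact div_le_div_of_nonneg_right low hL.le
  · have : P.s / Real.log (P.h ^ 2) * dt v w / (A * B) =
        (P.s * dt v w / (A * B)) / Real.log (P.h ^ 2) := by
      field_simp
    rw [this, hδ]
    exact div_le_div_of_nonneg_right up hL.le

theorem syp_lam (t : ℝ) (ht : P.lam ≤ t) : P.s < 2 * t + b := by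
  have hX := syp_Xr P
  have hY := syp_Yr P
  have hs := P.s_pos
  have hh := syp_h_gt P
  have h1 : P.Y * P.s < P.X := by
    have := syp_h_inv P
    have h2 : 0 < P.h⁻¹ := inv_pos.2 (by linarith)
    linarith
  unfold syp_D.lam at ht
  rw [div_le_iff₀ (by positivity)] at ht
  have hY0 : (0 : ℝ) < P.Y := by linarith
  have : P.Y * P.s < P.Y * (2 * t + b) := by linarith
  exact lt_of_mul_lt_mul_left this hY0.le

theorem syp_der (t : ℝ) (ht : P.lam ≤ t) :
    HasDerivAt P.ur (-(P.s / Real.log (P.h ^ 2)) / (t ^ 2 + b * t + c)) t := by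
  have h1 := syp_lam P t ht
  have hs := P.s_pos
  have h2 : 0 < 2 * t + b - P.s := by linarith
  have h3 : 0 < 2 * t + b + P.s := by linarith
  have hL := syp_logE P
  have h4 : (t ^ 2 + b * t + c) = (2 * t + b + P.s) * (2 * t + b - P.s) / 4 := by
    linear_combination P.s_sq / 4
  have d1 : HasDerivAt (fun t : ℝ => 2 * t + b + P.s) 2 t := by
    have := (((hasDerivAt_id t).const_mul 2).add_const (b : ℝ)).add_const P.s
    simpa using this
  have d2 : HasDerivAt (fun t : ℝ => 2 * t + b - P.s) 2 t := by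
    have := (((hasDerivAt_id t).const_mul 2).add_const (b : ℝ)).sub_const P.s
    simpa using this
  have d3 : HasDerivAt P.ur ((2 * (2 * t + b - P.s) - (2 * t + b + P.s) * 2) /
      (2 * t + b - P.s) ^ 2 / ((2 * t + b + P.s) / (2 * t + b - P.s)) / Real.log (P.h ^ 2)) t :=
    ((d1.div d2 h2.ne').log (div_ne_zero h3.ne' h2.ne')).div_const (Real.log (P.h ^ 2))
  refine d3.congr_deriv ?_
  rw [h4]
  field_simp
  ring

theorem syp_top : Tendsto P.ur atTop (𝓝 0) := by
  have hs := P.s_pos
  have e : ∀ t : ℝ, P.lam ≤ t → (2 * t + b + P.s) / (2 * t + b - P.s) =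
      1 + 2 * P.s / (2 * t + b - P.s) := by
    intro t ht
    have := syp_lam P t ht
    have h2 : 0 < 2 * t + b - P.s := by linarith
    field_simp
    ring
  have h1 : Tendsto (fun t : ℝ => 2 * t + b - P.s) atTop atTop := by
    have : Tendsto (fun t : ℝ => 2 * t) atTop atTop :=
      Tendsto.const_mul_atTop two_pos tendsto_id
    have := tendsto_atTop_add_const_right _ ((b : ℝ) - P.s) this
    refine this.congr (fun t => by ring)
  have h2 : Tendsto (fun t : ℝ => 1 + 2 * P.s / (2 * t + b - P.s)) atTop (𝓝 1) := by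
    have := (tendsto_const_nhds (x := 2 * P.s)).div_atTop h1
    have := (tendsto_const_nhds (x := (1 : ℝ))).add this
    simpa using this
  have h3 : Tendsto (fun t : ℝ => (2 * t + b + P.s) / (2 * t + b - P.s)) atTop (𝓝 1) := by
    refine h2.congr' ?_
    filter_upwards [eventually_ge_atTop P.lam] with t ht
    exact (e t ht).symm
  have h4 := ((Real.continuousAt_log one_ne_zero).tendsto.comp h3).div_const (Real.log (P.h ^ 2))
  rw [Real.log_one, zero_div] at h4
  exact h4

theorem syp_ur_lam : P.ur P.lam = 1 := by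
  have hX := syp_Xr P
  have hY := syp_Yr P
  have hs := P.s_pos
  have hh := syp_h_gt P
  have h0 : 0 < P.h := by linarith
  have hL := syp_logE P
  unfold syp_D.ur
  rw [div_eq_one_iff_eq hL.ne']
  congr 1
  have hY0 : (P.Y : ℝ) ≠ 0 := by positivity
  have e1 : 2 * P.lam + b + P.s = P.h / P.Y := by
    unfold syp_D.lam syp_D.h; field_simp; ring
  have e2 : 2 * P.lam + b - P.s = P.h⁻¹ / P.Y := by
    rw [← syp_h_inv]; unfold syp_D.lam; field_simp; ring
  rw [e1, e2]
  field_simp

end

theorem sys_pos_pr (b c : ℤ) (hD : 0 < dsc b c) (hs : ¬ IsSquare (dsc b c)) :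
    Nonempty (Sys b c) := by
  obtain ⟨X0, Y0, hXY, hY0⟩ := Pell.exists_of_not_isSquare hD hs
  have hDr : (0 : ℝ) < dsc b c := by exact_mod_cast hD
  have hX0 : X0 ≠ 0 := by
    rintro rfl
    have : 0 ≤ dsc b c * Y0 ^ 2 := by positivity
    linarith
  let P : syp_D b c :=
    { s := Real.sqrt (dsc b c)
      X := |X0|
      Y := |Y0|
      s_pos := Real.sqrt_pos.2 hDr
      s_sq := by rw [Real.sq_sqrt hDr.le]; unfold dsc; push_cast; ring
      X_pos := Int.one_le_abs hX0
      Y_pos := Int.one_le_abs hY0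
      pell := by rw [sq_abs, sq_abs]; unfold dsc at hXY; exact hXY }
  have hPs := P.s_pos
  have hh := syp_h_gt P
  have h0 : 0 < P.h := by linarith
  have hL := syp_logE P
  have hY := syp_Yr P
  -- the chain
  have hge : Int.gcd P.eta.1 P.eta.2 = 1 := by
    have h1 := syp_nm_eta P
    have h2 : ((Int.gcd P.eta.1 P.eta.2 : ℕ) : ℤ) ∣ 1 := by
      rw [← h1]
      unfold nm
      have d1 : ((Int.gcd P.eta.1 P.eta.2 : ℕ) : ℤ) ∣ P.eta.1 := Int.gcd_dvd_left ..
      have d2 : ((Int.gcd P.eta.1 P.eta.2 : ℕ) : ℤ) ∣ P.eta.2 := Int.gcd_dvd_right ..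
      refine dvd_add (dvd_add (Dvd.dvd.pow d1 two_ne_zero) (Dvd.dvd.mul_left d2 _))
        (Dvd.dvd.mul_left (Dvd.dvd.pow d2 two_ne_zero) _)
    have := Int.natCast_dvd_natCast.1
      (by exact_mod_cast h2 : ((Int.gcd P.eta.1 P.eta.2 : ℕ) : ℤ) ∣ ((1 : ℕ) : ℤ))
    exact Nat.dvd_one.1 this
  have he2 : 0 < P.eta.2 := by
    have := P.Y_pos
    unfold syp_D.eta
    simp only
    linarith
  obtain ⟨r, e, hr, e0, er, ed, ew⟩ := syp_chain P.eta.2.toNat P.eta
    (Int.toNat_of_nonneg he2.le).symm (by omega) hge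
  have ew' : ∀ v : El, P.W v ↔ ∃ i s t : ℕ, i < r ∧ 1 ≤ s ∧ v = cn e i s t := by
    intro v; rw [syp_W_iff]; exact ew v
  -- the elements of the chain
  have ei : ∀ i, i < r → P.W (e i) := by
    intro i hi
    rw [ew']
    refine ⟨i, 1, 0, hi, le_refl _, ?_⟩
    unfold cn; simp
  have ei' : ∀ i, i ≤ r → 0 < P.a' (e i) ∧ P.a' (e i) ≤ P.a (e i) ∧
      P.a (e i) ≤ P.h ^ 2 * P.a' (e i) := by
    intro i hi
    rcases hi.lt_or_eq with h | h
    · obtain ⟨h1, h2, h3⟩ := ei i h
      exact ⟨h1, h2, h3.le⟩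
    · subst h
      rw [er, syp_a_eta, syp_a'_eta]
      refine ⟨inv_pos.2 h0, ?_, ?_⟩
      · rw [inv_le_iff_one_le_mul₀ h0]; nlinarith
      · apply le_of_eq; field_simp
  -- elements of closed cones
  have ec : ∀ i s t : ℕ, i < r → 1 ≤ s + t → 0 < P.a' (cn e i s t) ∧
      P.a' (cn e i s t) ≤ P.a (cn e i s t) ∧
      P.a (cn e i s t) ≤ P.h ^ 2 * P.a' (cn e i s t) := by
    intro i s t hi hst
    obtain ⟨a1, a2, a3⟩ := ei' i hi.le
    obtain ⟨b1, b2, b3⟩ := ei' (i + 1) hi
    rw [syp_cn, syp_cn']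
    have hs0 : (0 : ℝ) ≤ s := by positivity
    have ht0 : (0 : ℝ) ≤ t := by positivity
    refine ⟨?_, ?_, ?_⟩
    · rcases Nat.eq_zero_or_pos s with h | h
      · have h2 : (0 : ℝ) < t := by exact_mod_cast (by omega : 0 < t)
        have := mul_pos h2 b1
        have := mul_nonneg hs0 a1.le
        linarith
      · have h2 : (0 : ℝ) < s := by exact_mod_cast h
        have := mul_pos h2 a1
        have := mul_nonneg ht0 b1.le
        linarith
    · exact add_le_add (mul_le_mul_of_nonneg_left a2 hs0) (mul_le_mul_of_nonneg_left b2 ht0)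
    · calc _ ≤ (s : ℝ) * (P.h ^ 2 * P.a' (e i)) + t * (P.h ^ 2 * P.a' (e (i + 1))) :=
            add_le_add (mul_le_mul_of_nonneg_left a3 hs0) (mul_le_mul_of_nonneg_left b3 ht0)
        _ = _ := by ring
  have nmpos : ∀ v : El, 0 < P.a' v → P.a' v ≤ P.a v → 0 < nm b c v := by
    intro v h1 h2
    have h3 : (0 : ℝ) < nm b c v := by
      rw [syp_nm P]
      have : 0 < P.a v := by linarith
      positivity
    exact_mod_cast h3
  refine ⟨{ lam := P.lam, κ := P.s / Real.log (P.h ^ 2), ur := P.ur, rp := P.rp, r := r, e := e,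
            c₁ := 2 * P.s / (P.h + 1) / Real.log (P.h ^ 2), c₂ := P.s / Real.log (P.h ^ 2),
            κ_pos := by positivity, c₁_pos := by positivity, c₂_pos := by positivity,
            pos := ?_, der := ?_, top := syp_top P, botN := ?_, botP := ?_, rp_wd := ?_,
            rp_self := ?_, rp_unit := ?_, r_pos := hr, e_zero := e0, e_last := ?_, e_det := ed,
            e_nm := ?_, e_ac := ?_, e_wd := ?_, u_hom := ?_, u_det := ?_ }⟩
  · intro t ht
    have ht' : P.lam ≤ t := by
      rcases ht with h | h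
      · omega
      · exact h
    have h1 := syp_lam P t ht'
    have h4 : (t ^ 2 + b * t + c) = (2 * t + b + P.s) * (2 * t + b - P.s) / 4 := by
      linear_combination P.s_sq / 4
    rw [h4]
    have h2 : 0 < 2 * t + b - P.s := by linarith
    have h3 : 0 < 2 * t + b + P.s := by linarith
    positivity
  · intro t ht
    have ht' : P.lam ≤ t := by
      rcases ht with h | h
      · omega
      · exact h.le
    exact syp_der P t ht'
  · intro h; omega
  · intro _
    exact ⟨(syp_der P P.lam le_rfl).continuousAt.continuousWithinAt, syp_ur_lam P⟩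
  · intro v hv
    rw [syp_wdw P hD]
    exact (syp_rp P hv).1
  · intro v hv
    rw [syp_wdw P hD] at hv
    apply syp_rp_eq P (o := (1, 0)) (syp_W_nm P hv) _ hv
    · rw [ml_comm, ml_one]
    · refine ⟨by unfold nm; simp, 0, Or.inl ?_⟩
      rw [zpow_zero]; exact syp_a_one b P.s
  · intro v hv
    obtain ⟨h1, o, h2, h3⟩ := syp_rp P hv
    refine ⟨o, h2.1, ?_, h3⟩
    intro z hz
    have hz' : 0 < nm b c (ml b c o z) := by rw [syp_G_nm P h2]; exact hz
    obtain ⟨k1, o', k2, k3⟩ := syp_rp P hz'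
    symm
    apply syp_rp_eq P hz (syp_G_ml P k2 h2) k1
    rw [k3, ml_assoc]
  · refine ⟨by rw [er, syp_nm_eta], ?_⟩
    rw [er]
    have h1 := ei' r le_rfl
    rw [er] at h1
    rw [syp_uu P _ h1.1 h1.2.1]
    unfold syp_D.U
    rw [syp_a_eta, syp_a'_eta, div_inv_eq_mul, ← sq, div_self hL.ne']
  · intro i hi
    obtain ⟨h1, h2, _⟩ := ei' i hi
    exact nmpos _ h1 h2
  · intro i hi
    obtain ⟨a1, a2, a3⟩ := ei' i hi.le
    obtain ⟨b1, b2, b3⟩ := ei' (i + 1) hi
    have h1 : ((nm b c (cn e i 1 1) - nm b c (e i) - nm b c (e (i + 1)) : ℤ) : ℝ) =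
        P.a (e i) * P.a' (e (i + 1)) + P.a' (e i) * P.a (e (i + 1)) := by
      push_cast
      rw [syp_nm P, syp_nm P, syp_nm P, syp_cn, syp_cn']
      push_cast
      ring
    have h2 : (0 : ℝ) < ((nm b c (cn e i 1 1) - nm b c (e i) - nm b c (e (i + 1)) : ℤ) : ℝ) := by
      rw [h1]
      have a4 : 0 < P.a (e i) := by linarith
      have b4 : 0 < P.a (e (i + 1)) := by linarith
      positivity
    exact_mod_cast h2
  · intro v
    rw [syp_wdw P hD]
    exact ew' v
  · intro v w hv hw
    rw [syp_wdw P hD] at hv hw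
    have hvw : 0 < nm b c (ml b c v w) := by
      rw [nm_ml]; exact mul_pos (syp_W_nm P hv) (syp_W_nm P hw)
    obtain ⟨h1, o, ⟨g1, k, g2⟩, h3⟩ := syp_rp P hvw
    obtain ⟨v1, v2, v3⟩ := hv
    obtain ⟨w1, w2, w3⟩ := hw
    have v4 : 0 < P.a v := by linarith
    have w4 : 0 < P.a w := by linarith
    refine ⟨k, ?_⟩
    rw [syp_uu P _ h1.1 h1.2.1, syp_uu P _ v1 v2, syp_uu P _ w1 w2, h3]
    have hk : 0 < P.h ^ k := zpow_pos h0 k
    have hoo : P.a o * P.a' o = 1 := by rw [← syp_nm, g1]; simp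
    have e1 : P.a o / P.a' o = (P.h ^ 2) ^ k := by
      have h5 : P.a' o = (P.a o)⁻¹ := eq_inv_of_mul_eq_one_right hoo
      rw [h5, div_inv_eq_mul, sq, mul_zpow]
      rcases g2 with g2 | g2 <;> rw [g2]
      ring
    have e2 : P.a (ml b c o (ml b c v w)) / P.a' (ml b c o (ml b c v w)) =
        (P.h ^ 2) ^ k * (P.a v / P.a' v) * (P.a w / P.a' w) := by
      rw [syp_ml, syp_ml, syp_ml', syp_ml', ← e1]
      have : P.a' o ≠ 0 := fun h => by rw [h, mul_zero] at hoo; exact zero_ne_one hoo
      field_simp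
    unfold syp_D.U
    rw [e2, Real.log_mul (by positivity) (by positivity),
      Real.log_mul (by positivity) (by positivity), Real.log_zpow]
    field_simp
    ring
  · intro i s t s' t' hi hd
    have hst : 1 ≤ s + t := by
      by_contra hc
      have h1 : s = 0 := by omega
      have h2 : t = 0 := by omega
      subst h1; subst h2
      rw [dt_cn] at hd
      simp at hd
    have hst' : 1 ≤ s' + t' := by
      by_contra hc
      have h1 : s' = 0 := by omega
      have h2 : t' = 0 := by omega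
      subst h1; subst h2
      rw [dt_cn] at hd
      simp at hd
    obtain ⟨a1, a2, a3⟩ := ec i s t hi hst
    obtain ⟨b1, b2, b3⟩ := ec i s' t' hi hst'
    rw [syp_uu P _ a1 a2, syp_uu P _ b1 b2]
    exact syp_U_diff P a1 a2 a3 b1 b2 b3 hd

end Pool.Agent.MQ

namespace Pool.Agent.MQ

theorem sys_pos : type_of% @sys_pos_pr := @sys_pos_pr

end Pool.Agent.MQ
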