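import Pool.Agent.Lib_helper39.MQ.Defs
import Pool.Agent.Lib_helper39.MQX.ALG
import Pool.Agent.Lib_helper39.MQX.EDG
import Pool.Agent.Lib_helper39.MQX.MOA
import Pool.Agent.Lib_helper39.MQX.SBB
import Pool.Agent.Lib_helper39.MQX.SYN
import Pool.Agent.Lib_helper39.MQX.SYP

/-! MQ, block PLU. -/

namespace Pool.Agent.MQ

open Filter Topology MeasureTheory

/-! ### coprime pairs -/

theorem plu_sum_sq (R : ℕ) : ∑ d ∈ Finset.Icc 2 R, (1 : ℝ) / (d : ℝ) ^ 2 ≤ 3 / 4 := by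
  have key : ∀ n : ℕ, 2 ≤ n → ∑ d ∈ Finset.Icc 2 n, (1 : ℝ) / (d : ℝ) ^ 2 ≤ 3 / 4 - 1 / n := by
    intro n hn
    induction n, hn using Nat.le_induction with
    | base => simp; norm_num
    | succ n hn ih =>
      rw [Finset.sum_Icc_succ_top (by omega)]
      have hn0 : (0 : ℝ) < n := by positivity
      have h1 : (1 : ℝ) / ((n + 1 : ℕ) : ℝ) ^ 2 ≤ 1 / n - 1 / ((n + 1 : ℕ) : ℝ) := by
        push_cast
        rw [div_sub_div _ _ hn0.ne' (by positivity), div_le_div_iff₀ (by positivity) (by positivity)]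
        nlinarith
      linarith
  rcases le_or_gt 2 R with h | h
  · have := key R h
    have h2 : (0 : ℝ) ≤ 1 / R := by positivity
    linarith
  · rw [Finset.Icc_eq_empty (by omega)]
    norm_num

theorem plu_div_card (R d : ℕ) (hd : 1 ≤ d) :
    ((((Finset.Icc 1 R) ×ˢ (Finset.Icc 1 R)).filter
      (fun q : ℕ × ℕ => d ∣ q.1 ∧ d ∣ q.2)).card : ℝ) ≤ (R : ℝ) ^ 2 * (1 / (d : ℝ) ^ 2) := by
  have hd0 : (0 : ℝ) < d := by exact_mod_cast hd
  have h1 : (((Finset.Icc 1 R) ×ˢ (Finset.Icc 1 R)).filter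
      (fun q : ℕ × ℕ => d ∣ q.1 ∧ d ∣ q.2)).card ≤
      ((Finset.Icc 1 (R / d)) ×ˢ (Finset.Icc 1 (R / d))).card := by
    apply Finset.card_le_card_of_injOn (fun q : ℕ × ℕ => (q.1 / d, q.2 / d))
    · intro q hq
      simp only [Finset.coe_filter, Finset.mem_product, Finset.mem_Icc, Set.mem_ofPred_eq] at hq
      simp only [Finset.coe_product, Finset.coe_Icc, Set.mem_prod, Set.mem_Icc]
      obtain ⟨⟨⟨a1, a2⟩, a3, a4⟩, a5, a6⟩ := hq
      exact ⟨⟨Nat.div_pos (Nat.le_of_dvd (by omega) a5) (by omega), Nat.div_le_div_right a2⟩,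
        Nat.div_pos (Nat.le_of_dvd (by omega) a6) (by omega), Nat.div_le_div_right a4⟩
    · intro q hq q' hq' h
      simp only [Finset.coe_filter, Finset.mem_product, Finset.mem_Icc, Set.mem_ofPred_eq] at hq hq'
      simp only [Prod.mk.injEq] at h
      ext
      · rw [← Nat.div_mul_cancel hq.2.1, ← Nat.div_mul_cancel hq'.2.1, h.1]
      · rw [← Nat.div_mul_cancel hq.2.2, ← Nat.div_mul_cancel hq'.2.2, h.2]
  rw [Finset.card_product, Nat.card_Icc] at h1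
  simp only [Nat.add_sub_cancel] at h1
  have h2 : ((R / d : ℕ) : ℝ) ≤ R / d := Nat.cast_div_le
  calc ((((Finset.Icc 1 R) ×ˢ (Finset.Icc 1 R)).filter
      (fun q : ℕ × ℕ => d ∣ q.1 ∧ d ∣ q.2)).card : ℝ) ≤ ((R / d : ℕ) : ℝ) * ((R / d : ℕ) : ℝ) := by
        exact_mod_cast h1
    _ ≤ (R / d : ℝ) * (R / d : ℝ) := mul_le_mul h2 h2 (by positivity) (by positivity)
    _ = (R : ℝ) ^ 2 * (1 / (d : ℝ) ^ 2) := by field_simp

theorem plu_cop (R : ℕ) : (R : ℝ) ^ 2 / 4 ≤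
    ((((Finset.Icc 1 R) ×ˢ (Finset.Icc 1 R)).filter
      (fun q : ℕ × ℕ => Nat.Coprime q.1 q.2)).card : ℝ) := by
  classical
  have h1 := Finset.card_filter_add_card_filter_not (s := (Finset.Icc 1 R) ×ˢ (Finset.Icc 1 R))
    (fun q : ℕ × ℕ => Nat.Coprime q.1 q.2)
  rw [Finset.card_product, Nat.card_Icc] at h1
  simp only [Nat.add_sub_cancel] at h1
  have hsub : ((Finset.Icc 1 R) ×ˢ (Finset.Icc 1 R)).filter
      (fun q : ℕ × ℕ => ¬ Nat.Coprime q.1 q.2) ⊆ (Finset.Icc 2 R).biUnion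
        (fun d => ((Finset.Icc 1 R) ×ˢ (Finset.Icc 1 R)).filter
          (fun q : ℕ × ℕ => d ∣ q.1 ∧ d ∣ q.2)) := by
    intro q hq
    rw [Finset.mem_filter] at hq
    obtain ⟨hq1, hq2⟩ := hq
    rw [Finset.mem_biUnion]
    have hq1' := hq1
    rw [Finset.mem_product, Finset.mem_Icc, Finset.mem_Icc] at hq1
    have hg : 0 < Nat.gcd q.1 q.2 := Nat.gcd_pos_of_pos_left _ (by omega)
    have hg2 : Nat.gcd q.1 q.2 ≠ 1 := hq2
    refine ⟨Nat.gcd q.1 q.2, ?_, ?_⟩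
    · rw [Finset.mem_Icc]
      refine ⟨by omega, ?_⟩
      exact (Nat.gcd_le_left _ (by omega)).trans hq1.1.2
    · rw [Finset.mem_filter]
      exact ⟨hq1', Nat.gcd_dvd_left _ _, Nat.gcd_dvd_right _ _⟩
  have h2 : ((((Finset.Icc 1 R) ×ˢ (Finset.Icc 1 R)).filter
      (fun q : ℕ × ℕ => ¬ Nat.Coprime q.1 q.2)).card : ℝ) ≤ (R : ℝ) ^ 2 * (3 / 4) := by
    have h3 := (Finset.card_le_card hsub).trans Finset.card_biUnion_le
    calc ((((Finset.Icc 1 R) ×ˢ (Finset.Icc 1 R)).filter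
      (fun q : ℕ × ℕ => ¬ Nat.Coprime q.1 q.2)).card : ℝ)
        ≤ ∑ d ∈ Finset.Icc 2 R, ((((Finset.Icc 1 R) ×ˢ (Finset.Icc 1 R)).filter
          (fun q : ℕ × ℕ => d ∣ q.1 ∧ d ∣ q.2)).card : ℝ) := by exact_mod_cast h3
      _ ≤ ∑ d ∈ Finset.Icc 2 R, (R : ℝ) ^ 2 * (1 / (d : ℝ) ^ 2) := by
          apply Finset.sum_le_sum
          intro d hd
          rw [Finset.mem_Icc] at hd
          exact plu_div_card R d (by omega)
      _ = (R : ℝ) ^ 2 * ∑ d ∈ Finset.Icc 2 R, (1 : ℝ) / (d : ℝ) ^ 2 := by rw [Finset.mul_sum]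
      _ ≤ (R : ℝ) ^ 2 * (3 / 4) := mul_le_mul_of_nonneg_left (plu_sum_sq R) (by positivity)
  have h4 : ((((Finset.Icc 1 R) ×ˢ (Finset.Icc 1 R)).filter
      (fun q : ℕ × ℕ => Nat.Coprime q.1 q.2)).card : ℝ) +
      ((((Finset.Icc 1 R) ×ˢ (Finset.Icc 1 R)).filter
      (fun q : ℕ × ℕ => ¬ Nat.Coprime q.1 q.2)).card : ℝ) = R * R := by exact_mod_cast h1
  nlinarith

/-- the parents of a coprime pair -/
theorem plu_parents {s t : ℕ} (hs : 1 ≤ s) (ht : 1 ≤ t) (h : Nat.Coprime s t) :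
    ∃ p q p' q' : ℕ, (p : ℤ) * q' - q * p' = 1 ∧ p + p' = s ∧ q + q' = t := by
  -- q' in [1, t] with s q' = 1 mod t
  have hco : IsCoprime (s : ℤ) (t : ℤ) := Nat.isCoprime_iff_coprime.mpr h
  obtain ⟨x, y, hxy⟩ := hco
  -- x s + y t = 1
  have ht' : (0 : ℤ) < t := by exact_mod_cast ht
  have hs' : (0 : ℤ) < s := by exact_mod_cast hs
  -- q' = ((x - 1) mod t) + 1
  set r := (x - 1) % (t : ℤ) with hr
  have hr0 : 0 ≤ r := Int.emod_nonneg _ ht'.ne'
  have hr1 : r < t := Int.emod_lt_of_pos _ ht'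
  have hdiv : x - 1 = t * ((x - 1) / t) + r := by
    rw [hr]; have := Int.emod_add_mul_ediv (x - 1) t; linarith
  set k := (x - 1) / (t : ℤ) with hk
  -- q' = r + 1 = x - t k ; p' = -(y + s k)
  have e1 : (s : ℤ) * (r + 1) - t * (-(y + s * k)) = 1 := by
    have : r + 1 = x - t * k := by linarith
    rw [this]
    linarith
  set p' := -(y + s * k) with hp'
  have hp'0 : 0 ≤ p' := by
    by_contra hneg
    push Not at hneg
    have h1 : (t : ℤ) * p' ≤ - t := by nlinarith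
    have h2 : (s : ℤ) * (r + 1) ≥ s := by nlinarith
    nlinarith
  have hp'1 : p' ≤ s - 1 := by
    by_contra hneg
    push Not at hneg
    have h1 : (t : ℤ) * p' ≥ t * s := by nlinarith
    have h2 : (s : ℤ) * (r + 1) ≤ s * t := by nlinarith
    nlinarith
  refine ⟨(s - p').toNat, (t - (r + 1)).toNat, p'.toNat, (r + 1).toNat, ?_, ?_, ?_⟩
  · rw [Int.toNat_of_nonneg (by linarith), Int.toNat_of_nonneg (by linarith),
      Int.toNat_of_nonneg hp'0, Int.toNat_of_nonneg (by linarith)]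
    linarith [e1]
  · omega
  · omega

/-- the pairs of neighbours -/
noncomputable def plu_set (R N : ℕ) : Finset ((ℕ × ℕ) × (ℕ × ℕ)) :=
  ((Finset.range (R + 1) ×ˢ Finset.range (R + 1)) ×ˢ
    (Finset.range (R + 1) ×ˢ Finset.range (R + 1))).filter
    (fun q => (q.1.1 : ℤ) * q.2.2 - q.1.2 * q.2.1 = 1 ∧ q.1.1 + q.2.1 ≤ R ∧ q.1.2 + q.2.2 ≤ R ∧
      N ≤ (q.1.1 + q.2.1) + (q.1.2 + q.2.2))

theorem plu_set_card (R N : ℕ) : (R : ℝ) ^ 2 / 4 - (N : ℝ) ^ 2 ≤ ((plu_set R N).card : ℝ) := by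
  classical
  have h1 := plu_cop R
  set A := ((Finset.Icc 1 R) ×ˢ (Finset.Icc 1 R)).filter
      (fun q : ℕ × ℕ => Nat.Coprime q.1 q.2) with hA
  have h2 : A.card ≤ (A.filter (fun q => N ≤ q.1 + q.2)).card + N * N := by
    have h3 := Finset.card_filter_add_card_filter_not (s := A) (fun q : ℕ × ℕ => N ≤ q.1 + q.2)
    have h4 : (A.filter (fun q => ¬ N ≤ q.1 + q.2)).card ≤ N * N := by
      have : A.filter (fun q => ¬ N ≤ q.1 + q.2) ⊆ Finset.range N ×ˢ Finset.range N := by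
        intro q hq
        rw [Finset.mem_filter] at hq
        rw [Finset.mem_product, Finset.mem_range, Finset.mem_range]
        omega
      have := Finset.card_le_card this
      simpa [Finset.card_product] using this
    omega
  have h5 : (A.filter (fun q => N ≤ q.1 + q.2)).card ≤ (plu_set R N).card := by
    apply Finset.card_le_card_of_surjOn
      (fun q : (ℕ × ℕ) × (ℕ × ℕ) => (q.1.1 + q.2.1, q.1.2 + q.2.2))
    intro q hq
    simp only [Finset.coe_filter, Set.mem_ofPred_eq, hA, Finset.mem_filter, Finset.mem_product,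
      Finset.mem_Icc] at hq
    obtain ⟨⟨⟨⟨a1, a2⟩, a3, a4⟩, a5⟩, a6⟩ := hq
    obtain ⟨p, r, p', r', e1, e2, e3⟩ := plu_parents a1 a3 a5
    refine ⟨((p, r), (p', r')), ?_, ?_⟩
    · simp only [plu_set, Finset.coe_filter, Set.mem_ofPred_eq, Finset.mem_product,
        Finset.mem_range]
      refine ⟨⟨⟨by omega, by omega⟩, by omega, by omega⟩, e1, by omega, by omega, by omega⟩
    · simp only [e2, e3]
  have h6 : (A.card : ℝ) ≤ ((plu_set R N).card : ℝ) + (N : ℝ) ^ 2 := by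
    have : A.card ≤ (plu_set R N).card + N * N := by omega
    have h7 : (A.card : ℝ) ≤ ((plu_set R N).card : ℝ) + (N : ℝ) * N := by exact_mod_cast this
    linarith [sq (N : ℝ)]
  linarith

section
variable {b c : ℤ} (S : Sys b c)

/-- the label of a pair -/
def plu_lab (q : (ℕ × ℕ) × (ℕ × ℕ)) : ℤ := bl b c (cn S.e 0 q.1.1 q.1.2) (cn S.e 0 q.2.1 q.2.2)

theorem plu_cn_inj {s t s' t' : ℕ} (h : cn S.e 0 s t = cn S.e 0 s' t') : s = s' ∧ t = t' := by
  have hd := S.e_det 0 S.r_pos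
  have h0 := S.e_zero
  have h1 : (S.e (0 + 1)).2 = 1 := by
    unfold dt at hd; rw [h0] at hd; simpa using hd
  unfold cn at h
  rw [Prod.mk.injEq] at h
  rw [h0, h1] at h
  obtain ⟨a1, a2⟩ := h
  simp only [mul_zero, zero_add, mul_one] at a1 a2
  have a3 : t = t' := by exact_mod_cast a2
  subst a3
  have a4 : (s : ℤ) = s' := by linarith
  exact ⟨by exact_mod_cast a4, rfl⟩

theorem plu_edge {q : (ℕ × ℕ) × (ℕ × ℕ)} (h : (q.1.1 : ℤ) * q.2.2 - q.1.2 * q.2.1 = 1) :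
    S.Edge (cn S.e 0 q.1.1 q.1.2) (cn S.e 0 q.2.1 q.2.2) :=
  ⟨0, q.1.1, q.1.2, q.2.1, q.2.2, S.r_pos, h, rfl, rfl⟩

/-- the number of pairs with good labels -/
theorem plu_card (hs : ¬ IsSquare (dsc b c)) : ∃ C : ℝ, 1 ≤ C ∧ ∀ (h : ℕ → ℤ) (x : ℝ)
    (W : Finset ((ℕ × ℕ) × (ℕ × ℕ))), (∀ q ∈ W, (q.1.1 : ℤ) * q.2.2 - q.1.2 * q.2.1 = 1 ∧
      1 ≤ plu_lab S q ∧ ((plu_lab S q : ℤ) : ℝ) ≤ x ∧ h (fv b c (plu_lab S q)).natAbs = 1) →
    (W.card : ℝ) ≤ ∑ n ∈ (Finset.Icc 1 ⌊x⌋₊).filter (fun n : ℕ => h (fv b c n).natAbs = 1),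
      C * tau (fv b c n).natAbs ^ 3 := by
  classical
  obtain ⟨C, hC, hcard⟩ := edge_card S hs
  refine ⟨C, hC, ?_⟩
  intro h x W hW
  have hmap : ∀ q ∈ W, (plu_lab S q).toNat ∈
      (Finset.Icc 1 ⌊x⌋₊).filter (fun n : ℕ => h (fv b c n).natAbs = 1) := by
    intro q hq
    obtain ⟨h1, h2, h3, h4⟩ := hW q hq
    have h5 : ((plu_lab S q).toNat : ℤ) = plu_lab S q := Int.toNat_of_nonneg (by omega)
    rw [Finset.mem_filter, Finset.mem_Icc, h5]
    refine ⟨⟨by omega, ?_⟩, h4⟩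
    apply Nat.le_floor
    have : (((plu_lab S q).toNat : ℕ) : ℝ) = ((plu_lab S q : ℤ) : ℝ) := by exact_mod_cast h5
    rw [this]; exact h3
  rw [Finset.card_eq_sum_card_fiberwise hmap]
  push_cast
  apply Finset.sum_le_sum
  intro n hn
  have hinj : Function.Injective (fun q : (ℕ × ℕ) × (ℕ × ℕ) =>
      (cn S.e 0 q.1.1 q.1.2, cn S.e 0 q.2.1 q.2.2)) := by
    intro q q' hqq
    simp only [Prod.mk.injEq] at hqq
    obtain ⟨a1, a2⟩ := plu_cn_inj S hqq.1
    obtain ⟨a3, a4⟩ := plu_cn_inj S hqq.2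
    ext
    · exact a1
    · exact a2
    · exact a3
    · exact a4
  have h6 := hcard (n : ℤ) ((W.filter (fun q => (plu_lab S q).toNat = n)).image
    (fun q : (ℕ × ℕ) × (ℕ × ℕ) => (cn S.e 0 q.1.1 q.1.2, cn S.e 0 q.2.1 q.2.2))) (by
      intro e he
      rw [Finset.mem_image] at he
      obtain ⟨q, hq, rfl⟩ := he
      rw [Finset.mem_filter] at hq
      obtain ⟨h1, h2, h3, h4⟩ := hW q hq.1
      refine ⟨plu_edge S h1, ?_⟩
      have h5 : ((plu_lab S q).toNat : ℤ) = plu_lab S q := Int.toNat_of_nonneg (by omega)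
      rw [hq.2] at h5
      exact h5.symm)
  rw [Finset.card_image_of_injective _ hinj] at h6
  exact h6

/-- labels are positive and not too large -/
theorem plu_lab_bd : ∃ C : ℝ, 1 ≤ C ∧ ∀ q : (ℕ × ℕ) × (ℕ × ℕ),
    (q.1.1 : ℤ) * q.2.2 - q.1.2 * q.2.1 = 1 →
    ((C ^ 2 + 1 ≤ ((q.1.1 + q.1.2 : ℕ) : ℝ) + ((q.2.1 + q.2.2 : ℕ) : ℝ) - 1) →
      1 ≤ plu_lab S q) ∧
    ∀ H : ℝ, ((q.1.1 + q.1.2 : ℕ) : ℝ) ≤ H → ((q.2.1 + q.2.2 : ℕ) : ℝ) ≤ H →
      ((plu_lab S q : ℤ) : ℝ) ≤ C * H ^ 2 := by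
  obtain ⟨C, hC, hbl⟩ := cone_bl S
  refine ⟨C, hC, ?_⟩
  intro q hq
  obtain ⟨h1, h2⟩ := hbl 0 q.1.1 q.1.2 q.2.1 q.2.2 S.r_pos hq
  have hp1 : 1 ≤ q.1.1 := by
    rcases Nat.eq_zero_or_pos q.1.1 with h | h
    · rw [h] at hq
      have : (0 : ℤ) ≤ q.1.2 * q.2.1 := by positivity
      push_cast at hq
      linarith
    · exact h
  have hp2 : 1 ≤ q.2.2 := by
    rcases Nat.eq_zero_or_pos q.2.2 with h | h
    · rw [h] at hq
      have : (0 : ℤ) ≤ q.1.2 * q.2.1 := by positivity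
      push_cast at hq
      linarith
    · exact h
  have e1 : (1 : ℝ) ≤ ((q.1.1 + q.1.2 : ℕ) : ℝ) := by
    have : 1 ≤ q.1.1 + q.1.2 := by omega
    exact_mod_cast this
  have e2 : (1 : ℝ) ≤ ((q.2.1 + q.2.2 : ℕ) : ℝ) := by
    have : 1 ≤ q.2.1 + q.2.2 := by omega
    exact_mod_cast this
  set u := ((q.1.1 + q.1.2 : ℕ) : ℝ) with hu
  set w := ((q.2.1 + q.2.2 : ℕ) : ℝ) with hw
  constructor
  · intro h3
    have h4 : C ^ 2 + 1 ≤ u * w := by nlinarith
    have h5 : 0 < u * w / C - C := by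
      rw [sub_pos, lt_div_iff₀ (by linarith)]
      nlinarith
    have h6 : (0 : ℝ) < ((plu_lab S q : ℤ) : ℝ) := lt_of_lt_of_le h5 h1
    have h7 : 0 < plu_lab S q := by exact_mod_cast h6
    omega
  · intro H hH1 hH2
    refine h2.trans ?_
    have : u * w ≤ H * H := mul_le_mul hH1 hH2 (by linarith) (by linarith)
    calc C * u * w = C * (u * w) := by ring
      _ ≤ C * (H * H) := mul_le_mul_of_nonneg_left this (by linarith)
      _ = C * H ^ 2 := by ring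

/-- the second edge of the triangle -/
def plu_b (q : (ℕ × ℕ) × (ℕ × ℕ)) : (ℕ × ℕ) × (ℕ × ℕ) := (q.1, (q.1.1 + q.2.1, q.1.2 + q.2.2))

/-- the third edge of the triangle -/
def plu_c (q : (ℕ × ℕ) × (ℕ × ℕ)) : (ℕ × ℕ) × (ℕ × ℕ) := ((q.1.1 + q.2.1, q.1.2 + q.2.2), q.2)

theorem plu_b_inj : Function.Injective plu_b := by
  intro q q' h
  unfold plu_b at h
  simp only [Prod.mk.injEq] at h
  obtain ⟨h1, h2, h3⟩ := h
  have h4 : q.1.1 = q'.1.1 := by rw [h1]
  have h5 : q.1.2 = q'.1.2 := by rw [h1]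
  ext
  · exact h4
  · exact h5
  · omega
  · omega

theorem plu_c_inj : Function.Injective plu_c := by
  intro q q' h
  unfold plu_c at h
  simp only [Prod.mk.injEq] at h
  obtain ⟨⟨h2, h3⟩, h1⟩ := h
  have h4 : q.2.1 = q'.2.1 := by rw [h1]
  have h5 : q.2.2 = q'.2.2 := by rw [h1]
  ext
  · omega
  · omega
  · exact h4
  · exact h5

/-- one of the three labels is good -/
theorem plu_tri {h : ℕ → ℤ} (hh : Sgn h) {q : (ℕ × ℕ) × (ℕ × ℕ)}
    (hq : (q.1.1 : ℤ) * q.2.2 - q.1.2 * q.2.1 = 1) :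
    h (fv b c (plu_lab S q)).natAbs = 1 ∨ h (fv b c (plu_lab S (plu_b q))).natAbs = 1 ∨
      h (fv b c (plu_lab S (plu_c q))).natAbs = 1 := by
  obtain ⟨C, hC, hcn⟩ := cone_nm S
  have hnm : ∀ s t : ℕ, 1 ≤ s + t → nm b c (cn S.e 0 s t) ≠ 0 := by
    intro s t hst h0
    have h1 := (hcn 0 s t S.r_pos).1
    rw [h0] at h1
    have h2 : (0 : ℝ) < ((s + t : ℕ) : ℝ) := by exact_mod_cast hst
    have h3 : 0 < ((s + t : ℕ) : ℝ) ^ 2 / C := by positivity
    simp only [Int.cast_zero] at h1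
    linarith
  have hp1 : 1 ≤ q.1.1 := by
    rcases Nat.eq_zero_or_pos q.1.1 with h | h
    · rw [h] at hq
      have : (0 : ℤ) ≤ q.1.2 * q.2.1 := by positivity
      push_cast at hq
      linarith
    · exact h
  have hp2 : 1 ≤ q.2.2 := by
    rcases Nat.eq_zero_or_pos q.2.2 with h | h
    · rw [h] at hq
      have : (0 : ℤ) ≤ q.1.2 * q.2.1 := by positivity
      push_cast at hq
      linarith
    · exact h
  have g1 := gg_pm hh (hnm q.1.1 q.1.2 (by omega))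
  have g2 := gg_pm hh (hnm q.2.1 q.2.2 (by omega))
  have g3 := gg_pm hh (hnm (q.1.1 + q.2.1) (q.1.2 + q.2.2) (by omega))
  have eb : ((plu_b q).1.1 : ℤ) * (plu_b q).2.2 - (plu_b q).1.2 * (plu_b q).2.1 = 1 := by
    unfold plu_b; push_cast; linarith
  have ec : ((plu_c q).1.1 : ℤ) * (plu_c q).2.2 - (plu_c q).1.2 * (plu_c q).2.1 = 1 := by
    unfold plu_c; push_cast; linarith
  have k1 := edge_gg S hh (plu_edge S hq)
  have k2 := edge_gg S hh (plu_edge S eb)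
  have k3 := edge_gg S hh (plu_edge S ec)
  unfold plu_lab
  rw [← k1, ← k2, ← k3]
  simp only [plu_b, plu_c]
  rcases g1 with g1 | g1 <;> rcases g2 with g2 | g2 <;> rcases g3 with g3 | g3 <;>
    simp [g1, g2, g3]

end

theorem plu_sys (b c : ℤ) (hs : ¬ IsSquare (dsc b c)) : Nonempty (Sys b c) := by
  rcases lt_trichotomy (dsc b c) 0 with h | h | h
  · exact sys_neg b c h
  · exact absurd (by rw [h]; exact ⟨0, by simp⟩) hs
  · exact sys_pos b c h hs

theorem plus_sign_pr : ∃ A : ℝ, 0 < A ∧ ∀ b c : ℤ, ¬ IsSquare (dsc b c) → ∀ h : ℕ → ℤ, Sgn h →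
    ∃ x₀ : ℝ, ∀ x : ℝ, x₀ ≤ x → x / Real.log x ^ A ≤
      (((Finset.Icc 1 ⌊x⌋₊).filter (fun n : ℕ => h (fv b c n).natAbs = 1)).card : ℝ) := by
  classical
  obtain ⟨a, ha⟩ := mom_one 6
  refine ⟨((a + 1 : ℕ) : ℝ), by positivity, ?_⟩
  intro b c hs h hh
  obtain ⟨S⟩ := plu_sys b c hs
  obtain ⟨Cm, hCm, hmom⟩ := ha b c hs
  obtain ⟨Cc, hCc, hcard⟩ := plu_card S hs
  obtain ⟨Cb, hCb, hlab⟩ := plu_lab_bd S
  -- the constants
  set N : ℕ := ⌈Cb ^ 2⌉₊ + 2 with hN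
  have hNb : Cb ^ 2 + 1 ≤ (N : ℝ) - 1 := by
    rw [hN]; push_cast
    have := Nat.le_ceil (Cb ^ 2)
    linarith
  set K : ℝ := (1536 * Cb * Cc) ^ 2 * Cm with hK
  have hKpos : 0 < K := by positivity
  refine ⟨max (Real.exp (K * 2 ^ a + 1)) (max (64 * Cb) (256 * Cb * (N : ℝ) ^ 2)), ?_⟩
  intro x hx
  have hx1 : Real.exp (K * 2 ^ a + 1) ≤ x := (le_max_left _ _).trans hx
  have hx2 : 64 * Cb ≤ x := ((le_max_left _ _).trans (le_max_right _ _)).trans hx
  have hx3 : 256 * Cb * (N : ℝ) ^ 2 ≤ x := ((le_max_right _ _).trans (le_max_right _ _)).trans hx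
  have hx0 : 0 < x := by linarith
  have hxge1 : 1 ≤ x := by linarith
  have hlog : K * 2 ^ a + 1 ≤ Real.log x := by
    rw [Real.le_log_iff_exp_le hx0]; exact hx1
  have hlog1 : 1 ≤ Real.log x := by
    have : 0 ≤ K * 2 ^ a := by positivity
    linarith
  set G := (Finset.Icc 1 ⌊x⌋₊).filter (fun n : ℕ => h (fv b c n).natAbs = 1) with hG
  -- R
  set R : ℕ := ⌊Real.sqrt (x / (4 * Cb))⌋₊ with hR
  have hRle : (R : ℝ) ≤ Real.sqrt (x / (4 * Cb)) := Nat.floor_le (Real.sqrt_nonneg _)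
  have hRge : Real.sqrt (x / (4 * Cb)) < R + 1 := Nat.lt_floor_add_one _
  have hsq2 : Real.sqrt (x / (4 * Cb)) ^ 2 = x / (4 * Cb) := Real.sq_sqrt (by positivity)
  have hsq4 : 4 ≤ Real.sqrt (x / (4 * Cb)) := by
    apply (Real.le_sqrt' (by norm_num)).mpr
    rw [le_div_iff₀ (by positivity)]
    linarith
  have hR3 : 3 / 4 * Real.sqrt (x / (4 * Cb)) ≤ R := by linarith
  have hR2 : x / (8 * Cb) ≤ (R : ℝ) ^ 2 := by
    have h1 : (3 / 4 * Real.sqrt (x / (4 * Cb))) ^ 2 ≤ (R : ℝ) ^ 2 :=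
      pow_le_pow_left₀ (by positivity) hR3 2
    rw [mul_pow, hsq2] at h1
    have h2 : x / (8 * Cb) ≤ (3 / 4) ^ 2 * (x / (4 * Cb)) := by
      rw [← sub_nonneg]
      have : (3 / 4 : ℝ) ^ 2 * (x / (4 * Cb)) - x / (8 * Cb) = x / (64 * Cb) := by
        field_simp; ring
      rw [this]; positivity
    linarith
  have hR2' : (R : ℝ) ^ 2 ≤ x / (4 * Cb) := by
    rw [← hsq2]; exact pow_le_pow_left₀ (by positivity) hRle 2
  -- the number of pairs
  have hP := plu_set_card R N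
  have hP2 : x / (64 * Cb) ≤ ((plu_set R N).card : ℝ) := by
    have h1 : (N : ℝ) ^ 2 ≤ x / (256 * Cb) := by
      rw [le_div_iff₀ (by positivity)]; linarith
    have h2 : x / (8 * Cb) / 4 - x / (256 * Cb) ≥ x / (64 * Cb) := by
      have : x / (8 * Cb) / 4 - x / (256 * Cb) - x / (64 * Cb) = 3 * x / (256 * Cb) := by
        field_simp; ring
      have h3 : 0 ≤ 3 * x / (256 * Cb) := by positivity
      linarith
    linarith
  -- properties of the pairs
  have hmem : ∀ q ∈ plu_set R N, (q.1.1 : ℤ) * q.2.2 - q.1.2 * q.2.1 = 1 ∧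
      ((q.1.1 + q.1.2 : ℕ) : ℝ) + ((q.2.1 + q.2.2 : ℕ) : ℝ) ≤ 2 * R ∧
      (N : ℝ) ≤ ((q.1.1 + q.1.2 : ℕ) : ℝ) + ((q.2.1 + q.2.2 : ℕ) : ℝ) := by
    intro q hq
    unfold plu_set at hq
    rw [Finset.mem_filter] at hq
    obtain ⟨_, h1, h2, h3, h4⟩ := hq
    refine ⟨h1, ?_, ?_⟩
    · have : (q.1.1 + q.1.2) + (q.2.1 + q.2.2) ≤ 2 * R := by omega
      exact_mod_cast this
    · have : N ≤ (q.1.1 + q.1.2) + (q.2.1 + q.2.2) := by omega
      exact_mod_cast this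
  have hx4 : Cb * (2 * (R : ℝ)) ^ 2 ≤ x := by
    have : Cb * (2 * (R : ℝ)) ^ 2 = 4 * Cb * (R : ℝ) ^ 2 := by ring
    rw [this]
    calc 4 * Cb * (R : ℝ) ^ 2 ≤ 4 * Cb * (x / (4 * Cb)) :=
          mul_le_mul_of_nonneg_left hR2' (by positivity)
      _ = x := by field_simp
  -- general bound for one type
  have htype : ∀ φ : (ℕ × ℕ) × (ℕ × ℕ) → (ℕ × ℕ) × (ℕ × ℕ), Function.Injective φ →
      (∀ q ∈ plu_set R N, ((φ q).1.1 : ℤ) * (φ q).2.2 - (φ q).1.2 * (φ q).2.1 = 1 ∧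
        (N : ℝ) ≤ (((φ q).1.1 + (φ q).1.2 : ℕ) : ℝ) + (((φ q).2.1 + (φ q).2.2 : ℕ) : ℝ) ∧
        (((φ q).1.1 + (φ q).1.2 : ℕ) : ℝ) ≤ 2 * R ∧
        (((φ q).2.1 + (φ q).2.2 : ℕ) : ℝ) ≤ 2 * R) →
      (((plu_set R N).filter (fun q => h (fv b c (plu_lab S (φ q))).natAbs = 1)).card : ℝ) ≤
        ∑ n ∈ G, Cc * tau (fv b c n).natAbs ^ 3 := by
    intro φ hφ hq
    have h1 := hcard h x (((plu_set R N).filter
      (fun q => h (fv b c (plu_lab S (φ q))).natAbs = 1)).image φ) (by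
        intro e he
        rw [Finset.mem_image] at he
        obtain ⟨q, hq', rfl⟩ := he
        rw [Finset.mem_filter] at hq'
        obtain ⟨a1, a2, a3, a4⟩ := hq q hq'.1
        obtain ⟨b1, b2⟩ := hlab (φ q) a1
        refine ⟨a1, b1 (by linarith), (b2 (2 * R) a3 a4).trans hx4, hq'.2⟩)
    rw [Finset.card_image_of_injective _ hφ] at h1
    exact h1
  have hnn : ∀ s t : ℕ, (0 : ℝ) ≤ ((s + t : ℕ) : ℝ) := fun s t => by positivity
  have hA0 := htype id Function.injective_id (by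
    intro q hq
    obtain ⟨h1, h2, h3⟩ := hmem q hq
    refine ⟨h1, h3, ?_, ?_⟩
    · have := hnn q.2.1 q.2.2
      simp only [id]
      linarith
    · have := hnn q.1.1 q.1.2
      simp only [id]
      linarith)
  have hA1 := htype plu_b plu_b_inj (by
    intro q hq
    obtain ⟨h1, h2, h3⟩ := hmem q hq
    have n1 := hnn q.1.1 q.1.2
    have n2 := hnn q.2.1 q.2.2
    refine ⟨?_, ?_, ?_, ?_⟩
    · unfold plu_b; push_cast; linarith
    · unfold plu_b; push_cast at h3 n1 ⊢; linarith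
    · unfold plu_b; push_cast at h2 n2 ⊢; linarith
    · unfold plu_b; push_cast at h2 ⊢; linarith)
  have hA2 := htype plu_c plu_c_inj (by
    intro q hq
    obtain ⟨h1, h2, h3⟩ := hmem q hq
    have n1 := hnn q.1.1 q.1.2
    have n2 := hnn q.2.1 q.2.2
    refine ⟨?_, ?_, ?_, ?_⟩
    · unfold plu_c; push_cast; linarith
    · unfold plu_c; push_cast at h3 n2 ⊢; linarith
    · unfold plu_c; push_cast at h2 ⊢; linarith
    · unfold plu_c; push_cast at h2 n1 ⊢; linarith)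
  -- the union
  have hun : (plu_set R N).card ≤
      ((plu_set R N).filter (fun q => h (fv b c (plu_lab S (id q))).natAbs = 1)).card +
      ((plu_set R N).filter (fun q => h (fv b c (plu_lab S (plu_b q))).natAbs = 1)).card +
      ((plu_set R N).filter (fun q => h (fv b c (plu_lab S (plu_c q))).natAbs = 1)).card := by
    have hsub : plu_set R N ⊆
        ((plu_set R N).filter (fun q => h (fv b c (plu_lab S (id q))).natAbs = 1) ∪
        (plu_set R N).filter (fun q => h (fv b c (plu_lab S (plu_b q))).natAbs = 1)) ∪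
        (plu_set R N).filter (fun q => h (fv b c (plu_lab S (plu_c q))).natAbs = 1) := by
      intro q hq
      rw [Finset.mem_union, Finset.mem_union, Finset.mem_filter, Finset.mem_filter,
        Finset.mem_filter]
      rcases plu_tri S hh (hmem q hq).1 with h1 | h1 | h1
      · exact Or.inl (Or.inl ⟨hq, h1⟩)
      · exact Or.inl (Or.inr ⟨hq, h1⟩)
      · exact Or.inr ⟨hq, h1⟩
    refine (Finset.card_le_card hsub).trans ((Finset.card_union_le _ _).trans ?_)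
    exact Nat.add_le_add_right (Finset.card_union_le _ _) _
  have hun' : ((plu_set R N).card : ℝ) ≤ 3 * (Cc * ∑ n ∈ G, tau (fv b c n).natAbs ^ 3) := by
    have h1 : ((plu_set R N).card : ℝ) ≤
      (((plu_set R N).filter (fun q => h (fv b c (plu_lab S (id q))).natAbs = 1)).card : ℝ) +
      (((plu_set R N).filter (fun q => h (fv b c (plu_lab S (plu_b q))).natAbs = 1)).card : ℝ) +
      (((plu_set R N).filter (fun q => h (fv b c (plu_lab S (plu_c q))).natAbs = 1)).card : ℝ) := by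
      exact_mod_cast hun
    rw [Finset.mul_sum]
    linarith
  -- Cauchy-Schwarz
  have hCS : (∑ n ∈ G, tau (fv b c n).natAbs ^ 3) ^ 2 ≤ (G.card : ℝ) *
      (Cm * x * (1 + Real.log x) ^ a) := by
    have h1 := Finset.sum_mul_sq_le_sq_mul_sq G (fun _ => (1 : ℝ))
      (fun n : ℕ => tau (fv b c n).natAbs ^ 3)
    simp only [one_mul, one_pow, Finset.sum_const, nsmul_eq_mul, mul_one] at h1
    refine h1.trans ?_
    apply mul_le_mul_of_nonneg_left _ (by positivity)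
    have h2 : ∑ n ∈ G, (tau (fv b c n).natAbs ^ 3) ^ 2 =
        ∑ n ∈ G, tau (fv b c n).natAbs ^ 6 := by
      apply Finset.sum_congr rfl
      intro n _
      rw [← pow_mul]
    rw [h2]
    refine le_trans ?_ (hmom x hxge1)
    apply Finset.sum_le_sum_of_subset_of_nonneg (Finset.filter_subset _ _)
    intro n _ _
    unfold tau
    positivity
  have hT0 : 0 ≤ ∑ n ∈ G, tau (fv b c n).natAbs ^ 3 := by
    apply Finset.sum_nonneg
    intro n _
    unfold tau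
    positivity
  -- conclusion
  have hfin : (x / (192 * Cb * Cc)) ^ 2 ≤ (G.card : ℝ) * (Cm * x * (1 + Real.log x) ^ a) := by
    refine le_trans ?_ hCS
    apply pow_le_pow_left₀ (by positivity)
    have h1 := hP2.trans hun'
    rw [div_le_iff₀ (by positivity)] at h1 ⊢
    linarith
  have hlogle : (1 + Real.log x) ^ a ≤ (2 * Real.log x) ^ a :=
    pow_le_pow_left₀ (by linarith) (by linarith) a
  rw [Real.rpow_natCast]
  rw [div_le_iff₀ (by positivity)]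
  -- x ≤ G.card * log x ^ (a + 1)
  have h5 : (x / (192 * Cb * Cc)) ^ 2 ≤ (G.card : ℝ) * (Cm * x * (2 * Real.log x) ^ a) := by
    refine hfin.trans ?_
    apply mul_le_mul_of_nonneg_left _ (by positivity)
    exact mul_le_mul_of_nonneg_left hlogle (by positivity)
  have h6 : x ≤ (G.card : ℝ) * ((192 * Cb * Cc) ^ 2 * Cm * 2 ^ a * Real.log x ^ a) := by
    have h7 : x * x ≤ x * ((G.card : ℝ) *
        ((192 * Cb * Cc) ^ 2 * Cm * 2 ^ a * Real.log x ^ a)) := by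
      have e1 : (x / (192 * Cb * Cc)) ^ 2 = x * x / (192 * Cb * Cc) ^ 2 := by
        rw [div_pow]; ring
      rw [e1, div_le_iff₀ (by positivity)] at h5
      calc x * x ≤ (G.card : ℝ) * (Cm * x * (2 * Real.log x) ^ a) * (192 * Cb * Cc) ^ 2 := h5
        _ = x * ((G.card : ℝ) * ((192 * Cb * Cc) ^ 2 * Cm * 2 ^ a * Real.log x ^ a)) := by
            rw [mul_pow]; ring
    exact le_of_mul_le_mul_left h7 hx0
  refine h6.trans ?_
  apply mul_le_mul_of_nonneg_left _ (by positivity)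
  rw [pow_succ (Real.log x) a, mul_comm (Real.log x ^ a) (Real.log x)]
  apply mul_le_mul_of_nonneg_right _ (by positivity)
  refine le_trans ?_ hlog
  have h8 : (192 * Cb * Cc) ^ 2 * Cm * 2 ^ a ≤ K * 2 ^ a := by
    apply mul_le_mul_of_nonneg_right _ (by positivity)
    rw [hK]
    apply mul_le_mul_of_nonneg_right _ (by linarith)
    apply pow_le_pow_left₀ (by positivity)
    have : 0 ≤ Cb * Cc := by positivity
    nlinarith
  linarith

end Pool.Agent.MQ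

namespace Pool.Agent.MQ

theorem plus_sign : type_of% @plus_sign_pr := @plus_sign_pr

end Pool.Agent.MQ
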