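import Pool.Agent.Lib_helper39.MQ.Defs
import Pool.Agent.Lib_helper39.MQX.ALG
import Pool.Agent.Lib_helper39.MQX.EDG
import Pool.Agent.Lib_helper39.MQX.FAB
import Pool.Agent.Lib_helper39.MQX.MOA
import Pool.Agent.Lib_helper39.MQX.SBB

/-! MQ, block BAD (helper37): few elements have a sign different from the sign of their cell. -/

namespace Pool.Agent.MQ

open Filter Topology MeasureTheory

theorem bad_cn_inj {b c : ℤ} (S : Sys b c) {i s t s' t' : ℕ} (hi : i < S.r)
    (h : cn S.e i s t = cn S.e i s' t') : s = s' ∧ t = t' := by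
  have h1 : ∀ s t : ℕ, dt (cn S.e i 1 0) (cn S.e i s t) = t := by
    intro s t
    rw [dt_cn, S.e_det i hi]
    push_cast
    ring
  have h2 : ∀ s t : ℕ, dt (cn S.e i s t) (cn S.e i 0 1) = s := by
    intro s t
    rw [dt_cn, S.e_det i hi]
    push_cast
    ring
  constructor
  · have := h2 s t
    rw [h, h2 s' t'] at this
    exact_mod_cast this.symm
  · have := h1 s t
    rw [h, h1 s' t'] at this
    exact_mod_cast this.symm

/-- points on a line -/
theorem bad_line {p q s t s' t' : ℕ} (hc : Nat.Coprime p q) (hpq : 1 ≤ p + q)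
    (hD : (p : ℤ) * t - q * s = (p : ℤ) * t' - q * s')
    (hj : (s + t) / (p + q) = (s' + t') / (p + q)) : s = s' ∧ t = t' := by
  have h1 : (p : ℤ) * ((t : ℤ) - t') = q * ((s : ℤ) - s') := by linarith
  have hcz : IsCoprime (p : ℤ) (q : ℤ) := Nat.isCoprime_iff_coprime.2 hc
  have h2 : (p : ℤ) ∣ (s : ℤ) - s' := by
    have : (p : ℤ) ∣ q * ((s : ℤ) - s') := ⟨_, h1.symm⟩
    exact hcz.dvd_of_dvd_mul_left this
  have h3 : (q : ℤ) ∣ (t : ℤ) - t' := by
    have : (q : ℤ) ∣ p * ((t : ℤ) - t') := ⟨_, h1⟩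
    exact hcz.symm.dvd_of_dvd_mul_left this
  -- the common multiple
  have h4 : ∃ u : ℤ, (s : ℤ) - s' = u * p ∧ (t : ℤ) - t' = u * q := by
    obtain ⟨u, hu⟩ := h2
    obtain ⟨w, hw⟩ := h3
    by_cases hp : (p : ℤ) = 0
    · refine ⟨w, ?_, by rw [hw]; ring⟩
      rw [hp] at hu ⊢
      rw [hu]; ring
    · refine ⟨u, by rw [hu]; ring, ?_⟩
      rw [hu] at h1
      have : (p : ℤ) * ((t : ℤ) - t') = p * (u * q) := by rw [h1]; ring
      exact mul_left_cancel₀ hp this
  obtain ⟨u, hu1, hu2⟩ := h4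
  have hj0 : 0 < p + q := hpq
  have h5 : ((s + t : ℕ) : ℤ) = ((s' + t' : ℕ) : ℤ) + u * ((p + q : ℕ) : ℤ) := by
    push_cast
    linarith
  have e1 := Nat.div_add_mod (s + t) (p + q)
  have e2 := Nat.div_add_mod (s' + t') (p + q)
  have m1 := Nat.mod_lt (s + t) hj0
  have m2 := Nat.mod_lt (s' + t') hj0
  have hu : u = 0 := by
    rw [hj] at e1
    have e1' : ((p + q : ℕ) : ℤ) * (((s' + t') / (p + q) : ℕ) : ℤ) + (((s + t) % (p + q) : ℕ) : ℤ)
        = ((s + t : ℕ) : ℤ) := by exact_mod_cast e1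
    have e2' : ((p + q : ℕ) : ℤ) * (((s' + t') / (p + q) : ℕ) : ℤ) + (((s' + t') % (p + q) : ℕ) : ℤ)
        = ((s' + t' : ℕ) : ℤ) := by exact_mod_cast e2
    have m1' : (((s + t) % (p + q) : ℕ) : ℤ) < ((p + q : ℕ) : ℤ) := by exact_mod_cast m1
    have m2' : (((s' + t') % (p + q) : ℕ) : ℤ) < ((p + q : ℕ) : ℤ) := by exact_mod_cast m2
    have n1 : (0 : ℤ) ≤ (((s + t) % (p + q) : ℕ) : ℤ) := Int.natCast_nonneg _
    have n2 : (0 : ℤ) ≤ (((s' + t') % (p + q) : ℕ) : ℤ) := Int.natCast_nonneg _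
    have hJ : (0 : ℤ) < ((p + q : ℕ) : ℤ) := by exact_mod_cast hj0
    have h6 : (((s + t) % (p + q) : ℕ) : ℤ) - (((s' + t') % (p + q) : ℕ) : ℤ) =
        u * ((p + q : ℕ) : ℤ) := by linarith
    by_contra hu0
    rcases lt_or_gt_of_ne hu0 with h | h
    · have : u ≤ -1 := by omega
      nlinarith
    · have : 1 ≤ u := by omega
      nlinarith
  rw [hu] at hu1 hu2
  constructor
  · have : (s : ℤ) = s' := by linarith
    exact_mod_cast this
  · have : (t : ℤ) = t' := by linarith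
    exact_mod_cast this

/-- elements in cells with a vertex of small height -/
theorem bad_A {b c : ℤ} (S : Sys b c) {Y : ℝ} {ρ V : ℕ} (hρ : 1 ≤ ρ) (hY : (ρ : ℝ) ≤ Y)
    (hVρ : V ≤ ρ) (Q : Finset El) (hQ : ∀ m ∈ Q, ∃ i p q s t : ℕ, i < S.r ∧ Nat.Coprime p q ∧
      1 ≤ p + q ∧ p + q ≤ V ∧ m = cn S.e i s t ∧ ((s + t : ℕ) : ℝ) ≤ Y ∧
      |((((p : ℤ) * t - q * s : ℤ)) : ℝ)| * ρ ≤ 2 * Y) :
    (Q.card : ℝ) ≤ S.r * V * (20 * Y ^ 2 / ρ) := by
  classical
  choose! i p q s t h1 h2 h3 h4 h5 h6 h7 using hQ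
  have hρ0 : (0 : ℝ) < ρ := by exact_mod_cast hρ
  have hY0 : 0 < Y := lt_of_lt_of_le hρ0 hY
  set n := ⌊20 * Y ^ 2 / ρ⌋₊ with hn
  have hfib : ∀ a ∈ Q.image (fun m => (i m, p m + q m)),
      (Q.filter (fun m => (i m, p m + q m) = a)).card ≤ n := by
    intro a ha
    obtain ⟨m0, hm0, rfl⟩ := Finset.mem_image.1 ha
    set j := p m0 + q m0 with hj
    have hj1 : 1 ≤ j := h3 m0 hm0
    have hjV : j ≤ V := h4 m0 hm0
    have hj0 : (0 : ℝ) < j := by exact_mod_cast hj1
    set N := ⌊2 * Y / ρ⌋₊ with hN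
    set L := ⌊Y / j⌋₊ with hL
    have hcard : (Q.filter (fun m => (i m, p m + q m) = (i m0, j))).card ≤
        (Finset.range (j + 1) ×ˢ (Finset.Icc (-(N : ℤ)) N ×ˢ Finset.range (L + 1))).card := by
      refine Finset.card_le_card_of_injOn
        (fun m => (p m, ((p m : ℤ) * t m - q m * s m, (s m + t m) / (p m + q m)))) ?_ ?_
      · intro m hm
        have hm' : m ∈ Q.filter (fun m => (i m, p m + q m) = (i m0, j)) := hm
        rw [Finset.mem_filter, Prod.mk.injEq] at hm'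
        obtain ⟨hmQ, _, hmj⟩ := hm'
        show _ ∈ Finset.range (j + 1) ×ˢ (Finset.Icc (-(N : ℤ)) N ×ˢ Finset.range (L + 1))
        rw [Finset.mem_product, Finset.mem_product]
        refine ⟨?_, ?_, ?_⟩
        · show p m ∈ Finset.range (j + 1)
          rw [Finset.mem_range]
          omega
        · show (p m : ℤ) * t m - q m * s m ∈ Finset.Icc (-(N : ℤ)) N
          rw [Finset.mem_Icc, ← abs_le]
          have h8 := h7 m hmQ
          have h9 : (((((p m : ℤ) * t m - q m * s m).natAbs : ℕ)) : ℝ) ≤ 2 * Y / ρ := by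
            rw [Nat.cast_natAbs, Int.cast_abs, le_div_iff₀ hρ0]
            exact h8
          have h10 : ((p m : ℤ) * t m - q m * s m).natAbs ≤ N := Nat.le_floor h9
          rw [Int.abs_eq_natAbs]
          exact_mod_cast h10
        · show (s m + t m) / (p m + q m) ∈ Finset.range (L + 1)
          rw [Finset.mem_range, Nat.lt_succ_iff, hmj]
          apply Nat.le_floor
          refine (Nat.cast_div_le).trans ?_
          have := h6 m hmQ
          gcongr
      · intro m hm m' hm' heq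
        have hm1 : m ∈ Q.filter (fun m => (i m, p m + q m) = (i m0, j)) := hm
        have hm2 : m' ∈ Q.filter (fun m => (i m, p m + q m) = (i m0, j)) := hm'
        rw [Finset.mem_filter, Prod.mk.injEq] at hm1 hm2
        obtain ⟨hmQ, hmi, hmj⟩ := hm1
        obtain ⟨hmQ', hmi', hmj'⟩ := hm2
        simp only [Prod.mk.injEq] at heq
        obtain ⟨g1, g2, g3⟩ := heq
        have g4 : q m = q m' := by omega
        rw [g1, g4] at g2 g3
        obtain ⟨g5, g6⟩ := bad_line (h2 m' hmQ') (h3 m' hmQ') g2 g3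
        rw [h5 m hmQ, h5 m' hmQ', g5, g6, hmi, hmi']
    have hcard2 : (Finset.range (j + 1) ×ˢ (Finset.Icc (-(N : ℤ)) N ×ˢ Finset.range (L + 1))).card =
        (j + 1) * ((2 * N + 1) * (L + 1)) := by
      rw [Finset.card_product, Finset.card_product, Finset.card_range, Finset.card_range,
        Int.card_Icc]
      congr 2
      omega
    refine hcard.trans ?_
    rw [hcard2, hn]
    apply Nat.le_floor
    push_cast
    have e1 : ((j : ℝ) + 1) ≤ 2 * j := by
      have : (1 : ℝ) ≤ j := by exact_mod_cast hj1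
      linarith
    have e2 : (2 * (N : ℝ) + 1) ≤ 5 * Y / ρ := by
      have hN' : (N : ℝ) ≤ 2 * Y / ρ := Nat.floor_le (by positivity)
      have h1' : 1 ≤ Y / ρ := by rw [le_div_iff₀ hρ0]; linarith
      have : 5 * Y / ρ = 2 * (2 * Y / ρ) + Y / ρ := by ring
      rw [this]
      linarith
    have e3 : ((L : ℝ) + 1) ≤ 2 * Y / j := by
      have hL' : (L : ℝ) ≤ Y / j := Nat.floor_le (by positivity)
      have h1' : 1 ≤ Y / j := by
        rw [le_div_iff₀ hj0, one_mul]
        have : (j : ℝ) ≤ ρ := by exact_mod_cast hjV.trans hVρ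
        linarith
      have : 2 * Y / j = Y / j + Y / j := by ring
      rw [this]
      linarith
    calc ((j : ℝ) + 1) * ((2 * N + 1) * (L + 1)) ≤ (2 * j) * ((5 * Y / ρ) * (2 * Y / j)) := by
          gcongr
      _ = 20 * Y ^ 2 / ρ := by field_simp; ring
  have h8 := Finset.card_le_mul_card_image Q n hfib
  have h9 : (Q.image (fun m => (i m, p m + q m))).card ≤ S.r * V := by
    have : Q.image (fun m => (i m, p m + q m)) ⊆ Finset.range S.r ×ˢ Finset.Icc 1 V := by
      intro a ha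
      obtain ⟨m, hm, rfl⟩ := Finset.mem_image.1 ha
      rw [Finset.mem_product, Finset.mem_range, Finset.mem_Icc]
      exact ⟨h1 m hm, h3 m hm, h4 m hm⟩
    refine (Finset.card_le_card this).trans (le_of_eq ?_)
    rw [Finset.card_product, Finset.card_range, Nat.card_Icc]
    simp
  have h10 : (n : ℝ) ≤ 20 * Y ^ 2 / ρ := Nat.floor_le (by positivity)
  calc (Q.card : ℝ) ≤ ((n * (Q.image (fun m => (i m, p m + q m))).card : ℕ) : ℝ) := by
        exact_mod_cast h8
    _ = (n : ℝ) * ((Q.image (fun m => (i m, p m + q m))).card : ℝ) := by push_cast; ring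
    _ ≤ (20 * Y ^ 2 / ρ) * ((S.r * V : ℕ) : ℝ) := by
        have : ((Q.image (fun m => (i m, p m + q m))).card : ℝ) ≤ ((S.r * V : ℕ) : ℝ) := by
          exact_mod_cast h9
        gcongr
    _ = S.r * V * (20 * Y ^ 2 / ρ) := by push_cast; ring

/-- the number of edges with a label in the exceptional set -/
theorem bad_E {b c : ℤ} (S : Sys b c) {h : ℕ → ℤ} (hh : Sgn h) {C1 C4 Z : ℝ} (hC1 : 1 ≤ C1)
    (hcn : ∀ i s t : ℕ, i < S.r → ((s + t : ℕ) : ℝ) ^ 2 / C1 ≤ nm b c (cn S.e i s t))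
    (hC4 : ∀ (n : ℤ) (Q : Finset (El × El)), (∀ q ∈ Q, S.Edge q.1 q.2 ∧ bl b c q.1 q.2 = n) →
      (Q.card : ℝ) ≤ C4 * tau (fv b c n).natAbs ^ 3)
    (E : Finset (ℕ × (ℕ × ℕ) × (ℕ × ℕ)))
    (hE : ∀ τ ∈ E, τ.1 < S.r ∧ (τ.2.1.1 : ℤ) * τ.2.2.2 - τ.2.1.2 * τ.2.2.1 = 1 ∧
      gg b c h (cn S.e τ.1 τ.2.1.1 τ.2.1.2) ≠ gg b c h (cn S.e τ.1 τ.2.2.1 τ.2.2.2) ∧
      1 ≤ bl b c (cn S.e τ.1 τ.2.1.1 τ.2.1.2) (cn S.e τ.1 τ.2.2.1 τ.2.2.2) ∧
      (bl b c (cn S.e τ.1 τ.2.1.1 τ.2.1.2) (cn S.e τ.1 τ.2.2.1 τ.2.2.2) : ℝ) ≤ Z) :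
    (E.card : ℝ) ≤ S.r * (C4 * ∑ n ∈ Bd b c h Z, tau (fv b c (n : ℤ)).natAbs ^ 3) := by
  classical
  set lab : ℕ × (ℕ × ℕ) × (ℕ × ℕ) → ℤ := fun τ =>
    bl b c (cn S.e τ.1 τ.2.1.1 τ.2.1.2) (cn S.e τ.1 τ.2.2.1 τ.2.2.2) with hlab
  have hedge : ∀ τ ∈ E, S.Edge (cn S.e τ.1 τ.2.1.1 τ.2.1.2) (cn S.e τ.1 τ.2.2.1 τ.2.2.2) := by
    intro τ hτ
    exact ⟨τ.1, τ.2.1.1, τ.2.1.2, τ.2.2.1, τ.2.2.2, (hE τ hτ).1, (hE τ hτ).2.1, rfl, rfl⟩
  have hpos : ∀ (i s t : ℕ), i < S.r → 1 ≤ s + t → nm b c (cn S.e i s t) ≠ 0 := by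
    intro i s t hi hst h0
    have h1 := hcn i s t hi
    rw [h0] at h1
    have h2 : (0 : ℝ) < ((s + t : ℕ) : ℝ) ^ 2 / C1 := by
      have : (0 : ℝ) < ((s + t : ℕ) : ℝ) := by exact_mod_cast hst
      positivity
    simp only [Int.cast_zero] at h1
    linarith
  have hBd : ∀ τ ∈ E, (lab τ).toNat ∈ Bd b c h Z := by
    intro τ hτ
    obtain ⟨g1, g2, g3, g4, g5⟩ := hE τ hτ
    have e0 : ((lab τ).toNat : ℤ) = lab τ := Int.toNat_of_nonneg (by simp only [hlab]; linarith)
    have e1 : 1 ≤ (lab τ).toNat := by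
      have : (1 : ℤ) ≤ ((lab τ).toNat : ℤ) := by rw [e0]; exact g4
      exact_mod_cast this
    have e2 : (((lab τ).toNat : ℕ) : ℝ) ≤ Z := by
      have : (((lab τ).toNat : ℕ) : ℝ) = ((lab τ : ℤ) : ℝ) := by
        exact_mod_cast congrArg (Int.cast : ℤ → ℝ) e0
      rw [this]
      exact g5
    have n1 : nm b c (cn S.e τ.1 τ.2.1.1 τ.2.1.2) ≠ 0 := by
      apply hpos _ _ _ g1
      by_contra hcon
      have a1 : τ.2.1.1 = 0 := by omega
      have a2 : τ.2.1.2 = 0 := by omega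
      rw [a1, a2] at g2
      simp at g2
    have n2 : nm b c (cn S.e τ.1 τ.2.2.1 τ.2.2.2) ≠ 0 := by
      apply hpos _ _ _ g1
      by_contra hcon
      have a1 : τ.2.2.1 = 0 := by omega
      have a2 : τ.2.2.2 = 0 := by omega
      rw [a1, a2] at g2
      simp at g2
    have hlabel : h (fv b c (lab τ)).natAbs = -1 := by
      have h3 := edge_gg S hh (hedge τ hτ)
      rw [← h3]
      rcases gg_pm hh n1 with k1 | k1 <;> rcases gg_pm hh n2 with k2 | k2 <;>
        rw [k1, k2] at g3 ⊢ <;> first | exact absurd rfl g3 | norm_num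
    unfold Bd
    rw [Finset.mem_filter, Finset.mem_Icc]
    refine ⟨⟨e1, Nat.le_floor e2⟩, ?_⟩
    rw [e0]
    exact hlabel
  have hmaps : ∀ τ ∈ E, (τ.1, (lab τ).toNat) ∈ Finset.range S.r ×ˢ Bd b c h Z := by
    intro τ hτ
    rw [Finset.mem_product, Finset.mem_range]
    exact ⟨(hE τ hτ).1, hBd τ hτ⟩
  have hsum := Finset.card_eq_sum_card_fiberwise (s := E) (t := Finset.range S.r ×ˢ Bd b c h Z)
    (f := fun τ => (τ.1, (lab τ).toNat)) hmaps
  have hfib : ∀ a ∈ Finset.range S.r ×ˢ Bd b c h Z,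
      ((E.filter (fun τ => (τ.1, (lab τ).toNat) = a)).card : ℝ) ≤
        C4 * tau (fv b c (a.2 : ℤ)).natAbs ^ 3 := by
    rintro ⟨i, n⟩ ha
    set E' := E.filter (fun τ => (τ.1, (lab τ).toNat) = (i, n)) with hE'
    set φ : ℕ × (ℕ × ℕ) × (ℕ × ℕ) → El × El := fun τ =>
      (cn S.e τ.1 τ.2.1.1 τ.2.1.2, cn S.e τ.1 τ.2.2.1 τ.2.2.2) with hφ
    have hinj : Set.InjOn φ E' := by
      intro τ hτ τ' hτ' heq
      have hτ1 : τ ∈ E' := hτ
      have hτ2 : τ' ∈ E' := hτ'
      rw [hE', Finset.mem_filter, Prod.mk.injEq] at hτ1 hτ2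
      obtain ⟨a1, a2, _⟩ := hτ1
      obtain ⟨a1', a2', _⟩ := hτ2
      simp only [hφ, Prod.mk.injEq] at heq
      have hi' : τ'.1 = τ.1 := a2'.trans a2.symm
      rw [hi'] at heq
      obtain ⟨b1, b2⟩ := bad_cn_inj S (hE τ a1).1 heq.1
      obtain ⟨b3, b4⟩ := bad_cn_inj S (hE τ a1).1 heq.2
      exact Prod.ext hi'.symm (Prod.ext (Prod.ext b1 b2) (Prod.ext b3 b4))
    have h1 : (E'.image φ).card = E'.card := Finset.card_image_of_injOn hinj
    rw [← h1]
    apply hC4 (n : ℤ)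
    intro e he
    obtain ⟨τ, hτ, rfl⟩ := Finset.mem_image.1 he
    rw [hE', Finset.mem_filter, Prod.mk.injEq] at hτ
    obtain ⟨a1, _, a3⟩ := hτ
    refine ⟨hedge τ a1, ?_⟩
    show lab τ = n
    have e0 : ((lab τ).toNat : ℤ) = lab τ := Int.toNat_of_nonneg (by
      have := (hE τ a1).2.2.2.1
      simp only [hlab]; linarith)
    rw [← e0, a3]
  calc (E.card : ℝ) = ∑ a ∈ Finset.range S.r ×ˢ Bd b c h Z,
        ((E.filter (fun τ => (τ.1, (lab τ).toNat) = a)).card : ℝ) := by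
        rw [hsum]; push_cast; rfl
    _ ≤ ∑ a ∈ Finset.range S.r ×ˢ Bd b c h Z, C4 * tau (fv b c (a.2 : ℤ)).natAbs ^ 3 :=
        Finset.sum_le_sum hfib
    _ = S.r * (C4 * ∑ n ∈ Bd b c h Z, tau (fv b c (n : ℤ)).natAbs ^ 3) := by
        rw [Finset.sum_product]
        simp only [Finset.sum_const, Finset.card_range, nsmul_eq_mul]
        simp only [Finset.mul_sum]

/-- elements which lead to an edge with a change of sign -/
theorem bad_B {b c : ℤ} (S : Sys b c) {Y : ℝ} {ρ V : ℕ} (hV : 1 ≤ V) (hρ : 1 ≤ ρ) (hY : 0 < Y)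
    (Q : Finset El) (P : ℕ × (ℕ × ℕ) × (ℕ × ℕ) → Prop)
    (hQ : ∀ m ∈ Q, ∃ i x y x' y' k l : ℕ, P (i, (x, y), (x', y')) ∧
      1 ≤ x + y ∧ 1 ≤ x' + y' ∧ ((x + y : ℕ) : ℝ) ≤ Y ∧ ((x' + y' : ℕ) : ℝ) ≤ Y ∧
      V * ρ ≤ 2 * ((x + y) * (x' + y')) ∧
      ((k * (x + y) + l * (x' + y') : ℕ) : ℝ) ≤ Y ∧
      m = cn S.e i (k * x + l * x') (k * y + l * y')) :
    ∃ E : Finset (ℕ × (ℕ × ℕ) × (ℕ × ℕ)), (∀ τ ∈ E, P τ ∧
        ((τ.2.1.1 + τ.2.1.2 : ℕ) : ℝ) ≤ Y ∧ ((τ.2.2.1 + τ.2.2.2 : ℕ) : ℝ) ≤ Y ∧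
        V * ρ ≤ 2 * ((τ.2.1.1 + τ.2.1.2) * (τ.2.2.1 + τ.2.2.2))) ∧
      (Q.card : ℝ) ≤ (8 * Y ^ 2 / (V * ρ)) * E.card := by
  classical
  choose! i x y x' y' k l h1 h2 h3 h4 h5 h6 h7 h8 using hQ
  have hρ0 : (0 : ℝ) < ρ := by exact_mod_cast hρ
  have hV0 : (0 : ℝ) < V := by exact_mod_cast hV
  set T : El → ℕ × (ℕ × ℕ) × (ℕ × ℕ) := fun m => (i m, (x m, y m), (x' m, y' m)) with hT
  refine ⟨Q.image T, ?_, ?_⟩
  · intro τ hτ
    obtain ⟨m, hm, rfl⟩ := Finset.mem_image.1 hτ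
    exact ⟨h1 m hm, h4 m hm, h5 m hm, h6 m hm⟩
  · set n := ⌊8 * Y ^ 2 / (V * ρ)⌋₊ with hn
    have hfib : ∀ a ∈ Q.image T, (Q.filter (fun m => T m = a)).card ≤ n := by
      intro a ha
      obtain ⟨m0, hm0, rfl⟩ := Finset.mem_image.1 ha
      set H := x m0 + y m0 with hH
      set H' := x' m0 + y' m0 with hH'
      have hH1 : (0 : ℝ) < H := by exact_mod_cast h2 m0 hm0
      have hH2 : (0 : ℝ) < H' := by exact_mod_cast h3 m0 hm0
      have hHY : (H : ℝ) ≤ Y := h4 m0 hm0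
      have hHY' : (H' : ℝ) ≤ Y := h5 m0 hm0
      set K := ⌊Y / H⌋₊ with hK
      set L := ⌊Y / H'⌋₊ with hL
      have hcard : (Q.filter (fun m => T m = T m0)).card ≤
          (Finset.range (K + 1) ×ˢ Finset.range (L + 1)).card := by
        refine Finset.card_le_card_of_injOn (fun m => (k m, l m)) ?_ ?_
        · intro m hm
          have hm' : m ∈ Q.filter (fun m => T m = T m0) := hm
          rw [Finset.mem_filter] at hm'
          obtain ⟨hmQ, hmT⟩ := hm'
          simp only [hT, Prod.mk.injEq] at hmT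
          obtain ⟨_, ⟨g1, g2⟩, g3, g4⟩ := hmT
          have h9 := h7 m hmQ
          rw [g1, g2, g3, g4] at h9
          push_cast at h9
          have hHc : ((x m0 : ℝ) + y m0) = H := by rw [hH]; push_cast; ring
          have hHc' : ((x' m0 : ℝ) + y' m0) = H' := by rw [hH']; push_cast; ring
          rw [hHc, hHc'] at h9
          have p1 : (0 : ℝ) ≤ (k m : ℝ) * H := by positivity
          have p2 : (0 : ℝ) ≤ (l m : ℝ) * H' := by positivity
          show (k m, l m) ∈ Finset.range (K + 1) ×ˢ Finset.range (L + 1)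
          rw [Finset.mem_product, Finset.mem_range, Finset.mem_range, Nat.lt_succ_iff,
            Nat.lt_succ_iff]
          constructor
          · apply Nat.le_floor
            rw [le_div_iff₀ hH1]
            linarith
          · apply Nat.le_floor
            rw [le_div_iff₀ hH2]
            linarith
        · intro m hm m' hm' heq
          have hm1 : m ∈ Q.filter (fun m => T m = T m0) := hm
          have hm2 : m' ∈ Q.filter (fun m => T m = T m0) := hm'
          rw [Finset.mem_filter] at hm1 hm2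
          obtain ⟨hmQ, hmT⟩ := hm1
          obtain ⟨hmQ', hmT'⟩ := hm2
          simp only [hT, Prod.mk.injEq] at hmT hmT'
          obtain ⟨g0, ⟨g1, g2⟩, g3, g4⟩ := hmT
          obtain ⟨g0', ⟨g1', g2'⟩, g3', g4'⟩ := hmT'
          simp only [Prod.mk.injEq] at heq
          rw [h8 m hmQ, h8 m' hmQ', g0, g1, g2, g3, g4, g0', g1', g2', g3', g4', heq.1, heq.2]
      refine hcard.trans ?_
      rw [Finset.card_product, Finset.card_range, Finset.card_range, hn]
      apply Nat.le_floor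
      push_cast
      have e1 : ((K : ℝ) + 1) ≤ 2 * Y / H := by
        have hK' : (K : ℝ) ≤ Y / H := Nat.floor_le (by positivity)
        have h1' : 1 ≤ Y / H := by rw [le_div_iff₀ hH1]; linarith
        have : 2 * Y / H = Y / H + Y / H := by ring
        rw [this]
        linarith
      have e2 : ((L : ℝ) + 1) ≤ 2 * Y / H' := by
        have hL' : (L : ℝ) ≤ Y / H' := Nat.floor_le (by positivity)
        have h1' : 1 ≤ Y / H' := by rw [le_div_iff₀ hH2]; linarith
        have : 2 * Y / H' = Y / H' + Y / H' := by ring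
        rw [this]
        linarith
      have e3 : (V : ℝ) * ρ ≤ 2 * (H * H') := by exact_mod_cast h6 m0 hm0
      calc ((K : ℝ) + 1) * (L + 1) ≤ (2 * Y / H) * (2 * Y / H') := by gcongr
        _ = 8 * Y ^ 2 / (2 * (H * H')) := by field_simp; ring
        _ ≤ 8 * Y ^ 2 / (V * ρ) := by
            apply div_le_div_of_nonneg_left (by positivity) (by positivity) e3
    have h9 := Finset.card_le_mul_card_image Q n hfib
    have h10 : (n : ℝ) ≤ 8 * Y ^ 2 / (V * ρ) := Nat.floor_le (by positivity)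
    calc (Q.card : ℝ) ≤ ((n * (Q.image T).card : ℕ) : ℝ) := by exact_mod_cast h9
      _ = (n : ℝ) * ((Q.image T).card : ℝ) := by push_cast; ring
      _ ≤ (8 * Y ^ 2 / (V * ρ)) * ((Q.image T).card : ℝ) := by gcongr

/-- the third moment over the exceptional set -/
theorem bad_mom {b c : ℤ} {h : ℕ → ℤ} {C' C6 : ℝ} {a : ℕ} (hC' : 1 ≤ C') (hC6 : 1 ≤ C6)
    (hmom : ∀ x : ℝ, 1 ≤ x → ∑ n ∈ Finset.Icc 1 ⌊x⌋₊, tau (fv b c n).natAbs ^ 6 ≤
      C6 * x * (1 + Real.log x) ^ a) {X : ℝ} (hX : 1 ≤ X) :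
    ∑ n ∈ Bd b c h (C' * X), tau (fv b c (n : ℤ)).natAbs ^ 3 ≤
      Real.sqrt (C6 * C' * (1 + Real.log C') ^ a) *
        Real.sqrt ((Bd b c h (C' * X)).card * X * (1 + Real.log X) ^ a) := by
  have l1 : 0 ≤ Real.log C' := Real.log_nonneg hC'
  have l2 : 0 ≤ Real.log X := Real.log_nonneg hX
  rw [← Real.sqrt_mul (by positivity)]
  apply Real.le_sqrt_of_sq_le
  have h1 : (∑ n ∈ Bd b c h (C' * X), tau (fv b c (n : ℤ)).natAbs ^ 3) ^ 2 ≤
      (Bd b c h (C' * X)).card * ∑ n ∈ Bd b c h (C' * X), (tau (fv b c (n : ℤ)).natAbs ^ 3) ^ 2 :=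
    sq_sum_le_card_mul_sum_sq
  have h2 : ∑ n ∈ Bd b c h (C' * X), (tau (fv b c (n : ℤ)).natAbs ^ 3) ^ 2 ≤
      ∑ n ∈ Finset.Icc 1 ⌊C' * X⌋₊, tau (fv b c (n : ℤ)).natAbs ^ 6 := by
    calc ∑ n ∈ Bd b c h (C' * X), (tau (fv b c (n : ℤ)).natAbs ^ 3) ^ 2
        = ∑ n ∈ Bd b c h (C' * X), tau (fv b c (n : ℤ)).natAbs ^ 6 := by
          apply Finset.sum_congr rfl; intro n _; ring
      _ ≤ _ := Finset.sum_le_sum_of_subset_of_nonneg (Finset.filter_subset _ _) (fun n _ _ => by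
          positivity)
  have hCX : 1 ≤ C' * X := by nlinarith
  have h3 := hmom (C' * X) hCX
  have h4 : 1 + Real.log (C' * X) ≤ (1 + Real.log C') * (1 + Real.log X) := by
    rw [Real.log_mul (by linarith) (by linarith)]
    nlinarith [mul_nonneg l1 l2]
  have h5 : 0 ≤ 1 + Real.log (C' * X) := by
    have := Real.log_nonneg hCX
    linarith
  calc (∑ n ∈ Bd b c h (C' * X), tau (fv b c (n : ℤ)).natAbs ^ 3) ^ 2
      ≤ (Bd b c h (C' * X)).card * (C6 * (C' * X) * (1 + Real.log (C' * X)) ^ a) := by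
        refine h1.trans ?_
        exact mul_le_mul_of_nonneg_left (h2.trans h3) (Nat.cast_nonneg _)
    _ ≤ (Bd b c h (C' * X)).card * (C6 * (C' * X) * ((1 + Real.log C') * (1 + Real.log X)) ^ a) := by
        gcongr
    _ = C6 * C' * (1 + Real.log C') ^ a * ((Bd b c h (C' * X)).card * X * (1 + Real.log X) ^ a) := by
        rw [mul_pow]; ring

theorem bad_sm_cn (e : ℕ → El) (i s t k : ℕ) : sm k (cn e i s t) = cn e i (k * s) (k * t) := by
  unfold sm cn
  ext
  · push_cast; ring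
  · push_cast; ring

theorem bad_cop {p q p' q' : ℕ} (h : (p : ℤ) * q' - q * p' = 1) :
    Nat.Coprime p q ∧ Nat.Coprime p' q' ∧ 1 ≤ p + q ∧ 1 ≤ p' + q' := by
  refine ⟨Nat.isCoprime_iff_coprime.1 ⟨q', -p', by linarith⟩,
    Nat.isCoprime_iff_coprime.1 ⟨-q, p, by linarith⟩, ?_, ?_⟩
  · by_contra hcon
    have a1 : p = 0 := by omega
    have a2 : q = 0 := by omega
    rw [a1, a2] at h
    simp at h
  · by_contra hcon
    have a1 : p' = 0 := by omega
    have a2 : q' = 0 := by omega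
    rw [a1, a2] at h
    simp at h

theorem bad_card_pr : ∃ a : ℕ, ∀ (b c : ℤ) (S : Sys b c), ¬ IsSquare (dsc b c) → ∃ C : ℝ, 1 ≤ C ∧
    ∀ (h : ℕ → ℤ), Sgn h → ∀ (X : ℝ) (ρ V : ℕ), 1 ≤ V → V ≤ ρ → (ρ : ℝ) ≤ Real.sqrt X →
    ∀ Q : Finset El, (∀ m ∈ Q, m ∈ S.MF X ∧ ∃ i p q p' q' k α β : ℕ, S.Cell ρ i p q p' q' ∧
      1 ≤ k ∧ 1 ≤ α ∧ 1 ≤ β ∧ Nat.Coprime α β ∧
      m = sm k (cn S.e i (α * p + β * p') (α * q + β * q')) ∧
      gg b c h m ≠ gg b c h (cn S.e i p q)) →
      (Q.card : ℝ) ≤ C * (X * V / ρ + X / (V * ρ) *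
        Real.sqrt ((Bd b c h (C * X)).card * X * (1 + Real.log X) ^ a)) := by
  classical
  obtain ⟨a, ha⟩ := mom_one 6
  refine ⟨a, fun b c S hs => ?_⟩
  obtain ⟨C1, hC1, hcn⟩ := cone_nm S
  obtain ⟨C2, hC2, hbl⟩ := cone_bl S
  obtain ⟨C3, hC3, hMF⟩ := MF_card S
  obtain ⟨C4, hC4, hedge⟩ := edge_card S hs
  obtain ⟨C6, hC6, hmom⟩ := ha b c hs
  have hC' : 1 ≤ C1 * C2 := by nlinarith
  have l1 : 0 ≤ Real.log (C1 * C2) := Real.log_nonneg hC'
  set D := Real.sqrt (C6 * (C1 * C2) * (1 + Real.log (C1 * C2)) ^ a) with hD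
  have hD0 : 0 ≤ D := Real.sqrt_nonneg _
  set K1 := C3 * (2 * C2 ^ 2) with hK1
  set K2 := 20 * (S.r : ℝ) * C1 with hK2
  set K3 := 8 * C1 * (S.r : ℝ) * C4 * D with hK3
  have k1 : 0 ≤ K1 := by positivity
  have k2 : 0 ≤ K2 := by positivity
  have k3 : 0 ≤ K3 := by positivity
  refine ⟨1 + C1 * C2 + K1 + K2 + K3, by linarith, ?_⟩
  intro h hh X ρ V hV hVρ hρX Q hQ
  set C := 1 + C1 * C2 + K1 + K2 + K3 with hC
  have hρ1 : 1 ≤ ρ := hV.trans hVρ
  have hρ0 : (0 : ℝ) < ρ := by exact_mod_cast hρ1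
  have hρ1' : (1 : ℝ) ≤ ρ := by exact_mod_cast hρ1
  have hV0 : (0 : ℝ) < V := by exact_mod_cast hV
  have hV1' : (1 : ℝ) ≤ V := by exact_mod_cast hV
  have hX : 1 ≤ X := by
    have h1 : 1 ≤ Real.sqrt X := by linarith
    rwa [Real.one_le_sqrt] at h1
  have l2 : 0 ≤ Real.log X := Real.log_nonneg hX
  have hX0 : 0 < X := by linarith
  set Y := Real.sqrt (C1 * X) with hY
  have hY2 : Y ^ 2 = C1 * X := Real.sq_sqrt (by positivity)
  have hXY : Real.sqrt X ≤ Y := Real.sqrt_le_sqrt (by nlinarith)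
  have hρY : (ρ : ℝ) ≤ Y := hρX.trans hXY
  have hY0 : 0 < Y := lt_of_lt_of_le hρ0 hρY
  set U := X * V / ρ with hU
  have hU0 : 0 ≤ U := by positivity
  set W := X / (V * ρ) * Real.sqrt ((Bd b c h (C * X)).card * X * (1 + Real.log X) ^ a) with hW
  have hW0 : 0 ≤ W := by positivity
  have hsub : (Bd b c h (C1 * C2 * X)) ⊆ (Bd b c h (C * X)) := by
    intro n hn
    unfold Bd at hn ⊢
    rw [Finset.mem_filter, Finset.mem_Icc] at hn ⊢
    refine ⟨⟨hn.1.1, hn.1.2.trans (Nat.floor_le_floor ?_)⟩, hn.2⟩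
    apply mul_le_mul_of_nonneg_right _ hX0.le
    rw [hC]; linarith
  by_cases hVr : (V : ℝ) * ρ ≤ 2 * C2 ^ 2
  · -- the trivial case
    have h1 : Q ⊆ S.MF X := fun m hm => (hQ m hm).1
    have h2 : (Q.card : ℝ) ≤ C3 * X := by
      have : (Q.card : ℝ) ≤ ((S.MF X).card : ℝ) := by exact_mod_cast Finset.card_le_card h1
      exact this.trans (hMF X hX).2
    have h3 : X ≤ (2 * C2 ^ 2) * U := by
      rw [hU, ← mul_div_assoc, le_div_iff₀ hρ0]
      have h4 : (ρ : ℝ) ≤ 2 * C2 ^ 2 := by nlinarith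
      have h5 : (ρ : ℝ) ≤ 2 * C2 ^ 2 * V := by nlinarith [sq_nonneg C2]
      nlinarith
    have h6 : C3 * X ≤ K1 * U := by
      rw [hK1]
      calc C3 * X ≤ C3 * ((2 * C2 ^ 2) * U) := by gcongr
        _ = _ := by ring
    have h7 : K1 * U ≤ C * (U + W) := by
      have e1 : K1 * U ≤ C * U := mul_le_mul_of_nonneg_right (by rw [hC]; linarith) hU0
      have e2 : 0 ≤ C * W := mul_nonneg (by rw [hC]; linarith) hW0
      linarith [mul_add C U W]
    linarith
  · have hVr' : 2 * C2 ^ 2 < (V : ℝ) * ρ := not_le.1 hVr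
    -- heights are bounded
    have hht : ∀ m ∈ Q, ∀ i s t : ℕ, i < S.r → m = cn S.e i s t → ((s + t : ℕ) : ℝ) ≤ Y := by
      intro m hm i s t hi hmst
      have h1 := (hcn i s t hi).1
      have h2 := ((mem_MF S).1 (hQ m hm).1).2
      rw [hmst] at h2
      have h3 : ((s + t : ℕ) : ℝ) ^ 2 ≤ C1 * X := by
        have h4 : ((s + t : ℕ) : ℝ) ^ 2 / C1 ≤ X := h1.trans h2
        rw [div_le_iff₀ (by linarith)] at h4
        linarith
      rw [hY]
      exact Real.le_sqrt_of_sq_le h3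
    set PA : El → Prop := fun m => ∃ i p q s t : ℕ, i < S.r ∧ Nat.Coprime p q ∧
      1 ≤ p + q ∧ p + q ≤ V ∧ m = cn S.e i s t ∧ ((s + t : ℕ) : ℝ) ≤ Y ∧
      |((((p : ℤ) * t - q * s : ℤ)) : ℝ)| * ρ ≤ 2 * Y with hPA
    set PB : ℕ × (ℕ × ℕ) × (ℕ × ℕ) → Prop := fun τ => τ.1 < S.r ∧
      (τ.2.1.1 : ℤ) * τ.2.2.2 - τ.2.1.2 * τ.2.2.1 = 1 ∧
      gg b c h (cn S.e τ.1 τ.2.1.1 τ.2.1.2) ≠ gg b c h (cn S.e τ.1 τ.2.2.1 τ.2.2.2) with hPB
    have hdich : ∀ m ∈ Q, ¬ PA m → ∃ i x y x' y' k l : ℕ, PB (i, (x, y), (x', y')) ∧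
      1 ≤ x + y ∧ 1 ≤ x' + y' ∧ ((x + y : ℕ) : ℝ) ≤ Y ∧ ((x' + y' : ℕ) : ℝ) ≤ Y ∧
      V * ρ ≤ 2 * ((x + y) * (x' + y')) ∧
      ((k * (x + y) + l * (x' + y') : ℕ) : ℝ) ≤ Y ∧
      m = cn S.e i (k * x + l * x') (k * y + l * y') := by
      intro m hm hnA
      obtain ⟨hmM, i, p, q, p', q', k, α, β, hcell, hk, hα, hβ, hab, hms, hgg⟩ := hQ m hm
      obtain ⟨hi, hdet, hpρ, hp'ρ, hsum⟩ := hcell
      obtain ⟨c1, c2, c3, c4⟩ := bad_cop hdet
      have hm1 : m = cn S.e i (k * (α * p + β * p')) (k * (α * q + β * q')) := by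
        rw [hms, bad_sm_cn]
      have hst := hht m hm i _ _ hi hm1
      -- both heights are larger than `V`
      have hbig : V < p + q ∧ V < p' + q' := by
        by_contra hcon
        apply hnA
        rw [not_and_or, not_lt, not_lt] at hcon
        rcases le_total (p + q) (p' + q') with hle | hle
        · have hpV : p + q ≤ V := by
            rcases hcon with hcon | hcon
            · exact hcon
            · exact hle.trans hcon
          refine ⟨i, p, q, _, _, hi, c1, c3, hpV, hm1, hst, ?_⟩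
          have e1 : ((p : ℤ) * ((k * (α * q + β * q') : ℕ) : ℤ) - q * ((k * (α * p + β * p') : ℕ) : ℤ))
              = (k * β : ℕ) := by
            push_cast
            have : (p : ℤ) * (k * (α * q + β * q')) - q * (k * (α * p + β * p')) =
              k * β * ((p : ℤ) * q' - q * p') := by ring
            rw [this, hdet, mul_one]
          rw [e1]
          have e2 : ρ ≤ 2 * (p' + q') := by omega
          have e3 : (k * β) * ρ ≤ 2 * (k * (α * p + β * p') + k * (α * q + β * q')) := by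
            calc (k * β) * ρ ≤ (k * β) * (2 * (p' + q')) := Nat.mul_le_mul_left _ e2
              _ ≤ 2 * (k * (α * p + β * p') + k * (α * q + β * q')) := by
                  have : 0 ≤ 2 * (k * (α * p) + k * (α * q)) := Nat.zero_le _
                  nlinarith
          have e4 : (((k * β) * ρ : ℕ) : ℝ) ≤
              ((2 * (k * (α * p + β * p') + k * (α * q + β * q')) : ℕ) : ℝ) := by exact_mod_cast e3
          rw [Int.cast_natCast, Nat.abs_cast]
          rw [Nat.cast_mul] at e4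
          refine e4.trans ?_
          rw [Nat.cast_mul]
          push_cast at hst ⊢
          linarith
        · have hpV : p' + q' ≤ V := by
            rcases hcon with hcon | hcon
            · exact hle.trans hcon
            · exact hcon
          refine ⟨i, p', q', _, _, hi, c2, c4, hpV, hm1, hst, ?_⟩
          have e1 : ((p' : ℤ) * ((k * (α * q + β * q') : ℕ) : ℤ) - q' * ((k * (α * p + β * p') : ℕ) : ℤ))
              = -((k * α : ℕ) : ℤ) := by
            push_cast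
            have : (p' : ℤ) * (k * (α * q + β * q')) - q' * (k * (α * p + β * p')) =
              -(k * α * ((p : ℤ) * q' - q * p')) := by ring
            rw [this, hdet, mul_one]
          rw [e1]
          have e2 : ρ ≤ 2 * (p + q) := by omega
          have e3 : (k * α) * ρ ≤ 2 * (k * (α * p + β * p') + k * (α * q + β * q')) := by
            calc (k * α) * ρ ≤ (k * α) * (2 * (p + q)) := Nat.mul_le_mul_left _ e2
              _ ≤ 2 * (k * (α * p + β * p') + k * (α * q + β * q')) := by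
                  have : 0 ≤ 2 * (k * (β * p') + k * (β * q')) := Nat.zero_le _
                  nlinarith
          have e4 : (((k * α) * ρ : ℕ) : ℝ) ≤
              ((2 * (k * (α * p + β * p') + k * (α * q + β * q')) : ℕ) : ℝ) := by exact_mod_cast e3
          rw [Int.cast_neg, abs_neg, Int.cast_natCast, Nat.abs_cast]
          rw [Nat.cast_mul] at e4
          refine e4.trans ?_
          rw [Nat.cast_mul]
          push_cast at hst ⊢
          linarith
      -- the norm is not zero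
      have hne : nm b c (cn S.e i (α * p + β * p') (α * q + β * q')) ≠ 0 := by
        intro h0
        have h1 := (hcn i (α * p + β * p') (α * q + β * q') hi).1
        rw [h0] at h1
        have h2 : 1 ≤ (α * p + β * p') + (α * q + β * q') := by nlinarith
        have h3 : (0 : ℝ) < (((α * p + β * p') + (α * q + β * q') : ℕ) : ℝ) ^ 2 / C1 := by
          have : (0 : ℝ) < (((α * p + β * p') + (α * q + β * q') : ℕ) : ℝ) := by exact_mod_cast h2
          positivity
        rw [Int.cast_zero] at h1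
        linarith
      have hgg' : gg b c h (cn S.e i (α * p + β * p') (α * q + β * q')) ≠
          gg b c h (cn S.e i p q) := by
        rw [hms, gg_sm hh hne hk] at hgg
        exact hgg
      obtain ⟨x, y, x', y', A, B, A', B', α', β', hx, hy, hx', hy', hdet', hg', hs1, hs2, hxy,
        hxy'⟩ := sign_path S hh hi hdet hα hβ hab hgg'
      have hAB : (A : ℤ) * B' - B * A' = 1 := by
        have : (x : ℤ) * y' - y * x' = ((A : ℤ) * B' - B * A') * ((p : ℤ) * q' - q * p') := by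
          rw [hx, hy, hx', hy']
          push_cast
          ring
        rw [hdet, mul_one] at this
        rw [← this]; exact hdet'
      have hA : 1 ≤ A := by
        by_contra hcon
        have : A = 0 := by omega
        rw [this] at hAB
        have h0 : (0 : ℤ) ≤ (B : ℤ) * A' := by positivity
        simp only [Nat.cast_zero, zero_mul, zero_sub] at hAB
        linarith
      have hB : 1 ≤ B' := by
        by_contra hcon
        have : B' = 0 := by omega
        rw [this] at hAB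
        have h0 : (0 : ℤ) ≤ (B : ℤ) * A' := by positivity
        simp only [Nat.cast_zero, mul_zero, zero_sub] at hAB
        linarith
      have hX1 : p + q ≤ x + y := by
        rw [hx, hy]; nlinarith
      have hX2 : p' + q' ≤ x' + y' := by
        rw [hx', hy']; nlinarith
      have hk' : (α * p + β * p') + (α * q + β * q') ≤
          k * (α * p + β * p') + k * (α * q + β * q') := by nlinarith
      have hk'' : (((α * p + β * p') + (α * q + β * q') : ℕ) : ℝ) ≤ Y :=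
        le_trans (by exact_mod_cast hk') hst
      refine ⟨i, x, y, x', y', k * α', k * β', ⟨hi, hdet', hg'⟩, c3.trans hX1, c4.trans hX2, ?_, ?_,
        ?_, ?_, ?_⟩
      · exact le_trans (by exact_mod_cast hxy) hk''
      · exact le_trans (by exact_mod_cast hxy') hk''
      · have e1 : (p + q) * (p' + q') ≤ (x + y) * (x' + y') := Nat.mul_le_mul hX1 hX2
        have e2 : V * ρ ≤ 2 * ((p + q) * (p' + q')) := by
          rcases le_total (p + q) (p' + q') with hle | hle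
          · have e3 : ρ ≤ 2 * (p' + q') := by omega
            calc V * ρ ≤ (p + q) * (2 * (p' + q')) := Nat.mul_le_mul hbig.1.le e3
              _ = _ := by ring
          · have e3 : ρ ≤ 2 * (p + q) := by omega
            calc V * ρ ≤ (p' + q') * (2 * (p + q)) := Nat.mul_le_mul hbig.2.le e3
              _ = _ := by ring
        omega
      · have e1 : k * α' * (x + y) + k * β' * (x' + y') =
            k * (α * p + β * p') + k * (α * q + β * q') := by
          rw [hs1, hs2]; ring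
        rw [e1]; exact hst
      · rw [hm1, hs1, hs2]
        congr 1 <;> ring
    have hsplit : (Q.card : ℝ) = ((Q.filter PA).card : ℝ) + ((Q.filter (fun m => ¬ PA m)).card : ℝ) := by
      rw [← Nat.cast_add, Finset.card_filter_add_card_filter_not]
    have hQA : ((Q.filter PA).card : ℝ) ≤ K2 * U := by
      have h1 := bad_A S hρ1 hρY hVρ (Q.filter PA) (fun m hm => (Finset.mem_filter.1 hm).2)
      refine h1.trans (le_of_eq ?_)
      rw [hY2, hK2, hU]
      ring
    have hQB : ((Q.filter (fun m => ¬ PA m)).card : ℝ) ≤ K3 * W := by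
      obtain ⟨E, hE1, hE2⟩ := bad_B S hV hρ1 hY0 (Q.filter (fun m => ¬ PA m)) PB
        (fun m hm => hdich m (Finset.mem_filter.1 hm).1 (Finset.mem_filter.1 hm).2)
      have hE3 : (E.card : ℝ) ≤ S.r * (C4 * ∑ n ∈ Bd b c h (C1 * C2 * X),
          tau (fv b c (n : ℤ)).natAbs ^ 3) := by
        apply bad_E S hh hC1 (fun i s t hi => (hcn i s t hi).1) hedge
        intro τ hτ
        obtain ⟨⟨g1, g2, g3⟩, g4, g5, g6⟩ := hE1 τ hτ
        obtain ⟨b1, b2⟩ := hbl τ.1 τ.2.1.1 τ.2.1.2 τ.2.2.1 τ.2.2.2 g1 g2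
        refine ⟨g1, g2, g3, ?_, ?_⟩
        · have h1 : (V : ℝ) * ρ ≤ 2 * (((τ.2.1.1 + τ.2.1.2 : ℕ) : ℝ) *
              ((τ.2.2.1 + τ.2.2.2 : ℕ) : ℝ)) := by exact_mod_cast g6
          have h2 : (0 : ℝ) < (bl b c (cn S.e τ.1 τ.2.1.1 τ.2.1.2)
              (cn S.e τ.1 τ.2.2.1 τ.2.2.2) : ℝ) := by
            refine lt_of_lt_of_le ?_ b1
            rw [sub_pos, lt_div_iff₀ (by linarith)]
            nlinarith
          have h3 : 0 < bl b c (cn S.e τ.1 τ.2.1.1 τ.2.1.2) (cn S.e τ.1 τ.2.2.1 τ.2.2.2) := by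
            exact_mod_cast h2
          linarith
        · refine b2.trans ?_
          calc C2 * ((τ.2.1.1 + τ.2.1.2 : ℕ) : ℝ) * ((τ.2.2.1 + τ.2.2.2 : ℕ) : ℝ)
              ≤ C2 * Y * Y := by gcongr
            _ = C1 * C2 * X := by
                rw [mul_assoc, ← sq, hY2]; ring
      have hE4 := bad_mom (h := h) hC' hC6 hmom hX
      have hE5 : Real.sqrt ((Bd b c h (C1 * C2 * X)).card * X * (1 + Real.log X) ^ a) ≤
          Real.sqrt ((Bd b c h (C * X)).card * X * (1 + Real.log X) ^ a) := by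
        apply Real.sqrt_le_sqrt
        have : ((Bd b c h (C1 * C2 * X)).card : ℝ) ≤ ((Bd b c h (C * X)).card : ℝ) := by
          exact_mod_cast Finset.card_le_card hsub
        gcongr
      calc ((Q.filter (fun m => ¬ PA m)).card : ℝ) ≤ (8 * Y ^ 2 / (V * ρ)) * E.card := hE2
        _ ≤ (8 * Y ^ 2 / (V * ρ)) * (S.r * (C4 * (D *
            Real.sqrt ((Bd b c h (C * X)).card * X * (1 + Real.log X) ^ a)))) := by
            apply mul_le_mul_of_nonneg_left _ (by positivity)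
            refine hE3.trans ?_
            apply mul_le_mul_of_nonneg_left _ (Nat.cast_nonneg _)
            apply mul_le_mul_of_nonneg_left _ (by linarith)
            exact hE4.trans (mul_le_mul_of_nonneg_left hE5 hD0)
        _ = K3 * W := by
            rw [hY2, hK3, hW]
            ring
    rw [hsplit]
    have e1 : K2 * U ≤ C * U := mul_le_mul_of_nonneg_right (by rw [hC]; linarith) hU0
    have e2 : K3 * W ≤ C * W := mul_le_mul_of_nonneg_right (by rw [hC]; linarith) hW0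
    have e3 := mul_add C U W
    linarith


end Pool.Agent.MQ

namespace Pool.Agent.MQ

theorem bad_card : type_of% @bad_card_pr := @bad_card_pr

end Pool.Agent.MQ
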