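import Pool.Agent.Lib_helper39.MQ.Defs
import Pool.Agent.Lib_helper39.MQX.ALG
import Pool.Agent.Lib_helper39.MQX.FEJ
import Pool.Agent.Lib_helper39.MQX.RRS
import Pool.Agent.Lib_helper39.MQX.SBA
import Pool.Agent.Lib_helper39.MQX.SBB

/-! MQ, block BIL: the bilinear form. -/

namespace Pool.Agent.MQ

open Filter Topology MeasureTheory

theorem bil_ex_add (k : ℤ) (s t : ℝ) : ex (k * (s + t)) = ex (k * s) * ex (k * t) := by
  unfold ex
  rw [← Complex.exp_add]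
  congr 1
  push_cast
  ring

theorem bil_ex_int (k n : ℤ) (t : ℝ) : ex (k * (t + n)) = ex (k * t) := by
  rw [bil_ex_add]
  have : ex (k * (n : ℝ)) = 1 := by
    unfold ex
    have h1 : (2 * Real.pi * Complex.I * (((k : ℝ) * (n : ℝ) : ℝ) : ℂ)) =
        ((k * n : ℤ) : ℂ) * (2 * Real.pi * Complex.I) := by
      push_cast
      ring
    rw [h1]
    exact Complex.exp_int_mul_two_pi_mul_I (k * n)
  rw [this, mul_one]

/-- the Fejer mean -/
noncomputable def bilPhi (F : ℝ → ℝ) (X : ℝ) (t : ℝ) : ℂ :=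
  ∑ k ∈ KK (X ^ 2), ((1 - |(k : ℝ)| / ⌈X ^ 2⌉ : ℝ) : ℂ) * fc F k * ex (k * t)

theorem bil_phi_int (F : ℝ → ℝ) (X t : ℝ) (n : ℤ) : bilPhi F X (t + n) = bilPhi F X t := by
  unfold bilPhi
  refine Finset.sum_congr rfl fun k _ => ?_
  rw [bil_ex_int]

theorem bil_expand {b c : ℤ} (S : Sys b c) (h : ℕ → ℤ) (F : ℝ → ℝ) (X : ℝ) :
    ∑ k ∈ KK (X ^ 2), ((1 - |(k : ℝ)| / ⌈X ^ 2⌉ : ℝ) : ℂ) * fc F k * S.As h k X ^ 2 =
    ∑ q ∈ S.MF X ×ˢ S.MF X, (gg b c h q.1 : ℂ) * (gg b c h q.2 : ℂ) *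
      bilPhi F X (S.u q.1 + S.u q.2) := by
  unfold bilPhi Sys.As
  simp_rw [Finset.mul_sum]
  rw [Finset.sum_comm]
  refine Finset.sum_congr rfl fun k _ => ?_
  rw [pow_two (∑ v ∈ S.MF X, (gg b c h v : ℂ) * ex (k * S.u v)), Finset.sum_mul_sum,
    ← Finset.sum_product', Finset.mul_sum]
  refine Finset.sum_congr rfl fun q _ => ?_
  rw [bil_ex_add]
  ring

theorem bil_term {b c : ℤ} (S : Sys b c) {h : ℕ → ℤ} (hh : Sgn h) (F : ℝ → ℝ) (X : ℝ)
    {v w : El} (hv : S.wd v) (hw : S.wd w) :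
    (gg b c h v : ℂ) * (gg b c h w : ℂ) * bilPhi F X (S.u v + S.u w) =
      (gg b c h (S.rp (ml b c v w)) : ℂ) * bilPhi F X (S.u (S.rp (ml b c v w))) := by
  have h1 := wd_nm S hv
  have h2 := wd_nm S hw
  obtain ⟨n, hn⟩ := S.u_hom v w hv hw
  have h3 : S.u (S.rp (ml b c v w)) = S.u v + S.u w + n := hn
  have h4 : 0 < nm b c (ml b c v w) := by
    rw [nm_ml]
    positivity
  rw [h3, bil_phi_int, gg_rp S h h4, gg_ml hh h1.ne' h2.ne']
  push_cast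
  ring

theorem bilin_pr : ∃ a : ℕ, ∀ (b c : ℤ) (S : Sys b c), ¬ IsSquare (dsc b c) → ∃ C : ℝ, 1 ≤ C ∧
    ∀ (h : ℕ → ℤ), Sgn h → ∀ (X L : ℝ) (F : ℝ → ℝ), 2 ≤ X → 1 ≤ L → L ≤ X →
      Loc S h (X ^ 2) L F →
      ((S.MF X).card : ℝ) ^ 2 * (1 - C * (1 + Real.log X) ^ a / Real.sqrt L) ≤
        ‖∑ k ∈ KK (X ^ 2), ((1 - |(k : ℝ)| / ⌈X ^ 2⌉ : ℝ) : ℂ) * fc F k *
          S.As h k X ^ 2‖ := by
  classical
  obtain ⟨a, ha⟩ := rr_sq
  refine ⟨a, fun b c S hs => ?_⟩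
  obtain ⟨C₁, hC₁, hrr⟩ := ha b c S hs
  obtain ⟨C₂, hC₂, hMF⟩ := MF_card S
  refine ⟨1 + 2 * C₁ * C₂ ^ 2, ?_, ?_⟩
  · have : 0 ≤ 2 * C₁ * C₂ ^ 2 := by positivity
    linarith
  intro h hh X L F hX hL hLX hloc
  have hX0 : 0 < X := by linarith
  have hX1 : 1 ≤ X := by linarith
  have hL0 : 0 < L := by linarith
  set lg : ℝ := 1 + Real.log X with hlg
  have hlg1 : 1 ≤ lg := by
    have := Real.log_nonneg hX1
    linarith
  set M : ℝ := ((S.MF X).card : ℝ) with hM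
  have hM1 := (hMF X hX1).1
  have hM0 : 0 < M := lt_of_lt_of_le (by positivity) hM1
  set bad : Finset El := (S.MF (X ^ 2)).filter
    (fun v => ∃ t : ℝ, |t - S.u v| ≤ L / X ^ 2 ∧ F t ≠ gg b c h v) with hbad
  have hbc : (bad.card : ℝ) ≤ X ^ 2 / L := by
    have := hloc.good
    convert this using 4
  set mm : El × El → El := fun q => S.rp (ml b c q.1 q.2) with hmm
  set BP : Finset (El × El) := (S.MF X ×ˢ S.MF X).filter (fun q => mm q ∈ bad) with hBP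
  -- the number of bad pairs
  have hN1 : (BP.card : ℝ) ≤ ∑ m ∈ bad, (S.rr X m : ℝ) := by
    have h1 : BP.card = ∑ m ∈ bad, (BP.filter (fun q => mm q = m)).card := by
      apply Finset.card_eq_sum_card_fiberwise
      intro q hq
      exact (Finset.mem_filter.1 hq).2
    rw [h1]
    push_cast
    apply Finset.sum_le_sum
    intro m _
    have h2 : (BP.filter (fun q => mm q = m)).card ≤ S.rr X m := by
      unfold Sys.rr
      apply Finset.card_le_card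
      intro q hq
      rw [Finset.mem_filter] at hq
      rw [Finset.mem_filter]
      exact ⟨(Finset.mem_filter.1 hq.1).1, hq.2⟩
    exact_mod_cast h2
  have hN2 : (∑ m ∈ bad, (S.rr X m : ℝ)) ^ 2 ≤ (X ^ 2 / L) * (C₁ * X ^ 2 * lg ^ a) := by
    have h1 : (∑ m ∈ bad, (S.rr X m : ℝ)) ^ 2 ≤ bad.card * ∑ m ∈ bad, (S.rr X m : ℝ) ^ 2 :=
      sq_sum_le_card_mul_sum_sq
    have h2 : ∑ m ∈ bad, (S.rr X m : ℝ) ^ 2 ≤ ∑ m ∈ S.MF (X ^ 2), (S.rr X m : ℝ) ^ 2 := by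
      apply Finset.sum_le_sum_of_subset_of_nonneg (Finset.filter_subset _ _)
      intro _ _ _
      positivity
    have h3 := hrr X hX1 1 le_rfl
    have h4 : ∀ m : El, sm 1 m = m := by
      intro m
      unfold sm
      simp
    have h5 : tau 1 = 1 := by
      unfold tau
      simp
    simp only [h4, h5, Nat.cast_one, one_pow, div_one, mul_one] at h3
    have h6 : ∑ m ∈ bad, (S.rr X m : ℝ) ^ 2 ≤ C₁ * X ^ 2 * lg ^ a := h2.trans h3
    calc (∑ m ∈ bad, (S.rr X m : ℝ)) ^ 2 ≤ bad.card * ∑ m ∈ bad, (S.rr X m : ℝ) ^ 2 := h1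
      _ ≤ (X ^ 2 / L) * (C₁ * X ^ 2 * lg ^ a) := by
        apply mul_le_mul hbc h6
        · exact Finset.sum_nonneg fun _ _ => by positivity
        · positivity
  have hN3 : (BP.card : ℝ) ≤ C₁ * X ^ 2 * lg ^ a / Real.sqrt L := by
    have h1 : (BP.card : ℝ) ^ 2 ≤ (C₁ * X ^ 2 * lg ^ a / Real.sqrt L) ^ 2 := by
      calc (BP.card : ℝ) ^ 2 ≤ (∑ m ∈ bad, (S.rr X m : ℝ)) ^ 2 :=
            pow_le_pow_left₀ (by positivity) hN1 2
        _ ≤ (X ^ 2 / L) * (C₁ * X ^ 2 * lg ^ a) := hN2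
        _ = (C₁ * X ^ 2 * X ^ 2 * lg ^ a) / L := by
          field_simp
        _ ≤ (C₁ ^ 2 * X ^ 2 * X ^ 2 * (lg ^ a) ^ 2) / L := by
          gcongr
          · nlinarith
          · have : 1 ≤ lg ^ a := one_le_pow₀ hlg1
            nlinarith
        _ = (C₁ * X ^ 2 * lg ^ a / Real.sqrt L) ^ 2 := by
          rw [div_pow, Real.sq_sqrt hL0.le]
          ring
    exact le_of_sq_le_sq h1 (by positivity)
  -- every term
  have hterm : ∀ q ∈ S.MF X ×ˢ S.MF X,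
      ‖(gg b c h q.1 : ℂ) * (gg b c h q.2 : ℂ) * bilPhi F X (S.u q.1 + S.u q.2) - 1‖ ≤
        1 / L + if mm q ∈ bad then 2 else 0 := by
    intro q hq
    rw [Finset.mem_product] at hq
    obtain ⟨hv, hvX⟩ := (mem_MF S).1 hq.1
    obtain ⟨hw, hwX⟩ := (mem_MF S).1 hq.2
    have h1 := wd_nm S hv
    have h2 := wd_nm S hw
    have h4 : 0 < nm b c (ml b c q.1 q.2) := by
      rw [nm_ml]
      positivity
    rw [bil_term S hh F X hv hw]
    change ‖(gg b c h (mm q) : ℂ) * bilPhi F X (S.u (mm q)) - 1‖ ≤ _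
    have hmw : S.wd (mm q) := S.rp_wd _ h4
    have hmn : nm b c (mm q) = nm b c q.1 * nm b c q.2 := by
      rw [hmm]
      simp only
      rw [rp_nm S h4, nm_ml]
    have hmX : (nm b c (mm q) : ℝ) ≤ X ^ 2 := by
      rw [hmn]
      push_cast
      rw [sq]
      apply mul_le_mul hvX hwX
      · exact_mod_cast h2.le
      · exact hX0.le
    have hmM : mm q ∈ S.MF (X ^ 2) := (mem_MF S).2 ⟨hmw, hmX⟩
    have hgpm : gg b c h (mm q) = 1 ∨ gg b c h (mm q) = -1 :=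
      gg_pm hh (wd_nm S hmw).ne'
    have hgn : ‖(gg b c h (mm q) : ℂ)‖ = 1 := by
      rcases hgpm with h5 | h5 <;> rw [h5] <;> simp
    have hgs : (gg b c h (mm q) : ℂ) * (gg b c h (mm q) : ℂ) = 1 := by
      rcases hgpm with h5 | h5 <;> rw [h5] <;> simp
    have hZ : (1 : ℝ) ≤ X ^ 2 := one_le_pow₀ hX1
    have hfe := fejer hloc.per hloc.meas hloc.pm hZ (S.u (mm q))
    have hP1 : ‖bilPhi F X (S.u (mm q))‖ ≤ 1 := hfe.1
    by_cases hb : mm q ∈ bad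
    · rw [if_pos hb]
      calc ‖(gg b c h (mm q) : ℂ) * bilPhi F X (S.u (mm q)) - 1‖
          ≤ ‖(gg b c h (mm q) : ℂ) * bilPhi F X (S.u (mm q))‖ + ‖(1 : ℂ)‖ := norm_sub_le _ _
        _ ≤ 1 + 1 := by
          rw [norm_mul, hgn, one_mul, norm_one]
          linarith
        _ ≤ 1 / L + 2 := by
          have : 0 < 1 / L := by positivity
          linarith
    · rw [if_neg hb, add_zero]
      have hgood : ∀ s : ℝ, |s - S.u (mm q)| ≤ L / X ^ 2 → F s = gg b c h (mm q) := by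
        intro s hsu
        by_contra hne
        exact hb (Finset.mem_filter.2 ⟨hmM, s, hsu, hne⟩)
      have hη : L / X ^ 2 ≤ 1 / 2 := by
        rw [div_le_div_iff₀ (by positivity) (by norm_num)]
        nlinarith
      have h6 := hfe.2 (L / X ^ 2) (gg b c h (mm q)) (by positivity) hη hgood
      have h7 : ‖bilPhi F X (S.u (mm q)) - (gg b c h (mm q) : ℂ)‖ ≤ 1 / L := by
        have h8 : 1 / (X ^ 2 * (L / X ^ 2)) = 1 / L := by
          field_simp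
        rw [h8] at h6
        have h9 : (((gg b c h (mm q) : ℤ) : ℝ) : ℂ) = (gg b c h (mm q) : ℂ) := by
          push_cast
          rfl
        rw [h9] at h6
        exact h6
      have h8 : (gg b c h (mm q) : ℂ) * bilPhi F X (S.u (mm q)) - 1 =
          (gg b c h (mm q) : ℂ) * (bilPhi F X (S.u (mm q)) - (gg b c h (mm q) : ℂ)) := by
        rw [mul_sub, hgs]
      rw [h8, norm_mul, hgn, one_mul]
      exact h7
  -- the total
  have hcard : ((S.MF X ×ˢ S.MF X).card : ℝ) = M ^ 2 := by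
    rw [Finset.card_product, hM]
    push_cast
    ring
  have htot : ‖(∑ q ∈ S.MF X ×ˢ S.MF X, (gg b c h q.1 : ℂ) * (gg b c h q.2 : ℂ) *
      bilPhi F X (S.u q.1 + S.u q.2)) - (M : ℂ) ^ 2‖ ≤ M ^ 2 / L + 2 * BP.card := by
    have h1 : (M : ℂ) ^ 2 = ∑ q ∈ S.MF X ×ˢ S.MF X, (1 : ℂ) := by
      rw [Finset.sum_const, nsmul_eq_mul, mul_one]
      rw [← Complex.ofReal_pow, ← hcard]
      push_cast
      rfl
    rw [h1, ← Finset.sum_sub_distrib]
    calc ‖∑ q ∈ S.MF X ×ˢ S.MF X, ((gg b c h q.1 : ℂ) * (gg b c h q.2 : ℂ) *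
          bilPhi F X (S.u q.1 + S.u q.2) - 1)‖
        ≤ ∑ q ∈ S.MF X ×ˢ S.MF X, (1 / L + if mm q ∈ bad then (2 : ℝ) else 0) :=
          norm_sum_le_of_le _ hterm
      _ = M ^ 2 / L + 2 * BP.card := by
        rw [Finset.sum_add_distrib, Finset.sum_const, nsmul_eq_mul, hcard,
          ← Finset.sum_filter, Finset.sum_const, nsmul_eq_mul]
        ring
  rw [bil_expand]
  have hfin : M ^ 2 - (M ^ 2 / L + 2 * BP.card) ≤
      ‖∑ q ∈ S.MF X ×ˢ S.MF X, (gg b c h q.1 : ℂ) * (gg b c h q.2 : ℂ) *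
      bilPhi F X (S.u q.1 + S.u q.2)‖ := by
    have h1 : ‖(M : ℂ) ^ 2‖ = M ^ 2 := by
      rw [norm_pow, Complex.norm_real, Real.norm_eq_abs, abs_of_pos hM0]
    have h2 := norm_sub_norm_le ((M : ℂ) ^ 2)
      (∑ q ∈ S.MF X ×ˢ S.MF X, (gg b c h q.1 : ℂ) * (gg b c h q.2 : ℂ) *
      bilPhi F X (S.u q.1 + S.u q.2))
    rw [h1, norm_sub_rev] at h2
    linarith
  refine le_trans ?_ hfin
  have hsL : 0 < Real.sqrt L := Real.sqrt_pos.2 hL0
  have hsL1 : 1 ≤ Real.sqrt L := Real.one_le_sqrt.2 hL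
  have hX2 : X ^ 2 ≤ C₂ ^ 2 * M ^ 2 := by
    have h1 : X ≤ C₂ * M := by
      rw [div_le_iff₀ (by linarith)] at hM1
      linarith
    calc X ^ 2 ≤ (C₂ * M) ^ 2 := pow_le_pow_left₀ hX0.le h1 2
      _ = C₂ ^ 2 * M ^ 2 := by ring
  have hA : (BP.card : ℝ) ≤ C₁ * (C₂ ^ 2 * M ^ 2) * lg ^ a / Real.sqrt L := by
    refine hN3.trans ?_
    gcongr
  have hB : M ^ 2 / L ≤ M ^ 2 * lg ^ a / Real.sqrt L := by
    rw [div_le_div_iff₀ hL0 hsL]
    have h1 : 1 ≤ lg ^ a := one_le_pow₀ hlg1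
    have h2 : Real.sqrt L ≤ L := by
      nlinarith [Real.mul_self_sqrt hL0.le]
    calc M ^ 2 * Real.sqrt L ≤ M ^ 2 * L := by gcongr
      _ = M ^ 2 * 1 * L := by ring
      _ ≤ M ^ 2 * lg ^ a * L := by gcongr
  have hC : M ^ 2 * (1 - (1 + 2 * C₁ * C₂ ^ 2) * lg ^ a / Real.sqrt L) =
      M ^ 2 - (M ^ 2 * lg ^ a / Real.sqrt L +
        2 * (C₁ * (C₂ ^ 2 * M ^ 2) * lg ^ a / Real.sqrt L)) := by
    field_simp
  rw [hC]
  linarith

end Pool.Agent.MQ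

namespace Pool.Agent.MQ

theorem bilin : type_of% @bilin_pr := @bilin_pr

end Pool.Agent.MQ
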