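import Pool.Agent.Lib_helper39.MQ.Defs
import Pool.Agent.Lib_helper39.MQX.ALG
import Pool.Agent.Lib_helper39.MQX.SBA
import Pool.Agent.Lib_helper39.MQX.SBB

/-! MQ, block DUA: the dual inequality. -/

namespace Pool.Agent.MQ

open Filter Topology MeasureTheory

theorem dua_ex_add (x y : ℝ) : ex (x + y) = ex x * ex y := by
  unfold ex
  rw [← Complex.exp_add]
  congr 1
  push_cast
  ring

theorem dua_ex_conj (x : ℝ) : starRingEnd ℂ (ex x) = ex (-x) := by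
  unfold ex
  rw [← Complex.exp_conj]
  congr 1
  rw [map_mul, map_mul, map_mul, Complex.conj_I, Complex.conj_ofReal, Complex.conj_ofReal,
    map_ofNat]
  push_cast
  ring

theorem dua_es_neg {b c : ℤ} (S : Sys b c) (k : ℤ) (X : ℝ) :
    S.es (-k) X = starRingEnd ℂ (S.es k X) := by
  unfold Sys.es
  rw [map_sum]
  refine Finset.sum_congr rfl fun v _ => ?_
  rw [dua_ex_conj]
  congr 1
  push_cast
  ring

theorem dua_es_norm {b c : ℤ} (S : Sys b c) (k k' : ℤ) (X : ℝ) :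
    ‖S.es (k - k') X‖ = ‖S.es (k' - k) X‖ := by
  rw [← neg_sub, dua_es_neg, RCLike.norm_conj]

theorem dual_sum_pr {b c : ℤ} (S : Sys b c) {h : ℕ → ℤ} (hh : Sgn h) (X : ℝ) (T : Finset ℤ)
    (R : ℝ) (hR0 : 0 ≤ R) (hR : ∀ k ∈ T, ∑ k' ∈ T, ‖S.es (k - k') X‖ ≤ R) :
    ∑ k ∈ T, ‖S.As h k X‖ ^ 2 ≤ ((S.MF X).card : ℝ) * R := by
  classical
  set A : ℤ → ℂ := fun k => S.As h k X with hA
  set Q : ℝ := ∑ k ∈ T, ‖A k‖ ^ 2 with hQ
  have hQ0 : 0 ≤ Q := Finset.sum_nonneg fun k _ => by positivity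
  -- the dual form
  set D : El → ℂ := fun v => ∑ k ∈ T, starRingEnd ℂ (A k) * ex (k * S.u v) with hD
  have h1 : (Q : ℂ) = ∑ v ∈ S.MF X, (gg b c h v : ℂ) * D v := by
    have e1 : ∀ k : ℤ, ((‖A k‖ ^ 2 : ℝ) : ℂ) = starRingEnd ℂ (A k) * A k := by
      intro k
      rw [mul_comm, Complex.mul_conj, Complex.normSq_eq_norm_sq]
    rw [hQ, Complex.ofReal_sum]
    simp_rw [e1, hD, Finset.mul_sum]
    rw [Finset.sum_comm]
    refine Finset.sum_congr rfl fun k _ => ?_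
    have e2 : A k = ∑ v ∈ S.MF X, (gg b c h v : ℂ) * ex (k * S.u v) := rfl
    conv_lhs => rw [e2, Finset.mul_sum]
    refine Finset.sum_congr rfl fun v _ => ?_
    rw [← e2]
    ring
  have hg : ∀ v ∈ S.MF X, ‖(gg b c h v : ℂ)‖ = 1 := by
    intro v hv
    have hv1 := wd_nm S ((mem_MF S).1 hv).1
    rcases gg_pm hh hv1.ne' with h0 | h0 <;> rw [h0] <;> simp
  have h2 : Q ≤ ∑ v ∈ S.MF X, ‖D v‖ := by
    have e : Q = ‖(Q : ℂ)‖ := by rw [Complex.norm_real, Real.norm_eq_abs, abs_of_nonneg hQ0]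
    rw [e, h1]
    refine (norm_sum_le _ _).trans (le_of_eq (Finset.sum_congr rfl fun v hv => ?_))
    rw [norm_mul, hg v hv, one_mul]
  have h3 : Q ^ 2 ≤ ((S.MF X).card : ℝ) * ∑ v ∈ S.MF X, ‖D v‖ ^ 2 := by
    have h4 : Q ^ 2 ≤ (∑ v ∈ S.MF X, ‖D v‖) ^ 2 := by gcongr
    exact h4.trans (sq_sum_le_card_mul_sum_sq)
  have h5 : ((∑ v ∈ S.MF X, ‖D v‖ ^ 2 : ℝ) : ℂ) =
      ∑ k ∈ T, ∑ k' ∈ T, starRingEnd ℂ (A k) * A k' * S.es (k - k') X := by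
    rw [Complex.ofReal_sum]
    have e1 : ∀ v : El, ((‖D v‖ ^ 2 : ℝ) : ℂ) =
        ∑ k ∈ T, ∑ k' ∈ T, starRingEnd ℂ (A k) * A k' * ex ((k - k' : ℤ) * S.u v) := by
      intro v
      have e2 : ((‖D v‖ ^ 2 : ℝ) : ℂ) = D v * starRingEnd ℂ (D v) := by
        rw [Complex.mul_conj, Complex.normSq_eq_norm_sq]
      rw [e2, hD]
      simp only
      rw [map_sum, Finset.sum_mul_sum]
      refine Finset.sum_congr rfl fun k _ => Finset.sum_congr rfl fun k' _ => ?_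
      rw [map_mul, RingHomCompTriple.comp_apply, dua_ex_conj, RingHom.id_apply,
        show (((k - k' : ℤ) : ℝ) * S.u v) = (k : ℝ) * S.u v + -((k' : ℝ) * S.u v) by
          push_cast; ring, dua_ex_add]
      ring
    simp_rw [e1]
    rw [Finset.sum_comm]
    refine Finset.sum_congr rfl fun k _ => ?_
    rw [Finset.sum_comm]
    refine Finset.sum_congr rfl fun k' _ => ?_
    rw [← Finset.mul_sum]
    rfl
  have h6 : ∑ v ∈ S.MF X, ‖D v‖ ^ 2 ≤ R * Q := by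
    have hn : 0 ≤ ∑ v ∈ S.MF X, ‖D v‖ ^ 2 := Finset.sum_nonneg fun v _ => by positivity
    have e : ∑ v ∈ S.MF X, ‖D v‖ ^ 2 = ‖((∑ v ∈ S.MF X, ‖D v‖ ^ 2 : ℝ) : ℂ)‖ := by
      rw [Complex.norm_real, Real.norm_eq_abs, abs_of_nonneg hn]
    rw [e, h5]
    have h7 : ‖∑ k ∈ T, ∑ k' ∈ T, starRingEnd ℂ (A k) * A k' * S.es (k - k') X‖ ≤
        ∑ k ∈ T, ∑ k' ∈ T, ((‖A k‖ ^ 2 + ‖A k'‖ ^ 2) / 2 * ‖S.es (k - k') X‖) := by
      refine (norm_sum_le _ _).trans (Finset.sum_le_sum fun k _ => ?_)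
      refine (norm_sum_le _ _).trans (Finset.sum_le_sum fun k' _ => ?_)
      rw [norm_mul, norm_mul, RCLike.norm_conj]
      gcongr
      nlinarith [sq_nonneg (‖A k‖ - ‖A k'‖)]
    refine h7.trans ?_
    have h8 : ∑ k ∈ T, ∑ k' ∈ T, ((‖A k‖ ^ 2 + ‖A k'‖ ^ 2) / 2 * ‖S.es (k - k') X‖) =
        (∑ k ∈ T, ∑ k' ∈ T, ‖A k‖ ^ 2 * ‖S.es (k - k') X‖) / 2 +
          (∑ k ∈ T, ∑ k' ∈ T, ‖A k'‖ ^ 2 * ‖S.es (k - k') X‖) / 2 := by
      rw [Finset.sum_div, Finset.sum_div, ← Finset.sum_add_distrib]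
      refine Finset.sum_congr rfl fun k _ => ?_
      rw [Finset.sum_div, Finset.sum_div, ← Finset.sum_add_distrib]
      refine Finset.sum_congr rfl fun k' _ => ?_
      ring
    have h9 : ∑ k ∈ T, ∑ k' ∈ T, ‖A k'‖ ^ 2 * ‖S.es (k - k') X‖ =
        ∑ k ∈ T, ∑ k' ∈ T, ‖A k‖ ^ 2 * ‖S.es (k - k') X‖ := by
      rw [Finset.sum_comm]
      refine Finset.sum_congr rfl fun k _ => Finset.sum_congr rfl fun k' _ => ?_
      rw [dua_es_norm]
    have h10 : ∑ k ∈ T, ∑ k' ∈ T, ‖A k‖ ^ 2 * ‖S.es (k - k') X‖ ≤ R * Q := by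
      rw [hQ, Finset.mul_sum]
      refine Finset.sum_le_sum fun k hk => ?_
      rw [← Finset.mul_sum, mul_comm R]
      gcongr
      exact hR k hk
    rw [h8, h9]
    linarith
  have h11 : Q * Q ≤ ((S.MF X).card : ℝ) * R * Q := by
    calc Q * Q = Q ^ 2 := by ring
      _ ≤ ((S.MF X).card : ℝ) * ∑ v ∈ S.MF X, ‖D v‖ ^ 2 := h3
      _ ≤ ((S.MF X).card : ℝ) * (R * Q) := by gcongr
      _ = _ := by ring
  rcases hQ0.eq_or_lt with h0 | h0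
  · rw [← h0]
    positivity
  · exact le_of_mul_le_mul_right h11 h0

end Pool.Agent.MQ

namespace Pool.Agent.MQ

theorem dual_sum : type_of% @dual_sum_pr := @dual_sum_pr

end Pool.Agent.MQ
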