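import Pool.Agent.Lib_helper39.MQ.Defs
import Pool.Agent.Lib_helper39.MQX.ALG
import Pool.Agent.Lib_helper39.MQX.EXP
import Pool.Agent.Lib_helper39.MQX.SBA
import Pool.Agent.Lib_helper39.MQX.SBB

/-! MQ. Block NOF: no frequency is almost constant. -/

namespace Pool.Agent.MQ

open Filter Topology MeasureTheory

theorem nof_unit (T : ℂ) : ∃ w : ℂ, ‖w‖ = 1 ∧ w * T = (‖T‖ : ℂ) := by
  by_cases hT : T = 0
  · exact ⟨1, by simp, by simp [hT]⟩
  · have hn : ‖T‖ ≠ 0 := norm_ne_zero_iff.2 hT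
    have hn' : (‖T‖ : ℂ) ≠ 0 := by exact_mod_cast hn
    refine ⟨(starRingEnd ℂ) T / (‖T‖ : ℂ), ?_, ?_⟩
    · rw [norm_div, RCLike.norm_conj, Complex.norm_real, norm_norm, div_self hn]
    · rw [div_mul_eq_mul_div, mul_comm ((starRingEnd ℂ) T) T, Complex.mul_conj,
        Complex.normSq_eq_norm_sq]
      push_cast
      field_simp

/-- the squares of unit numbers with a large sum have a large sum -/
theorem nof_sq {ι : Type*} (s : Finset ι) (z : ι → ℂ) (hz : ∀ i ∈ s, ‖z i‖ = 1) {δ : ℝ}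
    (h0 : 0 ≤ δ) (h1 : δ ≤ 1) (hs : (1 - δ) * s.card ≤ ‖∑ i ∈ s, z i‖) :
    (1 - 4 * δ) * s.card ≤ ‖∑ i ∈ s, z i ^ 2‖ := by
  rcases s.eq_empty_or_nonempty with rfl | hne
  · simp
  have hn : (0 : ℝ) < s.card := by exact_mod_cast hne.card_pos
  obtain ⟨w, hw, hwT⟩ := nof_unit (∑ i ∈ s, z i)
  have hx : ∑ i ∈ s, (w * z i).re = ‖∑ i ∈ s, z i‖ := by
    have := congrArg Complex.re hwT
    rw [Complex.ofReal_re, Finset.mul_sum, Complex.re_sum] at this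
    exact this
  have hcs : (∑ i ∈ s, (w * z i).re) ^ 2 ≤ s.card * ∑ i ∈ s, (w * z i).re ^ 2 :=
    sq_sum_le_card_mul_sum_sq
  have hre : ∀ i ∈ s, ((w ^ 2 * z i ^ 2).re : ℝ) = 2 * (w * z i).re ^ 2 - 1 := by
    intro i hi
    have hnorm : ‖w * z i‖ = 1 := by rw [norm_mul, hw, hz i hi, one_mul]
    have h2 : (w * z i).re ^ 2 + (w * z i).im ^ 2 = 1 := by
      have h3 := Complex.sq_norm (w * z i)
      rw [hnorm, Complex.normSq_apply] at h3
      nlinarith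
    rw [← mul_pow, pow_two (w * z i), Complex.mul_re]
    nlinarith
  have hsum : (w ^ 2 * ∑ i ∈ s, z i ^ 2).re = 2 * ∑ i ∈ s, (w * z i).re ^ 2 - s.card := by
    rw [Finset.mul_sum, Complex.re_sum, Finset.sum_congr rfl hre, Finset.sum_sub_distrib,
      ← Finset.mul_sum]
    simp
  have hle : (w ^ 2 * ∑ i ∈ s, z i ^ 2).re ≤ ‖∑ i ∈ s, z i ^ 2‖ := by
    have := Complex.re_le_norm (w ^ 2 * ∑ i ∈ s, z i ^ 2)
    rwa [norm_mul, norm_pow, hw, one_pow, one_mul] at this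
  rw [hx] at hcs
  have h5 : ((1 - δ) * s.card) ^ 2 ≤ ‖∑ i ∈ s, z i‖ ^ 2 :=
    pow_le_pow_left₀ (mul_nonneg (by linarith) hn.le) hs 2
  have h6 : (1 - δ) ^ 2 * s.card ≤ ∑ i ∈ s, (w * z i).re ^ 2 := by
    have h7 : (s.card : ℝ) * ((1 - δ) ^ 2 * s.card) ≤ s.card * ∑ i ∈ s, (w * z i).re ^ 2 := by
      calc (s.card : ℝ) * ((1 - δ) ^ 2 * s.card) = ((1 - δ) * s.card) ^ 2 := by ring
        _ ≤ _ := h5.trans hcs
    exact le_of_mul_le_mul_left h7 hn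
  have h8 : (1 - 4 * δ) * s.card ≤ 2 * ((1 - δ) ^ 2 * s.card) - s.card := by
    nlinarith [mul_nonneg (sq_nonneg δ) hn.le]
  linarith

theorem nof_ex_zero : ex 0 = 1 := by simp [ex]

theorem nof_ex_norm (t : ℝ) : ‖ex t‖ = 1 := by
  unfold ex
  rw [show (2 * Real.pi * Complex.I * t : ℂ) = ((2 * Real.pi * t : ℝ) : ℂ) * Complex.I by
    push_cast; ring]
  exact Complex.norm_exp_ofReal_mul_I _

theorem nof_ex_sq (t : ℝ) : ex t ^ 2 = ex (2 * t) := by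
  unfold ex
  rw [← Complex.exp_nat_mul]
  congr 1
  push_cast
  ring

section
variable {b c : ℤ} (S : Sys b c)

theorem nof_term {h : ℕ → ℤ} (hh : Sgn h) (k : ℤ) {v : El} (hv : 0 < nm b c v) :
    ‖(gg b c h v : ℂ) * ex (k * S.u v)‖ = 1 ∧
    ((gg b c h v : ℂ) * ex (k * S.u v)) ^ 2 = ex (((2 * k : ℤ) : ℝ) * S.u v) := by
  constructor
  · rw [norm_mul, nof_ex_norm, mul_one]
    rcases gg_pm hh hv.ne' with h1 | h1 <;> simp [h1]
  · rw [mul_pow, nof_ex_sq]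
    have h2 : ((gg b c h v : ℂ)) ^ 2 = 1 := by
      rcases gg_pm hh hv.ne' with h1 | h1 <;> simp [h1]
    rw [h2, one_mul]
    congr 1
    push_cast
    ring

/-- nonzero frequencies -/
theorem nof_nonzero {h : ℕ → ℤ} (hh : Sgn h) : ∃ X₀ : ℝ, ∀ X : ℝ, X₀ ≤ X →
    ∀ k ∈ KK (X ^ 2), k ≠ 0 → ‖S.As h k X‖ ≤ (1 - 1 / 8) * (S.MF X).card := by
  obtain ⟨κ, hκ, hκ1, hexp⟩ := exp_sum
  obtain ⟨X₀, hX₀⟩ := hexp b c S
  obtain ⟨C, hC, hMF⟩ := MF_card S
  refine ⟨max (max X₀ 3) ((2 * C + 1) ^ (1 / κ)), ?_⟩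
  intro X hX k hk hk0
  have hXa : X₀ ≤ X := (le_max_left _ _).trans ((le_max_left _ _).trans hX)
  have hXb : 3 ≤ X := (le_max_right _ _).trans ((le_max_left _ _).trans hX)
  have hXc : (2 * C + 1) ^ (1 / κ) ≤ X := (le_max_right _ _).trans hX
  have hXpos : 0 < X := by linarith
  by_contra hcon
  push Not at hcon
  have h1 := nof_sq (S.MF X) (fun v => (gg b c h v : ℂ) * ex (k * S.u v))
    (fun v hv => (nof_term S hh k (wd_nm S ((mem_MF S).1 hv).1)).1) (δ := 1 / 8)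
    (by norm_num) (by norm_num) hcon.le
  have h2 : ∑ v ∈ S.MF X, ((gg b c h v : ℂ) * ex (k * S.u v)) ^ 2 = S.es (2 * k) X := by
    unfold Sys.es
    exact Finset.sum_congr rfl fun v hv =>
      (nof_term S hh k (wd_nm S ((mem_MF S).1 hv).1)).2
  rw [h2] at h1
  have h3 : |((2 * k : ℤ) : ℝ)| ≤ X ^ 3 := by
    have h4 := Finset.mem_Ioo.1 hk
    have h5 : |(k : ℤ)| < ⌈X ^ 2⌉ := abs_lt.2 h4
    have h6 : (|(k : ℝ)|) < ⌈X ^ 2⌉ := by exact_mod_cast h5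
    have h7 := Int.ceil_lt_add_one (X ^ 2)
    have h8 : |((2 * k : ℤ) : ℝ)| = 2 * |(k : ℝ)| := by
      push_cast
      rw [abs_mul, abs_two]
    rw [h8]
    nlinarith [sq_nonneg X]
  have h4 := hX₀ X hXa (2 * k) (by omega) h3
  have h5 := (hMF X (by linarith)).1
  have h6 : (2 * C + 1) ≤ X ^ κ := by
    have h7 : ((2 * C + 1) ^ (1 / κ)) ^ κ ≤ X ^ κ :=
      Real.rpow_le_rpow (by positivity) hXc hκ.le
    rwa [← Real.rpow_mul (by positivity), one_div, inv_mul_cancel₀ hκ.ne', Real.rpow_one] at h7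
  have h7 : X ^ (1 - κ) = X / X ^ κ := by
    rw [Real.rpow_sub hXpos, Real.rpow_one]
  rw [h7] at h4
  have h8 : X / X ^ κ ≤ X / (2 * C + 1) := by
    apply div_le_div_of_nonneg_left hXpos.le (by linarith) h6
  have h9 : X / C / 2 ≤ X / (2 * C + 1) := by
    have : (1 - 4 * (1 / 8)) * ((S.MF X).card : ℝ) = ((S.MF X).card : ℝ) / 2 := by ring
    rw [this] at h1
    linarith
  rw [div_div, div_le_div_iff₀ (by positivity) (by positivity)] at h9
  nlinarith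

/-- frequency zero -/
theorem nof_zero {h : ℕ → ℤ} (hh : Sgn h)
    (hv : ∃ v : El, 0 < nm b c v ∧ gg b c h v = -1) : ∃ δ : ℝ, 0 < δ ∧ ∃ X₀ : ℝ, ∀ X : ℝ,
    X₀ ≤ X → ‖S.As h 0 X‖ ≤ (1 - δ) * (S.MF X).card := by
  obtain ⟨v0, hv0, hg0⟩ := hv
  obtain ⟨C, hC, hMF⟩ := MF_card S
  have hN : (1 : ℝ) ≤ nm b c v0 := by exact_mod_cast hv0
  refine ⟨1 / (nm b c v0 * C ^ 2), by positivity, nm b c v0, ?_⟩
  intro X hX
  have hX1 : 1 ≤ X := by linarith
  have key : ∀ σ : ℝ, (σ = 1 ∨ σ = -1) →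
      σ * ∑ v ∈ S.MF X, (gg b c h v : ℝ) ≤
        (1 - 1 / (nm b c v0 * C ^ 2)) * (S.MF X).card := by
    intro σ hσ
    have hnn : ∀ v ∈ S.MF X, 0 ≤ 1 - σ * (gg b c h v : ℝ) := by
      intro v hv
      rcases gg_pm hh (wd_nm S ((mem_MF S).1 hv).1).ne' with h1 | h1 <;>
        rcases hσ with rfl | rfl <;> rw [h1] <;> norm_num
    set Y : ℝ := X / nm b c v0 with hY
    have hY1 : 1 ≤ Y := by rw [hY, le_div_iff₀ (by linarith)]; linarith
    have hYX : Y ≤ X := by rw [hY]; exact div_le_self (by linarith) hN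
    have hmap : ∀ m ∈ S.MF Y, S.rp (ml b c v0 m) ∈ S.MF X := by
      intro m hm
      obtain ⟨hm1, hm2⟩ := (mem_MF S).1 hm
      have hm3 := wd_nm S hm1
      have hm4 : 0 < nm b c (ml b c v0 m) := by rw [nm_ml]; exact mul_pos hv0 hm3
      refine (mem_MF S).2 ⟨S.rp_wd _ hm4, ?_⟩
      rw [rp_nm S hm4, nm_ml]
      push_cast
      rw [hY, le_div_iff₀ (by linarith)] at hm2
      linarith
    have hinj : Set.InjOn (fun m => S.rp (ml b c v0 m)) (S.MF Y : Set El) := by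
      intro m hm m' hm' hmm
      exact rp_inj S hv0 ((mem_MF S).1 hm).1 ((mem_MF S).1 hm').1 hmm
    have hsub : S.MF Y ⊆ S.MF X := by
      intro m hm
      obtain ⟨hm1, hm2⟩ := (mem_MF S).1 hm
      exact (mem_MF S).2 ⟨hm1, hm2.trans hYX⟩
    have h1 : ∑ m ∈ S.MF Y, (1 - σ * (gg b c h m : ℝ)) ≤
        ∑ m ∈ S.MF X, (1 - σ * (gg b c h m : ℝ)) :=
      Finset.sum_le_sum_of_subset_of_nonneg hsub fun v hv _ => hnn v hv
    have h2 : ∑ m ∈ S.MF Y, (1 - σ * (gg b c h (S.rp (ml b c v0 m)) : ℝ)) ≤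
        ∑ m ∈ S.MF X, (1 - σ * (gg b c h m : ℝ)) := by
      rw [← Finset.sum_image (s := S.MF Y) (g := fun m => S.rp (ml b c v0 m))
        (f := fun m => (1 - σ * (gg b c h m : ℝ))) hinj]
      apply Finset.sum_le_sum_of_subset_of_nonneg _ fun v hv _ => hnn v hv
      intro m hm
      obtain ⟨m', hm', rfl⟩ := Finset.mem_image.1 hm
      exact hmap m' hm'
    have h3 : ∑ m ∈ S.MF Y, (1 - σ * (gg b c h m : ℝ)) +
        ∑ m ∈ S.MF Y, (1 - σ * (gg b c h (S.rp (ml b c v0 m)) : ℝ)) =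
        2 * (S.MF Y).card := by
      rw [← Finset.sum_add_distrib]
      rw [Finset.sum_congr rfl (g := fun _ => (2 : ℝ))]
      · simp [mul_comm]
      · intro m hm
        have hm3 := wd_nm S ((mem_MF S).1 hm).1
        have hm4 : 0 < nm b c (ml b c v0 m) := by rw [nm_ml]; exact mul_pos hv0 hm3
        rw [gg_rp S h hm4, gg_ml hh hv0.ne' hm3.ne', hg0]
        push_cast
        ring
    have h4 : ∑ m ∈ S.MF X, (1 - σ * (gg b c h m : ℝ)) =
        (S.MF X).card - σ * ∑ v ∈ S.MF X, (gg b c h v : ℝ) := by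
      rw [Finset.sum_sub_distrib, ← Finset.mul_sum]
      simp
    have h5 := (hMF Y hY1).1
    have h6 := (hMF X hX1).2
    have h7 : ((S.MF X).card : ℝ) / (nm b c v0 * C ^ 2) ≤ (S.MF Y).card := by
      refine le_trans ?_ h5
      rw [hY, div_div, div_le_div_iff₀ (by positivity) (by positivity)]
      have : ((S.MF X).card : ℝ) * (nm b c v0 * C) ≤ C * X * (nm b c v0 * C) :=
        mul_le_mul_of_nonneg_right h6 (by positivity)
      linarith
    have h8 : (1 - 1 / (nm b c v0 * C ^ 2)) * ((S.MF X).card : ℝ) =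
        (S.MF X).card - ((S.MF X).card : ℝ) / (nm b c v0 * C ^ 2) := by
      ring
    rw [h8]
    linarith
  have hA : S.As h 0 X = ((∑ v ∈ S.MF X, (gg b c h v : ℝ) : ℝ) : ℂ) := by
    unfold Sys.As
    push_cast
    refine Finset.sum_congr rfl fun v _ => ?_
    rw [zero_mul, nof_ex_zero, mul_one]
  rw [hA, Complex.norm_real, Real.norm_eq_abs, abs_le']
  constructor
  · have := key 1 (Or.inl rfl)
    linarith
  · have := key (-1) (Or.inr rfl)
    linarith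

end

theorem no_freq_pr {b c : ℤ} (S : Sys b c) (hs : ¬ IsSquare (dsc b c)) {h : ℕ → ℤ} (hh : Sgn h)
    (hv : ∃ v : El, 0 < nm b c v ∧ gg b c h v = -1) : ∃ δ : ℝ, 0 < δ ∧ ∃ X₀ : ℝ, ∀ X : ℝ,
    X₀ ≤ X → ∀ k ∈ KK (X ^ 2), ‖S.As h k X‖ ≤ (1 - δ) * (S.MF X).card := by
  obtain ⟨δ, hδ, X₁, h1⟩ := nof_zero S hh hv
  obtain ⟨X₂, h2⟩ := nof_nonzero S hh
  refine ⟨min δ (1 / 8), lt_min hδ (by norm_num), max X₁ X₂, ?_⟩
  intro X hX k hk
  by_cases hk0 : k = 0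
  · subst hk0
    refine (h1 X ((le_max_left _ _).trans hX)).trans ?_
    have := min_le_left δ (1 / 8)
    gcongr
  · refine (h2 X ((le_max_right _ _).trans hX) k hk hk0).trans ?_
    have := min_le_right δ (1 / 8)
    gcongr

end Pool.Agent.MQ

namespace Pool.Agent.MQ

theorem no_freq : type_of% @no_freq_pr := @no_freq_pr

end Pool.Agent.MQ
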