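import Pool.Agent.Lib_helper39.MQ.Defs
import Pool.Agent.Lib_helper39.MQX.ALG
import Pool.Agent.Lib_helper39.MQX.SBA
import Pool.Agent.Lib_helper90.PNT.WienerIkehara

/-! MQ. Block PRM: prime elements. -/

namespace Pool.Agent.MQ

open Filter Topology MeasureTheory

theorem prm_sq {D z y : ℤ} (hy : y ≠ 0) (h : z ^ 2 = D * y ^ 2) : IsSquare D := by
  have h1 : y ^ 2 ∣ z ^ 2 := ⟨D, by rw [h]; ring⟩
  obtain ⟨w, hw⟩ := (Int.pow_dvd_pow_iff two_ne_zero).1 h1
  refine ⟨w, ?_⟩
  have h2 : y ^ 2 * (w * w) = y ^ 2 * D := by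
    rw [hw] at h
    linear_combination h
  exact (mul_left_cancel₀ (pow_ne_zero 2 hy) h2).symm

theorem prm_nm_ne {b c : ℤ} (hs : ¬ IsSquare (dsc b c)) {v : El} (hv : v ≠ (0, 0)) :
    nm b c v ≠ 0 := by
  intro h
  have h1 : (2 * v.1 + b * v.2) ^ 2 = dsc b c * v.2 ^ 2 := by
    unfold nm at h; unfold dsc
    linear_combination 4 * h
  by_cases h2 : v.2 = 0
  · apply hv
    rw [h2] at h1
    have h3 : v.1 = 0 := by
      have : (2 * v.1) ^ 2 = 0 := by linear_combination h1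
      have := pow_eq_zero_iff (two_ne_zero) |>.1 this
      linarith
    exact Prod.ext h3 h2
  · exact hs (prm_sq h2 h1)

/-- a root modulo `p` -/
theorem prm_root {b c : ℤ} {p : ℕ} (hp : p.Prime) (hD0 : dsc b c ≠ 0)
    (hpD : ¬ (p : ℤ) ∣ dsc b c) (h1 : p % (4 * (dsc b c).natAbs) = 1) :
    ∃ t : ZMod p, t ^ 2 + b * t + c = 0 := by
  have : Fact p.Prime := ⟨hp⟩
  have hna : 1 ≤ (dsc b c).natAbs := Int.natAbs_pos.mpr hD0
  have hodd : Odd p := by
    rcases hp.eq_two_or_odd' with h | h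
    · exfalso
      rw [h, Nat.mod_eq_of_lt (by omega)] at h1
      omega
    · exact h
  have hJ : jacobiSym (dsc b c) p = 1 := by
    rw [jacobiSym.mod_right _ hodd, h1]
    exact jacobiSym.one_right _
  rw [← jacobiSym.legendreSym.to_jacobiSym] at hJ
  have hD : ((dsc b c : ℤ) : ZMod p) ≠ 0 := by
    intro h
    rw [ZMod.intCast_zmod_eq_zero_iff_dvd] at h
    exact hpD h
  obtain ⟨r, hr⟩ := (legendreSym.eq_one_iff p hD).mp hJ
  have h2 : (2 : ZMod p) ≠ 0 := by
    intro h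
    have : ((2 : ℕ) : ZMod p) = 0 := by exact_mod_cast h
    rw [ZMod.natCast_eq_zero_iff] at this
    have := Nat.le_of_dvd two_pos this
    have := hp.two_le
    have : p = 2 := by omega
    subst this
    exact absurd hodd (by decide)
  refine ⟨(r - b) / 2, ?_⟩
  unfold dsc at hr
  push_cast at hr
  field_simp
  linear_combination (-1) * hr

/-- Thue -/
theorem prm_thue {p : ℕ} (hp : p.Prime) (t : ZMod p) : ∃ x y : ℤ, (x, y) ≠ ((0, 0) : ℤ × ℤ) ∧
    x ^ 2 ≤ p ∧ y ^ 2 ≤ p ∧ (x : ZMod p) = t * y := by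
  have : NeZero p := ⟨hp.ne_zero⟩
  set m := Nat.sqrt p with hm
  have hm1 : m ^ 2 ≤ p := Nat.sqrt_le' p
  have hm2 : p < (m + 1) ^ 2 := Nat.lt_succ_sqrt' p
  have hcard : (Finset.univ : Finset (ZMod p)).card <
      ((Finset.range (m + 1)) ×ˢ (Finset.range (m + 1))).card := by
    rw [Finset.card_univ, ZMod.card, Finset.card_product, Finset.card_range, ← sq]
    exact hm2
  obtain ⟨q, hq, q', hq', hne, he⟩ := Finset.exists_ne_map_eq_of_card_lt_of_maps_to hcard
    (f := fun q : ℕ × ℕ => (q.1 : ZMod p) - t * q.2) (fun _ _ => Finset.mem_univ _)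
  simp only [Finset.mem_product, Finset.mem_range] at hq hq'
  refine ⟨(q.1 : ℤ) - q'.1, (q.2 : ℤ) - q'.2, ?_, ?_, ?_, ?_⟩
  · intro h
    apply hne
    rw [Prod.mk.injEq] at h
    ext
    · have := h.1; omega
    · have := h.2; omega
  · have h1 : |(q.1 : ℤ) - q'.1| ≤ m := by rw [abs_le]; omega
    have h2 : ((q.1 : ℤ) - q'.1) ^ 2 ≤ (m : ℤ) ^ 2 := by
      rw [← sq_abs]; exact pow_le_pow_left₀ (abs_nonneg _) h1 2
    have h3 : (m : ℤ) ^ 2 ≤ p := by exact_mod_cast hm1
    linarith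
  · have h1 : |(q.2 : ℤ) - q'.2| ≤ m := by rw [abs_le]; omega
    have h2 : ((q.2 : ℤ) - q'.2) ^ 2 ≤ (m : ℤ) ^ 2 := by
      rw [← sq_abs]; exact pow_le_pow_left₀ (abs_nonneg _) h1 2
    have h3 : (m : ℤ) ^ 2 ≤ p := by exact_mod_cast hm1
    linarith
  · push_cast
    linear_combination he

/-- an element of norm `k p` -/
theorem prm_el {b c : ℤ} (hs : ¬ IsSquare (dsc b c)) {p : ℕ} (hp : p.Prime)
    (hpD : ¬ (p : ℤ) ∣ dsc b c) (h1 : p % (4 * (dsc b c).natAbs) = 1) :
    ∃ (v : El) (k : ℕ), 1 ≤ k ∧ k ≤ (1 + b.natAbs + c.natAbs) * (1 + (dsc b c).natAbs) ∧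
      nm b c v = k * p := by
  have hD0 : dsc b c ≠ 0 := fun h => hs (by rw [h]; exact ⟨0, rfl⟩)
  have hp0 : (0 : ℤ) < p := by exact_mod_cast hp.pos
  obtain ⟨t, ht⟩ := prm_root hp hD0 hpD h1
  obtain ⟨x, y, hne, hx, hy, hxy⟩ := prm_thue hp t
  have hnm0 : nm b c (x, y) ≠ 0 := prm_nm_ne hs hne
  have hdvd : (p : ℤ) ∣ nm b c (x, y) := by
    rw [← ZMod.intCast_zmod_eq_zero_iff_dvd]
    unfold nm
    push_cast
    rw [hxy]
    linear_combination (y : ZMod p) ^ 2 * ht
  obtain ⟨k, hk⟩ := hdvd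
  have hk0 : k ≠ 0 := by
    rintro rfl; rw [mul_zero] at hk; exact hnm0 hk
  have hbound : k.natAbs ≤ 1 + b.natAbs + c.natAbs := by
    have h2 : |nm b c (x, y)| ≤ (1 + |b| + |c|) * p := by
      unfold nm
      simp only
      have hxy2 : |x * y| ≤ p := by
        have : 2 * |x * y| ≤ x ^ 2 + y ^ 2 := by
          rw [abs_mul]
          have := sq_nonneg (|x| - |y|)
          rw [← sq_abs x, ← sq_abs y]
          nlinarith
        linarith
      calc |x ^ 2 + b * x * y + c * y ^ 2| ≤ |x ^ 2| + |b * x * y| + |c * y ^ 2| := abs_add_three _ _ _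
        _ = x ^ 2 + |b| * |x * y| + |c| * y ^ 2 := by
            rw [abs_mul c, abs_of_nonneg (sq_nonneg x), abs_of_nonneg (sq_nonneg y), mul_assoc,
              abs_mul b]
        _ ≤ p + |b| * p + |c| * p := by
            have := mul_le_mul_of_nonneg_left hxy2 (abs_nonneg b)
            have := mul_le_mul_of_nonneg_left hy (abs_nonneg c)
            linarith
        _ = _ := by ring
    rw [hk, abs_mul, abs_of_pos hp0] at h2
    have h3 : |k| ≤ 1 + |b| + |c| := by
      have : (p : ℤ) * |k| ≤ p * (1 + |b| + |c|) := by linarith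
      exact le_of_mul_le_mul_left this hp0
    rw [Int.abs_eq_natAbs, Int.abs_eq_natAbs, Int.abs_eq_natAbs] at h3
    exact_mod_cast h3
  rcases lt_or_gt_of_ne hk0 with hneg | hpos
  · -- multiply by an element of norm `- D`; the discriminant is positive
    have hDpos : 0 < dsc b c := by
      by_contra hc
      have hc' : dsc b c < 0 := lt_of_le_of_ne (not_lt.1 hc) hD0
      have h4 : 4 * nm b c (x, y) = (2 * x + b * y) ^ 2 - dsc b c * y ^ 2 := by
        unfold nm dsc; ring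
      have h5 : nm b c (x, y) < 0 := by
        rw [hk]; exact mul_neg_of_pos_of_neg hp0 hneg
      have h6 : 0 ≤ - dsc b c * y ^ 2 := mul_nonneg (by linarith) (sq_nonneg y)
      nlinarith [sq_nonneg (2 * x + b * y)]
    refine ⟨ml b c (-b, 2) (x, y), (-k).toNat * (dsc b c).natAbs, ?_, ?_, ?_⟩
    · have : 1 ≤ (-k).toNat := by omega
      have : 1 ≤ (dsc b c).natAbs := by omega
      exact Nat.mul_pos (by omega) (by omega)
    · apply Nat.mul_le_mul
      · omega
      · omega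
    · rw [nm_ml, hk]
      have e1 : (((-k).toNat : ℕ) : ℤ) = -k := Int.toNat_of_nonneg (by linarith)
      have e2 : (((dsc b c).natAbs : ℕ) : ℤ) = dsc b c := Int.natAbs_of_nonneg hDpos.le
      push_cast
      rw [e1, abs_of_pos hDpos]
      unfold nm dsc
      simp only
      ring
  · refine ⟨(x, y), k.toNat, by omega, ?_, ?_⟩
    · calc k.toNat ≤ (1 + b.natAbs + c.natAbs) * 1 := by omega
        _ ≤ _ := Nat.mul_le_mul_left _ (by omega)
    · rw [hk, Int.toNat_of_nonneg hpos.le]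
      ring

open ArithmeticFunction in
/-- the number of primes in a progression -/
theorem prm_count (q : ℕ) (hq : 2 ≤ q) {ε : ℝ} (hε : 0 < ε) (M : ℝ) : ∃ Y₀ : ℝ, ∀ Y : ℝ, Y₀ ≤ Y →
    M * Y ^ (1 - ε) ≤
      (((Finset.Ioc 0 ⌊Y⌋₊).filter (fun p : ℕ => p.Prime ∧ p % q = 1)).card : ℝ) := by
  have : NeZero q := ⟨by omega⟩
  have hφ : (0 : ℝ) < (q.totient : ℝ)⁻¹ := by
    have : 0 < q.totient := Nat.totient_pos.2 (by omega)
    positivity
  set φ : ℝ := (q.totient : ℝ)⁻¹ with hφd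
  have h1 := Pool.Agent.Lib_helper90.PNT.pnt_residueClass (q := q) (a := 1) isUnit_one
  have h2 : ∀ᶠ x : ℝ in atTop, φ / 2 < (∑ k ∈ Finset.Icc 1 ⌊x⌋₊, vonMangoldt.residueClass (1 : ZMod q) k) / x :=
    h1.eventually_const_lt (by rw [← hφd]; linarith)
  obtain ⟨C, hC⟩ := Chebyshev.psi_sub_theta_le_mul_sqrt
  -- `C √x ≤ φ/4 x`
  have h3 : ∀ᶠ x : ℝ in atTop, C * Real.sqrt x ≤ φ / 4 * x := by
    have h4 : ∀ᶠ x : ℝ in atTop, C / (φ / 4) ≤ Real.sqrt x :=
      Real.tendsto_sqrt_atTop.eventually_ge_atTop _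
    filter_upwards [h4, eventually_gt_atTop 0] with x hx hx0
    rw [div_le_iff₀ (by positivity)] at hx
    have hs : Real.sqrt x * Real.sqrt x = x := Real.mul_self_sqrt hx0.le
    calc C * Real.sqrt x ≤ (Real.sqrt x * (φ / 4)) * Real.sqrt x :=
          mul_le_mul_of_nonneg_right hx (Real.sqrt_nonneg x)
      _ = φ / 4 * (Real.sqrt x * Real.sqrt x) := by ring
      _ = _ := by rw [hs]
  -- `M log x ≤ φ/4 x^ε`
  have h5 : ∀ᶠ x : ℝ in atTop, M * Real.log x ≤ φ / 4 * x ^ ε := by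
    have h6 := (isLittleO_log_rpow_atTop hε).bound (c := φ / 4 / (|M| + 1)) (by positivity)
    filter_upwards [h6, eventually_gt_atTop 1] with x hx hx1
    have hl : 0 ≤ Real.log x := Real.log_nonneg hx1.le
    have hr : 0 ≤ x ^ ε := Real.rpow_nonneg (by linarith) _
    rw [Real.norm_of_nonneg hl, Real.norm_of_nonneg hr] at hx
    calc M * Real.log x ≤ (|M| + 1) * Real.log x :=
          mul_le_mul_of_nonneg_right (by linarith [le_abs_self M]) hl
      _ ≤ (|M| + 1) * (φ / 4 / (|M| + 1) * x ^ ε) :=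
          mul_le_mul_of_nonneg_left hx (by positivity)
      _ = _ := by field_simp
  have h7 : ∀ᶠ x : ℝ in atTop, M * x ^ (1 - ε) ≤
      (((Finset.Ioc 0 ⌊x⌋₊).filter (fun p : ℕ => p.Prime ∧ p % q = 1)).card : ℝ) := by
    filter_upwards [h2, h3, h5, eventually_gt_atTop 1] with x a2 a3 a5 hx1
    have hx0 : 0 < x := by linarith
    have hl : 0 < Real.log x := Real.log_pos hx1
    rw [lt_div_iff₀ hx0] at a2
    set Q := (Finset.Ioc 0 ⌊x⌋₊).filter (fun p : ℕ => p.Prime ∧ p % q = 1) with hQ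
    -- upper bound for the sum
    have h8 : ∑ k ∈ Finset.Icc 1 ⌊x⌋₊, vonMangoldt.residueClass (1 : ZMod q) k ≤
        Q.card * Real.log x + (Chebyshev.psi x - Chebyshev.theta x) := by
      have e1 : Chebyshev.psi x - Chebyshev.theta x =
          ∑ n ∈ (Finset.Ioc 0 ⌊x⌋₊).filter (fun n => ¬ n.Prime), vonMangoldt n := by
        rw [Chebyshev.psi, Chebyshev.theta,
          ← Finset.sum_filter_add_sum_filter_not (Finset.Ioc 0 ⌊x⌋₊) (fun n => n.Prime)]
        have : ∑ n ∈ (Finset.Ioc 0 ⌊x⌋₊).filter (fun n => n.Prime), vonMangoldt n =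
            ∑ p ∈ (Finset.Ioc 0 ⌊x⌋₊).filter (fun n => n.Prime), Real.log p := by
          apply Finset.sum_congr rfl
          intro n hn
          rw [vonMangoldt_apply_prime (Finset.mem_filter.1 hn).2]
        rw [this]; ring
      have e0 : Finset.Icc 1 ⌊x⌋₊ = Finset.Ioc 0 ⌊x⌋₊ := by
        ext n; simp [Nat.succ_le_iff]
      rw [e0, ← Finset.sum_filter_add_sum_filter_not (Finset.Ioc 0 ⌊x⌋₊) (fun n => n.Prime), e1]
      apply add_le_add
      · have e2 : ∑ n ∈ (Finset.Ioc 0 ⌊x⌋₊).filter (fun n => n.Prime),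
            vonMangoldt.residueClass (1 : ZMod q) n ≤ ∑ n ∈ Q, Real.log x := by
          have hsub : Q ⊆ (Finset.Ioc 0 ⌊x⌋₊).filter (fun n => n.Prime) := by
            intro n hn
            rw [hQ, Finset.mem_filter] at hn
            rw [Finset.mem_filter]
            exact ⟨hn.1, hn.2.1⟩
          rw [← Finset.sum_subset hsub]
          · apply Finset.sum_le_sum
            intro n hn
            rw [hQ, Finset.mem_filter, Finset.mem_Ioc] at hn
            obtain ⟨⟨hn1, hn2⟩, hn3, hn4⟩ := hn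
            refine (vonMangoldt.residueClass_le (1 : ZMod q) n).trans ?_
            rw [vonMangoldt_apply_prime hn3]
            apply Real.log_le_log (by exact_mod_cast hn1)
            exact (Nat.le_floor_iff hx0.le).1 hn2
          · intro n hn hnQ
            rw [Finset.mem_filter] at hn
            unfold vonMangoldt.residueClass
            apply Set.indicator_of_notMem
            intro hmem
            apply hnQ
            rw [hQ, Finset.mem_filter]
            refine ⟨hn.1, hn.2, ?_⟩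
            have h9 : ((n : ℕ) : ZMod q) = ((1 : ℕ) : ZMod q) := by
              simpa using hmem
            rw [ZMod.natCast_eq_natCast_iff] at h9
            unfold Nat.ModEq at h9
            rw [h9, Nat.mod_eq_of_lt (by omega)]
        rw [Finset.sum_const, nsmul_eq_mul] at e2
        exact e2
      · apply Finset.sum_le_sum
        intro n _
        exact vonMangoldt.residueClass_le (1 : ZMod q) n
    have h9 := hC x
    have h10 : φ / 4 * x ≤ Q.card * Real.log x := by linarith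
    have h11 : M * x ^ (1 - ε) * Real.log x ≤ Q.card * Real.log x := by
      have : x ^ (1 - ε) * x ^ ε = x := by
        rw [← Real.rpow_add hx0]; simp
      calc M * x ^ (1 - ε) * Real.log x = x ^ (1 - ε) * (M * Real.log x) := by ring
        _ ≤ x ^ (1 - ε) * (φ / 4 * x ^ ε) :=
            mul_le_mul_of_nonneg_left a5 (Real.rpow_nonneg hx0.le _)
        _ = φ / 4 * (x ^ (1 - ε) * x ^ ε) := by ring
        _ = φ / 4 * x := by rw [this]
        _ ≤ _ := h10
    exact le_of_mul_le_mul_right h11 hl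
  exact (eventually_atTop.1 h7)

theorem primes_exist_pr {b c : ℤ} (S : Sys b c) (hs : ¬ IsSquare (dsc b c)) {h : ℕ → ℤ}
    (hh : Sgn h) {ε : ℝ} (hε : 0 < ε) : ∃ (K : ℕ) (Y₀ : ℝ), ∀ Y : ℝ, Y₀ ≤ Y →
    ∃ (P : Finset ℕ) (k₀ : ℕ) (σ : ℤ) (el : ℕ → El), k₀ ≤ K ∧ (σ = 1 ∨ σ = -1) ∧
      Prs S h P Y k₀ σ el ∧ Y ^ (1 - ε) ≤ (P.card : ℝ) := by
  classical
  have hD0 : dsc b c ≠ 0 := fun h => hs (by rw [h]; exact ⟨0, rfl⟩)
  have hna : 1 ≤ (dsc b c).natAbs := Int.natAbs_pos.mpr hD0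
  set q := 4 * (dsc b c).natAbs with hq
  set K := (1 + b.natAbs + c.natAbs) * (1 + (dsc b c).natAbs) with hK
  have hK1 : 1 ≤ K := Nat.mul_pos (by omega) (by omega)
  set K0 := K + (dsc b c).natAbs with hK0
  set δ := min ε (1 / 2) with hδ
  have hδ0 : 0 < δ := lt_min hε (by norm_num)
  obtain ⟨Y₀, hY₀⟩ := prm_count q (by omega) hδ0 (K0 + 2 * K)
  refine ⟨K, max Y₀ 1, fun Y hY => ?_⟩
  have hY1 : 1 ≤ Y := (le_max_right _ _).trans hY
  have hY0 : 0 < Y := by linarith
  have hc := hY₀ Y ((le_max_left _ _).trans hY)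
  set Q := (Finset.Ioc 0 ⌊Y⌋₊).filter (fun p : ℕ => p.Prime ∧ p % q = 1) with hQ
  set Q' := Q.filter (fun p => K0 < p) with hQ'
  -- the cardinality of `Q'`
  have hY2 : 1 ≤ Y ^ (1 - δ) := by
    apply Real.one_le_rpow hY1
    have : δ ≤ 1 / 2 := min_le_right _ _
    linarith
  have hcard : 2 * (K : ℝ) * Y ^ (1 - δ) ≤ (Q'.card : ℝ) := by
    have h1 : Q.card ≤ Q'.card + K0 := by
      have h2 : Q.card = Q'.card + (Q.filter (fun p => ¬ K0 < p)).card :=
        (Finset.card_filter_add_card_filter_not (fun p => K0 < p)).symm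
      have h3 : (Q.filter (fun p => ¬ K0 < p)).card ≤ K0 := by
        calc _ ≤ (Finset.Ioc 0 K0).card := by
              apply Finset.card_le_card
              intro p hp
              rw [Finset.mem_filter, hQ, Finset.mem_filter, Finset.mem_Ioc] at hp
              rw [Finset.mem_Ioc]
              exact ⟨hp.1.1.1, not_lt.1 hp.2⟩
          _ = K0 := by simp
      omega
    have h2 : (Q.card : ℝ) ≤ Q'.card + K0 := by exact_mod_cast h1
    have h3 : (K0 : ℝ) ≤ K0 * Y ^ (1 - δ) := le_mul_of_one_le_right (by positivity) hY2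
    nlinarith
  -- the elements
  have hdata : ∀ p : ℕ, ∃ (v : El) (k : ℕ), p ∈ Q' → (1 ≤ k ∧ k ≤ K ∧ S.wd v ∧
      nm b c v = k * p ∧ ¬ p ∣ k ∧ ¬ (p : ℤ) ∣ dsc b c) := by
    intro p
    by_cases hp : p ∈ Q'
    · have hp' := hp
      rw [hQ', Finset.mem_filter, hQ, Finset.mem_filter] at hp'
      obtain ⟨⟨h1, h2, h3⟩, h4⟩ := hp'
      have hpD : ¬ (p : ℤ) ∣ dsc b c := by
        intro h5
        have h6 := Nat.le_of_dvd (by omega) (Int.natCast_dvd.1 h5)
        omega
      obtain ⟨v, k, hk1, hk2, hv⟩ := prm_el hs h2 hpD h3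
      have hv0 : 0 < nm b c v := by
        rw [hv]
        have : (0 : ℤ) < p := by exact_mod_cast h2.pos
        have : (0 : ℤ) < k := by exact_mod_cast hk1
        positivity
      refine ⟨S.rp v, k, fun _ => ⟨hk1, hk2, S.rp_wd v hv0, by rw [rp_nm S hv0, hv], ?_, hpD⟩⟩
      intro h5
      have := Nat.le_of_dvd (by omega) h5
      omega
    · exact ⟨(0, 0), 0, fun h => absurd h hp⟩
  choose el kk hel using hdata
  -- the pigeonhole
  have hsg : ∀ p ∈ Q', gg b c h (el p) = 1 ∨ gg b c h (el p) = -1 := by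
    intro p hp
    obtain ⟨h1, h2, h3, h4, h5, h6⟩ := hel p hp
    apply gg_pm hh
    have := wd_nm S h3
    omega
  have hmaps : ∀ p ∈ Q', (kk p, gg b c h (el p)) ∈ (Finset.Icc 1 K) ×ˢ ({1, -1} : Finset ℤ) := by
    intro p hp
    obtain ⟨h1, h2, h3, h4, h5, h6⟩ := hel p hp
    rw [Finset.mem_product, Finset.mem_Icc]
    refine ⟨⟨h1, h2⟩, ?_⟩
    rcases hsg p hp with h | h <;> simp [h]
  have hT : ((Finset.Icc 1 K) ×ˢ ({1, -1} : Finset ℤ)).card = K * 2 := by
    rw [Finset.card_product, Nat.card_Icc]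
    simp
  obtain ⟨⟨k₀, σ⟩, hy, hle⟩ := Finset.exists_le_card_fiber_of_nsmul_le_card_of_maps_to
    (b := Y ^ (1 - δ)) hmaps
    (Finset.card_pos.1 (by rw [hT]; omega)) (by
      rw [hT, nsmul_eq_mul]; push_cast; linarith)
  rw [Finset.mem_product, Finset.mem_Icc] at hy
  refine ⟨Q'.filter (fun p => (kk p, gg b c h (el p)) = (k₀, σ)), k₀, σ, el, hy.1.2, ?_, ?_, ?_⟩
  · have := hy.2
    simpa using this
  · have key : ∀ p ∈ Q'.filter (fun p => (kk p, gg b c h (el p)) = (k₀, σ)),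
        p ∈ Q' ∧ kk p = k₀ ∧ gg b c h (el p) = σ := by
      intro p hp
      rw [Finset.mem_filter, Prod.mk.injEq] at hp
      exact hp
    refine ⟨?_, hy.1.1, ?_, ?_, ?_, ?_⟩
    · intro p hp
      have h1 := (key p hp).1
      rw [hQ', Finset.mem_filter, hQ, Finset.mem_filter, Finset.mem_Ioc] at h1
      exact ⟨h1.1.2.1, (Nat.le_floor_iff hY0.le).1 h1.1.1.2⟩
    · intro p hp
      obtain ⟨h1, h2, h3⟩ := key p hp
      obtain ⟨_, _, _, _, h5, h6⟩ := hel p h1
      rw [h2] at h5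
      exact ⟨h5, h6⟩
    · intro p hp
      exact (hel p (key p hp).1).2.2.1
    · intro p hp
      obtain ⟨h1, h2, h3⟩ := key p hp
      rw [← h2]
      exact (hel p h1).2.2.2.1
    · intro p hp
      exact (key p hp).2.2
  · refine le_trans ?_ hle
    apply Real.rpow_le_rpow_of_exponent_le hY1
    have : δ ≤ ε := min_le_left _ _
    linarith

end Pool.Agent.MQ

namespace Pool.Agent.MQ

theorem primes_exist : type_of% @primes_exist_pr := @primes_exist_pr

end Pool.Agent.MQ
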