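import Pool.Agent.Lib_helper39.MQ.Defs
import Pool.Agent.Lib_helper39.MQX.ALG
import Pool.Agent.Lib_helper39.MQX.SBA

/-! MQ, block MUL: products of prime elements. -/

namespace Pool.Agent.MQ

open Filter Topology MeasureTheory

/-- the functional with kernel the conjugate prime -/
def mul_psi (b : ℤ) (a z : El) : ℤ := a.2 * z.1 + (a.1 + b * a.2) * z.2

theorem mul_psi_ml (b c : ℤ) (a z w : El) :
    a.2 * mul_psi b a (ml b c z w) = mul_psi b a z * mul_psi b a w - z.2 * w.2 * nm b c a := by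
  simp only [mul_psi, ml, nm]
  ring

theorem mul_psi_cj (b c : ℤ) (a z : El) :
    a.2 * (a.2 * nm b c z) = mul_psi b a z * mul_psi b a (cj b z) + z.2 * z.2 * nm b c a := by
  simp only [mul_psi, cj, nm]
  ring

theorem mul_psi_self (b : ℤ) (a : El) : mul_psi b a a = a.2 * (2 * a.1 + b * a.2) := by
  simp only [mul_psi]
  ring

section
variable {b c : ℤ} {S : Sys b c} {h : ℕ → ℤ} {P : Finset ℕ} {Y : ℝ} {k₀ : ℕ}
    {σ : ℤ} {el : ℕ → El}

theorem mul_snd (hP : Prs S h P Y k₀ σ el) {p : ℕ} (hp : p ∈ P) : ¬ (p : ℤ) ∣ (el p).2 := by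
  intro hy
  have hpr : Prime (p : ℤ) := Nat.prime_iff_prime_int.mp (hP.prime p hp).1
  have hn := hP.norm p hp
  have hx2 : (p : ℤ) ∣ (el p).1 ^ 2 := by
    have h1 : (p : ℤ) ∣ nm b c (el p) := ⟨k₀, by rw [hn]; ring⟩
    have h2 : (el p).1 ^ 2 = nm b c (el p) - (b * (el p).1 + c * (el p).2) * (el p).2 := by
      simp only [nm]; ring
    rw [h2]
    exact dvd_sub h1 (Dvd.dvd.mul_left hy _)
  have hx : (p : ℤ) ∣ (el p).1 := hpr.dvd_of_dvd_pow hx2
  obtain ⟨x, hx⟩ := hx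
  obtain ⟨y, hy⟩ := hy
  have h3 : nm b c (el p) = (p : ℤ) * (p * (x ^ 2 + b * x * y + c * y ^ 2)) := by
    simp only [nm, hx, hy]; ring
  rw [hn] at h3
  have h4 : (p : ℤ) * (k₀ : ℤ) = (p : ℤ) * (p * (x ^ 2 + b * x * y + c * y ^ 2)) := by
    rw [← h3]; ring
  have h5 := mul_left_cancel₀ hpr.ne_zero h4
  have h6 : (p : ℤ) ∣ (k₀ : ℤ) := ⟨_, h5⟩
  exact (hP.ndvd p hp).1 (by exact_mod_cast h6)

theorem mul_psi_el (hP : Prs S h P Y k₀ σ el) {p q : ℕ} (hp : p ∈ P) (hq : q ∈ P) :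
    ¬ (p : ℤ) ∣ mul_psi b (el p) (el q) := by
  intro hd
  have hpr : Prime (p : ℤ) := Nat.prime_iff_prime_int.mp (hP.prime p hp).1
  have hy := mul_snd hP hp
  have hn := hP.norm p hp
  have hpn : (p : ℤ) ∣ nm b c (el p) := ⟨k₀, by rw [hn]; ring⟩
  by_cases hpq : p = q
  · subst hpq
    rw [mul_psi_self] at hd
    rcases hpr.dvd_or_dvd hd with hd | hd
    · exact hy hd
    · have h1 : dsc b c * (el p).2 ^ 2 = (2 * (el p).1 + b * (el p).2) *
          (2 * (el p).1 + b * (el p).2) - 4 * nm b c (el p) := by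
        simp only [dsc, nm]; ring
      have h2 : (p : ℤ) ∣ dsc b c * (el p).2 ^ 2 := by
        rw [h1]
        exact dvd_sub (Dvd.dvd.mul_left hd _) (Dvd.dvd.mul_left hpn _)
      rcases hpr.dvd_or_dvd h2 with h3 | h3
      · exact (hP.ndvd p hp).2 h3
      · exact hy (hpr.dvd_of_dvd_pow h3)
  · have h1 := mul_psi_cj b c (el p) (el q)
    have h2 : (p : ℤ) ∣ (el p).2 * ((el p).2 * nm b c (el q)) := by
      rw [h1]
      exact dvd_add (Dvd.dvd.mul_right hd _) (Dvd.dvd.mul_left hpn _)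
    rcases hpr.dvd_or_dvd h2 with h3 | h3
    · exact hy h3
    rcases hpr.dvd_or_dvd h3 with h3 | h3
    · exact hy h3
    rw [hP.norm q hq] at h3
    rcases hpr.dvd_or_dvd h3 with h3 | h3
    · exact (hP.ndvd p hp).1 (by exact_mod_cast h3)
    · have h4 : p ∣ q := by exact_mod_cast h3
      exact hpq ((Nat.prime_dvd_prime_iff_eq (hP.prime p hp).1 (hP.prime q hq).1).mp h4)

theorem mul_psi_pd (hP : Prs S h P Y k₀ σ el) {p : ℕ} (hp : p ∈ P) (l : List ℕ)
    (hl : ∀ q ∈ l, q ∈ P) : ¬ (p : ℤ) ∣ mul_psi b (el p) (pd b c el l) := by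
  induction l with
  | nil =>
    have : mul_psi b (el p) (pd b c el []) = (el p).2 := by
      simp [mul_psi, pd]
    rw [this]
    exact mul_snd hP hp
  | cons q l ih =>
    intro hd
    have hpr : Prime (p : ℤ) := Nat.prime_iff_prime_int.mp (hP.prime p hp).1
    have hn := hP.norm p hp
    have hpn : (p : ℤ) ∣ nm b c (el p) := ⟨k₀, by rw [hn]; ring⟩
    have h1 := mul_psi_ml b c (el p) (el q) (pd b c el l)
    have h2 : (p : ℤ) ∣ mul_psi b (el p) (el q) * mul_psi b (el p) (pd b c el l) := by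
      have h3 : mul_psi b (el p) (el q) * mul_psi b (el p) (pd b c el l) =
          (el p).2 * mul_psi b (el p) (ml b c (el q) (pd b c el l)) +
          (el q).2 * (pd b c el l).2 * nm b c (el p) := by
        rw [h1]; ring
      rw [h3]
      exact dvd_add (Dvd.dvd.mul_left hd _) (Dvd.dvd.mul_left hpn _)
    rcases hpr.dvd_or_dvd h2 with h3 | h3
    · exact mul_psi_el hP hp (hl q (by simp)) h3
    · exact ih (fun q hq => hl q (by simp [hq])) h3

theorem mul_nm_pd (hP : Prs S h P Y k₀ σ el) (l : List ℕ) (hl : ∀ q ∈ l, q ∈ P) :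
    nm b c (pd b c el l) = (k₀ : ℤ) ^ l.length * (l.prod : ℕ) := by
  induction l with
  | nil => simp [pd, nm]
  | cons q l ih =>
    have h1 := ih (fun q hq => hl q (by simp [hq]))
    show nm b c (ml b c (el q) (pd b c el l)) = _
    rw [nm_ml, h1, hP.norm q (hl q (by simp)), List.length_cons, List.prod_cons]
    push_cast
    ring

theorem mul_pos_pd (hP : Prs S h P Y k₀ σ el) (l : List ℕ) (hl : ∀ q ∈ l, q ∈ P) :
    0 < nm b c (pd b c el l) := by
  rw [mul_nm_pd hP l hl]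
  have h1 : 0 < k₀ := hP.k0
  have h2 : 0 < l.prod := by
    apply List.prod_pos
    intro q hq
    exact (hP.prime q (hl q hq)).1.pos
  positivity

/-- `p` does not divide both coordinates of the representative of a product -/
theorem mul_rp (hP : Prs S h P Y k₀ σ el) {p : ℕ} (hp : p ∈ P) (l : List ℕ)
    (hl : ∀ q ∈ l, q ∈ P) :
    ¬ ((p : ℤ) ∣ (S.rp (pd b c el l)).1 ∧ (p : ℤ) ∣ (S.rp (pd b c el l)).2) := by
  rintro ⟨h1, h2⟩
  have h3 : (p : ℤ) ∣ (Int.gcd (S.rp (pd b c el l)).1 (S.rp (pd b c el l)).2 : ℤ) :=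
    Int.dvd_coe_gcd h1 h2
  rw [rp_gcd S (mul_pos_pd hP l hl)] at h3
  have h4 : (p : ℤ) ∣ (pd b c el l).1 := h3.trans (Int.gcd_dvd_left _ _)
  have h5 : (p : ℤ) ∣ (pd b c el l).2 := h3.trans (Int.gcd_dvd_right _ _)
  apply mul_psi_pd hP hp l hl
  unfold mul_psi
  exact dvd_add (Dvd.dvd.mul_left h4 _) (Dvd.dvd.mul_left h5 _)

end

theorem mul_par {b c : ℤ} {v w : El} (hd : dt v w = 0) :
    nm b c v * w.1 = bl b c v w * v.1 ∧ nm b c v * w.2 = bl b c v w * v.2 ∧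
      bl b c w v = bl b c v w := by
  simp only [dt] at hd
  refine ⟨?_, ?_, ?_⟩
  · simp only [nm, bl]; linear_combination (-c * v.2) * hd
  · simp only [nm, bl]; linear_combination (v.1 + b * v.2) * hd
  · simp only [bl]; linear_combination b * hd

theorem mul_cop {p : ℕ} (hp : p.Prime) {k : ℕ} {x y B : ℤ}
    (h : ¬ ((p : ℤ) ∣ x ∧ (p : ℤ) ∣ y)) (h1 : (p : ℤ) ^ k ∣ B * x) (h2 : (p : ℤ) ^ k ∣ B * y) :
    (p : ℤ) ^ k ∣ B := by
  have hpr : Prime (p : ℤ) := Nat.prime_iff_prime_int.mp hp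
  by_cases hx : (p : ℤ) ∣ x
  · have hy : ¬ (p : ℤ) ∣ y := fun hy => h ⟨hx, hy⟩
    have : IsCoprime ((p : ℤ) ^ k) y := IsCoprime.pow_left ((hpr.irreducible.coprime_iff_not_dvd).mpr hy)
    exact this.dvd_of_dvd_mul_right h2
  · have : IsCoprime ((p : ℤ) ^ k) x := IsCoprime.pow_left ((hpr.irreducible.coprime_iff_not_dvd).mpr hx)
    exact this.dvd_of_dvd_mul_right h1

theorem mul_dvd {b c : ℤ} (S : Sys b c) {h : ℕ → ℤ} {P : Finset ℕ} {Y : ℝ} {k₀ : ℕ}
    {σ : ℤ} {el : ℕ → El} (hP : Prs S h P Y k₀ σ el) (l l' : List ℕ) (hl : ∀ p ∈ l, p ∈ P)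
    (hl' : ∀ p ∈ l', p ∈ P)
    (hd : dt (S.rp (pd b c el l)) (S.rp (pd b c el l')) = 0) : l.prod ∣ l'.prod := by
  rw [Nat.dvd_iff_prime_pow_dvd_dvd]
  intro p k hp hk
  rcases Nat.eq_zero_or_pos k with rfl | hk0
  · simp
  have hpl : p ∈ l := by
    have h1 : p ∣ l.prod := (dvd_pow_self p hk0.ne').trans hk
    obtain ⟨q, hq, hpq⟩ := (Nat.Prime.prime hp).dvd_prod_iff.mp h1
    have := (Nat.prime_dvd_prime_iff_eq hp (hP.prime q (hl q hq)).1).mp hpq
    rw [this]; exact hq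
  have hpP : p ∈ P := hl p hpl
  set v := S.rp (pd b c el l) with hv
  set w := S.rp (pd b c el l') with hw
  have hnv : nm b c v = (k₀ : ℤ) ^ l.length * (l.prod : ℕ) := by
    rw [hv, rp_nm S (mul_pos_pd hP l hl), mul_nm_pd hP l hl]
  have hnw : nm b c w = (k₀ : ℤ) ^ l'.length * (l'.prod : ℕ) := by
    rw [hw, rp_nm S (mul_pos_pd hP l' hl'), mul_nm_pd hP l' hl']
  obtain ⟨e1, e2, -⟩ := mul_par (b := b) (c := c) hd
  have hd' : dt w v = 0 := by
    simp only [dt] at hd ⊢; linarith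
  obtain ⟨f1, f2, f3⟩ := mul_par (b := b) (c := c) hd'
  have g1 : (p : ℤ) ^ k ∣ nm b c v := by
    rw [hnv]
    apply Dvd.dvd.mul_left
    exact_mod_cast hk
  -- `p ^ k ∣ bl v w`
  have g2 : (p : ℤ) ^ k ∣ bl b c v w := by
    apply mul_cop hp (mul_rp hP hpP l hl)
    · rw [← hv, ← e1]; exact Dvd.dvd.mul_right g1 _
    · rw [← hv, ← e2]; exact Dvd.dvd.mul_right g1 _
  have g3 : (p : ℤ) ^ k ∣ nm b c w := by
    apply mul_cop hp (mul_rp hP hpP l hl)
    · rw [← hv, f1, ← f3]; exact Dvd.dvd.mul_right g2 _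
    · rw [← hv, f2, ← f3]; exact Dvd.dvd.mul_right g2 _
  rw [hnw] at g3
  have hcop : IsCoprime ((p : ℤ) ^ k) ((k₀ : ℤ) ^ l'.length) := by
    apply IsCoprime.pow
    have hpr : Prime (p : ℤ) := Nat.prime_iff_prime_int.mp hp
    apply (hpr.irreducible.coprime_iff_not_dvd).mpr
    intro h'
    exact (hP.ndvd p hpP).1 (by exact_mod_cast h')
  have g4 := hcop.dvd_of_dvd_mul_left g3
  exact_mod_cast g4

theorem prod_unique_pr {b c : ℤ} (S : Sys b c) {h : ℕ → ℤ} {P : Finset ℕ} {Y : ℝ} {k₀ : ℕ}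
    {σ : ℤ} {el : ℕ → El} (hP : Prs S h P Y k₀ σ el) (l l' : List ℕ) (hl : ∀ p ∈ l, p ∈ P)
    (hl' : ∀ p ∈ l', p ∈ P) (hlen : l.length = l'.length)
    (hd : dt (S.rp (pd b c el l)) (S.rp (pd b c el l')) = 0) : l.Perm l' := by
  have hd' : dt (S.rp (pd b c el l')) (S.rp (pd b c el l)) = 0 := by
    simp only [dt] at hd ⊢; linarith
  have h1 : l.prod = l'.prod :=
    Nat.dvd_antisymm (mul_dvd S hP l l' hl hl' hd) (mul_dvd S hP l' l hl' hl hd')
  have h2 : l.Perm (Nat.primeFactorsList l.prod) :=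
    Nat.primeFactorsList_unique rfl (fun p hp => (hP.prime p (hl p hp)).1)
  have h3 : l'.Perm (Nat.primeFactorsList l.prod) :=
    Nat.primeFactorsList_unique h1.symm (fun p hp => (hP.prime p (hl' p hp)).1)
  exact h2.trans h3.symm

end Pool.Agent.MQ

namespace Pool.Agent.MQ

theorem prod_unique : type_of% @prod_unique_pr := @prod_unique_pr

end Pool.Agent.MQ
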