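import Pool.Agent.Lib_helper39.MQ.Defs
import Pool.Agent.Lib_helper39.MQX.ALG
import Pool.Agent.Lib_helper39.MQX.LSV
import Pool.Agent.Lib_helper39.MQX.MUL
import Pool.Agent.Lib_helper39.MQX.SBA
import Pool.Agent.Lib_helper39.MQX.SBC

/-! MQ, block TBD: few frequencies -/

namespace Pool.Agent.MQ

open Filter Topology MeasureTheory

lemma tbd_ex_add (s t : ℝ) : ex (s + t) = ex s * ex t := by
  unfold ex
  rw [← Complex.exp_add]
  congr 1
  push_cast
  ring

lemma tbd_ex_int (n : ℤ) : ex (n : ℝ) = 1 := by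
  unfold ex
  rw [Complex.exp_eq_one_iff]
  exact ⟨n, by push_cast; ring⟩

lemma tbd_ex_sum {ι : Type*} (s : Finset ι) (f : ι → ℝ) :
    ex (∑ i ∈ s, f i) = ∏ i ∈ s, ex (f i) := by
  classical
  induction s using Finset.induction_on with
  | empty =>
    have := tbd_ex_int 0
    simpa using this
  | insert a s ha ih =>
    rw [Finset.sum_insert ha, Finset.prod_insert ha, tbd_ex_add, ih]

lemma tbd_norm {b c : ℤ} {S : Sys b c} {h : ℕ → ℤ} {P : Finset ℕ} {Y : ℝ} {k₀ : ℕ}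
    {σ : ℤ} {el : ℕ → El} (hP : Prs S h P Y k₀ σ el) {K : ℕ} (hK : k₀ ≤ K) (hY : 0 ≤ Y)
    (l : List ℕ) (hl : ∀ p ∈ l, p ∈ P) :
    0 < nm b c (pd b c el l) ∧ (nm b c (pd b c el l) : ℝ) ≤ (K * Y) ^ l.length := by
  induction l with
  | nil => simp [pd, nm]
  | cons p l ih =>
    obtain ⟨h1, h2⟩ := ih (fun q hq => hl q (List.mem_cons_of_mem _ hq))
    have hp : p ∈ P := hl p List.mem_cons_self
    obtain ⟨h3, h4⟩ := hP.prime p hp
    have h5 := hP.norm p hp
    have h6 := hP.k0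
    have h7 : 0 < nm b c (el p) := by
      rw [h5]
      have := h3.pos
      positivity
    constructor
    · rw [pd, nm_ml]
      exact mul_pos h7 h1
    · rw [pd, nm_ml, List.length_cons, pow_succ, mul_comm ((K * Y : ℝ) ^ l.length)]
      push_cast
      apply mul_le_mul _ h2 (by exact_mod_cast h1.le) (by positivity)
      rw [h5]
      push_cast
      have : (k₀ : ℝ) ≤ K := by exact_mod_cast hK
      exact mul_le_mul this h4 (by positivity) (by positivity)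

lemma tbd_u {b c : ℤ} {S : Sys b c} {h : ℕ → ℤ} {P : Finset ℕ} {Y : ℝ} {k₀ : ℕ}
    {σ : ℤ} {el : ℕ → El} (hP : Prs S h P Y k₀ σ el) (hY : 0 ≤ Y)
    (l : List ℕ) (hl : ∀ p ∈ l, p ∈ P) : ∃ n : ℤ,
    S.u (S.rp (pd b c el l)) = (l.map (fun p => S.u (el p))).sum + n := by
  induction l with
  | nil =>
    refine ⟨0, ?_⟩
    have h1 : S.rp (1, 0) = (1, 0) := by
      apply S.rp_self
      left
      simp
    simp only [pd, h1, List.map_nil, List.sum_nil]
    simp [Sys.u, uu]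
  | cons p l ih =>
    have hl' : ∀ q ∈ l, q ∈ P := fun q hq => hl q (List.mem_cons_of_mem _ hq)
    obtain ⟨n, hn⟩ := ih hl'
    have hp : p ∈ P := hl p List.mem_cons_self
    have h1 := (tbd_norm hP le_rfl hY l hl').1
    have h2 := hP.wd p hp
    have h3 : 0 < nm b c (el p) := wd_nm S h2
    obtain ⟨m, hm⟩ := u_ml S h3 h1
    have h4 : S.rp (el p) = el p := S.rp_self _ h2
    refine ⟨n + m, ?_⟩
    rw [pd, hm, h4, hn, List.map_cons, List.sum_cons]
    push_cast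
    ring

lemma tbd_perm {b c : ℤ} {el : ℕ → El} {l l' : List ℕ} (h : l.Perm l') :
    pd b c el l = pd b c el l' := by
  induction h with
  | nil => rfl
  | cons x _ ih => rw [pd, pd, ih]
  | swap x y l =>
    rw [pd, pd, pd, pd, ← ml_assoc, ← ml_assoc, ml_comm b c (el y) (el x)]
  | trans _ _ ih1 ih2 => rw [ih1, ih2]

/-- the number of ordered tuples with a given product -/
lemma tbd_mult {b c : ℤ} {S : Sys b c} {h : ℕ → ℤ} {P : Finset ℕ} {Y : ℝ} {k₀ : ℕ}
    {σ : ℤ} {el : ℕ → El} (hP : Prs S h P Y k₀ σ el) (J : ℕ) (v : El) :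
    ((Fintype.piFinset (fun _ : Fin J => P)).filter
      (fun f => S.rp (pd b c el (List.ofFn f)) = v)).card ≤ J.factorial := by
  classical
  rcases Finset.eq_empty_or_nonempty ((Fintype.piFinset (fun _ : Fin J => P)).filter
      (fun f => S.rp (pd b c el (List.ofFn f)) = v)) with h0 | ⟨f0, hf0⟩
  · rw [h0]
    simp
  · rw [Finset.mem_filter, Fintype.mem_piFinset] at hf0
    have h1 : ((Fintype.piFinset (fun _ : Fin J => P)).filter
      (fun f => S.rp (pd b c el (List.ofFn f)) = v)).card ≤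
        ((List.ofFn f0).permutations.toFinset).card := by
      apply Finset.card_le_card_of_injOn (fun f => List.ofFn f)
      · intro f hf
        rw [Finset.mem_coe, Finset.mem_filter, Fintype.mem_piFinset] at hf
        rw [Finset.mem_coe, List.mem_toFinset, List.mem_permutations]
        apply prod_unique S hP _ _ _ _ _ _
        · intro p hp
          obtain ⟨i, rfl⟩ := (List.mem_ofFn' f p).mp hp
          exact hf.1 i
        · intro p hp
          obtain ⟨i, rfl⟩ := (List.mem_ofFn' f0 p).mp hp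
          exact hf0.1 i
        · simp
        · rw [hf.2, hf0.2]
          simp only [dt]
          ring
      · intro f _ g _ hfg
        exact List.ofFn_injective hfg
    refine h1.trans ((List.toFinset_card_le _).trans ?_)
    rw [List.length_permutations, List.length_ofFn]

/-- the expansion of the power -/
lemma tbd_expand {b c : ℤ} {S : Sys b c} {h : ℕ → ℤ} {P : Finset ℕ} {Y : ℝ} {k₀ : ℕ}
    {σ : ℤ} {el : ℕ → El} (hP : Prs S h P Y k₀ σ el) (hY : 0 ≤ Y) (J : ℕ) (k : ℤ) :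
    (∑ p ∈ P, ex (k * S.u (el p))) ^ J =
      ∑ f ∈ Fintype.piFinset (fun _ : Fin J => P), ex (k * S.u (S.rp (pd b c el (List.ofFn f)))) := by
  have h1 : (∑ p ∈ P, ex (k * S.u (el p))) ^ J =
      ∏ _i : Fin J, ∑ p ∈ P, ex (k * S.u (el p)) := by
    rw [Finset.prod_const, Finset.card_univ, Fintype.card_fin]
  rw [h1, Finset.prod_univ_sum]
  apply Finset.sum_congr rfl
  intro f hf
  rw [Fintype.mem_piFinset] at hf
  obtain ⟨n, hn⟩ := tbd_u hP hY (List.ofFn f) (by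
    intro p hp
    obtain ⟨i, rfl⟩ := (List.mem_ofFn' f p).mp hp
    exact hf i)
  rw [hn, List.map_ofFn, List.sum_ofFn, mul_add, tbd_ex_add]
  have h2 : ex ((k : ℝ) * (n : ℝ)) = 1 := by
    have := tbd_ex_int (k * n)
    push_cast at this
    exact this
  rw [h2, mul_one, Finset.mul_sum, tbd_ex_sum]
  rfl

/-- the large sieve inequality for the products -/
lemma tbd_core {b c : ℤ} (S : Sys b c) : ∃ C : ℝ, 0 < C ∧ ∀ (h : ℕ → ℤ) (P : Finset ℕ)
    (Y : ℝ) (k₀ : ℕ) (σ : ℤ) (el : ℕ → El), Prs S h P Y k₀ σ el → 0 ≤ Y → 0 < P.card →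
    ∀ (K J : ℕ) (Z : ℝ), k₀ ≤ K → 1 ≤ Z → (K * Y) ^ J ≤ Z →
      (((KK Z).filter (fun k => 3 / 4 ≤ ‖Pa S P el k‖)).card : ℝ) * ((9 / 16) * P.card) ^ J ≤
        C * Z * J.factorial := by
  classical
  obtain ⟨C, hC, hL⟩ := large_sieve
  obtain ⟨δ, hδ, hδ1, hsep⟩ := u_sep S
  refine ⟨C * (1 + 1 / δ), by positivity, ?_⟩
  intro h P Y k₀ σ el hP hY hPc K J Z hK hZ hKY
  set W := Fintype.piFinset (fun _ : Fin J => P) with hW
  set m : (Fin J → ℕ) → El := fun f => S.rp (pd b c el (List.ofFn f)) with hm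
  have hmemP : ∀ f ∈ W, ∀ p ∈ List.ofFn f, p ∈ P := by
    intro f hf p hp
    obtain ⟨i, rfl⟩ := (List.mem_ofFn' f p).mp hp
    exact (Fintype.mem_piFinset.mp hf) i
  have hnm : ∀ f ∈ W, S.wd (m f) ∧ (nm b c (m f) : ℝ) ≤ Z := by
    intro f hf
    obtain ⟨h1, h2⟩ := tbd_norm hP hK hY (List.ofFn f) (hmemP f hf)
    refine ⟨S.rp_wd _ h1, ?_⟩
    simp only [hm]
    rw [rp_nm S h1]
    rw [List.length_ofFn] at h2
    exact h2.trans hKY
  have hZ0 : 0 < Z := by linarith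
  obtain ⟨hL1, -⟩ := hL (W.image m) (fun v => S.u v) (δ / Z) (by positivity)
    (by rw [div_le_one hZ0]; linarith) (by
      intro v hv v' hv' hne n
      obtain ⟨f, hf, rfl⟩ := Finset.mem_image.mp hv
      obtain ⟨g, hg, rfl⟩ := Finset.mem_image.mp hv'
      apply hsep Z hZ _ _ (hnm f hf).1 (hnm g hg).1 (hnm f hf).2 (hnm g hg).2
      intro hd
      apply hne
      have := prod_unique S hP (List.ofFn f) (List.ofFn g) (hmemP f hf) (hmemP g hg)
        (by simp) hd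
      simp only [hm]
      rw [tbd_perm this]) Z hZ
  have h1 := hL1 (fun v => ((W.filter (fun f => m f = v)).card : ℂ))
  have h2 : ∀ k : ℤ, ∑ i ∈ W.image m, ((W.filter (fun f => m f = i)).card : ℂ) *
      ex (k * S.u i) = (∑ p ∈ P, ex (k * S.u (el p))) ^ J := by
    intro k
    rw [tbd_expand hP hY J k]
    have := Finset.sum_comp (s := W) (fun v : El => ex ((k : ℝ) * S.u v)) m
    rw [this]
    apply Finset.sum_congr rfl
    intro v _
    rw [nsmul_eq_mul]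
  simp only [h2] at h1
  have h3 : ∑ i ∈ W.image m, ‖((W.filter (fun f => m f = i)).card : ℂ)‖ ^ 2 ≤
      J.factorial * (P.card : ℝ) ^ J := by
    have h4 : ((P.card : ℝ)) ^ J = ∑ i ∈ W.image m, ((W.filter (fun f => m f = i)).card : ℝ) := by
      have h5 := Finset.card_eq_sum_card_image m W
      rw [hW, Fintype.card_piFinset] at h5
      simp only [Finset.prod_const, Finset.card_univ, Fintype.card_fin] at h5
      exact_mod_cast h5
    rw [h4, Finset.mul_sum]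
    apply Finset.sum_le_sum
    intro v _
    rw [Complex.norm_natCast, sq]
    apply mul_le_mul_of_nonneg_right _ (Nat.cast_nonneg _)
    exact_mod_cast tbd_mult hP J v
  have hPc' : (0 : ℝ) < P.card := by exact_mod_cast hPc
  have h6 : (((KK Z).filter (fun k => 3 / 4 ≤ ‖Pa S P el k‖)).card : ℝ) *
      (((9 / 16) * P.card) ^ J * (P.card : ℝ) ^ J) ≤
      ∑ k ∈ KK Z, ‖(∑ p ∈ P, ex (k * S.u (el p))) ^ J‖ ^ 2 := by
    calc (((KK Z).filter (fun k => 3 / 4 ≤ ‖Pa S P el k‖)).card : ℝ) *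
          (((9 / 16) * P.card) ^ J * (P.card : ℝ) ^ J)
        = ∑ _k ∈ (KK Z).filter (fun k => 3 / 4 ≤ ‖Pa S P el k‖),
            (((9 / 16) * P.card) ^ J * (P.card : ℝ) ^ J) := by
          rw [Finset.sum_const, nsmul_eq_mul]
      _ ≤ ∑ k ∈ (KK Z).filter (fun k => 3 / 4 ≤ ‖Pa S P el k‖),
            ‖(∑ p ∈ P, ex (k * S.u (el p))) ^ J‖ ^ 2 := by
          apply Finset.sum_le_sum
          intro k hk
          have h7 := (Finset.mem_filter.mp hk).2
          unfold Pa at h7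
          rw [norm_div, Complex.norm_natCast, le_div_iff₀ hPc'] at h7
          rw [norm_pow, ← mul_pow, ← pow_mul, mul_comm J 2, pow_mul]
          apply pow_le_pow_left₀ (by positivity)
          have h8 : (3 / 4 * (P.card : ℝ)) ^ 2 ≤ ‖∑ p ∈ P, ex (k * S.u (el p))‖ ^ 2 :=
            pow_le_pow_left₀ (by positivity) h7 2
          calc (9 / 16 * (P.card : ℝ)) * P.card = (3 / 4 * (P.card : ℝ)) ^ 2 := by ring
            _ ≤ _ := h8
      _ ≤ _ := by
          apply Finset.sum_le_sum_of_subset_of_nonneg (Finset.filter_subset _ _)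
          intro k _ _
          positivity
  have h9 : (((KK Z).filter (fun k => 3 / 4 ≤ ‖Pa S P el k‖)).card : ℝ) *
      (((9 / 16) * P.card) ^ J * (P.card : ℝ) ^ J) ≤
      C * (Z + 1 / (δ / Z)) * (J.factorial * (P.card : ℝ) ^ J) := by
    refine h6.trans (h1.trans ?_)
    apply mul_le_mul_of_nonneg_left h3
    positivity
  have h10 : (0 : ℝ) < (P.card : ℝ) ^ J := by positivity
  have h11 : C * (Z + 1 / (δ / Z)) = C * (1 + 1 / δ) * Z := by
    field_simp
  rw [h11] at h9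
  have h12 : ((((KK Z).filter (fun k => 3 / 4 ≤ ‖Pa S P el k‖)).card : ℝ) *
      ((9 / 16) * P.card) ^ J) * (P.card : ℝ) ^ J ≤
      (C * (1 + 1 / δ) * Z * J.factorial) * (P.card : ℝ) ^ J := by
    calc _ = (((KK Z).filter (fun k => 3 / 4 ≤ ‖Pa S P el k‖)).card : ℝ) *
      (((9 / 16) * P.card) ^ J * (P.card : ℝ) ^ J) := by ring
      _ ≤ _ := h9
      _ = _ := by ring
  exact le_of_mul_le_mul_right h12 h10

/-- large values of `Z` -/
lemma tbd_large {ε C : ℝ} (hε : 0 < ε) (hC : 0 < C) {B : ℝ} (_hB : 1 ≤ B) {K : ℕ} (hK : 1 ≤ K) :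
    ∃ Z₀ : ℝ, ∀ Z : ℝ, Z₀ ≤ Z → 1 ≤ Z ∧ 1 ≤ Real.log Z ∧ 1 ≤ Real.log (Real.log Z) ∧
      8 / ε * Real.log (16 * K / 9) ≤ Real.log (Real.log Z) ∧
      C * K * Real.log Z ^ B ≤ Z ^ (ε / 4) := by
  have h1 : ∀ᶠ Z : ℝ in atTop, 1 ≤ Z := eventually_ge_atTop 1
  have h2 : ∀ᶠ Z : ℝ in atTop, 1 ≤ Real.log Z :=
    Real.tendsto_log_atTop.eventually_ge_atTop 1
  have h3 : ∀ᶠ Z : ℝ in atTop, 1 ≤ Real.log (Real.log Z) :=
    (Real.tendsto_log_atTop.comp Real.tendsto_log_atTop).eventually_ge_atTop 1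
  have h4 : ∀ᶠ Z : ℝ in atTop, 8 / ε * Real.log (16 * K / 9) ≤ Real.log (Real.log Z) :=
    (Real.tendsto_log_atTop.comp Real.tendsto_log_atTop).eventually_ge_atTop _
  have h5 : ∀ᶠ Z : ℝ in atTop, C * K * Real.log Z ^ B ≤ Z ^ (ε / 4) := by
    have h6 := isLittleO_log_rpow_rpow_atTop B (show 0 < ε / 4 by positivity)
    have hCK : 0 < C * K := by
      have : (0 : ℝ) < K := by exact_mod_cast hK
      positivity
    have h7 := h6.bound (c := 1 / (C * K)) (by positivity)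
    filter_upwards [h7, h1, h2] with Z h8 h9 h10
    rw [Real.norm_of_nonneg (by positivity), Real.norm_of_nonneg (by positivity)] at h8
    calc C * K * Real.log Z ^ B ≤ C * K * (1 / (C * K) * Z ^ (ε / 4)) :=
          mul_le_mul_of_nonneg_left h8 hCK.le
      _ = Z ^ (ε / 4) := by field_simp
  obtain ⟨Z₀, hZ₀⟩ := eventually_atTop.mp (h1.and (h2.and (h3.and (h4.and h5))))
  exact ⟨Z₀, fun Z hZ => by
    obtain ⟨a, b, c, d, e⟩ := hZ₀ Z hZ
    exact ⟨a, b, c, d, e⟩⟩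

theorem few_freq_pr : ∀ ε : ℝ, 0 < ε → ∃ B : ℝ, 1 ≤ B ∧ ∀ (b c : ℤ) (S : Sys b c) (K : ℕ),
    ∃ Z₀ : ℝ, ∀ Z : ℝ, Z₀ ≤ Z → ∀ (h : ℕ → ℤ) (P : Finset ℕ) (k₀ : ℕ) (σ : ℤ) (el : ℕ → El),
    k₀ ≤ K → Prs S h P (Real.log Z ^ B) k₀ σ el →
    (Real.log Z ^ B) ^ (1 - ε / 4) ≤ (P.card : ℝ) →
      (((KK Z).filter (fun k => 3 / 4 ≤ ‖Pa S P el k‖)).card : ℝ) ≤ Z ^ ε := by
  intro ε hε
  refine ⟨max 1 (8 / ε), le_max_left _ _, ?_⟩
  set B := max 1 (8 / ε) with hBdef
  have hB : 1 ≤ B := le_max_left _ _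
  have hB' : 8 / ε ≤ B := le_max_right _ _
  intro b c S K
  rcases Nat.eq_zero_or_pos K with hK0 | hK1
  · refine ⟨0, ?_⟩
    intro Z _ h P k₀ σ el hk hP
    have := hP.k0
    omega
  obtain ⟨C, hC, hcore⟩ := tbd_core S
  obtain ⟨Z₀, hZ₀⟩ := tbd_large hε hC hB hK1
  refine ⟨Z₀, ?_⟩
  intro Z hZZ h P k₀ σ el hk hP hcard
  obtain ⟨hZ1, hL1, hLL1, hLL2, hCK⟩ := hZ₀ Z hZZ
  set L := Real.log Z with hL
  set Y := L ^ B with hY
  have hL0 : 0 < L := by linarith
  have hZ0 : 0 < Z := by linarith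
  have hYL : L ≤ Y := by
    calc L = L ^ (1 : ℝ) := (Real.rpow_one L).symm
      _ ≤ L ^ B := Real.rpow_le_rpow_of_exponent_le hL1 hB
  have hY0 : 0 < Y := by linarith
  have hY1 : 1 ≤ Y := by linarith
  have hKr : (1 : ℝ) ≤ K := by exact_mod_cast hK1
  set Q : ℝ := K * Y with hQ
  have hQY : Y ≤ Q := by
    rw [hQ]
    nlinarith
  have hQ0 : 0 < Q := by linarith
  have hlQ : Real.log L ≤ Real.log Q := Real.log_le_log hL0 (by linarith)
  have hlQ1 : 1 ≤ Real.log Q := by linarith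
  have hlQ0 : 0 < Real.log Q := by linarith
  set J := ⌊L / Real.log Q⌋₊ with hJ
  have hJ1 : (J : ℝ) * Real.log Q ≤ L := by
    have := Nat.floor_le (show 0 ≤ L / Real.log Q by positivity)
    rwa [← hJ, le_div_iff₀ hlQ0] at this
  have hJ2 : L < ((J : ℝ) + 1) * Real.log Q := by
    have := Nat.lt_floor_add_one (L / Real.log Q)
    rwa [← hJ, div_lt_iff₀ hlQ0] at this
  have hJL : (J : ℝ) ≤ L := by
    have : (J : ℝ) * 1 ≤ J * Real.log Q := mul_le_mul_of_nonneg_left hlQ1 (Nat.cast_nonneg _)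
    linarith
  have hQJ : Q ^ J ≤ Z := by
    rw [← Real.log_le_log_iff (by positivity) hZ0, Real.log_pow]
    exact hJ1
  have hZQ : Z ≤ Q ^ (J + 1) := by
    rw [← Real.log_le_log_iff hZ0 (by positivity), Real.log_pow]
    push_cast
    exact hJ2.le
  have hYJ : Y ^ J ≤ Z := (pow_le_pow_left₀ hY0.le hQY J).trans hQJ
  have hPc : (0 : ℝ) < P.card := lt_of_lt_of_le (by positivity) hcard
  have hPc' : 0 < P.card := by exact_mod_cast hPc
  have hmain := hcore h P Y k₀ σ el hP hY0.le hPc' K J Z hk hZ1 hQJ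
  -- the three factors
  have f1 : (J.factorial : ℝ) ≤ Z ^ (ε / 8) := by
    have g1 : (J.factorial : ℝ) ≤ (J : ℝ) ^ J := by exact_mod_cast Nat.factorial_le_pow J
    have g2 : (J : ℝ) ^ J ≤ L ^ J := pow_le_pow_left₀ (Nat.cast_nonneg _) hJL J
    have g3 : L ^ J = (Y ^ J) ^ (1 / B) := by
      have hB0 : B ≠ 0 := by linarith
      rw [hY, ← Real.rpow_natCast (L ^ B) J, ← Real.rpow_mul hL0.le, ← Real.rpow_mul hL0.le,
        ← Real.rpow_natCast L J]
      congr 1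
      field_simp
    have g4 : (Y ^ J) ^ (1 / B) ≤ Z ^ (1 / B) :=
      Real.rpow_le_rpow (by positivity) hYJ (by positivity)
    have g5 : Z ^ (1 / B) ≤ Z ^ (ε / 8) := by
      apply Real.rpow_le_rpow_of_exponent_le hZ1
      rw [div_le_div_iff₀ (by linarith) (by norm_num)]
      have : 8 ≤ B * ε := by
        rw [div_le_iff₀ hε] at hB'
        exact hB'
      linarith
    calc (J.factorial : ℝ) ≤ _ := g1
      _ ≤ _ := g2
      _ = _ := g3
      _ ≤ _ := g4
      _ ≤ _ := g5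
  have f2 : (16 * (K : ℝ) / 9) ^ J ≤ Z ^ (ε / 8) := by
    have hk16 : (1 : ℝ) < 16 * K / 9 := by
      rw [lt_div_iff₀ (by norm_num)]
      linarith
    rw [← Real.log_le_log_iff (by positivity) (by positivity), Real.log_pow,
      Real.log_rpow hZ0, ← hL]
    have g1 : 0 < Real.log (16 * K / 9) := Real.log_pos hk16
    have g2 : 8 / ε * Real.log (16 * K / 9) ≤ Real.log Q := hLL2.trans hlQ
    have g3 : (J : ℝ) * (8 / ε * Real.log (16 * K / 9)) ≤ L :=
      (mul_le_mul_of_nonneg_left g2 (Nat.cast_nonneg _)).trans hJ1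
    have g4 : (J : ℝ) * Real.log (16 * K / 9) =
        ε / 8 * ((J : ℝ) * (8 / ε * Real.log (16 * K / 9))) := by
      field_simp
    rw [g4]
    exact mul_le_mul_of_nonneg_left g3 (by positivity)
  have f3 : (Y ^ J) / Z ^ (ε / 4) ≤ (P.card : ℝ) ^ J := by
    have g1 : ((Y ^ (1 - ε / 4)) ^ J : ℝ) ≤ (P.card : ℝ) ^ J :=
      pow_le_pow_left₀ (by positivity) hcard J
    have g2 : ((Y ^ (1 - ε / 4)) ^ J : ℝ) = Y ^ J / (Y ^ J) ^ (ε / 4) := by
      rw [← Real.rpow_natCast (Y ^ (1 - ε / 4)) J, ← Real.rpow_mul hY0.le,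
        ← Real.rpow_natCast Y J, ← Real.rpow_mul hY0.le, ← Real.rpow_sub hY0]
      congr 1
      ring
    have g3 : (Y ^ J : ℝ) ^ (ε / 4) ≤ Z ^ (ε / 4) :=
      Real.rpow_le_rpow (by positivity) hYJ (by positivity)
    calc (Y ^ J) / Z ^ (ε / 4) ≤ Y ^ J / (Y ^ J) ^ (ε / 4) := by
          apply div_le_div_of_nonneg_left (by positivity) (by positivity) g3
      _ = _ := g2.symm
      _ ≤ _ := g1
  -- conclusion
  set T : ℝ := (((KK Z).filter (fun k => 3 / 4 ≤ ‖Pa S P el k‖)).card : ℝ) with hT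
  have hT0 : 0 ≤ T := Nat.cast_nonneg _
  have hD : (0 : ℝ) < ((9 / 16) * P.card) ^ J := by positivity
  apply le_of_mul_le_mul_right (hmain.trans _) hD
  have e1 : C * Z * J.factorial ≤ C * Q ^ (J + 1) * Z ^ (ε / 8) := by
    apply mul_le_mul (mul_le_mul_of_nonneg_left hZQ hC.le) f1 (Nat.cast_nonneg _)
    positivity
  have e2 : C * Q ^ (J + 1) * Z ^ (ε / 8) =
      (C * K * Y) * ((16 * K / 9) ^ J * ((9 / 16) ^ J * Y ^ J)) * Z ^ (ε / 8) := by
    rw [← mul_pow, ← mul_pow, pow_succ]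
    have : 16 * (K : ℝ) / 9 * (9 / 16 * Y) = Q := by rw [hQ]; ring
    rw [this, hQ]
    ring
  have e3 : (C * K * Y) * ((16 * K / 9) ^ J * ((9 / 16) ^ J * Y ^ J)) * Z ^ (ε / 8) ≤
      Z ^ (ε / 4) * (Z ^ (ε / 8) * ((9 / 16) ^ J * Y ^ J)) * Z ^ (ε / 8) := by
    apply mul_le_mul_of_nonneg_right _ (by positivity)
    apply mul_le_mul hCK _ (by positivity) (by positivity)
    exact mul_le_mul_of_nonneg_right f2 (by positivity)
  have e4 : Z ^ (ε / 4) * (Z ^ (ε / 8) * ((9 / 16) ^ J * Y ^ J)) * Z ^ (ε / 8) =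
      Z ^ (ε / 4 + ε / 8 + ε / 8 + ε / 4) * ((9 / 16) ^ J * (Y ^ J / Z ^ (ε / 4))) := by
    rw [Real.rpow_add hZ0, Real.rpow_add hZ0, Real.rpow_add hZ0]
    have : Z ^ (ε / 4) ≠ 0 := by positivity
    field_simp
  have e5 : Z ^ (ε / 4 + ε / 8 + ε / 8 + ε / 4) * ((9 / 16) ^ J * (Y ^ J / Z ^ (ε / 4))) ≤
      Z ^ ε * ((9 / 16) ^ J * (P.card : ℝ) ^ J) := by
    apply mul_le_mul _ _ (by positivity) (by positivity)
    · apply Real.rpow_le_rpow_of_exponent_le hZ1
      linarith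
    · exact mul_le_mul_of_nonneg_left f3 (by positivity)
  calc C * Z * J.factorial ≤ _ := e1
    _ = _ := e2
    _ ≤ _ := e3
    _ = _ := e4
    _ ≤ _ := e5
    _ = _ := by rw [← mul_pow]

end Pool.Agent.MQ

namespace Pool.Agent.MQ

theorem few_freq : type_of% @few_freq_pr := @few_freq_pr

end Pool.Agent.MQ
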