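import Pool.Agent.Lib_helper39.MQ.Defs
import Pool.Agent.Lib_helper39.MQX.PAR

/-! MQ, block TRF: the frequencies of a function which is almost invariant. -/

namespace Pool.Agent.MQ

open Filter Topology MeasureTheory

theorem trf_norm_ex (t : ℝ) : ‖ex t‖ = 1 := by
  unfold ex
  rw [show (2 * (Real.pi : ℂ) * Complex.I * (t : ℂ)) = ((2 * Real.pi * t : ℝ) : ℂ) * Complex.I by
    push_cast; ring]
  exact Complex.norm_exp_ofReal_mul_I _

theorem trf_sq (z : ℂ) (hz : ‖z‖ = 1) (s : ℤ) (hs : s = 1 ∨ s = -1) :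
    ‖z - (s : ℝ)‖ ^ 2 = 2 - 2 * s * z.re := by
  have h1 : ‖z‖ ^ 2 = z.re * z.re + z.im * z.im := by
    rw [← Complex.normSq_eq_norm_sq, Complex.normSq_apply]
  rw [hz] at h1
  rw [← Complex.normSq_eq_norm_sq, Complex.normSq_apply]
  rcases hs with rfl | rfl
  · simp
    nlinarith
  · simp
    nlinarith

theorem freq_mass_pr {b c : ℤ} (S : Sys b c) {F : ℝ → ℝ} (hp : ∀ t, F (t + 1) = F t)
    (hm : Measurable F) (h1 : ∀ t, F t = 1 ∨ F t = -1) (P : Finset ℕ) (hP : P.Nonempty)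
    (el : ℕ → El) {σ : ℤ} (hσ : σ = 1 ∨ σ = -1) {η : ℝ}
    (hd : ∀ p ∈ P, df F (S.u (el p)) σ ≤ η) (Q : Finset ℤ)
    (hQ : ∀ k ∈ Q, ‖Pa S P el k‖ < 3 / 4) : ∑ k ∈ Q, ‖fc F k‖ ^ 2 ≤ 4 * η := by
  obtain ⟨-, -, hpar⟩ := parseval hp hm h1
  have hσ' : ((σ : ℝ) = 1 ∨ (σ : ℝ) = -1) := by
    rcases hσ with rfl | rfl <;> simp
  have hPc : (0 : ℝ) < P.card := by exact_mod_cast hP.card_pos
  have hP0 : (P.card : ℂ) ≠ 0 := by
    have := hP.card_pos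
    exact_mod_cast this.ne'
  -- the average
  have key : ∀ k ∈ Q, (P.card : ℝ) / 2 ≤ ∑ p ∈ P, ‖ex (k * S.u (el p)) - (σ : ℝ)‖ ^ 2 := by
    intro k hk
    have e1 : ∑ p ∈ P, ‖ex (k * S.u (el p)) - (σ : ℝ)‖ ^ 2 =
        2 * P.card - 2 * σ * (P.card * (Pa S P el k).re) := by
      have e2 : (P.card : ℝ) * (Pa S P el k).re = ∑ p ∈ P, (ex (k * S.u (el p))).re := by
        have e3 : (P.card : ℂ) * Pa S P el k = ∑ p ∈ P, ex (k * S.u (el p)) := by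
          unfold Pa
          field_simp
        have e4 := congrArg Complex.re e3
        rw [Complex.re_sum] at e4
        rw [← e4, Complex.mul_re]
        simp
      rw [e2, Finset.sum_congr rfl (fun p _ => trf_sq _ (trf_norm_ex _) σ hσ)]
      rw [Finset.sum_sub_distrib, Finset.sum_const, nsmul_eq_mul, ← Finset.mul_sum]
      ring
    rw [e1]
    have e5 : |(Pa S P el k).re| ≤ 3 / 4 :=
      (Complex.abs_re_le_norm _).trans (hQ k hk).le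
    have e6 := abs_le.mp e5
    rcases hσ with rfl | rfl
    · push_cast
      nlinarith
    · push_cast
      nlinarith
  have h2 : ∀ p ∈ P, ∑ k ∈ Q, ‖fc F k‖ ^ 2 * ‖ex (k * S.u (el p)) - (σ : ℝ)‖ ^ 2 ≤ 2 * η := by
    intro p hpP
    obtain ⟨hs, ht⟩ := hpar (S.u (el p)) (σ : ℝ) hσ'
    have h3 := hs.sum_le_tsum Q (fun k _ => by positivity)
    rw [ht] at h3
    have := hd p hpP
    linarith
  have h4 : (P.card : ℝ) / 2 * ∑ k ∈ Q, ‖fc F k‖ ^ 2 ≤ P.card * (2 * η) := by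
    calc (P.card : ℝ) / 2 * ∑ k ∈ Q, ‖fc F k‖ ^ 2
        = ∑ k ∈ Q, ‖fc F k‖ ^ 2 * ((P.card : ℝ) / 2) := by
          rw [mul_comm, Finset.sum_mul]
      _ ≤ ∑ k ∈ Q, ‖fc F k‖ ^ 2 * ∑ p ∈ P, ‖ex (k * S.u (el p)) - (σ : ℝ)‖ ^ 2 :=
          Finset.sum_le_sum (fun k hk => mul_le_mul_of_nonneg_left (key k hk) (by positivity))
      _ = ∑ p ∈ P, ∑ k ∈ Q, ‖fc F k‖ ^ 2 * ‖ex (k * S.u (el p)) - (σ : ℝ)‖ ^ 2 := by
          rw [Finset.sum_comm]
          exact Finset.sum_congr rfl (fun k _ => Finset.mul_sum _ _ _)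
      _ ≤ ∑ p ∈ P, 2 * η := Finset.sum_le_sum h2
      _ = P.card * (2 * η) := by rw [Finset.sum_const, nsmul_eq_mul]
  have h5 : (P.card : ℝ) * (∑ k ∈ Q, ‖fc F k‖ ^ 2) ≤ P.card * (4 * η) := by nlinarith
  exact le_of_mul_le_mul_left h5 hPc

end Pool.Agent.MQ

namespace Pool.Agent.MQ

theorem freq_mass : type_of% @freq_mass_pr := @freq_mass_pr

end Pool.Agent.MQ
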