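import Pool.Agent.Lib_helper39.MQ.Defs
import Pool.Agent.Lib_helper39.MQX.ALG
import Pool.Agent.Lib_helper39.MQX.BIL
import Pool.Agent.Lib_helper39.MQX.DUA
import Pool.Agent.Lib_helper39.MQX.EXP
import Pool.Agent.Lib_helper39.MQX.NOF
import Pool.Agent.Lib_helper39.MQX.PAR
import Pool.Agent.Lib_helper39.MQX.PRM
import Pool.Agent.Lib_helper39.MQX.SAM
import Pool.Agent.Lib_helper39.MQX.SBA
import Pool.Agent.Lib_helper39.MQX.SBB
import Pool.Agent.Lib_helper39.MQX.STB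
import Pool.Agent.Lib_helper39.MQX.TBD
import Pool.Agent.Lib_helper39.MQX.TRF

/-! MQ, block COR. -/

namespace Pool.Agent.MQ

open Filter Topology MeasureTheory

theorem cor_ex_norm (t : ℝ) : ‖ex t‖ = 1 := by
  have h : ex t = Complex.exp (((2 * Real.pi * t : ℝ) : ℂ) * Complex.I) := by
    unfold ex
    congr 1
    push_cast
    ring
  rw [h, Complex.norm_exp_ofReal_mul_I]

theorem cor_ex_add (s t : ℝ) : ex (s + t) = ex s * ex t := by
  unfold ex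
  rw [← Complex.exp_add]
  congr 1
  push_cast
  ring

theorem cor_sqrt {C D t s : ℝ} (hC : 0 ≤ C) (hD : 0 ≤ D) (ht : 0 < t) :
    Real.sqrt (4 * (C * Real.sqrt (D * t ^ (-s)))) =
      2 * Real.sqrt (C * Real.sqrt D) / t ^ (s / 4) := by
  have g2 : Real.sqrt (D * t ^ (-s)) = Real.sqrt D * t ^ (-(s / 2)) := by
    rw [Real.sqrt_mul hD, Real.sqrt_eq_rpow (t ^ (-s)), ← Real.rpow_mul ht.le]
    congr 2
    ring
  have g3 : (t ^ (-(s / 4))) ^ 2 = t ^ (-(s / 2)) := by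
    rw [← Real.rpow_natCast, ← Real.rpow_mul ht.le]
    congr 1
    push_cast
    ring
  have g4 : 4 * (C * Real.sqrt (D * t ^ (-s))) =
      (2 * Real.sqrt (C * Real.sqrt D) * t ^ (-(s / 4))) ^ 2 := by
    rw [mul_pow, mul_pow, g3, g2, Real.sq_sqrt (by positivity)]
    ring
  rw [g4, Real.sqrt_sq (by positivity), Real.rpow_neg ht.le]
  exact (div_eq_mul_inv _ _).symm

theorem cor_ar1 {M T δ : ℝ} (hM : 0 < M) (hδ : 0 < δ) (hT : T ≤ M * (δ / 2)) :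
    Real.sqrt (M * (M + T)) ≤ M * (1 + δ / 2) := by
  refine Real.sqrt_le_iff.2 ⟨by positivity, ?_⟩
  have h1 : M * (M + T) ≤ M * (M + M * (δ / 2)) := mul_le_mul_of_nonneg_left (by linarith) hM.le
  have h2 : (M * (1 + δ / 2)) ^ 2 = M * (M + M * (δ / 2)) + M ^ 2 * (δ / 2 + δ ^ 2 / 4) := by ring
  have h3 : 0 ≤ M ^ 2 * (δ / 2 + δ ^ 2 / 4) := by positivity
  linarith

theorem cor_ar2 {M δ : ℝ} : M ^ 2 * ((1 - δ) * (1 + δ / 2)) ≤ M ^ 2 * (1 - δ / 2) := by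
  refine mul_le_mul_of_nonneg_left ?_ (by positivity)
  have : (1 - δ) * (1 + δ / 2) = 1 - δ / 2 - δ ^ 2 / 2 := by ring
  have h2 := sq_nonneg δ
  linarith

theorem cor_ar3 {M δ e : ℝ} (hM : 0 < M ^ 2) (hδ : 0 < δ) (he : e < δ / 8)
    (h : M ^ 2 * (1 - e) ≤ M ^ 2 * (1 - δ / 2) + M ^ 2 * (δ / 8)) : False := by
  have h1 : M ^ 2 * (1 - δ / 8) ≤ M ^ 2 * (1 - e) := mul_le_mul_of_nonneg_left (by linarith) hM.le
  have h2 : M ^ 2 * (1 - δ / 2) + M ^ 2 * (δ / 8) = M ^ 2 * (1 - δ / 8) - M ^ 2 * (δ / 4) := by ring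
  have h3 : 0 < M ^ 2 * (δ / 4) := by positivity
  linarith

theorem cor_ar4 {X C a b m : ℝ} (hX : 3 ≤ X) (h1 : a < C) (h2 : b < C) (h3 : C < X ^ 2 + 1)
    (h4 : m ≤ a + b) : m ≤ X ^ 3 := by
  have h5 : 3 * X ^ 2 ≤ X ^ 3 := by
    have : X ^ 3 = X * X ^ 2 := by ring
    rw [this]
    exact mul_le_mul_of_nonneg_right hX (by positivity)
  have h6 : 9 ≤ X ^ 2 := by nlinarith
  linarith

/-- powers of the logarithm -/
theorem cor_small (C s : ℝ) (a : ℕ) (h : (a : ℝ) + 1 ≤ s) :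
    Tendsto (fun t : ℝ => C * ((1 + t) ^ a / t ^ s)) atTop (𝓝 0) := by
  have h1 : Tendsto (fun t : ℝ => (1 + t) ^ a / t ^ s) atTop (𝓝 0) := by
    have h2 : Tendsto (fun t : ℝ => (2 : ℝ) ^ a / t) atTop (𝓝 0) :=
      tendsto_const_nhds.div_atTop tendsto_id
    refine squeeze_zero' ?_ ?_ h2
    · filter_upwards [eventually_ge_atTop (1 : ℝ)] with t ht
      positivity
    · filter_upwards [eventually_ge_atTop (1 : ℝ)] with t ht
      have h3 : (1 + t) ^ a ≤ (2 * t) ^ a := pow_le_pow_left₀ (by linarith) (by linarith) a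
      have h4 : t ^ a * t ≤ t ^ s := by
        have h5 : t ^ a * t = t ^ ((a : ℝ) + 1) := by
          rw [Real.rpow_add (by linarith), Real.rpow_natCast, Real.rpow_one]
        rw [h5]
        exact Real.rpow_le_rpow_of_exponent_le ht h
      have h6 : 0 < t ^ a * t := by positivity
      rw [div_le_div_iff₀ (by linarith) (by linarith)]
      rw [mul_pow] at h3
      calc (1 + t) ^ a * t ≤ (2 ^ a * t ^ a) * t := mul_le_mul_of_nonneg_right h3 (by linarith)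
        _ = 2 ^ a * (t ^ a * t) := by ring
        _ ≤ 2 ^ a * t ^ s := mul_le_mul_of_nonneg_left h4 (by positivity)
  have := h1.const_mul C
  rwa [mul_zero] at this

section
variable {b c : ℤ} (S : Sys b c)

theorem cor_es_norm (k : ℤ) (X : ℝ) : ‖S.es k X‖ ≤ ((S.MF X).card : ℝ) := by
  unfold Sys.es
  calc ‖∑ v ∈ S.MF X, ex (k * S.u v)‖ ≤ ∑ v ∈ S.MF X, ‖ex (k * S.u v)‖ := norm_sum_le _ _
    _ = ((S.MF X).card : ℝ) := by
        rw [Finset.sum_congr rfl (g := fun _ => (1 : ℝ)) (fun v _ => cor_ex_norm _)]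
        simp

theorem cor_sq (h : ℕ → ℤ) (k : ℤ) (X : ℝ) : S.As h k X ^ 2 =
    ∑ q ∈ S.MF X ×ˢ S.MF X, ((gg b c h q.1 : ℂ) * (gg b c h q.2 : ℂ)) *
      ex (k * (S.u q.1 + S.u q.2)) := by
  unfold Sys.As
  rw [sq, Finset.sum_mul_sum, ← Finset.sum_product']
  refine Finset.sum_congr rfl fun q _ => ?_
  rw [mul_add, cor_ex_add]
  ring

theorem cor_gg {h : ℕ → ℤ} (hh : Sgn h) {X : ℝ} {v : El} (hv : v ∈ S.MF X) :
    ‖(gg b c h v : ℂ)‖ = 1 := by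
  have h1 : 0 < nm b c v := wd_nm S ((mem_MF S).1 hv).1
  rcases gg_pm hh h1.ne' with h2 | h2 <;> rw [h2] <;> simp

/-- the frequencies outside `T` -/
theorem cor_partQ {h : ℕ → ℤ} (hh : Sgn h) (X : ℝ) (Q : Finset ℤ) (w : ℤ → ℂ) :
    ‖∑ k ∈ Q, w k * S.As h k X ^ 2‖ ≤
      ∑ q ∈ S.MF X ×ˢ S.MF X, ‖∑ k ∈ Q, w k * ex (k * (S.u q.1 + S.u q.2))‖ := by
  have e : ∑ k ∈ Q, w k * S.As h k X ^ 2 = ∑ q ∈ S.MF X ×ˢ S.MF X,
      ((gg b c h q.1 : ℂ) * (gg b c h q.2 : ℂ)) *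
        ∑ k ∈ Q, w k * ex (k * (S.u q.1 + S.u q.2)) := by
    simp only [cor_sq, Finset.mul_sum]
    rw [Finset.sum_comm]
    refine Finset.sum_congr rfl fun q _ => Finset.sum_congr rfl fun k _ => ?_
    ring
  rw [e]
  refine (norm_sum_le _ _).trans (Finset.sum_le_sum fun q hq => ?_)
  rw [Finset.mem_product] at hq
  rw [norm_mul, norm_mul, cor_gg S hh hq.1, cor_gg S hh hq.2, one_mul, one_mul]

/-- the frequencies in `T` -/
theorem cor_partT {h : ℕ → ℤ} (X : ℝ) (T : Finset ℤ) (w : ℤ → ℂ) {G W A : ℝ} (hG : 0 ≤ G)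
    (h1 : ∀ k ∈ T, ‖S.As h k X‖ ≤ G) (h2 : ∑ k ∈ T, ‖w k‖ ^ 2 ≤ W)
    (h3 : ∑ k ∈ T, ‖S.As h k X‖ ^ 2 ≤ A) :
    ‖∑ k ∈ T, w k * S.As h k X ^ 2‖ ≤ G * (Real.sqrt W * Real.sqrt A) := by
  calc ‖∑ k ∈ T, w k * S.As h k X ^ 2‖ ≤ ∑ k ∈ T, ‖w k * S.As h k X ^ 2‖ := norm_sum_le _ _
    _ ≤ ∑ k ∈ T, G * (‖w k‖ * ‖S.As h k X‖) := by
        refine Finset.sum_le_sum fun k hk => ?_
        rw [norm_mul, norm_pow]
        have := h1 k hk
        have h4 : 0 ≤ ‖w k‖ * ‖S.As h k X‖ := by positivity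
        nlinarith
    _ = G * ∑ k ∈ T, ‖w k‖ * ‖S.As h k X‖ := by rw [Finset.mul_sum]
    _ ≤ G * (Real.sqrt (∑ k ∈ T, ‖w k‖ ^ 2) * Real.sqrt (∑ k ∈ T, ‖S.As h k X‖ ^ 2)) :=
        mul_le_mul_of_nonneg_left (Real.sum_mul_le_sqrt_mul_sqrt _ _ _) hG
    _ ≤ G * (Real.sqrt W * Real.sqrt A) := by
        refine mul_le_mul_of_nonneg_left ?_ hG
        exact mul_le_mul (Real.sqrt_le_sqrt h2) (Real.sqrt_le_sqrt h3) (Real.sqrt_nonneg _)
          (Real.sqrt_nonneg _)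

/-- the row sums -/
theorem cor_row {X E : ℝ} (hE : 0 ≤ E) (T : Finset ℤ) (k : ℤ)
    (h : ∀ k' ∈ T, k' ≠ k → ‖S.es (k - k') X‖ ≤ E) :
    ∑ k' ∈ T, ‖S.es (k - k') X‖ ≤ ((S.MF X).card : ℝ) + T.card * E := by
  classical
  calc ∑ k' ∈ T, ‖S.es (k - k') X‖
      ≤ ∑ k' ∈ T, ((if k' = k then ((S.MF X).card : ℝ) else 0) + E) := by
        refine Finset.sum_le_sum fun k' hk' => ?_
        by_cases he : k' = k
        · rw [if_pos he]
          have := cor_es_norm S (k - k') X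
          linarith
        · rw [if_neg he, zero_add]
          exact h k' hk' he
    _ = (if k ∈ T then ((S.MF X).card : ℝ) else 0) + T.card * E := by
        rw [Finset.sum_add_distrib, Finset.sum_ite_eq', Finset.sum_const, nsmul_eq_mul]
    _ ≤ ((S.MF X).card : ℝ) + T.card * E := by
        have : (if k ∈ T then ((S.MF X).card : ℝ) else 0) ≤ ((S.MF X).card : ℝ) := by
          split_ifs
          · exact le_rfl
          · positivity
        linarith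

end

theorem cor_KK {X : ℝ} {k : ℤ} (hk : k ∈ KK (X ^ 2)) : |(k : ℝ)| < ⌈X ^ 2⌉ := by
  rw [KK, Finset.mem_Ioo] at hk
  rw [abs_lt]
  constructor
  · exact_mod_cast hk.1
  · exact_mod_cast hk.2

theorem cor_w {X : ℝ} {k : ℤ} (hk : k ∈ KK (X ^ 2)) (z : ℂ) :
    ‖((1 - |(k : ℝ)| / ⌈X ^ 2⌉ : ℝ) : ℂ) * z‖ ≤ ‖z‖ := by
  have h1 := cor_KK hk
  have h2 : (0 : ℝ) < ⌈X ^ 2⌉ := lt_of_le_of_lt (abs_nonneg _) h1
  have h3 : |(k : ℝ)| / ⌈X ^ 2⌉ < 1 := (div_lt_one h2).2 h1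
  have h4 : 0 ≤ |(k : ℝ)| / ⌈X ^ 2⌉ := by positivity
  rw [norm_mul, Complex.norm_real, Real.norm_eq_abs]
  have h5 : |1 - |(k : ℝ)| / ⌈X ^ 2⌉| ≤ 1 := by
    rw [abs_le]
    constructor <;> linarith
  calc |1 - |(k : ℝ)| / ⌈X ^ 2⌉| * ‖z‖ ≤ 1 * ‖z‖ := mul_le_mul_of_nonneg_right h5 (norm_nonneg _)
    _ = ‖z‖ := one_mul _

theorem core_pr : ∃ A' : ℝ, 0 < A' ∧ ∀ (b c : ℤ) (S : Sys b c), ¬ IsSquare (dsc b c) →
    ∀ h : ℕ → ℤ, Sgn h → (∃ v : El, 0 < nm b c v ∧ gg b c h v = -1) → ∃ X₀ : ℝ, ∀ X : ℝ,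
    X₀ ≤ X → ∀ F : ℝ → ℝ, ¬ Loc S h (X ^ 2) (Real.log X ^ A') F := by
  classical
  obtain ⟨κ, hκ0, hκ1, hexp⟩ := exp_sum
  have hε : 0 < κ / 4 := by linarith
  obtain ⟨B, hB1, hfew⟩ := few_freq (κ / 4) hε
  obtain ⟨a₁, hbil⟩ := bilin
  obtain ⟨a₂, hsam⟩ := sampling
  set A' : ℝ := B + 4 * a₂ + 2 * a₁ + 8 with hA'
  have ha1 : (0 : ℝ) ≤ a₁ := by positivity
  have ha2 : (0 : ℝ) ≤ a₂ := by positivity
  refine ⟨A', by linarith, ?_⟩
  intro b c S hs h hh hv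
  obtain ⟨X₁, hX₁⟩ := hexp b c S
  obtain ⟨K, Y₀, hpr⟩ := primes_exist S hs hh (ε := κ / 4 / 4) (by linarith)
  obtain ⟨Z₀, hfew'⟩ := hfew b c S K
  obtain ⟨Cb, hCb, hbil'⟩ := hbil b c S hs
  obtain ⟨Cs, hCs, hsam'⟩ := hsam b c S hs
  obtain ⟨Ct, hCt, hstep⟩ := step_b S
  obtain ⟨Cm, hCm, hcard⟩ := MF_card S
  obtain ⟨δ, hδ, X₂, hno⟩ := no_freq S hs hh hv
  -- the conditions on `X`
  have hlog := Real.tendsto_log_atTop
  have E4 : ∀ᶠ X : ℝ in atTop, Z₀ ≤ X ^ 2 :=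
    (tendsto_pow_atTop (two_ne_zero)).eventually_ge_atTop Z₀
  have E5 : ∀ᶠ X : ℝ in atTop, Y₀ ≤ Real.log (X ^ 2) ^ B := by
    have h1 : Tendsto (fun X : ℝ => Real.log (X ^ 2)) atTop atTop :=
      hlog.comp (tendsto_pow_atTop two_ne_zero)
    exact ((tendsto_rpow_atTop (by linarith : (0 : ℝ) < B)).comp h1).eventually_ge_atTop Y₀
  have E6 : ∀ᶠ X : ℝ in atTop, Real.log X ^ A' ≤ X := by
    have h1 := (isLittleO_log_rpow_rpow_atTop A' (show (0 : ℝ) < 1 by norm_num)).bound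
      (show (0 : ℝ) < 1 by norm_num)
    filter_upwards [h1, eventually_ge_atTop (0 : ℝ)] with X hX h0
    rw [Real.rpow_one, one_mul, Real.norm_eq_abs, Real.norm_eq_abs, abs_of_nonneg h0] at hX
    exact (le_abs_self _).trans hX
  have E7 : ∀ᶠ X : ℝ in atTop, 1 ≤ Real.log X := hlog.eventually_ge_atTop 1
  have E8 : ∀ᶠ X : ℝ in atTop,
      Cb * ((1 + Real.log X) ^ a₁ / Real.log X ^ (A' / 2)) < δ / 8 :=
    ((cor_small Cb (A' / 2) a₁ (by rw [hA']; linarith)).comp hlog).eventually_lt_const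
      (by linarith)
  have E9 : ∀ᶠ X : ℝ in atTop,
      (Cs * Cm ^ 2 * (2 * Real.sqrt (Ct * Real.sqrt (K * 2 ^ B)))) *
        ((1 + Real.log X) ^ a₂ / Real.log X ^ ((A' - B) / 4)) < δ / 8 :=
    ((cor_small _ ((A' - B) / 4) a₂ (by rw [hA']; linarith)).comp hlog).eventually_lt_const
      (by linarith)
  have E10 : ∀ᶠ X : ℝ in atTop, Cm * X ^ (-(κ / 2)) < δ / 2 := by
    have h1 := (tendsto_rpow_neg_atTop (show 0 < κ / 2 by linarith)).const_mul Cm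
    rw [mul_zero] at h1
    exact h1.eventually_lt_const (by linarith)
  obtain ⟨X₀, hX₀⟩ := eventually_atTop.1 ((eventually_ge_atTop X₁).and
    ((eventually_ge_atTop X₂).and ((eventually_ge_atTop (3 : ℝ)).and (E4.and (E5.and (E6.and
      (E7.and (E8.and (E9.and E10)))))))))
  refine ⟨X₀, fun X hX F hF => ?_⟩
  obtain ⟨e1, e2, e3, e4, e5, e6, e7, e8, e9, e10⟩ := hX₀ X hX
  have hX0 : 0 < X := by linarith
  set t : ℝ := Real.log X with ht
  set L : ℝ := t ^ A' with hL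
  have ht0 : 0 < t := by linarith
  have hL1 : 1 ≤ L := Real.one_le_rpow e7 (by linarith)
  have hL0 : 0 < L := by linarith
  have hLX : L ≤ X ^ 2 := by
    refine (show L ≤ X from e6).trans ?_
    rw [sq]
    exact le_mul_of_one_le_left hX0.le (by linarith)
  set M : ℝ := ((S.MF X).card : ℝ) with hM
  have hM1 : X / Cm ≤ M := (hcard X (by linarith)).1
  have hM0 : 0 < M := lt_of_lt_of_le (by positivity) hM1
  have hXM : X ≤ Cm * M := by
    rw [div_le_iff₀ (by linarith)] at hM1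
    linarith
  -- the primes
  have hlog2 : Real.log (X ^ 2) = 2 * t := by
    rw [Real.log_pow]
    push_cast
    rfl
  set Y : ℝ := Real.log (X ^ 2) ^ B with hY
  have hY2 : Y = 2 ^ B * t ^ B := by
    rw [hY, hlog2, Real.mul_rpow (by norm_num) ht0.le]
  have hY0 : 0 < Y := by
    rw [hY2]
    positivity
  obtain ⟨P, k₀, σ, el, hk₀, hσ, hP, hPc⟩ := hpr Y e5
  have hPne : P.Nonempty := by
    rw [← Finset.card_pos]
    have : (0 : ℝ) < P.card := lt_of_lt_of_le (Real.rpow_pos_of_pos hY0 _) hPc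
    exact_mod_cast this
  -- the frequencies
  set T : Finset ℤ := (KK (X ^ 2)).filter (fun k => 3 / 4 ≤ ‖Pa S P el k‖) with hT
  set Q : Finset ℤ := (KK (X ^ 2)).filter (fun k => ¬ 3 / 4 ≤ ‖Pa S P el k‖) with hQ
  have hTc : (T.card : ℝ) ≤ (X ^ 2) ^ (κ / 4) := hfew' (X ^ 2) e4 h P k₀ σ el hk₀ hP hPc
  -- the displacement
  set η : ℝ := Ct * Real.sqrt (K * Y / L) with hη
  have hdf : ∀ p ∈ P, df F (S.u (el p)) σ ≤ η := by
    intro p hp
    have h1 := hstep h hh (X ^ 2) L F hL1 hLX hF (el p) (hP.wd p hp)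
    rw [hP.sign p hp] at h1
    refine h1.trans ?_
    rw [hη]
    refine mul_le_mul_of_nonneg_left (Real.sqrt_le_sqrt ?_) (by linarith)
    refine div_le_div_of_nonneg_right ?_ hL0.le
    rw [hP.norm p hp]
    push_cast
    have h2 : (k₀ : ℝ) ≤ K := by exact_mod_cast hk₀
    exact mul_le_mul h2 (hP.prime p hp).2 (by positivity) (by positivity)
  have hmass : ∑ k ∈ Q, ‖fc F k‖ ^ 2 ≤ 4 * η := by
    refine freq_mass S hF.per hF.meas hF.pm P hPne el hσ hdf Q ?_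
    intro k hk
    rw [hQ, Finset.mem_filter, not_le] at hk
    exact hk.2
  have hpars := parseval hF.per hF.meas hF.pm
  have hmassT : ∑ k ∈ T, ‖fc F k‖ ^ 2 ≤ 1 := by
    rw [← hpars.2.1]
    exact hpars.1.sum_le_tsum T fun k _ => by positivity
  -- the weights
  set w : ℤ → ℂ := fun k => ((1 - |(k : ℝ)| / ⌈X ^ 2⌉ : ℝ) : ℂ) * fc F k with hw
  have hwT : ∑ k ∈ T, ‖w k‖ ^ 2 ≤ 1 := by
    refine le_trans (Finset.sum_le_sum fun k hk => ?_) hmassT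
    rw [hT, Finset.mem_filter] at hk
    exact pow_le_pow_left₀ (norm_nonneg _) (cor_w hk.1 _) 2
  have hwQ : ∑ k ∈ Q, ‖w k‖ ^ 2 ≤ 4 * η := by
    refine le_trans (Finset.sum_le_sum fun k hk => ?_) hmass
    rw [hQ, Finset.mem_filter] at hk
    exact pow_le_pow_left₀ (norm_nonneg _) (cor_w hk.1 _) 2
  -- the bilinear form
  have hmain := hbil' h hh X L F (by linarith) hL1 e6 hF
  have hsplit : ∑ k ∈ KK (X ^ 2), ((1 - |(k : ℝ)| / ⌈X ^ 2⌉ : ℝ) : ℂ) * fc F k * S.As h k X ^ 2 =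
      ∑ k ∈ T, w k * S.As h k X ^ 2 + ∑ k ∈ Q, w k * S.As h k X ^ 2 := by
    rw [hT, hQ, Finset.sum_filter_add_sum_filter_not]
  rw [hsplit] at hmain
  -- the part outside `T`
  have hpQ : ‖∑ k ∈ Q, w k * S.As h k X ^ 2‖ ≤ M ^ 2 * (δ / 8) := by
    have h1 := cor_partQ S hh X Q w
    have h2 := hsam' X (by linarith) Q w (by rw [hQ]; exact Finset.filter_subset _ _)
    have h3 : Real.sqrt (∑ k ∈ Q, ‖w k‖ ^ 2) ≤ Real.sqrt (4 * η) := Real.sqrt_le_sqrt hwQ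
    have h4 : Real.sqrt (4 * η) =
        2 * Real.sqrt (Ct * Real.sqrt (K * 2 ^ B)) / t ^ ((A' - B) / 4) := by
      have g1 : K * Y / L = K * 2 ^ B * t ^ (-(A' - B)) := by
        rw [hY2, hL, show -(A' - B) = B - A' by ring, Real.rpow_sub ht0]
        ring
      rw [hη, g1]
      exact cor_sqrt (by linarith) (by positivity) ht0
    have h5 : (1 + t) ^ a₂ * Real.sqrt (4 * η) * (Cs * Cm ^ 2) ≤ δ / 8 := by
      rw [h4]
      refine le_trans (le_of_eq ?_) e9.le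
      ring
    have h6 : X ^ 2 ≤ Cm ^ 2 * M ^ 2 := by
      rw [← mul_pow]
      exact pow_le_pow_left₀ hX0.le hXM 2
    have h7 : 0 ≤ (1 + t) ^ a₂ * Real.sqrt (4 * η) := by positivity
    calc ‖∑ k ∈ Q, w k * S.As h k X ^ 2‖ ≤ Cs * X ^ 2 * (1 + t) ^ a₂ *
          Real.sqrt (∑ k ∈ Q, ‖w k‖ ^ 2) := h1.trans h2
      _ ≤ Cs * X ^ 2 * (1 + t) ^ a₂ * Real.sqrt (4 * η) :=
          mul_le_mul_of_nonneg_left h3 (by positivity)
      _ = X ^ 2 * (Cs * ((1 + t) ^ a₂ * Real.sqrt (4 * η))) := by ring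
      _ ≤ (Cm ^ 2 * M ^ 2) * (Cs * ((1 + t) ^ a₂ * Real.sqrt (4 * η))) :=
          mul_le_mul_of_nonneg_right h6 (by positivity)
      _ = M ^ 2 * ((1 + t) ^ a₂ * Real.sqrt (4 * η) * (Cs * Cm ^ 2)) := by ring
      _ ≤ M ^ 2 * (δ / 8) := mul_le_mul_of_nonneg_left h5 (by positivity)
  -- the part in `T`
  have h0KK : (0 : ℤ) ∈ KK (X ^ 2) := by
    rw [KK, Finset.mem_Ioo]
    have : 0 < ⌈X ^ 2⌉ := Int.ceil_pos.2 (by positivity)
    constructor <;> linarith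
  have hδ1 : 0 ≤ (1 - δ) * M := (norm_nonneg _).trans (hno X e2 0 h0KK)
  have hδ2 : 0 ≤ 1 - δ := by
    by_contra hcon
    have := mul_neg_of_neg_of_pos (not_le.1 hcon) hM0
    linarith
  set E : ℝ := X ^ (1 - κ) with hE
  have hE0 : 0 ≤ E := Real.rpow_nonneg hX0.le _
  have hdual : ∑ k ∈ T, ‖S.As h k X‖ ^ 2 ≤ M * (M + T.card * E) := by
    refine dual_sum S hh X T (M + T.card * E) (by positivity) fun k hk => ?_
    refine cor_row S hE0 T k fun k' hk' hne => ?_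
    refine hX₁ X e1 (k - k') (sub_ne_zero.2 (Ne.symm hne)) ?_
    rw [hT, Finset.mem_filter] at hk hk'
    have h1 := cor_KK hk.1
    have h2 := cor_KK hk'.1
    have h3 : (⌈X ^ 2⌉ : ℝ) < X ^ 2 + 1 := Int.ceil_lt_add_one _
    have h4 : |((k - k' : ℤ) : ℝ)| ≤ |(k : ℝ)| + |(k' : ℝ)| := by
      push_cast
      exact abs_sub _ _
    exact cor_ar4 e3 h1 h2 h3 h4
  have hTE : T.card * E ≤ M * (δ / 2) := by
    have h1 : (X ^ 2) ^ (κ / 4) * E = X * X ^ (-(κ / 2)) := by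
      have g1 : (X ^ 2) ^ (κ / 4) = X ^ (κ / 2) := by
        rw [← Real.rpow_natCast X 2, ← Real.rpow_mul hX0.le]
        congr 1
        push_cast
        ring
      have g2 : X * X ^ (-(κ / 2)) = X ^ (1 + -(κ / 2)) := by
        rw [Real.rpow_add hX0, Real.rpow_one]
      rw [g1, hE, ← Real.rpow_add hX0, g2]
      congr 1
      ring
    calc T.card * E ≤ (X ^ 2) ^ (κ / 4) * E := mul_le_mul_of_nonneg_right hTc hE0
      _ = X * X ^ (-(κ / 2)) := h1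
      _ ≤ Cm * M * X ^ (-(κ / 2)) :=
          mul_le_mul_of_nonneg_right hXM (Real.rpow_nonneg hX0.le _)
      _ = M * (Cm * X ^ (-(κ / 2))) := by ring
      _ ≤ M * (δ / 2) := mul_le_mul_of_nonneg_left e10.le hM0.le
  have hpT : ‖∑ k ∈ T, w k * S.As h k X ^ 2‖ ≤ M ^ 2 * (1 - δ / 2) := by
    have h1 := cor_partT S X T w hδ1 (fun k hk => hno X e2 k (by
      rw [hT, Finset.mem_filter] at hk
      exact hk.1)) hwT hdual
    refine h1.trans ?_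
    have h2 : Real.sqrt (M * (M + T.card * E)) ≤ M * (1 + δ / 2) := cor_ar1 hM0 hδ hTE
    rw [Real.sqrt_one, one_mul]
    calc (1 - δ) * M * Real.sqrt (M * (M + T.card * E))
        ≤ (1 - δ) * M * (M * (1 + δ / 2)) := mul_le_mul_of_nonneg_left h2 hδ1
      _ = M ^ 2 * ((1 - δ) * (1 + δ / 2)) := by ring
      _ ≤ M ^ 2 * (1 - δ / 2) := cor_ar2
  -- the error in the bilinear form
  have hsqL : Real.sqrt L = t ^ (A' / 2) := by
    rw [hL, Real.sqrt_eq_rpow, ← Real.rpow_mul ht0.le]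
    congr 1
    ring
  have herr : Cb * (1 + t) ^ a₁ / Real.sqrt L < δ / 8 := by
    rw [hsqL, mul_div_assoc]
    exact e8
  have hM2 : 0 < M ^ 2 := by positivity
  have hfin : M ^ 2 * (1 - Cb * (1 + t) ^ a₁ / Real.sqrt L) ≤
      M ^ 2 * (1 - δ / 2) + M ^ 2 * (δ / 8) :=
    hmain.trans ((norm_add_le _ _).trans (add_le_add hpT hpQ))
  exact cor_ar3 hM2 hδ herr hfin


end Pool.Agent.MQ

namespace Pool.Agent.MQ

theorem core : type_of% @core_pr := @core_pr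

end Pool.Agent.MQ
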