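import Pool.Agent.Lib_helper39.MQ.Defs
import Pool.Agent.Lib_helper39.MQX.ALG
import Pool.Agent.Lib_helper39.MQX.FAA
import Pool.Agent.Lib_helper39.MQX.FAC
import Pool.Agent.Lib_helper39.MQX.SBB
import Pool.Agent.Lib_helper39.MQX.SBC

/-! MQ block STF: the step function. -/

namespace Pool.Agent.MQ

open Filter Topology MeasureTheory

section
variable {b c : ℤ} (S : Sys b c)

/-- the condition which defines the step function -/
def stf_P (h : ℕ → ℤ) (ρ : ℕ) (x : ℝ) : Prop :=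
  ∃ i p q p' q' : ℕ, S.Cell ρ i p q p' q' ∧ S.u (cn S.e i p q) ≤ x ∧
    x < S.u (cn S.e i p' q') ∧ gg b c h (cn S.e i p q) = 1

theorem stf_P_iff {h : ℕ → ℤ} {ρ i p q p' q' : ℕ} (hc : S.Cell ρ i p q p' q') {x : ℝ}
    (h1 : S.u (cn S.e i p q) ≤ x) (h2 : x < S.u (cn S.e i p' q')) :
    stf_P S h ρ x ↔ gg b c h (cn S.e i p q) = 1 := by
  constructor
  · rintro ⟨i₁, p₁, q₁, p₁', q₁', hc₁, h3, h4, h5⟩
    obtain ⟨e1, e2, e3, e4, e5⟩ := cell_disj S hc hc₁ h1 h2 h3 h4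
    rw [e1, e2, e3]
    exact h5
  · intro h5
    exact ⟨i, p, q, p', q', hc, h1, h2, h5⟩

theorem stf_find {x : ℝ} (h0 : 0 ≤ x) : ∀ n : ℕ, x < S.u (S.e n) →
    ∃ i, i < n ∧ S.u (S.e i) ≤ x ∧ x < S.u (S.e (i + 1)) := by
  intro n
  induction n with
  | zero =>
    intro h
    rw [(u_ends S).1] at h
    exact absurd h (not_lt.mpr h0)
  | succ n ih =>
    intro h
    by_cases h' : x < S.u (S.e n)
    · obtain ⟨i, hi, h1, h2⟩ := ih h'
      exact ⟨i, by omega, h1, h2⟩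
    · exact ⟨n, by omega, not_lt.mp h', h⟩

theorem stf_cover {ρ : ℕ} (hρ : 1 ≤ ρ) {x : ℝ} (h0 : 0 ≤ x) (h1 : x < 1) :
    ∃ i p q p' q' : ℕ, S.Cell ρ i p q p' q' ∧ S.u (cn S.e i p q) ≤ x ∧
      x < S.u (cn S.e i p' q') := by
  have h2 : x < S.u (S.e S.r) := by
    rw [(u_ends S).2.1]
    exact h1
  obtain ⟨i, hi, h3, h4⟩ := stf_find S h0 S.r h2
  obtain ⟨p, q, p', q', hc, h5, h6⟩ := cell_cover S hρ hi h3 h4
  exact ⟨i, p, q, p', q', hc, h5, h6⟩

theorem stf_mono : ∀ n : ℕ, n ≤ S.r → 0 ≤ S.u (S.e n) := by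
  intro n
  induction n with
  | zero =>
    intro _
    rw [(u_ends S).1]
  | succ n ih =>
    intro h
    exact le_trans (ih (by omega)) (le_of_lt ((u_ends S).2.2 n (by omega)))

theorem stf_mono' : ∀ n : ℕ, n ≤ S.r → S.u (S.e (S.r - n)) ≤ 1 := by
  intro n
  induction n with
  | zero =>
    intro _
    rw [Nat.sub_zero, (u_ends S).2.1]
  | succ n ih =>
    intro h
    have h1 := (u_ends S).2.2 (S.r - (n + 1)) (by omega)
    rw [show S.r - (n + 1) + 1 = S.r - n by omega] at h1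
    exact le_trans (le_of_lt h1) (ih (by omega))

theorem stf_le_one {n : ℕ} (h : n ≤ S.r) : S.u (S.e n) ≤ 1 := by
  have := stf_mono' S (S.r - n) (by omega)
  rwa [show S.r - (S.r - n) = n by omega] at this

theorem stf_cell_pos {ρ i p q p' q' : ℕ} (hc : S.Cell ρ i p q p' q') :
    1 ≤ p + q ∧ 1 ≤ p' + q' := by
  obtain ⟨_, h, _⟩ := hc
  constructor
  · by_contra h1
    have h2 : p = 0 := by omega
    have h3 : q = 0 := by omega
    rw [h2, h3] at h
    simp at h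
  · by_contra h1
    have h2 : p' = 0 := by omega
    have h3 : q' = 0 := by omega
    rw [h2, h3] at h
    simp at h

theorem stf_nm {ρ i p q p' q' : ℕ} (hc : S.Cell ρ i p q p' q') :
    nm b c (cn S.e i p q) ≠ 0 := by
  obtain ⟨C, hC, h⟩ := cone_nm S
  have h1 := (h i p q hc.1).1
  have h2 := (stf_cell_pos S hc).1
  have h3 : (0 : ℝ) < ((p + q : ℕ) : ℝ) ^ 2 / C := by
    have : (0 : ℝ) < ((p + q : ℕ) : ℝ) := by exact_mod_cast h2
    positivity
  intro h4
  rw [h4] at h1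
  simp only [Int.cast_zero] at h1
  linarith

theorem stf_in {ρ i p q p' q' : ℕ} (hc : S.Cell ρ i p q p' q') {t : ℝ}
    (h1 : S.u (cn S.e i p q) ≤ t) (h2 : t < S.u (cn S.e i p' q')) : 0 ≤ t ∧ t < 1 := by
  have hp := stf_cell_pos S hc
  have h3 := (u_cone S hc.1 hp.1).1
  have h4 := (u_cone S hc.1 hp.2).2
  have h5 := stf_mono S i (le_of_lt hc.1)
  have h6 := stf_le_one S (n := i + 1) hc.1
  exact ⟨by linarith, by linarith⟩

theorem step_fun_pr : ∃ C : ℝ, 1 ≤ C ∧ ∀ (h : ℕ → ℤ), Sgn h → ∀ ρ : ℕ, 1 ≤ ρ → ∃ F : ℝ → ℝ,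
    (∀ t, F (t + 1) = F t) ∧ Measurable F ∧ (∀ t, F t = 1 ∨ F t = -1) ∧
    (∃ J : Finset ℝ, (J.card : ℝ) ≤ C * ρ ^ 2 ∧ ∀ s t : ℝ, s ≤ t →
      (∀ j ∈ J, ∀ n : ℤ, ¬ (s < j + n ∧ j + n ≤ t)) → F s = F t) ∧
    ∀ i p q p' q' : ℕ, S.Cell ρ i p q p' q' → ∀ t : ℝ, S.u (cn S.e i p q) ≤ t →
      t < S.u (cn S.e i p' q') → F t = gg b c h (cn S.e i p q) := by
  classical
  refine ⟨4 * S.r, ?_, ?_⟩
  · have : (1 : ℝ) ≤ (S.r : ℝ) := by exact_mod_cast S.r_pos
    linarith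
  intro h hh ρ hρ
  refine ⟨fun t => if stf_P S h ρ (Int.fract t) then 1 else -1, ?_, ?_, ?_, ?_, ?_⟩
  · intro t
    simp only [Int.fract_add_one]
  · apply Measurable.ite _ measurable_const measurable_const
    have : {t : ℝ | stf_P S h ρ (Int.fract t)} =
        ⋃ i : ℕ, ⋃ p : ℕ, ⋃ q : ℕ, ⋃ p' : ℕ, ⋃ q' : ℕ,
          {t : ℝ | S.Cell ρ i p q p' q' ∧ S.u (cn S.e i p q) ≤ Int.fract t ∧
            Int.fract t < S.u (cn S.e i p' q') ∧ gg b c h (cn S.e i p q) = 1} := by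
      ext t
      simp only [stf_P, Set.mem_setOf_eq, Set.mem_iUnion]
    rw [this]
    refine MeasurableSet.iUnion fun i => MeasurableSet.iUnion fun p =>
      MeasurableSet.iUnion fun q => MeasurableSet.iUnion fun p' =>
      MeasurableSet.iUnion fun q' => ?_
    apply MeasurableSet.inter (MeasurableSet.const _)
    apply MeasurableSet.inter (measurableSet_le measurable_const measurable_fract)
    exact MeasurableSet.inter (measurableSet_lt measurable_fract measurable_const)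
      (MeasurableSet.const _)
  · intro t
    by_cases hP : stf_P S h ρ (Int.fract t)
    · left
      simp [hP]
    · right
      simp [hP]
  · refine ⟨((Finset.range S.r) ×ˢ (Finset.range (ρ + 1)) ×ˢ (Finset.range (ρ + 1))).image
      (fun x : ℕ × ℕ × ℕ => S.u (cn S.e x.1 x.2.1 x.2.2)), ?_, ?_⟩
    · have h1 : (((Finset.range S.r) ×ˢ (Finset.range (ρ + 1)) ×ˢ
          (Finset.range (ρ + 1))).image
          (fun x : ℕ × ℕ × ℕ => S.u (cn S.e x.1 x.2.1 x.2.2))).card ≤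
          S.r * ((ρ + 1) * (ρ + 1)) := by
        refine le_trans Finset.card_image_le ?_
        simp [Finset.card_product]
      have h2 : ((((Finset.range S.r) ×ˢ (Finset.range (ρ + 1)) ×ˢ
          (Finset.range (ρ + 1))).image
          (fun x : ℕ × ℕ × ℕ => S.u (cn S.e x.1 x.2.1 x.2.2))).card : ℝ) ≤
          (S.r : ℝ) * (((ρ : ℝ) + 1) * ((ρ : ℝ) + 1)) := by
        exact_mod_cast h1
      have h3 : (1 : ℝ) ≤ (ρ : ℝ) := by exact_mod_cast hρ
      have h4 : ((ρ : ℝ) + 1) * ((ρ : ℝ) + 1) ≤ 4 * (ρ : ℝ) ^ 2 := by nlinarith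
      have h5 : (0 : ℝ) ≤ (S.r : ℝ) := Nat.cast_nonneg _
      calc _ ≤ (S.r : ℝ) * (((ρ : ℝ) + 1) * ((ρ : ℝ) + 1)) := h2
        _ ≤ (S.r : ℝ) * (4 * (ρ : ℝ) ^ 2) := mul_le_mul_of_nonneg_left h4 h5
        _ = 4 * S.r * (ρ : ℝ) ^ 2 := by ring
    · intro s t hst hJ
      have hmem : ∀ i p q : ℕ, i < S.r → p + q ≤ ρ → S.u (cn S.e i p q) ∈
          ((Finset.range S.r) ×ˢ (Finset.range (ρ + 1)) ×ˢ
          (Finset.range (ρ + 1))).image
          (fun x : ℕ × ℕ × ℕ => S.u (cn S.e x.1 x.2.1 x.2.2)) := by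
        intro i p q hi hpq
        refine Finset.mem_image.mpr ⟨(i, p, q), ?_, rfl⟩
        simp only [Finset.mem_product, Finset.mem_range]
        exact ⟨hi, by omega, by omega⟩
      have h0 := hmem 0 1 0 S.r_pos (by omega)
      have hu0 : S.u (cn S.e 0 1 0) = 0 := by
        have : cn S.e 0 1 0 = S.e 0 := by
          simp [cn]
        rw [this, (u_ends S).1]
      rw [hu0] at h0
      have h1 : (⌊t⌋ : ℝ) ≤ s := by
        by_contra h2
        have := hJ 0 h0 ⌊t⌋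
        apply this
        rw [zero_add]
        exact ⟨not_le.mp h2, Int.floor_le t⟩
      have hfl : ⌊s⌋ = ⌊t⌋ := by
        rw [Int.floor_eq_iff]
        exact ⟨h1, lt_of_le_of_lt hst (Int.lt_floor_add_one t)⟩
      have hfs : Int.fract s = s - ⌊t⌋ := by
        rw [Int.fract, hfl]
      have hft : Int.fract t = t - ⌊t⌋ := rfl
      obtain ⟨i, p, q, p', q', hc, h3, h4⟩ :=
        stf_cover S hρ (Int.fract_nonneg s) (Int.fract_lt_one s)
      have h5 : S.u (cn S.e i p q) ≤ Int.fract t := by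
        rw [hft]
        rw [hfs] at h3
        linarith
      have h6 : Int.fract t < S.u (cn S.e i p' q') := by
        by_contra h7
        have h8 := hmem i p' q' hc.1 hc.2.2.2.1
        apply hJ _ h8 ⌊t⌋
        rw [hft] at h7
        rw [hfs] at h4
        constructor
        · linarith
        · linarith [not_lt.mp h7]
      have e1 := stf_P_iff S (h := h) hc h3 h4
      have e2 := stf_P_iff S (h := h) hc h5 h6
      simp only [e1, e2]
  · intro i p q p' q' hc t h1 h2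
    obtain ⟨h3, h4⟩ := stf_in S hc h1 h2
    have hfr : Int.fract t = t := Int.fract_eq_self.mpr ⟨h3, h4⟩
    have e1 := stf_P_iff S (h := h) hc h1 h2
    simp only [hfr, e1]
    rcases gg_pm hh (stf_nm S hc) with h5 | h5
    · rw [h5]
      simp
    · rw [h5]
      simp

end

end Pool.Agent.MQ

namespace Pool.Agent.MQ

theorem step_fun : type_of% @step_fun_pr := @step_fun_pr

end Pool.Agent.MQ
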