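import Pool.Agent.Lib_helper39.MQ.Defs
import Pool.Agent.Lib_helper39.MQX.ALG
import Pool.Agent.Lib_helper39.MQX.BAD
import Pool.Agent.Lib_helper39.MQX.FAA
import Pool.Agent.Lib_helper39.MQX.NEA
import Pool.Agent.Lib_helper39.MQX.SBB
import Pool.Agent.Lib_helper39.MQX.SBC
import Pool.Agent.Lib_helper39.MQX.STF

/-! MQ, block STA: few exceptions give a step function. -/

namespace Pool.Agent.MQ

open Filter Topology MeasureTheory

theorem sta_cop {p q p' q' : ℕ} (hd : (p : ℤ) * q' - q * p' = 1) :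
    Nat.Coprime p q ∧ Nat.Coprime p' q' := by
  constructor
  · apply Nat.isCoprime_iff_coprime.1
    exact ⟨q', -p', by linarith⟩
  · apply Nat.isCoprime_iff_coprime.1
    exact ⟨-q, p, by linarith⟩

theorem sta_mono {b c : ℤ} (S : Sys b c) {i s t s' t' : ℕ} (hi : i < S.r)
    (hd : 0 < (s : ℤ) * t' - t * s') : S.u (cn S.e i s t) ≤ S.u (cn S.e i s' t') := by
  have h0 : 0 < dt (cn S.e i s t) (cn S.e i s' t') := by
    rw [dt_cn, S.e_det i hi, mul_one]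
    exact hd
  have h1 := (S.u_det i s t s' t' hi h0).1
  have h2 : 0 ≤ S.c₁ * (dt (cn S.e i s t) (cn S.e i s' t') : ℝ) /
      Real.sqrt (nm b c (cn S.e i s t) * nm b c (cn S.e i s' t')) := by
    apply div_nonneg (mul_nonneg S.c₁_pos.le _) (Real.sqrt_nonneg _)
    exact_mod_cast h0.le
  have h3 := h2.trans h1
  unfold Sys.u
  linarith

theorem sta_dich {b c : ℤ} (S : Sys b c) (h : ℕ → ℤ) {ρ : ℕ} (hρ : 1 ≤ ρ) {F : ℝ → ℝ}
    (hF : ∀ i p q p' q' : ℕ, S.Cell ρ i p q p' q' → ∀ t : ℝ, S.u (cn S.e i p q) ≤ t →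
      t < S.u (cn S.e i p' q') → F t = gg b c h (cn S.e i p q)) {v : El} (hv : S.wd v)
    {η x : ℝ} (hx : |x - S.u v| ≤ η) (hne : F x ≠ gg b c h v) :
    (∃ i s t : ℕ, i < S.r ∧ Nat.Coprime s t ∧ s + t ≤ ρ ∧
      |S.u v - S.u (cn S.e i s t)| ≤ η) ∨
    ∃ i p q p' q' k α β : ℕ, S.Cell ρ i p q p' q' ∧
      1 ≤ k ∧ 1 ≤ α ∧ 1 ≤ β ∧ Nat.Coprime α β ∧
      v = sm k (cn S.e i (α * p + β * p') (α * q + β * q')) ∧
      gg b c h v ≠ gg b c h (cn S.e i p q) := by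
  obtain ⟨i, s, t, hi, hs, hvv⟩ := (S.e_wd v).1 hv
  obtain ⟨s₁, t₁, hco, hs1, ht1⟩ := Nat.exists_coprime s t
  set k := Nat.gcd s t with hk
  have hk1 : 1 ≤ k := Nat.gcd_pos_of_pos_left _ hs
  have hvk : v = sm k (cn S.e i s₁ t₁) := by
    rw [hvv]
    nth_rewrite 1 [hs1, ht1]
    unfold sm cn
    push_cast
    ext <;> simp <;> ring
  have hu : S.u v = S.u (cn S.e i s₁ t₁) := by
    rw [hvk, u_sm S hk1]
  have hη : 0 ≤ η := (abs_nonneg _).trans hx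
  by_cases hle : s₁ + t₁ ≤ ρ
  · left
    refine ⟨i, s₁, t₁, hi, hco, hle, ?_⟩
    rw [hu, sub_self, abs_zero]
    exact hη
  push Not at hle
  obtain ⟨p, q, p', q', α, β, hcell, hα, hβ, hsα, htβ⟩ := cell_vec S hρ hi hco hle
  have hd : (p : ℤ) * q' - q * p' = 1 := hcell.2.1
  have hab : Nat.Coprime α β := by
    have h1 : Nat.gcd α β ∣ s₁ := by
      rw [hsα]
      exact dvd_add ((Nat.gcd_dvd_left _ _).mul_right _) ((Nat.gcd_dvd_right _ _).mul_right _)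
    have h2 : Nat.gcd α β ∣ t₁ := by
      rw [htβ]
      exact dvd_add ((Nat.gcd_dvd_left _ _).mul_right _) ((Nat.gcd_dvd_right _ _).mul_right _)
    have h3 := Nat.dvd_gcd h1 h2
    rw [hco] at h3
    exact Nat.dvd_one.1 h3
  have hl : S.u (cn S.e i p q) ≤ S.u v := by
    rw [hu]
    apply sta_mono S hi
    have : (p : ℤ) * t₁ - q * s₁ = β * ((p : ℤ) * q' - q * p') := by
      rw [hsα, htβ]
      push_cast
      ring
    rw [this, hd, mul_one]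
    exact_mod_cast hβ
  have hr : S.u v ≤ S.u (cn S.e i p' q') := by
    rw [hu]
    apply sta_mono S hi
    have : (s₁ : ℤ) * q' - t₁ * p' = α * ((p : ℤ) * q' - q * p') := by
      rw [hsα, htβ]
      push_cast
      ring
    rw [this, hd, mul_one]
    exact_mod_cast hα
  rw [abs_le] at hx
  by_cases h1 : S.u (cn S.e i p q) ≤ x
  · by_cases h2 : x < S.u (cn S.e i p' q')
    · right
      refine ⟨i, p, q, p', q', k, α, β, hcell, hk1, hα, hβ, hab, ?_, ?_⟩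
      · rw [← hsα, ← htβ]
        exact hvk
      · intro h3
        apply hne
        rw [hF i p q p' q' hcell x h1 h2, h3]
    · left
      push Not at h2
      refine ⟨i, p', q', hi, (sta_cop hd).2, hcell.2.2.2.1, ?_⟩
      rw [abs_le]
      constructor <;> linarith [hx.1, hx.2]
  · left
    push Not at h1
    refine ⟨i, p, q, hi, (sta_cop hd).1, hcell.2.2.1, ?_⟩
    rw [abs_le]
    constructor <;> linarith [hx.1, hx.2]

/-- the numerical part -/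
theorem sta_num {C₁ C₂ C₃ X L B : ℝ} (hC₁ : 1 ≤ C₁) (hC₂ : 1 ≤ C₂) (hC₃ : 1 ≤ C₃)
    (hX : 1 ≤ X) (hB : 0 ≤ B) (h1 : C₁ ≤ L) (h2 : 36 * C₂ ^ 2 ≤ L) (h3 : 4 * C₃ ≤ L)
    (h4 : L ^ 8 ≤ X) (h5 : B ≤ (X / (32 * C₃ * L ^ 6)) ^ 2) :
    ∃ ρ V : ℕ, 1 ≤ V ∧ V ≤ ρ ∧ (ρ : ℝ) ≤ Real.sqrt X ∧ C₁ * (ρ : ℝ) ^ 2 ≤ X / L ∧
      C₂ * (L / X * X * ρ ^ 2 + Real.sqrt X * ρ + ρ ^ 2) ≤ X / (2 * L) ∧
      C₃ * (X * V / ρ + X / (V * ρ) * Real.sqrt B) ≤ X / (2 * L) := by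
  have hX0 : 0 < X := by linarith
  have hL36 : 36 ≤ L := by nlinarith
  have hL0 : 0 < L := by linarith
  have hL1 : 1 ≤ L := by linarith
  set R : ℝ := Real.sqrt (X / L ^ 3) with hR
  have hR2 : R ^ 2 = X / L ^ 3 := Real.sq_sqrt (by positivity)
  have hR0 : 0 ≤ R := Real.sqrt_nonneg _
  have hRL : L ^ 2 + 2 ≤ R := by
    apply Real.le_sqrt_of_sq_le
    rw [le_div_iff₀ (by positivity)]
    have h6 : (L ^ 2 + 2) ^ 2 ≤ 4 * L ^ 4 := by nlinarith [sq_nonneg L, sq_nonneg (L ^ 2 - 2)]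
    calc (L ^ 2 + 2) ^ 2 * L ^ 3 ≤ 4 * L ^ 4 * L ^ 3 := by gcongr
      _ ≤ L * L ^ 4 * L ^ 3 := by
        gcongr
        linarith
      _ = L ^ 8 := by ring
      _ ≤ X := h4
  set ρ : ℕ := ⌊R⌋₊ with hρ
  have hρR : (ρ : ℝ) ≤ R := Nat.floor_le hR0
  have hρR' : R < ρ + 1 := Nat.lt_floor_add_one R
  have hρL : L ^ 2 + 1 ≤ ρ := by linarith
  have hρ0 : (0 : ℝ) < ρ := by nlinarith
  have hρ2 : (ρ : ℝ) ^ 2 ≤ X / L ^ 3 := by
    rw [← hR2]
    exact pow_le_pow_left₀ hρ0.le hρR 2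
  have hρlow : X / (4 * L ^ 3) ≤ (ρ : ℝ) ^ 2 := by
    have h6 : R / 2 ≤ ρ := by nlinarith
    calc X / (4 * L ^ 3) = (R / 2) ^ 2 := by
          rw [div_pow, hR2]
          field_simp
          norm_num
      _ ≤ (ρ : ℝ) ^ 2 := pow_le_pow_left₀ (by positivity) h6 2
  set y : ℝ := ρ / L ^ 2 with hy
  have hy1 : 1 ≤ y := by
    rw [hy, le_div_iff₀ (by positivity)]
    linarith
  set V : ℕ := ⌊y⌋₊ with hV
  have hV1 : 1 ≤ V := by
    rw [hV]
    exact Nat.one_le_floor_iff y |>.2 hy1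
  have hVy : (V : ℝ) ≤ y := Nat.floor_le (by linarith)
  have hVy' : y < V + 1 := Nat.lt_floor_add_one y
  have hV1' : (1 : ℝ) ≤ V := by exact_mod_cast hV1
  have hVlow : y / 2 ≤ V := by linarith
  have hVρ : (V : ℝ) ≤ ρ := by
    refine hVy.trans ?_
    rw [hy]
    exact div_le_self hρ0.le (one_le_pow₀ hL1)
  refine ⟨ρ, V, hV1, by exact_mod_cast hVρ, ?_, ?_, ?_, ?_⟩
  · refine hρR.trans (Real.sqrt_le_sqrt ?_)
    exact div_le_self hX0.le (one_le_pow₀ hL1)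
  · calc C₁ * (ρ : ℝ) ^ 2 ≤ L * (X / L ^ 3) := by gcongr
      _ = X / L ^ 2 := by field_simp
      _ ≤ X / L := by
        gcongr
        nlinarith
  · have ha : L / X * X * (ρ : ℝ) ^ 2 ≤ X / (6 * C₂ * L) := by
      calc L / X * X * (ρ : ℝ) ^ 2 = L * (ρ : ℝ) ^ 2 := by field_simp
        _ ≤ L * (X / L ^ 3) := by gcongr
        _ = X / (L * L) := by field_simp
        _ ≤ X / (6 * C₂ * L) := by
          gcongr
          nlinarith
    have hb : Real.sqrt X * ρ ≤ X / (6 * C₂ * L) := by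
      apply le_of_sq_le_sq _ (by positivity)
      rw [mul_pow, Real.sq_sqrt hX0.le]
      calc X * (ρ : ℝ) ^ 2 ≤ X * (X / L ^ 3) := by gcongr
        _ = X ^ 2 / (L * L ^ 2) := by field_simp
        _ ≤ X ^ 2 / ((36 * C₂ ^ 2) * L ^ 2) := by gcongr
        _ = (X / (6 * C₂ * L)) ^ 2 := by
          rw [div_pow]
          congr 1
          ring
    have hc : (ρ : ℝ) ^ 2 ≤ X / (6 * C₂ * L) := by
      refine hρ2.trans ?_
      apply div_le_div_of_nonneg_left hX0.le (by positivity)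
      have h6 : 6 * C₂ ≤ L := by nlinarith
      have h7 : 1 ≤ L ^ 2 / L := by
        rw [le_div_iff₀ hL0]
        nlinarith
      calc 6 * C₂ * L ≤ L * L := by gcongr
        _ = L ^ 2 * 1 := by ring
        _ ≤ L ^ 2 * L := by gcongr
        _ = L ^ 3 := by ring
    calc C₂ * (L / X * X * ρ ^ 2 + Real.sqrt X * ρ + ρ ^ 2)
        ≤ C₂ * (X / (6 * C₂ * L) + X / (6 * C₂ * L) + X / (6 * C₂ * L)) := by gcongr
      _ = X / (2 * L) := by
        field_simp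
        norm_num
  · have ha : X * V / ρ ≤ X / (4 * C₃ * L) := by
      calc X * V / ρ ≤ X * y / ρ := by gcongr
        _ = X / (L * L) := by
          rw [hy]
          field_simp
        _ ≤ X / (4 * C₃ * L) := by gcongr
    have hVρlow : X / (8 * L ^ 5) ≤ V * ρ := by
      calc X / (8 * L ^ 5) = (X / (4 * L ^ 3)) / (2 * L ^ 2) := by
            field_simp
            norm_num
        _ ≤ (ρ : ℝ) ^ 2 / (2 * L ^ 2) := by gcongr
        _ = y / 2 * ρ := by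
          rw [hy]
          field_simp
        _ ≤ V * ρ := by gcongr
    have hb : X / (V * ρ) ≤ 8 * L ^ 5 := by
      rw [div_le_iff₀ (by positivity)]
      rw [div_le_iff₀ (by positivity)] at hVρlow
      linarith
    have hc : Real.sqrt B ≤ X / (32 * C₃ * L ^ 6) := by
      rw [Real.sqrt_le_left (by positivity)]
      exact h5
    calc C₃ * (X * V / ρ + X / (V * ρ) * Real.sqrt B)
        ≤ C₃ * (X / (4 * C₃ * L) + 8 * L ^ 5 * (X / (32 * C₃ * L ^ 6))) := by gcongr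
      _ = X / (2 * L) := by
        field_simp
        norm_num

theorem sta_eventually (A' : ℝ) (hA' : 0 < A') (c₀ : ℝ) (hc₀ : 0 < c₀) (K : ℝ) :
    ∃ x₀ : ℝ, ∀ x : ℝ, x₀ ≤ x → 1 ≤ Real.log (c₀ * x) ∧ K ≤ Real.log (c₀ * x) ∧
      K ≤ Real.log (c₀ * x) ^ A' ∧ (Real.log (c₀ * x) ^ A') ^ 8 ≤ c₀ * x ∧ 1 ≤ c₀ * x := by
  have hX : Tendsto (fun x : ℝ => c₀ * x) atTop atTop := tendsto_id.const_mul_atTop hc₀
  have hlog : Tendsto (fun x : ℝ => Real.log (c₀ * x)) atTop atTop :=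
    Real.tendsto_log_atTop.comp hX
  have hpow : Tendsto (fun x : ℝ => Real.log (c₀ * x) ^ A') atTop atTop :=
    (tendsto_rpow_atTop hA').comp hlog
  have hlo : ∀ᶠ y : ℝ in atTop, Real.log y ^ (A' * 8) ≤ y := by
    have h1 := (isLittleO_log_rpow_rpow_atTop (A' * 8) (show (0 : ℝ) < 1 by norm_num)).bound
      (show (0 : ℝ) < 1 by norm_num)
    filter_upwards [h1, eventually_ge_atTop (1 : ℝ)] with y hy hy1
    have h2 : 0 ≤ Real.log y := Real.log_nonneg hy1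
    rw [Real.rpow_one, Real.norm_eq_abs, Real.norm_eq_abs, one_mul,
      abs_of_nonneg (Real.rpow_nonneg h2 _), abs_of_nonneg (by linarith : (0 : ℝ) ≤ y)] at hy
    exact hy
  have hall : ∀ᶠ x : ℝ in atTop, 1 ≤ Real.log (c₀ * x) ∧ K ≤ Real.log (c₀ * x) ∧
      K ≤ Real.log (c₀ * x) ^ A' ∧ (Real.log (c₀ * x) ^ A') ^ 8 ≤ c₀ * x ∧ 1 ≤ c₀ * x := by
    filter_upwards [hlog.eventually_ge_atTop 1, hlog.eventually_ge_atTop K,
      hpow.eventually_ge_atTop K, hX.eventually hlo, hX.eventually_ge_atTop 1]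
      with x h1 h2 h3 h4 h5
    refine ⟨h1, h2, h3, ?_, h5⟩
    rw [← Real.rpow_natCast, ← Real.rpow_mul (by linarith)]
    exact_mod_cast h4
  exact eventually_atTop.1 hall

theorem step_a_pr : ∀ A' : ℝ, 0 < A' → ∃ A : ℝ, 0 < A ∧ ∀ (b c : ℤ) (S : Sys b c),
    ¬ IsSquare (dsc b c) → ∀ h : ℕ → ℤ, Sgn h → ∃ c₀ : ℝ, 0 < c₀ ∧ c₀ ≤ 1 ∧ ∃ x₀ : ℝ,
    ∀ x : ℝ, x₀ ≤ x → ((Bd b c h x).card : ℝ) ≤ x / Real.log x ^ A →
      ∃ F : ℝ → ℝ, Loc S h (c₀ * x) (Real.log (c₀ * x) ^ A') F := by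
  classical
  intro A' hA'
  obtain ⟨a, hbad⟩ := bad_card
  refine ⟨12 * A' + a + 2, by positivity, fun b c S hs h hh => ?_⟩
  obtain ⟨C₃, hC₃, hbad⟩ := hbad b c S hs
  obtain ⟨C₁, hC₁, hfun⟩ := step_fun S
  obtain ⟨C₂, hC₂, hnear⟩ := near_card S
  have hC₃0 : 0 < C₃ := by linarith
  refine ⟨C₃⁻¹, by positivity, inv_le_one_of_one_le₀ hC₃, ?_⟩
  set K : ℝ := C₁ + 36 * C₂ ^ 2 + 4 * C₃ + 1024 * C₃ ^ 3 * 2 ^ a with hK
  have hK1 : C₁ ≤ K := by
    have : 0 ≤ 36 * C₂ ^ 2 + 4 * C₃ + 1024 * C₃ ^ 3 * 2 ^ a := by positivity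
    linarith
  have hK2 : 36 * C₂ ^ 2 ≤ K := by
    have : 0 ≤ C₁ + 4 * C₃ + 1024 * C₃ ^ 3 * 2 ^ a := by positivity
    linarith
  have hK3 : 4 * C₃ ≤ K := by
    have : 0 ≤ C₁ + 36 * C₂ ^ 2 + 1024 * C₃ ^ 3 * 2 ^ a := by positivity
    linarith
  have hK4 : 1024 * C₃ ^ 3 * 2 ^ a ≤ K := by
    have : 0 ≤ C₁ + 36 * C₂ ^ 2 + 4 * C₃ := by positivity
    linarith
  obtain ⟨x₀, hx₀⟩ := sta_eventually A' hA' C₃⁻¹ (by positivity) K
  refine ⟨x₀, fun x hx hBd => ?_⟩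
  obtain ⟨hl1, hlK, hLK, hL8, hX1⟩ := hx₀ x hx
  set X : ℝ := C₃⁻¹ * x with hX
  set l : ℝ := Real.log X with hl
  set L : ℝ := l ^ A' with hL
  have hX0 : 0 < X := by linarith
  have hCX : C₃ * X = x := by
    rw [hX]
    field_simp
  have hxX : X ≤ x := by
    rw [← hCX]
    nlinarith
  have hlT : l ≤ Real.log x := Real.log_le_log hX0 hxX
  set T : ℝ := Real.log x with hT
  have hT1 : 1 ≤ T := hl1.trans hlT
  have hL0 : 0 < L := Real.rpow_pos_of_pos (by linarith) _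
  have hLT : L ≤ T ^ A' := Real.rpow_le_rpow (by linarith) hlT hA'.le
  set B : ℝ := ((Bd b c h (C₃ * X)).card : ℝ) * X * (1 + Real.log X) ^ a with hB
  have hB0 : 0 ≤ B := by
    have : 0 ≤ 1 + Real.log X := by linarith
    positivity
  have hTA : T ^ (12 * A' + a + 2) = (T ^ A') ^ 12 * T ^ a * T ^ 2 := by
    have hT0 : 0 < T := by linarith
    rw [Real.rpow_add hT0, Real.rpow_add hT0, Real.rpow_natCast]
    congr 1
    · congr 1
      rw [← Real.rpow_natCast, ← Real.rpow_mul hT0.le]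
      congr 1
      push_cast
      ring
    · exact_mod_cast Real.rpow_natCast T 2
  have hB5 : B ≤ (X / (32 * C₃ * L ^ 6)) ^ 2 := by
    have hT0 : 0 < T := by linarith
    have h1 : ((Bd b c h (C₃ * X)).card : ℝ) ≤ C₃ * X / T ^ (12 * A' + a + 2) := by
      rw [hCX]
      exact hBd
    have h2 : (1 + Real.log X) ^ a ≤ (2 * T) ^ a := by
      apply pow_le_pow_left₀ (by linarith)
      linarith
    have h3 : 1024 * C₃ ^ 3 * (2 * T) ^ a * L ^ 12 ≤ T ^ (12 * A' + a + 2) := by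
      rw [hTA, mul_pow]
      have h4 : 1024 * C₃ ^ 3 * 2 ^ a ≤ T ^ 2 := by
        have h5 : K ≤ T := hlK.trans hlT
        nlinarith
      have h6 : L ^ 12 ≤ (T ^ A') ^ 12 := pow_le_pow_left₀ hL0.le hLT 12
      calc 1024 * C₃ ^ 3 * (2 ^ a * T ^ a) * L ^ 12
          = (1024 * C₃ ^ 3 * 2 ^ a) * T ^ a * L ^ 12 := by ring
        _ ≤ T ^ 2 * T ^ a * (T ^ A') ^ 12 := by
          apply mul_le_mul _ h6 (by positivity) (by positivity)
          apply mul_le_mul_of_nonneg_right h4 (by positivity)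
        _ = (T ^ A') ^ 12 * T ^ a * T ^ 2 := by ring
    have hTA0 : 0 < T ^ (12 * A' + a + 2) := Real.rpow_pos_of_pos hT0 _
    calc B ≤ (C₃ * X / T ^ (12 * A' + a + 2)) * X * (2 * T) ^ a := by
          rw [hB]
          have : 0 ≤ (1 + Real.log X) ^ a := by
            apply pow_nonneg
            linarith
          gcongr
      _ = X ^ 2 * (C₃ * (2 * T) ^ a / T ^ (12 * A' + a + 2)) := by
        field_simp
      _ ≤ X ^ 2 * (1 / (1024 * C₃ ^ 2 * L ^ 12)) := by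
        gcongr ?_ * ?_
        rw [div_le_div_iff₀ hTA0 (by positivity)]
        calc C₃ * (2 * T) ^ a * (1024 * C₃ ^ 2 * L ^ 12)
            = 1024 * C₃ ^ 3 * (2 * T) ^ a * L ^ 12 := by ring
          _ ≤ 1 * T ^ (12 * A' + a + 2) := by
            rw [one_mul]
            exact h3
      _ = (X / (32 * C₃ * L ^ 6)) ^ 2 := by
        rw [div_pow]
        field_simp
        norm_num
  obtain ⟨ρ, V, hV1, hVρ, hρX, hn1, hn2, hn3⟩ := sta_num hC₁ hC₂ hC₃ hX1 hB0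
    (hK1.trans hLK) (hK2.trans hLK) (hK3.trans hLK) hL8 hB5
  have hρ1 : 1 ≤ ρ := hV1.trans hVρ
  obtain ⟨F, hper, hmeas, hpm, ⟨J, hJc, hJ⟩, hcell⟩ := hfun h hh ρ hρ1
  refine ⟨F, hper, hmeas, hpm, ⟨J, hJc.trans hn1, hJ⟩, ?_⟩
  set N : Finset El := (S.MF X).filter (fun v => ∃ i s t : ℕ, i < S.r ∧ Nat.Coprime s t ∧
    s + t ≤ ρ ∧ |S.u v - S.u (cn S.e i s t)| ≤ L / X) with hN
  set Q : Finset El := (S.MF X).filter (fun m => ∃ i p q p' q' k α β : ℕ,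
    S.Cell ρ i p q p' q' ∧ 1 ≤ k ∧ 1 ≤ α ∧ 1 ≤ β ∧ Nat.Coprime α β ∧
      m = sm k (cn S.e i (α * p + β * p') (α * q + β * q')) ∧
      gg b c h m ≠ gg b c h (cn S.e i p q)) with hQ
  have hsub : (S.MF X).filter (fun v => ∃ t : ℝ, |t - S.u v| ≤ L / X ∧ F t ≠ gg b c h v) ⊆
      N ∪ Q := by
    intro v hv
    rw [Finset.mem_filter] at hv
    obtain ⟨hvM, t, ht, hne⟩ := hv
    have hvw := ((mem_MF S).1 hvM).1
    rw [Finset.mem_union]
    rcases sta_dich S h hρ1 hcell hvw ht hne with h1 | h1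
    · left
      exact Finset.mem_filter.2 ⟨hvM, h1⟩
    · right
      exact Finset.mem_filter.2 ⟨hvM, h1⟩
  have hNc : (N.card : ℝ) ≤ X / (2 * L) := by
    refine le_trans ?_ hn2
    have := hnear X (L / X) ρ hX1 (by positivity) hρ1 hρX
    convert this using 4
  have hQc : (Q.card : ℝ) ≤ X / (2 * L) := by
    refine le_trans ?_ hn3
    exact hbad h hh X ρ V hV1 hVρ hρX Q (fun m hm => Finset.mem_filter.1 hm)
  have h1 : (((S.MF X).filter (fun v => ∃ t : ℝ, |t - S.u v| ≤ L / X ∧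
      F t ≠ gg b c h v)).card : ℝ) ≤ N.card + Q.card := by
    exact_mod_cast (Finset.card_le_card hsub).trans (Finset.card_union_le _ _)
  have h2 : X / (2 * L) + X / (2 * L) = X / L := by
    field_simp
    norm_num
  have h3 : (((S.MF X).filter (fun v => ∃ t : ℝ, |t - S.u v| ≤ L / X ∧
      F t ≠ gg b c h v)).card : ℝ) ≤ X / L := by linarith
  convert h3 using 4

end Pool.Agent.MQ

namespace Pool.Agent.MQ

theorem step_a : type_of% @step_a_pr := @step_a_pr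

end Pool.Agent.MQ
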