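import Pool.Agent.Lib_helper39.MQ.Defs
import Pool.Agent.Lib_helper39.MQX.COR
import Pool.Agent.Lib_helper39.MQX.STA
import Pool.Agent.Lib_helper39.MQX.SYN
import Pool.Agent.Lib_helper39.MQX.SYP

/-! block MIN -/

namespace Pool.Agent.MQ

open Filter Topology MeasureTheory

theorem min_loc_mono {b c : ℤ} {S : Sys b c} {h : ℕ → ℤ} {X L L' : ℝ} {F : ℝ → ℝ}
    (hX : 0 ≤ X) (hL' : 0 < L') (hLL : L' ≤ L) (hF : Loc S h X L F) : Loc S h X L' F := by
  classical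
  have hle : X / L ≤ X / L' := div_le_div_of_nonneg_left hX hL' hLL
  refine ⟨hF.per, hF.meas, hF.pm, ?_, ?_⟩
  · obtain ⟨J, hJ, hJ'⟩ := hF.jump
    exact ⟨J, hJ.trans hle, hJ'⟩
  · refine le_trans ?_ (hF.good.trans hle)
    have : ((S.MF X).filter (fun v => ∃ t : ℝ, |t - S.u v| ≤ L' / X ∧ F t ≠ gg b c h v)) ⊆
        ((S.MF X).filter (fun v => ∃ t : ℝ, |t - S.u v| ≤ L / X ∧ F t ≠ gg b c h v)) := by
      intro v hv
      rw [Finset.mem_filter] at hv ⊢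
      obtain ⟨hv1, t, ht, hne⟩ := hv
      exact ⟨hv1, t, ht.trans (div_le_div_of_nonneg_right hLL hX), hne⟩
    exact_mod_cast Finset.card_le_card this

theorem minus_sign_pr : ∃ A : ℝ, 0 < A ∧ ∀ b c : ℤ, ¬ IsSquare (dsc b c) → ∀ h : ℕ → ℤ, Sgn h →
    (∃ v : El, 0 < nm b c v ∧ gg b c h v = -1) → ∃ x₀ : ℝ, ∀ x : ℝ, x₀ ≤ x →
      x / Real.log x ^ A ≤ ((Bd b c h x).card : ℝ) := by
  obtain ⟨A', hA', hcore⟩ := core
  obtain ⟨A, hA, hstep⟩ := step_a A' hA'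
  refine ⟨A, hA, ?_⟩
  intro b c hs h hh hv
  have hsys : Nonempty (Sys b c) := by
    rcases lt_trichotomy (dsc b c) 0 with h0 | h0 | h0
    · exact sys_neg b c h0
    · exact absurd ⟨0, by rw [h0]; ring⟩ hs
    · exact sys_pos b c h0 hs
  obtain ⟨S⟩ := hsys
  obtain ⟨X₀, hX₀⟩ := hcore b c S hs h hh hv
  obtain ⟨c₀, hc₀, hc₁, x₀, hx₀⟩ := hstep b c S hs h hh
  refine ⟨max x₀ (max ((max X₀ 3) ^ 2 / c₀) 3), ?_⟩
  intro x hx
  by_contra hcon
  push Not at hcon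
  have h1 : x₀ ≤ x := (le_max_left _ _).trans hx
  have h2 : (max X₀ 3) ^ 2 / c₀ ≤ x := (le_max_left _ _).trans ((le_max_right _ _).trans hx)
  obtain ⟨F, hF⟩ := hx₀ x h1 hcon.le
  have h3 : (max X₀ 3) ^ 2 ≤ c₀ * x := by
    rw [div_le_iff₀ hc₀] at h2
    linarith
  have hpos : 0 ≤ c₀ * x := le_trans (by positivity) h3
  set X : ℝ := Real.sqrt (c₀ * x) with hX
  have hXsq : X ^ 2 = c₀ * x := Real.sq_sqrt hpos
  have hXge : max X₀ 3 ≤ X := by
    rw [hX]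
    exact Real.le_sqrt_of_sq_le h3
  have hX3 : 3 ≤ X := (le_max_right _ _).trans hXge
  refine hX₀ X ((le_max_left _ _).trans hXge) F ?_
  rw [hXsq]
  have hlogX : 0 < Real.log X := Real.log_pos (by linarith)
  have hle : Real.log X ≤ Real.log (c₀ * x) := by
    apply Real.log_le_log (by linarith)
    rw [← hXsq]
    nlinarith
  exact min_loc_mono hpos (Real.rpow_pos_of_pos hlogX _)
    (Real.rpow_le_rpow hlogX.le hle hA'.le) hF

end Pool.Agent.MQ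

namespace Pool.Agent.MQ

theorem minus_sign : type_of% @minus_sign_pr := @minus_sign_pr

end Pool.Agent.MQ
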